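import Pool.Agent.Lib.MP_973905_nt.K5.Stmts
import Pool.Agent.Lib.MP_973905_nt.Arith

set_option autoImplicit false

/-! (B2) The arithmetic factor as a limit over finite products. -/

namespace Pool.Agent.Lib.MP_973905_nt
namespace K5

open MeasureTheory ProbabilityTheory Complex Filter Topology K1

namespace AKaux

open CK

/-- the primes up to `y` -/
noncomputable def PP (y : ℝ) : Finset Nat.Primes := Finset.subtype Nat.Prime (PS 0 y)

lemma mem_PS {y : ℝ} {p : ℕ} : p ∈ PS 0 y ↔ p ≤ ⌊y⌋₊ ∧ p.Prime := by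
  unfold PS
  rw [Nat.floor_zero, Finset.mem_filter, Finset.mem_Ioc]
  constructor
  · rintro ⟨⟨_, h⟩, h2⟩
    exact ⟨h, h2⟩
  · rintro ⟨h, h2⟩
    exact ⟨⟨h2.pos, h⟩, h2⟩

lemma mem_PP {y : ℝ} {p : Nat.Primes} : p ∈ PP y ↔ (p : ℕ) ∈ PS 0 y := Finset.mem_subtype

lemma tendsto_PP : Tendsto PP atTop atTop := by
  refine tendsto_atTop_finset_of_monotone ?_ ?_
  · intro y y' hy p hp
    rw [mem_PP, mem_PS] at hp ⊢
    exact ⟨hp.1.trans (Nat.floor_mono hy), hp.2⟩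
  · intro p
    refine ⟨(p : ℕ), ?_⟩
    rw [mem_PP, mem_PS]
    exact ⟨by rw [Nat.floor_natCast], p.2⟩

lemma sum_PP (y : ℝ) (g : ℕ → ℝ) : ∑ p ∈ PP y, g p = ∑ p ∈ PS 0 y, g p := by
  have h : ∑ p ∈ PP y, g p = ∑ p ∈ (PS 0 y).filter Nat.Prime, g p :=
    Finset.sum_subtype_eq_sum_filter (s := PS 0 y) (p := Nat.Prime) g
  rw [h]
  congr 1
  exact Finset.filter_true_of_mem fun p hp => (mem_PS.mp hp).2

lemma tendsto_lf {k : ℝ} (hk : 0 < k) (hk1 : k ≤ 1) :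
    Tendsto (fun y : ℝ => ∏ p ∈ PS 0 y, lf k ((p : ℝ)⁻¹)) atTop (𝓝 (aK k)) := by
  have h1 := (summable_log_lf hk hk1).hasSum.comp tendsto_PP
  have h2 := (Real.continuous_exp.tendsto _).comp h1
  rw [← aK_exp hk hk1] at h2
  refine h2.congr fun y => ?_
  simp only [Function.comp_apply]
  rw [sum_PP y (fun p => Real.log (lf k ((p : ℝ)⁻¹))), Real.exp_sum]
  refine Finset.prod_congr rfl fun p hp => ?_
  have hp2 := (mem_PS.mp hp).2
  have := prime_inv ⟨p, hp2⟩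
  exact Real.exp_log (lf_pos hk hk1 this.1 (by linarith [this.2]))

lemma local_eq {k : ℝ} (hk : 0 < k) {p : ℕ} (hp : p.Prime) :
    Dl k ((p : ℝ) ^ (-(1 / 2) : ℝ)) = ((1 - 1 / (p : ℝ))⁻¹) ^ (k ^ 2) * lf k ((p : ℝ)⁻¹) := by
  have hp2 : (2 : ℝ) ≤ p := by exact_mod_cast hp.two_le
  have hp0 : (0 : ℝ) < p := by linarith
  have h1 : (p : ℝ) ^ (-(1 / 2) : ℝ) < 1 := Real.rpow_lt_one_of_one_lt_of_neg (by linarith) (by norm_num)
  rw [Arith.Dl_eq hk (by positivity) h1]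
  have h2 : ((p : ℝ) ^ (-(1 / 2) : ℝ)) ^ 2 = (p : ℝ)⁻¹ := by
    rw [← Real.rpow_natCast, ← Real.rpow_mul hp0.le, ← Real.rpow_neg_one]
    norm_num
  rw [h2, lf, one_div, ← mul_assoc, Real.inv_rpow]
  · have h3 : (0 : ℝ) < 1 - (p : ℝ)⁻¹ := by
      have : (p : ℝ)⁻¹ ≤ 2⁻¹ := inv_anti₀ (by norm_num) hp2
      linarith
    have h4 : (0 : ℝ) < (1 - (p : ℝ)⁻¹) ^ (k ^ 2) := Real.rpow_pos_of_pos h3 _
    rw [inv_mul_cancel₀ h4.ne', one_mul]
  · have : (p : ℝ)⁻¹ ≤ 2⁻¹ := inv_anti₀ (by norm_num) hp2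
    linarith

/-- Mertens' product -/
noncomputable def MM (y : ℝ) : ℝ := ∏ p ∈ PS 0 y, (1 - 1 / (p : ℝ))⁻¹

lemma factor_pos {p : ℕ} (hp : p.Prime) : 0 < (1 - 1 / (p : ℝ))⁻¹ := by
  have hp2 : (2 : ℝ) ≤ p := by exact_mod_cast hp.two_le
  have : 1 / (p : ℝ) ≤ 1 / 2 := one_div_le_one_div_of_le (by norm_num) hp2
  exact inv_pos.mpr (by linarith)

lemma MM_pos (y : ℝ) : 0 < MM y := Finset.prod_pos fun _ hp => factor_pos (mem_PS.mp hp).2

lemma prod_Dl {k : ℝ} (hk : 0 < k) (y : ℝ) :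
    ∏ p ∈ PS 0 y, Dl k ((p : ℝ) ^ (-(1 / 2) : ℝ)) =
      MM y ^ (k ^ 2) * ∏ p ∈ PS 0 y, lf k ((p : ℝ)⁻¹) := by
  rw [Finset.prod_congr rfl fun p hp => local_eq hk (mem_PS.mp hp).2, Finset.prod_mul_distrib]
  congr 1
  exact Real.finsetProd_rpow _ _ (fun p hp => (factor_pos (mem_PS.mp hp).2).le) _

lemma prod_one_sub (y : ℝ) : ∏ p ∈ PS 0 y, (1 - 1 / (p : ℝ)) = (MM y)⁻¹ := by
  unfold MM
  rw [← Finset.prod_inv_distrib]
  exact Finset.prod_congr rfl fun _ _ => (inv_inv _).symm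

lemma tendsto_ratio (h : StMertens) :
    Tendsto (fun y : ℝ => MM y / (Real.exp Real.eulerMascheroniConstant * Real.log y)) atTop
      (𝓝 1) := by
  have h1 : Tendsto (fun y : ℝ => MM y / Real.log y) atTop
      (𝓝 (Real.exp Real.eulerMascheroniConstant)) := h
  have h2 := h1.div_const (Real.exp Real.eulerMascheroniConstant)
  rw [div_self (Real.exp_pos _).ne'] at h2
  refine h2.congr fun y => ?_
  rw [div_div, mul_comm]

end AKaux

open AKaux CK in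
theorem stAK (h : StMertens) : StAK := by
  intro k hk hk1
  have hpos : 0 < aK k := by
    rw [aK_exp hk hk1]
    exact Real.exp_pos _
  refine ⟨hpos, ?_, ?_⟩
  · have h1 := (((tendsto_ratio h).rpow_const (p := k ^ 2) (Or.inl one_ne_zero))).mul
      (tendsto_lf hk hk1)
    rw [Real.one_rpow, one_mul] at h1
    refine h1.congr' ?_
    filter_upwards [eventually_gt_atTop 1] with y hy
    have hL : 0 < Real.exp Real.eulerMascheroniConstant * Real.log y :=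
      mul_pos (Real.exp_pos _) (Real.log_pos hy)
    rw [prod_Dl hk, Real.div_rpow (MM_pos y).le hL.le]
    ring
  · have h1 := (((tendsto_ratio h).rpow_const (p := k ^ 2 - 1) (Or.inl one_ne_zero))).mul
      (tendsto_lf hk hk1)
    rw [Real.one_rpow, one_mul] at h1
    refine h1.congr' ?_
    filter_upwards [eventually_gt_atTop 1] with y hy
    have hL : 0 < Real.exp Real.eulerMascheroniConstant * Real.log y :=
      mul_pos (Real.exp_pos _) (Real.log_pos hy)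
    rw [Finset.prod_mul_distrib, prod_Dl hk, prod_one_sub,
      Real.div_rpow (MM_pos y).le hL.le, Real.rpow_sub (MM_pos y), Real.rpow_one]
    ring

end K5
end Pool.Agent.Lib.MP_973905_nt
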