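import Pool.Agent.Lib.MP_973905_nt.K5.Stmts

/-! (B11) our products are polynomials of two variables of length `T^{0.89}` with small coefficients. -/

namespace Pool.Agent.Lib.MP_973905_nt
namespace K5

open MeasureTheory ProbabilityTheory Complex Filter Topology K1

namespace BQx

/-- Evaluation of a finitely supported family of coefficients. -/
noncomputable def ev (c : ℕ × ℕ →₀ ℂ) (f : ℕ → ℂ) : ℂ :=
  c.sum fun x a => a * (f x.1 * (starRingEnd ℂ) (f x.2))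

/-- Functionals with coefficients at most `Q`, supported in `W`. -/
def IC (W : ℕ × ℕ → Prop) (Q : ℝ) (G : (ℕ → ℂ) → ℂ) : Prop :=
  ∃ c : ℕ × ℕ →₀ ℂ, (∀ x, ‖c x‖ ≤ Q) ∧ (∀ x, c x ≠ 0 → W x) ∧ ∀ f, CMul f → G f = ev c f

/-- The support condition with the number of prime factors. -/
def WA (A : ℕ) (N : ℝ) (x : ℕ × ℕ) : Prop :=
  1 ≤ x.1 ∧ 1 ≤ x.2 ∧ (x.1 : ℝ) * x.2 ≤ N ∧
    ArithmeticFunction.cardFactors x.1 + ArithmeticFunction.cardFactors x.2 ≤ A

/-- The support condition. -/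
def WB (N : ℝ) (x : ℕ × ℕ) : Prop := 1 ≤ x.1 ∧ 1 ≤ x.2 ∧ (x.1 : ℝ) * x.2 ≤ N

variable {W W' : ℕ × ℕ → Prop} {Q Q' : ℝ} {G H : (ℕ → ℂ) → ℂ}

lemma ev_add (c d : ℕ × ℕ →₀ ℂ) (f : ℕ → ℂ) : ev (c + d) f = ev c f + ev d f := by
  unfold ev
  exact Finsupp.sum_add_index' (fun _ => by simp) (fun _ _ _ => by ring)

lemma ev_smul (a : ℂ) (c : ℕ × ℕ →₀ ℂ) (f : ℕ → ℂ) : ev (a • c) f = a * ev c f := by
  unfold ev
  rw [Finsupp.sum_smul_index' (fun _ => by simp), Finsupp.mul_sum]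
  refine Finsupp.sum_congr fun x _ => ?_
  rw [smul_eq_mul, mul_assoc]

lemma ev_zero (f : ℕ → ℂ) : ev 0 f = 0 := by
  unfold ev
  exact Finsupp.sum_zero_index

lemma ev_sum {ι : Type*} (s : Finset ι) (c : ι → ℕ × ℕ →₀ ℂ) (f : ℕ → ℂ) :
    ev (∑ i ∈ s, c i) f = ∑ i ∈ s, ev (c i) f := by
  classical
  induction s using Finset.induction_on with
  | empty => simp [ev_zero]
  | insert a s ha ih => rw [Finset.sum_insert ha, Finset.sum_insert ha, ev_add, ih]

lemma IC.congr (h : IC W Q G) (e : ∀ f, CMul f → G f = H f) : IC W Q H := by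
  obtain ⟨c, h1, h2, h3⟩ := h
  exact ⟨c, h1, h2, fun f hf => by rw [← e f hf, h3 f hf]⟩

lemma IC.mono (h : IC W Q G) (hW : ∀ x, W x → W' x) (hQ : Q ≤ Q') : IC W' Q' G := by
  obtain ⟨c, h1, h2, h3⟩ := h
  exact ⟨c, fun x => (h1 x).trans hQ, fun x hx => hW x (h2 x hx), h3⟩

lemma IC.nonneg (h : IC W Q G) : 0 ≤ Q := by
  obtain ⟨c, h1, h2, h3⟩ := h
  exact (norm_nonneg (c (0, 0))).trans (h1 _)

lemma IC.add (h : IC W Q G) (h' : IC W Q' H) : IC W (Q + Q') (fun f => G f + H f) := by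
  obtain ⟨c, h1, h2, h3⟩ := h
  obtain ⟨d, h1', h2', h3'⟩ := h'
  refine ⟨c + d, fun x => ?_, fun x hx => ?_, fun f hf => ?_⟩
  · rw [Finsupp.add_apply]
    exact (norm_add_le _ _).trans (add_le_add (h1 x) (h1' x))
  · by_cases hc : c x = 0
    · apply h2'
      rw [Finsupp.add_apply, hc, zero_add] at hx
      exact hx
    · exact h2 x hc
  · beta_reduce
    rw [ev_add, h3 f hf, h3' f hf]

lemma IC.smul (h : IC W Q G) (a : ℂ) : IC W (‖a‖ * Q) (fun f => a * G f) := by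
  obtain ⟨c, h1, h2, h3⟩ := h
  refine ⟨a • c, fun x => ?_, fun x hx => ?_, fun f hf => ?_⟩
  · rw [Finsupp.smul_apply, smul_eq_mul, norm_mul]
    exact mul_le_mul_of_nonneg_left (h1 x) (norm_nonneg _)
  · apply h2
    intro hc
    apply hx
    rw [Finsupp.smul_apply, hc, smul_zero]
  · beta_reduce
    rw [ev_smul, h3 f hf]

lemma IC.zero : IC W 0 (fun _ => 0) :=
  ⟨0, fun x => by simp, fun x hx => by simp at hx, fun f _ => (ev_zero f).symm⟩

lemma IC.one (hW : W (1, 1)) : IC W 1 (fun _ => 1) := by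
  refine ⟨Finsupp.single (1, 1) 1, fun x => ?_, fun x hx => ?_, fun f hf => ?_⟩
  · rw [Finsupp.single_apply]
    split_ifs <;> simp
  · rw [Finsupp.single_apply] at hx
    split_ifs at hx with h
    · rw [← h]; exact hW
    · simp at hx
  · unfold ev
    rw [Finsupp.sum_single_index (by simp)]
    simp [hf.1]

lemma IC.sum {ι : Type*} (s : Finset ι) {Q : ι → ℝ} {G : ι → (ℕ → ℂ) → ℂ}
    (h : ∀ i ∈ s, IC W (Q i) (G i)) : IC W (∑ i ∈ s, Q i) (fun f => ∑ i ∈ s, G i f) := by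
  classical
  induction s using Finset.induction_on with
  | empty => simpa using (IC.zero (W := W))
  | insert a s ha ih =>
    have h1 := (h a (Finset.mem_insert_self _ _)).add
      (ih fun i hi => h i (Finset.mem_insert_of_mem hi))
    rw [Finset.sum_insert ha]
    exact h1.congr fun f _ => by rw [Finset.sum_insert ha]

/-- The dilation map. -/
def dil (a b : ℕ) (x : ℕ × ℕ) : ℕ × ℕ := (a * x.1, b * x.2)

lemma dil_inj {a b : ℕ} (ha : 1 ≤ a) (hb : 1 ≤ b) : Function.Injective (dil a b) := by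
  rintro ⟨m, n⟩ ⟨m', n'⟩ h
  simp only [dil, Prod.mk.injEq] at h
  rw [Nat.eq_of_mul_eq_mul_left (by omega) h.1, Nat.eq_of_mul_eq_mul_left (by omega) h.2]

lemma dil_norm {a b : ℕ} (ha : 1 ≤ a) (hb : 1 ≤ b) {c : ℕ × ℕ →₀ ℂ} (hc : ∀ x, ‖c x‖ ≤ Q)
    (x : ℕ × ℕ) : ‖c.mapDomain (dil a b) x‖ ≤ Q := by
  by_cases hx : x ∈ Set.range (dil a b)
  · obtain ⟨y, rfl⟩ := hx
    rw [Finsupp.mapDomain_apply (dil_inj ha hb)]
    exact hc y
  · rw [Finsupp.mapDomain_of_notMem_range _ _ hx, norm_zero]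
    exact (norm_nonneg (c (0, 0))).trans (hc _)

lemma dil_supp {a b : ℕ} (ha : 1 ≤ a) (hb : 1 ≤ b) {c : ℕ × ℕ →₀ ℂ} {x : ℕ × ℕ}
    (hx : c.mapDomain (dil a b) x ≠ 0) : ∃ y, c y ≠ 0 ∧ dil a b y = x := by
  by_cases hx' : x ∈ Set.range (dil a b)
  · obtain ⟨y, rfl⟩ := hx'
    rw [Finsupp.mapDomain_apply (dil_inj ha hb)] at hx
    exact ⟨y, hx, rfl⟩
  · exact absurd (Finsupp.mapDomain_of_notMem_range _ _ hx') hx

lemma dil_ev {a b : ℕ} (ha : 1 ≤ a) (hb : 1 ≤ b) {c : ℕ × ℕ →₀ ℂ}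
    (hc : ∀ x, c x ≠ 0 → x.1 ≠ 0 ∧ x.2 ≠ 0) {f : ℕ → ℂ} (hf : CMul f) :
    ev (c.mapDomain (dil a b)) f = f a * (starRingEnd ℂ) (f b) * ev c f := by
  unfold ev
  rw [Finsupp.sum_mapDomain_index (fun _ => by simp) (fun _ _ _ => by ring), Finsupp.mul_sum]
  refine Finsupp.sum_congr fun x hx => ?_
  obtain ⟨h1, h2⟩ := hc x (Finsupp.mem_support_iff.mp hx)
  simp only [dil]
  rw [hf.2 a x.1 (by omega) h1, hf.2 b x.2 (by omega) h2, map_mul]
  ring

lemma IC.shift {a b : ℕ} (ha : 1 ≤ a) (hb : 1 ≤ b) (h : IC W Q G)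
    (hW : ∀ x, W x → x.1 ≠ 0 ∧ x.2 ≠ 0) (hW' : ∀ x, W x → W' (a * x.1, b * x.2)) :
    IC W' Q (fun f => f a * (starRingEnd ℂ) (f b) * G f) := by
  obtain ⟨c, h1, h2, h3⟩ := h
  refine ⟨c.mapDomain (dil a b), dil_norm ha hb h1, fun x hx => ?_, fun f hf => ?_⟩
  · obtain ⟨y, hy, rfl⟩ := dil_supp ha hb hx
    exact hW' y (h2 y hy)
  · beta_reduce
    rw [dil_ev ha hb (fun x hx => hW x (h2 x hx)) hf, h3 f hf]

lemma card_le_Omega (n : ℕ) : n.primeFactors.card ≤ ArithmeticFunction.cardFactors n := by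
  rw [ArithmeticFunction.cardFactors_apply, Nat.primeFactors]
  exact List.toFinset_card_le _

lemma Omega_mul {p m : ℕ} (hp : p.Prime) (hm : m ≠ 0) :
    ArithmeticFunction.cardFactors (p * m) = ArithmeticFunction.cardFactors m + 1 := by
  rw [ArithmeticFunction.cardFactors_mul hp.ne_zero hm, ArithmeticFunction.cardFactors_apply_prime hp,
    add_comm]

lemma sum_prime_le {S : Finset ℕ} (hS : ∀ p ∈ S, p.Prime) (v : ℕ → ℝ) (m : ℕ) (hm : m ≠ 0)
    (hQ : 0 ≤ Q) (hv : ∀ p ∈ S, v p ≤ Q) (hv0 : ∀ p ∈ S, ¬ p ∣ m → v p = 0) :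
    ∑ p ∈ S, v p ≤ ArithmeticFunction.cardFactors m * Q := by
  have h1 : ∑ p ∈ S, v p ≤ ∑ p ∈ S, (if p ∈ m.primeFactors then Q else 0) := by
    refine Finset.sum_le_sum fun p hp => ?_
    split_ifs with h
    · exact hv p hp
    · rw [hv0 p hp fun hd => h (Nat.mem_primeFactors.mpr ⟨hS p hp, hd, hm⟩)]
  refine h1.trans ?_
  rw [← Finset.sum_filter, Finset.sum_const, nsmul_eq_mul]
  refine mul_le_mul_of_nonneg_right ?_ hQ
  have h2 : (S.filter (· ∈ m.primeFactors)).card ≤ m.primeFactors.card :=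
    Finset.card_le_card fun p hp => (Finset.mem_filter.mp hp).2
  exact_mod_cast h2.trans (card_le_Omega m)

lemma IC.prime {A : ℕ} {N y : ℝ} (h : IC (WA A N) Q G) (S : Finset ℕ)
    (hS : ∀ p ∈ S, p.Prime) (hy : ∀ p ∈ S, (p : ℝ) ≤ y) :
    IC (WA (A + 1) (y * N)) ((A + 1) * Q) (fun f => (((∑ p ∈ S, f p).re : ℝ) : ℂ) * G f) := by
  have hQ := h.nonneg
  obtain ⟨c, h1, h2, h3⟩ := h
  have hp1 : ∀ p ∈ S, 1 ≤ p := fun p hp => (hS p hp).one_lt.le
  have hc0 : ∀ x, c x ≠ 0 → x.1 ≠ 0 ∧ x.2 ≠ 0 := fun x hx => by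
    have := h2 x hx
    exact ⟨by have := this.1; omega, by have := this.2.1; omega⟩
  -- the supports
  have hL : ∀ p ∈ S, ∀ x, c.mapDomain (dil p 1) x ≠ 0 → WA (A + 1) (y * N) x ∧ p ∣ x.1 := by
    intro p hp x hx
    obtain ⟨z, hz, rfl⟩ := dil_supp (hp1 p hp) le_rfl hx
    obtain ⟨w1, w2, w3, w4⟩ := h2 z hz
    refine ⟨⟨Nat.mul_pos (hp1 p hp) w1, by simpa [dil] using w2, ?_, ?_⟩, ?_⟩
    · simp only [dil]
      push_cast
      calc (p : ℝ) * z.1 * (1 * z.2) = p * (z.1 * z.2) := by ring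
        _ ≤ y * N := mul_le_mul (hy p hp) w3 (by positivity) ((Nat.cast_nonneg p).trans (hy p hp))
    · simp only [dil, one_mul]
      rw [Omega_mul (hS p hp) (hc0 z hz).1]
      omega
    · simp only [dil]
      exact dvd_mul_right _ _
  have hR : ∀ p ∈ S, ∀ x, c.mapDomain (dil 1 p) x ≠ 0 → WA (A + 1) (y * N) x ∧ p ∣ x.2 := by
    intro p hp x hx
    obtain ⟨z, hz, rfl⟩ := dil_supp le_rfl (hp1 p hp) hx
    obtain ⟨w1, w2, w3, w4⟩ := h2 z hz
    refine ⟨⟨by simpa [dil] using w1, Nat.mul_pos (hp1 p hp) w2, ?_, ?_⟩, ?_⟩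
    · simp only [dil]
      push_cast
      calc 1 * (z.1 : ℝ) * (p * z.2) = p * (z.1 * z.2) := by ring
        _ ≤ y * N := mul_le_mul (hy p hp) w3 (by positivity) ((Nat.cast_nonneg p).trans (hy p hp))
    · simp only [dil, one_mul]
      rw [Omega_mul (hS p hp) (hc0 z hz).2]
      omega
    · simp only [dil]
      exact dvd_mul_right _ _
  set d : ℕ × ℕ →₀ ℂ := (1 / 2 : ℂ) • ∑ p ∈ S, (c.mapDomain (dil p 1) + c.mapDomain (dil 1 p))
    with hd
  have hdx : ∀ x, d x = (1 / 2 : ℂ) * ∑ p ∈ S, (c.mapDomain (dil p 1) x + c.mapDomain (dil 1 p) x) := by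
    intro x
    rw [hd, Finsupp.smul_apply, Finsupp.finsetSum_apply, smul_eq_mul]
    rfl
  have hsup : ∀ x, (∃ p ∈ S, c.mapDomain (dil p 1) x ≠ 0 ∨ c.mapDomain (dil 1 p) x ≠ 0) →
      WA (A + 1) (y * N) x := by
    rintro x ⟨p, hp, h | h⟩
    · exact (hL p hp x h).1
    · exact (hR p hp x h).1
  refine ⟨d, fun x => ?_, fun x hx => ?_, fun f hf => ?_⟩
  · by_cases hx : ∃ p ∈ S, c.mapDomain (dil p 1) x ≠ 0 ∨ c.mapDomain (dil 1 p) x ≠ 0
    · obtain ⟨w1, w2, w3, w4⟩ := hsup x hx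
      have b1 : ∑ p ∈ S, ‖c.mapDomain (dil p 1) x‖ ≤ ArithmeticFunction.cardFactors x.1 * Q := by
        refine sum_prime_le hS _ _ (by omega) hQ
          (fun p hp => dil_norm (hp1 p hp) le_rfl h1 x) fun p hp hn => ?_
        by_contra hne
        exact hn (hL p hp x (by simpa using hne)).2
      have b2 : ∑ p ∈ S, ‖c.mapDomain (dil 1 p) x‖ ≤ ArithmeticFunction.cardFactors x.2 * Q := by
        refine sum_prime_le hS _ _ (by omega) hQ
          (fun p hp => dil_norm le_rfl (hp1 p hp) h1 x) fun p hp hn => ?_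
        by_contra hne
        exact hn (hR p hp x (by simpa using hne)).2
      have b3 : ‖∑ p ∈ S, (c.mapDomain (dil p 1) x + c.mapDomain (dil 1 p) x)‖ ≤
          ∑ p ∈ S, ‖c.mapDomain (dil p 1) x‖ + ∑ p ∈ S, ‖c.mapDomain (dil 1 p) x‖ := by
        rw [← Finset.sum_add_distrib]
        exact norm_sum_le_of_le _ fun p _ => norm_add_le _ _
      have b4 : ((ArithmeticFunction.cardFactors x.1 : ℝ) + ArithmeticFunction.cardFactors x.2) ≤
          A + 1 := by exact_mod_cast w4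
      rw [hdx, norm_mul]
      have b5 : ‖(1 / 2 : ℂ)‖ = 1 / 2 := by norm_num
      rw [b5]
      have b6 := mul_le_mul_of_nonneg_right b4 hQ
      have b7 : 0 ≤ ‖∑ p ∈ S, (c.mapDomain (dil p 1) x + c.mapDomain (dil 1 p) x)‖ := norm_nonneg _
      nlinarith
    · push Not at hx
      rw [hdx, Finset.sum_eq_zero fun p hp => by rw [(hx p hp).1, (hx p hp).2, add_zero], mul_zero,
        norm_zero]
      positivity
  · by_contra hn
    apply hx
    have hx' : ¬ ∃ p ∈ S, c.mapDomain (dil p 1) x ≠ 0 ∨ c.mapDomain (dil 1 p) x ≠ 0 :=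
      fun h => hn (hsup x h)
    push Not at hx'
    rw [hdx, Finset.sum_eq_zero fun p hp => by rw [(hx' p hp).1, (hx' p hp).2, add_zero], mul_zero]
  · have e1 : ev d f = (1 / 2 : ℂ) * ∑ p ∈ S, (f p * ev c f + (starRingEnd ℂ) (f p) * ev c f) := by
      rw [hd, ev_smul, ev_sum]
      congr 1
      refine Finset.sum_congr rfl fun p hp => ?_
      rw [ev_add, dil_ev (hp1 p hp) le_rfl hc0 hf, dil_ev le_rfl (hp1 p hp) hc0 hf, hf.1]
      simp
    have e2 : (((∑ p ∈ S, f p).re : ℝ) : ℂ) = (1 / 2 : ℂ) * ∑ p ∈ S, (f p + (starRingEnd ℂ) (f p)) := by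
      rw [re_eq_add_conj, map_sum, Finset.sum_add_distrib]
      ring
    beta_reduce
    rw [e1, e2, h3 f hf, mul_assoc, Finset.sum_mul]
    congr 1
    refine Finset.sum_congr rfl fun p _ => ?_
    ring

lemma IC.pow {A : ℕ} {N y : ℝ} (h : IC (WA A N) Q G) (S : Finset ℕ)
    (hS : ∀ p ∈ S, p.Prime) (hy : ∀ p ∈ S, (p : ℝ) ≤ y) (j : ℕ) (D : ℝ) (hD : (A + j : ℝ) ≤ D) :
    IC (WA (A + j) (y ^ j * N)) (D ^ j * Q) (fun f => (((∑ p ∈ S, f p).re ^ j : ℝ) : ℂ) * G f) := by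
  have hQ := h.nonneg
  have hD0 : 0 ≤ D := le_trans (by positivity) hD
  induction j with
  | zero => simpa using h
  | succ j ih =>
    have h1 := ih (by push_cast at hD; linarith)
    have h2 := h1.prime S hS hy
    refine (h2.mono (W' := WA (A + (j + 1)) (y ^ (j + 1) * N)) (fun x hx => ?_)
      (Q' := D ^ (j + 1) * Q) ?_).congr fun f hf => ?_
    · rw [pow_succ', mul_assoc, ← add_assoc]
      exact hx
    · rw [pow_succ', mul_assoc]
      apply mul_le_mul_of_nonneg_right _ (by positivity)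
      push_cast at hD ⊢
      linarith
    · push_cast
      ring

lemma WA_mono {A A' : ℕ} {N N' : ℝ} (hA : A ≤ A') (hN : N ≤ N') (x : ℕ × ℕ) (h : WA A N x) :
    WA A' N' x := ⟨h.1, h.2.1, h.2.2.1.trans hN, h.2.2.2.trans hA⟩

lemma IC.poly {A d : ℕ} {N y : ℝ} (hN : 0 ≤ N) (hy1 : 1 ≤ y) (h : IC (WA A N) Q G) (S : Finset ℕ)
    (hS : ∀ p ∈ S, p.Prime) (hy : ∀ p ∈ S, (p : ℝ) ≤ y) (a : ℕ → ℝ) :
    IC (WA (A + d) (y ^ d * N)) ((∑ j ∈ Finset.range (d + 1), |a j|) * ((A + d + 1 : ℝ) ^ d * Q))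
      (fun f => ((∑ j ∈ Finset.range (d + 1), a j * (∑ p ∈ S, f p).re ^ j : ℝ) : ℂ) * G f) := by
  have hQ := h.nonneg
  have h1 : ∀ j ∈ Finset.range (d + 1), IC (WA (A + d) (y ^ d * N))
      (|a j| * ((A + d + 1 : ℝ) ^ d * Q))
      (fun f => (a j : ℂ) * ((((∑ p ∈ S, f p).re ^ j : ℝ) : ℂ) * G f)) := by
    intro j hj
    rw [Finset.mem_range] at hj
    have hjd : (j : ℝ) ≤ d := by exact_mod_cast (by omega : j ≤ d)
    have h2 := (h.pow S hS hy j (A + d + 1) (by linarith)).smul (a j : ℂ)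
    rw [norm_real, Real.norm_eq_abs] at h2
    refine h2.mono (WA_mono (by omega) ?_) ?_
    · apply mul_le_mul_of_nonneg_right _ hN
      exact pow_le_pow_right₀ hy1 (by omega)
    · apply mul_le_mul_of_nonneg_left _ (abs_nonneg _)
      apply mul_le_mul_of_nonneg_right _ hQ
      apply pow_le_pow_right₀ _ (by omega)
      have : (0 : ℝ) ≤ A + d := by positivity
      linarith
  have h3 := IC.sum _ h1
  rw [← Finset.sum_mul] at h3
  refine h3.congr fun f _ => ?_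
  push_cast
  rw [Finset.sum_mul]
  exact Finset.sum_congr rfl fun j _ => by ring

lemma IC.dp {N N₀ B : ℝ} {G H : (ℕ → ℂ) → ℂ} (hG : DP N B G) (h : IC (WB N₀) Q H) :
    IC (WB (N * N * N₀)) (B * B * Q) (fun f => G f * (starRingEnd ℂ) (G f) * H f) := by
  have hQ := h.nonneg
  have hB := hG.M_nonneg
  obtain ⟨k, c, n, h1, h2, h3⟩ := hG
  have h4 : ∀ i ∈ (Finset.univ : Finset (Fin k)), ∀ j ∈ (Finset.univ : Finset (Fin k)),
      IC (WB (N * N * N₀)) (‖c i * (starRingEnd ℂ) (c j)‖ * Q)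
      (fun f => c i * (starRingEnd ℂ) (c j) * (f (n i) * (starRingEnd ℂ) (f (n j)) * H f)) := by
    intro i _ j _
    refine IC.smul (h.shift (h1 i).1 (h1 j).1 (fun x hx => ?_) fun x hx => ?_) _
    · exact ⟨by have := hx.1; omega, by have := hx.2.1; omega⟩
    · refine ⟨Nat.mul_pos (h1 i).1 hx.1, Nat.mul_pos (h1 j).1 hx.2.1, ?_⟩
      push_cast
      calc (n i : ℝ) * x.1 * (n j * x.2) = n i * n j * (x.1 * x.2) := by ring
        _ ≤ N * N * N₀ := by
          refine mul_le_mul (mul_le_mul (h1 i).2 (h1 j).2 (by positivity) ?_) hx.2.2 (by positivity)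
            ?_
          · exact (Nat.cast_nonneg _).trans (h1 i).2
          · have := (Nat.cast_nonneg (α := ℝ) _).trans (h1 i).2
            positivity
  have h5 := IC.sum Finset.univ fun i hi => IC.sum Finset.univ (h4 i hi)
  refine (h5.mono (fun _ hx => hx) ?_).congr fun f hf => ?_
  · calc ∑ i, ∑ j, ‖c i * (starRingEnd ℂ) (c j)‖ * Q = (∑ i, ‖c i‖) * (∑ j, ‖c j‖) * Q := by
          rw [Finset.sum_mul_sum, Finset.sum_mul]
          refine Finset.sum_congr rfl fun i _ => ?_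
          rw [Finset.sum_mul]
          refine Finset.sum_congr rfl fun j _ => ?_
          rw [norm_mul, RCLike.norm_conj]
      _ ≤ B * B * Q := by
          apply mul_le_mul_of_nonneg_right _ hQ
          exact mul_le_mul h2 h2 (Finset.sum_nonneg fun i _ => norm_nonneg _) hB
  · rw [h3 f hf, map_sum, Finset.sum_mul_sum, Finset.sum_mul]
    refine Finset.sum_congr rfl fun i _ => ?_
    rw [Finset.sum_mul]
    refine Finset.sum_congr rfl fun j _ => ?_
    rw [map_mul]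
    ring

lemma IC.bq {N : ℝ} (h : IC (WB N) Q G) : BQ N Q G := by
  have hQ := h.nonneg
  obtain ⟨c, h1, h2, h3⟩ := h
  refine ⟨fun m n => c (m, n), fun m n => h1 _, fun m n hmn => ?_, fun f hf => ?_⟩
  · by_contra hne
    exact absurd (h2 _ hne).2.2 (not_le.mpr hmn)
  · rw [h3 f hf, ev, GB, ← Finset.sum_product']
    apply Finsupp.sum_of_support_subset
    · intro x hx
      obtain ⟨w1, w2, w3⟩ := h2 x (Finsupp.mem_support_iff.mp hx)
      have w1' : (1 : ℝ) ≤ x.1 := by exact_mod_cast w1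
      have w2' : (1 : ℝ) ≤ x.2 := by exact_mod_cast w2
      rw [Finset.mem_product, Finset.mem_Icc, Finset.mem_Icc]
      have hN : 0 ≤ N := le_trans (by positivity) w3
      refine ⟨⟨w1, ?_⟩, w2, ?_⟩
      · rw [Nat.le_floor_iff hN]; nlinarith
      · rw [Nat.le_floor_iff hN]; nlinarith
    · intro x _
      simp

lemma Tp_poly (d : ℕ) (b s e : ℝ) : ∃ a : ℕ → ℝ, ∀ x : ℝ,
    Tp d (b * (x - s)) + e * (2 * (x - s)) ^ d = ∑ j ∈ Finset.range (d + 1), a j * x ^ j := by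
  set P : Polynomial ℝ := ∑ j ∈ Finset.range (d + 1),
    Polynomial.C (b ^ j / j.factorial) * (Polynomial.X - Polynomial.C s) ^ j +
    Polynomial.C (e * 2 ^ d) * (Polynomial.X - Polynomial.C s) ^ d with hP
  have h0 : ∀ (c : ℝ) (j : ℕ), j ≤ d →
      (Polynomial.C c * (Polynomial.X - Polynomial.C s) ^ j).natDegree ≤ d := by
    intro c j hj
    refine (Polynomial.natDegree_C_mul_le _ _).trans ?_
    refine (Polynomial.natDegree_pow_le).trans ?_
    rw [Polynomial.natDegree_X_sub_C, mul_one]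
    exact hj
  have hdeg : P.natDegree < d + 1 := by
    rw [Nat.lt_succ_iff, hP]
    refine (Polynomial.natDegree_add_le _ _).trans (max_le ?_ (h0 _ _ le_rfl))
    refine Polynomial.natDegree_sum_le_of_forall_le _ _ fun j hj => h0 _ _ ?_
    rw [Finset.mem_range] at hj
    omega
  refine ⟨fun j => P.coeff j, fun x => ?_⟩
  rw [← Polynomial.eval_eq_sum_range' hdeg, hP]
  simp only [Polynomial.eval_add, Polynomial.eval_finsetSum, Polynomial.eval_mul,
    Polynomial.eval_C, Polynomial.eval_pow, Polynomial.eval_sub, Polynomial.eval_X, Tp]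
  congr 1
  · refine Finset.sum_congr rfl fun j _ => ?_
    rw [mul_pow]
    ring
  · rw [mul_pow]
    ring

lemma UB_prime {T : ℝ} {i p : ℕ} (h : p ∈ UB T i) :
    p.Prime ∧ (p : ℝ) ≤ Real.exp (tb i * Real.log T) := by
  rw [UB, mem_PS (Real.exp_pos _).le (Real.exp_pos _).le] at h
  exact ⟨h.1, h.2.2⟩

lemma tb_pos (i : ℕ) : 0 < tb i := by
  unfold tb
  split_ifs <;> exact Real.exp_pos _

lemma prod_ic (a : ℕ → ℕ → ℝ) (n : ℕ) : ∃ C : ℝ, 0 ≤ C ∧ ∀ T : ℝ, 1 ≤ T →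
    IC (WA (∑ i ∈ Finset.range n, dg i)
      (Real.exp ((∑ i ∈ Finset.range n, (dg i : ℝ) * tb i) * Real.log T))) C
      (fun f => ((∏ i ∈ Finset.range n, ∑ j ∈ Finset.range (dg i + 1),
        a i j * (∑ p ∈ UB T i, f p).re ^ j : ℝ) : ℂ)) := by
  induction n with
  | zero =>
    refine ⟨1, zero_le_one, fun T _ => ?_⟩
    refine (IC.one ?_).congr fun f _ => by simp
    simp [WA]
  | succ n ih =>
    obtain ⟨C, hC, h⟩ := ih
    refine ⟨(∑ j ∈ Finset.range (dg n + 1), |a n j|) *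
      (((∑ i ∈ Finset.range n, dg i : ℕ) + dg n + 1 : ℝ) ^ dg n * C), ?_, fun T hT => ?_⟩
    · have : 0 ≤ ∑ j ∈ Finset.range (dg n + 1), |a n j| :=
        Finset.sum_nonneg fun j _ => abs_nonneg _
      positivity
    · have hL : 0 ≤ Real.log T := Real.log_nonneg hT
      have h1 := (h T hT).poly (d := dg n) (Real.exp_pos _).le
        (y := Real.exp (tb n * Real.log T))
        (Real.one_le_exp (mul_nonneg (tb_pos n).le hL)) (UB T n) (fun p hp => (UB_prime hp).1)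
        (fun p hp => (UB_prime hp).2) (a n)
      refine (h1.mono (WA_mono ?_ ?_) le_rfl).congr fun f _ => ?_
      · rw [Finset.sum_range_succ]
      · rw [Finset.sum_range_succ, ← Real.exp_nat_mul, ← Real.exp_add]
        apply le_of_eq
        congr 1
        ring
      · rw [Finset.prod_range_succ]
        push_cast
        ring

lemma sum_dg (n : ℕ) : ∑ i ∈ Finset.range n, (dg i : ℝ) * tb i ≤ 888 / 1000 := by
  set x : ℝ := Real.exp (-1) with hx
  have hx0 : 0 < x := Real.exp_pos _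
  have hx1 : x ≤ 36788 / 100000 := by
    rw [hx, Real.exp_neg, inv_le_comm₀ (Real.exp_pos _) (by norm_num)]
    have := Real.exp_one_gt_d9
    norm_num at this ⊢
    linarith
  have h1x : 0 < 1 - x := by linarith
  set R : ℕ → ℝ := fun m => x ^ (m + 2) * ((2 * m + 2) / (1 - x) + 2 * x / (1 - x) ^ 2) with hR
  have hR0 : ∀ m, 0 ≤ R m := fun m => by
    simp only [hR]
    positivity
  have hRs : ∀ m : ℕ, (2 * (m : ℝ) + 2) * x ^ (m + 2) = R m - R (m + 1) := by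
    intro m
    simp only [hR]
    push_cast
    field_simp
    ring
  have ht : ∀ m : ℕ, tb (m + 1) = x ^ (m + 3) := by
    intro m
    rw [tb, if_neg (by omega), hx, ← Real.exp_nat_mul]
    congr 1
    push_cast
    ring
  have hd : ∀ m : ℕ, (dg (m + 1) : ℝ) = 2 * ((m + 1 : ℕ) : ℝ) + 2 := by
    intro m
    rw [dg, if_neg (by omega)]
    push_cast
    ring
  have h1 : ∀ m : ℕ, ∑ i ∈ Finset.range (m + 1), (dg i : ℝ) * tb i = 4 * tb 0 + (R 1 - R (m + 1)) := by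
    intro m
    induction m with
    | zero => simp [dg]
    | succ m ih =>
      rw [Finset.sum_range_succ, ih, hd, ht, hRs (m + 1)]
      ring
  have h2 : R 1 ≤ 40675 / 100000 := by
    have e1 : R 1 = x ^ 3 * (4 / (1 - x) + 2 * x / (1 - x) ^ 2) := by
      simp only [hR]
      norm_num
    rw [e1]
    have e2 : 63212 / 100000 ≤ 1 - x := by linarith
    calc x ^ 3 * (4 / (1 - x) + 2 * x / (1 - x) ^ 2)
        ≤ (36788 / 100000) ^ 3 * (4 / (63212 / 100000) + 2 * (36788 / 100000) / (63212 / 100000) ^ 2) := by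
          gcongr
      _ ≤ 40675 / 100000 := by norm_num
  have h3 : 4 * tb 0 ≤ 4804 / 10000 := by
    have e1 : tb 0 = (Real.exp (53 / 25))⁻¹ := by
      rw [tb, if_pos rfl, Real.exp_neg]
    have e2 : Real.exp (53 / 25) = Real.exp 1 * Real.exp 1 * Real.exp (3 / 25) := by
      rw [← Real.exp_add, ← Real.exp_add]
      norm_num
    have e3 : 1127 / 1000 ≤ Real.exp (3 / 25) := by
      have := Real.quadratic_le_exp_of_nonneg (x := 3 / 25) (by norm_num)
      norm_num at this ⊢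
      linarith
    have e4 : 271828 / 100000 ≤ Real.exp 1 := by
      have := Real.exp_one_gt_d9
      norm_num at this ⊢
      linarith
    have e5 : 83272 / 10000 ≤ Real.exp (53 / 25) := by
      rw [e2]
      calc (83272 / 10000 : ℝ) ≤ 271828 / 100000 * (271828 / 100000) * (1127 / 1000) := by norm_num
        _ ≤ _ := by gcongr
    rw [e1]
    have e6 : (Real.exp (53 / 25))⁻¹ ≤ (83272 / 10000)⁻¹ := by gcongr
    calc 4 * (Real.exp (53 / 25))⁻¹ ≤ 4 * (83272 / 10000)⁻¹ := by gcongr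
      _ ≤ _ := by norm_num
  rcases n with _ | n
  · norm_num
  · rw [h1]
    have := hR0 (n + 1)
    linarith

/-- Assembly. -/
lemma assemble {θ : ℝ} (hθ : θ = 1 / 4000) {T C : ℝ} (hT : 3 ≤ T) 
    (hC : C ≤ T ^ (1 / 2000 : ℝ))
    {n A : ℕ} {G : (ℕ → ℂ) → ℂ} {F : (ℕ → ℂ) → ℝ} (hG : DP (T ^ θ) (T ^ θ) G)
    (hF : IC (WA A (Real.exp ((∑ i ∈ Finset.range n, (dg i : ℝ) * tb i) * Real.log T))) C
      (fun f => ((F f : ℝ) : ℂ))) :
    BQ (T ^ (89 / 100 : ℝ)) (T ^ (1 / 1000 : ℝ)) (fun f => ((‖G f‖ ^ 2 * F f : ℝ) : ℂ)) := by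
  have hT0 : 0 < T := by linarith
  have hL : 0 ≤ Real.log T := Real.log_nonneg (by linarith)
  have h1 : IC (WB (T ^ (888 / 1000 : ℝ))) C (fun f => ((F f : ℝ) : ℂ)) := by
    refine hF.mono (fun x hx => ⟨hx.1, hx.2.1, hx.2.2.1.trans ?_⟩) le_rfl
    rw [Real.rpow_def_of_pos hT0]
    apply Real.exp_le_exp.mpr
    rw [mul_comm (Real.log T)]
    exact mul_le_mul_of_nonneg_right (sum_dg n) hL
  have h2 := h1.dp hG
  apply IC.bq
  refine (h2.mono (fun x hx => ⟨hx.1, hx.2.1, hx.2.2.trans ?_⟩) ?_).congr fun f _ => ?_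
  · calc T ^ θ * T ^ θ * C ≤ T ^ θ * T ^ θ * T ^ (1 / 2000 : ℝ) := by gcongr
      _ = T ^ (1 / 1000 : ℝ) := by
        rw [← Real.rpow_add hT0, ← Real.rpow_add hT0, hθ]
        norm_num
  · rw [mul_conj, normSq_eq_norm_sq]
    push_cast
    ring
  · rw [← Real.rpow_add hT0, ← Real.rpow_add hT0]
    apply Real.rpow_le_rpow_of_exponent_le (by linarith)
    rw [hθ]
    norm_num

end BQx

open BQx in
theorem stBQ (h : StShort) : StBQ := by
  intro k hk0 hk1
  obtain ⟨M₀, hM₀⟩ := h (1 / 4000) (by norm_num)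
  refine ⟨M₀, fun M hM => ?_⟩
  obtain ⟨T₁, hT₁3, hT₁⟩ := hM₀ M hM
  have hpf : ∀ i : ℕ, ∃ a : ℕ → ℝ, ∀ x : ℝ, pf k i x = ∑ j ∈ Finset.range (dg i + 1), a j * x ^ j := by
    intro i
    obtain ⟨a, ha⟩ := Tp_poly (dg i) (-(2 * (1 - k))) ((1 - k) * Vv i) (eta (1 - k) (dg i))
    refine ⟨a, fun x => ?_⟩
    rw [← ha, pf]
    congr 2
    ring
  have hpg : ∀ i : ℕ, ∃ a : ℕ → ℝ, ∀ x : ℝ, pg k i x = ∑ j ∈ Finset.range (dg i + 1), a j * x ^ j := by
    intro i
    obtain ⟨a, ha⟩ := Tp_poly (dg i) (2 * k) ((1 - k) * Vv i) (eta k (dg i))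
    exact ⟨a, fun x => by rw [← ha, pg]⟩
  choose a ha using hpf
  choose b hb using hpg
  obtain ⟨Ca, hCa0, hCa⟩ := prod_ic a (M - 2)
  obtain ⟨Cb, hCb0, hCb⟩ := prod_ic b (M - 2)
  have hev : ∀ᶠ T : ℝ in atTop, max Ca Cb ≤ T ^ (1 / 2000 : ℝ) :=
    (tendsto_rpow_atTop (by norm_num)).eventually_ge_atTop _
  obtain ⟨T₂, hT₂⟩ := eventually_atTop.mp hev
  refine ⟨max T₁ T₂, hT₁3.trans (le_max_left _ _), fun T hT g h' => ?_⟩
  have hT1 : T₁ ≤ T := (le_max_left _ _).trans hT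
  have hT2 := hT₂ T ((le_max_right _ _).trans hT)
  have hT3 : 3 ≤ T := hT₁3.trans hT1
  constructor
  · refine assemble rfl hT3 ((le_max_left _ _).trans hT2)
      (hT₁ T hT1 (k - 1) (by rw [abs_le]; constructor <;> linarith) g h')
      ((hCa T (by linarith)).congr fun f _ => ?_)
    rw [TF]
    congr 1
    refine Finset.prod_congr rfl fun i _ => ?_
    rw [ha, Xb]
  · refine assemble rfl hT3 ((le_max_right _ _).trans hT2)
      (hT₁ T hT1 k (by rw [abs_le]; constructor <;> linarith) g h')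
      ((hCb T (by linarith)).congr fun f _ => ?_)
    rw [TG]
    congr 1
    refine Finset.prod_congr rfl fun i _ => ?_
    rw [hb, Xb]

end K5
end Pool.Agent.Lib.MP_973905_nt
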