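import Pool.Agent.Lib.MP_973905_nt.K5.Stmts
import Pool.Agent.Lib.MP_973905_nt.K1.UpperHolder

set_option autoImplicit false

/-! Module (C4) of folder K5: upper bound for the Gaussian means by Hoelder's inequality. -/

namespace Pool.Agent.Lib.MP_973905_nt
namespace K5

open MeasureTheory ProbabilityTheory Complex Filter Topology K1

namespace HoldAux

open Asm

lemma cont_Tp (d : ℕ) : Continuous (Tp d) := by
  unfold Tp
  fun_prop

lemma cont_pf (k : ℝ) (i : ℕ) : Continuous (pf k i) := by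
  have := cont_Tp (dg i)
  unfold pf
  fun_prop

lemma cont_pg (k : ℝ) (i : ℕ) : Continuous (pg k i) := by
  have := cont_Tp (dg i)
  unfold pg
  fun_prop

lemma fs_line {n : ℕ} (hn : n ≠ 0) : Continuous (fun t : ℝ => fs (1 / 2 + t * I) n) ∧
    ∀ t : ℝ, ‖fs (1 / 2 + t * I) n‖ ≤ 1 := by
  constructor
  · have h := continuous_fs_pt 0 1 hn
    simpa only [UpH.pt_zero] using h
  · intro t
    unfold fs
    rw [Complex.norm_natCast_cpow_of_pos (Nat.pos_of_ne_zero hn)]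
    have hn1 : (1 : ℝ) ≤ n := by exact_mod_cast Nat.one_le_iff_ne_zero.2 hn
    apply Real.rpow_le_one_of_one_le_of_nonpos hn1
    simp

lemma Xb_line (T : ℝ) (i : ℕ) : Continuous (fun t : ℝ => Xb T i (fs (1 / 2 + t * I))) ∧
    ∃ B : ℝ, 0 ≤ B ∧ ∀ t : ℝ, |Xb T i (fs (1 / 2 + t * I))| ≤ B := by
  have hp : ∀ p ∈ UB T i, p ≠ 0 := by
    intro p hp
    unfold UB PS at hp
    exact (Finset.mem_filter.1 hp).2.ne_zero
  unfold Xb
  constructor
  · exact Complex.continuous_re.comp (continuous_finsetSum _ fun p hpm => (fs_line (hp p hpm)).1)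
  · refine ⟨∑ p ∈ UB T i, 1, by positivity, fun t => ?_⟩
    refine (Complex.abs_re_le_norm _).trans ((norm_sum_le _ _).trans ?_)
    exact Finset.sum_le_sum fun p hpm => (fs_line (hp p hpm)).2 t

lemma comp_line {g : ℝ → ℝ} (hg : Continuous g) {x : ℝ → ℝ} (hx : Continuous x)
    (hb : ∃ B : ℝ, 0 ≤ B ∧ ∀ t : ℝ, |x t| ≤ B) : Continuous (fun t => g (x t)) ∧
    ∃ B : ℝ, 0 ≤ B ∧ ∀ t : ℝ, |g (x t)| ≤ B := by
  obtain ⟨B, hB, hb⟩ := hb
  refine ⟨hg.comp hx, ?_⟩
  obtain ⟨C, hC⟩ := (isCompact_Icc (a := -B) (b := B)).exists_bound_of_continuousOn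
    hg.continuousOn
  refine ⟨C, ?_, fun t => hC (x t) (abs_le.1 (hb t))⟩
  exact (norm_nonneg _).trans (hC 0 ⟨by linarith, hB⟩)

lemma prod_line {ι : Type*} (s : Finset ι) (g : ι → ℝ → ℝ)
    (h : ∀ i ∈ s, Continuous (g i) ∧ ∃ B : ℝ, 0 ≤ B ∧ ∀ t : ℝ, |g i t| ≤ B) :
    Continuous (fun t => ∏ i ∈ s, g i t) ∧ ∃ B : ℝ, 0 ≤ B ∧ ∀ t : ℝ, |∏ i ∈ s, g i t| ≤ B := by
  classical
  refine ⟨continuous_finsetProd _ fun i hi => (h i hi).1, ?_⟩
  induction s using Finset.induction_on with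
  | empty => exact ⟨1, zero_le_one, fun t => by simp⟩
  | insert a s ha ih =>
    obtain ⟨B₁, hB₁, h₁⟩ := (h a (Finset.mem_insert_self a s)).2
    obtain ⟨B₂, hB₂, h₂⟩ := ih fun i hi => h i (Finset.mem_insert_of_mem hi)
    refine ⟨B₁ * B₂, by positivity, fun t => ?_⟩
    rw [Finset.prod_insert ha, abs_mul]
    exact mul_le_mul (h₁ t) (h₂ t) (abs_nonneg _) hB₁

lemma TF_line (k T : ℝ) (M : ℕ) : Continuous (fun t : ℝ => TF k T M (fs (1 / 2 + t * I))) ∧
    ∃ B : ℝ, 0 ≤ B ∧ ∀ t : ℝ, |TF k T M (fs (1 / 2 + t * I))| ≤ B :=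
  prod_line _ (fun i t => pf k i (Xb T i (fs (1 / 2 + t * I)))) fun i _ =>
    comp_line (cont_pf k i) (Xb_line T i).1 (Xb_line T i).2

lemma TG_line (k T : ℝ) (M : ℕ) : Continuous (fun t : ℝ => TG k T M (fs (1 / 2 + t * I))) ∧
    ∃ B : ℝ, 0 ≤ B ∧ ∀ t : ℝ, |TG k T M (fs (1 / 2 + t * I))| ≤ B :=
  prod_line _ (fun i t => pg k i (Xb T i (fs (1 / 2 + t * I)))) fun i _ =>
    comp_line (cont_pg k i) (Xb_line T i).1 (Xb_line T i).2

lemma top_point (h1 : StPoint) {k : ℝ} (hk0 : 0 < k) (hk1 : k < 1) (T : ℝ) (M : ℕ) (f : ℕ → ℂ) :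
    0 < TF k T M f ∧ 0 < TG k T M f ∧ 1 ≤ TF k T M f ^ k * TG k T M f ^ (1 - k) := by
  have hf : ∀ i ∈ Finset.range (M - 2), 0 < pf k i (Xb T i f) := fun i _ =>
    (h1 k i _ hk0 hk1).1
  have hg : ∀ i ∈ Finset.range (M - 2), 0 < pg k i (Xb T i f) := fun i _ =>
    (h1 k i _ hk0 hk1).2.1
  refine ⟨Finset.prod_pos hf, Finset.prod_pos hg, ?_⟩
  unfold TF TG
  rw [← Real.finsetProd_rpow _ _ (fun j hj => (hf j hj).le),
    ← Real.finsetProd_rpow _ _ (fun j hj => (hg j hj).le), ← Finset.prod_mul_distrib]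
  exact Finset.one_le_prod fun i _ => (h1 k i _ hk0 hk1).2.2

lemma hold_core (hP : StPoint) {C κ δ BF BG : ℝ} {M : ℕ} {T τ k D : ℝ} (hδ0 : 0 < δ)
    (hδ : δ ≤ 1 / 16) (hM : 4 ≤ M) (hk0 : 0 < k) (hk1 : k < 1) (hT : 3 ≤ T) (hBF : 0 < BF)
    (hBG : 0 < BG) (hD : 0 < D)
    (hw : 8 * Real.exp (-Real.exp (3 / 4 * M)) ≤ δ)
    (hwF : Real.exp (C * M) * D * (4 * Real.exp (-(1 / 2 * Real.exp (3 / 4 * M)))) +
      2 ^ (JJ T + 1) * T ^ (-κ) ≤ δ * BF)
    (hwG : Real.exp (C * M) * D * (4 * Real.exp (-(1 / 2 * Real.exp (3 / 4 * M)))) +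
      2 ^ (JJ T + 1) * T ^ (-κ) ≤ δ * BG)
    (I1 : EG T τ (fun t => ‖riemannZeta (1 / 2 + t * I)‖ ^ 2 *
      (‖AA T M (JJ T) (k - 1) (Finset.range (JJ T + 1)) ∅ (fs (1 / 2 + t * I))‖ ^ 2 *
        TF k T M (fs (1 / 2 + t * I)))) ≤ BF)
    (I2 : EG T τ (fun t =>
      ‖AA T M (JJ T) k (Finset.range (JJ T + 1)) ∅ (fs (1 / 2 + t * I))‖ ^ 2 *
        TG k T M (fs (1 / 2 + t * I))) ≤ BG)
    (I3 : ∀ g h : Finset ℕ, g ∪ h = Finset.range (JJ T + 1) →
      EG T τ (fun t => ‖riemannZeta (1 / 2 + t * I)‖ ^ 2 *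
        (‖AA T M (JJ T) (k - 1) g h (fs (1 / 2 + t * I))‖ ^ 2 * TF k T M (fs (1 / 2 + t * I)))) ≤
        Real.exp (C * M) * D * ∏ j ∈ h, ss M (JJ T) j + T ^ (-κ))
    (I4 : ∀ g h : Finset ℕ, g ∪ h = Finset.range (JJ T + 1) →
      EG T τ (fun t => ‖AA T M (JJ T) k g h (fs (1 / 2 + t * I))‖ ^ 2 *
        TG k T M (fs (1 / 2 + t * I))) ≤
        Real.exp (C * M) * D * ∏ j ∈ h, ss M (JJ T) j + T ^ (-κ)) :
    (1 - δ) * EG T τ (fun t => ‖riemannZeta (1 / 2 + t * I)‖ ^ (2 * k)) ≤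
      ((1 + δ) * BF) ^ k * ((1 + δ) * BG) ^ (1 - k) := by
  have hT1 : 1 < T := by linarith
  have hT0 : 0 < T := by linarith
  have hL : 0 < Real.log T := Real.log_pos hT1
  have hM4 : (4 : ℝ) ≤ M := by exact_mod_cast hM
  set J := JJ T with hJ
  set R := Finset.range (J + 1) with hR
  have hα1 : |k - 1| ≤ 1 := by rw [abs_le]; constructor <;> linarith
  have hα2 : |k| ≤ 1 := by rw [abs_le]; constructor <;> linarith
  have hcardR : R.card = J + 1 := Finset.card_range _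
  -- sums over the blocks
  set E := Real.exp (3 / 4 * (M : ℝ)) with hEd
  have hE4 : 4 ≤ E := by
    have := Real.add_one_le_exp (3 / 4 * (M : ℝ))
    linarith
  set w := Real.exp (-E) with hwd
  have hw0 : 0 < w := Real.exp_pos _
  have hss0 : ∀ j, 0 ≤ ss M J j := fun j => (Real.exp_pos _).le
  have s1 : ∑ j ∈ R, Real.exp (-KK M J j) ≤ 2 * w := by
    have h1 := sum_exp_KK (M := M) (J := J) (a := 1) (by rw [one_mul]; linarith) one_pos
    simp only [one_mul] at h1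
    exact h1
  have s2 : ∑ j ∈ R, ss M J j ≤ 2 * Real.exp (-(1 / 2 * E)) := by
    have h1 := sum_exp_KK (M := M) (J := J) (a := 1 / 2) (by linarith) (by norm_num)
    refine le_trans (le_of_eq ?_) h1
    refine Finset.sum_congr rfl fun j _ => ?_
    rw [ss]; congr 1; ring
  have w4 : Real.exp (-(1 / 2 * E)) ≤ 1 / 4 := by
    have h1 : Real.exp (-(1 / 2 * E)) ≤ Real.exp (-2) := Real.exp_le_exp.2 (by linarith)
    have h2 : Real.exp (-2) ≤ 1 / 4 := by
      rw [Real.exp_neg, ← one_div]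
      apply one_div_le_one_div_of_le (by norm_num)
      have h3 : Real.exp 2 = Real.exp 1 * Real.exp 1 := by rw [← Real.exp_add]; norm_num
      have h4 := Real.exp_one_gt_d9
      rw [h3]
      nlinarith
    exact h1.trans h2
  have hprodss : ∏ j ∈ R, (1 + ss M J j) - 1 ≤ 4 * Real.exp (-(1 / 2 * E)) := by
    have h1 := prod_one_add_le (R := R) hss0 (by linarith)
    linarith
  -- powers of T
  have hTk0 : 0 < T ^ (-κ) := Real.rpow_pos_of_pos hT0 _
  -- zeta on the line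
  set Z : ℝ → ℝ := fun t => ‖riemannZeta (1 / 2 + t * I)‖ with hZ
  have hZ0 : ∀ t, 0 ≤ Z t := fun t => norm_nonneg _
  have hcast : (((1 / 2 : ℝ) : ℂ)) = 1 / 2 := by push_cast; ring
  have hZc : Continuous Z := by
    have h := (continuous_zeta_line (σ := 1 / 2) (by norm_num)).norm
    rw [hcast] at h
    exact h
  obtain ⟨Cz, hCz, hzp⟩ := zeta_poly
  have hZb : ∀ t, Z t ≤ Cz * (1 + |t|) ^ 2 := fun t => by
    have h := hzp (1 / 2) t le_rfl (by norm_num)
    rw [hcast] at h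
    exact h
  -- the polynomials on the line
  have hAA : ∀ α : ℝ, |α| ≤ 1 → ∀ g h : Finset ℕ,
      Continuous (fun t : ℝ => AA T M J α g h (fs (1 / 2 + t * I))) ∧
        ∃ B : ℝ, 0 ≤ B ∧ ∀ t : ℝ, ‖AA T M J α g h (fs (1 / 2 + t * I))‖ ≤ B := by
    intro α hα g h
    obtain ⟨N, B, hdp⟩ := dp_AA' hT1 (show 1 ≤ M by omega) J hα g h
    obtain ⟨h1, h2⟩ := dp_line hdp (c := 0) (T := T) (by norm_num)
    simp only [UpH.pt_zero] at h1 h2
    exact ⟨h1, B, hdp.M_nonneg, h2⟩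
  obtain ⟨hTFc, BTF, hBTF, hTFb⟩ := TF_line k T M
  obtain ⟨hTGc, BTG, hBTG, hTGb⟩ := TG_line k T M
  have hTF0 : ∀ f, 0 < TF k T M f := fun f => (top_point hP hk0 hk1 T M f).1
  have hTG0 : ∀ f, 0 < TG k T M f := fun f => (top_point hP hk0 hk1 T M f).2.1
  have hint2 : ∀ g h : Finset ℕ,
      Integrable (fun t : ℝ => ‖AA T M J k g h (fs (1 / 2 + t * I))‖ ^ 2 *
        TG k T M (fs (1 / 2 + t * I))) (gaussianReal τ (VV T)) := by
    intro g h
    obtain ⟨h1, B, hB0, h2⟩ := hAA k hα2 g h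
    refine Integrable.of_bound ((h1.norm.pow 2).mul hTGc).aestronglyMeasurable (B ^ 2 * BTG)
      (Filter.Eventually.of_forall fun t => ?_)
    rw [Real.norm_eq_abs, abs_mul, abs_of_nonneg (sq_nonneg ‖_‖)]
    exact mul_le_mul (pow_le_pow_left₀ (norm_nonneg _) (h2 t) 2) (hTGb t) (abs_nonneg _)
      (by positivity)
  have hint1 : ∀ g h : Finset ℕ,
      Integrable (fun t : ℝ => Z t ^ 2 * (‖AA T M J (k - 1) g h (fs (1 / 2 + t * I))‖ ^ 2 *
        TF k T M (fs (1 / 2 + t * I)))) (gaussianReal τ (VV T)) := by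
    intro g h
    obtain ⟨h1, B, hB0, h2⟩ := hAA (k - 1) hα1 g h
    refine integrable_of_poly τ (VV T)
      ((hZc.pow 2).mul ((h1.norm.pow 2).mul hTFc)).aestronglyMeasurable
      (C := Cz ^ 2 * (B ^ 2 * BTF)) (m := 4) fun t => ?_
    rw [Real.norm_eq_abs, abs_mul, abs_mul, abs_of_nonneg (sq_nonneg (Z t)),
      abs_of_nonneg (sq_nonneg ‖_‖)]
    calc Z t ^ 2 * (‖AA T M J (k - 1) g h (fs (1 / 2 + t * I))‖ ^ 2 *
          |TF k T M (fs (1 / 2 + t * I))|)
        ≤ (Cz * (1 + |t|) ^ 2) ^ 2 * (B ^ 2 * BTF) := by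
          have h3 : Z t ^ 2 ≤ (Cz * (1 + |t|) ^ 2) ^ 2 := pow_le_pow_left₀ (hZ0 t) (hZb t) 2
          have h4 := pow_le_pow_left₀ (norm_nonneg _) (h2 t) 2
          have h5 : ‖AA T M J (k - 1) g h (fs (1 / 2 + t * I))‖ ^ 2 *
              |TF k T M (fs (1 / 2 + t * I))| ≤ B ^ 2 * BTF :=
            mul_le_mul h4 (hTFb t) (abs_nonneg _) (by positivity)
          exact mul_le_mul h3 h5 (by positivity) (by positivity)
      _ = _ := by ring
  have hfint : Integrable (fun t => Z t ^ (2 * k)) (gaussianReal τ (VV T)) := by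
    refine integrable_of_poly τ (VV T)
      (hZc.rpow_const fun _ => Or.inr (by linarith)).aestronglyMeasurable
      (C := (max Cz 1) ^ 2) (m := 4) fun t => ?_
    rw [Real.norm_eq_abs, abs_of_nonneg (Real.rpow_nonneg (hZ0 t) _)]
    have h1 : 1 ≤ max Cz 1 * (1 + |t|) ^ 2 := by
      have h3 : 1 ≤ max Cz 1 := le_max_right _ _
      have h4 : 1 ≤ (1 + |t|) ^ 2 := one_le_pow₀ (by linarith [abs_nonneg t])
      nlinarith
    calc Z t ^ (2 * k) ≤ (max Cz 1 * (1 + |t|) ^ 2) ^ (2 * k) := by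
          apply Real.rpow_le_rpow (hZ0 t) _ (by linarith)
          refine (hZb t).trans ?_
          gcongr
          exact le_max_left _ _
      _ ≤ (max Cz 1 * (1 + |t|) ^ 2) ^ (2 : ℝ) :=
          Real.rpow_le_rpow_of_exponent_le h1 (by linarith)
      _ = _ := by
          rw [Real.rpow_two]; ring
  set X := EG T τ (fun t => Z t ^ (2 * k)) with hX
  set F1 : ℝ → ℝ := fun t => ∑ g ∈ R.powerset,
    Z t ^ 2 * (‖AA T M J (k - 1) g (R \ g) (fs (1 / 2 + t * I))‖ ^ 2 *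
      TF k T M (fs (1 / 2 + t * I))) with hF1d
  set F2 : ℝ → ℝ := fun t => ∑ g ∈ R.powerset,
    ‖AA T M J k g (R \ g) (fs (1 / 2 + t * I))‖ ^ 2 * TG k T M (fs (1 / 2 + t * I)) with hF2d
  have hF1i : Integrable F1 (gaussianReal τ (VV T)) :=
    integrable_finsetSum _ fun g _ => hint1 g (R \ g)
  have hF2i : Integrable F2 (gaussianReal τ (VV T)) :=
    integrable_finsetSum _ fun g _ => hint2 g (R \ g)
  have hss4 : Real.exp (C * M) * D * (∏ j ∈ R, (1 + ss M J j) - 1) ≤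
      Real.exp (C * M) * D * (4 * Real.exp (-(1 / 2 * E))) := by gcongr
  have hF1 : EG T τ F1 ≤ (1 + δ) * BF := by
    rw [hF1d, EG_sum _ fun g _ => hint1 g (R \ g)]
    have h1 := sum_bound (R := R) (u := fun g => EG T τ (fun t : ℝ =>
      Z t ^ 2 * (‖AA T M J (k - 1) g (R \ g) (fs (1 / 2 + t * I))‖ ^ 2 *
        TF k T M (fs (1 / 2 + t * I))))) (s := ss M J)
      (A := Real.exp (C * M) * D) (B := BF) (e := T ^ (-κ)) hTk0.le
      (by
        simp only [Finset.sdiff_self]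
        exact I1)
      (fun g hg => I3 g (R \ g) (Finset.union_sdiff_of_subset (Finset.mem_powerset.1 hg)))
    refine h1.trans ?_
    rw [hcardR]
    linarith
  have hF2 : EG T τ F2 ≤ (1 + δ) * BG := by
    rw [hF2d, EG_sum _ fun g _ => hint2 g (R \ g)]
    have h1 := sum_bound (R := R) (u := fun g => EG T τ (fun t : ℝ =>
      ‖AA T M J k g (R \ g) (fs (1 / 2 + t * I))‖ ^ 2 *
        TG k T M (fs (1 / 2 + t * I)))) (s := ss M J)
      (A := Real.exp (C * M) * D) (B := BG) (e := T ^ (-κ)) hTk0.le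
      (by
        simp only [Finset.sdiff_self]
        exact I2)
      (fun g hg => I4 g (R \ g) (Finset.union_sdiff_of_subset (Finset.mem_powerset.1 hg)))
    refine h1.trans ?_
    rw [hcardR]
    linarith
  have hpt : ∀ t, (1 - δ) * Z t ^ (2 * k) ≤ F1 t ^ k * F2 t ^ (1 - k) := by
    intro t
    set f := fs (1 / 2 + t * I) with hf
    set x : ℕ → ℝ := fun j => ‖Ntr (ll M J j) (k - 1) (Pj M (Sj T M J j) f)‖ ^ 2 +
      ‖(Pj M (Sj T M J j) f / (KK M J j : ℂ)) ^ (rr M J j)‖ ^ 2 with hx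
    set y : ℕ → ℝ := fun j => ‖Ntr (ll M J j) k (Pj M (Sj T M J j) f)‖ ^ 2 +
      ‖(Pj M (Sj T M J j) f / (KK M J j : ℂ)) ^ (rr M J j)‖ ^ 2 with hy
    have hx0 : ∀ j, 0 ≤ x j := fun j => by simp only [hx]; positivity
    have hy0 : ∀ j, 0 ≤ y j := fun j => by simp only [hy]; positivity
    obtain ⟨hU0, hV0, hUV⟩ := top_point hP hk0 hk1 T M f
    set U := TF k T M f with hU
    set V := TG k T M f with hV
    have e1 : F1 t = Z t ^ 2 * ((∏ j ∈ R, x j) * U) := by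
      simp only [hF1d]
      rw [← Finset.mul_sum, ← Finset.sum_mul, expand]
    have e2 : F2 t = (∏ j ∈ R, y j) * V := by
      simp only [hF2d]
      rw [← Finset.sum_mul, expand]
    have hPx : 0 ≤ ∏ j ∈ R, x j := Finset.prod_nonneg fun j _ => hx0 j
    have hPy : 0 ≤ ∏ j ∈ R, y j := Finset.prod_nonneg fun j _ => hy0 j
    have e3 : F1 t ^ k * F2 t ^ (1 - k) = Z t ^ (2 * k) * ((∏ j ∈ R, (x j ^ k * y j ^ (1 - k))) *
        (U ^ k * V ^ (1 - k))) := by
      rw [e1, e2, Real.mul_rpow (by positivity) (by positivity), Real.mul_rpow hPx hU0.le,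
        Real.mul_rpow hPy hV0.le, Finset.prod_mul_distrib,
        Real.finsetProd_rpow _ _ (fun j _ => hx0 j), Real.finsetProd_rpow _ _ (fun j _ => hy0 j),
        ← Real.rpow_natCast, ← Real.rpow_mul (hZ0 t)]
      push_cast
      ring
    rw [e3, mul_comm]
    apply mul_le_mul_of_nonneg_left _ (Real.rpow_nonneg (hZ0 t) _)
    have h1 : ∏ j ∈ R, (1 - Real.exp (-KK M J j)) ^ 2 ≤ ∏ j ∈ R, (x j ^ k * y j ^ (1 - k)) := by
      refine Finset.prod_le_prod (fun j _ => by positivity) fun j hj => ?_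
      have hjJ : j ≤ J := by
        have := Finset.mem_range.1 hj
        omega
      exact always_ratio (ll M J j) (rr M J j) hk0.le hk1.le (Len.KK_ge_one hjJ) (Nat.le_ceil _) _
    have h2 : 1 - ∑ j ∈ R, Real.exp (-KK M J j) ≤ ∏ j ∈ R, (1 - Real.exp (-KK M J j)) := by
      apply one_sub_sum_le (fun j => (Real.exp_pos _).le)
      intro j
      rw [Real.exp_le_one_iff]
      have : 0 < KK M J j := Real.exp_pos _
      linarith
    rw [Finset.prod_pow] at h1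
    have h3 : 1 - 2 * w ≤ ∏ j ∈ R, (1 - Real.exp (-KK M J j)) := by linarith
    have h4 : (1 - 2 * w) ^ 2 ≤ (∏ j ∈ R, (1 - Real.exp (-KK M J j))) ^ 2 :=
      pow_le_pow_left₀ (by linarith) h3 2
    have h5 : (1 - 2 * w) ^ 2 = 1 - 4 * w + 4 * w ^ 2 := by ring
    have h6 : 0 ≤ w ^ 2 := sq_nonneg w
    have h7 : 1 - δ ≤ ∏ j ∈ R, (x j ^ k * y j ^ (1 - k)) := by linarith
    calc 1 - δ ≤ (∏ j ∈ R, (x j ^ k * y j ^ (1 - k))) * 1 := by linarith
      _ ≤ _ := mul_le_mul_of_nonneg_left hUV (by linarith)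
  have hB : 0 < (1 + δ) * BF := by positivity
  have hB2 : 0 < (1 + δ) * BG := by positivity
  have hF10 : ∀ t, 0 ≤ F1 t := fun t => Finset.sum_nonneg fun g _ => by
    have := (hTF0 (fs (1 / 2 + t * I))).le
    positivity
  have hF20 : ∀ t, 0 ≤ F2 t := fun t => Finset.sum_nonneg fun g _ => by
    have := (hTG0 (fs (1 / 2 + t * I))).le
    positivity
  have h1 := holder2 hF1i hF2i hF10 hF20 hk0.le hk1.le hB hB2 hF1 hF2
  refine le_trans ?_ h1
  rw [hX, EG, ← integral_const_mul]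
  exact integral_mono (hfint.const_mul _)
    (holder2_integrable hF1i hF2i hF10 hF20 hk0.le hk1.le) hpt

lemma calc_id (a l p q g M k : ℝ) :
    (Real.exp a * (Real.exp (g - M) * Real.exp l) ^ (k ^ 2 - 1) * Real.exp l * Real.exp p) ^ k *
      (Real.exp a * (Real.exp (g - M) * Real.exp l) ^ (k ^ 2) * Real.exp q) ^ (1 - k) =
    Real.exp a * Real.exp l ^ (k ^ 2) *
      (Real.exp ((M - g) * (k * (1 - k))) * Real.exp p ^ k * Real.exp q ^ (1 - k)) := by
  simp only [← Real.exp_add, ← Real.exp_mul]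
  congr 1
  ring

lemma calc_main {a L P Q k : ℝ} {T : ℝ} {M : ℕ} (ha : 0 < a) (hL : 0 < L) (hP : 0 < P) (hQ : 0 < Q)
    (hLT : Real.log T = L) :
    (a * lM T M ^ (k ^ 2 - 1) * L * P) ^ k * (a * lM T M ^ (k ^ 2) * Q) ^ (1 - k) =
      a * L ^ (k ^ 2) * (Real.exp ((M - Real.eulerMascheroniConstant) * (k * (1 - k))) *
        P ^ k * Q ^ (1 - k)) := by
  have h := calc_id (Real.log a) (Real.log L) (Real.log P) (Real.log Q)
    Real.eulerMascheroniConstant M k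
  rw [Real.exp_log ha, Real.exp_log hL, Real.exp_log hP, Real.exp_log hQ] at h
  rw [lM, hLT]
  exact h

lemma lM_pow {T : ℝ} {M : ℕ} {L x : ℝ} (hL : 0 < L) (hLT : Real.log T = L) :
    lM T M ^ x = Real.exp ((Real.eulerMascheroniConstant - M) * x) * L ^ x := by
  rw [lM, hLT, Real.mul_rpow (Real.exp_pos _).le hL.le, ← Real.exp_mul]

lemma prod_low {C : ℝ} (hC : 1 ≤ C) (a : ℕ → ℝ) (h : ∀ i, C⁻¹ ≤ a i) (M : ℕ) :
    Real.exp (-(Real.log C * M)) ≤ ∏ i ∈ Finset.range (M - 2), a i := by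
  have hC0 : 0 < C := by linarith
  have h1 : (C⁻¹) ^ (M - 2) ≤ ∏ i ∈ Finset.range (M - 2), a i := by
    calc (C⁻¹) ^ (M - 2) = ∏ i ∈ Finset.range (M - 2), C⁻¹ := by simp
      _ ≤ _ := Finset.prod_le_prod (fun i _ => by positivity) fun i _ => h i
  refine le_trans ?_ h1
  have h2 : (C⁻¹) ^ (M - 2) = Real.exp (-(Real.log C * ((M - 2 : ℕ) : ℝ))) := by
    rw [Real.exp_neg, Real.exp_mul, Real.exp_log hC0, Real.rpow_natCast, inv_pow]
  rw [h2]
  apply Real.exp_le_exp.2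
  have h3 : ((M - 2 : ℕ) : ℝ) ≤ M := by exact_mod_cast Nat.sub_le M 2
  have h4 : 0 ≤ Real.log C := Real.log_nonneg hC
  have h5 := mul_le_mul_of_nonneg_left h3 h4
  linarith

end HoldAux

open Asm HoldAux in
theorem stHold (h1 : StPoint) (h2 : StSecF) (h3 : StSecG) (hr : StRho) (hA : StAK) : StHold := by
  intro k hk0 hk1 ε hε
  obtain ⟨h2m, C₂, κ₂, hC₂, hκ₂, M₂, h2c⟩ := h2 k hk0 hk1
  obtain ⟨h3m, C₃, κ₃, hC₃, hκ₃, M₃, h3c⟩ := h3 k hk0 hk1
  obtain ⟨-, -, -, Cr, hCr, hab, -, -⟩ := hr k hk0 hk1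
  have hak : 0 < aK k := (hA k hk0 hk1.le).1
  set δ := min ε 1 / 16 with hδd
  have hδ0 : 0 < δ := by positivity
  have hδ1 : δ ≤ 1 / 16 := by
    have := min_le_right ε 1
    rw [hδd]; linarith
  have hδε : 16 * δ ≤ ε := by
    have := min_le_left ε 1
    rw [hδd]; linarith
  obtain ⟨M₄, h4⟩ := h2m δ hδ0
  obtain ⟨M₅, h5⟩ := h3m δ hδ0
  set C := max C₂ C₃ with hCd
  set κ := min κ₂ κ₃ with hκd
  have hC : 0 < C := lt_max_of_lt_left hC₂
  have hκ : 0 < κ := lt_min hκ₂ hκ₃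
  set C' := Real.log Cr + 1 with hC'd
  have hC' : 0 < C' := by
    have := Real.log_nonneg hCr
    linarith
  obtain ⟨M₆, hM₆4, hM₆⟩ := UpH.exists_M (C + C') (δ * min (aK k) 1) (by positivity)
    (by positivity)
  refine ⟨max (max M₂ M₃) (max (max M₄ M₅) M₆), fun M hM => ?_⟩
  have hMM₂ : M₂ ≤ M := ((le_max_left _ _).trans (le_max_left _ _)).trans hM
  have hMM₃ : M₃ ≤ M := ((le_max_right _ _).trans (le_max_left _ _)).trans hM
  have hMM₄ : M₄ ≤ M :=
    (((le_max_left _ _).trans (le_max_left _ _)).trans (le_max_right _ _)).trans hM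
  have hMM₅ : M₅ ≤ M :=
    (((le_max_right _ _).trans (le_max_left _ _)).trans (le_max_right _ _)).trans hM
  have hMM₆ : M₆ ≤ M := ((le_max_right _ _).trans (le_max_right _ _)).trans hM
  have hM4 : 4 ≤ M := hM₆4.trans hMM₆
  have hM4' : (4 : ℝ) ≤ M := by exact_mod_cast hM4
  have hw := hM₆ M hMM₆
  obtain ⟨T₂, hT₂3, hT₂⟩ := h2c M hMM₂
  obtain ⟨T₃, hT₃3, hT₃⟩ := h3c M hMM₃
  obtain ⟨T₄, hT₄3, hT₄⟩ := h4 M hMM₄
  obtain ⟨T₅, hT₅3, hT₅⟩ := h5 M hMM₅
  set W := Real.exp (-(C' * M)) with hWd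
  have hW0 : 0 < W := Real.exp_pos _
  obtain ⟨T₆, hT₆⟩ := eventually_atTop.1 (eventually_pow κ (2 * δ * (aK k * W)) hκ (by positivity))
  refine ⟨max (max T₂ T₃) (max (max T₄ T₅) T₆), hT₂3.trans ((le_max_left _ _).trans
    (le_max_left _ _)), fun T hT τ hτ1 hτ2 => ?_⟩
  have hTT₂ : T₂ ≤ T := ((le_max_left _ _).trans (le_max_left _ _)).trans hT
  have hTT₃ : T₃ ≤ T := ((le_max_right _ _).trans (le_max_left _ _)).trans hT
  have hTT₄ : T₄ ≤ T :=
    (((le_max_left _ _).trans (le_max_left _ _)).trans (le_max_right _ _)).trans hT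
  have hTT₅ : T₅ ≤ T :=
    (((le_max_right _ _).trans (le_max_left _ _)).trans (le_max_right _ _)).trans hT
  have hTT₆ : T₆ ≤ T := ((le_max_right _ _).trans (le_max_right _ _)).trans hT
  have hT3 : 3 ≤ T := hT₂3.trans hTT₂
  have hT0 : 0 < T := by linarith
  have hT1 : 1 < T := by linarith
  have hL1 : 1 ≤ Real.log T := by
    rw [Real.le_log_iff_exp_le hT0]
    linarith [Real.exp_one_lt_d9]
  set L := Real.log T with hL
  have hL0 : 0 < L := by linarith
  set D := L ^ (k ^ 2) with hD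
  have hD1 : 1 ≤ D := Real.one_le_rpow hL1 (by positivity)
  have hD0 : 0 < D := by linarith
  set PF := ∏ i ∈ Finset.range (M - 2), aF k i with hPF
  set PG := ∏ i ∈ Finset.range (M - 2), aG k i with hPG
  set Q := 1 + 2 * (1 - k) * tb 0 with hQd
  have htb : 0 < tb 0 := by unfold tb; positivity
  have h1k : 0 < 1 - k := by linarith
  have hQ1 : 1 ≤ Q := by
    have : 0 < 2 * (1 - k) * tb 0 := by positivity
    linarith
  have hPFl : Real.exp (-(Real.log Cr * M)) ≤ PF := prod_low hCr _ (fun i => (hab i).1) M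
  have hPGl : Real.exp (-(Real.log Cr * M)) ≤ PG := prod_low hCr _ (fun i => (hab i).2.2.1) M
  have hPF0 : 0 < PF := lt_of_lt_of_le (Real.exp_pos _) hPFl
  have hPG0 : 0 < PG := lt_of_lt_of_le (Real.exp_pos _) hPGl
  have hg0 : 0 < Real.eulerMascheroniConstant := by
    linarith [Real.one_half_lt_eulerMascheroniConstant]
  have hg1 : Real.eulerMascheroniConstant < 1 := by
    linarith [Real.eulerMascheroniConstant_lt_two_thirds]
  have hkk : k ^ 2 ≤ 1 := pow_le_one₀ hk0.le hk1.le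
  have hLD : L ^ (k ^ 2 - 1) * L = D := by
    rw [hD, ← Real.rpow_add_one hL0.ne']
    congr 1
    ring
  -- the main terms
  set A1 := aK k * lM T M ^ (k ^ 2 - 1) * L * (PF * Q) with hA1
  set A2 := aK k * lM T M ^ (k ^ 2) * PG with hA2
  set BF := aK k * lM T M ^ (k ^ 2 - 1) * L * PF * (Q + δ) with hBF
  set BG := (1 + δ) * (aK k * lM T M ^ (k ^ 2) * PG) with hBG
  have hlM : 0 < lM T M := by
    unfold lM
    have := Real.exp_pos (Real.eulerMascheroniConstant - M)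
    positivity
  have hA1p : 0 < A1 := by
    have := Real.rpow_pos_of_pos hlM (k ^ 2 - 1)
    positivity
  have hA2p : 0 < A2 := by
    have := Real.rpow_pos_of_pos hlM (k ^ 2)
    positivity
  have hBFA : BF ≤ (1 + δ) * A1 := by
    have h6 : Q + δ ≤ (1 + δ) * Q := by
      have : δ * 1 ≤ δ * Q := mul_le_mul_of_nonneg_left hQ1 hδ0.le
      linarith
    have h7 : 0 < aK k * lM T M ^ (k ^ 2 - 1) * L * PF := by
      have := Real.rpow_pos_of_pos hlM (k ^ 2 - 1)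
      positivity
    calc BF ≤ aK k * lM T M ^ (k ^ 2 - 1) * L * PF * ((1 + δ) * Q) :=
          mul_le_mul_of_nonneg_left h6 h7.le
      _ = _ := by rw [hA1]; ring
  have hlowF : aK k * W * D ≤ BF := by
    have h6 : W ≤ Real.exp ((Real.eulerMascheroniConstant - M) * (k ^ 2 - 1)) * PF := by
      have h7 : 1 ≤ Real.exp ((Real.eulerMascheroniConstant - M) * (k ^ 2 - 1)) := by
        apply Real.one_le_exp
        apply mul_nonneg_of_nonpos_of_nonpos
        · linarith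
        · linarith
      have h8 : W ≤ Real.exp (-(Real.log Cr * M)) := by
        rw [hWd]
        apply Real.exp_le_exp.2
        rw [hC'd]
        linarith
      calc W ≤ 1 * PF := by rw [one_mul]; exact h8.trans hPFl
        _ ≤ _ := mul_le_mul_of_nonneg_right h7 hPF0.le
    have h9 : 1 ≤ Q + δ := by linarith
    calc aK k * W * D ≤ aK k * (Real.exp ((Real.eulerMascheroniConstant - M) * (k ^ 2 - 1)) * PF) *
          D := by gcongr
      _ = aK k * (Real.exp ((Real.eulerMascheroniConstant - M) * (k ^ 2 - 1)) * L ^ (k ^ 2 - 1)) *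
          L * PF * 1 := by rw [← hLD]; ring
      _ ≤ aK k * (Real.exp ((Real.eulerMascheroniConstant - M) * (k ^ 2 - 1)) * L ^ (k ^ 2 - 1)) *
          L * PF * (Q + δ) := by
          have := Real.rpow_pos_of_pos hL0 (k ^ 2 - 1)
          gcongr
      _ = BF := by rw [hBF, lM_pow hL0 hL.symm]
  have hlowG : aK k * W * D ≤ BG := by
    have h6 : W ≤ Real.exp ((Real.eulerMascheroniConstant - M) * (k ^ 2)) * PG := by
      have h7 : Real.exp (-(M : ℝ)) ≤
          Real.exp ((Real.eulerMascheroniConstant - M) * (k ^ 2)) := by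
        apply Real.exp_le_exp.2
        have h10 : (M : ℝ) * k ^ 2 ≤ M * 1 := mul_le_mul_of_nonneg_left hkk (by linarith)
        have h11 : 0 ≤ Real.eulerMascheroniConstant * k ^ 2 := by positivity
        linarith
      calc W = Real.exp (-(M : ℝ)) * Real.exp (-(Real.log Cr * M)) := by
            rw [hWd, hC'd, ← Real.exp_add]
            congr 1
            ring
        _ ≤ _ := mul_le_mul h7 hPGl (Real.exp_pos _).le (Real.exp_pos _).le
    calc aK k * W * D ≤ aK k * (Real.exp ((Real.eulerMascheroniConstant - M) * (k ^ 2)) * PG) *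
          D := by gcongr
      _ = 1 * (aK k * (Real.exp ((Real.eulerMascheroniConstant - M) * (k ^ 2)) * L ^ (k ^ 2)) *
          PG) := by rw [hD]; ring
      _ ≤ (1 + δ) * (aK k * (Real.exp ((Real.eulerMascheroniConstant - M) * (k ^ 2)) *
          L ^ (k ^ 2)) * PG) := by
          gcongr
          linarith
      _ = BG := by rw [hBG, lM_pow hL0 hL.symm]
  have hBF0 : 0 < BF := lt_of_lt_of_le (by positivity) hlowF
  have hBG0 : 0 < BG := lt_of_lt_of_le (by positivity) hlowG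
  -- smallness
  set E := Real.exp (3 / 4 * (M : ℝ)) with hEd
  have hE0 : 0 < E := Real.exp_pos _
  have hsm : Real.exp (C * M) * D * (4 * Real.exp (-(1 / 2 * E))) +
      2 ^ (JJ T + 1) * T ^ (-κ) ≤ δ * (aK k * W * D) := by
    have h6 : Real.exp (C * M) * Real.exp (-(1 / 2 * E)) ≤
        Real.exp ((C + C') * M - 1 / 4 * E) * W := by
      rw [hWd, ← Real.exp_add, ← Real.exp_add]
      apply Real.exp_le_exp.2
      linarith
    have h7 : 8 * Real.exp ((C + C') * M - 1 / 4 * E) ≤ δ * aK k := by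
      refine hw.trans ?_
      gcongr
      exact min_le_left _ _
    have h8 : Real.exp (C * M) * D * (4 * Real.exp (-(1 / 2 * E))) ≤ δ / 2 * (aK k * W * D) := by
      calc Real.exp (C * M) * D * (4 * Real.exp (-(1 / 2 * E)))
          = 4 * (Real.exp (C * M) * Real.exp (-(1 / 2 * E))) * D := by ring
        _ ≤ 4 * (Real.exp ((C + C') * M - 1 / 4 * E) * W) * D := by gcongr
        _ = (8 * Real.exp ((C + C') * M - 1 / 4 * E)) / 2 * (W * D) := by ring
        _ ≤ (δ * aK k) / 2 * (W * D) := by gcongr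
        _ = _ := by ring
    have h9 : 2 ^ (JJ T + 1) * T ^ (-κ) ≤ δ / 2 * (aK k * W * D) := by
      have h10 : T ^ (-κ) ≤ T ^ (-(κ / 2)) :=
        Real.rpow_le_rpow_of_exponent_le hT1.le (by linarith)
      calc 2 ^ (JJ T + 1) * T ^ (-κ) ≤ 2 ^ (JJ T + 1) * T ^ (-(κ / 2)) := by gcongr
        _ ≤ 2 * δ * (aK k * W) / 4 := hT₆ T hTT₆
        _ = δ / 2 * (aK k * W * 1) := by ring
        _ ≤ _ := by gcongr
    linarith
  have hδw : 8 * Real.exp (-E) ≤ δ := by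
    have h6 : Real.exp (-E) ≤ Real.exp ((C + C') * M - 1 / 4 * E) := by
      apply Real.exp_le_exp.2
      have : 0 < (C + C') * M := by positivity
      linarith
    have h7 : δ * min (aK k) 1 ≤ δ * 1 := by
      gcongr
      exact min_le_right _ _
    linarith
  have hTκ : ∀ x : ℝ, κ ≤ x → T ^ (-x) ≤ T ^ (-κ) := fun x hx =>
    Real.rpow_le_rpow_of_exponent_le hT1.le (by linarith)
  have hCM : ∀ x : ℝ, x ≤ C → Real.exp (x * M) ≤ Real.exp (C * M) := fun x hx =>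
    Real.exp_le_exp.2 (mul_le_mul_of_nonneg_right hx (by positivity))
  have hss0 : ∀ h : Finset ℕ, 0 ≤ ∏ j ∈ h, ss M (JJ T) j := fun h =>
    Finset.prod_nonneg fun j _ => (Real.exp_pos _).le
  have key := hold_core h1 (τ := τ) (D := D) (C := C) (κ := κ) (BF := BF) (BG := BG) hδ0 hδ1 hM4
    hk0 hk1 hT3 hBF0 hBG0 hD0 hδw
    (hsm.trans (mul_le_mul_of_nonneg_left hlowF hδ0.le))
    (hsm.trans (mul_le_mul_of_nonneg_left hlowG hδ0.le))
    (hT₄ T hTT₄ τ hτ1 hτ2)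
    (hT₅ T hTT₅ τ)
    (fun g h hgh => by
      refine (hT₂ T hTT₂ τ hτ1 hτ2 g h hgh).trans ?_
      have h6 := hCM C₂ (le_max_left _ _)
      have h7 := hTκ κ₂ (min_le_left _ _)
      have h8 := hss0 h
      gcongr)
    (fun g h hgh => by
      refine (hT₃ T hTT₃ τ g h hgh).trans ?_
      have h6 := hCM C₃ (le_max_right _ _)
      have h7 := hTκ κ₃ (min_le_right _ _)
      have h8 := hss0 h
      gcongr)
  set X := EG T τ (fun t => ‖riemannZeta (1 / 2 + t * I)‖ ^ (2 * k)) with hX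
  set N := aK k * L ^ (k ^ 2) * (Real.exp ((M - Real.eulerMascheroniConstant) * (k * (1 - k))) *
    (PF * Q) ^ k * PG ^ (1 - k)) with hN
  have hid : A1 ^ k * A2 ^ (1 - k) = N :=
    calc_main hak hL0 (by positivity) hPG0 hL.symm
  have hN0 : 0 < N := by
    rw [← hid]
    have := Real.rpow_pos_of_pos hA1p k
    have := Real.rpow_pos_of_pos hA2p (1 - k)
    positivity
  have h6 : ((1 + δ) * BF) ^ k * ((1 + δ) * BG) ^ (1 - k) ≤ (1 + δ) ^ 2 * N := by
    have h7 : ((1 + δ) * BF) ^ k ≤ ((1 + δ) ^ 2 * A1) ^ k := by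
      apply Real.rpow_le_rpow (by positivity) _ hk0.le
      calc (1 + δ) * BF ≤ (1 + δ) * ((1 + δ) * A1) := by gcongr
        _ = _ := by ring
    have h8 : ((1 + δ) * BG) ^ (1 - k) = ((1 + δ) ^ 2 * A2) ^ (1 - k) := by
      congr 1
      rw [hBG, hA2]
      ring
    rw [h8]
    calc ((1 + δ) * BF) ^ k * ((1 + δ) ^ 2 * A2) ^ (1 - k) ≤
        ((1 + δ) ^ 2 * A1) ^ k * ((1 + δ) ^ 2 * A2) ^ (1 - k) := by gcongr
      _ = (((1 + δ) ^ 2) ^ k * ((1 + δ) ^ 2) ^ (1 - k)) * (A1 ^ k * A2 ^ (1 - k)) := by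
          rw [Real.mul_rpow (by positivity) hA1p.le, Real.mul_rpow (by positivity) hA2p.le]
          ring
      _ = (1 + δ) ^ 2 * N := by
          rw [hid, ← Real.rpow_add (by positivity), show k + (1 - k) = 1 by ring, Real.rpow_one]
  have h9 : (1 + δ) ^ 2 ≤ (1 - δ) * (1 + 16 * δ) := by
    have : δ * δ ≤ δ * (1 / 16) := mul_le_mul_of_nonneg_left hδ1 hδ0.le
    have e1 : (1 + δ) ^ 2 = 1 + 2 * δ + δ * δ := by ring
    have e2 : (1 - δ) * (1 + 16 * δ) = 1 + 15 * δ - 16 * (δ * δ) := by ring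
    rw [e1, e2]
    linarith
  have h10 : (1 - δ) * X ≤ (1 - δ) * ((1 + 16 * δ) * N) := by
    calc (1 - δ) * X ≤ (1 + δ) ^ 2 * N := key.trans h6
      _ ≤ ((1 - δ) * (1 + 16 * δ)) * N := mul_le_mul_of_nonneg_right h9 hN0.le
      _ = _ := by ring
  have h11 : X ≤ (1 + 16 * δ) * N := le_of_mul_le_mul_left h10 (by linarith)
  refine h11.trans ?_
  gcongr

end K5
end Pool.Agent.Lib.MP_973905_nt
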