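import Pool.Agent.Lib.MP_973905_nt.K5.Stmts
import Pool.Agent.Lib.MP_973905_nt.CK

/-! (N1) Lower bounds for the Barnes quotient `G(1+k)^2 / G(1+2k)`. -/

namespace Pool.Agent.Lib.MP_973905_nt
namespace K5

open CK

namespace GQ

lemma d1 {y : ℝ} (hy : 0 < y) : HasDerivAt (fun y : ℝ => Real.log (1 + y)) (1 / (1 + y)) y :=
  ((hasDerivAt_id' y).const_add 1).log (by linarith)

lemma d2 (y : ℝ) : HasDerivAt (fun y : ℝ => y - y ^ 2 / 2) (1 - y) y :=
  ((hasDerivAt_id' y).fun_sub ((hasDerivAt_pow 2 y).div_const 2)).congr_deriv (by norm_num)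

lemma d3 (y : ℝ) : HasDerivAt (fun y : ℝ => y - y ^ 2 / 2 + y ^ 3 / 3) (1 - y + y ^ 2) y :=
  ((d2 y).fun_add ((hasDerivAt_pow 3 y).div_const 3)).congr_deriv (by norm_num)

lemma clog : ContinuousOn (fun y : ℝ => Real.log (1 + y)) (Set.Ici 0) := by
  apply ContinuousOn.log (by fun_prop)
  intro y hy
  have : (0 : ℝ) ≤ y := hy
  linarith

lemma log_ge {x : ℝ} (hx : 0 ≤ x) : x - x ^ 2 / 2 ≤ Real.log (1 + x) := by
  have h : MonotoneOn (fun y : ℝ => Real.log (1 + y) - (y - y ^ 2 / 2)) (Set.Ici 0) := by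
    have hd : ∀ y : ℝ, 0 < y → HasDerivAt (fun y : ℝ => Real.log (1 + y) - (y - y ^ 2 / 2))
        (1 / (1 + y) - (1 - y)) y := fun y hy => (d1 hy).fun_sub (d2 y)
    apply monotoneOn_of_deriv_nonneg (convex_Ici 0)
    · exact clog.sub (by fun_prop)
    · intro y hy
      rw [interior_Ici] at hy
      exact (hd y hy).differentiableAt.differentiableWithinAt
    · intro y hy
      rw [interior_Ici] at hy
      have hy0 : (0 : ℝ) < y := hy
      rw [(hd y hy0).deriv]
      have : 1 / (1 + y) - (1 - y) = y ^ 2 / (1 + y) := by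
        have : (1 + y) ≠ 0 := by linarith
        field_simp
        ring
      rw [this]
      positivity
  have h0 := h (Set.mem_Ici.2 le_rfl) (Set.mem_Ici.2 hx) hx
  simp at h0
  linarith

lemma log_le {x : ℝ} (hx : 0 ≤ x) : Real.log (1 + x) ≤ x - x ^ 2 / 2 + x ^ 3 / 3 := by
  have h : MonotoneOn (fun y : ℝ => (y - y ^ 2 / 2 + y ^ 3 / 3) - Real.log (1 + y)) (Set.Ici 0) := by
    have hd : ∀ y : ℝ, 0 < y → HasDerivAt (fun y : ℝ => (y - y ^ 2 / 2 + y ^ 3 / 3) - Real.log (1 + y))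
        ((1 - y + y ^ 2) - 1 / (1 + y)) y := fun y hy => (d3 y).fun_sub (d1 hy)
    apply monotoneOn_of_deriv_nonneg (convex_Ici 0)
    · exact ContinuousOn.sub (by fun_prop) clog
    · intro y hy
      rw [interior_Ici] at hy
      exact (hd y hy).differentiableAt.differentiableWithinAt
    · intro y hy
      rw [interior_Ici] at hy
      have hy0 : (0 : ℝ) < y := hy
      rw [(hd y hy0).deriv]
      have : (1 - y + y ^ 2) - 1 / (1 + y) = y ^ 3 / (1 + y) := by
        have : (1 + y) ≠ 0 := by linarith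
        field_simp
        ring
      rw [this]
      positivity
  have h0 := h (Set.mem_Ici.2 le_rfl) (Set.mem_Ici.2 hx) hx
  simp at h0
  linarith

/-- the logarithm of one factor of the quotient -/
noncomputable def tt (k : ℝ) (n : ℕ) : ℝ := 2 * Real.log (bf k n) - Real.log (bf (2 * k) n)

lemma tt_eq {k : ℝ} (hk : 0 ≤ k) (n : ℕ) :
    tt k n = (n + 1) * Real.log (1 + k ^ 2 / ((n + 1) * (n + 1 + 2 * k))) - k ^ 2 / (n + 1) := by
  have hn : (0 : ℝ) < n + 1 := by positivity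
  have hn2 : (0 : ℝ) < n + 1 + 2 * k := by positivity
  rw [tt, log_bf (by linarith), log_bf (by linarith)]
  have e : (1 + k / ((n : ℝ) + 1)) ^ 2 =
      (1 + k ^ 2 / ((n + 1) * (n + 1 + 2 * k))) * (1 + 2 * k / (n + 1)) := by
    field_simp
    ring
  have e2 : 2 * Real.log (1 + k / ((n : ℝ) + 1)) =
      Real.log (1 + k ^ 2 / ((n + 1) * (n + 1 + 2 * k))) + Real.log (1 + 2 * k / (n + 1)) := by
    rw [← Real.log_mul (by positivity) (by positivity), ← e, Real.log_pow]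
    norm_num
  have e3 : 2 * (((n : ℝ) + 1) * (Real.log (1 + k / (n + 1)) - k / (n + 1) + (k / (n + 1)) ^ 2 / 2)) =
      (n + 1) * (2 * Real.log (1 + k / (n + 1))) - 2 * k + k ^ 2 / (n + 1) := by
    field_simp
  rw [e3, e2]
  field_simp
  ring

lemma summable_tt {k : ℝ} (hk : 0 ≤ k) : Summable (tt k) :=
  ((summable_log_bf (by linarith)).mul_left 2).sub (summable_log_bf (by linarith))

lemma quot_eq {k : ℝ} (hk : 0 ≤ k) : barnesG (k + 1) ^ 2 / barnesG (2 * k + 1) =
    Real.exp (k ^ 2 * (1 + Real.eulerMascheroniConstant) + ∑' n, tt k n) := by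
  rw [barnesG_eq, barnesG_eq, add_sub_cancel_right, add_sub_cancel_right,
    tprod_bf (z := k) (by linarith), tprod_bf (z := 2 * k) (by linarith)]
  have hs : ∑' n, tt k n = 2 * (∑' n, Real.log (bf k n)) - ∑' n, Real.log (bf (2 * k) n) := by
    unfold tt
    rw [Summable.tsum_sub ((summable_log_bf (by linarith)).mul_left 2) (summable_log_bf (by linarith)),
      tsum_mul_left]
  rw [hs]
  have hpi : (0 : ℝ) < 2 * Real.pi := by positivity
  have e1 : (2 * Real.pi) ^ (2 * k / 2) = ((2 * Real.pi) ^ (k / 2)) ^ 2 := by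
    rw [← Real.rpow_natCast, ← Real.rpow_mul hpi.le]
    congr 1
    push_cast
    ring
  rw [e1, mul_pow, mul_pow, ← Real.exp_nat_mul, ← Real.exp_nat_mul]
  have hX : 0 < ((2 * Real.pi) ^ (k / 2)) ^ 2 := by positivity
  rw [div_eq_iff (by positivity)]
  have e2 : Real.exp (k ^ 2 * (1 + Real.eulerMascheroniConstant) +
      (2 * (∑' n, Real.log (bf k n)) - ∑' n, Real.log (bf (2 * k) n))) *
      (((2 * Real.pi) ^ (k / 2)) ^ 2 *
        Real.exp (-(2 * k + (2 * k) ^ 2 * (1 + Real.eulerMascheroniConstant)) / 2) *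
        Real.exp (∑' n, Real.log (bf (2 * k) n))) =
      ((2 * Real.pi) ^ (k / 2)) ^ 2 * (Real.exp (k ^ 2 * (1 + Real.eulerMascheroniConstant) +
      (2 * (∑' n, Real.log (bf k n)) - ∑' n, Real.log (bf (2 * k) n))) *
        Real.exp (-(2 * k + (2 * k) ^ 2 * (1 + Real.eulerMascheroniConstant)) / 2) *
        Real.exp (∑' n, Real.log (bf (2 * k) n))) := by ring
  rw [e2, mul_assoc, ← Real.exp_add, ← Real.exp_add, ← Real.exp_add]
  congr 2
  push_cast
  ring

lemma barnes2 : barnesG (1 + 1) = 1 := by rw [barnesG_add_one one_pos, barnesG_one]; simp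

lemma barnes3 : barnesG (2 * 1 + 1) = 1 := by
  have : (2 * 1 + 1 : ℝ) = (1 + 1) + 1 := by norm_num
  rw [this, barnesG_add_one (by norm_num), barnes2, Real.Gamma_add_one one_ne_zero]
  simp

lemma at_one : (1 + Real.eulerMascheroniConstant) + ∑' n, tt 1 n = 0 := by
  have h := quot_eq (k := 1) zero_le_one
  rw [barnes2, barnes3] at h
  have h1 : Real.exp (1 ^ 2 * (1 + Real.eulerMascheroniConstant) + ∑' n, tt 1 n) = Real.exp 0 := by
    rw [← h, Real.exp_zero]; norm_num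
  have h2 := Real.exp_injective h1
  linarith

/-- the terms of the series for the logarithm of the quotient -/
noncomputable def ww (k : ℝ) (n : ℕ) : ℝ := tt k n - k ^ 2 * tt 1 n

lemma summable_ww {k : ℝ} (hk : 0 ≤ k) : Summable (ww k) :=
  (summable_tt hk).sub ((summable_tt zero_le_one).mul_left _)

lemma quot_ww {k : ℝ} (hk : 0 ≤ k) : barnesG (k + 1) ^ 2 / barnesG (2 * k + 1) =
    Real.exp (∑' n, ww k n) := by
  rw [quot_eq hk]
  congr 1
  have h := at_one
  unfold ww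
  rw [Summable.tsum_sub (summable_tt hk) ((summable_tt zero_le_one).mul_left _), tsum_mul_left]
  have : k ^ 2 * ((1 + Real.eulerMascheroniConstant) + ∑' n, tt 1 n) = 0 := by rw [h, mul_zero]
  linarith

lemma ww_eq {k : ℝ} (hk : 0 ≤ k) (n : ℕ) : ww k n = (n + 1) *
    (Real.log (1 + k ^ 2 / ((n + 1) * (n + 1 + 2 * k))) -
      k ^ 2 * Real.log (1 + 1 / ((n + 1) * (n + 1 + 2)))) := by
  rw [ww, tt_eq hk, tt_eq zero_le_one]
  norm_num
  field_simp
  ring

lemma ww_nonneg {k : ℝ} (hk : 0 ≤ k) (hk1 : k ≤ 1) (n : ℕ) : 0 ≤ ww k n := by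
  have hn : (0 : ℝ) < n + 1 := by positivity
  have hn2 : (0 : ℝ) < n + 1 + 2 * k := by positivity
  rw [ww_eq hk]
  apply mul_nonneg hn.le
  rw [sub_nonneg]
  set c : ℝ := 1 / ((n + 1) * (n + 1 + 2 * k)) with hc
  have hc0 : 0 < c := by positivity
  have h1 : Real.log (1 + 1 / (((n : ℝ) + 1) * (n + 1 + 2))) ≤ Real.log (1 + c) := by
    apply Real.log_le_log (by positivity)
    rw [hc]
    gcongr
    linarith
  have h2 : k ^ 2 * Real.log (1 + c) ≤ Real.log (1 + k ^ 2 * c) := by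
    rw [← Real.log_rpow (by positivity)]
    apply Real.log_le_log (by positivity)
    exact rpow_one_add_le_one_add_mul_self (by linarith) (by positivity) (by nlinarith)
  have h3 : k ^ 2 / (((n : ℝ) + 1) * (n + 1 + 2 * k)) = k ^ 2 * c := by
    rw [hc]; ring
  rw [h3]
  refine le_trans ?_ h2
  gcongr

/-- the lower bound for one term -/
lemma ww_ge {k : ℝ} (hk : 0 < k) {n : ℕ}
    (h : (k * (n + 3) / (n + 1 + 2 * k)) ^ 2 ≤ 1 - 2 / 3 * (1 / (((n : ℝ) + 1) * (n + 3)))) :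
    k ^ 2 * (1 - k) * (2 / ((n + 1 + 2 * k) * (n + 3))) ≤ ww k n := by
  have hn : (0 : ℝ) < n + 1 := by positivity
  have hn2 : (0 : ℝ) < n + 1 + 2 * k := by positivity
  rw [ww_eq hk.le]
  have e0 : (n : ℝ) + 1 + 2 = n + 3 := by ring
  rw [e0]
  set a : ℝ := k ^ 2 / ((n + 1) * (n + 1 + 2 * k)) with ha
  set b : ℝ := 1 / ((n + 1) * (n + 3)) with hb
  have ha0 : 0 < a := by positivity
  have hb0 : 0 < b := by positivity
  have h1 := log_ge ha0.le
  have h2 := log_le hb0.le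
  have e1 : k * (n + 3) / (n + 1 + 2 * k) = a / (k * b) := by
    rw [ha, hb]; field_simp
  rw [e1] at h
  have h3 : a ^ 2 ≤ k ^ 2 * b ^ 2 * (1 - 2 / 3 * b) := by
    rw [div_pow, div_le_iff₀ (by positivity)] at h
    calc a ^ 2 ≤ (1 - 2 / 3 * b) * (k * b) ^ 2 := h
      _ = _ := by ring
  have e2 : k ^ 2 * (1 - k) * (2 / ((n + 1 + 2 * k) * (n + 3))) = (n + 1) * (a - k ^ 2 * b) := by
    rw [ha, hb]; field_simp; ring
  rw [e2]
  apply mul_le_mul_of_nonneg_left _ hn.le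
  have hk2 : 0 < k ^ 2 := by positivity
  nlinarith [mul_le_mul_of_nonneg_left h2 hk2.le]

lemma cond1 {k : ℝ} (hk : 0 < k) (hk1 : k ≤ 7 / 10) (n : ℕ) :
    (k * (n + 3) / (n + 1 + 2 * k)) ^ 2 ≤ 1 - 2 / 3 * (1 / (((n : ℝ) + 1) * (n + 3))) := by
  have hn : (0 : ℝ) < n + 1 := by positivity
  have hn0 : (0 : ℝ) ≤ n := by positivity
  have h1 : k * (n + 3) / (n + 1 + 2 * k) ≤ 7 / 8 := by
    rw [div_le_iff₀ (by positivity)]
    nlinarith
  have h2 : 0 ≤ k * (n + 3) / (n + 1 + 2 * k) := by positivity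
  have h3 : 1 / (((n : ℝ) + 1) * (n + 3)) ≤ 1 / 3 := by
    apply one_div_le_one_div_of_le (by norm_num)
    nlinarith
  nlinarith

lemma cond2 {k : ℝ} (hk : 0 < k) (hk1 : k ≤ 3 / 4) {n : ℕ} (hn1 : 1 ≤ n) :
    (k * (n + 3) / (n + 1 + 2 * k)) ^ 2 ≤ 1 - 2 / 3 * (1 / (((n : ℝ) + 1) * (n + 3))) := by
  have hn0 : (1 : ℝ) ≤ n := by exact_mod_cast hn1
  have h1 : k * (n + 3) / (n + 1 + 2 * k) ≤ 7 / 8 := by
    rw [div_le_iff₀ (by positivity)]
    nlinarith
  have h2 : 0 ≤ k * (n + 3) / (n + 1 + 2 * k) := by positivity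
  have h3 : 1 / (((n : ℝ) + 1) * (n + 3)) ≤ 1 / 3 := by
    apply one_div_le_one_div_of_le (by norm_num)
    nlinarith
  nlinarith

/-- the telescoping sum -/
lemma tele (c : ℝ) (hc : 0 < c) (N : ℕ) : ∑ n ∈ Finset.range N, 2 / (((n : ℝ) + c) * (n + c + 1)) =
    2 / c - 2 / (N + c) := by
  induction N with
  | zero => simp
  | succ N ih =>
    rw [Finset.sum_range_succ, ih]
    push_cast
    have h1 : (N : ℝ) + c ≠ 0 := by positivity
    have h2 : (N : ℝ) + 1 + c ≠ 0 := by positivity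
    have h3 : (N : ℝ) + c + 1 ≠ 0 := by positivity
    field_simp
    ring

lemma sum_ge {k : ℝ} (hk : 0 < k) (hk1 : k ≤ 3 / 4) :
    1 / 2 * (k ^ 2 * (1 - k)) ≤ ∑' n, ww k n := by
  have hp : 0 < k ^ 2 * (1 - k) := by
    have : 0 < 1 - k := by linarith
    positivity
  have h0 := (summable_ww hk.le).sum_le_tsum (Finset.range (200 + 1)) fun n _ => ww_nonneg hk.le (by linarith) n
  refine le_trans ?_ h0
  rw [Finset.sum_range_succ']
  have hz := ww_nonneg hk.le (by linarith : k ≤ 1) 0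
  have h1 : ∀ n ∈ Finset.range 200, k ^ 2 * (1 - k) * (2 / (((n : ℝ) + 7 / 2) * (n + 7 / 2 + 1))) ≤
      ww k (n + 1) := by
    intro n _
    refine le_trans ?_ (ww_ge hk (cond2 hk hk1 (Nat.le_add_left 1 n)))
    push_cast
    apply mul_le_mul_of_nonneg_left _ hp.le
    apply div_le_div_of_nonneg_left (by norm_num) (by positivity)
    have hn0 : (0 : ℝ) ≤ n := by positivity
    apply mul_le_mul <;> linarith
  have h2 := Finset.sum_le_sum h1
  rw [← Finset.mul_sum, tele _ (by norm_num)] at h2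
  norm_num at h2 ⊢
  nlinarith

lemma sum_ge' {k : ℝ} (hk : 0 < k) (hk1 : k ≤ 7 / 10) :
    17 / 20 * (k ^ 2 * (1 - k)) ≤ ∑' n, ww k n := by
  have hp : 0 < k ^ 2 * (1 - k) := by
    have : 0 < 1 - k := by linarith
    positivity
  have h0 := (summable_ww hk.le).sum_le_tsum (Finset.range (200 + 1)) fun n _ => ww_nonneg hk.le (by linarith) n
  refine le_trans ?_ h0
  rw [Finset.sum_range_succ']
  have hz : k ^ 2 * (1 - k) * (2 / (12 / 5 * 3)) ≤ ww k 0 := by
    refine le_trans ?_ (ww_ge hk (cond1 hk hk1 0))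
    push_cast
    apply mul_le_mul_of_nonneg_left _ hp.le
    apply div_le_div_of_nonneg_left (by norm_num) (by positivity)
    apply mul_le_mul <;> linarith
  have h1 : ∀ n ∈ Finset.range 200, k ^ 2 * (1 - k) * (2 / (((n : ℝ) + 17 / 5) * (n + 17 / 5 + 1))) ≤
      ww k (n + 1) := by
    intro n _
    refine le_trans ?_ (ww_ge hk (cond1 hk hk1 (n + 1)))
    push_cast
    apply mul_le_mul_of_nonneg_left _ hp.le
    apply div_le_div_of_nonneg_left (by norm_num) (by positivity)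
    have hn0 : (0 : ℝ) ≤ n := by positivity
    apply mul_le_mul <;> linarith
  have h2 := Finset.sum_le_sum h1
  rw [← Finset.mul_sum, tele _ (by norm_num)] at h2
  norm_num at h2 hz ⊢
  nlinarith

end GQ

open GQ in
/-- (N1) -/
theorem stG : StG := by
  intro k hk hk1
  rw [quot_ww hk.le]
  refine ⟨?_, ?_, ?_⟩
  · rw [← Real.exp_zero]
    exact Real.exp_le_exp.2 (tsum_nonneg fun n => ww_nonneg hk.le hk1.le n)
  · intro h
    exact Real.exp_le_exp.2 (sum_ge' hk h)
  · intro h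
    exact Real.exp_le_exp.2 (sum_ge hk h)

end K5
end Pool.Agent.Lib.MP_973905_nt
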