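import Pool.Agent.Lib.MP_973905_nt.K5.Stmts
import Pool.Agent.Lib.MP_973905_nt.K1.Fin
import Pool.Agent.Lib.MP_973905_nt.K1.RAapprox

/-! Module (B12): the arithmetic factor is a product over the blocks. -/

namespace Pool.Agent.Lib.MP_973905_nt
namespace K5

open MeasureTheory ProbabilityTheory Complex Filter Topology K1

namespace FactM

/-! ### the boundaries of the blocks -/

lemma tb_pos (i : ℕ) : 0 < tb i := by
  unfold tb; split_ifs <;> exact Real.exp_pos _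

lemma tb_succ_le (i : ℕ) : tb (i + 1) ≤ tb i := by
  unfold tb
  rw [if_neg (by omega)]
  have hi : (0 : ℝ) ≤ i := by positivity
  split_ifs with h
  · subst h
    apply Real.exp_le_exp.mpr
    push_cast; norm_num
  · apply Real.exp_le_exp.mpr
    push_cast; linarith

lemma tb_anti : Antitone tb := antitone_nat_of_succ_le tb_succ_le

lemma tb_zero_le : tb 0 ≤ 1 := by
  unfold tb
  rw [if_pos rfl]
  exact Real.exp_le_one_iff.mpr (by norm_num)

lemma tb_last {M : ℕ} (hM : 3 ≤ M) : tb (M - 2) = Real.exp (-(M : ℝ)) := by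
  unfold tb
  rw [if_neg (by omega), Nat.cast_sub (by omega)]
  congr 1
  push_cast; ring

variable {T : ℝ} {M : ℕ}

lemma bd_mono (hT : 1 < T) {i j : ℕ} (h : i ≤ j) :
    Real.exp (tb j * Real.log T) ≤ Real.exp (tb i * Real.log T) := by
  apply Real.exp_le_exp.mpr
  exact mul_le_mul_of_nonneg_right (tb_anti h) (Real.log_pos hT).le

lemma bd_le (hT : 1 < T) : Real.exp (tb 0 * Real.log T) ≤ T := by
  calc Real.exp (tb 0 * Real.log T) ≤ Real.exp (1 * Real.log T) := by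
        apply Real.exp_le_exp.mpr
        exact mul_le_mul_of_nonneg_right tb_zero_le (Real.log_pos hT).le
    _ = T := by rw [one_mul, Real.exp_log (by linarith)]

lemma mem_UB {i p : ℕ} : p ∈ UB T i ↔ p.Prime ∧ Real.exp (tb (i + 1) * Real.log T) < p ∧
    (p : ℝ) ≤ Real.exp (tb i * Real.log T) :=
  mem_PS (Real.exp_pos _).le (Real.exp_pos _).le

lemma mem_top (hT : 1 < T) {p : ℕ} : p ∈ PS (Real.exp (tb 0 * Real.log T)) T ↔
    p.Prime ∧ Real.exp (tb 0 * Real.log T) < p ∧ (p : ℝ) ≤ T :=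
  mem_PS (Real.exp_pos _).le (by linarith)

lemma mem_bot (hT : 1 < T) {j p : ℕ} (hj : j ≤ JJ T) (hp : p ∈ Sj T M (JJ T) j) :
    p.Prime ∧ (p : ℝ) ≤ Real.exp (Real.exp (-(M : ℝ)) * Real.log T) := by
  have h1 : p ∈ (Finset.range (JJ T + 1)).biUnion (fun j => Sj T M (JJ T) j) :=
    Finset.mem_biUnion.mpr ⟨j, Finset.mem_range.mpr (by omega), hp⟩
  rw [RAx.biUnion_eq hT, mem_PS le_rfl (Real.exp_pos _).le] at h1
  exact ⟨h1.1, h1.2.2⟩

lemma BB_bot {j : ℕ} (hj : j ≤ JJ T) : BB T M j = Sj T M (JJ T) j := if_pos hj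

lemma BB_mid {j : ℕ} (h1 : ¬ j ≤ JJ T) (h2 : j ≤ JJ T + (M - 2)) :
    BB T M j = UB T (j - (JJ T + 1)) := by
  rw [BB, if_neg h1, if_pos h2]

lemma BB_top {j : ℕ} (h1 : ¬ j ≤ JJ T) (h2 : ¬ j ≤ JJ T + (M - 2)) :
    BB T M j = PS (Real.exp (tb 0 * Real.log T)) T := by
  rw [BB, if_neg h1, if_neg h2]

lemma BB_prime (hT : 1 < T) {j p : ℕ} (hp : p ∈ BB T M j) : p.Prime := by
  by_cases h1 : j ≤ JJ T
  · rw [BB_bot h1] at hp
    exact (mem_bot hT h1 hp).1
  · by_cases h2 : j ≤ JJ T + (M - 2)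
    · rw [BB_mid h1 h2] at hp
      exact (mem_UB.mp hp).1
    · rw [BB_top h1 h2] at hp
      exact ((mem_top hT).mp hp).1

lemma BB_disj (hT : 1 < T) (hM : 3 ≤ M) {i j : ℕ} (hi : i ≤ JJ T + 1 + (M - 2))
    (hj : j ≤ JJ T + 1 + (M - 2)) (h : i ≠ j) : Disjoint (BB T M i) (BB T M j) := by
  wlog hlt : i < j generalizing i j
  · exact (this hj hi h.symm (by omega)).symm
  rw [Finset.disjoint_left]
  intro p hp hp'
  by_cases i1 : i ≤ JJ T
  · rw [BB_bot i1] at hp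
    by_cases j1 : j ≤ JJ T
    · rw [BB_bot j1] at hp'
      exact Finset.disjoint_left.mp (disj_Sj hT h) hp hp'
    · have h1 := (mem_bot hT i1 hp).2
      by_cases j2 : j ≤ JJ T + (M - 2)
      · rw [BB_mid j1 j2] at hp'
        have h2 := (mem_UB.mp hp').2.1
        have h3 := bd_mono hT (show j - (JJ T + 1) + 1 ≤ M - 2 by omega)
        rw [tb_last hM] at h3
        linarith
      · rw [BB_top j1 j2] at hp'
        have h2 := ((mem_top hT).mp hp').2.1
        have h3 := bd_mono hT (show 0 ≤ M - 2 by omega)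
        rw [tb_last hM] at h3
        linarith
  · have j1 : ¬ j ≤ JJ T := by omega
    have i2 : i ≤ JJ T + (M - 2) := by omega
    rw [BB_mid i1 i2] at hp
    have h1 := (mem_UB.mp hp).2
    by_cases j2 : j ≤ JJ T + (M - 2)
    · rw [BB_mid j1 j2] at hp'
      have h2 := (mem_UB.mp hp').2.2
      have h3 := bd_mono hT (show i - (JJ T + 1) + 1 ≤ j - (JJ T + 1) by omega)
      linarith [h1.1]
    · rw [BB_top j1 j2] at hp'
      have h2 := ((mem_top hT).mp hp').2.1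
      have h3 := bd_mono hT (show 0 ≤ i - (JJ T + 1) by omega)
      linarith [h1.2]

lemma blk_SBB (hT : 1 < T) (hM : 3 ≤ M) : Blk (SBB T M) :=
  ⟨fun _ _ hp => BB_prime hT hp, fun i j hij => BB_disj hT hM (by omega) (by omega)
    (fun h => hij (Fin.ext h))⟩

lemma exists_UB {p : ℕ} (hp : p.Prime) (h0 : (p : ℝ) ≤ Real.exp (tb 0 * Real.log T)) (n : ℕ)
    (h : Real.exp (tb n * Real.log T) < p) : ∃ i, i < n ∧ p ∈ UB T i := by
  induction n with
  | zero => linarith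
  | succ n ih =>
    by_cases h1 : Real.exp (tb n * Real.log T) < p
    · obtain ⟨i, hi, hpi⟩ := ih h1
      exact ⟨i, by omega, hpi⟩
    · exact ⟨n, by omega, mem_UB.mpr ⟨hp, h, not_lt.mp h1⟩⟩

lemma exists_BB (hT : 1 < T) (hM : 3 ≤ M) {p : ℕ} (hp : p.Prime) (hpT : (p : ℝ) ≤ T) :
    ∃ j, j < JJ T + 1 + (M - 2) + 1 ∧ p ∈ BB T M j := by
  by_cases h1 : (p : ℝ) ≤ Real.exp (tb 0 * Real.log T)
  · by_cases h2 : Real.exp (tb (M - 2) * Real.log T) < p
    · obtain ⟨i, hi, hpi⟩ := exists_UB hp h1 _ h2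
      refine ⟨JJ T + 1 + i, by omega, ?_⟩
      rw [BB_mid (by omega) (by omega), show JJ T + 1 + i - (JJ T + 1) = i by omega]
      exact hpi
    · rw [tb_last hM] at h2
      have h3 : p ∈ PS 0 (Real.exp (Real.exp (-(M : ℝ)) * Real.log T)) :=
        (mem_PS le_rfl (Real.exp_pos _).le).mpr ⟨hp, by exact_mod_cast hp.pos, not_lt.mp h2⟩
      rw [← RAx.biUnion_eq hT, Finset.mem_biUnion] at h3
      obtain ⟨j, hj, hpj⟩ := h3
      have hj' := Finset.mem_range.mp hj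
      exact ⟨j, by omega, by rw [BB_bot (by omega)]; exact hpj⟩
  · refine ⟨JJ T + 1 + (M - 2), by omega, ?_⟩
    rw [BB_top (by omega) (by omega)]
    exact (mem_top hT).mpr ⟨hp, not_le.mp h1, hpT⟩

lemma mem_factored_SBB (hT : 1 < T) (hM : 3 ≤ M) {n : ℕ} (h1 : 1 ≤ n) (h2 : (n : ℝ) ≤ T) :
    n ∈ Nat.factoredNumbers (UU (SBB T M)) := by
  rw [Nat.mem_factoredNumbers_iff_primeFactors_subset]
  refine ⟨by omega, fun p hp => ?_⟩
  have hp' := Nat.prime_of_mem_primeFactors hp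
  have h3 : p ≤ n := Nat.le_of_mem_primeFactors hp
  have h4 : (p : ℝ) ≤ n := by exact_mod_cast h3
  obtain ⟨j, hj, hpj⟩ := exists_BB hT hM hp' (h4.trans h2)
  exact mem_UU.mpr ⟨⟨j, hj⟩, hpj⟩

/-! ### products over the blocks -/

lemma split {β : Type*} [CommMonoid β] (n m : ℕ) (H : ℕ → β) :
    ∏ j : Fin (n + m + 1), H j =
      (∏ j ∈ Finset.range n, H j) * (∏ i ∈ Finset.range m, H (n + i)) * H (n + m) := by
  rw [← Finset.prod_range, Finset.prod_range_succ, Finset.prod_range_add]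

lemma prod_UU_SBB {β : Type*} [CommMonoid β] (hT : 1 < T) (hM : 3 ≤ M) (u : ℕ → β) :
    ∏ p ∈ UU (SBB T M), u p = (∏ j ∈ Finset.range (JJ T + 1), ∏ p ∈ Sj T M (JJ T) j, u p) *
      (∏ i ∈ Finset.range (M - 2), ∏ p ∈ UB T i, u p) *
        ∏ p ∈ PS (Real.exp (tb 0 * Real.log T)) T, u p := by
  unfold UU
  rw [Finset.prod_biUnion (fun i _ j _ hij => (blk_SBB hT hM).2 i j hij)]
  have h1 := split (JJ T + 1) (M - 2) (fun j => ∏ p ∈ BB T M j, u p)
  refine h1.trans ?_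
  have e1 : ∏ j ∈ Finset.range (JJ T + 1), ∏ p ∈ BB T M j, u p =
      ∏ j ∈ Finset.range (JJ T + 1), ∏ p ∈ Sj T M (JJ T) j, u p := by
    refine Finset.prod_congr rfl fun j hj => ?_
    have hj' := Finset.mem_range.mp hj
    rw [BB_bot (by omega)]
  have e2 : ∏ i ∈ Finset.range (M - 2), ∏ p ∈ BB T M (JJ T + 1 + i), u p =
      ∏ i ∈ Finset.range (M - 2), ∏ p ∈ UB T i, u p := by
    refine Finset.prod_congr rfl fun i hi => ?_
    have hi' := Finset.mem_range.mp hi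
    rw [BB_mid (by omega) (by omega), show JJ T + 1 + i - (JJ T + 1) = i by omega]
  rw [e1, e2, BB_top (by omega) (by omega)]

/-- factorisation of an expectation over the blocks -/
lemma fact_gen {𝕜 : Type*} [RCLike 𝕜] (hT : 1 < T) (hM : 3 ≤ M) (A B : ℕ → (ℕ → ℂ) → 𝕜)
    (C : (ℕ → ℂ) → 𝕜)
    (hA : ∀ j f g, (∀ p ∈ Sj T M (JJ T) j, f p = g p) → A j f = A j g)
    (hB : ∀ i f g, (∀ p ∈ UB T i, f p = g p) → B i f = B i g)
    (hC : ∀ f g, (∀ p ∈ PS (Real.exp (tb 0 * Real.log T)) T, f p = g p) → C f = C g) :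
    ER (SBB T M) (fun f => (∏ j ∈ Finset.range (JJ T + 1), A j f) *
      (∏ i ∈ Finset.range (M - 2), B i f) * C f) =
    (∏ j ∈ Finset.range (JJ T + 1), ES (Sj T M (JJ T) j) (A j)) *
      (∏ i ∈ Finset.range (M - 2), ES (UB T i) (B i)) *
        ES (PS (Real.exp (tb 0 * Real.log T)) T) C := by
  set H : ℕ → (ℕ → ℂ) → 𝕜 := fun j f => if j ≤ JJ T then A j f else
    if j ≤ JJ T + (M - 2) then B (j - (JJ T + 1)) f else C f with hH
  have e0 : ∀ f, (∏ j ∈ Finset.range (JJ T + 1), A j f) * (∏ i ∈ Finset.range (M - 2), B i f) * C f =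
      ∏ j : Fin (JJ T + 1 + (M - 2) + 1), H j f := by
    intro f
    rw [split (JJ T + 1) (M - 2) (fun j => H j f)]
    congr 1
    · congr 1
      · refine Finset.prod_congr rfl fun j hj => ?_
        have hj' := Finset.mem_range.mp hj
        simp only [hH]
        rw [if_pos (by omega)]
      · refine Finset.prod_congr rfl fun i hi => ?_
        have hi' := Finset.mem_range.mp hi
        simp only [hH]
        rw [if_neg (by omega), if_pos (by omega), show JJ T + 1 + i - (JJ T + 1) = i by omega]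
    · simp only [hH]
      rw [if_neg (by omega), if_neg (by omega)]
  simp only [e0]
  rw [ER_prod (blk_SBB hT hM) (fun j : Fin (JJ T + 1 + (M - 2) + 1) => H j) (by
    intro j f g hfg
    change ∀ p ∈ BB T M j, f p = g p at hfg
    simp only [hH]
    split_ifs with h1 h2
    · rw [BB_bot h1] at hfg
      exact hA _ _ _ hfg
    · rw [BB_mid h1 h2] at hfg
      exact hB _ _ _ hfg
    · rw [BB_top h1 h2] at hfg
      exact hC _ _ hfg)]
  refine (split (JJ T + 1) (M - 2) (fun j => ES (BB T M j) (H j))).trans ?_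
  congr 1
  · congr 1
    · refine Finset.prod_congr rfl fun j hj => ?_
      have hj' := Finset.mem_range.mp hj
      have e1 : H j = A j := by
        funext f; simp only [hH]; rw [if_pos (by omega)]
      rw [e1, BB_bot (by omega)]
    · refine Finset.prod_congr rfl fun i hi => ?_
      have hi' := Finset.mem_range.mp hi
      have e1 : H (JJ T + 1 + i) = B i := by
        funext f; simp only [hH]
        rw [if_neg (by omega), if_pos (by omega), show JJ T + 1 + i - (JJ T + 1) = i by omega]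
      rw [e1, BB_mid (by omega) (by omega), show JJ T + 1 + i - (JJ T + 1) = i by omega]
  · have e1 : H (JJ T + 1 + (M - 2)) = C := by
      funext f; simp only [hH]
      rw [if_neg (by omega), if_neg (by omega)]
    rw [e1, BB_top (by omega) (by omega)]

/-! ### the finite formulas -/

lemma conj_half (n : ℕ) :
    (starRingEnd ℂ) ((n : ℂ) ^ (-(1 / 2 : ℂ))) = (n : ℂ) ^ (-(1 / 2 : ℂ)) := by
  have h : ((n : ℂ) ^ (-(1 / 2 : ℂ))) = (((n : ℝ) ^ (-(1 / 2) : ℝ) : ℝ) : ℂ) := by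
    rw [ofReal_cpow (Nat.cast_nonneg n)]
    push_cast; rfl
  rw [h, conj_ofReal]

lemma GB_tw (N : ℕ) (c : ℕ → ℕ → ℂ) (f : ℕ → ℂ) : GB N c (tw (1 / 2) f) =
    ∑ m ∈ Finset.Icc 1 N, ∑ n ∈ Finset.Icc 1 N,
      (c m n * (m : ℂ) ^ (-(1 / 2 : ℂ)) * (n : ℂ) ^ (-(1 / 2 : ℂ))) *
        (f m * (starRingEnd ℂ) (f n)) := by
  unfold GB
  refine Finset.sum_congr rfl fun m _ => Finset.sum_congr rfl fun n _ => ?_
  simp only [tw, map_mul, conj_half]
  ring

lemma RB_eq {r : ℕ} {Sb : Fin r → Finset ℕ} (hB : Blk Sb) {N : ℕ}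
    (hN : ∀ n ∈ Finset.Icc 1 N, n ∈ Nat.factoredNumbers (UU Sb)) (c : ℕ → ℕ → ℂ) {w : ℂ}
    (hw : -(1 / 2) < w.re) :
    ER Sb (fun f => ZZ (UU Sb) (tw (1 / 2 + w) f) *
      (starRingEnd ℂ) (ZZ (UU Sb) (tw (1 / 2 + (starRingEnd ℂ) w) f)) * GB N c (tw (1 / 2) f)) *
      ∏ p ∈ UU Sb, (1 - (p : ℂ) ^ (-(1 + w + w))) = RB N c w := by
  have hw₁ : 0 < (1 / 2 + w : ℂ).re := by rw [add_re]; norm_num; linarith
  have hw₂ : 0 < ((starRingEnd ℂ) (1 / 2 + w : ℂ)).re := by rw [conj_re]; exact hw₁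
  have e1 : 1 / 2 + (starRingEnd ℂ) w = (starRingEnd ℂ) (1 / 2 + w) := by
    rw [map_add, map_div₀, map_one, map_ofNat]
  have hprime : ∀ p ∈ UU Sb, p.Prime := fun p hp => prime_of_mem_UU hB hp
  rw [e1]
  have hbc : ∀ m n : ℕ, BC Sb (fun f => ZZ (UU Sb) (tw (1 / 2 + w) f) *
      (starRingEnd ℂ) (ZZ (UU Sb) (tw ((starRingEnd ℂ) (1 / 2 + w)) f)) *
        (f m * (starRingEnd ℂ) (f n))) := fun m n =>
    ((bc_ZZ hprime hw₁).mul (bc_ZZ hprime hw₂).conj).mul ((bc_apply m).mul (bc_apply n).conj)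
  have e2 : ER Sb (fun f => ZZ (UU Sb) (tw (1 / 2 + w) f) *
      (starRingEnd ℂ) (ZZ (UU Sb) (tw ((starRingEnd ℂ) (1 / 2 + w)) f)) *
        GB N c (tw (1 / 2) f)) =
      ER Sb (fun f => ∑ m ∈ Finset.Icc 1 N, ∑ n ∈ Finset.Icc 1 N,
        (c m n * (m : ℂ) ^ (-(1 / 2 : ℂ)) * (n : ℂ) ^ (-(1 / 2 : ℂ))) *
        (ZZ (UU Sb) (tw (1 / 2 + w) f) *
      (starRingEnd ℂ) (ZZ (UU Sb) (tw ((starRingEnd ℂ) (1 / 2 + w)) f)) *
        (f m * (starRingEnd ℂ) (f n)))) := by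
    refine FinM.ER_congr fun ω => ?_
    rw [GB_tw, Finset.mul_sum]
    refine Finset.sum_congr rfl fun m _ => ?_
    rw [Finset.mul_sum]
    refine Finset.sum_congr rfl fun n _ => ?_
    ring
  rw [e2, ER_sum _ fun m _ => bc_sum _ fun n _ => (hbc m n).const_mul _, Finset.sum_mul, RB]
  refine Finset.sum_congr rfl fun m hm => ?_
  rw [ER_sum _ fun n _ => (hbc m n).const_mul _, Finset.sum_mul]
  refine Finset.sum_congr rfl fun n hn => ?_
  have e3 : (1 + w + w : ℂ) = (1 / 2 + w) + (1 / 2 + w) := by ring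
  rw [ER_const_mul, mul_assoc, e3, FinM.ER_ZZ_ZZ hB hw₁ hw₁ (hN m hm) (hN n hn)]
  congr 1
  rw [Nat.cast_mul, natCast_mul_natCast_cpow]
  ring

lemma diag_eq {r : ℕ} {Sb : Fin r → Finset ℕ} {N : ℕ}
    (hN : ∀ n ∈ Finset.Icc 1 N, n ∈ Nat.factoredNumbers (UU Sb)) (c : ℕ → ℕ → ℂ) :
    ER Sb (fun f => GB N c (tw (1 / 2) f)) = ∑ m ∈ Finset.Icc 1 N, c m m * (m : ℂ)⁻¹ := by
  have hbc : ∀ m n : ℕ, BC Sb (fun f => f m * (starRingEnd ℂ) (f n)) := fun m n =>
    (bc_apply m).mul (bc_apply n).conj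
  simp only [GB_tw]
  rw [ER_sum _ fun m _ => bc_sum _ fun n _ => (hbc m n).const_mul _]
  refine Finset.sum_congr rfl fun m hm => ?_
  rw [ER_sum _ fun n _ => (hbc m n).const_mul _, Finset.sum_eq_single m]
  · rw [ER_const_mul, ER_pair (hN m hm) (hN m hm), if_pos rfl, mul_one, mul_assoc]
    congr 1
    have hm0 : (m : ℂ) ≠ 0 := by
      have := (Finset.mem_Icc.mp hm).1
      exact_mod_cast (by omega : m ≠ 0)
    rw [← cpow_add _ _ hm0, show (-(1 / 2 : ℂ)) + -(1 / 2 : ℂ) = -1 by norm_num, cpow_neg_one]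
  · intro n hn hnm
    rw [ER_const_mul, ER_pair (hN m hm) (hN n hn), if_neg (Ne.symm hnm), mul_zero]
  · intro h; exact absurd hm h

/-! ### dependence on the block -/

lemma Xb_dep {i : ℕ} {f g : ℕ → ℂ} (h : ∀ p ∈ UB T i, f p = g p) (w : ℂ) :
    Xb T i (tw w f) = Xb T i (tw w g) := by
  unfold Xb
  congr 1
  refine Finset.sum_congr rfl fun p hp => ?_
  simp only [tw, h p hp]

lemma norm_AA_sq (k : ℝ) (g h : Finset ℕ) (f : ℕ → ℂ) : ‖AA T M (JJ T) k g h f‖ ^ 2 =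
    ∏ j ∈ Finset.range (JJ T + 1), ‖Fc T M (JJ T) k g h j f‖ ^ 2 := by
  rw [AA, norm_prod, Finset.prod_pow]

lemma ES_one (S : Finset ℕ) : ES S (fun _ => (1 : ℝ)) = 1 := by
  simp [ES]

end FactM

open FactM

/-- (B12) the arithmetic factor is a product over the blocks -/
theorem stFact (h : StLF) : StFact := by
  intro k M hM
  refine ⟨max 3 (Real.exp (4 / tb 0)), le_max_left _ _, fun T hT g h' N c hN => ?_⟩
  have hT3 : 3 ≤ T := (le_max_left _ _).trans hT
  have hT1 : 1 < T := by linarith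
  have hT0 : 0 < T := by linarith
  have hL : 0 < Real.log T := Real.log_pos hT1
  have htb := tb_pos 0
  have hLL : 4 / tb 0 ≤ Real.log T := by
    rw [Real.le_log_iff_exp_le hT0]; exact (le_max_right _ _).trans hT
  have hL4 : 4 ≤ tb 0 * Real.log T := by
    rw [div_le_iff₀ htb] at hLL; linarith
  have hL4' : 4 ≤ Real.log T := by
    have := tb_zero_le
    nlinarith
  have hmem : ∀ n ∈ Finset.Icc 1 N, n ∈ Nat.factoredNumbers (UU (SBB T M)) := by
    intro n hn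
    rw [Finset.mem_Icc] at hn
    refine mem_factored_SBB hT1 hM hn.1 ?_
    have : (n : ℝ) ≤ N := by exact_mod_cast hn.2
    exact this.trans hN
  constructor
  · intro hG w hw
    have hwn : ‖w‖ ≤ 1 / 4 := hw.trans (by
      rw [div_le_div_iff₀ hL (by norm_num)]; linarith)
    have hwre : -(1 / 2) < w.re := by
      have h1 := Complex.abs_re_le_norm w
      have h2 := neg_abs_le w.re
      linarith
    rw [← RB_eq (blk_SBB hT1 hM) hmem c hwre]
    set A : ℕ → (ℕ → ℂ) → ℂ := fun j f => ZZ (Sj T M (JJ T) j) (tw (1 / 2 + w) f) *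
      (starRingEnd ℂ) (ZZ (Sj T M (JJ T) j) (tw (1 / 2 + (starRingEnd ℂ) w) f)) *
      ((‖Fc T M (JJ T) (k - 1) g h' j (tw (1 / 2) f)‖ ^ 2 : ℝ) : ℂ) with hA
    set B : ℕ → (ℕ → ℂ) → ℂ := fun i f => ZZ (UB T i) (tw (1 / 2 + w) f) *
      (starRingEnd ℂ) (ZZ (UB T i) (tw (1 / 2 + (starRingEnd ℂ) w) f)) *
      ((pf k i (Xb T i (tw (1 / 2) f)) : ℝ) : ℂ) with hB
    set S := PS (Real.exp (tb 0 * Real.log T)) T with hS
    set C : (ℕ → ℂ) → ℂ := fun f => ZZ S (tw (1 / 2 + w) f) *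
      (starRingEnd ℂ) (ZZ S (tw (1 / 2 + (starRingEnd ℂ) w) f)) with hC
    have e1 : ER (SBB T M) (fun f => ZZ (UU (SBB T M)) (tw (1 / 2 + w) f) *
      (starRingEnd ℂ) (ZZ (UU (SBB T M)) (tw (1 / 2 + (starRingEnd ℂ) w) f)) *
        GB N c (tw (1 / 2) f)) = ER (SBB T M) (fun f =>
        (∏ j ∈ Finset.range (JJ T + 1), A j f) * (∏ i ∈ Finset.range (M - 2), B i f) * C f) := by
      refine FinM.ER_congr fun ω => ?_
      rw [← hG _ (cmul_tw (cmul_XX _ ω) _), norm_AA_sq, TF]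
      unfold ZZ
      rw [prod_UU_SBB hT1 hM, prod_UU_SBB hT1 hM]
      simp only [hA, hB, hC, ZZ, Finset.prod_mul_distrib, map_mul, map_prod, ofReal_mul,
        ofReal_prod, ← hS]
      ring
    rw [e1, fact_gen hT1 hM A B C (by
      intro j f g' hfg
      simp only [hA]
      rw [ZZ_dep (w := 1 / 2 + w) hfg, ZZ_dep (w := 1 / 2 + (starRingEnd ℂ) w) hfg,
        Fc_dep hfg]) (by
      intro i f g' hfg
      simp only [hB]
      rw [ZZ_dep (w := 1 / 2 + w) hfg, ZZ_dep (w := 1 / 2 + (starRingEnd ℂ) w) hfg,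
        Xb_dep hfg]) (by
      intro f g' hfg
      simp only [hC]
      rw [ZZ_dep (w := 1 / 2 + w) hfg, ZZ_dep (w := 1 / 2 + (starRingEnd ℂ) w) hfg]),
      prod_UU_SBB hT1 hM]
    have hbd : ∀ p ∈ S, ‖(p : ℂ) ^ (-(1 / 2 + w))‖ ≤ 3 / 4 := by
      intro p hp
      obtain ⟨hpp, h1, h2⟩ := (mem_top hT1).mp hp
      have hp0 : (0 : ℝ) < p := by exact_mod_cast hpp.pos
      have h3 : tb 0 * Real.log T ≤ Real.log p := by
        have := Real.log_le_log (Real.exp_pos _) h1.le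
        rwa [Real.log_exp] at this
      have h4 : Real.log p ≤ Real.log T := Real.log_le_log hp0 h2
      refine (RAx.norm_x hpp w).trans ?_
      rw [Real.rpow_def_of_pos hp0, ← Real.exp_add]
      have h5 : ‖w‖ * Real.log p ≤ 1 := by
        calc ‖w‖ * Real.log p ≤ (1 / Real.log T) * Real.log T := by
              have : 0 ≤ Real.log p := by linarith
              gcongr
          _ = 1 := by field_simp
      calc Real.exp (Real.log p * (-(1 / 2)) + ‖w‖ * Real.log p) ≤ Real.exp (-1) :=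
            Real.exp_le_exp.mpr (by linarith)
        _ ≤ 3 / 4 := by
            rw [Real.exp_neg]
            have : (2 : ℝ) ≤ Real.exp 1 := by linarith [Real.exp_one_gt_d9]
            calc (Real.exp 1)⁻¹ ≤ (2 : ℝ)⁻¹ := by gcongr
              _ ≤ 3 / 4 := by norm_num
    have htop := RAx.top_eq h (fun p hp => ((mem_top hT1).mp hp).1) hbd hbd
    have e2 : ∏ j ∈ Finset.range (JJ T + 1), EBo T M k g h' w j =
        (∏ j ∈ Finset.range (JJ T + 1), ES (Sj T M (JJ T) j) (A j)) *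
          ∏ j ∈ Finset.range (JJ T + 1), ∏ p ∈ Sj T M (JJ T) j, (1 - (p : ℂ) ^ (-(1 + w + w))) := by
      rw [← Finset.prod_mul_distrib]
      rfl
    have e3 : ∏ i ∈ Finset.range (M - 2), ETo T k w i =
        (∏ i ∈ Finset.range (M - 2), ES (UB T i) (B i)) *
          ∏ i ∈ Finset.range (M - 2), ∏ p ∈ UB T i, (1 - (p : ℂ) ^ (-(1 + w + w))) := by
      rw [← Finset.prod_mul_distrib]
      rfl
    have e4 : ES S C * ∏ p ∈ S, (1 - (p : ℂ) ^ (-(1 + w + w))) = 1 := htop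
    rw [e2, e3]
    linear_combination (∏ j ∈ Finset.range (JJ T + 1), ES (Sj T M (JJ T) j) (A j)) *
          (∏ j ∈ Finset.range (JJ T + 1), ∏ p ∈ Sj T M (JJ T) j, (1 - (p : ℂ) ^ (-(1 + w + w)))) *
          (∏ i ∈ Finset.range (M - 2), ES (UB T i) (B i)) *
          (∏ i ∈ Finset.range (M - 2), ∏ p ∈ UB T i, (1 - (p : ℂ) ^ (-(1 + w + w)))) * e4
  · intro hG
    rw [← diag_eq hmem c]
    set A : ℕ → (ℕ → ℂ) → ℝ := fun j f => ‖Fc T M (JJ T) k g h' j (tw (1 / 2) f)‖ ^ 2 with hA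
    set B : ℕ → (ℕ → ℂ) → ℝ := fun i f => pg k i (Xb T i (tw (1 / 2) f)) with hB
    have e1 : ER (SBB T M) (fun f => GB N c (tw (1 / 2) f)) =
        ((ER (SBB T M) (fun f => (∏ j ∈ Finset.range (JJ T + 1), A j f) *
          (∏ i ∈ Finset.range (M - 2), B i f) * 1) : ℝ) : ℂ) := by
      simp only [ER_eq]
      rw [← integral_complex_ofReal]
      refine integral_congr_ae (Filter.Eventually.of_forall fun ω => ?_)
      simp only
      rw [← hG _ (cmul_tw (cmul_XX _ ω) _), norm_AA_sq, TG, mul_one]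
    rw [e1, fact_gen hT1 hM A B (fun _ => (1 : ℝ)) (by
      intro j f g' hfg
      simp only [hA]
      rw [Fc_dep hfg]) (by
      intro i f g' hfg
      simp only [hB]
      rw [Xb_dep hfg]) (fun _ _ _ => rfl), ES_one, mul_one]

end K5
end Pool.Agent.Lib.MP_973905_nt
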