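import Pool.Agent.Lib.MP_973905_nt.K5.Stmts

/-! (B6) Facts on the limits: `stRho`. -/

namespace Pool.Agent.Lib.MP_973905_nt
namespace K5

open MeasureTheory ProbabilityTheory Complex Filter Topology K1

namespace RhoA

/-! ### Moments -/

theorem mom_succ2 {R : Type*} [CommRing R] (n : ℕ) (μ s : R) :
    mom (n + 2) μ s = μ * mom (n + 1) μ s + ((n + 1 : ℕ) : R) * s * mom n μ s := rfl

/-- the recursion in a form valid for all `n` -/
theorem mom_rec {R : Type*} [CommRing R] (n : ℕ) (μ s : R) :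
    mom (n + 1) μ s = μ * mom n μ s + (n : R) * s * mom (n - 1) μ s := by
  rcases n with _ | n
  · simp [mom]
  · rw [mom_succ2]
    rfl

theorem mom_cast (n : ℕ) (μ s : ℝ) : ((mom n μ s : ℝ) : ℂ) = mom n (μ : ℂ) (s : ℂ) := by
  induction n using Nat.strong_induction_on with
  | _ n ih =>
    match n with
    | 0 => simp [mom]
    | 1 => simp [mom]
    | n + 2 =>
      rw [mom_succ2, mom_succ2]
      push_cast
      rw [ih (n + 1) (by omega), ih n (by omega)]

theorem mom_nonneg (n : ℕ) {μ s : ℝ} (hμ : 0 ≤ μ) (hs : 0 ≤ s) : 0 ≤ mom n μ s := by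
  induction n using Nat.strong_induction_on with
  | _ n ih =>
    match n with
    | 0 => simp [mom]
    | 1 => simpa [mom] using hμ
    | n + 2 =>
      rw [mom_succ2]
      have h1 := ih (n + 1) (by omega)
      have h2 := ih n (by omega)
      positivity

theorem mom_norm_le (n : ℕ) {μ s : ℂ} {R S : ℝ} (hμ : ‖μ‖ ≤ R) (hs : ‖s‖ ≤ S) :
    ‖mom n μ s‖ ≤ mom n R S := by
  have hR : 0 ≤ R := (norm_nonneg _).trans hμ
  have hS : 0 ≤ S := (norm_nonneg _).trans hs
  induction n using Nat.strong_induction_on with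
  | _ n ih =>
    match n with
    | 0 => simp [mom]
    | 1 => simpa [mom] using hμ
    | n + 2 =>
      rw [mom_succ2, mom_succ2]
      have h1 := ih (n + 1) (by omega)
      have h2 := ih n (by omega)
      refine (norm_add_le _ _).trans ?_
      rw [norm_mul, norm_mul, norm_mul, Complex.norm_natCast]
      gcongr

theorem mom_hasDeriv (n : ℕ) (s v : ℂ) :
    HasDerivAt (fun v => mom n v s) ((n : ℂ) * mom (n - 1) v s) v := by
  induction n using Nat.strong_induction_on with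
  | _ n ih =>
    match n with
    | 0 =>
      simp only [mom]
      simpa using hasDerivAt_const v (1 : ℂ)
    | 1 =>
      simp only [mom]
      simpa [mom] using hasDerivAt_id' v
    | n + 2 =>
      have h1 := ih (n + 1) (by omega)
      have h2 := ih n (by omega)
      have h3 := ((hasDerivAt_id v).mul h1).add (h2.const_mul (((n + 1 : ℕ) : ℂ) * s))
      have h4 : HasDerivAt (fun v => mom (n + 2) v s)
          (1 * mom (n + 1) v s + id v * (((n + 1 : ℕ) : ℂ) * mom (n + 1 - 1) v s) +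
            ((n + 1 : ℕ) : ℂ) * s * ((n : ℂ) * mom (n - 1) v s)) v := h3
      convert h4 using 1
      have h5 : n + 2 - 1 = n + 1 := by omega
      have h6 : n + 1 - 1 = n := by omega
      rw [h5, h6, mom_rec n v s]
      simp only [id]
      push_cast
      ring

/-! ### Gaussian integrals -/

theorem gauss_iter (μ : ℝ) (v : ℝ) : (∀ t : ℝ,
    iteratedDeriv 1 (fun t : ℝ => Real.exp (μ * t + v * t ^ 2 / 2)) t =
      (μ + v * t) * Real.exp (μ * t + v * t ^ 2 / 2)) ∧ ∀ (n : ℕ) (t : ℝ),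
    iteratedDeriv (n + 2) (fun t : ℝ => Real.exp (μ * t + v * t ^ 2 / 2)) t =
      (μ + v * t) * iteratedDeriv (n + 1) (fun t : ℝ => Real.exp (μ * t + v * t ^ 2 / 2)) t +
      ((n + 1 : ℕ) : ℝ) * v * iteratedDeriv n (fun t : ℝ => Real.exp (μ * t + v * t ^ 2 / 2)) t := by
  set g : ℝ → ℝ := fun t : ℝ => Real.exp (μ * t + v * t ^ 2 / 2) with hg
  have hsm : ContDiff ℝ ⊤ g := by
    rw [hg]
    fun_prop
  have hd : ∀ (n : ℕ) (t : ℝ), HasDerivAt (iteratedDeriv n g) (iteratedDeriv (n + 1) g t) t := by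
    intro n t
    rw [iteratedDeriv_succ]
    apply DifferentiableAt.hasDerivAt
    exact (hsm.differentiable_iteratedDeriv n (WithTop.natCast_lt_top n)).differentiableAt
  have h1 : ∀ t : ℝ, iteratedDeriv 1 g t = (μ + v * t) * g t := by
    intro t
    rw [iteratedDeriv_one]
    have : HasDerivAt g ((μ + v * t) * g t) t := by
      have h2 : HasDerivAt (fun t : ℝ => μ * t + v * t ^ 2 / 2) (μ + v * t) t := by
        have h3 : HasDerivAt (fun t : ℝ => μ * t + v * t ^ 2 / 2)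
            (μ * 1 + v * ((2 : ℕ) * t ^ (2 - 1)) / 2) t :=
          ((hasDerivAt_id' t).const_mul μ).add (((hasDerivAt_pow 2 t).const_mul v).div_const 2)
        refine h3.congr_deriv ?_
        norm_num
        ring
      have h4 := h2.exp
      rw [mul_comm] at h4
      exact h4
    exact this.deriv
  refine ⟨h1, ?_⟩
  intro n
  induction n with
  | zero =>
    intro t
    have h2 : iteratedDeriv 1 g = fun t => (μ + v * t) * iteratedDeriv 0 g t := by
      funext t
      rw [h1 t, iteratedDeriv_zero]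
    have h3 : HasDerivAt (iteratedDeriv 1 g)
        (v * iteratedDeriv 0 g t + (μ + v * t) * iteratedDeriv 1 g t) t := by
      rw [h2]
      have h4 : HasDerivAt (fun t : ℝ => μ + v * t) v t := by
        simpa using ((hasDerivAt_id t).const_mul v).const_add μ
      have h5 := h4.mul (hd 0 t)
      rw [h2] at h5
      exact h5
    have h6 := (hd 1 t).unique h3
    rw [h6]
    simp
    ring
  | succ n ih =>
    intro t
    have h2 : iteratedDeriv (n + 2) g = fun t => (μ + v * t) * iteratedDeriv (n + 1) g t +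
      ((n + 1 : ℕ) : ℝ) * v * iteratedDeriv n g t := by
      funext t
      exact ih t
    have h3 : HasDerivAt (fun t => (μ + v * t) * iteratedDeriv (n + 1) g t +
        ((n + 1 : ℕ) : ℝ) * v * iteratedDeriv n g t)
        ((v * iteratedDeriv (n + 1) g t + (μ + v * t) * iteratedDeriv (n + 2) g t) +
          ((n + 1 : ℕ) : ℝ) * v * iteratedDeriv (n + 1) g t) t := by
      have h4 : HasDerivAt (fun t : ℝ => μ + v * t) v t := by
        simpa using ((hasDerivAt_id t).const_mul v).const_add μ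
      exact (h4.mul (hd (n + 1) t)).add ((hd n t).const_mul _)
    rw [← h2] at h3
    have h6 := (hd (n + 2) t).unique h3
    have h7 : n + 1 + 2 = n + 2 + 1 := by ring
    rw [h7, h6]
    push_cast
    ring

theorem mom_iter (n : ℕ) (μ v : ℝ) :
    iteratedDeriv n (fun t : ℝ => Real.exp (μ * t + v * t ^ 2 / 2)) 0 = mom n μ v := by
  obtain ⟨h1, h2⟩ := gauss_iter μ v
  induction n using Nat.strong_induction_on with
  | _ n ih =>
    match n with
    | 0 => simp [mom]
    | 1 => rw [h1]; simp [mom]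
    | n + 2 =>
      rw [h2, ih (n + 1) (by omega), ih n (by omega), mom_succ2]
      simp

theorem mem_int (μ : ℝ) (v : NNReal) :
    (0 : ℝ) ∈ interior (integrableExpSet id (gaussianReal μ v)) := by
  rw [integrableExpSet_id_gaussianReal]
  simp

theorem mom_gauss (n : ℕ) (μ : ℝ) (v : NNReal) :
    mom n μ (v : ℝ) = ∫ x, x ^ n ∂(gaussianReal μ v) := by
  have h := iteratedDeriv_mgf_zero (mem_int μ v) n
  rw [mgf_id_gaussianReal, mom_iter] at h
  rw [h]
  rfl

theorem int_pow (n : ℕ) (μ : ℝ) (v : NNReal) : Integrable (fun x : ℝ => x ^ n) (gaussianReal μ v) :=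
  integrable_pow_of_mem_interior_integrableExpSet (mem_int μ v) n

/-! ### Taylor polynomials -/

theorem Tp_succ (d : ℕ) (y : ℝ) :
    Tp (d + 1) y = Tp d y + y ^ (d + 1) / (d + 1).factorial := by
  unfold Tp
  rw [Finset.sum_range_succ]

theorem Tp_zero (d : ℕ) : Tp d 0 = 1 := by
  unfold Tp
  rw [Finset.sum_eq_single 0]
  · simp
  · intro j _ hj
    simp [hj]
  · intro h
    simp at h

theorem Tp_deriv (d : ℕ) (y : ℝ) : HasDerivAt (Tp (d + 1)) (Tp d y) y := by
  unfold Tp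
  have h : HasDerivAt (fun y : ℝ => ∑ j ∈ Finset.range (d + 1 + 1), y ^ j / j.factorial)
      (∑ j ∈ Finset.range (d + 1 + 1), ((j : ℝ) * y ^ (j - 1)) / j.factorial) y :=
    HasDerivAt.fun_sum fun j _ => (hasDerivAt_pow j y).div_const _
  refine h.congr_deriv ?_
  rw [Finset.sum_range_succ' (fun j => (j : ℝ) * y ^ (j - 1) / (j.factorial : ℝ))]
  simp only [Nat.cast_zero, zero_mul, zero_div, add_zero]
  refine Finset.sum_congr rfl fun j _ => ?_
  rw [Nat.factorial_succ]
  have h1 : ((j + 1 : ℕ) : ℝ) ≠ 0 := by positivity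
  have h2 : (j.factorial : ℝ) ≠ 0 := by positivity
  push_cast at h1 ⊢
  field_simp

/-- comparison of the exponential function with its Taylor polynomials for `y ≤ 0` -/
theorem Tp_neg (d : ℕ) : ∀ y : ℝ, y ≤ 0 → 0 ≤ (-1) ^ (d + 1) * (Real.exp y - Tp d y) := by
  induction d with
  | zero =>
    intro y hy
    have : Tp 0 y = 1 := by simp [Tp]
    rw [this]
    have h1 : Real.exp y ≤ 1 := Real.exp_le_one_iff.mpr hy
    norm_num
    linarith
  | succ d ih =>
    intro y hy
    have hanti : AntitoneOn (fun y : ℝ => (-1) ^ (d + 1 + 1) * (Real.exp y - Tp (d + 1) y))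
        (Set.Iic 0) := by
      have hder : ∀ x : ℝ, HasDerivAt
          (fun y : ℝ => (-1) ^ (d + 1 + 1) * (Real.exp y - Tp (d + 1) y))
          ((-1) ^ (d + 1 + 1) * (Real.exp x - Tp d x)) x := fun x =>
        ((Real.hasDerivAt_exp x).sub (Tp_deriv d x)).const_mul _
      apply antitoneOn_of_deriv_nonpos (convex_Iic 0)
      · exact fun x _ => (hder x).continuousAt.continuousWithinAt
      · exact fun x _ => (hder x).differentiableAt.differentiableWithinAt
      · intro x hx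
        rw [interior_Iic] at hx
        rw [(hder x).deriv]
        have := ih x (le_of_lt hx)
        have h2 : ((-1 : ℝ)) ^ (d + 1 + 1) = -(-1) ^ (d + 1) := by ring
        rw [h2]
        linarith
    have h3 := hanti (Set.mem_Iic.mpr hy) (Set.mem_Iic.mpr le_rfl) hy
    simp only [Real.exp_zero, Tp_zero, sub_self, mul_zero] at h3
    exact h3

theorem Tp_ge_min {d : ℕ} (hd : Even d) (y : ℝ) : min 1 (Real.exp y) ≤ Tp d y := by
  rcases le_or_gt y 0 with hy | hy
  · have h := Tp_neg d y hy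
    have h1 : ((-1 : ℝ)) ^ (d + 1) = -1 := (Even.add_one hd).neg_one_pow
    rw [h1] at h
    exact (min_le_right _ _).trans (by linarith)
  · refine (min_le_left _ _).trans ?_
    unfold Tp
    rw [Finset.sum_range_succ']
    have : 0 ≤ ∑ j ∈ Finset.range d, y ^ (j + 1) / ((j + 1).factorial : ℝ) :=
      Finset.sum_nonneg fun j _ => by positivity
    simp
    exact this

theorem Tp_le_exp (d : ℕ) (y : ℝ) : Tp d y ≤ Real.exp |y| := by
  have h1 : Tp d y ≤ Tp d |y| := by
    unfold Tp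
    apply Finset.sum_le_sum
    intro j _
    apply div_le_div_of_nonneg_right _ (by positivity)
    calc y ^ j ≤ |y ^ j| := le_abs_self _
      _ = |y| ^ j := abs_pow _ _
  refine h1.trans ?_
  unfold Tp
  exact Real.sum_le_exp_of_nonneg (abs_nonneg y) _

/-! ### Means of the Taylor polynomials -/

/-- `E T_d (c Y)` -/
theorem sum_mom (c : ℝ) (d : ℕ) (μ : ℝ) (v : NNReal) :
    ∑ j ∈ Finset.range (d + 1), c ^ j / j.factorial * mom j μ (v : ℝ) =
      ∫ x, Tp d (c * x) ∂(gaussianReal μ v) := by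
  unfold Tp
  rw [integral_finsetSum]
  · refine Finset.sum_congr rfl fun j _ => ?_
    rw [mom_gauss, ← integral_const_mul]
    congr 1
    ext x
    rw [mul_pow]
    ring
  · intro j _
    have := (int_pow j μ v).const_mul (c ^ j / j.factorial)
    refine this.congr (Eventually.of_forall fun x => ?_)
    simp only
    rw [mul_pow]
    ring

theorem int_Tp (c : ℝ) (d : ℕ) (μ : ℝ) (v : NNReal) :
    Integrable (fun x => Tp d (c * x)) (gaussianReal μ v) := by
  unfold Tp
  apply integrable_finsetSum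
  intro j _
  have := (int_pow j μ v).const_mul (c ^ j / j.factorial)
  refine this.congr (Eventually.of_forall fun x => ?_)
  simp only
  rw [mul_pow]
  ring

theorem int_min (c μ : ℝ) (v : NNReal) :
    Integrable (fun x => min 1 (Real.exp (c * x))) (gaussianReal μ v) := by
  apply Integrable.mono' (integrable_const (1 : ℝ))
  · exact (by fun_prop : Continuous fun x : ℝ => min 1 (Real.exp (c * x))).aestronglyMeasurable
  · refine Eventually.of_forall fun x => ?_
    rw [Real.norm_of_nonneg (le_min zero_le_one (Real.exp_pos _).le)]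
    exact min_le_left _ _

theorem pos_min (c μ : ℝ) (v : NNReal) :
    0 < ∫ x, min 1 (Real.exp (c * x)) ∂(gaussianReal μ v) := by
  have hp : ∀ x : ℝ, 0 < min 1 (Real.exp (c * x)) := fun x => lt_min one_pos (Real.exp_pos _)
  rw [integral_pos_iff_support_of_nonneg (fun x => (hp x).le) (int_min c μ v)]
  have : Function.support (fun x : ℝ => min 1 (Real.exp (c * x))) = Set.univ := by
    ext x
    simp only [Function.mem_support, Set.mem_univ, iff_true]
    exact (hp x).ne'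
  rw [this]
  simp

theorem mean_ge {d : ℕ} (hd : Even d) (c μ : ℝ) (v : NNReal) :
    ∫ x, min 1 (Real.exp (c * x)) ∂(gaussianReal μ v) ≤
      ∑ j ∈ Finset.range (d + 1), c ^ j / j.factorial * mom j μ (v : ℝ) := by
  rw [sum_mom]
  exact integral_mono (int_min c μ v) (int_Tp c d μ v) fun x => Tp_ge_min hd (c * x)

theorem int_exp_abs (a μ : ℝ) (v : NNReal) :
    Integrable (fun x => Real.exp |a * x|) (gaussianReal μ v) := by
  have h1 := (integrable_exp_mul_gaussianReal (μ := μ) (v := v) a).add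
    (integrable_exp_mul_gaussianReal (μ := μ) (v := v) (-a))
  apply Integrable.mono' h1
  · exact (by fun_prop : Continuous fun x : ℝ => Real.exp |a * x|).aestronglyMeasurable
  · refine Eventually.of_forall fun x => ?_
    rw [Real.norm_of_nonneg (Real.exp_pos _).le]
    simp only [Pi.add_apply]
    rcases abs_cases (a * x) with ⟨h, _⟩ | ⟨h, _⟩
    · rw [h]
      linarith [Real.exp_pos (-a * x)]
    · rw [h, ← neg_mul]
      linarith [Real.exp_pos (a * x)]

/-- uniform upper bound -/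
theorem mean_le (a μ : ℝ) (v : NNReal) (d : ℕ) :
    ∑ j ∈ Finset.range (d + 1), a ^ j / j.factorial * mom j μ (v : ℝ) ≤
      ∫ x, Real.exp |a * x| ∂(gaussianReal μ v) := by
  rw [sum_mom]
  exact integral_mono (int_Tp a d μ v) (int_exp_abs a μ v) fun x => Tp_le_exp d (a * x)

theorem mom_even_nonneg {d : ℕ} (hd : Even d) (μ : ℝ) (v : NNReal) : 0 ≤ mom d μ (v : ℝ) := by
  rw [mom_gauss]
  exact integral_nonneg fun x => hd.pow_nonneg x

/-! ### The shift of the mean -/

theorem vv_hasDeriv {lo hi : ℝ} (hlo : 0 < lo) (hhi : lo ≤ hi) (u : ℂ) :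
    HasDerivAt (vv lo hi) (-∫ x in lo..hi, cexp (-(u * x))) u := by
  have hne : ∀ x ∈ Set.uIcc lo hi, x ≠ 0 := by
    intro x hx
    rw [Set.uIcc_of_le hhi] at hx
    exact (hlo.trans_le hx.1).ne'
  have hcont : ∀ w : ℂ, ContinuousOn (fun x : ℝ => cexp (-(w * x)) / x) (Set.uIcc lo hi) := by
    intro w
    apply ContinuousOn.div
    · fun_prop
    · fun_prop
    · intro x hx
      exact_mod_cast hne x hx
  have hsub : Set.uIoc lo hi ⊆ Set.uIcc lo hi := Set.uIoc_subset_uIcc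
  have h := intervalIntegral.hasDerivAt_integral_of_dominated_loc_of_deriv_le
    (𝕜 := ℂ) (F := fun w x => cexp (-(w * x)) / x) (F' := fun w x => -cexp (-(w * x)))
    (x₀ := u) (s := Metric.ball u 1) (bound := fun _ => Real.exp ((‖u‖ + 1) * hi)) (a := lo)
    (b := hi) (μ := volume) (Metric.ball_mem_nhds u one_pos) ?_ ?_ ?_ ?_ ?_ ?_
  · have h2 := h.2
    rw [intervalIntegral.integral_neg] at h2
    exact h2
  · exact Eventually.of_forall fun w =>
      ((hcont w).mono hsub).aestronglyMeasurable measurableSet_uIoc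
  · exact (hcont u).intervalIntegrable
  · exact (by fun_prop : Continuous fun x : ℝ => -cexp (-(u * x))).aestronglyMeasurable
  · refine Eventually.of_forall fun x hx w hw => ?_
    rw [Set.uIoc_of_le hhi] at hx
    rw [norm_neg, Complex.norm_exp]
    apply Real.exp_le_exp.mpr
    have h1 : (-(w * (x : ℂ))).re ≤ ‖w‖ * x := by
      refine (Complex.re_le_norm _).trans ?_
      rw [norm_neg, norm_mul, Complex.norm_real, Real.norm_of_nonneg (hlo.trans hx.1).le]
    have h2 : ‖w‖ ≤ ‖u‖ + 1 := by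
      have h3 : ‖w - u‖ < 1 := by simpa [dist_eq_norm] using hw
      have h4 := norm_le_norm_add_norm_sub' w u
      linarith
    have hx0 : 0 < x := hlo.trans hx.1
    have h5 : 0 ≤ ‖u‖ + 1 := by positivity
    calc (-(w * (x : ℂ))).re ≤ ‖w‖ * x := h1
      _ ≤ (‖u‖ + 1) * x := mul_le_mul_of_nonneg_right h2 hx0.le
      _ ≤ (‖u‖ + 1) * hi := mul_le_mul_of_nonneg_left hx.2 h5
  · exact intervalIntegrable_const
  · refine Eventually.of_forall fun x hx w _ => ?_
    have hx0 : (x : ℂ) ≠ 0 := by exact_mod_cast hne x (hsub hx)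
    have h1 : HasDerivAt (fun w : ℂ => -(w * (x : ℂ))) (-(1 * (x : ℂ))) w :=
      ((hasDerivAt_id' w).mul_const (x : ℂ)).neg
    have h2 := (h1.cexp).div_const (x : ℂ)
    refine h2.congr_deriv ?_
    field_simp

theorem vv_zero {lo hi : ℝ} (hlo : 0 < lo) (hhi : lo ≤ hi) :
    vv lo hi 0 = ((Real.log (hi / lo) : ℝ) : ℂ) := by
  unfold vv
  simp only [zero_mul, neg_zero, Complex.exp_zero]
  have h1 : ∀ x : ℝ, (1 : ℂ) / (x : ℂ) = ((1 / x : ℝ) : ℂ) := fun x => by push_cast; rfl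
  simp only [h1]
  rw [intervalIntegral.integral_ofReal, integral_one_div_of_pos hlo (hlo.trans_le hhi)]

theorem vv_deriv_zero {lo hi : ℝ} (hlo : 0 < lo) (hhi : lo ≤ hi) :
    HasDerivAt (vv lo hi) (((-(hi - lo) : ℝ)) : ℂ) 0 := by
  refine (vv_hasDeriv hlo hhi 0).congr_deriv ?_
  simp

/-- `|vv u - V| ≤ 2 (hi - lo)` -/
theorem vv_sub_le {lo hi : ℝ} (hlo : 0 < lo) (hhi : lo ≤ hi) (h1 : hi ≤ 1) {u : ℂ}
    (hu : ‖u‖ ≤ 1) : ‖vv lo hi u - ((Real.log (hi / lo) : ℝ) : ℂ)‖ ≤ 2 * (hi - lo) := by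
  rw [← vv_zero hlo hhi]
  unfold vv
  have hne : ∀ x ∈ Set.uIcc lo hi, x ≠ 0 := by
    intro x hx
    rw [Set.uIcc_of_le hhi] at hx
    exact (hlo.trans_le hx.1).ne'
  have hcont : ∀ w : ℂ, IntervalIntegrable (fun x : ℝ => cexp (-(w * x)) / x) volume lo hi := by
    intro w
    apply ContinuousOn.intervalIntegrable
    apply ContinuousOn.div
    · fun_prop
    · fun_prop
    · intro x hx
      exact_mod_cast hne x hx
  rw [← intervalIntegral.integral_sub (hcont u) (hcont 0)]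
  have h2 := intervalIntegral.norm_integral_le_of_norm_le_const (a := lo) (b := hi)
    (f := fun x : ℝ => cexp (-(u * x)) / x - cexp (-(0 * x)) / x) (C := 2) (by
      intro x hx
      rw [Set.uIoc_of_le hhi] at hx
      have hx0 : 0 < x := hlo.trans hx.1
      have hz : ‖-(u * (x : ℂ))‖ ≤ 1 := by
        rw [norm_neg, norm_mul, Complex.norm_real, Real.norm_of_nonneg hx0.le]
        have : x ≤ 1 := hx.2.trans h1
        nlinarith [norm_nonneg u]
      have h3 := Complex.norm_exp_sub_one_le hz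
      rw [zero_mul, neg_zero, Complex.exp_zero, ← sub_div, norm_div, Complex.norm_real,
        Real.norm_of_nonneg hx0.le, div_le_iff₀ hx0]
      refine h3.trans ?_
      rw [norm_neg, norm_mul, Complex.norm_real, Real.norm_of_nonneg hx0.le]
      nlinarith [norm_nonneg u])
  rwa [abs_of_nonneg (by linarith)] at h2

/-! ### The points `tb i` -/

theorem tb_pos (i : ℕ) : 0 < tb i := by
  unfold tb
  split_ifs <;> exact Real.exp_pos _

theorem tb_succ (i : ℕ) : tb (i + 1) = Real.exp (-((i : ℝ) + 3)) := by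
  unfold tb
  rw [if_neg (by omega)]
  congr 1
  push_cast
  ring

theorem tb_anti (i : ℕ) : tb (i + 1) ≤ tb i := by
  rw [tb_succ]
  unfold tb
  split_ifs with h
  · subst h
    apply Real.exp_le_exp.mpr
    norm_num
  · apply Real.exp_le_exp.mpr
    linarith

theorem tb_le_one (i : ℕ) : tb i ≤ 1 := by
  unfold tb
  split_ifs
  · apply Real.exp_le_one_iff.mpr
    norm_num
  · apply Real.exp_le_one_iff.mpr
    have : (0 : ℝ) ≤ i := by positivity
    linarith

theorem log_tb (i : ℕ) : Real.log (tb i / tb (i + 1)) = Vv i := by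
  rw [tb_succ]
  unfold tb Vv
  split_ifs with h
  · subst h
    rw [← Real.exp_sub, Real.log_exp]
    norm_num
  · rw [← Real.exp_sub, Real.log_exp]
    ring

theorem dg_even (i : ℕ) : Even (dg i) := by
  unfold dg
  split_ifs
  · exact ⟨2, rfl⟩
  · exact ⟨i + 1, by ring⟩

theorem dg_pos (i : ℕ) : 1 ≤ dg i := by
  unfold dg
  split_ifs <;> omega

theorem Vv_pos (i : ℕ) : 0 < Vv i := by
  unfold Vv
  split_ifs <;> norm_num

theorem Vv_le (i : ℕ) : Vv i ≤ 1 := by
  unfold Vv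
  split_ifs <;> norm_num

/-! ### The correction -/

theorem eta_nonneg (k : ℝ) (d : ℕ) : 0 ≤ eta k d := le_max_left _ _

theorem eta_le {k : ℝ} (h0 : 0 < k) (h1 : k < 1) {d : ℕ} (hd : 1 ≤ d) :
    eta k d ≤ k / (1 - k) / d.factorial := by
  unfold eta
  have hk1 : 0 < 1 - k := by linarith
  have hf : (0 : ℝ) < d.factorial := by positivity
  have hd' : (1 : ℝ) ≤ d := by exact_mod_cast hd
  apply max_le (by positivity)
  have h2 : (1 - k) ^ d - k ^ d ≤ 1 := by
    have h3 : (1 - k) ^ d ≤ 1 := pow_le_one₀ hk1.le (by linarith)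
    have h4 : 0 ≤ k ^ d := by positivity
    linarith
  have h5 : k / ((1 - k) * (d * d.factorial)) ≤ k / (1 - k) / d.factorial := by
    rw [div_div]
    apply div_le_div_of_nonneg_left h0.le (by positivity)
    apply mul_le_mul_of_nonneg_left _ hk1.le
    nlinarith
  have h6 : 0 ≤ k / ((1 - k) * (d * d.factorial)) := by positivity
  have h7 : 0 ≤ k / (1 - k) / d.factorial := by positivity
  calc 3 / 8 * (k / ((1 - k) * (d * d.factorial))) * ((1 - k) ^ d - k ^ d)
      ≤ 3 / 8 * (k / ((1 - k) * (d * d.factorial))) * 1 :=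
        mul_le_mul_of_nonneg_left h2 (by positivity)
    _ ≤ k / (1 - k) / d.factorial := by nlinarith

/-! ### The general form of the means -/

/-- `∑_{j ≤ d} c^j/j! mom j + e mom d` -/
noncomputable def momP {R : Type*} [Field R] (c e : R) (d : ℕ) (μ s : R) : R :=
  ∑ j ∈ Finset.range (d + 1), c ^ j / (j.factorial : R) * mom j μ s + e * mom d μ s

/-- the derivative of `momP` in the mean -/
noncomputable def momD {R : Type*} [Field R] (c e : R) (d : ℕ) (μ s : R) : R :=
  ∑ j ∈ Finset.range (d + 1), c ^ j / (j.factorial : R) * ((j : R) * mom (j - 1) μ s) +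
    e * ((d : R) * mom (d - 1) μ s)

theorem momP_cast (c e : ℝ) (d : ℕ) (μ s : ℝ) :
    ((momP c e d μ s : ℝ) : ℂ) = momP (c : ℂ) (e : ℂ) d (μ : ℂ) (s : ℂ) := by
  unfold momP
  push_cast
  simp only [mom_cast]

theorem momD_cast (c e : ℝ) (d : ℕ) (μ s : ℝ) :
    ((momD c e d μ s : ℝ) : ℂ) = momD (c : ℂ) (e : ℂ) d (μ : ℂ) (s : ℂ) := by
  unfold momD
  push_cast
  simp only [mom_cast]

theorem aF_eq (k : ℝ) (i : ℕ) : aF k i = momP (-(2 * (1 - k))) (eta (1 - k) (dg i) * 2 ^ dg i)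
    (dg i) (k * Vv i) (Vv i / 2) := rfl

theorem aG_eq (k : ℝ) (i : ℕ) : aG k i = momP (2 * k) (eta k (dg i) * 2 ^ dg i)
    (dg i) (-((1 - k) * Vv i)) (Vv i / 2) := rfl

theorem PhF_eq (k : ℝ) (i : ℕ) (v : ℂ) : PhF k i v = momP (((-(2 * (1 - k)) : ℝ)) : ℂ)
    ((eta (1 - k) (dg i) * 2 ^ dg i : ℝ) : ℂ) (dg i) (v - (((1 - k) * Vv i : ℝ) : ℂ))
    ((Vv i / 2 : ℝ) : ℂ) := rfl

theorem PhF_V (k : ℝ) (i : ℕ) : PhF k i ((Vv i : ℝ) : ℂ) = ((aF k i : ℝ) : ℂ) := by
  rw [PhF_eq, aF_eq, momP_cast]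
  congr 1
  push_cast
  ring

theorem momP_hasDeriv (c e : ℂ) (d : ℕ) (s v : ℂ) :
    HasDerivAt (fun v => momP c e d v s) (momD c e d v s) v := by
  unfold momP momD
  exact (HasDerivAt.fun_sum fun j _ => (mom_hasDeriv j s v).const_mul _).add
    ((mom_hasDeriv d s v).const_mul _)

theorem PhF_hasDeriv (k : ℝ) (i : ℕ) (v : ℂ) : HasDerivAt (PhF k i)
    (momD (((-(2 * (1 - k)) : ℝ)) : ℂ) ((eta (1 - k) (dg i) * 2 ^ dg i : ℝ) : ℂ) (dg i)
      (v - (((1 - k) * Vv i : ℝ) : ℂ)) ((Vv i / 2 : ℝ) : ℂ)) v := by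
  have h1 : HasDerivAt (fun v : ℂ => v - (((1 - k) * Vv i : ℝ) : ℂ)) 1 v :=
    (hasDerivAt_id' v).sub_const _
  have h2 := (momP_hasDeriv (((-(2 * (1 - k)) : ℝ)) : ℂ)
    ((eta (1 - k) (dg i) * 2 ^ dg i : ℝ) : ℂ) (dg i) ((Vv i / 2 : ℝ) : ℂ)
    (v - (((1 - k) * Vv i : ℝ) : ℂ))).comp v h1
  rw [mul_one] at h2
  exact h2

/-- reindexing -/
theorem shift_sum {R : Type*} [Field R] [CharZero R] (c : R) (m : ℕ → R) (d : ℕ) :
    ∑ j ∈ Finset.range (d + 1), c ^ j / (j.factorial : R) * ((j : R) * m (j - 1)) =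
      c * ∑ j ∈ Finset.range d, c ^ j / (j.factorial : R) * m j := by
  rw [Finset.sum_range_succ']
  simp only [Nat.cast_zero, zero_mul, mul_zero, add_zero]
  rw [Finset.mul_sum]
  refine Finset.sum_congr rfl fun j _ => ?_
  rw [Nat.factorial_succ]
  have h1 : ((j + 1 : ℕ) : R) ≠ 0 := by exact_mod_cast Nat.succ_ne_zero j
  have h2 : (j.factorial : R) ≠ 0 := by exact_mod_cast Nat.factorial_ne_zero j
  simp only [Nat.add_sub_cancel]
  push_cast at h1 ⊢
  field_simp
  ring

/-- `- momD ≤ 2 (1 - k) aF` at `v = V` -/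
theorem neg_momD_le {k : ℝ} (h0 : 0 < k) (h1 : k < 1) (i : ℕ) :
    -momD (-(2 * (1 - k))) (eta (1 - k) (dg i) * 2 ^ dg i) (dg i) (k * Vv i) (Vv i / 2) ≤
      2 * (1 - k) * aF k i := by
  have hm : ∀ j : ℕ, 0 ≤ mom j (k * Vv i) (Vv i / 2) := fun j =>
    mom_nonneg j (mul_nonneg h0.le (Vv_pos i).le) (by have := Vv_pos i; positivity)
  have he := eta_nonneg (1 - k) (dg i)
  rw [aF_eq]
  unfold momD momP
  rw [shift_sum (-(2 * (1 - k))) (fun j => mom j (k * Vv i) (Vv i / 2)) (dg i),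
    Finset.sum_range_succ]
  have h2 : 0 ≤ (-(2 * (1 - k))) ^ dg i / ((dg i).factorial : ℝ) *
      mom (dg i) (k * Vv i) (Vv i / 2) := by
    apply mul_nonneg _ (hm _)
    apply div_nonneg ((dg_even i).pow_nonneg _) (by positivity)
  have h3 : 0 ≤ eta (1 - k) (dg i) * 2 ^ dg i * mom (dg i) (k * Vv i) (Vv i / 2) := by
    have := hm (dg i)
    positivity
  have h4 : 0 ≤ eta (1 - k) (dg i) * 2 ^ dg i *
      (((dg i : ℕ) : ℝ) * mom (dg i - 1) (k * Vv i) (Vv i / 2)) := by
    have := hm (dg i - 1)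
    positivity
  have h5 : 0 < 2 * (1 - k) := by linarith
  nlinarith [mul_nonneg h5.le h2, mul_nonneg h5.le h3]

/-! ### Uniform bounds -/

section bounds

variable {a κ R S K : ℝ}

/-- `K` bounds all the finite sums -/
def Bd (a R S K : ℝ) : Prop := 0 ≤ a ∧ 0 ≤ R ∧ 0 ≤ S ∧
  ∀ d : ℕ, ∑ j ∈ Finset.range (d + 1), a ^ j / (j.factorial : ℝ) * mom j R S ≤ K

theorem Bd.term (h : Bd a R S K) (d : ℕ) : a ^ d / (d.factorial : ℝ) * mom d R S ≤ K := by
  obtain ⟨ha, hR, hS, hK⟩ := h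
  refine le_trans ?_ (hK d)
  refine Finset.single_le_sum (f := fun j => a ^ j / (j.factorial : ℝ) * mom j R S)
    (fun j _ => ?_) (Finset.self_mem_range_succ d)
  exact mul_nonneg (by positivity) (mom_nonneg j hR hS)

theorem Bd.part (h : Bd a R S K) (d : ℕ) :
    ∑ j ∈ Finset.range d, a ^ j / (j.factorial : ℝ) * mom j R S ≤ K := by
  obtain ⟨ha, hR, hS, hK⟩ := h
  refine le_trans ?_ (hK d)
  rw [Finset.sum_range_succ]
  have : 0 ≤ a ^ d / (d.factorial : ℝ) * mom d R S :=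
    mul_nonneg (by positivity) (mom_nonneg d hR hS)
  linarith

theorem momP_le (h : Bd a R S K) (hκ : 0 ≤ κ) {c e : ℂ} {d : ℕ} (hc : ‖c‖ ≤ a)
    (he : ‖e‖ ≤ κ * (a ^ d / (d.factorial : ℝ))) {μ s : ℂ} (hμ : ‖μ‖ ≤ R) (hs : ‖s‖ ≤ S) :
    ‖momP c e d μ s‖ ≤ (1 + κ) * K := by
  have h' := h
  obtain ⟨ha, hR, hS, hK⟩ := h
  unfold momP
  refine (norm_add_le _ _).trans ?_
  have h1 : ‖∑ j ∈ Finset.range (d + 1), c ^ j / (j.factorial : ℂ) * mom j μ s‖ ≤ K := by
    refine (norm_sum_le _ _).trans (le_trans ?_ (hK d))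
    refine Finset.sum_le_sum fun j _ => ?_
    rw [norm_mul, norm_div, norm_pow, Complex.norm_natCast]
    have := mom_norm_le j hμ hs
    gcongr
  have h2 : ‖e * mom d μ s‖ ≤ κ * K := by
    rw [norm_mul]
    have h3 := mom_norm_le d hμ hs
    have h4 := h'.term d
    calc ‖e‖ * ‖mom d μ s‖ ≤ κ * (a ^ d / (d.factorial : ℝ)) * mom d R S := by gcongr
      _ = κ * (a ^ d / (d.factorial : ℝ) * mom d R S) := by ring
      _ ≤ κ * K := mul_le_mul_of_nonneg_left h4 hκ
  linarith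

theorem momD_le (h : Bd a R S K) (hκ : 0 ≤ κ) {c e : ℂ} {d : ℕ} (hd : 1 ≤ d) (hc : ‖c‖ ≤ a)
    (he : ‖e‖ ≤ κ * (a ^ d / (d.factorial : ℝ))) {μ s : ℂ} (hμ : ‖μ‖ ≤ R) (hs : ‖s‖ ≤ S) :
    ‖momD c e d μ s‖ ≤ a * ((1 + κ) * K) := by
  have h' := h
  obtain ⟨ha, hR, hS, hK⟩ := h
  unfold momD
  refine (norm_add_le _ _).trans ?_
  have h1 : ‖∑ j ∈ Finset.range (d + 1), c ^ j / (j.factorial : ℂ) *
      ((j : ℂ) * mom (j - 1) μ s)‖ ≤ a * K := by
    rw [shift_sum c (fun j => mom j μ s) d, norm_mul]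
    apply mul_le_mul hc _ (norm_nonneg _) ha
    refine (norm_sum_le _ _).trans (le_trans ?_ (h'.part d))
    refine Finset.sum_le_sum fun j _ => ?_
    rw [norm_mul, norm_div, norm_pow, Complex.norm_natCast]
    have := mom_norm_le j hμ hs
    gcongr
  have h2 : ‖e * ((d : ℂ) * mom (d - 1) μ s)‖ ≤ a * (κ * K) := by
    obtain ⟨d, rfl⟩ : ∃ d', d = d' + 1 := ⟨d - 1, by omega⟩
    rw [norm_mul, norm_mul, Complex.norm_natCast, Nat.add_sub_cancel]
    have h3 := mom_norm_le d hμ hs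
    have h4 := h'.term d
    have h5 : κ * (a ^ (d + 1) / ((d + 1).factorial : ℝ)) * (((d + 1 : ℕ) : ℝ) * mom d R S) =
        a * (κ * (a ^ d / (d.factorial : ℝ) * mom d R S)) := by
      rw [Nat.factorial_succ, pow_succ]
      have h1 : ((d + 1 : ℕ) : ℝ) ≠ 0 := by positivity
      have h2 : (d.factorial : ℝ) ≠ 0 := by positivity
      push_cast at h1 ⊢
      field_simp
    calc ‖e‖ * (((d + 1 : ℕ) : ℝ) * ‖mom d μ s‖) ≤
        κ * (a ^ (d + 1) / ((d + 1).factorial : ℝ)) * (((d + 1 : ℕ) : ℝ) * mom d R S) := by gcongr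
      _ = a * (κ * (a ^ d / (d.factorial : ℝ) * mom d R S)) := h5
      _ ≤ a * (κ * K) := by gcongr
  linarith

end bounds

theorem exists_bd : ∃ K : ℝ, 1 ≤ K ∧ Bd 2 3 (1 / 2) K := by
  have h := mean_le 2 3 (1 / 2 : NNReal)
  have hc : ((1 / 2 : NNReal) : ℝ) = 1 / 2 := by norm_num
  rw [hc] at h
  refine ⟨∫ x, Real.exp |2 * x| ∂(gaussianReal 3 (1 / 2)), ?_, by norm_num, by norm_num,
    by norm_num, fun d => h d⟩
  have := h 0
  simpa [mom] using this

/-- `Vv i / 2` as a nonnegative number -/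
noncomputable def vN (i : ℕ) : NNReal := ⟨Vv i / 2, by have := Vv_pos i; positivity⟩

theorem Vv_eq {i : ℕ} (hi : i ≠ 0) : Vv i = Vv 1 := by
  unfold Vv
  rw [if_neg hi, if_neg one_ne_zero]

theorem vN_eq {i : ℕ} (hi : i ≠ 0) : vN i = vN 1 := by
  apply NNReal.eq
  show Vv i / 2 = Vv 1 / 2
  rw [Vv_eq hi]

theorem lower (c m : ℝ) : ∃ L : ℝ, 0 < L ∧ ∀ i : ℕ, L ≤ ∑ j ∈ Finset.range (dg i + 1),
    c ^ j / (j.factorial : ℝ) * mom j (m * Vv i) (Vv i / 2) := by
  refine ⟨min (∫ x, min 1 (Real.exp (c * x)) ∂(gaussianReal (m * Vv 0) (vN 0)))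
    (∫ x, min 1 (Real.exp (c * x)) ∂(gaussianReal (m * Vv 1) (vN 1))),
    lt_min (pos_min _ _ _) (pos_min _ _ _), fun i => ?_⟩
  have h := mean_ge (dg_even i) c (m * Vv i) (vN i)
  have hv : ((vN i : NNReal) : ℝ) = Vv i / 2 := rfl
  rw [hv] at h
  refine le_trans ?_ h
  rcases eq_or_ne i 0 with rfl | hi
  · exact min_le_left _ _
  · rw [Vv_eq hi, vN_eq hi]
    exact min_le_right _ _

theorem aF_lower (k : ℝ) : ∃ L : ℝ, 0 < L ∧ ∀ i : ℕ, L ≤ aF k i := by
  obtain ⟨L, hL, h⟩ := lower (-(2 * (1 - k))) k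
  refine ⟨L, hL, fun i => ?_⟩
  have h1 : 0 ≤ eta (1 - k) (dg i) * 2 ^ dg i * mom (dg i) (k * Vv i) (Vv i / 2) := by
    have := mom_even_nonneg (dg_even i) (k * Vv i) (vN i)
    have hv : ((vN i : NNReal) : ℝ) = Vv i / 2 := rfl
    rw [hv] at this
    have h2 := eta_nonneg (1 - k) (dg i)
    positivity
  rw [aF_eq]
  unfold momP
  linarith [h i]

theorem aG_lower (k : ℝ) : ∃ L : ℝ, 0 < L ∧ ∀ i : ℕ, L ≤ aG k i := by
  obtain ⟨L, hL, h⟩ := lower (2 * k) (-(1 - k))
  refine ⟨L, hL, fun i => ?_⟩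
  have h1 : 0 ≤ eta k (dg i) * 2 ^ dg i * mom (dg i) (-((1 - k) * Vv i)) (Vv i / 2) := by
    have := mom_even_nonneg (dg_even i) (-((1 - k) * Vv i)) (vN i)
    have hv : ((vN i : NNReal) : ℝ) = Vv i / 2 := rfl
    rw [hv] at this
    have h2 := eta_nonneg k (dg i)
    positivity
  have h3 := h i
  rw [neg_mul] at h3
  rw [aG_eq]
  unfold momP
  linarith

/-- size of the correction -/
theorem eta_norm {k κ : ℝ} (h0 : 0 < k) (h1 : k < 1) (hκ : k / (1 - k) ≤ κ) (i : ℕ) :
    ‖((eta k (dg i) * 2 ^ dg i : ℝ) : ℂ)‖ ≤ κ * (2 ^ dg i / ((dg i).factorial : ℝ)) := by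
  have h2 := eta_nonneg k (dg i)
  rw [Complex.norm_real, Real.norm_of_nonneg (by positivity)]
  have h3 := eta_le h0 h1 (dg_pos i)
  have hf : (0 : ℝ) < (dg i).factorial := by positivity
  calc eta k (dg i) * 2 ^ dg i ≤ (k / (1 - k) / (dg i).factorial) * 2 ^ dg i := by gcongr
    _ ≤ (κ / (dg i).factorial) * 2 ^ dg i := by gcongr
    _ = κ * (2 ^ dg i / ((dg i).factorial : ℝ)) := by ring

theorem rho_hasDeriv (k : ℝ) (M : ℕ) (u : ℂ) : HasDerivAt (rhoF k M)
    (∑ i ∈ Finset.range (M - 2), (∏ j ∈ (Finset.range (M - 2)).erase i,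
      PhF k j (vv (tb (j + 1)) (tb j) u)) •
      (momD (((-(2 * (1 - k)) : ℝ)) : ℂ) ((eta (1 - k) (dg i) * 2 ^ dg i : ℝ) : ℂ) (dg i)
        (vv (tb (i + 1)) (tb i) u - (((1 - k) * Vv i : ℝ) : ℂ)) ((Vv i / 2 : ℝ) : ℂ) *
        (-∫ x in (tb (i + 1))..(tb i), cexp (-(u * x))))) u := by
  unfold rhoF
  apply HasDerivAt.fun_finsetProd
  intro i _
  exact (PhF_hasDeriv k i _).comp u (vv_hasDeriv (tb_pos (i + 1)) (tb_anti i) u)

theorem vv_tb_zero (i : ℕ) : vv (tb (i + 1)) (tb i) 0 = ((Vv i : ℝ) : ℂ) := by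
  rw [vv_zero (tb_pos (i + 1)) (tb_anti i), log_tb]

end RhoA

open RhoA in
theorem stRho : StRho := by
  intro k hk0 hk1
  obtain ⟨L₁, hL₁, hF⟩ := aF_lower k
  obtain ⟨L₂, hL₂, hG⟩ := aG_lower k
  have hFpos : ∀ i, 0 < aF k i := fun i => hL₁.trans_le (hF i)
  refine ⟨fun M u => (rho_hasDeriv k M u).differentiableAt, fun M => ?_, fun M => ?_, ?_⟩
  · unfold rhoF
    push_cast
    refine Finset.prod_congr rfl fun i _ => ?_
    rw [vv_tb_zero, PhF_V]
  · rw [(rho_hasDeriv k M 0).deriv]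
    -- everything is real
    have h1 : (∑ i ∈ Finset.range (M - 2), (∏ j ∈ (Finset.range (M - 2)).erase i,
        PhF k j (vv (tb (j + 1)) (tb j) 0)) •
        (momD (((-(2 * (1 - k)) : ℝ)) : ℂ) ((eta (1 - k) (dg i) * 2 ^ dg i : ℝ) : ℂ) (dg i)
          (vv (tb (i + 1)) (tb i) 0 - (((1 - k) * Vv i : ℝ) : ℂ)) ((Vv i / 2 : ℝ) : ℂ) *
          (-∫ x in (tb (i + 1))..(tb i), cexp (-((0 : ℂ) * x))))) =
        ((∑ i ∈ Finset.range (M - 2), (∏ j ∈ (Finset.range (M - 2)).erase i, aF k j) *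
          ((-momD (-(2 * (1 - k))) (eta (1 - k) (dg i) * 2 ^ dg i) (dg i) (k * Vv i)
            (Vv i / 2)) * (tb i - tb (i + 1))) : ℝ) : ℂ) := by
      rw [Complex.ofReal_sum]
      refine Finset.sum_congr rfl fun i _ => ?_
      rw [smul_eq_mul, Complex.ofReal_mul (∏ j ∈ (Finset.range (M - 2)).erase i, aF k j),
        Complex.ofReal_prod]
      congr 1
      · refine Finset.prod_congr rfl fun j _ => ?_
        rw [vv_tb_zero, PhF_V]
      · have h2 : ((Vv i : ℝ) : ℂ) - (((1 - k) * Vv i : ℝ) : ℂ) = ((k * Vv i : ℝ) : ℂ) := by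
          push_cast
          ring
        rw [vv_tb_zero, h2, ← momD_cast]
        simp
        ring
    rw [h1, Complex.ofReal_re]
    have h2 : ∀ i ∈ Finset.range (M - 2), (∏ j ∈ (Finset.range (M - 2)).erase i, aF k j) *
          ((-momD (-(2 * (1 - k))) (eta (1 - k) (dg i) * 2 ^ dg i) (dg i) (k * Vv i)
            (Vv i / 2)) * (tb i - tb (i + 1))) ≤
        2 * (1 - k) * (∏ j ∈ Finset.range (M - 2), aF k j) * (tb i - tb (i + 1)) := by
      intro i hi
      rw [← Finset.mul_prod_erase _ _ hi]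
      have h3 := neg_momD_le hk0 hk1 i
      have h4 : 0 ≤ tb i - tb (i + 1) := by linarith [tb_anti i]
      have h5 : 0 < ∏ j ∈ (Finset.range (M - 2)).erase i, aF k j :=
        Finset.prod_pos fun j _ => hFpos j
      calc (∏ j ∈ (Finset.range (M - 2)).erase i, aF k j) *
          ((-momD (-(2 * (1 - k))) (eta (1 - k) (dg i) * 2 ^ dg i) (dg i) (k * Vv i)
            (Vv i / 2)) * (tb i - tb (i + 1)))
          ≤ (∏ j ∈ (Finset.range (M - 2)).erase i, aF k j) *
            ((2 * (1 - k) * aF k i) * (tb i - tb (i + 1))) :=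
            mul_le_mul_of_nonneg_left (mul_le_mul_of_nonneg_right h3 h4) h5.le
        _ = _ := by ring
    refine (Finset.sum_le_sum h2).trans ?_
    rw [← Finset.mul_sum, Finset.sum_range_sub']
    have h6 : 0 < ∏ j ∈ Finset.range (M - 2), aF k j := Finset.prod_pos fun j _ => hFpos j
    have h7 := tb_pos (M - 2)
    have h8 : 0 < 2 * (1 - k) := by linarith
    nlinarith [mul_pos h8 h6, mul_pos (mul_pos h8 h6) h7]
  · obtain ⟨K, hK1, hK⟩ := exists_bd
    set κ : ℝ := k / (1 - k) + (1 - k) / k with hκ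
    have hk1' : 0 < 1 - k := by linarith
    have hκ1 : k / (1 - k) ≤ κ := by
      have : 0 < (1 - k) / k := by positivity
      linarith
    have hκ2 : (1 - k) / (1 - (1 - k)) ≤ κ := by
      have h1 : 0 < k / (1 - k) := by positivity
      have h2 : 1 - (1 - k) = k := by ring
      rw [h2]
      linarith
    have hκ0 : 0 ≤ κ := by positivity
    set B : ℝ := (1 + κ) * K with hB
    have hB1 : 1 ≤ B := by nlinarith
    have hV : ∀ i, ‖((Vv i / 2 : ℝ) : ℂ)‖ ≤ 1 / 2 := by
      intro i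
      have h1 := Vv_pos i
      have h2 := Vv_le i
      rw [Complex.norm_real, Real.norm_of_nonneg (by positivity)]
      linarith
    have hc1 : ‖(((-(2 * (1 - k)) : ℝ)) : ℂ)‖ ≤ 2 := by
      rw [Complex.norm_real, norm_neg, Real.norm_of_nonneg (by positivity)]
      linarith
    have hc2 : ‖((2 * k : ℝ) : ℂ)‖ ≤ 2 := by
      rw [Complex.norm_real, Real.norm_of_nonneg (by positivity)]
      linarith
    have he1 := fun i => eta_norm (k := 1 - k) hk1' (by linarith) hκ2 i
    have he2 := fun i => eta_norm hk0 hk1 hκ1 i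
    -- bounds for `PhF` and its derivative
    have hPh : ∀ i, ∀ v : ℂ, ‖v - (((1 - k) * Vv i : ℝ) : ℂ)‖ ≤ 3 → ‖PhF k i v‖ ≤ B := by
      intro i v hv
      rw [PhF_eq]
      exact momP_le hK hκ0 hc1 (he1 i) hv (hV i)
    have hDPh : ∀ i, ∀ v : ℂ, ‖v - (((1 - k) * Vv i : ℝ) : ℂ)‖ ≤ 3 →
        ‖momD (((-(2 * (1 - k)) : ℝ)) : ℂ) ((eta (1 - k) (dg i) * 2 ^ dg i : ℝ) : ℂ) (dg i)
          (v - (((1 - k) * Vv i : ℝ) : ℂ)) ((Vv i / 2 : ℝ) : ℂ)‖ ≤ 2 * B := by
      intro i v hv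
      exact momD_le hK hκ0 (dg_pos i) hc1 (he1 i) hv (hV i)
    have hcen : ∀ i, ‖((Vv i : ℝ) : ℂ) - (((1 - k) * Vv i : ℝ) : ℂ)‖ ≤ 1 := by
      intro i
      have h1 := Vv_pos i
      have h2 := Vv_le i
      rw [← Complex.ofReal_sub, Complex.norm_real,
        Real.norm_of_nonneg (by nlinarith)]
      nlinarith
    have htb : ∀ i, tb i - tb (i + 1) ≤ 1 := by
      intro i
      linarith [tb_le_one i, tb_pos (i + 1)]
    have hsub : ∀ i, ∀ u : ℂ, ‖u‖ ≤ 1 → ‖vv (tb (i + 1)) (tb i) u - ((Vv i : ℝ) : ℂ)‖ ≤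
        2 * (tb i - tb (i + 1)) := by
      intro i u hu
      have := vv_sub_le (tb_pos (i + 1)) (tb_anti i) (tb_le_one i) hu
      rwa [log_tb] at this
    have hball : ∀ i, ∀ u : ℂ, ‖u‖ ≤ 1 →
        ‖vv (tb (i + 1)) (tb i) u - (((1 - k) * Vv i : ℝ) : ℂ)‖ ≤ 3 := by
      intro i u hu
      have h1 := hsub i u hu
      have h2 := hcen i
      have h3 := htb i
      calc ‖vv (tb (i + 1)) (tb i) u - (((1 - k) * Vv i : ℝ) : ℂ)‖ =
          ‖(vv (tb (i + 1)) (tb i) u - ((Vv i : ℝ) : ℂ)) +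
            (((Vv i : ℝ) : ℂ) - (((1 - k) * Vv i : ℝ) : ℂ))‖ := by congr 1; ring
        _ ≤ _ := norm_add_le _ _
        _ ≤ 3 := by linarith
    have hlip : ∀ i, ∀ u : ℂ, ‖u‖ ≤ 1 →
        ‖PhF k i (vv (tb (i + 1)) (tb i) u) - ((aF k i : ℝ) : ℂ)‖ ≤
          4 * B * (tb i - tb (i + 1)) := by
      intro i u hu
      rw [← PhF_V]
      have h1 := (convex_closedBall ((((1 - k) * Vv i : ℝ) : ℂ)) 3).norm_image_sub_le_of_norm_hasDerivWithin_le
        (f := PhF k i) (f' := fun v => momD (((-(2 * (1 - k)) : ℝ)) : ℂ)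
          ((eta (1 - k) (dg i) * 2 ^ dg i : ℝ) : ℂ) (dg i)
          (v - (((1 - k) * Vv i : ℝ) : ℂ)) ((Vv i / 2 : ℝ) : ℂ)) (C := 2 * B)
        (x := ((Vv i : ℝ) : ℂ)) (y := vv (tb (i + 1)) (tb i) u)
        (fun v _ => (PhF_hasDeriv k i v).hasDerivWithinAt)
        (fun v hv => hDPh i v (by simpa [dist_eq_norm] using hv))
        (by rw [Metric.mem_closedBall, dist_eq_norm]; exact (hcen i).trans (by norm_num))
        (by rw [Metric.mem_closedBall, dist_eq_norm]; exact hball i u hu)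
      refine h1.trans ?_
      have h2 := hsub i u hu
      nlinarith
    have hFle : ∀ i, aF k i ≤ B := by
      intro i
      have h1 := hPh i ((Vv i : ℝ) : ℂ) ((hcen i).trans (by norm_num))
      rw [PhF_V, Complex.norm_real] at h1
      exact (le_abs_self _).trans h1
    have hGle : ∀ i, aG k i ≤ B := by
      intro i
      have h1 : ‖((aG k i : ℝ) : ℂ)‖ ≤ B := by
        rw [aG_eq, momP_cast]
        refine momP_le hK hκ0 hc2 (he2 i) ?_ (hV i)
        have h2 := Vv_pos i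
        have h3 := Vv_le i
        rw [Complex.norm_real, norm_neg, Real.norm_of_nonneg (by positivity)]
        nlinarith
      rw [Complex.norm_real] at h1
      exact (le_abs_self _).trans h1
    -- the product
    have hprod : ∀ M, ∀ u : ℂ, ‖u‖ ≤ 1 → ‖rhoF k M u‖ ≤
        Real.exp (4 * B / L₁) * ∏ i ∈ Finset.range (M - 2), aF k i := by
      intro M u hu
      unfold rhoF
      rw [norm_prod]
      have h1 : ∀ i ∈ Finset.range (M - 2), ‖PhF k i (vv (tb (i + 1)) (tb i) u)‖ ≤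
          aF k i * Real.exp (4 * B / L₁ * (tb i - tb (i + 1))) := by
        intro i _
        have h2 := hlip i u hu
        have h3 : ‖PhF k i (vv (tb (i + 1)) (tb i) u)‖ ≤
            aF k i + 4 * B * (tb i - tb (i + 1)) := by
          have h4 := norm_le_norm_add_norm_sub' (PhF k i (vv (tb (i + 1)) (tb i) u))
            ((aF k i : ℝ) : ℂ)
          rw [Complex.norm_real, Real.norm_of_nonneg (hFpos i).le] at h4
          linarith
        have h5 : 0 ≤ tb i - tb (i + 1) := by linarith [tb_anti i]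
        have h6 := Real.add_one_le_exp (4 * B / L₁ * (tb i - tb (i + 1)))
        have h7 : 4 * B * (tb i - tb (i + 1)) ≤ aF k i * (4 * B / L₁ * (tb i - tb (i + 1))) := by
          have h8 : 4 * B * (tb i - tb (i + 1)) = L₁ * (4 * B / L₁ * (tb i - tb (i + 1))) := by
            field_simp
          rw [h8]
          apply mul_le_mul_of_nonneg_right (hF i)
          positivity
        have h9 := mul_le_mul_of_nonneg_left h6 (hFpos i).le
        linarith
      refine (Finset.prod_le_prod (fun i _ => norm_nonneg _) h1).trans ?_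
      rw [Finset.prod_mul_distrib, mul_comm]
      have h10 : 0 < ∏ j ∈ Finset.range (M - 2), aF k j := Finset.prod_pos fun j _ => hFpos j
      apply mul_le_mul_of_nonneg_right _ h10.le
      rw [← Real.exp_sum, ← Finset.mul_sum, Finset.sum_range_sub']
      apply Real.exp_le_exp.mpr
      have h11 := tb_pos (M - 2)
      have h12 := tb_le_one 0
      have h13 : 0 < 4 * B / L₁ := by positivity
      nlinarith
    have hE : 0 < Real.exp (4 * B / L₁) := Real.exp_pos _
    have hi1 : 0 < L₁⁻¹ := by positivity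
    have hi2 : 0 < L₂⁻¹ := by positivity
    have hCpos : 0 < B + L₁⁻¹ + L₂⁻¹ + Real.exp (4 * B / L₁) := by positivity
    have hC1 : (B + L₁⁻¹ + L₂⁻¹ + Real.exp (4 * B / L₁))⁻¹ ≤ L₁ := by
      rw [inv_le_comm₀ hCpos hL₁]
      linarith
    have hC2 : (B + L₁⁻¹ + L₂⁻¹ + Real.exp (4 * B / L₁))⁻¹ ≤ L₂ := by
      rw [inv_le_comm₀ hCpos hL₂]
      linarith
    refine ⟨B + L₁⁻¹ + L₂⁻¹ + Real.exp (4 * B / L₁), by linarith, fun i => ⟨?_, ?_, ?_, ?_⟩,
      fun i u hu => ?_, fun M u hu => ?_⟩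
    · exact hC1.trans (hF i)
    · linarith [hFle i]
    · exact hC2.trans (hG i)
    · linarith [hGle i]
    · linarith [hPh i _ (hball i u hu)]
    · refine (hprod M u hu).trans ?_
      have h10 : 0 < ∏ j ∈ Finset.range (M - 2), aF k j := Finset.prod_pos fun j _ => hFpos j
      apply mul_le_mul_of_nonneg_right _ h10.le
      linarith

end K5
end Pool.Agent.Lib.MP_973905_nt
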