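import Pool.Agent.Lib.MP_973905_nt.K5.Stmts

/-! (C2) the side of zeta. -/

namespace Pool.Agent.Lib.MP_973905_nt
namespace K5

open MeasureTheory ProbabilityTheory Complex Filter Topology K1

namespace SecFAux

/-- a threshold for finitely many conditions -/
lemma unif {P : ℕ → ℝ → Prop} (h : ∀ i, ∃ T₀ : ℝ, 3 ≤ T₀ ∧ ∀ T, T₀ ≤ T → P i T) (n : ℕ) :
    ∃ T₀ : ℝ, 3 ≤ T₀ ∧ ∀ T, T₀ ≤ T → ∀ i, i < n → P i T := by
  induction n with
  | zero => exact ⟨3, le_rfl, fun T _ i hi => absurd hi (Nat.not_lt_zero i)⟩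
  | succ n ih =>
      obtain ⟨A, hA, hA'⟩ := ih
      obtain ⟨B, hB, hB'⟩ := h n
      refine ⟨max A B, le_trans hA (le_max_left _ _), fun T hT i hi => ?_⟩
      rcases Nat.lt_succ_iff_lt_or_eq.1 hi with h1 | h1
      · exact hA' T ((le_max_left _ _).trans hT) i h1
      · rw [h1]
        exact hB' T ((le_max_right _ _).trans hT)

/-- perturbation of a product -/
lemma prod_close {a b : ℕ → ℂ} {C ε : ℝ} (hC : 0 ≤ C) (hε : 0 ≤ ε) (hε1 : ε ≤ 1) (n : ℕ)
    (hb : ∀ i, i < n → ‖b i‖ ≤ C) (hab : ∀ i, i < n → ‖a i - b i‖ ≤ ε) :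
    ‖∏ i ∈ Finset.range n, a i‖ ≤ (C + 1) ^ n ∧ ‖∏ i ∈ Finset.range n, b i‖ ≤ (C + 1) ^ n ∧
      ‖∏ i ∈ Finset.range n, a i - ∏ i ∈ Finset.range n, b i‖ ≤ n * (C + 1) ^ n * ε := by
  induction n with
  | zero => simp
  | succ n ih =>
      obtain ⟨h1, h2, h3⟩ := ih (fun i hi => hb i (Nat.lt_succ_of_lt hi))
        (fun i hi => hab i (Nat.lt_succ_of_lt hi))
      have hbn := hb n (Nat.lt_succ_self n)
      have habn := hab n (Nat.lt_succ_self n)
      have han : ‖a n‖ ≤ C + 1 := by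
        calc ‖a n‖ = ‖(a n - b n) + b n‖ := by ring_nf
          _ ≤ ‖a n - b n‖ + ‖b n‖ := norm_add_le _ _
          _ ≤ C + 1 := by linarith
      have hp : 0 ≤ (C + 1) ^ n := by positivity
      rw [Finset.prod_range_succ, Finset.prod_range_succ]
      refine ⟨?_, ?_, ?_⟩
      · rw [norm_mul, pow_succ]
        exact mul_le_mul h1 han (norm_nonneg _) hp
      · rw [norm_mul, pow_succ]
        exact mul_le_mul h2 (by linarith) (norm_nonneg _) hp
      · have e : (∏ i ∈ Finset.range n, a i) * a n - (∏ i ∈ Finset.range n, b i) * b n =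
            (∏ i ∈ Finset.range n, a i - ∏ i ∈ Finset.range n, b i) * a n +
              (∏ i ∈ Finset.range n, b i) * (a n - b n) := by ring
        rw [e]
        refine (norm_add_le _ _).trans ?_
        rw [norm_mul, norm_mul]
        have h4 : ‖∏ i ∈ Finset.range n, a i - ∏ i ∈ Finset.range n, b i‖ * ‖a n‖ ≤
            (n * (C + 1) ^ n * ε) * (C + 1) := mul_le_mul h3 han (norm_nonneg _) (by positivity)
        have h5 : ‖∏ i ∈ Finset.range n, b i‖ * ‖a n - b n‖ ≤ (C + 1) ^ n * ε :=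
          mul_le_mul h2 habn (norm_nonneg _) hp
        have h6 : (C + 1) ^ n * ε ≤ (C + 1) ^ (n + 1) * ε := by
          apply mul_le_mul_of_nonneg_right _ hε
          rw [pow_succ]
          exact le_mul_of_one_le_right hp (by linarith)
        push_cast
        calc _ ≤ (n * (C + 1) ^ n * ε) * (C + 1) + (C + 1) ^ (n + 1) * ε := by linarith
          _ = _ := by ring

lemma RB_diff (N : ℕ) (c : ℕ → ℕ → ℂ) : Differentiable ℂ (RB N c) := by
  unfold RB
  apply Differentiable.fun_sum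
  intro m hm
  apply Differentiable.fun_sum
  intro n hn
  have hm1 : 1 ≤ m := (Finset.mem_Icc.1 hm).1
  have hn1 : 1 ≤ n := (Finset.mem_Icc.1 hn).1
  have hg : 0 < m.gcd n := Nat.gcd_pos_of_pos_left n hm1
  have h1 : 0 < m / m.gcd n := Nat.div_pos (Nat.le_of_dvd hm1 (Nat.gcd_dvd_left m n)) hg
  have h2 : 0 < n / m.gcd n := Nat.div_pos (Nat.le_of_dvd hn1 (Nat.gcd_dvd_right m n)) hg
  have h3 : ((m / m.gcd n * (n / m.gcd n) : ℕ) : ℂ) ≠ 0 := by
    have := Nat.mul_pos h1 h2
    exact_mod_cast this.ne'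
  apply Differentiable.const_mul
  exact (((differentiable_const _).add differentiable_id).neg).const_cpow (Or.inl h3)

/-- the exact evaluation with an entire function -/
lemma long_apply (hL : StLong) (hq : StBQ) (hf : StFact) {k : ℝ} (hk0 : 0 < k) (hk1 : k < 1) :
    ∃ M₀ : ℕ, ∀ M : ℕ, M₀ ≤ M → ∃ T₀ : ℝ, 3 ≤ T₀ ∧ ∀ T, T₀ ≤ T → ∀ g h : Finset ℕ,
      ∃ R : ℂ → ℂ, Differentiable ℂ R ∧
      (∀ w : ℂ, ‖w‖ ≤ 1 / Real.log T → R w =
        (∏ j ∈ Finset.range (JJ T + 1), EBo T M k g h w j) *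
          ∏ i ∈ Finset.range (M - 2), ETo T k w i) ∧
      ∀ τ : ℝ, T / Real.log T ≤ |τ| → |τ| ≤ 3 / 2 * T →
        EG T τ (fun t => ‖riemannZeta (1 / 2 + t * I)‖ ^ 2 *
          (‖AA T M (JJ T) (k - 1) g h (fs (1 / 2 + t * I))‖ ^ 2 * TF k T M (fs (1 / 2 + t * I)))) ≤
        (R 0 * ((Real.log (|τ| / (2 * Real.pi)) + 2 * Real.eulerMascheroniConstant : ℝ) : ℂ) +
          deriv R 0).re + T ^ (-(5 / 1000) : ℝ) := by
  obtain ⟨M₁, h1⟩ := hq k hk0 hk1
  obtain ⟨T₂, hT₂, h2⟩ := hL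
  refine ⟨max M₁ 3, fun M hM => ?_⟩
  obtain ⟨T₁, hT₁, h1⟩ := h1 M ((le_max_left _ _).trans hM)
  obtain ⟨T₃, hT₃, h3⟩ := hf k M ((le_max_right _ _).trans hM)
  refine ⟨max T₁ (max T₂ T₃), hT₁.trans (le_max_left _ _), fun T hT g h => ?_⟩
  have hTT₁ : T₁ ≤ T := (le_max_left _ _).trans hT
  have hTT₂ : T₂ ≤ T := (le_max_left _ _).trans ((le_max_right _ _).trans hT)
  have hTT₃ : T₃ ≤ T := (le_max_right _ _).trans ((le_max_right _ _).trans hT)
  have hT3 : 3 ≤ T := hT₁.trans hTT₁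
  have hT0 : 0 < T := by linarith
  obtain ⟨c, hc1, hc2, hc3⟩ := (h1 T hTT₁ g h).1
  set N := ⌊T ^ (89 / 100 : ℝ)⌋₊ with hN
  have hNT : (N : ℝ) ≤ T := by
    refine (Nat.floor_le (Real.rpow_nonneg hT0.le _)).trans ?_
    calc T ^ (89 / 100 : ℝ) ≤ T ^ (1 : ℝ) :=
          Real.rpow_le_rpow_of_exponent_le (by linarith) (by norm_num)
      _ = T := Real.rpow_one T
  refine ⟨RB N c, RB_diff N c, fun w hw => ?_, fun τ hτ1 hτ2 => ?_⟩
  · exact (h3 T hTT₃ g h N c hNT).1 (fun f hf' => hc3 f hf') w hw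
  · have h4 := h2 T hTT₂ τ hτ1 hτ2 N c hNT hc1 hc2
    have h5 : EG T τ (fun t => ((‖riemannZeta (1 / 2 + t * I)‖ ^ 2 : ℝ) : ℂ) *
        GB N c (fs (1 / 2 + t * I))) =
        ((EG T τ (fun t => ‖riemannZeta (1 / 2 + t * I)‖ ^ 2 *
          (‖AA T M (JJ T) (k - 1) g h (fs (1 / 2 + t * I))‖ ^ 2 *
            TF k T M (fs (1 / 2 + t * I)))) : ℝ) : ℂ) := by
      unfold EG
      refine Eq.trans (integral_congr_ae (Filter.Eventually.of_forall fun t => ?_))
        integral_complex_ofReal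
      show _ * _ = _
      rw [← hc3 _ (cmul_fs _), ← Complex.ofReal_mul]
    rw [h5] at h4
    have h6 := (Complex.abs_re_le_norm _).trans h4
    rw [Complex.sub_re, Complex.ofReal_re] at h6
    have := (abs_le.1 h6).2
    linarith

/-- Cauchy's estimate on the unit circle for a scaled function -/
lemma cauchy {R ρ : ℂ → ℂ} (hR : Differentiable ℂ R) (hρ : Differentiable ℂ ρ) {L B : ℝ}
    (hL : 0 < L) {D : ℂ} (h : ∀ u : ℂ, ‖u‖ ≤ 1 → ‖R (u / L) - D * ρ u‖ ≤ B) :
    ‖deriv R 0 - L * (D * deriv ρ 0)‖ ≤ L * B := by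
  have hLc : (L : ℂ) ≠ 0 := by exact_mod_cast hL.ne'
  have h1 : HasDerivAt (fun u : ℂ => R (u / L) - D * ρ u) (deriv R 0 * (1 / L) - D * deriv ρ 0) 0 := by
    apply HasDerivAt.sub
    · have e0 : HasDerivAt R (deriv R 0) ((0 : ℂ) / L) := by
        rw [zero_div]
        exact (hR 0).hasDerivAt
      exact e0.comp (0 : ℂ) ((hasDerivAt_id (0 : ℂ)).div_const (L : ℂ))
    · exact ((hρ 0).hasDerivAt).const_mul D
  have hd : Differentiable ℂ (fun u : ℂ => R (u / L) - D * ρ u) :=
    (hR.comp (differentiable_id.div_const (L : ℂ))).sub (hρ.const_mul D)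
  have h2 := Complex.norm_deriv_le_of_forall_mem_sphere_norm_le (c := (0 : ℂ)) one_pos
    hd.diffContOnCl (C := B) (fun z hz => h z (by
      rw [mem_sphere_zero_iff_norm] at hz
      exact hz.le))
  rw [h1.deriv, div_one] at h2
  have e : deriv R 0 - L * (D * deriv ρ 0) = L * (deriv R 0 * (1 / L) - D * deriv ρ 0) := by
    field_simp
  rw [e, norm_mul, Complex.norm_real, Real.norm_of_nonneg hL.le]
  exact mul_le_mul_of_nonneg_left h2 hL.le

/-- the logarithm of the conductor -/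
lemma log_bounds {T τ : ℝ} (hT : 3 ≤ T) (hT2 : 2 * Real.pi * Real.log T ≤ T)
    (h1 : T / Real.log T ≤ |τ|) (h2 : |τ| ≤ 3 / 2 * T) :
    0 ≤ Real.log (|τ| / (2 * Real.pi)) + 2 * Real.eulerMascheroniConstant ∧
      Real.log (|τ| / (2 * Real.pi)) + 2 * Real.eulerMascheroniConstant ≤ Real.log T + 2 := by
  have hpi := Real.pi_gt_three
  have hT0 : 0 < T := by linarith
  have hL : 0 < Real.log T := Real.log_pos (by linarith)
  have hg1 := Real.one_half_lt_eulerMascheroniConstant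
  have hg2 := Real.eulerMascheroniConstant_lt_two_thirds
  have h3 : 2 * Real.pi ≤ |τ| := by
    refine le_trans ?_ h1
    rw [le_div_iff₀ hL]
    exact hT2
  constructor
  · have : 0 ≤ Real.log (|τ| / (2 * Real.pi)) := by
      apply Real.log_nonneg
      rw [le_div_iff₀ (by positivity)]
      linarith
    linarith
  · have : Real.log (|τ| / (2 * Real.pi)) ≤ Real.log T := by
      apply Real.log_le_log
      · apply div_pos _ (by positivity)
        linarith
      · rw [div_le_iff₀ (by positivity)]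
        nlinarith
    linarith

end SecFAux

open SecFAux in
theorem stSecF (hL : StLong) (hq : StBQ) (hf : StFact) (hm : StBotMain) (hc : StBotCrude)
    (ht : StTopLim) (hr : StRho) : StSecF := by
  intro k hk0 hk1
  obtain ⟨hρd, hρ0, hρ', C, hC1, hCa, hCP, hCρ⟩ := hr k hk0 hk1
  have hC0 : 0 < C := by linarith
  obtain ⟨Ml, hl⟩ := long_apply hL hq hf hk0 hk1
  have hev2 : ∀ᶠ T : ℝ in atTop, 2 * Real.pi * Real.log T ≤ T := by
    have := (Real.isLittleO_log_id_atTop.def (c := (2 * Real.pi)⁻¹) (by positivity))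
    filter_upwards [this, eventually_ge_atTop (1 : ℝ)] with T h1 h2
    rw [Real.norm_of_nonneg (Real.log_nonneg h2), id, Real.norm_of_nonneg (by linarith)] at h1
    have hpi := Real.pi_pos
    calc 2 * Real.pi * Real.log T ≤ 2 * Real.pi * ((2 * Real.pi)⁻¹ * T) :=
          mul_le_mul_of_nonneg_left h1 (by positivity)
      _ = T := by field_simp
  constructor
  · -- the main part
    intro η hη
    set η3 : ℝ := min η 1 / 8 with hη3
    have hmin : 0 < min η 1 := lt_min hη one_pos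
    have hη30 : 0 < η3 := by positivity
    have hη3a : 8 * η3 ≤ η := by
      have := min_le_left η 1
      rw [hη3]
      linarith
    have hη3b : η3 ≤ 1 / 8 := by
      have := min_le_right η 1
      rw [hη3]
      linarith
    set η1 : ℝ := η3 / (2 * (C + 1)) with hη1
    set η2 : ℝ := η3 / 2 with hη2
    have hη10 : 0 < η1 := by positivity
    have hη20 : 0 < η2 := by positivity
    obtain ⟨Mm, hm⟩ := hm k hk0 hk1 η1 hη10
    refine ⟨max (max Ml Mm) 3, fun M hM => ?_⟩
    have hM3 : 3 ≤ M := (le_max_right _ _).trans hM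
    obtain ⟨T₁, hT₁, h1⟩ := hl M ((le_max_left _ _).trans ((le_max_left _ _).trans hM))
    obtain ⟨T₂, hT₂, h2⟩ := hm M ((le_max_right _ _).trans ((le_max_left _ _).trans hM))
    set n := M - 2 with hn
    set PA : ℝ := ∏ i ∈ Finset.range n, aF k i with hPA
    have haF0 : ∀ i, 0 < aF k i := fun i => lt_of_lt_of_le (by positivity) (hCa i).1
    have hPA0 : 0 < PA := Finset.prod_pos fun i _ => haF0 i
    -- the precision for the top blocks
    set ε : ℝ := min 1 (η2 * PA / ((n + 1) * (C + 1) ^ n)) with hε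
    have hε0 : 0 < ε := lt_min one_pos (by positivity)
    have hε1 : ε ≤ 1 := min_le_left _ _
    have hεn : n * (C + 1) ^ n * ε ≤ η2 * PA := by
      have e1 : ε ≤ η2 * PA / ((n + 1) * (C + 1) ^ n) := min_le_right _ _
      rw [le_div_iff₀ (by positivity)] at e1
      have e2 : 0 ≤ (C + 1) ^ n * ε := by positivity
      nlinarith
    obtain ⟨T₃, hT₃, h3⟩ := unif (fun i => ht k hk0 hk1 i ε hε0) n
    have haK : 0 < aK k := aK_pos hk0 hk1.le
    -- the size of `T`
    have hev : ∀ᶠ T : ℝ in atTop, 2 * Real.pi * Real.log T ≤ T ∧ 2 / η3 ≤ Real.log T ∧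
        1 ≤ Real.log T ∧ T ^ (-(5 / 1000) : ℝ) ≤ η3 * (aK k * PA) := by
      have e1 := Real.tendsto_log_atTop.eventually_ge_atTop (2 / η3)
      have e2 := Real.tendsto_log_atTop.eventually_ge_atTop 1
      have e3 : ∀ᶠ T : ℝ in atTop, T ^ (-(5 / 1000) : ℝ) < η3 * (aK k * PA) :=
        (tendsto_rpow_neg_atTop (show (0 : ℝ) < 5 / 1000 by norm_num)).eventually_lt_const
          (by positivity)
      filter_upwards [hev2, e1, e2, e3] with T a b c d
      exact ⟨a, b, c, d.le⟩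
    obtain ⟨T₄, h4⟩ := hev.exists_forall_of_atTop
    refine ⟨max (max T₁ T₂) (max T₃ T₄), (hT₁.trans (le_max_left _ _)).trans (le_max_left _ _),
      fun T hT τ hτ1 hτ2 => ?_⟩
    have hTT₁ : T₁ ≤ T := ((le_max_left _ _).trans (le_max_left _ _)).trans hT
    have hTT₂ : T₂ ≤ T := ((le_max_right _ _).trans (le_max_left _ _)).trans hT
    have hTT₃ : T₃ ≤ T := ((le_max_left _ _).trans (le_max_right _ _)).trans hT
    have hTT₄ : T₄ ≤ T := ((le_max_right _ _).trans (le_max_right _ _)).trans hT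
    have hT3 : 3 ≤ T := hT₁.trans hTT₁
    obtain ⟨hTa, hTb, hTc, hTd⟩ := h4 T hTT₄
    set L := Real.log T with hLdef
    have hL0 : 0 < L := by linarith
    obtain ⟨R, hR, hRe, hRE⟩ := h1 T hTT₁ (Finset.range (JJ T + 1)) ∅
    have hEG := hRE τ hτ1 hτ2
    obtain ⟨hΛ0, hΛ1⟩ := log_bounds hT3 hTa hτ1 hτ2
    set Λ := Real.log (|τ| / (2 * Real.pi)) + 2 * Real.eulerMascheroniConstant with hΛ
    set D0 : ℝ := aK k * lM T M ^ (k ^ 2 - 1) with hD0
    have hlM : 0 < lM T M := by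
      unfold lM
      positivity
    have hD00 : 0 < D0 := mul_pos haK (Real.rpow_pos_of_pos hlM _)
    have hclose : ∀ u : ℂ, ‖u‖ ≤ 1 → ‖R (u / L) - (D0 : ℂ) * rhoF k M u‖ ≤ D0 * PA * η3 := by
      intro u hu
      have hw : ‖u / (L : ℂ)‖ ≤ 1 / L := by
        rw [norm_div, Complex.norm_real, Real.norm_of_nonneg hL0.le]
        exact div_le_div_of_nonneg_right hu hL0.le
      have hE := h2 T hTT₂ (u / L) hw
      have hB := prod_close (a := fun i => ETo T k (u / L) i)
        (b := fun i => PhF k i (vv (tb (i + 1)) (tb i) u)) hC0.le hε0.le hε1 n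
        (fun i _ => hCP i u hu) (fun i hi => (h3 T hTT₃ i hi).1 u hu)
      obtain ⟨-, -, hB3⟩ := hB
      have hrho : rhoF k M u = ∏ i ∈ Finset.range n, PhF k i (vv (tb (i + 1)) (tb i) u) := rfl
      rw [← hrho] at hB3
      have hB4 := hB3.trans hεn
      set E := ∏ j ∈ Finset.range (JJ T + 1), EBo T M k (Finset.range (JJ T + 1)) ∅ (u / L) j
        with hEdef
      set B := ∏ i ∈ Finset.range n, ETo T k (u / L) i with hBdef
      rw [hRe (u / L) hw]
      have hBn : ‖B‖ ≤ (C + 1) * PA := by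
        have e1 : B = (B - rhoF k M u) + rhoF k M u := by ring
        rw [e1]
        refine (norm_add_le _ _).trans ?_
        have e2 := hCρ M u hu
        have e3 : η2 * PA ≤ 1 * PA := by
          apply mul_le_mul_of_nonneg_right _ hPA0.le
          rw [hη2]
          linarith
        calc ‖B - rhoF k M u‖ + ‖rhoF k M u‖ ≤ η2 * PA + C * PA := add_le_add hB4 e2
          _ ≤ 1 * PA + C * PA := by linarith
          _ = _ := by ring
      have e1 : E * B - (D0 : ℂ) * rhoF k M u = (E - (D0 : ℂ)) * B +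
          (D0 : ℂ) * (B - rhoF k M u) := by ring
      rw [e1]
      refine (norm_add_le _ _).trans ?_
      rw [norm_mul, norm_mul, Complex.norm_real, Real.norm_of_nonneg hD00.le]
      have e2 : ‖E - (D0 : ℂ)‖ * ‖B‖ ≤ (η1 * D0) * ((C + 1) * PA) :=
        mul_le_mul hE hBn (norm_nonneg _) (by positivity)
      have e3 : D0 * ‖B - rhoF k M u‖ ≤ D0 * (η2 * PA) := mul_le_mul_of_nonneg_left hB4 hD00.le
      have e4 : (η1 * D0) * ((C + 1) * PA) + D0 * (η2 * PA) = D0 * PA * η3 := by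
        rw [hη1, hη2]
        field_simp
        ring
      linarith
    have hR0 : (R 0).re ≤ D0 * PA * (1 + η3) := by
      have e1 := hclose 0 (by simp)
      rw [zero_div, hρ0 M] at e1
      have e2 := (Complex.abs_re_le_norm _).trans e1
      rw [Complex.sub_re, ← Complex.ofReal_mul, Complex.ofReal_re] at e2
      have e3 := (abs_le.1 e2).2
      have e4 : D0 * PA * (1 + η3) = D0 * PA + D0 * PA * η3 := by ring
      rw [e4]
      linarith
    have hR1 : (deriv R 0).re ≤ L * (D0 * (2 * (1 - k) * tb 0 * PA)) + L * (D0 * PA * η3) := by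
      have e1 := cauchy hR (hρd M) hL0 hclose
      have e2 := (Complex.abs_re_le_norm _).trans e1
      rw [Complex.sub_re] at e2
      have e3 : ((L : ℂ) * ((D0 : ℂ) * deriv (rhoF k M) 0)).re =
          L * (D0 * (deriv (rhoF k M) 0).re) := by
        rw [Complex.re_ofReal_mul, Complex.re_ofReal_mul]
      rw [e3] at e2
      have e4 := (abs_le.1 e2).2
      have e5 : L * (D0 * (deriv (rhoF k M) 0).re) ≤ L * (D0 * (2 * (1 - k) * tb 0 * PA)) :=
        mul_le_mul_of_nonneg_left (mul_le_mul_of_nonneg_left (hρ' M) hD00.le) hL0.le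
      linarith
    have hDL : aK k ≤ D0 * L := by
      have e1 : 1 ≤ lM T M ^ (k ^ 2 - 1) * L := by
        have hk2 : k ^ 2 ≤ 1 := by nlinarith
        have hM3' : (3 : ℝ) ≤ M := by exact_mod_cast hM3
        have hg := Real.eulerMascheroniConstant_lt_two_thirds
        rw [lM, Real.mul_rpow (Real.exp_nonneg _) hL0.le, ← Real.exp_mul, mul_assoc]
        have e2 : 1 ≤ Real.exp ((Real.eulerMascheroniConstant - M) * (k ^ 2 - 1)) := by
          apply Real.one_le_exp
          nlinarith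
        have e3 : 1 ≤ L ^ (k ^ 2 - 1) * L := by
          have : L ^ (k ^ 2 - 1) * L = L ^ (k ^ 2) := by
            rw [← Real.rpow_add_one hL0.ne']
            congr 1
            ring
          rw [this]
          exact Real.one_le_rpow hTc (by positivity)
        calc (1 : ℝ) = 1 * 1 := by ring
          _ ≤ _ := mul_le_mul e2 e3 zero_le_one (by linarith)
      calc aK k = aK k * 1 := by ring
        _ ≤ aK k * (lM T M ^ (k ^ 2 - 1) * L) := mul_le_mul_of_nonneg_left e1 haK.le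
        _ = D0 * L := by rw [hD0]; ring
    have hsmall : T ^ (-(5 / 1000) : ℝ) ≤ η3 * (D0 * L * PA) := by
      refine hTd.trans (mul_le_mul_of_nonneg_left ?_ hη30.le)
      exact mul_le_mul_of_nonneg_right hDL hPA0.le
    have hre : (R 0 * ((Λ : ℝ) : ℂ) + deriv R 0).re = (R 0).re * Λ + (deriv R 0).re := by
      rw [Complex.add_re, mul_comm (R 0), Complex.re_ofReal_mul, mul_comm Λ]
    rw [hre] at hEG
    have h5 : (R 0).re * Λ ≤ D0 * PA * (1 + η3) * (L + 2) :=
      (mul_le_mul_of_nonneg_right hR0 hΛ0).trans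
        (mul_le_mul_of_nonneg_left hΛ1 (by positivity))
    have h6 : L + 2 ≤ L * (1 + η3) := by
      rw [div_le_iff₀ hη30] at hTb
      linarith
    have h7 : D0 * PA * (1 + η3) * (L + 2) ≤ D0 * PA * (1 + η3) * (L * (1 + η3)) :=
      mul_le_mul_of_nonneg_left h6 (by positivity)
    refine hEG.trans ?_
    have hX : 0 < D0 * L * PA := by positivity
    have h8 : D0 * PA * (1 + η3) * (L * (1 + η3)) + (L * (D0 * (2 * (1 - k) * tb 0 * PA)) +
        L * (D0 * PA * η3)) + η3 * (D0 * L * PA) =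
        D0 * L * PA * ((1 + η3) ^ 2 + 2 * (1 - k) * tb 0 + 2 * η3) := by ring
    have h9 : (1 + η3) ^ 2 + 2 * (1 - k) * tb 0 + 2 * η3 ≤ 1 + 2 * (1 - k) * tb 0 + η := by
      nlinarith
    have h10 := mul_le_mul_of_nonneg_left h9 hX.le
    calc (R 0).re * Λ + (deriv R 0).re + T ^ (-(5 / 1000) : ℝ) ≤
        D0 * L * PA * ((1 + η3) ^ 2 + 2 * (1 - k) * tb 0 + 2 * η3) := by
          rw [← h8]
          linarith
      _ ≤ D0 * L * PA * (1 + 2 * (1 - k) * tb 0 + η) := h10
  · -- the crude part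
    obtain ⟨Cb, hCb, Mc, hc⟩ := hc k hk0 hk1
    refine ⟨Cb + C + 2, 5 / 1000, by positivity, by norm_num, max (max Ml Mc) 3, fun M hM => ?_⟩
    have hM3 : 3 ≤ M := (le_max_right _ _).trans hM
    have hM3' : (3 : ℝ) ≤ M := by exact_mod_cast hM3
    obtain ⟨T₁, hT₁, h1⟩ := hl M ((le_max_left _ _).trans ((le_max_left _ _).trans hM))
    obtain ⟨T₂, hT₂, h2⟩ := hc M ((le_max_right _ _).trans ((le_max_left _ _).trans hM))
    set n := M - 2 with hn
    obtain ⟨T₃, hT₃, h3⟩ := unif (fun i => ht k hk0 hk1 i 1 one_pos) n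
    have hev : ∀ᶠ T : ℝ in atTop, 2 * Real.pi * Real.log T ≤ T ∧ 1 ≤ Real.log T := by
      have e2 := Real.tendsto_log_atTop.eventually_ge_atTop 1
      filter_upwards [hev2, e2] with T a b
      exact ⟨a, b⟩
    obtain ⟨T₄, h4⟩ := hev.exists_forall_of_atTop
    refine ⟨max (max T₁ T₂) (max T₃ T₄), (hT₁.trans (le_max_left _ _)).trans (le_max_left _ _),
      fun T hT τ hτ1 hτ2 g h hgh => ?_⟩
    have hTT₁ : T₁ ≤ T := ((le_max_left _ _).trans (le_max_left _ _)).trans hT
    have hTT₂ : T₂ ≤ T := ((le_max_right _ _).trans (le_max_left _ _)).trans hT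
    have hTT₃ : T₃ ≤ T := ((le_max_left _ _).trans (le_max_right _ _)).trans hT
    have hTT₄ : T₄ ≤ T := ((le_max_right _ _).trans (le_max_right _ _)).trans hT
    have hT3 : 3 ≤ T := hT₁.trans hTT₁
    obtain ⟨hTa, hTc⟩ := h4 T hTT₄
    set L := Real.log T with hLdef
    have hL0 : 0 < L := by linarith
    obtain ⟨R, hR, hRe, hRE⟩ := h1 T hTT₁ g h
    have hEG := hRE τ hτ1 hτ2
    obtain ⟨hΛ0, hΛ1⟩ := log_bounds hT3 hTa hτ1 hτ2
    set Λ := Real.log (|τ| / (2 * Real.pi)) + 2 * Real.eulerMascheroniConstant with hΛ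
    have hss : 0 ≤ ∏ j ∈ h, ss M (JJ T) j := Finset.prod_nonneg fun j _ => (Real.exp_pos _).le
    set Sp := ∏ j ∈ h, ss M (JJ T) j with hSp
    set Bd : ℝ := Real.exp (Cb * M) * L ^ (k ^ 2 - 1) * Sp * Real.exp (C * M) with hBd
    have hLk : 0 < L ^ (k ^ 2 - 1) := Real.rpow_pos_of_pos hL0 _
    have hBd0 : 0 ≤ Bd := by positivity
    have hclose : ∀ u : ℂ, ‖u‖ ≤ 1 → ‖R (u / L) - (0 : ℂ) * (fun _ : ℂ => (0 : ℂ)) u‖ ≤ Bd := by
      intro u hu
      have hw : ‖u / (L : ℂ)‖ ≤ 1 / L := by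
        rw [norm_div, Complex.norm_real, Real.norm_of_nonneg hL0.le]
        exact div_le_div_of_nonneg_right hu hL0.le
      have hE := h2 T hTT₂ g h hgh (u / L) hw
      have hB := (prod_close (a := fun i => ETo T k (u / L) i)
        (b := fun i => PhF k i (vv (tb (i + 1)) (tb i) u)) hC0.le zero_le_one le_rfl n
        (fun i _ => hCP i u hu) (fun i hi => (h3 T hTT₃ i hi).1 u hu)).1
      have hB' : ‖∏ i ∈ Finset.range n, ETo T k (u / L) i‖ ≤ Real.exp (C * M) := by
        refine hB.trans ?_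
        have e1 : (C + 1) ^ n ≤ Real.exp C ^ n :=
          pow_le_pow_left₀ (by positivity) (Real.add_one_le_exp C) n
        refine e1.trans ?_
        rw [← Real.exp_nat_mul]
        apply Real.exp_le_exp.2
        rw [mul_comm]
        apply mul_le_mul_of_nonneg_left _ hC0.le
        have : n ≤ M := Nat.sub_le M 2
        exact_mod_cast this
      rw [zero_mul, sub_zero, hRe (u / L) hw, norm_mul]
      exact mul_le_mul hE hB' (norm_nonneg _) (by positivity)
    have hR0 : (R 0).re ≤ Bd := by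
      have e1 := hclose 0 (by simp)
      rw [zero_div, zero_mul, sub_zero] at e1
      exact (Complex.re_le_norm _).trans e1
    have hR1 : (deriv R 0).re ≤ L * Bd := by
      have e1 := cauchy hR (differentiable_const (0 : ℂ)) hL0 hclose
      rw [zero_mul, mul_zero, sub_zero] at e1
      exact (Complex.re_le_norm _).trans e1
    have hre : (R 0 * ((Λ : ℝ) : ℂ) + deriv R 0).re = (R 0).re * Λ + (deriv R 0).re := by
      rw [Complex.add_re, mul_comm (R 0), Complex.re_ofReal_mul, mul_comm Λ]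
    rw [hre] at hEG
    have h5 : (R 0).re * Λ ≤ Bd * (L + 2) :=
      (mul_le_mul_of_nonneg_right hR0 hΛ0).trans (mul_le_mul_of_nonneg_left hΛ1 hBd0)
    have h6 : Bd * (L + 2) + L * Bd ≤ Real.exp ((Cb + C + 2) * M) * L ^ (k ^ 2) * Sp := by
      have e1 : L ^ (k ^ 2 - 1) * L = L ^ (k ^ 2) := by
        rw [← Real.rpow_add_one hL0.ne']
        congr 1
        ring
      have e2 : (4 : ℝ) ≤ Real.exp (2 * M) := by
        have := Real.add_one_le_exp (2 * (M : ℝ))
        linarith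
      have e3 : Real.exp ((Cb + C + 2) * M) =
          Real.exp (Cb * M) * Real.exp (C * M) * Real.exp (2 * M) := by
        rw [← Real.exp_add, ← Real.exp_add]
        congr 1
        ring
      calc Bd * (L + 2) + L * Bd ≤ Bd * (4 * L) := by nlinarith
        _ = (Real.exp (Cb * M) * Real.exp (C * M) * (L ^ (k ^ 2 - 1) * L) * Sp) * 4 := by
            rw [hBd]
            ring
        _ ≤ (Real.exp (Cb * M) * Real.exp (C * M) * (L ^ (k ^ 2 - 1) * L) * Sp) *
              Real.exp (2 * M) := mul_le_mul_of_nonneg_left e2 (by positivity)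
        _ = _ := by
            rw [e1, e3]
            ring
    calc _ ≤ (R 0).re * Λ + (deriv R 0).re + T ^ (-(5 / 1000) : ℝ) := hEG
      _ ≤ _ := by linarith

end K5
end Pool.Agent.Lib.MP_973905_nt
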