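import Pool.Agent.Lib.MP_973905_nt.K5.Stmts
import Pool.Agent.Lib.MP_973905_nt.Core2

set_option autoImplicit false

/-! (B5) The limits of the factors of the top blocks. -/

namespace Pool.Agent.Lib.MP_973905_nt
namespace K5

open MeasureTheory ProbabilityTheory Complex Filter Topology K1

namespace TLaux

/-! ### The exponents `tb` -/

lemma tb_pos (i : ℕ) : 0 < tb i := by
  unfold tb
  split_ifs <;> exact Real.exp_pos _

lemma tb_le_one (i : ℕ) : tb i ≤ 1 := by
  unfold tb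
  split_ifs
  · exact Real.exp_le_one_iff.mpr (by norm_num)
  · refine Real.exp_le_one_iff.mpr ?_
    have : (0 : ℝ) ≤ i := Nat.cast_nonneg i
    linarith

lemma log_tb (i : ℕ) : Real.log (tb i / tb (i + 1)) = Vv i := by
  unfold tb Vv
  rw [if_neg (Nat.succ_ne_zero i)]
  split_ifs with h
  · rw [← Real.exp_sub, Real.log_exp, h]
    norm_num
  · rw [← Real.exp_sub, Real.log_exp]
    push_cast
    ring

lemma Vv_pos (i : ℕ) : 0 < Vv i := by
  unfold Vv
  split_ifs <;> norm_num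

lemma tb_lt (i : ℕ) : tb (i + 1) < tb i := by
  have h := log_tb i
  have h2 := Vv_pos i
  by_contra hcon
  push Not at hcon
  have h3 : tb i / tb (i + 1) ≤ 1 := (div_le_one (tb_pos _)).mpr hcon
  have h4 := Real.log_nonpos (div_pos (tb_pos _) (tb_pos _)).le h3
  linarith

/-! ### Linearity -/

variable {S : Finset ℕ}

/-- the power of the real part -/
noncomputable def Y (S : Finset ℕ) (s : ℝ) (j : ℕ) (f : ℕ → ℂ) : ℝ :=
  ((∑ p ∈ S, tw (1 / 2) f p).re - s) ^ j

lemma bs_Y (S : Finset ℕ) (s : ℝ) (j : ℕ) : BS S (Y S s j) := by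
  obtain ⟨h1, C, h2⟩ := bs_sum (S := S) S (F := fun p f => tw (1 / 2) f p)
    (fun p _ => bs_tw S (1 / 2) p)
  refine ⟨((Complex.continuous_re.comp h1).sub continuous_const).pow j, (C + |s|) ^ j,
    fun ω => ?_⟩
  unfold Y
  rw [norm_pow]
  refine pow_le_pow_left₀ (norm_nonneg _) ?_ j
  refine (norm_sub_le _ _).trans (add_le_add ?_ (le_of_eq (Real.norm_eq_abs s)))
  rw [Real.norm_eq_abs]
  exact (Complex.abs_re_le_norm _).trans (h2 ω)

lemma bs_ofReal {F : (ℕ → ℂ) → ℝ} (hF : BS S F) : BS S (fun f => ((F f : ℝ) : ℂ)) := by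
  obtain ⟨h1, C, h2⟩ := hF
  refine ⟨Complex.continuous_ofReal.comp h1, C, fun ω => ?_⟩
  rw [Complex.norm_real]
  exact h2 ω

lemma ES_sum {E : Type*} [NormedAddCommGroup E] [NormedSpace ℝ E] {ι : Type*} (s : Finset ι)
    (F : ι → (ℕ → ℂ) → E) (h : ∀ i ∈ s, BS S (F i)) :
    ES S (fun f => ∑ i ∈ s, F i f) = ∑ i ∈ s, ES S (F i) :=
  integral_finsetSum s fun i hi => (h i hi).integrable

lemma PS_prime {a b : ℝ} {p : ℕ} (hp : p ∈ PS a b) : p.Prime := (Finset.mem_filter.mp hp).2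

/-- the product of the two Euler products -/
noncomputable def ZP (S : Finset ℕ) (w : ℂ) (f : ℕ → ℂ) : ℂ :=
  ZZ S (tw (1 / 2 + w) f) * (starRingEnd ℂ) (ZZ S (tw (1 / 2 + (starRingEnd ℂ) w) f))

lemma bs_ZP (hS : ∀ p ∈ S, p.Prime) {w : ℂ} (hw : ‖w‖ ≤ 1 / 4) : BS S (ZP S w) := by
  have h1 : |w.re| ≤ 1 / 4 := (Complex.abs_re_le_norm w).trans hw
  have h2 := (abs_le.mp h1).1
  refine (bs_ZZ hS ?_).mul (bs_ZZ hS ?_).conj
  · simp only [Complex.add_re]
    norm_num
    linarith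
  · simp only [Complex.add_re, Complex.conj_re]
    norm_num
    linarith

/-- the Euler correction -/
noncomputable def PR (S : Finset ℕ) (w : ℂ) : ℂ := ∏ p ∈ S, (1 - (p : ℂ) ^ (-(1 + w + w)))

lemma ES_lin (hS : ∀ p ∈ S, p.Prime) {w : ℂ} (hw : ‖w‖ ≤ 1 / 4) (s : ℝ) (d : ℕ) (a : ℕ → ℝ) :
    ES S (fun f => ZP S w f * ((∑ j ∈ Finset.range d, a j * Y S s j f : ℝ) : ℂ)) =
      ∑ j ∈ Finset.range d, (a j : ℂ) * ES S (fun f => ZP S w f * ((Y S s j f : ℝ) : ℂ)) := by
  have h1 : (fun f => ZP S w f * ((∑ j ∈ Finset.range d, a j * Y S s j f : ℝ) : ℂ)) =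
      fun f => ∑ j ∈ Finset.range d, (a j : ℂ) * (ZP S w f * ((Y S s j f : ℝ) : ℂ)) := by
    funext f
    rw [Complex.ofReal_sum, Finset.mul_sum]
    refine Finset.sum_congr rfl fun j _ => ?_
    push_cast
    ring
  rw [h1, ES_sum _ _ fun j _ =>
    (bs_const S (a j : ℂ)).mul ((bs_ZP hS hw).mul (bs_ofReal (bs_Y S s j)))]
  refine Finset.sum_congr rfl fun j _ => ?_
  exact integral_const_mul _ _

lemma ES_linR (s : ℝ) (d : ℕ) (a : ℕ → ℝ) :
    ES S (fun f => ∑ j ∈ Finset.range d, a j * Y S s j f) =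
      ∑ j ∈ Finset.range d, a j * ES S (Y S s j) := by
  rw [ES_sum _ _ fun j _ => (bs_const S (a j)).mul_real (bs_Y S s j)]
  refine Finset.sum_congr rfl fun j _ => ?_
  exact integral_const_mul _ _

lemma key (h : StGaussBlock) {lo hi : ℝ} (s : ℝ) (h0 : 0 < lo) (h1 : lo < hi) (h2 : hi ≤ 1)
    (d : ℕ) (a : ℕ → ℝ) {ε : ℝ} (hε : 0 < ε) : ∃ T₀ : ℝ, 3 ≤ T₀ ∧ ∀ T, T₀ ≤ T → ∀ S : Finset ℕ,
    S = PS (Real.exp (lo * Real.log T)) (Real.exp (hi * Real.log T)) →
    (∀ u : ℂ, ‖u‖ ≤ 1 → ‖ES S (fun f => ZP S (u / Real.log T) f *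
        ((∑ j ∈ Finset.range d, a j * Y S s j f : ℝ) : ℂ)) * PR S (u / Real.log T) -
      ∑ j ∈ Finset.range d, (a j : ℂ) *
        mom j (vv lo hi u - s) ((Real.log (hi / lo) / 2 : ℝ) : ℂ)‖ ≤ ε) ∧
    |ES S (fun f => ∑ j ∈ Finset.range d, a j * Y S s j f) -
      ∑ j ∈ Finset.range d, a j * mom j (-s) (Real.log (hi / lo) / 2)| ≤ ε := by
  set A : ℝ := 1 + ∑ j ∈ Finset.range d, |a j| with hA
  have hA1 : 1 ≤ A := by
    have : 0 ≤ ∑ j ∈ Finset.range d, |a j| := Finset.sum_nonneg fun j _ => abs_nonneg _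
    linarith
  have hε' : 0 < ε / A := by positivity
  have hAe : (∑ j ∈ Finset.range d, |a j|) * (ε / A) ≤ ε := by
    have : (∑ j ∈ Finset.range d, |a j|) ≤ A := by linarith
    calc (∑ j ∈ Finset.range d, |a j|) * (ε / A) ≤ A * (ε / A) :=
          mul_le_mul_of_nonneg_right this hε'.le
      _ = ε := by field_simp
  choose T₁ hT₁ hT₂ using fun j : ℕ => h lo hi s h0 h1 h2 j (ε / A) hε'
  refine ⟨3 + Real.exp 4 + ∑ j ∈ Finset.range d, T₁ j, ?_, ?_⟩
  · have : 0 ≤ ∑ j ∈ Finset.range d, T₁ j := Finset.sum_nonneg fun j _ => by linarith [hT₁ j]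
    have := Real.exp_pos 4
    linarith
  intro T hT S hS
  have hsum : 0 ≤ ∑ j ∈ Finset.range d, T₁ j := Finset.sum_nonneg fun j _ => by linarith [hT₁ j]
  have hTj : ∀ j ∈ Finset.range d, T₁ j ≤ T := by
    intro j hj
    have h3 := Finset.single_le_sum (f := T₁) (fun i _ => by linarith [hT₁ i]) hj
    have := Real.exp_pos 4
    linarith
  have hlog : 4 ≤ Real.log T := by
    have h3 : Real.exp 4 ≤ T := by linarith
    rw [Real.le_log_iff_exp_le (by linarith [Real.exp_pos 4])]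
    exact h3
  have hprime : ∀ p ∈ S, p.Prime := by
    intro p hp
    rw [hS] at hp
    exact PS_prime hp
  constructor
  · intro u hu
    have hw : ‖u / (Real.log T : ℂ)‖ ≤ 1 / 4 := by
      rw [norm_div, Complex.norm_real, Real.norm_eq_abs, abs_of_pos (by linarith)]
      rw [div_le_div_iff₀ (by linarith) (by norm_num)]
      linarith
    rw [ES_lin hprime hw, Finset.sum_mul, ← Finset.sum_sub_distrib]
    refine (norm_sum_le _ _).trans (le_trans ?_ hAe)
    rw [Finset.sum_mul]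
    refine Finset.sum_le_sum fun j hj => ?_
    have h3 := (hT₂ j T (hTj j hj) S hS).1 u hu
    have e : (a j : ℂ) * ES S (fun f => ZP S (u / Real.log T) f * ((Y S s j f : ℝ) : ℂ)) *
        PR S (u / Real.log T) - (a j : ℂ) *
          mom j (vv lo hi u - s) ((Real.log (hi / lo) / 2 : ℝ) : ℂ) =
        (a j : ℂ) * (ES S (fun f => ZP S (u / Real.log T) f * ((Y S s j f : ℝ) : ℂ)) *
        PR S (u / Real.log T) - mom j (vv lo hi u - s) ((Real.log (hi / lo) / 2 : ℝ) : ℂ)) := by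
      ring
    rw [e, norm_mul, Complex.norm_real, Real.norm_eq_abs]
    exact mul_le_mul_of_nonneg_left h3 (abs_nonneg _)
  · rw [ES_linR, ← Finset.sum_sub_distrib]
    refine (Finset.abs_sum_le_sum_abs _ _).trans (le_trans ?_ hAe)
    rw [Finset.sum_mul]
    refine Finset.sum_le_sum fun j hj => ?_
    have h3 := (hT₂ j T (hTj j hj) S hS).2
    rw [← mul_sub, abs_mul]
    exact mul_le_mul_of_nonneg_left h3 (abs_nonneg _)

end TLaux

open TLaux in
theorem stTopLim (h : StGaussBlock) : StTopLim := by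
  intro k hk hk1 i ε hε
  set s : ℝ := (1 - k) * Vv i with hs
  set aF' : ℕ → ℝ := fun j => (-(2 * (1 - k))) ^ j / j.factorial +
    (if j = dg i then eta (1 - k) (dg i) * 2 ^ dg i else 0) with haF
  set aG' : ℕ → ℝ := fun j => (2 * k) ^ j / j.factorial +
    (if j = dg i then eta k (dg i) * 2 ^ dg i else 0) with haG
  obtain ⟨T₁, hT₁, h1⟩ := key h s (tb_pos (i + 1)) (tb_lt i) (tb_le_one i) (dg i + 1) aF' hε
  obtain ⟨T₂, hT₂, h2⟩ := key h s (tb_pos (i + 1)) (tb_lt i) (tb_le_one i) (dg i + 1) aG' hε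
  refine ⟨max T₁ T₂, le_trans hT₁ (le_max_left _ _), fun T hT => ⟨fun u hu => ?_, ?_⟩⟩
  · have h3 := (h1 T (le_trans (le_max_left _ _) hT) (UB T i) rfl).1 u hu
    have e1 : ∀ f : ℕ → ℂ, pf k i (Xb T i (tw (1 / 2) f)) =
        ∑ j ∈ Finset.range (dg i + 1), aF' j * Y (UB T i) s j f := by
      intro f
      unfold pf Tp
      rw [haF]
      simp only [add_mul, Finset.sum_add_distrib, ite_mul, zero_mul, Finset.sum_ite_eq',
        Finset.mem_range, Nat.lt_succ_self, if_true]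
      congr 1
      · refine Finset.sum_congr rfl fun j _ => ?_
        unfold Y Xb
        rw [← neg_mul, mul_pow]
        ring
      · unfold Y Xb
        rw [mul_pow]
        ring
    have e2 : ETo T k (u / Real.log T) i = ES (UB T i) (fun f => ZP (UB T i) (u / Real.log T) f *
        ((∑ j ∈ Finset.range (dg i + 1), aF' j * Y (UB T i) s j f : ℝ) : ℂ)) *
          PR (UB T i) (u / Real.log T) := by
      unfold ETo
      simp only [e1]
      rfl
    have e3 : PhF k i (vv (tb (i + 1)) (tb i) u) = ∑ j ∈ Finset.range (dg i + 1), (aF' j : ℂ) *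
        mom j (vv (tb (i + 1)) (tb i) u - s) ((Real.log (tb i / tb (i + 1)) / 2 : ℝ) : ℂ) := by
      rw [log_tb]
      unfold PhF
      rw [haF]
      simp only [Complex.ofReal_add, add_mul, Finset.sum_add_distrib, apply_ite Complex.ofReal,
        Complex.ofReal_zero, ite_mul, zero_mul, Finset.sum_ite_eq', Finset.mem_range,
        Nat.lt_succ_self, if_true]
      congr 1
      refine Finset.sum_congr rfl fun j _ => ?_
      simp only [hs]
      push_cast
      rfl
    rw [e2, e3]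
    exact h3
  · have h3 := (h2 T (le_trans (le_max_right _ _) hT) (UB T i) rfl).2
    have e1 : ∀ f : ℕ → ℂ, pg k i (Xb T i (tw (1 / 2) f)) =
        ∑ j ∈ Finset.range (dg i + 1), aG' j * Y (UB T i) s j f := by
      intro f
      unfold pg Tp
      rw [haG]
      simp only [add_mul, Finset.sum_add_distrib, ite_mul, zero_mul, Finset.sum_ite_eq',
        Finset.mem_range, Nat.lt_succ_self, if_true]
      congr 1
      · refine Finset.sum_congr rfl fun j _ => ?_
        unfold Y Xb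
        rw [mul_pow]
        ring
      · unfold Y Xb
        rw [mul_pow]
        ring
    have e3 : aG k i = ∑ j ∈ Finset.range (dg i + 1), aG' j *
        mom j (-s) (Real.log (tb i / tb (i + 1)) / 2) := by
      rw [log_tb]
      unfold aG
      rw [haG]
      simp only [add_mul, Finset.sum_add_distrib, ite_mul, zero_mul, Finset.sum_ite_eq',
        Finset.mem_range, Nat.lt_succ_self, if_true]
      rfl
    simp only [e1]
    rw [e3]
    exact h3

end K5
end Pool.Agent.Lib.MP_973905_nt
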