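import Pool.Agent.Lib.MP_973905_nt.K5.Stmts
import Pool.Agent.Lib.MP_973905_nt.Zeta

/-! Module (A7) of K5: the main term of the long twisted second moment. -/

namespace Pool.Agent.Lib.MP_973905_nt
namespace K5
namespace Back

open MeasureTheory ProbabilityTheory Complex Filter Topology K1

/-! ### The double pole on a rectangle -/

lemma int_inv_sq (c d : ℂ) (hd : d ≠ 0) (hne : ∀ t : ℝ, c + t * d ≠ 0) (u v : ℝ) :
    ∫ t : ℝ in u..v, 1 / (c + t * d) ^ 2 = (1 / d) * ((c + u * d)⁻¹ - (c + v * d)⁻¹) := by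
  have h1 : ∀ t : ℝ, HasDerivAt (fun t : ℝ => -(1 / d) * (c + t * d)⁻¹) (1 / (c + t * d) ^ 2) t := by
    intro t
    have h2 : HasDerivAt (fun t : ℝ => c + (t : ℂ) * d) (1 * d) t :=
      ((Complex.ofRealCLM.hasDerivAt (x := t)).mul_const d).const_add c
    have h3 := (h2.fun_inv (hne t)).const_mul (-(1 / d))
    have h5 := hne t
    have h4 : -(1 / d) * (-(1 * d) / (c + (t : ℂ) * d) ^ 2) = 1 / (c + (t : ℂ) * d) ^ 2 := by
      field_simp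
    rw [h4] at h3
    exact h3
  rw [intervalIntegral.integral_eq_sub_of_hasDerivAt (fun t _ => h1 t)]
  · ring
  · apply Continuous.intervalIntegrable
    refine Continuous.div continuous_const (by fun_prop) fun t => ?_
    exact pow_ne_zero 2 (hne t)

lemma split {H : ℂ → ℂ} (hH : Differentiable ℂ H) {g : ℝ → ℂ} (hg : Continuous g)
    (hne : ∀ t, g t ≠ 0) (u v : ℝ) :
    ∫ t : ℝ in u..v, dslope H 0 (g t) / g t =
      (∫ t : ℝ in u..v, H (g t) / (g t) ^ 2) - H 0 * ∫ t : ℝ in u..v, 1 / (g t) ^ 2 := by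
  rw [← intervalIntegral.integral_const_mul, ← intervalIntegral.integral_sub]
  · apply intervalIntegral.integral_congr
    intro t _
    have h1 := hne t
    simp only
    rw [dslope_of_ne _ h1, slope_def_field]
    field_simp
    ring
  · apply Continuous.intervalIntegrable
    exact Continuous.div (hH.continuous.comp hg) (by fun_prop) fun t => pow_ne_zero 2 (hne t)
  · apply Continuous.intervalIntegrable
    exact Continuous.mul continuous_const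
      (Continuous.div continuous_const (by fun_prop) fun t => pow_ne_zero 2 (hne t))

lemma re_ne {z : ℂ} (h : z.re ≠ 0) : z ≠ 0 := fun h' => h (by rw [h', Complex.zero_re])
lemma im_ne {z : ℂ} (h : z.im ≠ 0) : z ≠ 0 := fun h' => h (by rw [h', Complex.zero_im])

/-- Cauchy's formula with a double pole -/
lemma dbl (h0 : StRect) {H : ℂ → ℂ} (hH : Differentiable ℂ H) {a b V : ℝ} (ha : 0 < a)
    (hb : 0 < b) (hV : 0 < V) :
    (∫ y : ℝ in (-V)..V, H ((b : ℂ) + y * I) / ((b : ℂ) + y * I) ^ 2) =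
      ((2 * Real.pi : ℝ) : ℂ) * deriv H 0 +
      (∫ y : ℝ in (-V)..V, H (-(a : ℂ) + y * I) / (-(a : ℂ) + y * I) ^ 2) +
      I * ((∫ x : ℝ in (-a)..b, H ((x : ℂ) - V * I) / ((x : ℂ) - V * I) ^ 2) -
        ∫ x : ℝ in (-a)..b, H ((x : ℂ) + V * I) / ((x : ℂ) + V * I) ^ 2) := by
  have hd : Differentiable ℂ (dslope H 0) := by
    have h1 := (differentiableOn_dslope (f := H) (c := 0) (s := Set.univ) Filter.univ_mem).2
      hH.differentiableOn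
    exact differentiableOn_univ.1 h1
  have h1 := h0 (dslope H 0) a b V ha hb hV hd.differentiableOn
  have n1 : ∀ y : ℝ, (b : ℂ) + y * I ≠ 0 := fun y => re_ne (by simp; exact hb.ne')
  have n2 : ∀ y : ℝ, -(a : ℂ) + y * I ≠ 0 := fun y => re_ne (by simp; exact ha.ne')
  have n3 : ∀ x : ℝ, (x : ℂ) - V * I ≠ 0 := fun y => im_ne (by simp; exact hV.ne')
  have n4 : ∀ x : ℝ, (x : ℂ) + V * I ≠ 0 := fun y => im_ne (by simp; exact hV.ne')
  rw [dslope_same, split hH (g := fun y : ℝ => (b : ℂ) + y * I) (by fun_prop) n1,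
    split hH (g := fun y : ℝ => -(a : ℂ) + y * I) (by fun_prop) n2,
    split hH (g := fun x : ℝ => (x : ℂ) - V * I) (by fun_prop) n3,
    split hH (g := fun x : ℝ => (x : ℂ) + V * I) (by fun_prop) n4] at h1
  have i1 := int_inv_sq (b : ℂ) I I_ne_zero n1 (-V) V
  have i2 := int_inv_sq (-(a : ℂ)) I I_ne_zero n2 (-V) V
  have i3 := int_inv_sq (-(V * I)) 1 one_ne_zero
    (fun t => by have := n3 t; intro h; apply this; rw [← h]; ring) (-a) b
  have i4 := int_inv_sq (V * I) 1 one_ne_zero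
    (fun t => by have := n4 t; intro h; apply this; rw [← h]; ring) (-a) b
  have e3 : (∫ x : ℝ in (-a)..b, 1 / ((x : ℂ) - V * I) ^ 2) =
      ∫ x : ℝ in (-a)..b, 1 / (-(V * I) + (x : ℂ) * 1) ^ 2 := by
    congr 1; funext x; congr 2; ring
  have e4 : (∫ x : ℝ in (-a)..b, 1 / ((x : ℂ) + V * I) ^ 2) =
      ∫ x : ℝ in (-a)..b, 1 / (V * I + (x : ℂ) * 1) ^ 2 := by
    congr 1; funext x; congr 2; ring
  rw [i1, i2, e3, i3, e4, i4] at h1
  have hI : (1 : ℂ) / I = -I := by rw [one_div, Complex.inv_I]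
  rw [hI] at h1
  have c1 : ((b : ℂ) + ((-V : ℝ) : ℂ) * I) = (-(V * I) + ((b : ℝ) : ℂ) * 1) := by push_cast; ring
  have c2 : ((b : ℂ) + ((V : ℝ) : ℂ) * I) = ((V * I) + ((b : ℝ) : ℂ) * 1) := by ring
  have c3 : (-(a : ℂ) + ((-V : ℝ) : ℂ) * I) = (-(V * I) + ((-a : ℝ) : ℂ) * 1) := by push_cast; ring
  have c4 : (-(a : ℂ) + ((V : ℝ) : ℂ) * I) = ((V * I) + ((-a : ℝ) : ℂ) * 1) := by push_cast; ring
  rw [c1, c2, c3, c4] at h1
  generalize (-(V * I) + ((b : ℝ) : ℂ) * 1)⁻¹ = P at h1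
  generalize ((V * I) + ((b : ℝ) : ℂ) * 1)⁻¹ = Q at h1
  generalize (-(V * I) + ((-a : ℝ) : ℂ) * 1)⁻¹ = R at h1
  generalize ((V * I) + ((-a : ℝ) : ℂ) * 1)⁻¹ = S at h1
  linear_combination -h1

/-! ### The function -/

/-- the numerator -/
noncomputable def HH (X : ℝ) (N : ℕ) (c : ℕ → ℕ → ℂ) (w : ℂ) : ℂ :=
  (1 / 2 : ℂ) * (riemannZeta₁ (1 + 2 * w) * RB N c w * ((X : ℂ) ^ w * cexp (w ^ 2)))

lemma gcd_facts {m n : ℕ} (hm : 1 ≤ m) (hn : 1 ≤ n) : 1 ≤ m.gcd n ∧ 1 ≤ m / m.gcd n ∧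
    1 ≤ n / m.gcd n := by
  have h : 0 < m.gcd n := Nat.gcd_pos_of_pos_left n hm
  exact ⟨h, Nat.div_pos (Nat.gcd_le_left n hm) h, Nat.div_pos (Nat.gcd_le_right m hn) h⟩

lemma RB_diff (N : ℕ) (c : ℕ → ℕ → ℂ) : Differentiable ℂ (RB N c) := by
  unfold RB
  refine Differentiable.fun_sum fun m hm => Differentiable.fun_sum fun n hn => ?_
  rw [Finset.mem_Icc] at hm hn
  obtain ⟨h1, h2, h3⟩ := gcd_facts hm.1 hn.1
  have h4 : ((m / m.gcd n * (n / m.gcd n) : ℕ) : ℂ) ≠ 0 := by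
    have : 1 ≤ m / m.gcd n * (n / m.gcd n) := Nat.mul_le_mul h2 h3
    exact_mod_cast (by omega : m / m.gcd n * (n / m.gcd n) ≠ 0)
  refine Differentiable.mul (by fun_prop) ?_
  intro w
  exact DifferentiableAt.const_cpow (by fun_prop) (Or.inl h4)

lemma HH_diff {X : ℝ} (hX : 0 < X) (N : ℕ) (c : ℕ → ℕ → ℂ) : Differentiable ℂ (HH X N c) := by
  unfold HH
  have h1 := differentiable_riemannZeta₁
  have h2 := RB_diff N c
  have hX0 : (X : ℂ) ≠ 0 := by exact_mod_cast hX.ne'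
  have h3 : Differentiable ℂ (fun w : ℂ => (X : ℂ) ^ w) := fun w =>
    DifferentiableAt.const_cpow differentiableAt_id (Or.inl hX0)
  have h4 : Differentiable ℂ (fun w : ℂ => riemannZeta₁ (1 + 2 * w)) :=
    h1.comp (by fun_prop)
  fun_prop

lemma HH_deriv {X : ℝ} (hX : 0 < X) (N : ℕ) (c : ℕ → ℕ → ℂ) :
    2 * deriv (HH X N c) 0 =
      RB N c 0 * ((Real.log X + 2 * Real.eulerMascheroniConstant : ℝ) : ℂ) + deriv (RB N c) 0 := by
  have hX0 : (X : ℂ) ≠ 0 := by exact_mod_cast hX.ne'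
  have d1 : HasDerivAt riemannZeta₁ (Real.eulerMascheroniConstant : ℂ) (1 + 2 * 0) := by
    have h := (differentiable_riemannZeta₁ 1).hasDerivAt
    rw [deriv_riemannZeta₁_one] at h
    simpa using h
  have d2 : HasDerivAt (fun w : ℂ => 1 + 2 * w) (2 * 1) 0 :=
    ((hasDerivAt_id (0 : ℂ)).const_mul (2 : ℂ)).const_add 1
  have d3 : HasDerivAt (fun w : ℂ => riemannZeta₁ (1 + 2 * w))
      ((Real.eulerMascheroniConstant : ℂ) * (2 * 1)) 0 :=
    HasDerivAt.comp (h₂ := riemannZeta₁) (h := fun w : ℂ => 1 + 2 * w) (0 : ℂ) d1 d2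
  have d4 : HasDerivAt (RB N c) (deriv (RB N c) 0) 0 := (RB_diff N c 0).hasDerivAt
  have d5 : HasDerivAt (fun w : ℂ => (X : ℂ) ^ w) ((X : ℂ) ^ (0 : ℂ) * Complex.log X * 1) 0 :=
    (hasDerivAt_id (0 : ℂ)).const_cpow (Or.inl hX0)
  have d6 : HasDerivAt (fun w : ℂ => cexp (w ^ 2)) (cexp ((0 : ℂ) ^ 2) * (2 * (0 : ℂ) ^ 1 * 1)) 0 := by
    have := ((hasDerivAt_id (0 : ℂ)).fun_pow 2).cexp
    simpa using this
  have d7 := ((d3.fun_mul d4).fun_mul (d5.fun_mul d6)).const_mul (1 / 2 : ℂ)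
  have e : HH X N c = fun w => (1 / 2 : ℂ) * (riemannZeta₁ (1 + 2 * w) * RB N c w *
    ((X : ℂ) ^ w * cexp (w ^ 2))) := rfl
  rw [e, d7.deriv]
  simp only [mul_zero, add_zero, riemannZeta₁_one, Complex.cpow_zero, ne_eq, OfNat.ofNat_ne_zero,
    not_false_eq_true, zero_pow, Complex.exp_zero]
  rw [← Complex.ofReal_log hX.le]
  push_cast
  ring

lemma HH_eq (X : ℝ) (N : ℕ) (c : ℕ → ℕ → ℂ) {w : ℂ} (hw : w ≠ 0) :
    KN X w * (riemannZeta (1 + 2 * w) * RB N c w) = HH X N c w / w ^ 2 := by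
  have h1 : (1 : ℂ) + 2 * w ≠ 1 := by
    intro h
    apply hw
    have : 2 * w = 0 := by linear_combination h
    simpa using this
  have h2 : riemannZeta (1 + 2 * w) = (2 * w)⁻¹ * riemannZeta₁ (1 + 2 * w) := by
    have := riemannZeta_eq_inv_sub_mul h1
    rw [this]
    congr 2
    ring
  unfold KN HH
  rw [h2]
  field_simp

/-! ### Bounds -/

lemma z1_bd {B : ℝ} (hB : 1 ≤ B) {s : ℂ} (h1 : 1 / 2 ≤ s.re) (h2 : s.re ≤ B) :
    ‖riemannZeta₁ s‖ ≤ 10 * (B + 1) ^ 2 * (1 + |s.im|) ^ 2 := by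
  have hpos : 0 < s.re := by linarith
  rw [zeta_eq hpos]
  have hy := abs_nonneg s.im
  have hb : ‖mellin frg (-s)‖ ≤ 2 := by
    refine (mellin_frg_bound hpos).trans ?_
    rw [div_le_iff₀ hpos]
    linarith
  have hs : ‖s‖ ≤ (B + 1) * (1 + |s.im|) := by
    have := Complex.norm_le_abs_re_add_abs_im s
    rw [abs_of_pos hpos] at this
    nlinarith
  have hs1 : ‖s - 1‖ ≤ (B + 1) * (1 + |s.im|) := by
    have := Complex.norm_le_abs_re_add_abs_im (s - 1)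
    simp only [sub_re, one_re, sub_im, one_im, sub_zero] at this
    have h3 : |s.re - 1| ≤ B := abs_le.2 ⟨by linarith, by linarith⟩
    nlinarith
  have hu : 1 ≤ (B + 1) * (1 + |s.im|) := by nlinarith
  set u := (B + 1) * (1 + |s.im|) with hudef
  calc ‖s - s * (s - 1) * mellin frg (-s)‖ ≤ ‖s‖ + ‖s * (s - 1) * mellin frg (-s)‖ :=
        norm_sub_le _ _
    _ = ‖s‖ + ‖s‖ * ‖s - 1‖ * ‖mellin frg (-s)‖ := by rw [norm_mul, norm_mul]
    _ ≤ u + u * u * 2 := by gcongr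
    _ ≤ 10 * u ^ 2 := by nlinarith
    _ = _ := by rw [hudef]; ring

lemma RB_crude {N : ℕ} {c : ℕ → ℕ → ℂ} {Q : ℝ} (hQ : ∀ m n, ‖c m n‖ ≤ Q) {w : ℂ}
    (hw : -(1 / 2) ≤ w.re) : ‖RB N c w‖ ≤ Q * (N : ℝ) ^ 2 := by
  have hQ0 : 0 ≤ Q := (norm_nonneg _).trans (hQ 0 0)
  calc ‖RB N c w‖ ≤ ∑ m ∈ Finset.Icc 1 N, ∑ n ∈ Finset.Icc 1 N, Q := by
        unfold RB
        refine (norm_sum_le _ _).trans (Finset.sum_le_sum fun m hm => ?_)
        refine (norm_sum_le _ _).trans (Finset.sum_le_sum fun n hn => ?_)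
        rw [Finset.mem_Icc] at hm hn
        obtain ⟨h1, h2, h3⟩ := gcd_facts hm.1 hn.1
        have h4 : 1 ≤ m / m.gcd n * (n / m.gcd n) := Nat.mul_le_mul h2 h3
        have hw2 : (0 : ℝ) ≤ (1 / 2 : ℂ).re := by norm_num
        have hw3 : (0 : ℝ) ≤ (1 / 2 + w : ℂ).re := by
          simp only [add_re]
          norm_num
          linarith
        have e3 := norm_natCast_cpow_neg_le_one hw2 hm.1
        have e4 := norm_natCast_cpow_neg_le_one hw2 hn.1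
        have e5 := norm_natCast_cpow_neg_le_one hw3 h4
        rw [norm_mul, norm_mul, norm_mul]
        calc _ ≤ Q * 1 * 1 * 1 := by
              gcongr
              exact hQ m n
          _ = Q := by ring
    _ = _ := by simp; ring

lemma pow_ineq {g a b Y : ℝ} (hg : 1 ≤ g) (ha : 1 ≤ a) (hb : 1 ≤ b) (hY : (g * a) * (g * b) ≤ Y) :
    (g * a) ^ (-(1 / 2) : ℝ) * (g * b) ^ (-(1 / 2) : ℝ) * (a * b) ^ (-(1 / 4) : ℝ) ≤
      Y ^ (1 / 4 : ℝ) * (g⁻¹ * (a⁻¹ * b⁻¹)) := by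
  have hg0 : 0 < g := by linarith
  have ha0 : 0 < a := by linarith
  have hb0 : 0 < b := by linarith
  have hP : 0 < a * b := by positivity
  have hPY : a * b ≤ Y := by
    refine le_trans ?_ hY
    have h1 : 1 ≤ g * g := by nlinarith
    calc a * b = 1 * (a * b) := by ring
      _ ≤ (g * g) * (a * b) := by gcongr
      _ = _ := by ring
  have h1 : (g * a) ^ (-(1 / 2) : ℝ) * (g * b) ^ (-(1 / 2) : ℝ) =
      g⁻¹ * (a * b) ^ (-(1 / 2) : ℝ) := by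
    rw [← Real.mul_rpow (by positivity) (by positivity)]
    have e : g * a * (g * b) = g ^ 2 * (a * b) := by ring
    rw [e, Real.mul_rpow (by positivity) (by positivity)]
    congr 1
    rw [← Real.rpow_natCast, ← Real.rpow_mul hg0.le]
    norm_num
    rw [Real.rpow_neg_one]
  have h2 : (a * b) ^ (-(1 / 2) : ℝ) * (a * b) ^ (-(1 / 4) : ℝ) =
      (a * b)⁻¹ * (a * b) ^ (1 / 4 : ℝ) := by
    rw [← Real.rpow_add hP, ← Real.rpow_neg_one (a * b), ← Real.rpow_add hP]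
    norm_num
  rw [h1, mul_assoc, h2]
  have h3 : (a * b) ^ (1 / 4 : ℝ) ≤ Y ^ (1 / 4 : ℝ) :=
    Real.rpow_le_rpow hP.le hPY (by norm_num)
  calc g⁻¹ * ((a * b)⁻¹ * (a * b) ^ (1 / 4 : ℝ)) ≤ g⁻¹ * ((a * b)⁻¹ * Y ^ (1 / 4 : ℝ)) := by
        gcongr
    _ = _ := by rw [mul_inv]; ring

lemma sum_inv (N : ℕ) : ∑ k ∈ Finset.Icc 1 N, (k : ℝ)⁻¹ ≤ 1 + Real.log N := by
  have h := harmonic_le_one_add_log N
  rw [harmonic_eq_sum_Icc] at h
  push_cast at h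
  exact h

lemma sum_gcd (N : ℕ) : ∑ m ∈ Finset.Icc 1 N, ∑ n ∈ Finset.Icc 1 N,
    (((m.gcd n : ℕ) : ℝ)⁻¹ * (((m / m.gcd n : ℕ) : ℝ)⁻¹ * ((n / m.gcd n : ℕ) : ℝ)⁻¹)) ≤
      (1 + Real.log N) ^ 3 := by
  classical
  have h0 : ∀ k : ℕ, (0 : ℝ) ≤ (k : ℝ)⁻¹ := fun k => by positivity
  rw [← Finset.sum_product' (f := fun m n : ℕ =>
    (((m.gcd n : ℕ) : ℝ)⁻¹ * (((m / m.gcd n : ℕ) : ℝ)⁻¹ * ((n / m.gcd n : ℕ) : ℝ)⁻¹)))]
  let F : ℕ × ℕ × ℕ → ℝ := fun q => (q.1 : ℝ)⁻¹ * ((q.2.1 : ℝ)⁻¹ * (q.2.2 : ℝ)⁻¹)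
  let e : ℕ × ℕ → ℕ × ℕ × ℕ := fun p => (p.1.gcd p.2, p.1 / p.1.gcd p.2, p.2 / p.1.gcd p.2)
  have hinj : Set.InjOn e (Finset.Icc 1 N ×ˢ Finset.Icc 1 N : Finset (ℕ × ℕ)) := by
    rintro ⟨m, n⟩ _ ⟨m', n'⟩ _ h
    simp only [e, Prod.mk.injEq] at h
    obtain ⟨h1, h2, h3⟩ := h
    have a1 : m = m.gcd n * (m / m.gcd n) := (Nat.mul_div_cancel' (Nat.gcd_dvd_left m n)).symm
    have a2 : n = m.gcd n * (n / m.gcd n) := (Nat.mul_div_cancel' (Nat.gcd_dvd_right m n)).symm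
    have a3 : m' = m'.gcd n' * (m' / m'.gcd n') := (Nat.mul_div_cancel' (Nat.gcd_dvd_left m' n')).symm
    have a4 : n' = m'.gcd n' * (n' / m'.gcd n') := (Nat.mul_div_cancel' (Nat.gcd_dvd_right m' n')).symm
    have b1 : m = m' := by rw [a1, h2, h1, ← a3]
    have b2 : n = n' := by rw [a2, h3, h1, ← a4]
    rw [b1, b2]
  calc ∑ p ∈ Finset.Icc 1 N ×ˢ Finset.Icc 1 N, (((p.1.gcd p.2 : ℕ) : ℝ)⁻¹ *
        (((p.1 / p.1.gcd p.2 : ℕ) : ℝ)⁻¹ * ((p.2 / p.1.gcd p.2 : ℕ) : ℝ)⁻¹))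
      = ∑ q ∈ (Finset.Icc 1 N ×ˢ Finset.Icc 1 N).image e, F q := by
        rw [Finset.sum_image hinj]
    _ ≤ ∑ q ∈ Finset.Icc 1 N ×ˢ (Finset.Icc 1 N ×ˢ Finset.Icc 1 N), F q := by
        apply Finset.sum_le_sum_of_subset_of_nonneg
        · intro q hq
          rw [Finset.mem_image] at hq
          obtain ⟨⟨m, n⟩, hp, rfl⟩ := hq
          rw [Finset.mem_product, Finset.mem_Icc, Finset.mem_Icc] at hp
          obtain ⟨hm, hn⟩ := hp
          simp only at hm hn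
          obtain ⟨h1, h2, h3⟩ := gcd_facts hm.1 hn.1
          simp only [e, Finset.mem_product, Finset.mem_Icc]
          exact ⟨⟨h1, (Nat.gcd_le_left n hm.1).trans hm.2⟩,
            ⟨h2, (Nat.div_le_self _ _).trans hm.2⟩, h3, (Nat.div_le_self _ _).trans hn.2⟩
        · intro q _ _
          have := h0 q.1
          have := h0 q.2.1
          have := h0 q.2.2
          positivity
    _ = (∑ k ∈ Finset.Icc 1 N, (k : ℝ)⁻¹) * ((∑ k ∈ Finset.Icc 1 N, (k : ℝ)⁻¹) *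
          ∑ k ∈ Finset.Icc 1 N, (k : ℝ)⁻¹) := by
        rw [Finset.sum_product, Finset.sum_mul_sum]
        rw [Finset.sum_mul]
        refine Finset.sum_congr rfl fun a _ => ?_
        rw [Finset.sum_product, Finset.mul_sum]
        refine Finset.sum_congr rfl fun b _ => ?_
        rw [Finset.mul_sum]
    _ ≤ (1 + Real.log N) * ((1 + Real.log N) * (1 + Real.log N)) := by
        have h1 := sum_inv N
        have h2 : 0 ≤ ∑ k ∈ Finset.Icc 1 N, (k : ℝ)⁻¹ := Finset.sum_nonneg fun k _ => h0 k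
        gcongr
    _ = _ := by ring

lemma RB_left {N : ℕ} {c : ℕ → ℕ → ℂ} {Q Y : ℝ} (hQ : ∀ m n, ‖c m n‖ ≤ Q) (hY0 : 0 ≤ Y)
    (hY : ∀ m n : ℕ, Y < (m : ℝ) * n → c m n = 0) {w : ℂ} (hw : w.re = -(1 / 4)) :
    ‖RB N c w‖ ≤ Q * Y ^ (1 / 4 : ℝ) * (1 + Real.log N) ^ 3 := by
  have hQ0 : 0 ≤ Q := (norm_nonneg _).trans (hQ 0 0)
  calc ‖RB N c w‖ ≤ ∑ m ∈ Finset.Icc 1 N, ∑ n ∈ Finset.Icc 1 N, Q * Y ^ (1 / 4 : ℝ) *
        (((m.gcd n : ℕ) : ℝ)⁻¹ * (((m / m.gcd n : ℕ) : ℝ)⁻¹ * ((n / m.gcd n : ℕ) : ℝ)⁻¹)) := by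
        unfold RB
        refine (norm_sum_le _ _).trans (Finset.sum_le_sum fun m hm => ?_)
        refine (norm_sum_le _ _).trans (Finset.sum_le_sum fun n hn => ?_)
        rw [Finset.mem_Icc] at hm hn
        obtain ⟨h1, h2, h3⟩ := gcd_facts hm.1 hn.1
        rcases lt_or_ge Y ((m : ℝ) * n) with h | h
        · rw [hY m n h]
          simp only [zero_mul, norm_zero]
          positivity
        have a1 : m.gcd n * (m / m.gcd n) = m := Nat.mul_div_cancel' (Nat.gcd_dvd_left m n)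
        have a2 : m.gcd n * (n / m.gcd n) = n := Nat.mul_div_cancel' (Nat.gcd_dvd_right m n)
        have h4 : 0 < m / m.gcd n * (n / m.gcd n) := Nat.mul_le_mul h2 h3
        have r1 : ((m.gcd n : ℕ) : ℝ) * ((m / m.gcd n : ℕ) : ℝ) = m := by exact_mod_cast a1
        have r2 : ((m.gcd n : ℕ) : ℝ) * ((n / m.gcd n : ℕ) : ℝ) = n := by exact_mod_cast a2
        have key := pow_ineq (g := ((m.gcd n : ℕ) : ℝ)) (a := ((m / m.gcd n : ℕ) : ℝ))
          (b := ((n / m.gcd n : ℕ) : ℝ)) (Y := Y) (by exact_mod_cast h1) (by exact_mod_cast h2)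
          (by exact_mod_cast h3) (by rw [r1, r2]; exact h)
        rw [r1, r2] at key
        rw [norm_mul, norm_mul, norm_mul, norm_natCast_cpow_of_pos hm.1,
          norm_natCast_cpow_of_pos hn.1, norm_natCast_cpow_of_pos h4]
        have e1 : (-(1 / 2 : ℂ)).re = -(1 / 2) := by norm_num
        have e2 : (-(1 / 2 + w) : ℂ).re = -(1 / 4) := by
          simp only [neg_re, add_re, hw]
          norm_num
        rw [e1, e2]
        push_cast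
        calc ‖c m n‖ * (m : ℝ) ^ (-(1 / 2) : ℝ) * (n : ℝ) ^ (-(1 / 2) : ℝ) *
            (((m / m.gcd n : ℕ) : ℝ) * ((n / m.gcd n : ℕ) : ℝ)) ^ (-(1 / 4) : ℝ)
            = ‖c m n‖ * ((m : ℝ) ^ (-(1 / 2) : ℝ) * (n : ℝ) ^ (-(1 / 2) : ℝ) *
            (((m / m.gcd n : ℕ) : ℝ) * ((n / m.gcd n : ℕ) : ℝ)) ^ (-(1 / 4) : ℝ)) := by ring
          _ ≤ Q * (Y ^ (1 / 4 : ℝ) * (((m.gcd n : ℕ) : ℝ)⁻¹ *
            (((m / m.gcd n : ℕ) : ℝ)⁻¹ * ((n / m.gcd n : ℕ) : ℝ)⁻¹))) := by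
              gcongr
              exact hQ m n
          _ = _ := by ring
    _ = Q * Y ^ (1 / 4 : ℝ) * ∑ m ∈ Finset.Icc 1 N, ∑ n ∈ Finset.Icc 1 N,
        (((m.gcd n : ℕ) : ℝ)⁻¹ * (((m / m.gcd n : ℕ) : ℝ)⁻¹ * ((n / m.gcd n : ℕ) : ℝ)⁻¹)) := by
        rw [Finset.mul_sum]
        refine Finset.sum_congr rfl fun m _ => ?_
        rw [Finset.mul_sum]
    _ ≤ _ := by
        gcongr
        exact sum_gcd N

/-- left side of the rectangle -/
lemma left_bd {X : ℝ} (hX : 0 < X) {N : ℕ} {c : ℕ → ℕ → ℂ} {Q Y : ℝ} (hQ : ∀ m n, ‖c m n‖ ≤ Q)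
    (hY0 : 0 ≤ Y) (hY : ∀ m n : ℕ, Y < (m : ℝ) * n → c m n = 0) (y : ℝ) :
    ‖HH X N c (-((1 / 4 : ℝ) : ℂ) + y * I) / (-((1 / 4 : ℝ) : ℂ) + y * I) ^ 2‖ ≤
      10000 * (Q * Y ^ (1 / 4 : ℝ) * (1 + Real.log N) ^ 3) * X ^ (-(1 / 4) : ℝ) := by
  have hQ0 : 0 ≤ Q := (norm_nonneg _).trans (hQ 0 0)
  set w : ℂ := -((1 / 4 : ℝ) : ℂ) + y * I with hw
  have hre : w.re = -(1 / 4) := by rw [hw]; simp
  have him : w.im = y := by rw [hw]; simp
  have hR := RB_left (N := N) hQ hY0 hY hre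
  set R := Q * Y ^ (1 / 4 : ℝ) * (1 + Real.log N) ^ 3 with hRdef
  have hR0 : 0 ≤ R := (norm_nonneg _).trans hR
  have h1re : (1 + 2 * w).re = 1 / 2 := by simp [hre]; norm_num
  have h1im : (1 + 2 * w).im = 2 * y := by simp [him]
  have hz := z1_bd (B := 1) le_rfl (s := 1 + 2 * w) (by rw [h1re]) (by rw [h1re]; norm_num)
  rw [h1im] at hz
  have hx : ‖(X : ℂ) ^ w‖ = X ^ (-(1 / 4) : ℝ) := by
    rw [norm_cpow_eq_rpow_re_of_pos hX, hre]
  have hsq : (w ^ 2).re = 1 / 16 - y ^ 2 := by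
    rw [pow_two, mul_re, hre, him]; ring
  have he : ‖cexp (w ^ 2)‖ = Real.exp (1 / 16 - y ^ 2) := by
    rw [Complex.norm_exp, hsq]
  have hw4 : 1 / 4 ≤ ‖w‖ := by
    have := abs_re_le_norm w
    rw [hre] at this
    rw [abs_of_nonpos (by norm_num)] at this
    linarith
  have hw2 : 1 / 16 ≤ ‖w ^ 2‖ := by
    rw [norm_pow]; nlinarith
  have hab : |2 * y| ^ 2 = 4 * y ^ 2 := by rw [sq_abs]; ring
  have hexp : (1 + |2 * y|) ^ 2 * Real.exp (1 / 16 - y ^ 2) ≤ 16 := by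
    have e1 : (1 + |2 * y|) ^ 2 ≤ 8 * Real.exp (y ^ 2) := by
      have := Real.add_one_le_exp (y ^ 2)
      nlinarith [sq_nonneg (|2 * y| - 1), abs_nonneg (2 * y)]
    have e2 : Real.exp (1 / 16) ≤ 2 := by
      have := Real.exp_one_lt_d9
      have h3 : Real.exp (1 / 16) ≤ Real.exp (1 / 2) := Real.exp_le_exp.2 (by norm_num)
      have h4 : Real.exp (1 / 2) ^ 2 = Real.exp 1 := by
        rw [← Real.exp_nat_mul]; norm_num
      nlinarith [Real.exp_pos (1 / 2)]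
    calc (1 + |2 * y|) ^ 2 * Real.exp (1 / 16 - y ^ 2)
        ≤ 8 * Real.exp (y ^ 2) * Real.exp (1 / 16 - y ^ 2) := by gcongr
      _ = 8 * Real.exp (1 / 16) := by
          rw [mul_assoc, ← Real.exp_add]; congr 2; ring
      _ ≤ _ := by linarith
  have hX4 : 0 ≤ X ^ (-(1 / 4) : ℝ) := by positivity
  have hH : ‖HH X N c w‖ ≤ 1 / 2 * ((10 * (1 + 1) ^ 2 * (1 + |2 * y|) ^ 2) * R *
      (X ^ (-(1 / 4) : ℝ) * Real.exp (1 / 16 - y ^ 2))) := by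
    unfold HH
    rw [norm_mul, norm_mul, norm_mul, norm_mul, hx, he]
    have : ‖(1 / 2 : ℂ)‖ = 1 / 2 := by norm_num
    rw [this]
    gcongr
  rw [norm_div, div_le_iff₀ (by positivity)]
  calc ‖HH X N c w‖ ≤ 1 / 2 * ((10 * (1 + 1) ^ 2 * (1 + |2 * y|) ^ 2) * R *
      (X ^ (-(1 / 4) : ℝ) * Real.exp (1 / 16 - y ^ 2))) := hH
    _ = 20 * (R * X ^ (-(1 / 4) : ℝ)) * ((1 + |2 * y|) ^ 2 * Real.exp (1 / 16 - y ^ 2)) := by ring
    _ ≤ 20 * (R * X ^ (-(1 / 4) : ℝ)) * 16 := by gcongr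
    _ ≤ 10000 * R * X ^ (-(1 / 4) : ℝ) * (1 / 16) := by
        have : 0 ≤ R * X ^ (-(1 / 4) : ℝ) := by positivity
        nlinarith
    _ ≤ 10000 * R * X ^ (-(1 / 4) : ℝ) * ‖w ^ 2‖ := by gcongr

/-- horizontal sides of the rectangle -/
lemma hor_bd {X T A V : ℝ} (hA : 1 ≤ A) (hV : 1 ≤ V) (hX : 1 ≤ X) (hXT : X ≤ T) {N : ℕ}
    {c : ℕ → ℕ → ℂ} {Q : ℝ} (hQ : ∀ m n, ‖c m n‖ ≤ Q) (hN : (N : ℝ) ≤ T) {w : ℂ}
    (h1 : -(1 / 4) ≤ w.re) (h2 : w.re ≤ A) (h3 : |w.im| = V) :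
    ‖HH X N c w / w ^ 2‖ ≤ 20 * (A + 1) ^ 2 * (1 + 2 * V) ^ 2 * (Q * T ^ 2) * T ^ A *
      Real.exp (A ^ 2 - V ^ 2) := by
  have hQ0 : 0 ≤ Q := (norm_nonneg _).trans (hQ 0 0)
  have hT : 1 ≤ T := hX.trans hXT
  have hR : ‖RB N c w‖ ≤ Q * T ^ 2 := by
    refine (RB_crude hQ (by linarith)).trans ?_
    gcongr
  have h1re : (1 + 2 * w).re = 1 + 2 * w.re := by simp
  have h1im : (1 + 2 * w).im = 2 * w.im := by simp
  have hz := z1_bd (B := 1 + 2 * A) (by linarith) (s := 1 + 2 * w) (by rw [h1re]; linarith)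
    (by rw [h1re]; linarith)
  rw [h1im, abs_mul, h3, abs_of_pos (by norm_num : (0 : ℝ) < 2)] at hz
  have hx : ‖(X : ℂ) ^ w‖ ≤ T ^ A := by
    rw [norm_cpow_eq_rpow_re_of_pos (by linarith)]
    calc X ^ w.re ≤ X ^ A := Real.rpow_le_rpow_of_exponent_le hX h2
      _ ≤ T ^ A := Real.rpow_le_rpow (by linarith) hXT (by linarith)
  have hsq : (w ^ 2).re = w.re ^ 2 - V ^ 2 := by
    rw [pow_two, mul_re, ← h3, sq_abs]; ring
  have he : ‖cexp (w ^ 2)‖ ≤ Real.exp (A ^ 2 - V ^ 2) := by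
    rw [Complex.norm_exp, hsq]
    apply Real.exp_le_exp.2
    have : w.re ^ 2 ≤ A ^ 2 := by
      apply sq_le_sq'
      · linarith
      · exact h2
    linarith
  have hwV : V ≤ ‖w‖ := by rw [← h3]; exact abs_im_le_norm w
  have hw2 : 1 ≤ ‖w ^ 2‖ := by
    rw [norm_pow]
    exact one_le_pow₀ (hV.trans hwV)
  rw [norm_div, div_le_iff₀ (by linarith)]
  have hH : ‖HH X N c w‖ ≤ 1 / 2 * ((10 * (1 + 2 * A + 1) ^ 2 * (1 + 2 * V) ^ 2) * (Q * T ^ 2) *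
      (T ^ A * Real.exp (A ^ 2 - V ^ 2))) := by
    unfold HH
    rw [norm_mul, norm_mul, norm_mul, norm_mul]
    have : ‖(1 / 2 : ℂ)‖ = 1 / 2 := by norm_num
    rw [this]
    gcongr
  have hpos : 0 ≤ 20 * (A + 1) ^ 2 * (1 + 2 * V) ^ 2 * (Q * T ^ 2) * T ^ A *
      Real.exp (A ^ 2 - V ^ 2) := by positivity
  calc ‖HH X N c w‖ ≤ _ := hH
    _ = 20 * (A + 1) ^ 2 * (1 + 2 * V) ^ 2 * (Q * T ^ 2) * T ^ A *
      Real.exp (A ^ 2 - V ^ 2) * 1 := by ring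
    _ ≤ _ := by gcongr

end Back

open Back MeasureTheory ProbabilityTheory Complex Filter Topology K1 in
/-- (A7) the main term -/
theorem stBack (h0 : StRect) : StBack := by
  intro A hA
  set K1 : ℝ := 1120000 with hK1
  set K2 : ℝ := 180 * (A + 1) ^ 3 * Real.exp (A ^ 2) with hK2
  have hK2p : 0 < K2 := by positivity
  have hlo : (fun x : ℝ => (K1 + 2 * K2) * Real.log x ^ (5 : ℝ)) =o[atTop]
      fun x => x ^ (65 / 10000 : ℝ) :=
    (isLittleO_log_rpow_rpow_atTop 5 (by norm_num)).const_mul_left _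
  have ev1 : ∀ᶠ T : ℝ in atTop, (K1 + 2 * K2) * Real.log T ^ 5 ≤ T ^ (65 / 10000 : ℝ) := by
    filter_upwards [hlo.bound one_pos, eventually_ge_atTop 3] with T hT h3
    have hL : 0 ≤ Real.log T := Real.log_nonneg (by linarith)
    rw [one_mul, Real.norm_of_nonneg (by positivity), Real.norm_of_nonneg (by positivity)] at hT
    have e : Real.log T ^ (5 : ℝ) = Real.log T ^ 5 := by
      rw [← Real.rpow_natCast]; norm_num
    rw [e] at hT
    exact hT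
  have ev2 : ∀ᶠ T : ℝ in atTop, A + 4 ≤ Real.log T :=
    Real.tendsto_log_atTop.eventually_ge_atTop _
  have ev3 : ∀ᶠ T : ℝ in atTop, 2 * Real.pi * Real.log T ≤ T := by
    have h := (Real.isLittleO_log_id_atTop.const_mul_left (2 * Real.pi)).bound one_pos
    filter_upwards [h, eventually_ge_atTop 3] with T hT h3
    have hL : 0 ≤ Real.log T := Real.log_nonneg (by linarith)
    rw [one_mul, Real.norm_of_nonneg (by positivity), id, Real.norm_of_nonneg (by linarith)] at hT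
    exact hT
  obtain ⟨T₀, hT₀⟩ := eventually_atTop.1 (ev1.and (ev2.and ev3))
  refine ⟨max T₀ 3, le_max_right _ _, fun T hT τ hτ1 hτ2 N c hN hQ hY => ?_⟩
  obtain ⟨g1, g2, g3⟩ := hT₀ T ((le_max_left _ _).trans hT)
  have hT3 : 3 ≤ T := (le_max_right _ _).trans hT
  have hT0 : 0 < T := by linarith
  set L := Real.log T with hL
  have hL1 : 1 ≤ L := by linarith
  have hL0 : 0 < L := by linarith
  have hpi := Real.pi_pos
  have hpi3 := Real.pi_gt_three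
  have hpi4 := Real.pi_lt_d2
  set X := |τ| / (2 * Real.pi) with hX
  have hXlow : T / (2 * Real.pi * L) ≤ X := by
    rw [hX, div_le_div_iff₀ (by positivity) (by positivity)]
    have := (div_le_iff₀ hL0).1 hτ1
    nlinarith
  have hX1 : 1 ≤ X := by
    refine le_trans ?_ hXlow
    rw [le_div_iff₀ (by positivity)]
    linarith
  have hXT : X ≤ T := by
    rw [hX, div_le_iff₀ (by positivity)]
    nlinarith
  have hX0 : 0 < X := by linarith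
  -- the contour integral
  have hJ : (∫ y : ℝ in (-L)..L, KN X ((A : ℝ) + y * I) *
      (riemannZeta (1 + 2 * ((A : ℝ) + y * I)) * RB N c ((A : ℝ) + y * I))) =
      ∫ y : ℝ in (-L)..L, HH X N c ((A : ℂ) + y * I) / ((A : ℂ) + y * I) ^ 2 := by
    apply intervalIntegral.integral_congr
    intro y _
    exact HH_eq X N c (re_ne (by simp; linarith))
  have hD := dbl h0 (HH_diff hX0 N c) (a := 1 / 4) (b := A) (V := L) (by norm_num) (by linarith) hL0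
  rw [hJ, hD, ← HH_deriv hX0 N c]
  set Lf := ∫ y : ℝ in (-L)..L, HH X N c (-((1 / 4 : ℝ) : ℂ) + y * I) /
    (-((1 / 4 : ℝ) : ℂ) + y * I) ^ 2 with hLf
  set Bt := ∫ x : ℝ in (-(1 / 4))..A, HH X N c ((x : ℂ) - L * I) / ((x : ℂ) - L * I) ^ 2 with hBt
  set Tp := ∫ x : ℝ in (-(1 / 4))..A, HH X N c ((x : ℂ) + L * I) / ((x : ℂ) + L * I) ^ 2 with hTp
  have hmain : ((1 / Real.pi : ℝ) : ℂ) * (((2 * Real.pi : ℝ) : ℂ) * deriv (HH X N c) 0 + Lf +
      I * (Bt - Tp)) - 2 * deriv (HH X N c) 0 = ((1 / Real.pi : ℝ) : ℂ) * (Lf + I * (Bt - Tp)) := by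
    have : (Real.pi : ℂ) ≠ 0 := by exact_mod_cast hpi.ne'
    push_cast
    field_simp
    ring
  rw [hmain]
  have hpi1 : 1 / Real.pi ≤ 1 := by
    rw [div_le_one hpi]; linarith
  -- bounds
  have hlogN : Real.log N ≤ L := by
    rcases Nat.eq_zero_or_pos N with h | h
    · rw [h]; simp; exact hL0.le
    · exact Real.log_le_log (by exact_mod_cast h) hN
  have hlogN0 : 0 ≤ Real.log N := Real.log_natCast_nonneg N
  have hXm : X ^ (-(1 / 4) : ℝ) ≤ T ^ (-(1 / 4) : ℝ) * (7 * L) := by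
    have e1 : X ^ (-(1 / 4) : ℝ) ≤ (T / (2 * Real.pi * L)) ^ (-(1 / 4) : ℝ) :=
      Real.rpow_le_rpow_of_nonpos (by positivity) hXlow (by norm_num)
    have e2 : (T / (2 * Real.pi * L)) ^ (-(1 / 4) : ℝ) =
        T ^ (-(1 / 4) : ℝ) * (2 * Real.pi * L) ^ (1 / 4 : ℝ) := by
      rw [Real.div_rpow hT0.le (by positivity), div_eq_mul_inv, ← Real.rpow_neg (by positivity)]
      norm_num
    have e3 : (2 * Real.pi * L) ^ (1 / 4 : ℝ) ≤ 7 * L := by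
      calc (2 * Real.pi * L) ^ (1 / 4 : ℝ) ≤ (2 * Real.pi * L) ^ (1 : ℝ) := by
            apply Real.rpow_le_rpow_of_exponent_le
            · nlinarith
            · norm_num
        _ = 2 * Real.pi * L := Real.rpow_one _
        _ ≤ 7 * L := by nlinarith
    rw [e2] at e1
    refine e1.trans ?_
    gcongr
  have hpow : T ^ (1 / 1000 : ℝ) * (T ^ (89 / 100 : ℝ)) ^ (1 / 4 : ℝ) * T ^ (-(1 / 4) : ℝ) =
      T ^ (-(265 / 10000) : ℝ) := by
    rw [← Real.rpow_mul hT0.le, ← Real.rpow_add hT0, ← Real.rpow_add hT0]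
    norm_num
  have hLb : ‖Lf‖ ≤ K1 * L ^ 5 * T ^ (-(265 / 10000) : ℝ) := by
    have h1 : ‖Lf‖ ≤ 10000 * (T ^ (1 / 1000 : ℝ) * (T ^ (89 / 100 : ℝ)) ^ (1 / 4 : ℝ) *
        (1 + Real.log N) ^ 3) * X ^ (-(1 / 4) : ℝ) * |L - -L| :=
      intervalIntegral.norm_integral_le_of_norm_le_const fun y _ =>
        left_bd hX0 hQ (by positivity) hY y
    have h2 : |L - -L| = 2 * L := by rw [abs_of_pos (by linarith)]; ring
    rw [h2] at h1
    refine h1.trans ?_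
    have h3 : (1 + Real.log N) ^ 3 ≤ (2 * L) ^ 3 := by
      gcongr
      linarith
    calc 10000 * (T ^ (1 / 1000 : ℝ) * (T ^ (89 / 100 : ℝ)) ^ (1 / 4 : ℝ) *
        (1 + Real.log N) ^ 3) * X ^ (-(1 / 4) : ℝ) * (2 * L)
        ≤ 10000 * (T ^ (1 / 1000 : ℝ) * (T ^ (89 / 100 : ℝ)) ^ (1 / 4 : ℝ) *
        (2 * L) ^ 3) * (T ^ (-(1 / 4) : ℝ) * (7 * L)) * (2 * L) := by gcongr
      _ = 1120000 * L ^ 5 * (T ^ (1 / 1000 : ℝ) * (T ^ (89 / 100 : ℝ)) ^ (1 / 4 : ℝ) *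
          T ^ (-(1 / 4) : ℝ)) := by ring
      _ = _ := by rw [hpow]
  have hhor : ∀ w : ℂ, -(1 / 4) ≤ w.re → w.re ≤ A → |w.im| = L →
      ‖HH X N c w / w ^ 2‖ ≤ 180 * (A + 1) ^ 2 * Real.exp (A ^ 2) * L ^ 2 * T ^ (-(1999 / 1000) : ℝ) := by
    intro w h1 h2 h3
    refine (hor_bd hA hL1 hX1 hXT hQ hN h1 h2 h3).trans ?_
    have e1 : Real.exp (A ^ 2 - L ^ 2) ≤ Real.exp (A ^ 2) * T ^ (-(A + 4)) := by
      have e2 : T ^ (-(A + 4)) = Real.exp (-(A + 4) * L) := by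
        rw [Real.rpow_def_of_pos hT0, ← hL]; congr 1; ring
      rw [e2, ← Real.exp_add]
      apply Real.exp_le_exp.2
      nlinarith
    have e3 : (1 + 2 * L) ^ 2 ≤ 9 * L ^ 2 := by nlinarith
    have e4 : T ^ (1 / 1000 : ℝ) * T ^ 2 * T ^ A * T ^ (-(A + 4)) = T ^ (-(1999 / 1000) : ℝ) := by
      rw [← Real.rpow_natCast T 2, ← Real.rpow_add hT0, ← Real.rpow_add hT0, ← Real.rpow_add hT0]
      congr 1
      push_cast
      ring
    calc 20 * (A + 1) ^ 2 * (1 + 2 * L) ^ 2 * (T ^ (1 / 1000 : ℝ) * T ^ 2) * T ^ A *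
        Real.exp (A ^ 2 - L ^ 2)
        ≤ 20 * (A + 1) ^ 2 * (9 * L ^ 2) * (T ^ (1 / 1000 : ℝ) * T ^ 2) * T ^ A *
        (Real.exp (A ^ 2) * T ^ (-(A + 4))) := by gcongr
      _ = 180 * (A + 1) ^ 2 * Real.exp (A ^ 2) * L ^ 2 *
          (T ^ (1 / 1000 : ℝ) * T ^ 2 * T ^ A * T ^ (-(A + 4))) := by ring
      _ = _ := by rw [e4]
  have habs : |A - -(1 / 4)| ≤ A + 1 := by rw [abs_of_pos (by linarith)]; linarith
  have hC0 : 0 ≤ 180 * (A + 1) ^ 2 * Real.exp (A ^ 2) * L ^ 2 * T ^ (-(1999 / 1000) : ℝ) := by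
    positivity
  have hIoc : ∀ x ∈ Set.uIoc (-(1 / 4) : ℝ) A, -(1 / 4) ≤ x ∧ x ≤ A := by
    intro x hx
    rw [Set.uIoc_of_le (by linarith)] at hx
    exact ⟨hx.1.le, hx.2⟩
  have hBb : ‖Bt‖ ≤ K2 * L ^ 2 * T ^ (-(1999 / 1000) : ℝ) := by
    have h1 : ‖Bt‖ ≤ 180 * (A + 1) ^ 2 * Real.exp (A ^ 2) * L ^ 2 * T ^ (-(1999 / 1000) : ℝ) *
        |A - -(1 / 4)| :=
      intervalIntegral.norm_integral_le_of_norm_le_const fun x hx => by
        obtain ⟨k1, k2⟩ := hIoc x hx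
        exact hhor _ (by simpa using k1) (by simpa using k2) (by simp [abs_of_pos hL0])
    refine h1.trans ((mul_le_mul_of_nonneg_left habs hC0).trans (le_of_eq ?_))
    rw [hK2]; ring
  have hTb : ‖Tp‖ ≤ K2 * L ^ 2 * T ^ (-(1999 / 1000) : ℝ) := by
    have h1 : ‖Tp‖ ≤ 180 * (A + 1) ^ 2 * Real.exp (A ^ 2) * L ^ 2 * T ^ (-(1999 / 1000) : ℝ) *
        |A - -(1 / 4)| :=
      intervalIntegral.norm_integral_le_of_norm_le_const fun x hx => by
        obtain ⟨k1, k2⟩ := hIoc x hx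
        exact hhor _ (by simpa using k1) (by simpa using k2) (by simp [abs_of_pos hL0])
    refine h1.trans ((mul_le_mul_of_nonneg_left habs hC0).trans (le_of_eq ?_))
    rw [hK2]; ring
  have hfin : ‖Lf + I * (Bt - Tp)‖ ≤ (K1 + 2 * K2) * L ^ 5 * T ^ (-(265 / 10000) : ℝ) := by
    have e1 : T ^ (-(1999 / 1000) : ℝ) ≤ T ^ (-(265 / 10000) : ℝ) :=
      Real.rpow_le_rpow_of_exponent_le (by linarith) (by norm_num)
    have e2 : L ^ 2 ≤ L ^ 5 := pow_le_pow_right₀ hL1 (by norm_num)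
    have e3 : K2 * L ^ 2 * T ^ (-(1999 / 1000) : ℝ) ≤ K2 * L ^ 5 * T ^ (-(265 / 10000) : ℝ) := by
      gcongr
    calc ‖Lf + I * (Bt - Tp)‖ ≤ ‖Lf‖ + ‖I * (Bt - Tp)‖ := norm_add_le _ _
      _ ≤ ‖Lf‖ + (‖Bt‖ + ‖Tp‖) := by
          rw [norm_mul, norm_I, one_mul]
          gcongr
          exact norm_sub_le _ _
      _ ≤ K1 * L ^ 5 * T ^ (-(265 / 10000) : ℝ) + (K2 * L ^ 5 * T ^ (-(265 / 10000) : ℝ) +
          K2 * L ^ 5 * T ^ (-(265 / 10000) : ℝ)) := by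
          gcongr
          · exact hBb.trans e3
          · exact hTb.trans e3
      _ = _ := by ring
  rw [norm_mul, Complex.norm_real, Real.norm_of_nonneg (by positivity)]
  calc 1 / Real.pi * ‖Lf + I * (Bt - Tp)‖ ≤ 1 * ‖Lf + I * (Bt - Tp)‖ := by gcongr
    _ ≤ (K1 + 2 * K2) * L ^ 5 * T ^ (-(265 / 10000) : ℝ) := by rw [one_mul]; exact hfin
    _ ≤ T ^ (65 / 10000 : ℝ) * T ^ (-(265 / 10000) : ℝ) := by gcongr
    _ = T ^ (-(1 / 50) : ℝ) := by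
        rw [← Real.rpow_add hT0]; norm_num

end K5
end Pool.Agent.Lib.MP_973905_nt
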