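import Pool.Agent.Lib.MP_973905_nt.K5.Stmts
import Pool.Agent.Lib.MP_973905_nt.XBound
import Pool.Agent.Lib.MP_973905_nt.IngDefs

/-! Module (B9): the bottom blocks, crude bound with bad blocks. -/

namespace Pool.Agent.Lib.MP_973905_nt
namespace K5

open MeasureTheory ProbabilityTheory Complex Filter Topology K1

namespace BotCrude

open XB

/-- Bounds for `yp`, small shifts of both signs. -/
lemma yp_le' {p : ℕ} (hp : p.Prime) {L : ℝ} (hL : 0 < L) {a : ℝ} (ha : -1 ≤ a)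
    (hs : Real.log p / L ≤ 1 / 20) :
    yp (1 / 2 + a / L) (1 / 2) p ≤ 3 / 4 ∧ yp (1 / 2 + a / L) (1 / 2) p ^ 2 ≤ 2 * (1 / p) ∧
      yp (1 / 2 + a / L) (1 / 2) p ^ 4 ≤ 4 * ((p : ℝ) ^ 2)⁻¹ := by
  have hp1 : (1 : ℝ) ≤ p := by exact_mod_cast hp.one_lt.le
  obtain ⟨h1, h2, h3⟩ := yp_le (a₁ := 0) (a₂ := -1) (c₁ := 1) hp hL le_rfl (by norm_num)
    (by norm_num) (by rw [one_mul]; exact hs)
  have hY : yp (1 / 2 + a / L) (1 / 2) p ≤ yp (1 / 2 + 0 / L) (1 / 2 + -1 / L) p := by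
    unfold yp
    apply max_le
    · refine le_max_of_le_right (Real.rpow_le_rpow_of_exponent_le hp1 ?_)
      have : -1 / L ≤ a / L := by gcongr
      linarith
    · refine le_max_of_le_left (Real.rpow_le_rpow_of_exponent_le hp1 ?_)
      rw [zero_div, add_zero]
  have h0 := yp_nonneg (1 / 2 + a / L) (1 / 2) p
  exact ⟨hY.trans h1, (pow_le_pow_left₀ h0 hY 2).trans h2, (pow_le_pow_left₀ h0 hY 4).trans h3⟩

/-- The exponent at a prime. -/
lemma expo {k θ : ℝ} {z : ℂ} (hk0 : 0 ≤ k) (hk1 : k ≤ 1) (hθ : 0 ≤ θ) (hθ1 : θ ≤ 1 / 20)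
    (hz : ‖z‖ ≤ 1) : ‖cexp (-(z * θ)) + ((k - 1 : ℝ) : ℂ)‖ ^ 2 ≤ k ^ 2 + 8 * θ := by
  have hn : ‖-(z * (θ : ℂ))‖ ≤ θ := by
    rw [norm_neg, norm_mul, norm_real, Real.norm_eq_abs, abs_of_nonneg hθ]
    exact mul_le_of_le_one_left hθ hz
  have h1 : ‖cexp (-(z * θ)) - 1‖ ≤ 2 * θ :=
    (norm_exp_sub_one_le (hn.trans (by linarith))).trans (by linarith)
  have h2 : ‖cexp (-(z * θ)) + ((k - 1 : ℝ) : ℂ)‖ ≤ k + 2 * θ := by
    have e : cexp (-(z * θ)) + ((k - 1 : ℝ) : ℂ) = (k : ℂ) + (cexp (-(z * θ)) - 1) := by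
      push_cast; ring
    rw [e]
    refine (norm_add_le _ _).trans ?_
    rw [norm_real, Real.norm_eq_abs, abs_of_nonneg hk0]
    linarith
  calc ‖cexp (-(z * θ)) + ((k - 1 : ℝ) : ℂ)‖ ^ 2 ≤ (k + 2 * θ) ^ 2 :=
        pow_le_pow_left₀ (norm_nonneg _) h2 2
    _ ≤ k ^ 2 + 8 * θ := by nlinarith [mul_nonneg hθ (sub_nonneg.2 hk1), mul_nonneg hθ (sub_nonneg.2 hθ1)]

/-- The factor of a prime in the product of Dirichlet polynomials. -/
lemma prime_expo {p : ℕ} (hp : p.Prime) {k L : ℝ} (hL : 0 < L) (hk0 : 0 ≤ k) (hk1 : k ≤ 1)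
    (hs : Real.log p / L ≤ 1 / 20) {w : ℂ} (hw : ‖w‖ ≤ 1 / L) :
    ‖(p : ℂ) ^ (-((1 / 2 : ℂ) + w)) + ((k - 1 : ℝ) : ℂ) * (((p : ℝ) ^ (-(1 / 2 : ℝ)) : ℝ) : ℂ)‖ ^ 2 ≤
      1 / p * (k ^ 2 + 8 * (Real.log p / L)) := by
  have hL' : (L : ℂ) ≠ 0 := by exact_mod_cast hL.ne'
  have hp1 : (1 : ℝ) ≤ p := by exact_mod_cast hp.one_lt.le
  have hz : ‖w * L‖ ≤ 1 := by
    rw [norm_mul, norm_real, Real.norm_eq_abs, abs_of_pos hL]
    calc ‖w‖ * L ≤ 1 / L * L := by gcongr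
      _ = 1 := by field_simp
  have h := norm_form hp.pos (L := L) (w * L) 0 k
  rw [mul_div_assoc, div_self hL', mul_one, zero_div, add_zero, zero_mul, neg_zero, Real.exp_zero,
    ofReal_one, mul_one] at h
  rw [h]
  have := expo hk0 hk1 (div_nonneg (Real.log_nonneg hp1) hL.le) hs hz
  gcongr

/-- The Euler factor of zeta. -/
lemma one_sub_le {p : ℕ} (hp : p.Prime) {L : ℝ} (hs : Real.log p / L ≤ 1 / 20) {w : ℂ}
    (hw : ‖w‖ ≤ 1 / L) :
    ‖1 - (p : ℂ) ^ (-(1 + w + w))‖ ≤ Real.exp (-(1 / p) + 4 * (1 / p * (Real.log p / L))) := by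
  have hp1 : (1 : ℝ) ≤ p := by exact_mod_cast hp.one_lt.le
  have hp0 : (0 : ℝ) < p := by linarith
  have hpc : (p : ℂ) ≠ 0 := by exact_mod_cast hp.pos.ne'
  have hlog : 0 ≤ Real.log p := Real.log_nonneg hp1
  have e : (p : ℂ) ^ (-(1 + w + w)) = ((1 / p : ℝ) : ℂ) * cexp (-(2 * w * Real.log p)) := by
    rw [show -(1 + w + w) = -1 + -(2 * w) by ring, cpow_add _ _ hpc, cpow_neg_one,
      cpow_def_of_ne_zero hpc, ← natCast_log]
    push_cast
    rw [one_div]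
    congr 2
    ring
  have hn : ‖-(2 * w * (Real.log p : ℂ))‖ ≤ 2 * (Real.log p / L) := by
    rw [norm_neg, norm_mul, norm_mul, norm_real, Real.norm_eq_abs, abs_of_nonneg hlog]
    have : ‖(2 : ℂ)‖ = 2 := by norm_num
    rw [this]
    calc 2 * ‖w‖ * Real.log p ≤ 2 * (1 / L) * Real.log p := by gcongr
      _ = _ := by ring
  have h1 : ‖cexp (-(2 * w * Real.log p)) - 1‖ ≤ 4 * (Real.log p / L) :=
    (norm_exp_sub_one_le (hn.trans (by linarith))).trans (by linarith)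
  have h2 : (1 : ℝ) / p ≤ 1 := by rw [div_le_one hp0]; exact hp1
  rw [e]
  calc ‖1 - ((1 / p : ℝ) : ℂ) * cexp (-(2 * w * Real.log p))‖ =
        ‖((1 - 1 / p : ℝ) : ℂ) - ((1 / p : ℝ) : ℂ) * (cexp (-(2 * w * Real.log p)) - 1)‖ := by
        congr 1
        push_cast
        ring
    _ ≤ ‖((1 - 1 / p : ℝ) : ℂ)‖ + ‖((1 / p : ℝ) : ℂ) * (cexp (-(2 * w * Real.log p)) - 1)‖ :=
        norm_sub_le _ _
    _ ≤ (1 - 1 / p) + 1 / p * (4 * (Real.log p / L)) := by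
        rw [norm_mul, norm_real, norm_real, Real.norm_eq_abs, Real.norm_eq_abs,
          abs_of_nonneg (by linarith), abs_of_nonneg (by positivity)]
        gcongr
    _ = (-(1 / p) + 4 * (1 / p * (Real.log p / L))) + 1 := by ring
    _ ≤ _ := Real.add_one_le_exp _

/-- The Euler product of zeta over a block. -/
lemma norm_prod_le {S : Finset ℕ} (hS : ∀ p ∈ S, p.Prime) {L : ℝ}
    (hs : ∀ p ∈ S, Real.log p / L ≤ 1 / 20) {w : ℂ} (hw : ‖w‖ ≤ 1 / L) :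
    ‖∏ p ∈ S, (1 - (p : ℂ) ^ (-(1 + w + w)))‖ ≤
      Real.exp (∑ p ∈ S, (-(1 / (p : ℝ)) + 4 * (1 / p * (Real.log p / L)))) := by
  rw [norm_prod, Real.exp_sum]
  exact Finset.prod_le_prod (fun p _ => norm_nonneg _) fun p hp => one_sub_le (hS p hp) (hs p hp) hw

lemma bs_Fc {S : Finset ℕ} (T : ℝ) (M J : ℕ) (α : ℝ) (g h : Finset ℕ) (j : ℕ) (w : ℂ) :
    BS S (fun f => Fc T M J α g h j (tw w f)) := by
  unfold Fc
  refine BS.mul ?_ ?_
  · by_cases hj : j ∈ g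
    · simp only [if_pos hj]
      exact bs_Ntr _ _ (bs_Pj _ _ _ _)
    · simp only [if_neg hj]
      exact bs_const S _
  · by_cases hj : j ∈ h
    · simp only [if_pos hj, div_eq_mul_inv]
      exact ((bs_Pj _ _ _ _).mul (bs_const S _)).pow _
    · simp only [if_neg hj]
      exact bs_const S _

/-- The arithmetic-geometric mean inequality in a block. -/
lemma norm_ES_le {S : Finset ℕ} {A B G : (ℕ → ℂ) → ℂ} (hA : BS S A) (hB : BS S B) (hG : BS S G)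
    {U : ℝ} (h1 : ES S (fun f => ‖A f‖ ^ 2 * ‖G f‖ ^ 2) ≤ U)
    (h2 : ES S (fun f => ‖B f‖ ^ 2 * ‖G f‖ ^ 2) ≤ U) :
    ‖ES S (fun f => A f * (starRingEnd ℂ) (B f) * ((‖G f‖ ^ 2 : ℝ) : ℂ))‖ ≤ U := by
  have b1 : BS S (fun f => ‖A f‖ ^ 2 * ‖G f‖ ^ 2) := BS.mulR hA.norm_sq hG.norm_sq
  have b2 : BS S (fun f => ‖B f‖ ^ 2 * ‖G f‖ ^ 2) := BS.mulR hB.norm_sq hG.norm_sq
  have b3 : BS S (fun f => 1 / 2 * (‖A f‖ ^ 2 * ‖G f‖ ^ 2)) := BS.mulR (bs_const S _) b1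
  have b4 : BS S (fun f => 1 / 2 * (‖B f‖ ^ 2 * ‖G f‖ ^ 2)) := BS.mulR (bs_const S _) b2
  calc ‖ES S (fun f => A f * (starRingEnd ℂ) (B f) * ((‖G f‖ ^ 2 : ℝ) : ℂ))‖
      ≤ ES S (fun f => ‖A f * (starRingEnd ℂ) (B f) * ((‖G f‖ ^ 2 : ℝ) : ℂ)‖) :=
        norm_integral_le_integral_norm _
    _ ≤ ES S (fun f => 1 / 2 * (‖A f‖ ^ 2 * ‖G f‖ ^ 2) + 1 / 2 * (‖B f‖ ^ 2 * ‖G f‖ ^ 2)) := by
        apply ES_mono
        · intro ω; positivity
        · exact (BS.add b3 b4).integrable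
        · intro ω
          rw [norm_mul, norm_mul, RCLike.norm_conj, norm_real, Real.norm_eq_abs,
            abs_of_nonneg (by positivity)]
          have h3 : 0 ≤ ‖G (ext S ω)‖ ^ 2 := by positivity
          nlinarith [mul_nonneg h3 (sq_nonneg (‖A (ext S ω)‖ - ‖B (ext S ω)‖))]
    _ = 1 / 2 * ES S (fun f => ‖A f‖ ^ 2 * ‖G f‖ ^ 2) +
        1 / 2 * ES S (fun f => ‖B f‖ ^ 2 * ‖G f‖ ^ 2) := by
        rw [XB.ES_add b3 b4, XB.ES_const_mul, XB.ES_const_mul]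
    _ ≤ U := by linarith

end BotCrude

open XB BotCrude in
theorem stBotCrude : StBotCrude := by
  intro k hk0' hk1'
  have hk0 : 0 ≤ k := hk0'.le
  have hk1 : k ≤ 1 := hk1'.le
  obtain ⟨Cg, hCg, good⟩ := good_block
  obtain ⟨Cb, hCb, bad⟩ := bad_block
  obtain ⟨Cs, hCs, hS0⟩ := sum_inv_S0
  obtain ⟨Cr, hCr, hrange⟩ := sum_inv_block
  obtain ⟨C1, hC1, hlogdiv⟩ := sum_log_div_le
  obtain ⟨C3, hC3, hinv⟩ := sum_inv
  set C := 1 + 2 * C3 + 24 + 8 * Cg + 165 * Real.exp (4 * Cg) with hC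
  refine ⟨C, by positivity, ⌈140 + 80 * Cb⌉₊ + 1, fun M hM => ?_⟩
  have hMr : 140 + 80 * Cb ≤ M := by
    have h1 := Nat.le_ceil (140 + 80 * Cb)
    have h2 : (⌈140 + 80 * Cb⌉₊ : ℝ) ≤ M := by exact_mod_cast (by omega :
      ⌈140 + 80 * Cb⌉₊ ≤ M)
    linarith
  have hM1 : 1 ≤ M := by omega
  have hM1' : (1 : ℝ) ≤ M := by exact_mod_cast hM1
  set D := Cr + 10 * (6 + 2 * (Cb + Cg) * (1 + Cs)) with hD
  obtain ⟨T₀, hT₀, hev⟩ := eventually_T M 20 D C1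
  refine ⟨T₀, hT₀, fun T hT g h hgh w hw => ?_⟩
  obtain ⟨hb1, hLc, hbet, hK0, hLc₁⟩ := hev T hT
  have hT3 : 3 ≤ T := hT₀.trans hT
  have hT1 : 1 < T := by linarith
  have hT0 : 0 < T := by linarith
  have hL : 0 < Real.log T := Real.log_pos hT1
  set J := JJ T with hJ
  set L := Real.log T with hLdef
  set b := Real.log L with hb
  have hα : |k - 1| ≤ 1 := by rw [abs_le]; constructor <;> linarith
  have hDC : Cr ≤ D := by
    have : 0 ≤ 10 * (6 + 2 * (Cb + Cg) * (1 + Cs)) := by positivity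
    linarith
  obtain ⟨hj, -⟩ := hrange T hT3 M J (hDC.trans hbet)
  have hcM : Real.exp (-(M : ℝ)) ≤ 1 / 40 := by
    rw [Real.exp_neg, inv_le_comm₀ (Real.exp_pos _) (by norm_num)]
    have := Real.add_one_le_exp (M : ℝ)
    linarith
  have hbJ : bet M J J = Real.exp (-(M : ℝ)) := by
    rw [bet]; congr 1; ring
  -- the primes of the lower blocks
  have hθ : ∀ j, j ≤ J → ∀ p ∈ Sj T M J j, Real.log p / L ≤ 1 / 20 := by
    intro j hj p hp
    have hp' := (mem_Sj hT1).1 hp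
    have hp1 : (0 : ℝ) < p := by exact_mod_cast hp'.1.pos
    have h1 : Real.log p ≤ bet M J J * L := by
      rw [← log_yy (le_refl J)]
      exact Real.log_le_log hp1 (hp'.2.2.trans (yy_mono hT1 M J (by omega)))
    have h2 : Real.log p / L ≤ bet M J J := by
      rw [div_le_iff₀ hL]; exact h1
    rw [hbJ] at h2
    linarith
  have hh : h ⊆ Finset.range (J + 1) := by
    rw [← hgh]; exact Finset.subset_union_right
  set F : ℕ → ℝ := fun p => k ^ 2 * (1 / p) + 8 * (1 / p * (Real.log p / L)) +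
    4 * Cg * ((p : ℝ) ^ 2)⁻¹ with hF
  have hθ0 : ∀ p : ℕ, 0 ≤ Real.log p / L := fun p =>
    div_nonneg (Real.log_natCast_nonneg p) hL.le
  have hF0 : ∀ p, 0 ≤ F p := by
    intro p
    have h1 := hθ0 p
    simp only [hF]
    positivity
  have hw2 : ((1 / 2 : ℝ) : ℂ) = 1 / 2 := by push_cast; rfl
  set U : ℕ → ℝ := fun j => if j ∈ h then ss M J j else
    Real.exp (∑ p ∈ Sj T M J j, F p + 33 * (Real.exp (4 * Cg) * Real.exp (-KK M J j))) with hU
  have hU0 : ∀ j, 0 ≤ U j := by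
    intro j
    simp only [hU]
    split_ifs
    · exact (Real.exp_pos _).le
    · exact (Real.exp_pos _).le
  -- the second moments
  have key : ∀ v : ℂ, ‖v‖ ≤ 1 / L → 0 < ((1 / 2 : ℂ) + v).re ∧ ∀ j, j ≤ J →
      ES (Sj T M J j) (fun f => ‖ZZ (Sj T M J j) (tw (1 / 2 + v) f)‖ ^ 2 *
        ‖Fc T M J (k - 1) g h j (tw (1 / 2) f)‖ ^ 2) ≤ U j := by
    intro v hv
    have hre0 : -1 ≤ v.re * L := by
      have h1 := (abs_le.1 ((abs_re_le_norm v).trans hv)).1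
      calc (-1 : ℝ) = -(1 / L) * L := by field_simp
        _ ≤ v.re * L := by gcongr
    have hre : ((1 / 2 : ℂ) + v).re = 1 / 2 + (v.re * L) / L := by
      rw [add_re, mul_div_assoc, div_self hL.ne', mul_one]; norm_num
    have hrepos : 0 < ((1 / 2 : ℂ) + v).re := by
      rw [add_re]
      have h1 := (abs_le.1 ((abs_re_le_norm v).trans hv)).1
      have h2 : 1 / L ≤ 1 / 20 := by gcongr
      have h3 : ((1 / 2 : ℂ)).re = 1 / 2 := by norm_num
      rw [h3]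
      linarith
    refine ⟨hrepos, ?_⟩
    have hyp : ∀ j, j ≤ J → ∀ p ∈ Sj T M J j,
        yp ((1 / 2 : ℂ) + v).re (1 / 2) p ≤ 3 / 4 ∧
        yp ((1 / 2 : ℂ) + v).re (1 / 2) p ^ 2 ≤ 2 * (1 / p) ∧
        yp ((1 / 2 : ℂ) + v).re (1 / 2) p ^ 4 ≤ 4 * ((p : ℝ) ^ 2)⁻¹ := by
      intro j hj p hp
      rw [hre]
      exact yp_le' (prime_Sj hT1 hp) hL hre0 (hθ j hj p hp)
    set w₁ : ℂ := (1 / 2 : ℂ) + v with hw₁
    set Y : ℕ → ℝ := fun j => ∑ p ∈ Sj T M J j, yp w₁.re (1 / 2) p ^ 2 with hY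
    have hY0 : Y 0 ≤ 2 * (b + Cs) := by
      calc Y 0 ≤ ∑ p ∈ Sj T M J 0, 2 * (1 / (p : ℝ)) :=
            Finset.sum_le_sum fun p hp => (hyp 0 (Nat.zero_le _) p hp).2.1
        _ = 2 * ∑ p ∈ Sj T M J 0, 1 / (p : ℝ) := by rw [Finset.mul_sum]
        _ ≤ _ := by
            have := hS0 T hT3 M J
            gcongr
    have hYj : ∀ j, 1 ≤ j → j ≤ J → Y j ≤ 4 := by
      intro j h1 h2
      calc Y j ≤ ∑ p ∈ Sj T M J j, 2 * (1 / (p : ℝ)) :=
            Finset.sum_le_sum fun p hp => (hyp j h2 p hp).2.1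
        _ = 2 * ∑ p ∈ Sj T M J j, 1 / (p : ℝ) := by rw [Finset.mul_sum]
        _ ≤ 2 * 2 := by
            have := hj j h1 h2
            gcongr
        _ = 4 := by norm_num
    have hKge : ∀ j, j ≤ J → 10 * (6 + Cb * 4) ≤ KK M J j := by
      intro j hjJ
      have h1 := Real.add_one_le_exp (3 / 4 * ((M : ℝ) + J - j))
      have h2 : (j : ℝ) ≤ J := by exact_mod_cast hjJ
      unfold KK
      linarith
    have hK0' : 10 * (6 + 2 * (Cb + Cg) * (b + Cs)) ≤ KK M J 0 := by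
      refine le_trans ?_ hK0
      have h1 : 0 ≤ Cb + Cg := by positivity
      have h2 : 10 * (6 + 2 * (Cb + Cg) * (b + Cs)) ≤
          10 * (6 + 2 * (Cb + Cg) * (1 + Cs)) * (b + 1) := by
        have h3 : b + Cs ≤ (1 + Cs) * (b + 1) := by nlinarith
        have h4 : 2 * (Cb + Cg) * (b + Cs) ≤ 2 * (Cb + Cg) * ((1 + Cs) * (b + 1)) := by gcongr
        nlinarith
      have h5 : 10 * (6 + 2 * (Cb + Cg) * (1 + Cs)) * (b + 1) ≤ D * (b + 1) := by
        gcongr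
        linarith
      exact h2.trans h5
    have hbad : ∀ j, j ≤ J → 6 + Cb * Y j ≤ KK M J j / 10 := by
      intro j hjJ
      rcases Nat.eq_zero_or_pos j with rfl | hpos
      · have h1 : Cb * Y 0 ≤ Cb * (2 * (b + Cs)) := by gcongr
        have h2 : 0 ≤ Cg * (b + Cs) := by positivity
        linarith
      · have h1 : Cb * Y j ≤ Cb * 4 := by
          have := hYj j hpos hjJ
          gcongr
        have h2 := hKge j hjJ
        linarith
    have hgood : ∀ j, j ≤ J → Real.exp (-(ll M J j : ℝ) + Cg * Y j) ≤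
        Real.exp (4 * Cg) * Real.exp (-KK M J j) := by
      intro j hjJ
      rw [← Real.exp_add]
      apply Real.exp_le_exp.2
      have hKpos := Len.KK_ge_one (M := M) hjJ
      have hl : 10 * KK M J j ≤ ll M J j := Nat.le_ceil _
      rcases Nat.eq_zero_or_pos j with rfl | hpos
      · have h1 : Cg * Y 0 ≤ Cg * (2 * (b + Cs)) := by gcongr
        have h2 : 0 ≤ Cb * (b + Cs) := by positivity
        linarith
      · have h1 : Cg * Y j ≤ Cg * 4 := by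
          have := hYj j hpos hjJ
          gcongr
        linarith
    intro j hjJ
    have hnd : j ∈ Finset.range (J + 1) := Finset.mem_range.2 (by omega)
    simp only [hU]
    by_cases hjh : j ∈ h
    · rw [if_pos hjh]
      have h1 := bad M (rr M J j) (Sj T M J j) w₁ (1 / 2)
        (fun f => Fc T M J (k - 1) g h j (tw (((1 / 2 : ℝ) : ℂ)) f))
        hM1 hrepos (fun p hp => prime_Sj hT1 hp) (fun p hp => (hyp j hjJ p hp).1)
        (fun f => Fc_bad hα hjJ hjh _)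
      rw [hw2] at h1
      exact h1.trans (bad_num (hbad j hjJ))
    · rw [if_neg hjh]
      have hjg : j ∈ g := by
        rw [← hgh, Finset.mem_union] at hnd
        tauto
      have h1 := good M (ll M J j) (Sj T M J j) w₁ (1 / 2) k hM1 hrepos hk0 hk1
        (fun p hp => prime_Sj hT1 hp) (fun p hp => (hyp j hjJ p hp).1)
      have e1 : (fun f : ℕ → ℂ => ‖ZZ (Sj T M J j) (tw w₁ f)‖ ^ 2 *
          ‖Fc T M J (k - 1) g h j (tw (1 / 2) f)‖ ^ 2) = fun f : ℕ → ℂ =>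
          ‖ZZ (Sj T M J j) (tw w₁ f)‖ ^ 2 *
          ‖Ntr (ll M J j) (k - 1) (Pj M (Sj T M J j) (tw (((1 / 2 : ℝ) : ℂ)) f))‖ ^ 2 := by
        funext f
        rw [Fc_good hjg hjh, hw2]
      rw [e1]
      refine h1.trans ?_
      rw [← Real.exp_add]
      apply Real.exp_le_exp.2
      have h2 := hgood j hjJ
      have h3 : ∑ p ∈ Sj T M J j, (‖(p : ℂ) ^ (-w₁) +
          ((k - 1 : ℝ) : ℂ) * (((p : ℝ) ^ (-(1 / 2 : ℝ)) : ℝ) : ℂ)‖ ^ 2 +
          Cg * (yp w₁.re (1 / 2) p) ^ 4) ≤ ∑ p ∈ Sj T M J j, F p := by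
        refine Finset.sum_le_sum fun p hp => ?_
        have h4 := (hyp j hjJ p hp).2.2
        have h5 := prime_expo (prime_Sj hT1 hp) hL hk0 hk1 (hθ j hjJ p hp) hv
        have h6 : Cg * yp w₁.re (1 / 2) p ^ 4 ≤ Cg * (4 * ((p : ℝ) ^ 2)⁻¹) := by gcongr
        simp only [hF]
        rw [← hw₁] at h5
        linarith
      gcongr
  -- the factors
  obtain ⟨hr1, k1⟩ := key w hw
  obtain ⟨hr2, k2⟩ := key ((starRingEnd ℂ) w) (by rw [RCLike.norm_conj]; exact hw)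
  set W : ℕ → ℝ := fun p => -(1 / (p : ℝ)) + 4 * (1 / p * (Real.log p / L)) with hW
  have hfac : ∀ j ∈ Finset.range (J + 1), ‖EBo T M k g h w j‖ ≤
      U j * Real.exp (∑ p ∈ Sj T M J j, W p) := by
    intro j hjr
    have hjJ : j ≤ J := by
      have := Finset.mem_range.1 hjr
      omega
    rw [EBo, norm_mul]
    have hpr : ∀ p ∈ Sj T M J j, p.Prime := fun p hp => prime_Sj hT1 hp
    refine mul_le_mul ?_ ?_ (norm_nonneg _) (hU0 j)
    · exact norm_ES_le (bs_ZZ hpr hr1) (bs_ZZ hpr hr2) (bs_Fc _ _ _ _ _ _ _ _) (k1 j hjJ) (k2 j hjJ)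
    · exact norm_prod_le hpr (hθ j hjJ) hw
  set P := ∏ j ∈ h, ss M J j with hP
  have hP0 : 0 ≤ P := Finset.prod_nonneg fun j _ => (Real.exp_pos _).le
  have hprodU : ∏ j ∈ Finset.range (J + 1), U j = P * Real.exp (∑ j ∈ Finset.range (J + 1) \ h,
      (∑ p ∈ Sj T M J j, F p + 33 * (Real.exp (4 * Cg) * Real.exp (-KK M J j)))) := by
    rw [← Finset.prod_sdiff hh, mul_comm P, Real.exp_sum]
    congr 1
    · refine Finset.prod_congr rfl fun j hj => ?_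
      simp only [hU, if_neg (Finset.mem_sdiff.1 hj).2]
    · refine Finset.prod_congr rfl fun j hj => ?_
      simp only [hU, if_pos hj]
  have hyy : Real.log (yy T M J (J + 1)) = Real.exp (-(M : ℝ)) * L := by
    rw [log_yy (le_refl J), hbJ]
  have hyy1 : 1 ≤ yy T M J (J + 1) := by
    rw [Len.yy_succ (le_refl J)]
    exact Real.one_le_exp (mul_nonneg (bet_pos _ _ _).le hL.le)
  have hbL : bet M J 0 ≤ bet M J J := bet_mono (Nat.zero_le J)
  have hyy2 : 2 ≤ yy T M J (J + 1) := by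
    rw [Len.yy_succ (le_refl J)]
    have h1 := Real.add_one_le_exp (bet M J J * L)
    have h2 : bet M J 0 * L ≤ bet M J J * L := by gcongr
    have h3 := hDC.trans hbet
    linarith
  have hyyT : yy T M J (J + 1) ≤ T := yy_le hT1 M J (by omega)
  have hsub : PS 0 (yy T M J (J + 1)) ⊆ PS 0 T := PS_mono (by linarith) hyyT
  have hun : ∀ G : ℕ → ℝ, ∑ j ∈ Finset.range (J + 1), ∑ p ∈ Sj T M J j, G p =
      ∑ p ∈ PS 0 (yy T M J (J + 1)), G p := by
    intro G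
    rw [← Finset.sum_biUnion (fun i _ j _ hij => disj_Sj hT1 hij), biUnion_Sj hT1 M J,
      Len.yy_succ (le_refl J), hbJ]
  have s1 : ∑ p ∈ PS 0 (yy T M J (J + 1)), (1 : ℝ) / p ≤ b + C3 := by
    have h3 := (abs_le.1 (hinv T (by linarith))).2
    have h4 := Finset.sum_le_sum_of_subset_of_nonneg hsub
      (f := fun p : ℕ => (1 : ℝ) / p) (fun _ _ _ => by positivity)
    linarith
  have s1' : b - M - C3 ≤ ∑ p ∈ PS 0 (yy T M J (J + 1)), (1 : ℝ) / p := by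
    have h3 := (abs_le.1 (hinv _ hyy2)).1
    rw [hyy, Real.log_mul (Real.exp_pos _).ne' hL.ne', Real.log_exp] at h3
    linarith
  have s3 : ∑ p ∈ PS 0 (yy T M J (J + 1)), 1 / (p : ℝ) * (Real.log p / L) ≤ 2 := by
    have h1 := hlogdiv _ hyy1
    rw [hyy] at h1
    calc ∑ p ∈ PS 0 (yy T M J (J + 1)), 1 / (p : ℝ) * (Real.log p / L) =
          1 / L * ∑ p ∈ PS 0 (yy T M J (J + 1)), Real.log p / (p : ℝ) := by
          rw [Finset.mul_sum]
          exact Finset.sum_congr rfl fun p _ => by ring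
      _ ≤ 1 / L * (Real.exp (-(M : ℝ)) * L + C1) := by gcongr
      _ = Real.exp (-(M : ℝ)) + C1 / L := by field_simp
      _ ≤ 2 := by
          have : C1 / L ≤ 1 := by rw [div_le_one hL]; exact hLc
          linarith
  have s4 : ∑ p ∈ PS 0 (yy T M J (J + 1)), ((p : ℝ) ^ 2)⁻¹ ≤ 2 :=
    sum_inv_sq fun p hp => prime_PS hp
  have hsum : ∑ j ∈ Finset.range (J + 1) \ h, ∑ p ∈ Sj T M J j, F p ≤ k ^ 2 * b + (C3 + 16 + 8 * Cg) := by
    refine (sum_blocks_le hT1 M J Finset.sdiff_subset F hF0).trans ?_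
    have e : ∑ p ∈ PS 0 (yy T M J (J + 1)), F p =
        k ^ 2 * ∑ p ∈ PS 0 (yy T M J (J + 1)), (1 : ℝ) / p +
        8 * ∑ p ∈ PS 0 (yy T M J (J + 1)), 1 / (p : ℝ) * (Real.log p / L) +
        4 * Cg * ∑ p ∈ PS 0 (yy T M J (J + 1)), ((p : ℝ) ^ 2)⁻¹ := by
      simp only [hF, Finset.sum_add_distrib, ← Finset.mul_sum]
    rw [e]
    have hk2 : k ^ 2 ≤ 1 := pow_le_one₀ hk0 hk1
    have u1 : k ^ 2 * ∑ p ∈ PS 0 (yy T M J (J + 1)), (1 : ℝ) / p ≤ k ^ 2 * b + C3 := by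
      calc _ ≤ k ^ 2 * (b + C3) := by gcongr
        _ ≤ k ^ 2 * b + 1 * C3 := by
            rw [mul_add]; gcongr
        _ = _ := by ring
    have u5 : 4 * Cg * ∑ p ∈ PS 0 (yy T M J (J + 1)), ((p : ℝ) ^ 2)⁻¹ ≤ 8 * Cg := by
      calc _ ≤ 4 * Cg * 2 := by gcongr
        _ = _ := by ring
    linarith
  have hsumW : ∑ j ∈ Finset.range (J + 1), ∑ p ∈ Sj T M J j, W p ≤ -b + (M + C3 + 8) := by
    rw [hun W]
    have e : ∑ p ∈ PS 0 (yy T M J (J + 1)), W p =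
        -∑ p ∈ PS 0 (yy T M J (J + 1)), (1 : ℝ) / p +
        4 * ∑ p ∈ PS 0 (yy T M J (J + 1)), 1 / (p : ℝ) * (Real.log p / L) := by
      simp only [hW, Finset.sum_add_distrib, ← Finset.mul_sum, Finset.sum_neg_distrib]
    rw [e]
    linarith
  have hsumK : ∑ j ∈ Finset.range (J + 1) \ h, 33 * (Real.exp (4 * Cg) * Real.exp (-KK M J j)) ≤
      165 * Real.exp (4 * Cg) := by
    have h1 : ∑ j ∈ Finset.range (J + 1) \ h, Real.exp (-KK M J j) ≤ 5 :=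
      (Finset.sum_le_sum_of_subset_of_nonneg Finset.sdiff_subset
        (fun _ _ _ => (Real.exp_pos _).le)).trans (XB.sum_exp_KK M J)
    rw [← Finset.mul_sum, ← Finset.mul_sum]
    calc 33 * (Real.exp (4 * Cg) * ∑ j ∈ Finset.range (J + 1) \ h, Real.exp (-KK M J j))
        ≤ 33 * (Real.exp (4 * Cg) * 5) := by gcongr
      _ = _ := by ring
  calc ‖∏ j ∈ Finset.range (J + 1), EBo T M k g h w j‖
      ≤ ∏ j ∈ Finset.range (J + 1), (U j * Real.exp (∑ p ∈ Sj T M J j, W p)) := by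
        rw [norm_prod]
        exact Finset.prod_le_prod (fun j _ => norm_nonneg _) hfac
    _ = P * Real.exp (∑ j ∈ Finset.range (J + 1) \ h, (∑ p ∈ Sj T M J j, F p +
          33 * (Real.exp (4 * Cg) * Real.exp (-KK M J j))) +
          ∑ j ∈ Finset.range (J + 1), ∑ p ∈ Sj T M J j, W p) := by
        rw [Finset.prod_mul_distrib, hprodU, ← Real.exp_sum, mul_assoc, ← Real.exp_add]
    _ ≤ P * Real.exp (C * M + b * (k ^ 2 - 1)) := by
        refine mul_le_mul_of_nonneg_left (Real.exp_le_exp.2 ?_) hP0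
        rw [Finset.sum_add_distrib]
        have h1 : 0 ≤ 2 * C3 + 24 + 8 * Cg + 165 * Real.exp (4 * Cg) := by positivity
        have h2 : 2 * C3 + 24 + 8 * Cg + 165 * Real.exp (4 * Cg) ≤
          (2 * C3 + 24 + 8 * Cg + 165 * Real.exp (4 * Cg)) * M := le_mul_of_one_le_right h1 hM1'
        rw [hC]
        linarith
    _ = _ := by
        rw [Real.exp_add, Real.rpow_def_of_pos hL]
        ring

end K5
end Pool.Agent.Lib.MP_973905_nt
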