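import Pool.Agent.Lib.MP_973905_nt.K5.Stmts
import Pool.Agent.Lib.MP_973905_nt.K1.Crude

/-! Module (B10): the bottom blocks without zeta. -/

namespace Pool.Agent.Lib.MP_973905_nt
namespace K5

open MeasureTheory ProbabilityTheory Complex Filter Topology K1

namespace BotG

lemma half_cast : ((1 / 2 : ℝ) : ℂ) = 1 / 2 := by push_cast; ring

/-- The errors of all the blocks are small for large `M`. -/
lemma small_err {δ : ℝ} (hδ : 0 < δ) : ∀ᶠ M : ℕ in atTop,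
    3 * (4 * (2 : ℝ) ^ (-(((M : ℝ) - 3) / 2))) +
      6 * Real.exp (-(5 * Real.exp (3 / 4 * (M : ℝ)))) ≤ Real.log (1 + δ) := by
  have t1 : Tendsto (fun M : ℕ => (2 : ℝ) ^ (-(((M : ℝ) - 3) / 2))) atTop (𝓝 0) := by
    have h1 : Tendsto (fun M : ℕ => (((M : ℝ) - 3) / 2)) atTop atTop :=
      (tendsto_atTop_add_const_right _ (-3) tendsto_natCast_atTop_atTop).atTop_div_const (by norm_num)
    have h2 : Tendsto (fun x : ℝ => (2 : ℝ) ^ (-x)) atTop (𝓝 0) := by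
      have : (fun x : ℝ => (2 : ℝ) ^ (-x)) = fun x : ℝ => Real.exp (-(Real.log 2 * x)) := by
        ext x; rw [Real.rpow_def_of_pos (by norm_num)]; congr 1; ring
      rw [this]
      exact Real.tendsto_exp_neg_atTop_nhds_zero.comp
        (tendsto_id.const_mul_atTop (Real.log_pos (by norm_num)))
    exact h2.comp h1
  have t3 : Tendsto (fun M : ℕ => Real.exp (-(5 * Real.exp (3 / 4 * (M : ℝ))))) atTop (𝓝 0) := by
    refine Real.tendsto_exp_neg_atTop_nhds_zero.comp ?_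
    refine Tendsto.const_mul_atTop (by norm_num) (Real.tendsto_exp_atTop.comp ?_)
    exact Tendsto.const_mul_atTop (by norm_num) tendsto_natCast_atTop_atTop
  have t4 := ((t1.const_mul 4).const_mul 3).add (t3.const_mul 6)
  simp only [mul_zero, add_zero] at t4
  exact t4.eventually (eventually_le_nhds (Real.log_pos (by linarith)))

/-- The product of the good blocks against the normaliser. -/
lemma good_prod {δ : ℝ} (hδ : 0 < δ) : ∃ M₀ : ℕ, ∀ M : ℕ, M₀ ≤ M → ∃ T₀ : ℝ, 3 ≤ T₀ ∧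
    ∀ T, T₀ ≤ T → ∀ k : ℝ, 0 < k → k ≤ 1 →
    ∏ j ∈ Finset.range (JJ T + 1), ES (Sj T M (JJ T) j) (fun f =>
        ‖Fc T M (JJ T) k (Finset.range (JJ T + 1)) ∅ j (tw (1 / 2) f)‖ ^ 2) ≤
      (1 + δ) * DJ k (1 / 2) T M (JJ T) := by
  obtain ⟨C₁, hC₁, hcore⟩ := block_core
  obtain ⟨M₁, hM₁⟩ := block_cond C₁ hC₁
  obtain ⟨M₂, hM₂⟩ := eventually_atTop.mp (small_err hδ)
  refine ⟨max (max M₁ M₂) 4, fun M hM => ?_⟩
  have hMM₁ : M₁ ≤ M := (le_max_left _ _).trans ((le_max_left _ _).trans hM)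
  have hMM₂ : M₂ ≤ M := (le_max_right _ _).trans ((le_max_left _ _).trans hM)
  have hM4 : 4 ≤ M := (le_max_right _ _).trans hM
  obtain ⟨T₁, hT₁3, hT₁⟩ := hM₁ M hMM₁
  refine ⟨T₁, hT₁3, fun T hT k hk0 hk1 => ?_⟩
  have hT1 : 1 < T := by linarith
  set J := JJ T with hJ
  have hS : ∀ j, ∀ p ∈ Sj T M J j, p.Prime := fun j p hp => prime_Sj hT1 hp
  have hDS : ∀ j, 1 ≤ DS k (1 / 2) (Sj T M J j) := fun j => DS_ge_one hk0 le_rfl (hS j)
  set ε : ℕ → ℝ := fun j => 3 * rho M (Sj T M J j) + 3 * Real.exp (-((ll M J j : ℝ) / 2)) with hε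
  have hεsum : ∑ j ∈ Finset.range (J + 1), ε j ≤ Real.log (1 + δ) := by
    refine le_trans ?_ (hM₂ M hMM₂)
    simp only [hε]
    rw [Finset.sum_add_distrib, ← Finset.mul_sum, ← Finset.mul_sum]
    have h1 := sum_rho hT1 (M := M) (J := J) (by omega)
    have h2 : ∑ j ∈ Finset.range (J + 1), Real.exp (-((ll M J j : ℝ) / 2)) ≤
        2 * Real.exp (-(5 * Real.exp (3 / 4 * (M : ℝ)))) := by
      refine le_trans (Finset.sum_le_sum fun j _ => ?_) (sum_exp_KK (J := J) ?_ (by norm_num))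
      · apply Real.exp_le_exp.mpr
        have : 10 * KK M J j ≤ (ll M J j : ℝ) := Nat.le_ceil _
        linarith
      · have := Real.one_le_exp (show 0 ≤ 3 / 4 * (M : ℝ) by positivity)
        linarith
    linarith
  have hexp : Real.exp (∑ j ∈ Finset.range (J + 1), ε j) ≤ 1 + δ := by
    rw [← Real.exp_log (show 0 < 1 + δ by linarith)]
    exact Real.exp_le_exp.mpr hεsum
  have h1 : ∏ j ∈ Finset.range (J + 1), ES (Sj T M J j) (fun f =>
        ‖Fc T M J k (Finset.range (J + 1)) ∅ j (tw (1 / 2) f)‖ ^ 2) ≤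
      ∏ j ∈ Finset.range (J + 1), (DS k (1 / 2) (Sj T M J j) * Real.exp (ε j)) := by
    refine Finset.prod_le_prod (fun j _ => ES_nonneg fun ω => by positivity) fun j hj => ?_
    have h2 := (hcore M (ll M J j) (Sj T M J j) (1 / 2) k (by omega) (hS j) le_rfl hk0.le hk1 (hDS j)
      (hT₁ T hT j (by have := Finset.mem_range.mp hj; omega) (1 / 2) le_rfl).1).2.1
    rw [half_cast] at h2
    have e2 : (fun f : ℕ → ℂ => ‖Fc T M J k (Finset.range (J + 1)) ∅ j (tw (1 / 2) f)‖ ^ 2) =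
        fun f : ℕ → ℂ => ‖Ntr (ll M J j) k (Pj M (Sj T M J j) (tw (1 / 2) f))‖ ^ 2 := by
      funext f
      rw [Fc, if_pos hj, if_neg (Finset.notMem_empty _), mul_one]
    rw [e2]
    refine h2.trans ?_
    have : 0 ≤ DS k (1 / 2) (Sj T M J j) := by linarith [hDS j]
    gcongr
    simp only [hε]
    have := rho_nonneg M (Sj T M J j)
    linarith
  rw [Finset.prod_mul_distrib, ← Real.exp_sum] at h1
  have hD0 : 0 ≤ DJ k (1 / 2) T M J := Finset.prod_nonneg fun j _ => by linarith [hDS j]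
  calc _ ≤ DJ k (1 / 2) T M J * Real.exp (∑ j ∈ Finset.range (J + 1), ε j) := h1
    _ ≤ DJ k (1 / 2) T M J * (1 + δ) := by gcongr
    _ = _ := mul_comm _ _

/-- The normaliser against its asymptotics. -/
lemma DJ_asymp (hA : StAK) {k : ℝ} (hk0 : 0 < k) (hk1 : k ≤ 1) {δ : ℝ} (hδ : 0 < δ) (M : ℕ) :
    ∃ T₀ : ℝ, 3 ≤ T₀ ∧ ∀ T, T₀ ≤ T →
      DJ k (1 / 2) T M (JJ T) ≤ (1 + δ) * (aK k * lM T M ^ (k ^ 2)) := by
  obtain ⟨hak, hlim, -⟩ := hA k hk0 hk1
  have hev : ∀ᶠ y : ℝ in atTop, (∏ p ∈ PS 0 y, Dl k ((p : ℝ) ^ (-(1 / 2) : ℝ))) /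
      (Real.exp Real.eulerMascheroniConstant * Real.log y) ^ (k ^ 2) ≤ (1 + δ) * aK k := by
    refine hlim.eventually (eventually_le_nhds ?_)
    nlinarith
  have ht : Tendsto (fun T : ℝ => Real.exp (Real.exp (-(M : ℝ)) * Real.log T)) atTop atTop :=
    Real.tendsto_exp_atTop.comp (Real.tendsto_log_atTop.const_mul_atTop (Real.exp_pos _))
  obtain ⟨T₁, hT₁⟩ := eventually_atTop.mp (ht.eventually hev)
  refine ⟨max T₁ 3, le_max_right _ _, fun T hT => ?_⟩
  have hT3 : 3 ≤ T := (le_max_right _ _).trans hT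
  have hT1 : 1 < T := by linarith
  have hL : 0 < Real.log T := Real.log_pos hT1
  have h1 := hT₁ T ((le_max_left _ _).trans hT)
  have e1 : Real.exp Real.eulerMascheroniConstant *
      Real.log (Real.exp (Real.exp (-(M : ℝ)) * Real.log T)) = lM T M := by
    rw [Real.log_exp, lM, sub_eq_add_neg, Real.exp_add]
    ring
  rw [e1, ← DJ_eq hT1 k (1 / 2) M (JJ T)] at h1
  have hl : 0 < lM T M := mul_pos (Real.exp_pos _) hL
  rw [div_le_iff₀ (Real.rpow_pos_of_pos hl _)] at h1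
  linarith

end BotG

open BotG in
theorem stBotG (hA : StAK) : StBotG := by
  intro k hk0 hk1
  constructor
  · intro η hη
    set δ : ℝ := min 1 (η / 3) with hδd
    have hδ : 0 < δ := lt_min one_pos (by positivity)
    have hδ1 : δ ≤ 1 := min_le_left _ _
    have hδ2 : δ ≤ η / 3 := min_le_right _ _
    obtain ⟨M₀, hM₀⟩ := good_prod hδ
    refine ⟨M₀, fun M hM => ?_⟩
    obtain ⟨T₁, hT₁3, hT₁⟩ := hM₀ M hM
    obtain ⟨T₂, hT₂3, hT₂⟩ := DJ_asymp hA hk0 hk1.le hδ M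
    refine ⟨max T₁ T₂, hT₁3.trans (le_max_left _ _), fun T hT => ?_⟩
    have hT3 : 3 ≤ T := hT₁3.trans ((le_max_left _ _).trans hT)
    have hL : 0 < Real.log T := Real.log_pos (by linarith)
    have h1 := hT₁ T ((le_max_left _ _).trans hT) k hk0 hk1.le
    have h2 := hT₂ T ((le_max_right _ _).trans hT)
    obtain ⟨hak, -⟩ := hA k hk0 hk1.le
    have hl : 0 < lM T M := mul_pos (Real.exp_pos _) hL
    have hP : 0 < aK k * lM T M ^ (k ^ 2) := mul_pos hak (Real.rpow_pos_of_pos hl _)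
    calc _ ≤ (1 + δ) * DJ k (1 / 2) T M (JJ T) := h1
      _ ≤ (1 + δ) * ((1 + δ) * (aK k * lM T M ^ (k ^ 2))) := by gcongr
      _ = ((1 + δ) * (1 + δ)) * (aK k * lM T M ^ (k ^ 2)) := by ring
      _ ≤ (1 + η) * (aK k * lM T M ^ (k ^ 2)) := by
          refine mul_le_mul_of_nonneg_right ?_ hP.le
          nlinarith
  · obtain ⟨C, hC, M₀, hM₀1, hM₀⟩ := K1.Crude.core0
    refine ⟨C, hC, M₀, fun M hM => ?_⟩
    obtain ⟨T₀, hT₀3, hT₀⟩ := hM₀ M hM
    refine ⟨T₀, hT₀3, fun T hT g h hgh => ?_⟩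
    have hT1 : 1 < T := by linarith
    have hL : 0 < Real.log T := Real.log_pos hT1
    have h1 := hT₀ T hT k hk0.le hk1.le g h hgh
    rw [K1.Crude.ER_factor0 hT1, half_cast] at h1
    refine h1.trans ?_
    have hM1 : (1 : ℝ) ≤ M := by exact_mod_cast hM₀1.trans hM
    have hP0 : 0 ≤ ∏ j ∈ h, ss M (JJ T) j := Finset.prod_nonneg fun j _ => (Real.exp_pos _).le
    have hLk : 0 ≤ Real.log T ^ (k ^ 2) := Real.rpow_nonneg hL.le _
    have h2 : Real.exp C ≤ Real.exp (C * M) := Real.exp_le_exp.mpr (le_mul_of_one_le_right hC.le hM1)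
    gcongr

end K5
end Pool.Agent.Lib.MP_973905_nt
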