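import Pool.Agent.Lib.MP_973905_nt.K5.Stmts

namespace Pool.Agent.Lib.MP_973905_nt
namespace K5

open MeasureTheory ProbabilityTheory Complex Filter Topology K1

namespace GaussB

/-! ### Moments of the Gaussian law -/

lemma mom_rec {R : Type*} [CommRing R] (n : ℕ) (μ s : R) :
    mom (n + 1) μ s = μ * mom n μ s + (n : R) * s * mom (n - 1) μ s := by
  cases n with
  | zero => simp [mom]
  | succ n => simp [mom]

lemma hasDerivAt_mom (s : ℂ) (n : ℕ) : ∀ μ : ℂ,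
    HasDerivAt (fun m => mom n m s) (n * mom (n - 1) μ s) μ := by
  induction n using Nat.strong_induction_on with
  | _ n ih =>
    intro μ
    match n, ih with
    | 0, _ => simpa [mom] using hasDerivAt_const μ (1 : ℂ)
    | 1, _ => simpa [mom] using hasDerivAt_id' μ
    | n + 2, ih =>
      have h1 := ih (n + 1) (by omega) μ
      have h0 := ih n (by omega) μ
      have h := ((hasDerivAt_id μ).mul h1).add (h0.const_mul (((n + 1 : ℕ) : ℂ) * s))
      have e : (fun m : ℂ => mom (n + 2) m s) =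
          ((id * fun m => mom (n + 1) m s) + fun y => (((n + 1 : ℕ) : ℂ) * s) * mom n y s) := by
        funext m
        simp [mom]
      rw [e]
      refine h.congr_deriv ?_
      have e1 := mom_rec n μ s
      simp only [Nat.add_sub_cancel, id_eq, show n + 2 - 1 = n + 1 by omega]
      rw [e1]
      push_cast
      ring

lemma mom_ofReal (m s : ℝ) (n : ℕ) : ((mom n m s : ℝ) : ℂ) = mom n (m : ℂ) (s : ℂ) := by
  induction n using Nat.strong_induction_on with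
  | _ n ih =>
    match n, ih with
    | 0, _ => simp [mom]
    | 1, _ => simp [mom]
    | n + 2, ih =>
      have h1 := ih (n + 1) (by omega)
      have h0 := ih n (by omega)
      simp only [mom]
      push_cast
      rw [h1, h0]

/-- The derivatives of `exp (z m + z² σ / 2)`. -/
noncomputable def Gs (m σ : ℂ) (n : ℕ) (z : ℂ) : ℂ :=
  mom n (m + z * σ) σ * cexp (z * m + z ^ 2 * (σ / 2))

lemma hasDerivAt_Gs (m σ : ℂ) (n : ℕ) (z : ℂ) : HasDerivAt (Gs m σ n) (Gs m σ (n + 1) z) z := by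
  have h1 : HasDerivAt (fun z : ℂ => m + z * σ) σ z := by
    simpa using ((hasDerivAt_id z).mul_const σ).const_add m
  have h2 : HasDerivAt (fun z : ℂ => mom n (m + z * σ) σ)
      (n * mom (n - 1) (m + z * σ) σ * σ) z := by
    have h := HasDerivAt.comp z (hasDerivAt_mom σ n (m + z * σ)) h1
    exact h
  have h3 : HasDerivAt (fun z : ℂ => z * m + z ^ 2 * (σ / 2)) (m + z * σ) z := by
    have h := ((hasDerivAt_id z).mul_const m).add ((hasDerivAt_pow 2 z).mul_const (σ / 2))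
    refine h.congr_deriv ?_
    simp
    ring
  have h := h2.mul h3.cexp
  refine h.congr_deriv ?_
  rw [Gs, mom_rec n (m + z * σ) σ]
  ring

/-- Cauchy's estimate for a tower of derivatives. -/
lemma cauchy_tower (D : ℕ → ℂ → ℂ) (h : ∀ n z, HasDerivAt (D n) (D (n + 1) z) z) {C : ℝ}
    (hC : ∀ z : ℂ, ‖z‖ ≤ 1 → ‖D 0 z‖ ≤ C) (n : ℕ) : ‖D n 0‖ ≤ n.factorial * C := by
  have h1 : ∀ n, iteratedDeriv n (D 0) = D n := by
    intro n
    induction n with
    | zero => simp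
    | succ n ih =>
      rw [iteratedDeriv_succ, ih]
      funext z
      exact (h n z).deriv
  have hd : Differentiable ℂ (D 0) := fun z => (h 0 z).differentiableAt
  have h2 := Complex.norm_iteratedDeriv_le_of_forall_mem_sphere_norm_le (c := 0) (R := 1) (C := C)
    n one_pos hd.diffContOnCl (fun z hz => hC z (by simpa using hz.le))
  rw [h1 n] at h2
  simpa using h2

/-! ### The moments as derivatives -/

/-- The derivatives of `E W e^{zY}`. -/
noncomputable def Es (S : Finset ℕ) (W Y : (ℕ → ℂ) → ℂ) (n : ℕ) (z : ℂ) : ℂ :=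
  ES S (fun f => W f * (Y f ^ n * cexp (z * Y f)))

lemma hasDerivAt_Es {S : Finset ℕ} {W Y : (ℕ → ℂ) → ℂ} (hW : BS S W) (hY : BS S Y) (n : ℕ) (z : ℂ) :
    HasDerivAt (Es S W Y n) (Es S W Y (n + 1) z) z := by
  obtain ⟨hW1, CW, hW2⟩ := hW
  obtain ⟨hY1, CY, hY2⟩ := hY
  have hb : ∀ k : ℕ, ∀ z : ℂ, BS S (fun f => W f * (Y f ^ k * cexp (z * Y f))) := fun k z =>
    BS.mul ⟨hW1, CW, hW2⟩ ((BS.pow ⟨hY1, CY, hY2⟩ k).mul
      ((bs_const S z).mul ⟨hY1, CY, hY2⟩).cexp)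
  have h0 : ∀ ω : S → ℝ, 0 ≤ CY := fun ω => (norm_nonneg _).trans (hY2 ω)
  have h0W : ∀ ω : S → ℝ, 0 ≤ CW := fun ω => (norm_nonneg _).trans (hW2 ω)
  refine (hasDerivAt_integral_of_dominated_loc_of_deriv_le
    (F := fun z (ω : S → ℝ) => W (ext S ω) * (Y (ext S ω) ^ n * cexp (z * Y (ext S ω))))
    (F' := fun z (ω : S → ℝ) => W (ext S ω) * (Y (ext S ω) ^ (n + 1) * cexp (z * Y (ext S ω))))
    (bound := fun _ => CW * (CY ^ (n + 1) * Real.exp ((‖z‖ + 1) * CY)))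
    (Metric.ball_mem_nhds z one_pos) ?_ ?_ ?_ ?_ ?_ ?_).2
  · exact Filter.Eventually.of_forall fun z' => (hb n z').integrable.aestronglyMeasurable
  · exact (hb n z).integrable
  · exact (hb (n + 1) z).integrable.aestronglyMeasurable
  · refine Filter.Eventually.of_forall fun ω z' hz' => ?_
    have hz2 : ‖z'‖ ≤ ‖z‖ + 1 := by
      have h1 : ‖z' - z‖ < 1 := by simpa [dist_eq_norm] using hz'
      have h2 := norm_sub_norm_le z' z
      linarith
    rw [norm_mul, norm_mul, norm_pow, norm_exp]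
    refine mul_le_mul (hW2 ω) ?_ (by positivity) (h0W ω)
    refine mul_le_mul (pow_le_pow_left₀ (norm_nonneg _) (hY2 ω) _) ?_ (by positivity)
      (pow_nonneg (h0 ω) _)
    apply Real.exp_le_exp.mpr
    refine (re_le_norm _).trans ?_
    rw [norm_mul]
    exact mul_le_mul hz2 (hY2 ω) (norm_nonneg _) (by positivity)
  · exact integrable_const _
  · refine Filter.Eventually.of_forall fun ω z' _ => ?_
    have h1 : HasDerivAt (fun z : ℂ => z * Y (ext S ω)) (Y (ext S ω)) z' := by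
      simpa using (hasDerivAt_id z').mul_const (Y (ext S ω))
    have h2 := ((h1.cexp).const_mul (Y (ext S ω) ^ n)).const_mul (W (ext S ω))
    refine h2.congr_deriv ?_
    ring

/-! ### The local factor -/

lemma pt_aux {a b y : ℂ} {r : ℝ} (hr0 : 0 ≤ r) (hr : r ≤ 1 / 2) (ha : ‖a‖ ≤ r) (hb : ‖b‖ ≤ r)
    (hy : ‖y‖ ≤ r) :
    ‖(1 - a)⁻¹ * (1 - b)⁻¹ * (1 - a * b) * cexp y -
      (1 + (a + b) + (a ^ 2 + b ^ 2) + y + y * (a + b) + y ^ 2 / 2)‖ ≤ 18 * r ^ 3 := by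
  have ha1 : 1 - a ≠ 0 := by
    intro h
    have : a = 1 := (sub_eq_zero.mp h).symm
    rw [this, norm_one] at ha
    linarith
  have hb1 : 1 - b ≠ 0 := by
    intro h
    have : b = 1 := (sub_eq_zero.mp h).symm
    rw [this, norm_one] at hb
    linarith
  have inv2 : ∀ c : ℂ, ‖c‖ ≤ r → ‖(1 - c)⁻¹‖ ≤ 2 := by
    intro c hc
    rw [norm_inv]
    have h1 := norm_sub_norm_le 1 c
    rw [norm_one] at h1
    have h2 : (1 / 2 : ℝ) ≤ ‖1 - c‖ := by linarith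
    calc ‖1 - c‖⁻¹ ≤ (1 / 2 : ℝ)⁻¹ := inv_anti₀ (by norm_num) h2
      _ = 2 := by norm_num
  set Wr : ℂ := a ^ 3 * (1 - a)⁻¹ + b ^ 3 * (1 - b)⁻¹ with hWr
  set Er : ℂ := cexp y - (1 + y + y ^ 2 / 2) with hEr
  have e1 : (1 - a)⁻¹ * (1 - b)⁻¹ * (1 - a * b) = 1 + (a + b) + (a ^ 2 + b ^ 2) + Wr := by
    rw [hWr]
    field_simp
    ring
  have hWrn : ‖Wr‖ ≤ 4 * r ^ 3 := by
    have h1 : ‖a ^ 3 * (1 - a)⁻¹‖ ≤ r ^ 3 * 2 := by
      rw [norm_mul, norm_pow]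
      exact mul_le_mul (pow_le_pow_left₀ (norm_nonneg _) ha 3) (inv2 a ha) (norm_nonneg _)
        (by positivity)
    have h2 : ‖b ^ 3 * (1 - b)⁻¹‖ ≤ r ^ 3 * 2 := by
      rw [norm_mul, norm_pow]
      exact mul_le_mul (pow_le_pow_left₀ (norm_nonneg _) hb 3) (inv2 b hb) (norm_nonneg _)
        (by positivity)
    calc ‖Wr‖ ≤ _ := norm_add_le _ _
      _ ≤ 4 * r ^ 3 := by linarith
  have hErn : ‖Er‖ ≤ 2 * r ^ 3 := by
    have h1 := Complex.norm_exp_sub_sum_le_norm_mul_exp y 3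
    have h2 : cexp y - ∑ m ∈ Finset.range 3, y ^ m / m.factorial = Er := by
      rw [hEr]
      simp [Finset.sum_range_succ, Nat.factorial]
    rw [h2] at h1
    have h3 : Real.exp ‖y‖ ≤ 2 := by
      calc Real.exp ‖y‖ ≤ Real.exp (1 / 2) := Real.exp_le_exp.mpr (hy.trans hr)
        _ ≤ 2 := by
          have h4 := Real.exp_one_lt_d9
          have h5 : Real.exp (1 / 2) ^ 2 = Real.exp 1 := by
            rw [← Real.exp_nat_mul]; norm_num
          have h6 := Real.exp_pos (1 / 2)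
          nlinarith
    calc ‖Er‖ ≤ ‖y‖ ^ 3 * Real.exp ‖y‖ := h1
      _ ≤ r ^ 3 * 2 := mul_le_mul (pow_le_pow_left₀ (norm_nonneg _) hy 3) h3 (by positivity)
        (by positivity)
      _ = 2 * r ^ 3 := by ring
  have hr3 : 0 ≤ r ^ 3 := by positivity
  have hr2 : r ^ 2 ≤ 1 / 2 * r := by nlinarith
  have hr3' : r ^ 3 ≤ 1 / 4 * r := by nlinarith
  have hP : ‖1 + y + y ^ 2 / 2‖ ≤ 2 := by
    have h1 : ‖y ^ 2 / 2‖ ≤ r ^ 2 / 2 := by
      rw [norm_div, norm_pow]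
      simp only [Complex.norm_ofNat]
      exact div_le_div_of_nonneg_right (pow_le_pow_left₀ (norm_nonneg _) hy 2) (by norm_num)
    calc ‖1 + y + y ^ 2 / 2‖ ≤ ‖1 + y‖ + ‖y ^ 2 / 2‖ := norm_add_le _ _
      _ ≤ (‖(1 : ℂ)‖ + ‖y‖) + ‖y ^ 2 / 2‖ := by gcongr; exact norm_add_le _ _
      _ ≤ 2 := by rw [norm_one]; nlinarith
  have hab : ‖a + b‖ ≤ 2 * r := (norm_add_le _ _).trans (by linarith)
  have hab2 : ‖a ^ 2 + b ^ 2‖ ≤ 2 * r ^ 2 := by
    refine (norm_add_le _ _).trans ?_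
    rw [norm_pow, norm_pow]
    have h1 := pow_le_pow_left₀ (norm_nonneg _) ha 2
    have h2 := pow_le_pow_left₀ (norm_nonneg _) hb 2
    linarith
  have hW : ‖1 + (a + b) + (a ^ 2 + b ^ 2) + Wr‖ ≤ 3 := by
    calc ‖1 + (a + b) + (a ^ 2 + b ^ 2) + Wr‖ ≤ ‖(1 : ℂ)‖ + ‖a + b‖ + ‖a ^ 2 + b ^ 2‖ + ‖Wr‖ := by
          refine (norm_add_le _ _).trans ?_
          gcongr
          refine (norm_add_le _ _).trans ?_
          gcongr
          exact norm_add_le _ _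
      _ ≤ 3 := by rw [norm_one]; nlinarith
  have e2 : (1 - a)⁻¹ * (1 - b)⁻¹ * (1 - a * b) * cexp y -
      (1 + (a + b) + (a ^ 2 + b ^ 2) + y + y * (a + b) + y ^ 2 / 2) =
      (1 + (a + b) + (a ^ 2 + b ^ 2) + Wr) * Er + Wr * (1 + y + y ^ 2 / 2) +
        ((a + b) * (y ^ 2 / 2) + (a ^ 2 + b ^ 2) * y + (a ^ 2 + b ^ 2) * (y ^ 2 / 2)) := by
    rw [e1]
    have e3 : cexp y = 1 + y + y ^ 2 / 2 + Er := by rw [hEr]; ring
    rw [e3]
    ring
  rw [e2]
  have hy2 : ‖y ^ 2 / 2‖ ≤ r ^ 2 / 2 := by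
    rw [norm_div, norm_pow]
    simp only [Complex.norm_ofNat]
    exact div_le_div_of_nonneg_right (pow_le_pow_left₀ (norm_nonneg _) hy 2) (by norm_num)
  have t1 : ‖(1 + (a + b) + (a ^ 2 + b ^ 2) + Wr) * Er‖ ≤ 3 * (2 * r ^ 3) := by
    rw [norm_mul]
    exact mul_le_mul hW hErn (norm_nonneg _) (by norm_num)
  have t2 : ‖Wr * (1 + y + y ^ 2 / 2)‖ ≤ 4 * r ^ 3 * 2 := by
    rw [norm_mul]
    exact mul_le_mul hWrn hP (norm_nonneg _) (by positivity)
  have t3 : ‖(a + b) * (y ^ 2 / 2)‖ ≤ 2 * r * (r ^ 2 / 2) := by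
    rw [norm_mul]
    exact mul_le_mul hab hy2 (norm_nonneg _) (by positivity)
  have t4 : ‖(a ^ 2 + b ^ 2) * y‖ ≤ 2 * r ^ 2 * r := by
    rw [norm_mul]
    exact mul_le_mul hab2 hy (norm_nonneg _) (by positivity)
  have t5 : ‖(a ^ 2 + b ^ 2) * (y ^ 2 / 2)‖ ≤ 2 * r ^ 2 * (r ^ 2 / 2) := by
    rw [norm_mul]
    exact mul_le_mul hab2 hy2 (norm_nonneg _) (by positivity)
  have t6 : r ^ 4 ≤ 1 / 2 * r ^ 3 := by nlinarith
  calc _ ≤ ‖(1 + (a + b) + (a ^ 2 + b ^ 2) + Wr) * Er‖ + ‖Wr * (1 + y + y ^ 2 / 2)‖ +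
        (‖(a + b) * (y ^ 2 / 2)‖ + ‖(a ^ 2 + b ^ 2) * y‖ + ‖(a ^ 2 + b ^ 2) * (y ^ 2 / 2)‖) := by
        refine (norm_add_le _ _).trans ?_
        gcongr
        · exact norm_add_le _ _
        · refine (norm_add_le _ _).trans ?_
          gcongr
          exact norm_add_le _ _
    _ ≤ 3 * (2 * r ^ 3) + 4 * r ^ 3 * 2 + (2 * r * (r ^ 2 / 2) + 2 * r ^ 2 * r + 2 * r ^ 2 * (r ^ 2 / 2)) := by
        gcongr
    _ ≤ 18 * r ^ 3 := by nlinarith

/-- The average of the local factor. -/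
noncomputable def Ap (x : ℝ) (x₁ z : ℂ) : ℂ :=
  Real.circleAverage (fun f : ℂ => (1 - x₁ * f)⁻¹ * (1 - x₁ * (starRingEnd ℂ) f)⁻¹ * (1 - x₁ ^ 2) *
    cexp (z * ((x * f.re : ℝ) : ℂ))) 0 1

lemma avg_poly (c₀ c₁ c₂ c₃ c₄ c₅ : ℂ) :
    Real.circleAverage (fun f : ℂ => c₀ + c₁ * f + c₂ * (starRingEnd ℂ) f + c₃ * f ^ 2 +
      c₄ * (starRingEnd ℂ) f ^ 2 + c₅ * (f * (starRingEnd ℂ) f)) 0 1 = c₀ + c₅ := by
  have hi : ∀ (c : ℂ) (a b : ℕ), CircleIntegrable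
      (fun f : ℂ => c * (f ^ a * (starRingEnd ℂ) f ^ b)) 0 1 := by
    intro c a b
    apply ContinuousOn.circleIntegrable (by norm_num)
    exact (continuous_const.mul ((continuous_pow a).mul (continuous_conj.pow b))).continuousOn
  have ha : ∀ (c : ℂ) (a b : ℕ), Real.circleAverage
      (fun f : ℂ => c * (f ^ a * (starRingEnd ℂ) f ^ b)) 0 1 = c * if a = b then 1 else 0 := by
    intro c a b
    rw [← circleAverage_pow_mul_conj_pow a b]
    exact Real.circleAverage_fun_smul (a := c) (f := fun f : ℂ => f ^ a * (starRingEnd ℂ) f ^ b)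
  set F : ℂ → ℕ → ℕ → ℂ → ℂ := fun c a b f => c * (f ^ a * (starRingEnd ℂ) f ^ b) with hF
  have e : (fun f : ℂ => c₀ + c₁ * f + c₂ * (starRingEnd ℂ) f + c₃ * f ^ 2 +
      c₄ * (starRingEnd ℂ) f ^ 2 + c₅ * (f * (starRingEnd ℂ) f)) =
      F c₀ 0 0 + F c₁ 1 0 + F c₂ 0 1 + F c₃ 2 0 + F c₄ 0 2 + F c₅ 1 1 := by
    funext f
    simp only [hF, Pi.add_apply]
    ring
  rw [e]
  have i0 : CircleIntegrable (F c₀ 0 0) 0 1 := hi c₀ 0 0
  have i1 := i0.add (hi c₁ 1 0)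
  have i2 := i1.add (hi c₂ 0 1)
  have i3 := i2.add (hi c₃ 2 0)
  have i4 := i3.add (hi c₄ 0 2)
  rw [Real.circleAverage_add i4 (hi c₅ 1 1), Real.circleAverage_add i3 (hi c₄ 0 2),
    Real.circleAverage_add i2 (hi c₃ 2 0), Real.circleAverage_add i1 (hi c₂ 0 1),
    Real.circleAverage_add i0 (hi c₁ 1 0)]
  simp only [hF, ha]
  norm_num

lemma int_mu0 {g : ℝ → ℂ} (hg : Continuous g) : Integrable g mu0 := by
  rw [mu0]
  apply Integrable.smul_measure
  · exact hg.integrableOn_Ioc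
  · exact ENNReal.inv_ne_top.mpr (by simp [Real.pi_pos])

lemma Ap_bound {x : ℝ} {x₁ z : ℂ} (hx0 : 0 ≤ x) (hx : x ≤ 1 / 6) (hx1 : ‖x₁‖ ≤ 3 * x)
    (hz : ‖z‖ ≤ 1) : ‖Ap x x₁ z - (1 + z * (x * x₁) + z ^ 2 * (x ^ 2 / 4))‖ ≤ 500 * x ^ 3 := by
  have e1 : (1 + z * (x * x₁) + z ^ 2 * ((x : ℂ) ^ 2 / 4)) =
      Real.circleAverage (fun f : ℂ => 1 + (x₁ + z * x / 2) * f +
        (x₁ + z * x / 2) * (starRingEnd ℂ) f + (x₁ ^ 2 + z * x * x₁ / 2 + z ^ 2 * x ^ 2 / 8) * f ^ 2 +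
        (x₁ ^ 2 + z * x * x₁ / 2 + z ^ 2 * x ^ 2 / 8) * (starRingEnd ℂ) f ^ 2 +
        (z * x * x₁ + z ^ 2 * x ^ 2 / 4) * (f * (starRingEnd ℂ) f)) 0 1 := by
    rw [avg_poly]
    ring
  have hx6 : 3 * x ≤ 1 / 2 := by linarith
  rw [e1, Ap, ← integral_mu0, ← integral_mu0, ← integral_sub]
  · have h := norm_integral_le_of_norm_le_const (μ := mu0) (C := 18 * (3 * x) ^ 3)
      (f := fun θ : ℝ => (1 - x₁ * circleMap 0 1 θ)⁻¹ *
        (1 - x₁ * (starRingEnd ℂ) (circleMap 0 1 θ))⁻¹ * (1 - x₁ ^ 2) *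
          cexp (z * ((x * (circleMap 0 1 θ).re : ℝ) : ℂ)) - (1 + (x₁ + z * x / 2) * circleMap 0 1 θ +
        (x₁ + z * x / 2) * (starRingEnd ℂ) (circleMap 0 1 θ) +
        (x₁ ^ 2 + z * x * x₁ / 2 + z ^ 2 * x ^ 2 / 8) * circleMap 0 1 θ ^ 2 +
        (x₁ ^ 2 + z * x * x₁ / 2 + z ^ 2 * x ^ 2 / 8) * (starRingEnd ℂ) (circleMap 0 1 θ) ^ 2 +
        (z * x * x₁ + z ^ 2 * x ^ 2 / 4) *
          (circleMap 0 1 θ * (starRingEnd ℂ) (circleMap 0 1 θ)))) ?_
    · refine h.trans ?_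
      rw [probReal_univ, mul_one]
      nlinarith [pow_nonneg hx0 3]
    · refine Filter.Eventually.of_forall fun θ => ?_
      set f := circleMap 0 1 θ with hf
      have hfn : ‖f‖ = 1 := by simp [hf]
      have hff : f * (starRingEnd ℂ) f = 1 := by
        rw [mul_conj, normSq_eq_norm_sq, hfn]; simp
      have hre : ((f.re : ℝ) : ℂ) = (f + (starRingEnd ℂ) f) / 2 := by
        rw [Complex.re_eq_add_conj]
      have ha : ‖x₁ * f‖ ≤ 3 * x := by rw [norm_mul, hfn, mul_one]; exact hx1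
      have hb : ‖x₁ * (starRingEnd ℂ) f‖ ≤ 3 * x := by
        rw [norm_mul, RCLike.norm_conj, hfn, mul_one]; exact hx1
      have hy : ‖z * ((x * f.re : ℝ) : ℂ)‖ ≤ 3 * x := by
        rw [norm_mul, norm_real, norm_mul, Real.norm_of_nonneg hx0, Real.norm_eq_abs]
        have h1 : |f.re| ≤ 1 := (abs_re_le_norm f).trans hfn.le
        calc ‖z‖ * (x * |f.re|) ≤ 1 * (x * 1) := by gcongr
          _ ≤ 3 * x := by linarith
      have hp := pt_aux (r := 3 * x) (by positivity) hx6 ha hb hy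
      have e2 : x₁ * f * (x₁ * (starRingEnd ℂ) f) = x₁ ^ 2 := by
        calc x₁ * f * (x₁ * (starRingEnd ℂ) f) = x₁ ^ 2 * (f * (starRingEnd ℂ) f) := by ring
          _ = x₁ ^ 2 := by rw [hff, mul_one]
      rw [e2] at hp
      refine le_of_eq_of_le ?_ hp
      congr 2
      push_cast
      rw [hre]
      ring
  · apply int_mu0
    have h1 : ∀ c : ℂ, ‖c‖ = 1 → 1 - x₁ * c ≠ 0 := by
      intro c hc h
      have h2 : x₁ * c = 1 := (sub_eq_zero.mp h).symm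
      have h3 : ‖x₁ * c‖ = 1 := by rw [h2, norm_one]
      rw [norm_mul, hc, mul_one] at h3
      linarith
    have hc : Continuous fun θ : ℝ => (starRingEnd ℂ) (circleMap 0 1 θ) :=
      continuous_conj.comp (continuous_circleMap 0 1)
    have hr : Continuous fun θ : ℝ => (circleMap 0 1 θ).re :=
      continuous_re.comp (continuous_circleMap 0 1)
    refine Continuous.mul (Continuous.mul (Continuous.mul (Continuous.inv₀ ?_ fun θ => ?_)
      (Continuous.inv₀ ?_ fun θ => ?_)) continuous_const) (continuous_exp.comp ?_)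
    · exact continuous_const.sub (continuous_const.mul (continuous_circleMap 0 1))
    · exact h1 _ (by simp)
    · exact continuous_const.sub (continuous_const.mul hc)
    · exact h1 _ (by rw [RCLike.norm_conj]; simp)
    · exact continuous_const.mul (continuous_ofReal.comp (continuous_const.mul hr))
  · apply int_mu0
    have hm := continuous_circleMap (0 : ℂ) 1
    have hc : Continuous fun θ : ℝ => (starRingEnd ℂ) (circleMap 0 1 θ) :=
      continuous_conj.comp hm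
    exact ((((continuous_const.add (continuous_const.mul hm)).add (continuous_const.mul hc)).add
      (continuous_const.mul (hm.pow 2))).add (continuous_const.mul (hc.pow 2))).add
      (continuous_const.mul (hm.mul hc))

/-! ### Products -/

lemma prod_diff {ι : Type*} (s : Finset ι) (a b : ι → ℂ) (M : ι → ℝ) (hM : ∀ i ∈ s, 1 ≤ M i)
    (ha : ∀ i ∈ s, ‖a i‖ ≤ M i) (hb : ∀ i ∈ s, ‖b i‖ ≤ M i) :
    ‖∏ i ∈ s, a i - ∏ i ∈ s, b i‖ ≤ (∑ i ∈ s, ‖a i - b i‖) * ∏ i ∈ s, M i := by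
  classical
  induction s using Finset.induction_on with
  | empty => simp
  | insert j s hj ih =>
    rw [Finset.prod_insert hj, Finset.prod_insert hj, Finset.prod_insert hj, Finset.sum_insert hj]
    have hM' : ∀ i ∈ s, 1 ≤ M i := fun i hi => hM i (Finset.mem_insert_of_mem hi)
    have ha' : ∀ i ∈ s, ‖a i‖ ≤ M i := fun i hi => ha i (Finset.mem_insert_of_mem hi)
    have hb' : ∀ i ∈ s, ‖b i‖ ≤ M i := fun i hi => hb i (Finset.mem_insert_of_mem hi)
    have h1 := ih hM' ha' hb'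
    have hj1 := hM j (Finset.mem_insert_self j s)
    have hja := ha j (Finset.mem_insert_self j s)
    have hP : 1 ≤ ∏ i ∈ s, M i := by
      rw [← Finset.prod_const_one (s := s)]
      exact Finset.prod_le_prod (fun _ _ => zero_le_one) hM'
    have hbP : ‖∏ i ∈ s, b i‖ ≤ ∏ i ∈ s, M i := by
      rw [norm_prod]
      exact Finset.prod_le_prod (fun _ _ => norm_nonneg _) hb'
    have hS : 0 ≤ ∑ i ∈ s, ‖a i - b i‖ := Finset.sum_nonneg fun _ _ => norm_nonneg _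
    have e : a j * ∏ i ∈ s, a i - b j * ∏ i ∈ s, b i =
        a j * (∏ i ∈ s, a i - ∏ i ∈ s, b i) + (a j - b j) * ∏ i ∈ s, b i := by ring
    rw [e]
    calc _ ≤ ‖a j‖ * ‖∏ i ∈ s, a i - ∏ i ∈ s, b i‖ + ‖a j - b j‖ * ‖∏ i ∈ s, b i‖ := by
          refine (norm_add_le _ _).trans ?_
          rw [norm_mul, norm_mul]
      _ ≤ M j * ((∑ i ∈ s, ‖a i - b i‖) * ∏ i ∈ s, M i) + ‖a j - b j‖ * ∏ i ∈ s, M i := by
          gcongr
      _ ≤ M j * ((∑ i ∈ s, ‖a i - b i‖) * ∏ i ∈ s, M i) +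
            M j * (‖a j - b j‖ * ∏ i ∈ s, M i) := by
          have : 0 ≤ ‖a j - b j‖ * ∏ i ∈ s, M i := by positivity
          nlinarith
      _ = _ := by ring

lemma block_diff {S : Finset ℕ} {x : ℕ → ℝ} {x₁ : ℕ → ℂ} {z : ℂ} {δ Q : ℝ}
    (hδ0 : 0 ≤ δ) (hδ : δ ≤ 1 / 6) (hx : ∀ p ∈ S, 0 ≤ x p ∧ x p ≤ δ) (hx1 : ∀ p ∈ S, ‖x₁ p‖ ≤ 3 * x p)
    (hz : ‖z‖ ≤ 1) (hQ : ∑ p ∈ S, x p ^ 2 ≤ Q) :
    ‖∏ p ∈ S, Ap (x p) (x₁ p) z -
      cexp (z * (∑ p ∈ S, (x p : ℂ) * x₁ p) + z ^ 2 * ((∑ p ∈ S, (x p : ℂ) ^ 2) / 4))‖ ≤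
      (600 * δ * Q) * Real.exp (104 * Q) := by
  have e1 : cexp (z * (∑ p ∈ S, (x p : ℂ) * x₁ p) + z ^ 2 * ((∑ p ∈ S, (x p : ℂ) ^ 2) / 4)) =
      ∏ p ∈ S, cexp (z * (x p * x₁ p) + z ^ 2 * ((x p : ℂ) ^ 2 / 4)) := by
    rw [← exp_sum, Finset.sum_add_distrib, ← Finset.mul_sum, ← Finset.mul_sum, ← Finset.sum_div]
  rw [e1]
  have hB : ∀ p ∈ S, ‖z * (x p * x₁ p) + z ^ 2 * ((x p : ℂ) ^ 2 / 4)‖ ≤ 4 * x p ^ 2 := by
    intro p hp
    obtain ⟨h0, h1⟩ := hx p hp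
    have h2 := hx1 p hp
    have t1 : ‖z * (x p * x₁ p)‖ ≤ 1 * (x p * (3 * x p)) := by
      rw [norm_mul, norm_mul, norm_real, Real.norm_of_nonneg h0]
      gcongr
    have t2 : ‖z ^ 2 * ((x p : ℂ) ^ 2 / 4)‖ ≤ 1 * (x p ^ 2 / 4) := by
      rw [norm_mul, norm_div, norm_pow, norm_pow, norm_real, Real.norm_of_nonneg h0]
      simp only [Complex.norm_ofNat]
      gcongr
      exact pow_le_one₀ (norm_nonneg _) hz
    refine (norm_add_le _ _).trans ?_
    nlinarith [sq_nonneg (x p)]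
  have hD : ∀ p ∈ S, ‖Ap (x p) (x₁ p) z - cexp (z * (x p * x₁ p) + z ^ 2 * ((x p : ℂ) ^ 2 / 4))‖ ≤
      600 * x p ^ 3 := by
    intro p hp
    obtain ⟨h0, h1⟩ := hx p hp
    have h2 := Ap_bound h0 (h1.trans hδ) (hx1 p hp) hz
    have hB1 := hB p hp
    have h3 : ‖z * (x p * x₁ p) + z ^ 2 * ((x p : ℂ) ^ 2 / 4)‖ ≤ 1 := hB1.trans (by nlinarith)
    have h4 := Complex.norm_exp_sub_one_sub_id_le h3
    have h5 : ‖z * (x p * x₁ p) + z ^ 2 * ((x p : ℂ) ^ 2 / 4)‖ ^ 2 ≤ (4 * x p ^ 2) ^ 2 :=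
      pow_le_pow_left₀ (norm_nonneg _) hB1 2
    have e : Ap (x p) (x₁ p) z - cexp (z * (x p * x₁ p) + z ^ 2 * ((x p : ℂ) ^ 2 / 4)) =
        (Ap (x p) (x₁ p) z - (1 + z * (x p * x₁ p) + z ^ 2 * ((x p : ℂ) ^ 2 / 4))) -
        (cexp (z * (x p * x₁ p) + z ^ 2 * ((x p : ℂ) ^ 2 / 4)) - 1 -
          (z * (x p * x₁ p) + z ^ 2 * ((x p : ℂ) ^ 2 / 4))) := by ring
    rw [e]
    refine (norm_sub_le _ _).trans ?_
    have h6 : x p ^ 4 ≤ 1 / 6 * x p ^ 3 := by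
      have : 0 ≤ x p ^ 3 := by positivity
      nlinarith
    nlinarith
  have hE : ∀ p ∈ S, ‖cexp (z * (x p * x₁ p) + z ^ 2 * ((x p : ℂ) ^ 2 / 4))‖ ≤
      Real.exp (4 * x p ^ 2) := by
    intro p hp
    rw [norm_exp]
    exact Real.exp_le_exp.mpr ((re_le_norm _).trans (hB p hp))
  have hM1 : ∀ p ∈ S, Real.exp (4 * x p ^ 2) + 600 * x p ^ 3 ≤ Real.exp (104 * x p ^ 2) := by
    intro p hp
    obtain ⟨h0, h1⟩ := hx p hp
    have h2 : 600 * x p ^ 3 ≤ 100 * x p ^ 2 := by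
      have : 0 ≤ x p ^ 2 := by positivity
      nlinarith
    have h3 : 1 ≤ Real.exp (4 * x p ^ 2) := Real.one_le_exp (by positivity)
    have h4 : 1 + 100 * x p ^ 2 ≤ Real.exp (100 * x p ^ 2) := by
      have := Real.add_one_le_exp (100 * x p ^ 2)
      linarith
    have h5 : 0 ≤ x p ^ 2 := by positivity
    calc Real.exp (4 * x p ^ 2) + 600 * x p ^ 3 ≤
        Real.exp (4 * x p ^ 2) * (1 + 100 * x p ^ 2) := by nlinarith
      _ ≤ Real.exp (4 * x p ^ 2) * Real.exp (100 * x p ^ 2) := by gcongr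
      _ = Real.exp (104 * x p ^ 2) := by rw [← Real.exp_add]; ring_nf
  have h := prod_diff S (fun p => Ap (x p) (x₁ p) z)
    (fun p => cexp (z * (x p * x₁ p) + z ^ 2 * ((x p : ℂ) ^ 2 / 4)))
    (fun p => Real.exp (104 * x p ^ 2)) (fun p _ => Real.one_le_exp (by positivity))
    (fun p hp => by
      have h1 := hD p hp
      have h2 := hE p hp
      have h3 := hM1 p hp
      have h4 := norm_sub_norm_le (Ap (x p) (x₁ p) z)
        (cexp (z * (x p * x₁ p) + z ^ 2 * ((x p : ℂ) ^ 2 / 4)))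
      linarith)
    (fun p hp => by
      have h2 := hE p hp
      have h3 := hM1 p hp
      have h0 : 0 ≤ x p ^ 3 := pow_nonneg (hx p hp).1 3
      linarith)
  refine h.trans ?_
  have hQ0 : 0 ≤ ∑ p ∈ S, x p ^ 2 := Finset.sum_nonneg fun _ _ => by positivity
  have s1 : ∑ p ∈ S, ‖Ap (x p) (x₁ p) z - cexp (z * (x p * x₁ p) + z ^ 2 * ((x p : ℂ) ^ 2 / 4))‖ ≤
      600 * δ * Q := by
    calc _ ≤ ∑ p ∈ S, 600 * x p ^ 3 := Finset.sum_le_sum hD
      _ ≤ ∑ p ∈ S, 600 * δ * x p ^ 2 := by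
          refine Finset.sum_le_sum fun p hp => ?_
          obtain ⟨h0, h1⟩ := hx p hp
          have : 0 ≤ x p ^ 2 := by positivity
          nlinarith
      _ = 600 * δ * ∑ p ∈ S, x p ^ 2 := by rw [Finset.mul_sum]
      _ ≤ 600 * δ * Q := by gcongr
  have s2 : ∏ p ∈ S, Real.exp (104 * x p ^ 2) ≤ Real.exp (104 * Q) := by
    rw [← Real.exp_sum, ← Finset.mul_sum]
    apply Real.exp_le_exp.mpr
    linarith
  have hQ1 : 0 ≤ Q := hQ0.trans hQ
  exact mul_le_mul s1 s2 (Finset.prod_nonneg fun _ _ => (Real.exp_pos _).le) (by positivity)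

lemma exp_diff {a b : ℂ} {η B : ℝ} (hη : η ≤ 1) (h : ‖a - b‖ ≤ η) (hb : ‖b‖ ≤ B) :
    ‖cexp a - cexp b‖ ≤ 2 * η * Real.exp B := by
  have e : cexp a - cexp b = (cexp (a - b) - 1) * cexp b := by
    rw [sub_mul, ← Complex.exp_add, sub_add_cancel, one_mul]
  rw [e, norm_mul]
  have h1 : ‖cexp (a - b) - 1‖ ≤ 2 * ‖a - b‖ := Complex.norm_exp_sub_one_le (h.trans hη)
  have h2 : ‖cexp b‖ ≤ Real.exp B := by
    rw [norm_exp]
    exact Real.exp_le_exp.mpr ((re_le_norm _).trans hb)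
  calc _ ≤ (2 * ‖a - b‖) * Real.exp B := by gcongr
    _ ≤ 2 * η * Real.exp B := by gcongr

/-- The weight of a block. -/
noncomputable def Wt (S : Finset ℕ) (x₁ : ℕ → ℂ) (f : ℕ → ℂ) : ℂ :=
  ∏ p ∈ S, ((1 - x₁ p * f p)⁻¹ * (1 - x₁ p * (starRingEnd ℂ) (f p))⁻¹ * (1 - x₁ p ^ 2))

/-- The real part of the prime sum. -/
noncomputable def Yt (S : Finset ℕ) (x : ℕ → ℝ) (s : ℝ) (f : ℕ → ℂ) : ℂ :=
  ((∑ p ∈ S, x p * (f p).re - s : ℝ) : ℂ)

lemma bs_Wt {S : Finset ℕ} {x₁ : ℕ → ℂ} (hx1 : ∀ p ∈ S, ‖x₁ p‖ ≤ 1 / 2) : BS S (Wt S x₁) := by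
  have hne : ∀ p ∈ S, ∀ c : ℂ, ‖c‖ = 1 → (1 / 2 : ℝ) ≤ ‖1 - x₁ p * c‖ := by
    intro p hp c hc
    have h1 := norm_sub_norm_le 1 (x₁ p * c)
    rw [norm_one, norm_mul, hc, mul_one] at h1
    have := hx1 p hp
    linarith
  have hne0 : ∀ p ∈ S, ∀ c : ℂ, ‖c‖ = 1 → 1 - x₁ p * c ≠ 0 := by
    intro p hp c hc h
    have h1 := hne p hp c hc
    rw [h, norm_zero] at h1
    norm_num at h1
  have hinv : ∀ p ∈ S, ∀ c : ℂ, ‖c‖ = 1 → ‖(1 - x₁ p * c)⁻¹‖ ≤ 2 := by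
    intro p hp c hc
    rw [norm_inv]
    calc ‖1 - x₁ p * c‖⁻¹ ≤ (1 / 2 : ℝ)⁻¹ := inv_anti₀ (by norm_num) (hne p hp c hc)
      _ = 2 := by norm_num
  refine ⟨?_, ∏ p ∈ S, (2 * 2 * 2 : ℝ), fun ω => ?_⟩
  · refine continuous_finsetProd _ fun p hp => ?_
    have h1 := continuous_ext S p
    have h2 : Continuous fun ω : S → ℝ => (starRingEnd ℂ) (ext S ω p) := continuous_conj.comp h1
    refine Continuous.mul (Continuous.mul (Continuous.inv₀ ?_ fun ω => ?_)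
      (Continuous.inv₀ ?_ fun ω => ?_)) continuous_const
    · exact continuous_const.sub (continuous_const.mul h1)
    · exact hne0 p hp _ (norm_ext S ω p)
    · exact continuous_const.sub (continuous_const.mul h2)
    · exact hne0 p hp _ (by rw [RCLike.norm_conj]; exact norm_ext S ω p)
  · rw [Wt, norm_prod]
    refine Finset.prod_le_prod (fun p _ => norm_nonneg _) fun p hp => ?_
    rw [norm_mul, norm_mul]
    have h1 := hinv p hp _ (norm_ext S ω p)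
    have h2 := hinv p hp ((starRingEnd ℂ) (ext S ω p)) (by rw [RCLike.norm_conj]; exact norm_ext S ω p)
    have h3 : ‖1 - x₁ p ^ 2‖ ≤ 2 := by
      refine (norm_sub_le _ _).trans ?_
      rw [norm_one, norm_pow]
      have := pow_le_pow_left₀ (norm_nonneg _) (hx1 p hp) 2
      linarith
    gcongr

lemma bs_Yt (S : Finset ℕ) (x : ℕ → ℝ) (s : ℝ) : BS S (Yt S x s) := by
  refine ⟨?_, (∑ p ∈ S, |x p|) + |s|, fun ω => ?_⟩
  · refine continuous_ofReal.comp ((continuous_finsetSum _ fun p _ => ?_).sub continuous_const)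
    exact continuous_const.mul (continuous_re.comp (continuous_ext S p))
  · rw [Yt, norm_real, Real.norm_eq_abs]
    refine (abs_sub _ _).trans ?_
    gcongr
    refine (Finset.abs_sum_le_sum_abs _ _).trans (Finset.sum_le_sum fun p _ => ?_)
    rw [abs_mul]
    have h1 : |(ext S ω p).re| ≤ 1 := (abs_re_le_norm _).trans (norm_ext S ω p).le
    calc |x p| * |(ext S ω p).re| ≤ |x p| * 1 := by gcongr
      _ = |x p| := mul_one _

lemma Es_zero (S : Finset ℕ) (x : ℕ → ℝ) (x₁ : ℕ → ℂ) (s : ℝ) (z : ℂ) :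
    Es S (Wt S x₁) (Yt S x s) 0 z = cexp (-(z * s)) * ∏ p ∈ S, Ap (x p) (x₁ p) z := by
  have e1 : ∀ f : ℕ → ℂ, Wt S x₁ f * (Yt S x s f ^ 0 * cexp (z * Yt S x s f)) =
      cexp (-(z * s)) * ∏ p ∈ S, ((1 - x₁ p * f p)⁻¹ * (1 - x₁ p * (starRingEnd ℂ) (f p))⁻¹ *
        (1 - x₁ p ^ 2) * cexp (z * ((x p * (f p).re : ℝ) : ℂ))) := by
    intro f
    have h1 : cexp (z * Yt S x s f) =
        cexp (-(z * s)) * ∏ p ∈ S, cexp (z * ((x p * (f p).re : ℝ) : ℂ)) := by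
      rw [← exp_sum, ← Complex.exp_add, Yt]
      congr 1
      push_cast
      rw [← Finset.mul_sum]
      ring
    rw [h1, Finset.prod_mul_distrib, Wt]
    ring
  rw [Es]
  simp only [e1]
  rw [ES, integral_const_mul]
  congr 1
  exact ES_prod S (fun p f => (1 - x₁ p * f)⁻¹ * (1 - x₁ p * (starRingEnd ℂ) f)⁻¹ *
    (1 - x₁ p ^ 2) * cexp (z * ((x p * f.re : ℝ) : ℂ)))

theorem core (V s K : ℝ) (hV : 0 ≤ V) (n : ℕ) {ε : ℝ} (hε : 0 < ε) : ∃ δ : ℝ, 0 < δ ∧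
    ∀ (S : Finset ℕ) (x : ℕ → ℝ) (x₁ : ℕ → ℂ) (v : ℂ), (∀ p ∈ S, 0 ≤ x p ∧ x p ≤ δ) →
    (∀ p ∈ S, ‖x₁ p‖ ≤ 3 * x p) → |∑ p ∈ S, x p ^ 2 - V| ≤ δ →
    ‖∑ p ∈ S, (x p : ℂ) * x₁ p - v‖ ≤ δ → ‖v‖ ≤ K →
    ‖Es S (Wt S x₁) (Yt S x s) n 0 - mom n (v - s) ((V / 2 : ℝ) : ℂ)‖ ≤ ε := by
  set A : ℝ := 600 * (V + 1) * Real.exp (104 * (V + 1)) + 4 * Real.exp (K + V) with hA
  have hA0 : 0 < A := by positivity
  set C : ℝ := n.factorial * (Real.exp |s| * A) with hC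
  have hC0 : 0 < C := by positivity
  refine ⟨min (1 / 6) (ε / C), by positivity, ?_⟩
  set δ := min (1 / 6) (ε / C) with hδd
  have hδ0 : 0 < δ := by positivity
  have hδ6 : δ ≤ 1 / 6 := min_le_left _ _
  have hδC : C * δ ≤ ε := by
    calc C * δ ≤ C * (ε / C) := by gcongr; exact min_le_right _ _
      _ = ε := by field_simp
  intro S x x₁ v hx hx1 hx2 hxv hv
  have hW : BS S (Wt S x₁) := bs_Wt fun p hp => by
    have h1 := hx1 p hp
    have h2 := (hx p hp).2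
    linarith
  have hY := bs_Yt S x s
  have hD : ∀ k z, HasDerivAt
      ((fun k z => Es S (Wt S x₁) (Yt S x s) k z - Gs (v - s) ((V / 2 : ℝ) : ℂ) k z) k)
      ((fun k z => Es S (Wt S x₁) (Yt S x s) k z - Gs (v - s) ((V / 2 : ℝ) : ℂ) k z) (k + 1) z) z :=
    fun k z => (hasDerivAt_Es hW hY k z).sub (hasDerivAt_Gs _ _ k z)
  have hb : ∀ z : ℂ, ‖z‖ ≤ 1 →
      ‖(fun k z => Es S (Wt S x₁) (Yt S x s) k z - Gs (v - s) ((V / 2 : ℝ) : ℂ) k z) 0 z‖ ≤
        Real.exp |s| * A * δ := by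
    intro z hz
    simp only
    rw [Es_zero]
    have hQ : ∑ p ∈ S, x p ^ 2 ≤ V + 1 := by
      have := (abs_le.mp hx2).2
      linarith
    have h1 := block_diff hδ0.le hδ6 hx hx1 hz hQ
    set P := ∏ p ∈ S, Ap (x p) (x₁ p) z with hP
    set a := z * (∑ p ∈ S, (x p : ℂ) * x₁ p) + z ^ 2 * ((∑ p ∈ S, (x p : ℂ) ^ 2) / 4) with ha
    set b := z * v + z ^ 2 * ((V : ℂ) / 4) with hb
    have hab : ‖a - b‖ ≤ 2 * δ := by
      have e : a - b = z * (∑ p ∈ S, (x p : ℂ) * x₁ p - v) +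
          z ^ 2 * ((((∑ p ∈ S, x p ^ 2 - V : ℝ)) : ℂ) / 4) := by
        rw [ha, hb]
        push_cast
        ring
      rw [e]
      refine (norm_add_le _ _).trans ?_
      rw [norm_mul, norm_mul, norm_pow, norm_div, norm_real, Real.norm_eq_abs]
      simp only [Complex.norm_ofNat]
      have hz2 : ‖z‖ ^ 2 ≤ 1 := pow_le_one₀ (norm_nonneg _) hz
      calc _ ≤ 1 * δ + 1 * (δ / 4) := by gcongr
        _ ≤ 2 * δ := by linarith
    have hbn : ‖b‖ ≤ K + V := by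
      refine (norm_add_le _ _).trans ?_
      rw [norm_mul, norm_mul, norm_pow, norm_div, norm_real, Real.norm_of_nonneg hV]
      simp only [Complex.norm_ofNat]
      have hz2 : ‖z‖ ^ 2 ≤ 1 := pow_le_one₀ (norm_nonneg _) hz
      calc _ ≤ 1 * K + 1 * (V / 4) := by gcongr
        _ ≤ K + V := by linarith
    have h2 := exp_diff (η := 2 * δ) (by linarith) hab hbn
    have e2 : Gs (v - s) ((V / 2 : ℝ) : ℂ) 0 z = cexp (-(z * s)) * cexp b := by
      rw [Gs, ← Complex.exp_add, hb]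
      simp only [mom, one_mul]
      congr 1
      push_cast
      ring
    rw [e2, ← mul_sub, norm_mul]
    have h3 : ‖cexp (-(z * s))‖ ≤ Real.exp |s| := by
      rw [norm_exp]
      apply Real.exp_le_exp.mpr
      refine (re_le_norm _).trans ?_
      rw [norm_neg, norm_mul, norm_real, Real.norm_eq_abs]
      calc ‖z‖ * |s| ≤ 1 * |s| := by gcongr
        _ = |s| := one_mul _
    have h4 : ‖P - cexp b‖ ≤ A * δ := by
      have e3 : P - cexp b = (P - cexp a) + (cexp a - cexp b) := by ring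
      rw [e3]
      refine (norm_add_le _ _).trans ?_
      calc _ ≤ 600 * δ * (V + 1) * Real.exp (104 * (V + 1)) + 2 * (2 * δ) * Real.exp (K + V) :=
            add_le_add h1 h2
        _ = A * δ := by rw [hA]; ring
    calc _ ≤ Real.exp |s| * (A * δ) := by gcongr
      _ = _ := by ring
  have h := cauchy_tower _ hD hb n
  simp only [Gs, zero_mul, add_zero] at h
  have e4 : cexp (0 ^ 2 * (((V / 2 : ℝ) : ℂ) / 2)) = 1 := by simp
  simp only [ne_eq, OfNat.ofNat_ne_zero, not_false_eq_true, zero_pow, zero_mul, add_zero, Complex.exp_zero, mul_one] at h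
  refine h.trans ?_
  calc _ = C * δ := by rw [hC]; ring
    _ ≤ ε := hδC

lemma vv_bound {lo hi : ℝ} (h0 : 0 < lo) (h1 : lo < hi) (h2 : hi ≤ 1) {u : ℂ} (hu : ‖u‖ ≤ 1) :
    ‖vv lo hi u‖ ≤ Real.exp 1 / lo * |hi - lo| := by
  apply intervalIntegral.norm_integral_le_of_norm_le_const
  intro x hx
  rw [Set.uIoc_of_le h1.le] at hx
  have hx0 : 0 < x := h0.trans hx.1
  rw [norm_div, norm_real, Real.norm_of_nonneg hx0.le, norm_exp]
  have h3 : (-(u * x)).re ≤ 1 := by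
    refine (re_le_norm _).trans ?_
    rw [norm_neg, norm_mul, norm_real, Real.norm_of_nonneg hx0.le]
    have : x ≤ 1 := hx.2.trans h2
    calc ‖u‖ * x ≤ 1 * 1 := by gcongr
      _ = 1 := one_mul _
  have h4 := hx.1.le
  gcongr

lemma vv_zero {lo hi : ℝ} (h0 : 0 < lo) (h1 : lo < hi) :
    vv lo hi 0 = ((Real.log (hi / lo) : ℝ) : ℂ) := by
  rw [vv, ← integral_inv_of_pos h0 (h0.trans h1), ← intervalIntegral.integral_ofReal]
  refine intervalIntegral.integral_congr fun x _ => ?_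
  simp

lemma conj_cpow_nat {p : ℕ} (_hp : p ≠ 0) (w : ℂ) :
    (starRingEnd ℂ) ((p : ℂ) ^ (-(1 / 2 + (starRingEnd ℂ) w))) = (p : ℂ) ^ (-(1 / 2 + w)) := by
  have h1 : -(1 / 2 + (starRingEnd ℂ) w) = (starRingEnd ℂ) (-(1 / 2 + w)) := by
    rw [map_neg, map_add, map_div₀, map_one, Complex.conj_ofNat]
  have h2 : (p : ℂ).arg ≠ Real.pi := by
    rw [Complex.natCast_arg]
    exact Real.pi_pos.ne
  rw [h1, cpow_conj _ _ h2, Complex.conj_natCast, Complex.conj_conj]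

lemma mem_PS {y x : ℝ} {p : ℕ} (hx : 0 ≤ x) (h : p ∈ PS y x) : p.Prime ∧ y ≤ p ∧ (p : ℝ) ≤ x := by
  rw [PS, Finset.mem_filter, Finset.mem_Ioc] at h
  refine ⟨h.2, ?_, (Nat.le_floor_iff hx).mp h.1.2⟩
  exact (Nat.lt_of_floor_lt h.1.1).le

lemma sqrt_mul {p : ℕ} (hp : p ≠ 0) (w : ℂ) :
    (((p : ℝ) ^ (-(1 / 2) : ℝ) : ℝ) : ℂ) * (p : ℂ) ^ (-(1 / 2 + w)) = (p : ℂ) ^ (-(1 + w)) := by
  rw [ofReal_cpow (by positivity), ofReal_natCast, ← cpow_add _ _ (by exact_mod_cast hp)]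
  congr 1
  push_cast
  ring

end GaussB

theorem stGaussBlock (h : StPrimeInt) : StGaussBlock := by
  intro lo hi s hlo hlh hhi n ε hε
  set V := Real.log (hi / lo) with hV
  have hV0 : 0 ≤ V := Real.log_nonneg (by rw [one_le_div hlo]; exact hlh.le)
  obtain ⟨δ₁, hδ₁, H₁⟩ := GaussB.core V s (Real.exp 1 / lo * |hi - lo|) hV0 n hε
  obtain ⟨δ₂, hδ₂, H₂⟩ := GaussB.core V s 0 hV0 n hε
  set δ := min δ₁ δ₂ with hδ
  have hδ0 : 0 < δ := lt_min hδ₁ hδ₂
  obtain ⟨T₁, hT₁, H⟩ := h lo hi hlo hlh hhi δ hδ0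
  refine ⟨max T₁ (Real.exp (2 * |Real.log δ| / lo)), hT₁.trans (le_max_left _ _), ?_⟩
  intro T hT S hS
  have hT1 : T₁ ≤ T := (le_max_left _ _).trans hT
  have hT3 : 3 ≤ T := hT₁.trans hT1
  have hT0 : 0 < T := by linarith
  have hL : 0 < Real.log T := Real.log_pos (by linarith)
  have hL2 : 2 * |Real.log δ| / lo ≤ Real.log T := by
    rw [← Real.log_exp (2 * |Real.log δ| / lo)]
    exact Real.log_le_log (Real.exp_pos _) ((le_max_right _ _).trans hT)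
  have hmem : ∀ p ∈ S, p.Prime ∧ Real.exp (lo * Real.log T) ≤ p ∧ (p : ℝ) ≤ Real.exp (hi * Real.log T) := by
    intro p hp
    rw [hS] at hp
    exact GaussB.mem_PS (Real.exp_pos _).le hp
  -- the size of a prime
  have hx : ∀ p ∈ S, 0 ≤ (p : ℝ) ^ (-(1 / 2) : ℝ) ∧ (p : ℝ) ^ (-(1 / 2) : ℝ) ≤ δ := by
    intro p hp
    obtain ⟨h1, h2, h3⟩ := hmem p hp
    refine ⟨by positivity, ?_⟩
    have hp0 : (0 : ℝ) < p := by exact_mod_cast h1.pos
    have h4 : lo * Real.log T ≤ Real.log p := by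
      rw [← Real.log_exp (lo * Real.log T)]
      exact Real.log_le_log (Real.exp_pos _) h2
    have h5 : 2 * |Real.log δ| ≤ lo * Real.log T := by
      rw [div_le_iff₀ hlo] at hL2
      linarith
    rw [Real.rpow_def_of_pos hp0, ← Real.exp_log hδ0]
    apply Real.exp_le_exp.mpr
    have h6 := neg_abs_le (Real.log δ)
    nlinarith
  have hsq : ∀ p ∈ S, ((p : ℝ) ^ (-(1 / 2) : ℝ)) ^ 2 = (p : ℝ)⁻¹ := by
    intro p hp
    rw [← Real.rpow_natCast, ← Real.rpow_mul (by positivity), ← Real.rpow_neg_one]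
    norm_num
  have hV1 : |∑ p ∈ S, ((p : ℝ) ^ (-(1 / 2) : ℝ)) ^ 2 - V| ≤ δ := by
    have h1 := H T hT1 0 (by simp)
    rw [GaussB.vv_zero hlo hlh, ← hS, ← hV] at h1
    have e : ∑ p ∈ S, (p : ℂ) ^ (-(1 + 0 / (Real.log T : ℂ))) =
        ((∑ p ∈ S, ((p : ℝ) ^ (-(1 / 2) : ℝ)) ^ 2 : ℝ) : ℂ) := by
      push_cast
      refine Finset.sum_congr rfl fun p hp => ?_
      rw [← ofReal_pow, hsq p hp]
      push_cast
      simp [cpow_neg_one]
    rw [e, ← ofReal_sub, norm_real, Real.norm_eq_abs] at h1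
    exact h1
  have hRe : ∀ f : ℕ → ℂ, ((((∑ p ∈ S, tw (1 / 2) f p).re - s : ℝ)) : ℂ) =
      GaussB.Yt S (fun p => (p : ℝ) ^ (-(1 / 2) : ℝ)) s f := by
    intro f
    rw [GaussB.Yt, re_sum]
    congr 2
    refine Finset.sum_congr rfl fun p _ => ?_
    have h1 := tw_real (1 / 2) f p
    push_cast at h1
    rw [h1]
    simp
  constructor
  · intro u hu
    set w : ℂ := u / Real.log T with hw
    have hwn : ‖w‖ ≤ 1 / Real.log T := by
      rw [hw, norm_div, norm_real, Real.norm_of_nonneg hL.le]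
      gcongr
    have hx1 : ∀ p ∈ S, ‖(p : ℂ) ^ (-(1 / 2 + w))‖ ≤ 3 * (p : ℝ) ^ (-(1 / 2) : ℝ) := by
      intro p hp
      obtain ⟨h1, h2, h3⟩ := hmem p hp
      have hp0 : (0 : ℝ) < p := by exact_mod_cast h1.pos
      have hp1 : 0 ≤ Real.log p := Real.log_nonneg (by exact_mod_cast h1.one_lt.le)
      have h4 : Real.log p ≤ Real.log T := by
        have h5 : Real.log p ≤ hi * Real.log T := by
          rw [← Real.log_exp (hi * Real.log T)]
          exact Real.log_le_log hp0 h3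
        nlinarith
      rw [norm_natCast_cpow_of_pos h1.pos]
      have e1 : (-(1 / 2 + w)).re = -(1 / 2) + -w.re := by
        simp
        ring
      rw [e1, Real.rpow_add hp0, mul_comm]
      have h6 : (p : ℝ) ^ (-w.re) ≤ 3 := by
        rw [Real.rpow_def_of_pos hp0]
        have h7 : Real.log p * -w.re ≤ 1 := by
          have h8 : -w.re ≤ 1 / Real.log T := by
            have := abs_re_le_norm w
            have := neg_abs_le w.re
            linarith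
          calc Real.log p * -w.re ≤ Real.log p * (1 / Real.log T) := by gcongr
            _ ≤ Real.log T * (1 / Real.log T) := by gcongr
            _ = 1 := by field_simp
        calc Real.exp (Real.log p * -w.re) ≤ Real.exp 1 := Real.exp_le_exp.mpr h7
          _ ≤ 3 := by linarith [Real.exp_one_lt_d9]
      gcongr
    have hsum : ‖∑ p ∈ S, (((p : ℝ) ^ (-(1 / 2) : ℝ) : ℝ) : ℂ) * (p : ℂ) ^ (-(1 / 2 + w)) -
        vv lo hi u‖ ≤ δ := by
      have h1 := H T hT1 u hu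
      rw [← hS] at h1
      have e : ∑ p ∈ S, (((p : ℝ) ^ (-(1 / 2) : ℝ) : ℝ) : ℂ) * (p : ℂ) ^ (-(1 / 2 + w)) =
          ∑ p ∈ S, (p : ℂ) ^ (-(1 + w)) :=
        Finset.sum_congr rfl fun p hp => GaussB.sqrt_mul (hmem p hp).1.ne_zero w
      rw [e]
      exact h1
    have hmain := H₁ S (fun p => (p : ℝ) ^ (-(1 / 2) : ℝ)) (fun p => (p : ℂ) ^ (-(1 / 2 + w)))
      (vv lo hi u) (fun p hp => ⟨(hx p hp).1, (hx p hp).2.trans (min_le_left _ _)⟩) hx1
      (hV1.trans (min_le_left _ _)) (hsum.trans (min_le_left _ _))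
      (GaussB.vv_bound hlo hlh hhi hu)
    have e : ES S (fun f => ZZ S (tw (1 / 2 + w) f) *
        (starRingEnd ℂ) (ZZ S (tw (1 / 2 + (starRingEnd ℂ) w) f)) *
        (((((∑ p ∈ S, tw (1 / 2) f p).re - s) ^ n : ℝ)) : ℂ)) *
        ∏ p ∈ S, (1 - (p : ℂ) ^ (-(1 + w + w))) =
        GaussB.Es S (GaussB.Wt S fun p => (p : ℂ) ^ (-(1 / 2 + w)))
          (GaussB.Yt S (fun p => (p : ℝ) ^ (-(1 / 2) : ℝ)) s) n 0 := by
      rw [GaussB.Es, ES, ES, ← integral_mul_const]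
      refine integral_congr_ae (Filter.Eventually.of_forall fun ω => ?_)
      simp only
      set f := ext S ω with hf
      rw [zero_mul, Complex.exp_zero, mul_one, ofReal_pow, hRe f]
      have e1 : ZZ S (tw (1 / 2 + w) f) * (starRingEnd ℂ) (ZZ S (tw (1 / 2 + (starRingEnd ℂ) w) f)) *
          ∏ p ∈ S, (1 - (p : ℂ) ^ (-(1 + w + w))) =
          GaussB.Wt S (fun p => (p : ℂ) ^ (-(1 / 2 + w))) f := by
        rw [ZZ, ZZ, map_prod, GaussB.Wt, ← Finset.prod_mul_distrib, ← Finset.prod_mul_distrib]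
        refine Finset.prod_congr rfl fun p hp => ?_
        have hp0 : p ≠ 0 := (hmem p hp).1.ne_zero
        rw [map_inv₀, map_sub, map_one, tw, tw, map_mul, GaussB.conj_cpow_nat hp0]
        congr 2
        rw [sq, ← cpow_add _ _ (by exact_mod_cast hp0)]
        congr 1
        ring
      rw [← e1]
      ring
    rw [e]
    exact hmain
  · have hmain := H₂ S (fun p => (p : ℝ) ^ (-(1 / 2) : ℝ)) (fun _ => 0)
      0 (fun p hp => ⟨(hx p hp).1, (hx p hp).2.trans (min_le_right _ _)⟩)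
      (fun p hp => by rw [norm_zero]; positivity)
      (hV1.trans (min_le_right _ _)) (by simp [hδ₂.le]) (by simp)
    have e : ((ES S (fun f => ((∑ p ∈ S, tw (1 / 2) f p).re - s) ^ n) : ℝ) : ℂ) =
        GaussB.Es S (GaussB.Wt S fun _ => 0)
          (GaussB.Yt S (fun p => (p : ℝ) ^ (-(1 / 2) : ℝ)) s) n 0 := by
      rw [GaussB.Es, ES, ES, ← integral_complex_ofReal]
      refine integral_congr_ae (Filter.Eventually.of_forall fun ω => ?_)
      simp only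
      rw [zero_mul, Complex.exp_zero, mul_one, ← hRe (ext S ω), GaussB.Wt]
      simp
    rw [← e, zero_sub, ← ofReal_neg, ← GaussB.mom_ofReal, ← ofReal_sub, norm_real,
      Real.norm_eq_abs] at hmain
    exact hmain

end K5
end Pool.Agent.Lib.MP_973905_nt
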