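import Pool.Agent.Lib.MP_973905_nt.K5.Stmts

/-! K5 module A4: the moment on the critical line as an integral to the right of it. -/

namespace Pool.Agent.Lib.MP_973905_nt
namespace K5
namespace Half

open MeasureTheory ProbabilityTheory Complex Filter Topology K1

lemma norm_exp_sq (w : ℂ) : ‖cexp (w ^ 2)‖ = Real.exp (w.re ^ 2 - w.im ^ 2) := by
  rw [Complex.norm_exp]
  congr 1
  simp [sq]

lemma exp_small {x : ℝ} (h : |x| ≤ 1 / 200) : Real.exp (x ^ 2) ≤ 2 := by
  have h1 : x ^ 2 ≤ 1 / 40000 := by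
    rw [← sq_abs]
    nlinarith [abs_nonneg x]
  have h2 : Real.exp (x ^ 2) ≤ Real.exp (Real.log 2) := by
    apply Real.exp_le_exp.mpr
    linarith [Real.log_two_gt_d9]
  rwa [Real.exp_log (by norm_num)] at h2

/-- the contour argument for a general function -/
lemma core (h0 : StRect) (F : ℂ → ℂ) (X L E D : ℝ) (hX : 1 ≤ X) (hL : 1 ≤ L) (hE : 0 ≤ E)
    (hF : DifferentiableOn ℂ F {a : ℂ | |a.re| < 1 / 4})
    (hfe : ∀ w : ℂ, w.re = 1 / 200 → |w.im| ≤ L → ‖F (-w) - (X : ℂ) ^ (2 * w) * F w‖ ≤ E)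
    (hD : ∀ w : ℂ, |w.re| ≤ 1 / 200 → |w.im| = L → ‖F w‖ ≤ D) :
    ‖F 0 - ((1 / Real.pi : ℝ) : ℂ) * ∫ y : ℝ in (-L)..L,
      KN X ((1 / 200 : ℝ) + y * I) * F ((1 / 200 : ℝ) + y * I)‖ ≤
      200 * L * E + D * X * Real.exp (-L ^ 2) := by
  have hX0 : 0 < X := by linarith
  have hXc : (X : ℂ) ≠ 0 := by exact_mod_cast hX0.ne'
  have hD0 : 0 ≤ D := (norm_nonneg _).trans (hD (L * I) (by simp) (by
    simp only [mul_im, ofReal_re, I_im, mul_one, ofReal_im, I_re, mul_zero, add_zero]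
    exact abs_of_nonneg (by linarith)))
  set g : ℂ → ℂ := fun w => F w * ((X : ℂ) ^ w * cexp (w ^ 2)) with hg
  set b : ℂ := ((1 / 200 : ℝ) : ℂ) with hb
  have hbre : b.re = 1 / 200 := ofReal_re _
  have hbim : b.im = 0 := ofReal_im _
  have hgd : DifferentiableOn ℂ g {a : ℂ | |a.re| < 1 / 4} := by
    refine hF.mul (DifferentiableOn.mul ?_ ?_)
    · intro w _
      exact (differentiableAt_id.const_cpow (Or.inl hXc)).differentiableWithinAt
    · intro w _
      exact ((differentiableAt_id.pow 2).cexp).differentiableWithinAt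
  have hopen : IsOpen {a : ℂ | |a.re| < 1 / 4} :=
    isOpen_lt (continuous_abs.comp continuous_re) continuous_const
  have hgc : ∀ w : ℂ, |w.re| < 1 / 4 → ContinuousAt g w := fun w hw =>
    (hgd.differentiableAt (hopen.mem_nhds hw)).continuousAt
  have h := h0 g (1 / 200) (1 / 200) L (by norm_num) (by norm_num) (by linarith)
    (hgd.mono fun z hz => by
      have h1 : -(1 / 200 : ℝ) ≤ z.re := hz.1
      have h2 : z.re ≤ 1 / 200 := hz.2.1
      show |z.re| < 1 / 4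
      rw [abs_lt]
      constructor <;> linarith)
  have hw : ∀ y : ℝ, b + y * I ≠ 0 := by
    intro y hy
    have := congrArg Complex.re hy
    simp [hbre] at this
  have hre : ∀ y : ℝ, (b + y * I).re = 1 / 200 := by
    intro y
    simp [hbre]
  have him : ∀ y : ℝ, (b + y * I).im = y := by
    intro y
    simp [hbim]
  have hwn : ∀ y : ℝ, (1 / 200 : ℝ) ≤ ‖b + y * I‖ := by
    intro y
    have h1 := abs_re_le_norm (b + y * I)
    rw [hre, abs_of_pos (by norm_num)] at h1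
    exact h1
  have i1 : ∫ y : ℝ in (-L)..L, g (b + y * I) / (b + y * I) =
      ∫ y : ℝ in (-L)..L, KN X (b + y * I) * F (b + y * I) := by
    refine intervalIntegral.integral_congr fun y _ => ?_
    simp only [hg, KN]
    ring
  have i2 : ∫ y : ℝ in (-L)..L, g (-b + y * I) / (-b + y * I) =
      -∫ y : ℝ in (-L)..L, g (-(b + y * I)) / (b + y * I) := by
    have e := intervalIntegral.integral_comp_neg (a := -L) (b := L)
      (fun y : ℝ => g (-b + y * I) / (-b + y * I))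
    rw [neg_neg] at e
    rw [← e, ← intervalIntegral.integral_neg]
    refine intervalIntegral.integral_congr fun y _ => ?_
    have e2 : -b + ((-y : ℝ) : ℂ) * I = -(b + y * I) := by
      push_cast
      ring
    show g (-b + ((-y : ℝ) : ℂ) * I) / (-b + ((-y : ℝ) : ℂ) * I) =
      -(g (-(b + y * I)) / (b + y * I))
    rw [e2, div_neg]
  have hline : Continuous fun y : ℝ => b + y * I := by fun_prop
  have c1 : Continuous fun y : ℝ => g (b + y * I) / (b + y * I) := by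
    refine Continuous.div ?_ hline hw
    refine continuous_iff_continuousAt.mpr fun y => ?_
    exact ContinuousAt.comp (f := fun y : ℝ => b + y * I) (g := g)
      (hgc _ (by rw [hre]; norm_num [abs_lt])) hline.continuousAt
  have c2 : Continuous fun y : ℝ => g (-(b + y * I)) / (b + y * I) := by
    refine Continuous.div ?_ hline hw
    refine continuous_iff_continuousAt.mpr fun y => ?_
    exact ContinuousAt.comp (f := fun y : ℝ => -(b + y * I)) (g := g)
      (hgc _ (by rw [neg_re, hre]; norm_num [abs_lt])) hline.neg.continuousAt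
  set J1 : ℂ := ∫ y : ℝ in (-L)..L, KN X (b + y * I) * F (b + y * I) with hJ1
  set J2 : ℂ := ∫ y : ℝ in (-L)..L, g (-(b + y * I)) / (b + y * I) with hJ2
  have e1 : ‖J2 - J1‖ ≤ 400 * E * |L - -L| := by
    rw [← i1, hJ2, ← intervalIntegral.integral_sub (c2.intervalIntegrable _ _)
      (c1.intervalIntegrable _ _)]
    refine intervalIntegral.norm_integral_le_of_norm_le_const fun y hy => ?_
    rw [Set.uIoc_of_le (by linarith)] at hy
    have hy' : |y| ≤ L := abs_le.mpr ⟨hy.1.le, hy.2⟩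
    set w : ℂ := b + y * I with hwdef
    have h1 : g (-w) - g w =
        (F (-w) - (X : ℂ) ^ (2 * w) * F w) * ((X : ℂ) ^ (-w) * cexp (w ^ 2)) := by
      have e3 : (X : ℂ) ^ w = (X : ℂ) ^ (2 * w) * (X : ℂ) ^ (-w) := by
        rw [← cpow_add _ _ hXc]
        congr 1
        ring
      have e4 : g w = F w * (((X : ℂ) ^ (2 * w) * (X : ℂ) ^ (-w)) * cexp (w ^ 2)) := by
        rw [← e3]
      have e5 : g (-w) = F (-w) * ((X : ℂ) ^ (-w) * cexp (w ^ 2)) := by
        simp only [hg, neg_sq]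
      rw [e4, e5]
      ring
    have h2 : ‖g (-w) - g w‖ ≤ E * 2 := by
      rw [h1, norm_mul, norm_mul]
      refine mul_le_mul (hfe w (hre y) (by rw [him]; exact hy')) ?_ (by positivity) hE
      rw [Complex.norm_cpow_eq_rpow_re_of_pos hX0, norm_exp_sq, neg_re, hre, him]
      have h3 : X ^ (-(1 / 200) : ℝ) ≤ 1 := Real.rpow_le_one_of_one_le_of_nonpos hX (by norm_num)
      have h4 : Real.exp ((1 / 200) ^ 2 - y ^ 2) ≤ 2 := by
        refine le_trans (Real.exp_le_exp.mpr ?_) (exp_small (x := 1 / 200) (by norm_num [abs_le]))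
        nlinarith [sq_nonneg y]
      calc X ^ (-(1 / 200) : ℝ) * Real.exp ((1 / 200) ^ 2 - y ^ 2) ≤ 1 * 2 := by
            refine mul_le_mul h3 h4 (Real.exp_pos _).le zero_le_one
        _ = 2 := one_mul _
    rw [← sub_div, norm_div, div_le_iff₀ (lt_of_lt_of_le (by norm_num) (hwn y))]
    have h5 := hwn y
    calc ‖g (-w) - g w‖ ≤ E * 2 := h2
      _ = 400 * E * (1 / 200) := by ring
      _ ≤ 400 * E * ‖w‖ := mul_le_mul_of_nonneg_left h5 (by positivity)
  have hor : ∀ x : ℝ, ∀ s : ℝ, |x| ≤ 1 / 200 → |s| = L →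
      ‖g ((x : ℂ) + s * I) / ((x : ℂ) + s * I)‖ ≤ D * X * (2 * Real.exp (-L ^ 2)) := by
    intro x s hx hs
    have hr : ((x : ℂ) + s * I).re = x := by simp
    have hi : ((x : ℂ) + s * I).im = s := by simp
    set w : ℂ := (x : ℂ) + s * I with hwdef
    have h1 : (1 : ℝ) ≤ ‖w‖ := by
      have h2 := abs_im_le_norm w
      rw [hi, hs] at h2
      linarith
    have h2 : ‖g w‖ ≤ D * X * (2 * Real.exp (-L ^ 2)) := by
      simp only [hg]
      rw [norm_mul, norm_mul, mul_assoc D]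
      refine mul_le_mul (hD w (by rw [hr]; exact hx) (by rw [hi]; exact hs)) ?_ (by positivity) hD0
      rw [Complex.norm_cpow_eq_rpow_re_of_pos hX0, norm_exp_sq, hr, hi]
      have h3 : X ^ x ≤ X := by
        calc X ^ x ≤ X ^ (1 : ℝ) :=
              Real.rpow_le_rpow_of_exponent_le hX (by linarith [(abs_le.mp hx).2])
          _ = X := Real.rpow_one X
      have h4 : Real.exp (x ^ 2 - s ^ 2) ≤ 2 * Real.exp (-L ^ 2) := by
        have h5 : s ^ 2 = L ^ 2 := by rw [← sq_abs, hs]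
        rw [h5, sub_eq_add_neg, Real.exp_add]
        exact mul_le_mul_of_nonneg_right (exp_small hx) (Real.exp_pos _).le
      exact mul_le_mul h3 h4 (Real.exp_pos _).le hX0.le
    rw [norm_div, div_le_iff₀ (by linarith)]
    refine h2.trans ?_
    exact le_mul_of_one_le_right (by positivity) h1
  have e2 : ‖(∫ x : ℝ in (-(1 / 200))..(1 / 200), g ((x : ℂ) - L * I) / ((x : ℂ) - L * I)) -
      ∫ x : ℝ in (-(1 / 200))..(1 / 200), g ((x : ℂ) + L * I) / ((x : ℂ) + L * I)‖ ≤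
      D * X * Real.exp (-L ^ 2) := by
    have k1 : ‖∫ x : ℝ in (-(1 / 200))..(1 / 200), g ((x : ℂ) - L * I) / ((x : ℂ) - L * I)‖ ≤
        D * X * (2 * Real.exp (-L ^ 2)) * |1 / 200 - -(1 / 200)| := by
      refine intervalIntegral.norm_integral_le_of_norm_le_const fun x hx => ?_
      rw [Set.uIoc_of_le (by norm_num)] at hx
      have h1 := hor x (-L) (abs_le.mpr ⟨hx.1.le, hx.2⟩) (by
        rw [abs_neg]
        exact abs_of_nonneg (by linarith))
      have e3 : (x : ℂ) + ((-L : ℝ) : ℂ) * I = (x : ℂ) - L * I := by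
        push_cast
        ring
      rwa [e3] at h1
    have k2 : ‖∫ x : ℝ in (-(1 / 200))..(1 / 200), g ((x : ℂ) + L * I) / ((x : ℂ) + L * I)‖ ≤
        D * X * (2 * Real.exp (-L ^ 2)) * |1 / 200 - -(1 / 200)| := by
      refine intervalIntegral.norm_integral_le_of_norm_le_const fun x hx => ?_
      rw [Set.uIoc_of_le (by norm_num)] at hx
      exact hor x L (abs_le.mpr ⟨hx.1.le, hx.2⟩) (abs_of_nonneg (by linarith))
    have k3 : |(1 / 200 : ℝ) - -(1 / 200)| = 1 / 100 := by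
      rw [abs_of_pos (by norm_num)]
      norm_num
    rw [k3] at k1 k2
    refine (norm_sub_le _ _).trans ((add_le_add k1 k2).trans ?_)
    have k4 : 0 ≤ D * X * Real.exp (-L ^ 2) := by positivity
    nlinarith
  rw [← hb, i1, i2] at h
  set K : ℂ := (∫ x : ℝ in (-(1 / 200))..(1 / 200), g ((x : ℂ) - L * I) / ((x : ℂ) - L * I)) -
      ∫ x : ℝ in (-(1 / 200))..(1 / 200), g ((x : ℂ) + L * I) / ((x : ℂ) + L * I) with hK
  have g0 : g 0 = F 0 := by simp [hg]
  rw [g0, sub_neg_eq_add] at h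
  have hpi : (0 : ℝ) < 2 * Real.pi := by positivity
  have hpi6 : (6 : ℝ) ≤ 2 * Real.pi := by linarith [Real.pi_gt_three]
  have hpc : ((2 * Real.pi : ℝ) : ℂ) ≠ 0 := by exact_mod_cast hpi.ne'
  have e5 : F 0 - ((1 / Real.pi : ℝ) : ℂ) * J1 =
      ((J2 - J1) - I * K) / ((2 * Real.pi : ℝ) : ℂ) := by
    rw [eq_div_iff hpc]
    have e6 : ((1 / Real.pi : ℝ) : ℂ) * J1 * ((2 * Real.pi : ℝ) : ℂ) = 2 * J1 := by
      have e7 : ((1 / Real.pi : ℝ) : ℂ) * ((2 * Real.pi : ℝ) : ℂ) = 2 := by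
        rw [← ofReal_mul]
        have e8 : 1 / Real.pi * (2 * Real.pi) = 2 := by
          field_simp
        rw [e8]
        norm_num
      calc _ = ((1 / Real.pi : ℝ) : ℂ) * ((2 * Real.pi : ℝ) : ℂ) * J1 := by ring
        _ = _ := by rw [e7]
    rw [sub_mul, e6, mul_comm (F 0), h]
    ring
  rw [e5, norm_div, norm_real, Real.norm_eq_abs, abs_of_pos hpi, div_le_iff₀ hpi]
  have e6 : ‖J2 - J1 - I * K‖ ≤ 400 * E * |L - -L| + D * X * Real.exp (-L ^ 2) := by
    refine (norm_sub_le _ _).trans (add_le_add e1 ?_)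
    rw [norm_mul, norm_I, one_mul]
    exact e2
  have e7 : |L - -L| = 2 * L := by
    rw [abs_of_nonneg (by linarith)]
    ring
  rw [e7] at e6
  refine e6.trans ?_
  have k4 : 0 ≤ D * X * Real.exp (-L ^ 2) := by positivity
  have k5 : 0 ≤ L * E := mul_nonneg (by linarith) hE
  calc 400 * E * (2 * L) + D * X * Real.exp (-L ^ 2)
      ≤ (200 * L * E + D * X * Real.exp (-L ^ 2)) * 6 := by nlinarith
    _ ≤ (200 * L * E + D * X * Real.exp (-L ^ 2)) * (2 * Real.pi) :=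
        mul_le_mul_of_nonneg_left hpi6 (by nlinarith)

lemma ev_log (c r : ℝ) (hc : 0 < c) (hr : 0 < r) : ∀ᶠ T : ℝ in atTop, c * Real.log T ≤ T ^ r := by
  have h := (isLittleO_log_rpow_atTop hr).bound (inv_pos.mpr hc)
  filter_upwards [h, eventually_ge_atTop (1 : ℝ)] with T h1 h2
  rw [Real.norm_eq_abs, Real.norm_eq_abs, abs_of_nonneg (Real.log_nonneg h2),
    abs_of_nonneg (by positivity)] at h1
  calc c * Real.log T ≤ c * (c⁻¹ * T ^ r) := mul_le_mul_of_nonneg_left h1 hc.le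
    _ = T ^ r := by rw [← mul_assoc, mul_inv_cancel₀ hc.ne', one_mul]

lemma thresholds (C T₁ : ℝ) : ∃ T₀ : ℝ, 3 ≤ T₀ ∧ ∀ T, T₀ ≤ T → T₁ ≤ T ∧ 2 * C ≤ T ∧
    10 ≤ Real.log T ∧ 400 * Real.log T ≤ T ^ (1 / 1000 : ℝ) ∧ 2 * Real.log T ≤ T ^ (1 / 4 : ℝ) ∧
    2 * Real.pi * Real.log T ≤ T := by
  have h : ∀ᶠ T : ℝ in atTop, T₁ ≤ T ∧ 2 * C ≤ T ∧
    10 ≤ Real.log T ∧ 400 * Real.log T ≤ T ^ (1 / 1000 : ℝ) ∧ 2 * Real.log T ≤ T ^ (1 / 4 : ℝ) ∧
    2 * Real.pi * Real.log T ≤ T := by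
    filter_upwards [eventually_ge_atTop T₁, eventually_ge_atTop (2 * C),
      Real.tendsto_log_atTop.eventually_ge_atTop 10, ev_log 400 (1 / 1000) (by norm_num)
      (by norm_num), ev_log 2 (1 / 4) (by norm_num) (by norm_num),
      ev_log (2 * Real.pi) 1 (by positivity) one_pos] with T a1 a2 a3 a4 a5 a6
    rw [Real.rpow_one] at a6
    exact ⟨a1, a2, a3, a4, a5, a6⟩
  obtain ⟨T₀, hT⟩ := eventually_atTop.mp h
  exact ⟨max 3 T₀, le_max_left _ _, fun T h1 => hT T ((le_max_right _ _).trans h1)⟩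

lemma err1 {T : ℝ} (hT : 3 ≤ T) (h : 400 * Real.log T ≤ T ^ (1 / 1000 : ℝ)) :
    200 * Real.log T * T ^ (-(7 / 1000) : ℝ) ≤ 1 / 2 * T ^ (-(6 / 1000) : ℝ) := by
  have hT0 : 0 < T := by linarith
  have e : T ^ (-(6 / 1000) : ℝ) = T ^ (1 / 1000 : ℝ) * T ^ (-(7 / 1000) : ℝ) := by
    rw [← Real.rpow_add hT0]
    norm_num
  rw [e]
  have h1 : 0 < T ^ (-(7 / 1000) : ℝ) := Real.rpow_pos_of_pos hT0 _
  nlinarith

lemma err2 {T C X : ℝ} (hT : 3 ≤ T) (hC0 : 0 ≤ C) (hC : 2 * C ≤ T) (hL : 10 ≤ Real.log T)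
    (h : 2 * Real.log T ≤ T ^ (1 / 4 : ℝ)) (hX0 : 0 ≤ X) (hX : X ≤ T) :
    (C * T ^ 2 * T ^ 4 * (1 + Real.log T) ^ 4) * X * Real.exp (-(Real.log T) ^ 2) ≤
      1 / 2 * T ^ (-(6 / 1000) : ℝ) := by
  have hT0 : 0 < T := by linarith
  have h1 : (1 + Real.log T) ^ 4 ≤ T := by
    calc (1 + Real.log T) ^ 4 ≤ (T ^ (1 / 4 : ℝ)) ^ 4 := by
          refine pow_le_pow_left₀ (by linarith) ?_ 4
          linarith
      _ = T := by
          rw [← Real.rpow_natCast, ← Real.rpow_mul hT0.le]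
          norm_num
  have h2 : Real.exp (-(Real.log T) ^ 2) ≤ (T ^ 10)⁻¹ := by
    have e : (T ^ 10)⁻¹ = Real.exp (-(10 * Real.log T)) := by
      have e2 : Real.exp (10 * Real.log T) = T ^ 10 := by
        rw [show (10 : ℝ) * Real.log T = ((10 : ℕ) : ℝ) * Real.log T by norm_num, Real.exp_nat_mul,
          Real.exp_log hT0]
      rw [Real.exp_neg, e2]
    rw [e]
    apply Real.exp_le_exp.mpr
    nlinarith
  have h3 : T⁻¹ ≤ T ^ (-(6 / 1000) : ℝ) := by
    rw [← Real.rpow_neg_one]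
    exact Real.rpow_le_rpow_of_exponent_le (by linarith) (by norm_num)
  calc (C * T ^ 2 * T ^ 4 * (1 + Real.log T) ^ 4) * X * Real.exp (-(Real.log T) ^ 2)
      ≤ (C * T ^ 2 * T ^ 4 * T) * T * (T ^ 10)⁻¹ := by gcongr
    _ = C * (T ^ 2)⁻¹ := by
        field_simp
    _ ≤ T / 2 * (T ^ 2)⁻¹ := by
        gcongr
        linarith
    _ = 1 / 2 * T⁻¹ := by
        field_simp
    _ ≤ _ := by gcongr

end Half

theorem stHalf (h0 : StRect) (h1 : StStripH) (h3 : StFE) : StHalf := by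
  obtain ⟨h1a, C, hC, h1b⟩ := h1
  obtain ⟨T₁, hT₁, h3⟩ := h3
  obtain ⟨T₀, hT₀, hT⟩ := Half.thresholds C T₁
  refine ⟨T₀, hT₀, fun T hTT τ hτ1 hτ2 H hH hHb hHm => ?_⟩
  obtain ⟨a1, a2, a3, a4, a5, a6⟩ := hT T hTT
  have hT3 : 3 ≤ T := hT₀.trans hTT
  have hT0 : 0 < T := by linarith
  have hL0 : 0 < Real.log T := by linarith
  have hpi : (0 : ℝ) < 2 * Real.pi := by positivity
  have hX1 : 1 ≤ |τ| / (2 * Real.pi) := by
    rw [one_le_div hpi]
    refine le_trans ?_ hτ1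
    rw [le_div_iff₀ hL0]
    exact a6
  have hX2 : |τ| / (2 * Real.pi) ≤ T := by
    rw [div_le_iff₀ hpi]
    have := Real.pi_gt_three
    nlinarith
  have key := Half.core h0 (FH T τ H) (|τ| / (2 * Real.pi)) (Real.log T) (T ^ (-(7 / 1000) : ℝ))
    (C * T ^ 2 * T ^ 4 * (1 + Real.log T) ^ 4) hX1 (by linarith) (by positivity)
    (h1a T τ (T ^ 2) H (by linarith) hH hHb)
    (fun w hw1 hw2 => h3 T a1 τ hτ1 hτ2 H hH hHb hHm w hw1 hw2)
    (fun w hw1 hw2 => by
      have := h1b T hT3 τ (by linarith) (T ^ 2) H hH hHb w (hw1.trans (by norm_num))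
      rwa [hw2] at this)
  refine key.trans ?_
  have e1 := Half.err1 hT3 a4
  have e2 := Half.err2 hT3 hC.le a2 a3 a5 (by linarith) hX2
  linarith

end K5
end Pool.Agent.Lib.MP_973905_nt
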