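import Pool.Agent.Lib.MP_973905_nt.K5.Stmts
import Pool.Agent.Lib.MP_973905_nt.K1.LF

/-! The local factor is Lipschitz in the shifts (termwise estimate of the double series). -/

set_option autoImplicit false

namespace Pool.Agent.Lib.MP_973905_nt
namespace K5
namespace LFLipA

open Complex K1 K1.LFaux DDaux

lemma nat_mul_pow_le (n : ℕ) : ((n : ℝ) + 1) * (3 / 4 : ℝ) ^ n ≤ 3 := by
  have h1 : 1 + (n : ℝ) * (1 / 3) ≤ (1 + 1 / 3 : ℝ) ^ n := one_add_mul_le_pow (by norm_num) n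
  have h2 : (3 / 4 : ℝ) ^ n * (1 + 1 / 3 : ℝ) ^ n = 1 := by
    rw [← mul_pow]
    norm_num
  have h3 : 0 < (3 / 4 : ℝ) ^ n := by positivity
  nlinarith [mul_le_mul_of_nonneg_left h1 h3.le]

lemma norm_pow_sub_le {y z : ℂ} (hy : ‖y‖ ≤ 3 / 4) (hz : ‖z‖ ≤ 3 / 4) (n : ℕ) :
    ‖y ^ n - z ^ n‖ ≤ 3 * ‖y - z‖ := by
  rcases n with _ | n
  · simp
  · rw [← geom_sum₂_mul, norm_mul]
    apply mul_le_mul_of_nonneg_right _ (norm_nonneg _)
    refine (norm_sum_le _ _).trans ?_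
    calc ∑ i ∈ Finset.range (n + 1), ‖y ^ i * z ^ (n + 1 - 1 - i)‖
        ≤ ∑ _i ∈ Finset.range (n + 1), (3 / 4 : ℝ) ^ n := by
          apply Finset.sum_le_sum
          intro i hi
          rw [Finset.mem_range] at hi
          rw [norm_mul, norm_pow, norm_pow]
          calc ‖y‖ ^ i * ‖z‖ ^ (n + 1 - 1 - i) ≤ (3 / 4) ^ i * (3 / 4) ^ (n + 1 - 1 - i) :=
                mul_le_mul (pow_le_pow_left₀ (norm_nonneg _) hy _)
                  (pow_le_pow_left₀ (norm_nonneg _) hz _) (by positivity) (by positivity)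
            _ = (3 / 4 : ℝ) ^ n := by
                rw [← pow_add]
                congr 1
                omega
      _ = ((n : ℝ) + 1) * (3 / 4 : ℝ) ^ n := by
          rw [Finset.sum_const, Finset.card_range, nsmul_eq_mul]
          push_cast
          ring
      _ ≤ 3 := nat_mul_pow_le n

lemma pow_le' {x : ℝ} (hx0 : 0 ≤ x) (hx1 : x ≤ 3 / 4) {k : ℕ} (hk : 1 ≤ k) :
    x ^ k ≤ x * (4 / 3 * (3 / 4) ^ k) := by
  obtain ⟨j, rfl⟩ : ∃ j, k = j + 1 := ⟨k - 1, by omega⟩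
  have h := pow_le_pow_left₀ hx0 hx1 j
  calc x ^ (j + 1) = x * x ^ j := by ring
    _ ≤ x * (3 / 4) ^ j := mul_le_mul_of_nonneg_left h hx0
    _ = x * (4 / 3 * (3 / 4) ^ (j + 1)) := by ring

lemma term_le {u x : ℝ} {x₁ x₂ : ℂ} (hu0 : 0 ≤ u) (hu1 : u ≤ 1) (hx0 : 0 ≤ x)
    (hx1 : x ≤ 3 / 4) (h₁ : ‖x₁‖ ≤ 3 / 4) (h₂ : ‖x₂‖ ≤ 3 / 4) (q : ℕ × ℕ) :
    ‖tt u x x₁ x₂ q - tt u x x x q‖ ≤
      4 * x * (‖x₁ - x‖ + ‖x₂ - x‖) * (3 / 4) ^ (q.1 + q.2) := by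
  obtain ⟨a, b⟩ := q
  simp only
  have hxn : ‖(x : ℂ)‖ ≤ 3 / 4 := by
    rw [norm_real, Real.norm_eq_abs, abs_of_nonneg hx0]
    exact hx1
  have hcf : |cf (-u) a| * |cf (-u) b| ≤ 1 := by
    calc |cf (-u) a| * |cf (-u) b| ≤ 1 * 1 :=
          mul_le_mul (cf_neg_le_one hu0 hu1 a) (cf_neg_le_one hu0 hu1 b) (abs_nonneg _)
            zero_le_one
      _ = 1 := one_mul 1
  have hfac : tt u x x₁ x₂ (a, b) - tt u x x x (a, b) =
      ((cf (-u) a * cf (-u) b * x ^ (a + b) : ℝ) : ℂ) *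
        (x₂ ^ (a - b) * x₁ ^ (b - a) - (x : ℂ) ^ (a - b) * (x : ℂ) ^ (b - a)) := by
    simp only [tt]
    ring
  have hc : ‖((cf (-u) a * cf (-u) b * x ^ (a + b) : ℝ) : ℂ)‖ ≤ x ^ (a + b) := by
    rw [norm_real, Real.norm_eq_abs, abs_mul, abs_mul, abs_of_nonneg (pow_nonneg hx0 _)]
    calc |cf (-u) a| * |cf (-u) b| * x ^ (a + b) ≤ 1 * x ^ (a + b) :=
          mul_le_mul_of_nonneg_right hcf (pow_nonneg hx0 _)
      _ = x ^ (a + b) := one_mul _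
  have hRn : 0 ≤ 4 * x * (‖x₁ - x‖ + ‖x₂ - x‖) * (3 / 4 : ℝ) ^ (a + b) := by positivity
  rw [hfac, norm_mul]
  rcases Nat.eq_zero_or_pos (a + b) with h0 | h0
  · have ha : a = 0 := by omega
    have hb : b = 0 := by omega
    subst ha
    subst hb
    simp only [Nat.sub_self, pow_zero, mul_one, sub_self, norm_zero, mul_zero]
    positivity
  · have hpw := pow_le' hx0 hx1 h0
    have hc' := hc.trans hpw
    have hD : ‖x₂ ^ (a - b) * x₁ ^ (b - a) - (x : ℂ) ^ (a - b) * (x : ℂ) ^ (b - a)‖ ≤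
        3 * (‖x₁ - x‖ + ‖x₂ - x‖) := by
      rcases le_total a b with h | h
      · rw [Nat.sub_eq_zero_of_le h, pow_zero, pow_zero, one_mul, one_mul]
        have := norm_pow_sub_le h₁ hxn (b - a)
        linarith [norm_nonneg (x₂ - (x : ℂ))]
      · rw [Nat.sub_eq_zero_of_le h, pow_zero, pow_zero, mul_one, mul_one]
        have := norm_pow_sub_le h₂ hxn (a - b)
        linarith [norm_nonneg (x₁ - (x : ℂ))]
    calc _ ≤ x * (4 / 3 * (3 / 4) ^ (a + b)) * (3 * (‖x₁ - x‖ + ‖x₂ - x‖)) :=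
          mul_le_mul hc' hD (norm_nonneg _) (by positivity)
      _ = _ := by ring

end LFLipA

open Complex K1 K1.LFaux DDaux LFLipA in
theorem stLFLip (_h : StLF) : StLFLip := by
  refine ⟨64, by norm_num, ?_⟩
  intro u x x₁ x₂ hu0 hu1 hx0 hx1 h₁ h₂
  have hxn : ‖(x : ℂ)‖ = x := by
    rw [norm_real, Real.norm_eq_abs, abs_of_nonneg hx0]
  have key : ∀ y : ℂ, ‖y - x‖ ≤ x / 50 → ‖y‖ ≤ 3 / 4 := by
    intro y hy
    have h := norm_add_le (y - x) (x : ℂ)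
    rw [sub_add_cancel, hxn] at h
    linarith
  have hx34 : x ≤ 3 / 4 := by linarith
  have hxlt : x < 1 := by linarith
  have n1 := key x₁ h₁
  have n2 := key x₂ h₂
  have hS := LF_hasSum hu0 hu1 hx0 hxlt n1 n2
  have hS0 := LF_hasSum (x₁ := (x : ℂ)) (x₂ := (x : ℂ)) hu0 hu1 hx0 hxlt
    (by rw [hxn]; exact hx34) (by rw [hxn]; exact hx34)
  have hd := hS.sub hS0
  have hgeo : HasSum (fun q : ℕ × ℕ => (3 / 4 : ℝ) ^ (q.1 + q.2)) 16 := by
    have hg : HasSum (fun n : ℕ => (3 / 4 : ℝ) ^ n) 4 := by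
      have := hasSum_geometric_of_lt_one (r := (3 / 4 : ℝ)) (by norm_num) (by norm_num)
      norm_num at this
      exact this
    have h := hg.mul hg (hg.summable.mul_of_nonneg hg.summable (fun n => by positivity)
      (fun n => by positivity))
    have e : (fun q : ℕ × ℕ => (3 / 4 : ℝ) ^ (q.1 + q.2)) =
        fun q : ℕ × ℕ => (3 / 4 : ℝ) ^ q.1 * (3 / 4 : ℝ) ^ q.2 := by
      funext q
      rw [pow_add]
    rw [e]
    norm_num at h ⊢
    exact h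
  have hbd := hgeo.mul_left (4 * x * (‖x₁ - x‖ + ‖x₂ - x‖))
  rw [← hd.tsum_eq]
  refine (tsum_of_norm_bounded hbd fun q => ?_).trans_eq (by ring)
  exact term_le hu0 hu1 hx0 hx34 n1 n2 q

end K5
end Pool.Agent.Lib.MP_973905_nt
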