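import Pool.Agent.Lib.MP_973905_nt.K5.LamTools

/-! The numerical bound of `lam k 1`. -/

namespace Pool.Agent.Lib.MP_973905_nt
namespace K5
namespace Lam1T

open Real

theorem vv_eq : Vv 1 = 1 := by simp [Vv]

theorem aF_eq (k : ℝ) (hk : 0 < k) (hk1 : k ≤ 1 / 2) : aF k 1 =
    (5 / 2) + (-8) * k + 16 * k ^ 2 + (-(64 / 3)) * k ^ 3 + (127 / 6) * k ^ 4 + (-(44 / 3)) * k ^ 5 + (22 / 3) * k ^ 6 + (-(8 / 3)) * k ^ 7 + (2 / 3) * k ^ 8 := by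
  unfold aF
  rw [LamT.eta_zero k hk hk1]
  have hd : dg 1 = 4 := by simp [dg]
  rw [hd, vv_eq]
  simp only [Finset.sum_range_succ, Finset.sum_range_zero, mom, Nat.factorial]
  push_cast
  ring

theorem mom_eq (k : ℝ) : mom 4 (-((1 - k) * (1))) ((1) / 2) =
    (19 / 4) + (-10) * k + 9 * k ^ 2 + (-4) * k ^ 3 + 1 * k ^ 4 := by
  simp only [mom]
  push_cast
  ring

theorem aG_eq (k : ℝ) : aG k 1 =
    1 + (-2) * k + 5 * k ^ 2 + (-(22 / 3)) * k ^ 3 + (67 / 6) * k ^ 4 + (-(32 / 3)) * k ^ 5 + (22 / 3) * k ^ 6 + (-(8 / 3)) * k ^ 7 + (2 / 3) * k ^ 8 +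
      eta k 4 * 2 ^ 4 * ((19 / 4) + (-10) * k + 9 * k ^ 2 + (-4) * k ^ 3 + 1 * k ^ 4) := by
  unfold aG
  have hd : dg 1 = 4 := by simp [dg]
  rw [hd, vv_eq, mom_eq]
  simp only [Finset.sum_range_succ, Finset.sum_range_zero, mom, Nat.factorial]
  push_cast
  ring

theorem aF_pos (k : ℝ) (hk : 0 < k) (hk1 : k ≤ 1 / 2) : 0 < aF k 1 := by
  rw [aF_eq k hk hk1]
  have h0 : 0 ≤ 1 - 2 * k := by linarith
  have h : (5 / 2) + (-8) * k + 16 * k ^ 2 + (-(64 / 3)) * k ^ 3 + (127 / 6) * k ^ 4 + (-(44 / 3)) * k ^ 5 + (22 / 3) * k ^ 6 + (-(8 / 3)) * k ^ 7 + (2 / 3) * k ^ 8 =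
      (5 / 2) * (1 - 2 * k) ^ 8
      + 32 * k * (1 - 2 * k) ^ 7
      + 184 * k ^ 2 * (1 - 2 * k) ^ 6
      + (1856 / 3) * k ^ 3 * (1 - 2 * k) ^ 5
      + (7967 / 6) * k ^ 4 * (1 - 2 * k) ^ 4
      + (5584 / 3) * k ^ 5 * (1 - 2 * k) ^ 3
      + (4994 / 3) * k ^ 6 * (1 - 2 * k) ^ 2
      + (2608 / 3) * k ^ 7 * (1 - 2 * k)
      + (610 / 3) * k ^ 8 := by ring
  rw [h]
  positivity

theorem poly_pos (k : ℝ) (hk : 0 < k) (hk1 : k ≤ 1 / 2) : 0 <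
    1 + (-2) * k + 5 * k ^ 2 + (-(22 / 3)) * k ^ 3 + (67 / 6) * k ^ 4 + (-(32 / 3)) * k ^ 5 + (22 / 3) * k ^ 6 + (-(8 / 3)) * k ^ 7 + (2 / 3) * k ^ 8 := by
  have h0 : 0 ≤ 1 - 2 * k := by linarith
  have h : 1 + (-2) * k + 5 * k ^ 2 + (-(22 / 3)) * k ^ 3 + (67 / 6) * k ^ 4 + (-(32 / 3)) * k ^ 5 + (22 / 3) * k ^ 6 + (-(8 / 3)) * k ^ 7 + (2 / 3) * k ^ 8 =
      1 * (1 - 2 * k) ^ 8
      + 14 * k * (1 - 2 * k) ^ 7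
      + 89 * k ^ 2 * (1 - 2 * k) ^ 6
      + (998 / 3) * k ^ 3 * (1 - 2 * k) ^ 5
      + (4787 / 6) * k ^ 4 * (1 - 2 * k) ^ 4
      + (3772 / 3) * k ^ 5 * (1 - 2 * k) ^ 3
      + (3818 / 3) * k ^ 6 * (1 - 2 * k) ^ 2
      + (2272 / 3) * k ^ 7 * (1 - 2 * k)
      + (610 / 3) * k ^ 8 := by ring
  rw [h]
  positivity

theorem mom_nonneg (k : ℝ) : 0 ≤ (19 / 4) + (-10) * k + 9 * k ^ 2 + (-4) * k ^ 3 + 1 * k ^ 4 := by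
  have h : (19 / 4) + (-10) * k + 9 * k ^ 2 + (-4) * k ^ 3 + 1 * k ^ 4 =
      (3 / 4) + 3 * (1 - k) ^ 2 + 1 * (1 - k) ^ 4 := by ring
  rw [h]
  positivity

theorem aG_pos (k : ℝ) (hk : 0 < k) (hk1 : k ≤ 1 / 2) : 0 < aG k 1 := by
  rw [aG_eq]
  have h1 := poly_pos k hk hk1
  have h2 := mom_nonneg k
  have h3 := (LamT.eta_bds k hk hk1 4 (by norm_num)).1
  have h4 : 0 ≤ eta k 4 * 2 ^ 4 * ((19 / 4) + (-10) * k + 9 * k ^ 2 + (-4) * k ^ 3 + 1 * k ^ 4) :=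
    mul_nonneg (by positivity) h2
  linarith

theorem aG_le (k : ℝ) (hk : 0 < k) (hk1 : k ≤ 1 / 2) : aG k 1 ≤
    1 + (-(109 / 64)) * k + (223 / 64) * k ^ 2 + (-(769 / 192)) * k ^ 3 + (1355 / 192) * k ^ 4 + (-(1505 / 192)) * k ^ 5 + (1183 / 192) * k ^ 6 + (-(473 / 192)) * k ^ 7 + (119 / 192) * k ^ 8 + (1 / 4) * k ^ 9 + (-(3 / 8)) * k ^ 10 + (3 / 16) * k ^ 11 + (-(1 / 16)) * k ^ 12 := by
  rw [aG_eq]
  have h2 := mom_nonneg k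
  have h3 := (LamT.eta_bds k hk hk1 4 (by norm_num)).2
  have h4 := mul_le_mul_of_nonneg_right (mul_le_mul_of_nonneg_right h3 (by norm_num : (0 : ℝ) ≤ 2 ^ 4)) h2
  have h5 : 1 + (-(109 / 64)) * k + (223 / 64) * k ^ 2 + (-(769 / 192)) * k ^ 3 + (1355 / 192) * k ^ 4 + (-(1505 / 192)) * k ^ 5 + (1183 / 192) * k ^ 6 + (-(473 / 192)) * k ^ 7 + (119 / 192) * k ^ 8 + (1 / 4) * k ^ 9 + (-(3 / 8)) * k ^ 10 + (3 / 16) * k ^ 11 + (-(1 / 16)) * k ^ 12 =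
      1 + (-2) * k + 5 * k ^ 2 + (-(22 / 3)) * k ^ 3 + (67 / 6) * k ^ 4 + (-(32 / 3)) * k ^ 5 + (22 / 3) * k ^ 6 + (-(8 / 3)) * k ^ 7 + (2 / 3) * k ^ 8 +
      3 / 8 * (k / (((4 : ℕ) : ℝ) * ((4 : ℕ).factorial : ℝ))) *
      ((1 - k) ^ (4 - 1) - k ^ 4 * (1 + k + k ^ 2 + k ^ 3)) * 2 ^ 4 * ((19 / 4) + (-10) * k + 9 * k ^ 2 + (-4) * k ^ 3 + 1 * k ^ 4) := by
    simp only [Nat.factorial]
    push_cast
    ring
  rw [h5]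
  linarith

theorem expE (k : ℝ) (hk : 0 < k) (hk1 : k ≤ 1 / 2) :
    Real.exp ((4 * k - 1 - 3 * k ^ 2) * Vv 1) ≤
    (331277 / 900000) + (22 / 15) * k + (19 / 10) * k ^ 2 + (-(17 / 18)) * k ^ 3 + (-(47 / 48)) * k ^ 4 + (-10) * k ^ 5 + (1997 / 90) * k ^ 6 + (-(173 / 5)) * k ^ 7 + (795 / 16) * k ^ 8 + (-48) * k ^ 9 + 27 * k ^ 10 + (-(81 / 10)) * k ^ 11 + (81 / 80) * k ^ 12 := by
  rw [vv_eq]
  refine (LamT.exp_le6 _ (by nlinarith) (by nlinarith)).trans (le_of_eq ?_)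
  ring

theorem expF (k : ℝ) (hk : 0 < k) (hk1 : k ≤ 1 / 2) :
    Real.exp ((2 * k - 3 * k ^ 2) * Vv 1) ≤
    1 + 2 * k + (-1) * k ^ 2 + (-(14 / 3)) * k ^ 3 + (-(2 / 3)) * k ^ 4 + 4 * k ^ 5 + (27 / 4) * k ^ 6 + (-(45 / 4)) * k ^ 7 + (135 / 32) * k ^ 8 := by
  rw [vv_eq]
  refine (LamT.exp_le4 _ (by nlinarith) (by nlinarith)).trans (le_of_eq ?_)
  ring

theorem cert (k : ℝ) (hk : 0 < k) (hk1 : k ≤ 1 / 2) :
    k * (((5 / 2) + (-8) * k + 16 * k ^ 2 + (-(64 / 3)) * k ^ 3 + (127 / 6) * k ^ 4 + (-(44 / 3)) * k ^ 5 + (22 / 3) * k ^ 6 + (-(8 / 3)) * k ^ 7 + (2 / 3) * k ^ 8) *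
      ((331277 / 900000) + (22 / 15) * k + (19 / 10) * k ^ 2 + (-(17 / 18)) * k ^ 3 + (-(47 / 48)) * k ^ 4 + (-10) * k ^ 5 + (1997 / 90) * k ^ 6 + (-(173 / 5)) * k ^ 7 + (795 / 16) * k ^ 8 + (-48) * k ^ 9 + 27 * k ^ 10 + (-(81 / 10)) * k ^ 11 + (81 / 80) * k ^ 12) - 1) +
    (1 - k) * ((1 + (-(109 / 64)) * k + (223 / 64) * k ^ 2 + (-(769 / 192)) * k ^ 3 + (1355 / 192) * k ^ 4 + (-(1505 / 192)) * k ^ 5 + (1183 / 192) * k ^ 6 + (-(473 / 192)) * k ^ 7 + (119 / 192) * k ^ 8 + (1 / 4) * k ^ 9 + (-(3 / 8)) * k ^ 10 + (3 / 16) * k ^ 11 + (-(1 / 16)) * k ^ 12) *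
      (1 + 2 * k + (-1) * k ^ 2 + (-(14 / 3)) * k ^ 3 + (-(2 / 3)) * k ^ 4 + 4 * k ^ 5 + (27 / 4) * k ^ 6 + (-(45 / 4)) * k ^ 7 + (135 / 32) * k ^ 8) - 1) ≤
    k * (1 - k) * ((219 / 1000) - (137 / 500) * k) := by
  have h0 : 0 ≤ 1 - 2 * k := by linarith
  rw [← sub_nonneg]
  have h : k * (1 - k) * ((219 / 1000) - (137 / 500) * k) - (k * (((5 / 2) + (-8) * k + 16 * k ^ 2 + (-(64 / 3)) * k ^ 3 + (127 / 6) * k ^ 4 + (-(44 / 3)) * k ^ 5 + (22 / 3) * k ^ 6 + (-(8 / 3)) * k ^ 7 + (2 / 3) * k ^ 8) *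
      ((331277 / 900000) + (22 / 15) * k + (19 / 10) * k ^ 2 + (-(17 / 18)) * k ^ 3 + (-(47 / 48)) * k ^ 4 + (-10) * k ^ 5 + (1997 / 90) * k ^ 6 + (-(173 / 5)) * k ^ 7 + (795 / 16) * k ^ 8 + (-48) * k ^ 9 + 27 * k ^ 10 + (-(81 / 10)) * k ^ 11 + (81 / 80) * k ^ 12) - 1) +
    (1 - k) * ((1 + (-(109 / 64)) * k + (223 / 64) * k ^ 2 + (-(769 / 192)) * k ^ 3 + (1355 / 192) * k ^ 4 + (-(1505 / 192)) * k ^ 5 + (1183 / 192) * k ^ 6 + (-(473 / 192)) * k ^ 7 + (119 / 192) * k ^ 8 + (1 / 4) * k ^ 9 + (-(3 / 8)) * k ^ 10 + (3 / 16) * k ^ 11 + (-(1 / 16)) * k ^ 12) *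
      (1 + 2 * k + (-1) * k ^ 2 + (-(14 / 3)) * k ^ 3 + (-(2 / 3)) * k ^ 4 + 4 * k ^ 5 + (27 / 4) * k ^ 6 + (-(45 / 4)) * k ^ 7 + (135 / 32) * k ^ 8) - 1)) =
      (43 / 22500) * k * (1 - 2 * k) ^ 20
      + (72191 / 900000) * k ^ 2 * (1 - 2 * k) ^ 19
      + (3675077 / 1800000) * k ^ 3 * (1 - 2 * k) ^ 18
      + (94956029 / 2700000) * k ^ 4 * (1 - 2 * k) ^ 17
      + (2222369063 / 5400000) * k ^ 5 * (1 - 2 * k) ^ 16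
      + (4571499233 / 1350000) * k ^ 6 * (1 - 2 * k) ^ 15
      + (439933501657 / 21600000) * k ^ 7 * (1 - 2 * k) ^ 14
      + (1995527348681 / 21600000) * k ^ 8 * (1 - 2 * k) ^ 13
      + (11170794730409 / 34560000) * k ^ 9 * (1 - 2 * k) ^ 12
      + (38258316766487 / 43200000) * k ^ 10 * (1 - 2 * k) ^ 11
      + (165696247077173 / 86400000) * k ^ 11 * (1 - 2 * k) ^ 10
      + (5695302165109 / 1728000) * k ^ 12 * (1 - 2 * k) ^ 9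
      + (194084579481677 / 43200000) * k ^ 13 * (1 - 2 * k) ^ 8
      + (13043527223047 / 2700000) * k ^ 14 * (1 - 2 * k) ^ 7
      + (8753829169643 / 2160000) * k ^ 15 * (1 - 2 * k) ^ 6
      + (56260316707747 / 21600000) * k ^ 16 * (1 - 2 * k) ^ 5
      + (215452825432477 / 172800000) * k ^ 17 * (1 - 2 * k) ^ 4
      + (919350383447 / 2160000) * k ^ 18 * (1 - 2 * k) ^ 3
      + (4174431130121 / 43200000) * k ^ 19 * (1 - 2 * k) ^ 2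
      + (69692236463 / 5400000) * k ^ 20 * (1 - 2 * k)
      + (6639863531 / 8640000) * k ^ 21 := by ring
  rw [h]
  positivity

end Lam1T

theorem stLam1 : StLam1 := by
  intro k hk hk1
  have h := LamT.lam_le k hk (by linarith) 1 _ _ _ _ (Lam1T.aF_pos k hk hk1) (Lam1T.aG_pos k hk hk1)
    (Lam1T.aF_eq k hk hk1).le (Lam1T.aG_le k hk hk1) (Lam1T.expE k hk hk1) (Lam1T.expF k hk hk1)
  have h2 := Lam1T.cert k hk hk1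
  have h3 : k * (1 - k) * ((219 / 1000) - (137 / 500) * k) = k * (1 - k) * (219 / 1000 - 274 / 1000 * k) := by
    norm_num
  rw [h3] at h2
  exact h.trans h2

end K5
end Pool.Agent.Lib.MP_973905_nt
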