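import Pool.Agent.Lib.MP_973905_nt.K5.LamTools

/-! The numerical bound of `lam k 2`. -/

namespace Pool.Agent.Lib.MP_973905_nt
namespace K5
namespace Lam2T

open Real

theorem vv_eq : Vv 2 = 1 := by simp [Vv]

theorem aF_eq (k : ℝ) (hk : 0 < k) (hk1 : k ≤ 1 / 2) : aF k 2 =
    (8 / 3) + (-10) * k + (49 / 2) * k ^ 2 + (-42) * k ^ 3 + 56 * k ^ 4 + (-(874 / 15)) * k ^ 5 + (4343 / 90) * k ^ 6 + (-(478 / 15)) * k ^ 7 + 17 * k ^ 8 + (-(64 / 9)) * k ^ 9 + (34 / 15) * k ^ 10 + (-(8 / 15)) * k ^ 11 + (4 / 45) * k ^ 12 := by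
  unfold aF
  rw [LamT.eta_zero k hk hk1]
  have hd : dg 2 = 6 := by simp [dg]
  rw [hd, vv_eq]
  simp only [Finset.sum_range_succ, Finset.sum_range_zero, mom, Nat.factorial]
  push_cast
  ring

theorem mom_eq (k : ℝ) : mom 6 (-((1 - k) * (1))) ((1) / 2) =
    (173 / 8) + (-(117 / 2)) * k + (285 / 4) * k ^ 2 + (-50) * k ^ 3 + (45 / 2) * k ^ 4 + (-6) * k ^ 5 + 1 * k ^ 6 := by
  simp only [mom]
  push_cast
  ring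

theorem aG_eq (k : ℝ) : aG k 2 =
    1 + (-2) * k + 5 * k ^ 2 + (-(22 / 3)) * k ^ 3 + (67 / 6) * k ^ 4 + (-(199 / 15)) * k ^ 5 + (1403 / 90) * k ^ 6 + (-(218 / 15)) * k ^ 7 + 11 * k ^ 8 + (-(52 / 9)) * k ^ 9 + (34 / 15) * k ^ 10 + (-(8 / 15)) * k ^ 11 + (4 / 45) * k ^ 12 +
      eta k 6 * 2 ^ 6 * ((173 / 8) + (-(117 / 2)) * k + (285 / 4) * k ^ 2 + (-50) * k ^ 3 + (45 / 2) * k ^ 4 + (-6) * k ^ 5 + 1 * k ^ 6) := by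
  unfold aG
  have hd : dg 2 = 6 := by simp [dg]
  rw [hd, vv_eq, mom_eq]
  simp only [Finset.sum_range_succ, Finset.sum_range_zero, mom, Nat.factorial]
  push_cast
  ring

theorem aF_pos (k : ℝ) (hk : 0 < k) (hk1 : k ≤ 1 / 2) : 0 < aF k 2 := by
  rw [aF_eq k hk hk1]
  have h0 : 0 ≤ 1 - 2 * k := by linarith
  have h : (8 / 3) + (-10) * k + (49 / 2) * k ^ 2 + (-42) * k ^ 3 + 56 * k ^ 4 + (-(874 / 15)) * k ^ 5 + (4343 / 90) * k ^ 6 + (-(478 / 15)) * k ^ 7 + 17 * k ^ 8 + (-(64 / 9)) * k ^ 9 + (34 / 15) * k ^ 10 + (-(8 / 15)) * k ^ 11 + (4 / 45) * k ^ 12 =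
      (8 / 3) * (1 - 2 * k) ^ 12
      + 54 * k * (1 - 2 * k) ^ 11
      + (1017 / 2) * k ^ 2 * (1 - 2 * k) ^ 10
      + (8824 / 3) * k ^ 3 * (1 - 2 * k) ^ 9
      + 11630 * k ^ 4 * (1 - 2 * k) ^ 8
      + (496406 / 15) * k ^ 5 * (1 - 2 * k) ^ 7
      + (6251087 / 90) * k ^ 6 * (1 - 2 * k) ^ 6
      + (541464 / 5) * k ^ 7 * (1 - 2 * k) ^ 5
      + 124455 * k ^ 8 * (1 - 2 * k) ^ 4
      + (925192 / 9) * k ^ 9 * (1 - 2 * k) ^ 3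
      + (289622 / 5) * k ^ 10 * (1 - 2 * k) ^ 2
      + (299872 / 15) * k ^ 11 * (1 - 2 * k)
      + (143836 / 45) * k ^ 12 := by ring
  rw [h]
  positivity

theorem poly_pos (k : ℝ) (hk : 0 < k) (hk1 : k ≤ 1 / 2) : 0 <
    1 + (-2) * k + 5 * k ^ 2 + (-(22 / 3)) * k ^ 3 + (67 / 6) * k ^ 4 + (-(199 / 15)) * k ^ 5 + (1403 / 90) * k ^ 6 + (-(218 / 15)) * k ^ 7 + 11 * k ^ 8 + (-(52 / 9)) * k ^ 9 + (34 / 15) * k ^ 10 + (-(8 / 15)) * k ^ 11 + (4 / 45) * k ^ 12 := by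
  have h0 : 0 ≤ 1 - 2 * k := by linarith
  have h : 1 + (-2) * k + 5 * k ^ 2 + (-(22 / 3)) * k ^ 3 + (67 / 6) * k ^ 4 + (-(199 / 15)) * k ^ 5 + (1403 / 90) * k ^ 6 + (-(218 / 15)) * k ^ 7 + 11 * k ^ 8 + (-(52 / 9)) * k ^ 9 + (34 / 15) * k ^ 10 + (-(8 / 15)) * k ^ 11 + (4 / 45) * k ^ 12 =
      1 * (1 - 2 * k) ^ 12
      + 22 * k * (1 - 2 * k) ^ 11
      + 225 * k ^ 2 * (1 - 2 * k) ^ 10
      + (4238 / 3) * k ^ 3 * (1 - 2 * k) ^ 9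
      + (36355 / 6) * k ^ 4 * (1 - 2 * k) ^ 8
      + (93467 / 5) * k ^ 5 * (1 - 2 * k) ^ 7
      + (3826847 / 90) * k ^ 6 * (1 - 2 * k) ^ 6
      + (359184 / 5) * k ^ 7 * (1 - 2 * k) ^ 5
      + 89465 * k ^ 8 * (1 - 2 * k) ^ 4
      + (721012 / 9) * k ^ 9 * (1 - 2 * k) ^ 3
      + (734666 / 15) * k ^ 10 * (1 - 2 * k) ^ 2
      + (91824 / 5) * k ^ 11 * (1 - 2 * k)
      + (143836 / 45) * k ^ 12 := by ring
  rw [h]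
  positivity

theorem mom_nonneg (k : ℝ) : 0 ≤ (173 / 8) + (-(117 / 2)) * k + (285 / 4) * k ^ 2 + (-50) * k ^ 3 + (45 / 2) * k ^ 4 + (-6) * k ^ 5 + 1 * k ^ 6 := by
  have h : (173 / 8) + (-(117 / 2)) * k + (285 / 4) * k ^ 2 + (-50) * k ^ 3 + (45 / 2) * k ^ 4 + (-6) * k ^ 5 + 1 * k ^ 6 =
      (15 / 8) + (45 / 4) * (1 - k) ^ 2 + (15 / 2) * (1 - k) ^ 4 + 1 * (1 - k) ^ 6 := by ring
  rw [h]
  positivity

theorem aG_pos (k : ℝ) (hk : 0 < k) (hk1 : k ≤ 1 / 2) : 0 < aG k 2 := by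
  rw [aG_eq]
  have h1 := poly_pos k hk hk1
  have h2 := mom_nonneg k
  have h3 := (LamT.eta_bds k hk hk1 6 (by norm_num)).1
  have h4 : 0 ≤ eta k 6 * 2 ^ 6 * ((173 / 8) + (-(117 / 2)) * k + (285 / 4) * k ^ 2 + (-50) * k ^ 3 + (45 / 2) * k ^ 4 + (-6) * k ^ 5 + 1 * k ^ 6) :=
    mul_nonneg (by positivity) h2
  linarith

theorem aG_le (k : ℝ) (hk : 0 < k) (hk1 : k ≤ 1 / 2) : aG k 2 ≤
    1 + (-(2707 / 1440)) * k + (5867 / 1440) * k ^ 2 + (-(37 / 9)) * k ^ 3 + (107 / 24) * k ^ 4 + (-(631 / 160)) * k ^ 5 + (9287 / 1440) * k ^ 6 + (-(2347 / 288)) * k ^ 7 + (2249 / 288) * k ^ 8 + (-(449 / 96)) * k ^ 9 + (321 / 160) * k ^ 10 + (-(281 / 720)) * k ^ 11 + (-(91 / 720)) * k ^ 12 + (13 / 72) * k ^ 13 + (-(7 / 72)) * k ^ 14 + (1 / 36) * k ^ 15 + (-(1 / 180)) * k ^ 16 := by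
  rw [aG_eq]
  have h2 := mom_nonneg k
  have h3 := (LamT.eta_bds k hk hk1 6 (by norm_num)).2
  have h4 := mul_le_mul_of_nonneg_right (mul_le_mul_of_nonneg_right h3 (by norm_num : (0 : ℝ) ≤ 2 ^ 6)) h2
  have h5 : 1 + (-(2707 / 1440)) * k + (5867 / 1440) * k ^ 2 + (-(37 / 9)) * k ^ 3 + (107 / 24) * k ^ 4 + (-(631 / 160)) * k ^ 5 + (9287 / 1440) * k ^ 6 + (-(2347 / 288)) * k ^ 7 + (2249 / 288) * k ^ 8 + (-(449 / 96)) * k ^ 9 + (321 / 160) * k ^ 10 + (-(281 / 720)) * k ^ 11 + (-(91 / 720)) * k ^ 12 + (13 / 72) * k ^ 13 + (-(7 / 72)) * k ^ 14 + (1 / 36) * k ^ 15 + (-(1 / 180)) * k ^ 16 =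
      1 + (-2) * k + 5 * k ^ 2 + (-(22 / 3)) * k ^ 3 + (67 / 6) * k ^ 4 + (-(199 / 15)) * k ^ 5 + (1403 / 90) * k ^ 6 + (-(218 / 15)) * k ^ 7 + 11 * k ^ 8 + (-(52 / 9)) * k ^ 9 + (34 / 15) * k ^ 10 + (-(8 / 15)) * k ^ 11 + (4 / 45) * k ^ 12 +
      3 / 8 * (k / (((6 : ℕ) : ℝ) * ((6 : ℕ).factorial : ℝ))) *
      ((1 - k) ^ (6 - 1) - k ^ 6 * (1 + k + k ^ 2 + k ^ 3)) * 2 ^ 6 * ((173 / 8) + (-(117 / 2)) * k + (285 / 4) * k ^ 2 + (-50) * k ^ 3 + (45 / 2) * k ^ 4 + (-6) * k ^ 5 + 1 * k ^ 6) := by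
    simp only [Nat.factorial]
    push_cast
    ring
  rw [h5]
  linarith

theorem expE (k : ℝ) (hk : 0 < k) (hk1 : k ≤ 1 / 2) :
    Real.exp ((4 * k - 1 - 3 * k ^ 2) * Vv 2) ≤
    (331277 / 900000) + (22 / 15) * k + (19 / 10) * k ^ 2 + (-(17 / 18)) * k ^ 3 + (-(47 / 48)) * k ^ 4 + (-10) * k ^ 5 + (1997 / 90) * k ^ 6 + (-(173 / 5)) * k ^ 7 + (795 / 16) * k ^ 8 + (-48) * k ^ 9 + 27 * k ^ 10 + (-(81 / 10)) * k ^ 11 + (81 / 80) * k ^ 12 := by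
  rw [vv_eq]
  refine (LamT.exp_le6 _ (by nlinarith) (by nlinarith)).trans (le_of_eq ?_)
  ring

theorem expF (k : ℝ) (hk : 0 < k) (hk1 : k ≤ 1 / 2) :
    Real.exp ((2 * k - 3 * k ^ 2) * Vv 2) ≤
    1 + 2 * k + (-1) * k ^ 2 + (-(14 / 3)) * k ^ 3 + (-(2 / 3)) * k ^ 4 + 4 * k ^ 5 + (27 / 4) * k ^ 6 + (-(45 / 4)) * k ^ 7 + (135 / 32) * k ^ 8 := by
  rw [vv_eq]
  refine (LamT.exp_le4 _ (by nlinarith) (by nlinarith)).trans (le_of_eq ?_)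
  ring

theorem cert (k : ℝ) (hk : 0 < k) (hk1 : k ≤ 1 / 2) :
    k * (((8 / 3) + (-10) * k + (49 / 2) * k ^ 2 + (-42) * k ^ 3 + 56 * k ^ 4 + (-(874 / 15)) * k ^ 5 + (4343 / 90) * k ^ 6 + (-(478 / 15)) * k ^ 7 + 17 * k ^ 8 + (-(64 / 9)) * k ^ 9 + (34 / 15) * k ^ 10 + (-(8 / 15)) * k ^ 11 + (4 / 45) * k ^ 12) *
      ((331277 / 900000) + (22 / 15) * k + (19 / 10) * k ^ 2 + (-(17 / 18)) * k ^ 3 + (-(47 / 48)) * k ^ 4 + (-10) * k ^ 5 + (1997 / 90) * k ^ 6 + (-(173 / 5)) * k ^ 7 + (795 / 16) * k ^ 8 + (-48) * k ^ 9 + 27 * k ^ 10 + (-(81 / 10)) * k ^ 11 + (81 / 80) * k ^ 12) - 1) +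
    (1 - k) * ((1 + (-(2707 / 1440)) * k + (5867 / 1440) * k ^ 2 + (-(37 / 9)) * k ^ 3 + (107 / 24) * k ^ 4 + (-(631 / 160)) * k ^ 5 + (9287 / 1440) * k ^ 6 + (-(2347 / 288)) * k ^ 7 + (2249 / 288) * k ^ 8 + (-(449 / 96)) * k ^ 9 + (321 / 160) * k ^ 10 + (-(281 / 720)) * k ^ 11 + (-(91 / 720)) * k ^ 12 + (13 / 72) * k ^ 13 + (-(7 / 72)) * k ^ 14 + (1 / 36) * k ^ 15 + (-(1 / 180)) * k ^ 16) *
      (1 + 2 * k + (-1) * k ^ 2 + (-(14 / 3)) * k ^ 3 + (-(2 / 3)) * k ^ 4 + 4 * k ^ 5 + (27 / 4) * k ^ 6 + (-(45 / 4)) * k ^ 7 + (135 / 32) * k ^ 8) - 1) ≤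
    k * (1 - k) * ((53 / 500) - (24 / 125) * k) := by
  have h0 : 0 ≤ 1 - 2 * k := by linarith
  rw [← sub_nonneg]
  have h : k * (1 - k) * ((53 / 500) - (24 / 125) * k) - (k * (((8 / 3) + (-10) * k + (49 / 2) * k ^ 2 + (-42) * k ^ 3 + 56 * k ^ 4 + (-(874 / 15)) * k ^ 5 + (4343 / 90) * k ^ 6 + (-(478 / 15)) * k ^ 7 + 17 * k ^ 8 + (-(64 / 9)) * k ^ 9 + (34 / 15) * k ^ 10 + (-(8 / 15)) * k ^ 11 + (4 / 45) * k ^ 12) *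
      ((331277 / 900000) + (22 / 15) * k + (19 / 10) * k ^ 2 + (-(17 / 18)) * k ^ 3 + (-(47 / 48)) * k ^ 4 + (-10) * k ^ 5 + (1997 / 90) * k ^ 6 + (-(173 / 5)) * k ^ 7 + (795 / 16) * k ^ 8 + (-48) * k ^ 9 + 27 * k ^ 10 + (-(81 / 10)) * k ^ 11 + (81 / 80) * k ^ 12) - 1) +
    (1 - k) * ((1 + (-(2707 / 1440)) * k + (5867 / 1440) * k ^ 2 + (-(37 / 9)) * k ^ 3 + (107 / 24) * k ^ 4 + (-(631 / 160)) * k ^ 5 + (9287 / 1440) * k ^ 6 + (-(2347 / 288)) * k ^ 7 + (2249 / 288) * k ^ 8 + (-(449 / 96)) * k ^ 9 + (321 / 160) * k ^ 10 + (-(281 / 720)) * k ^ 11 + (-(91 / 720)) * k ^ 12 + (13 / 72) * k ^ 13 + (-(7 / 72)) * k ^ 14 + (1 / 36) * k ^ 15 + (-(1 / 180)) * k ^ 16) *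
      (1 + 2 * k + (-1) * k ^ 2 + (-(14 / 3)) * k ^ 3 + (-(2 / 3)) * k ^ 4 + 4 * k ^ 5 + (27 / 4) * k ^ 6 + (-(45 / 4)) * k ^ 7 + (135 / 32) * k ^ 8) - 1)) =
      (11609 / 2700000) * k * (1 - 2 * k) ^ 24
      + (217657 / 450000) * k ^ 2 * (1 - 2 * k) ^ 23
      + (29412691 / 1800000) * k ^ 3 * (1 - 2 * k) ^ 22
      + (406535941 / 1350000) * k ^ 4 * (1 - 2 * k) ^ 21
      + (2472944761 / 675000) * k ^ 5 * (1 - 2 * k) ^ 20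
      + (13612769519 / 421875) * k ^ 6 * (1 - 2 * k) ^ 19
      + (35157422322751 / 162000000) * k ^ 7 * (1 - 2 * k) ^ 18
      + (62273751832153 / 54000000) * k ^ 8 * (1 - 2 * k) ^ 17
      + (2140067954102611 / 432000000) * k ^ 9 * (1 - 2 * k) ^ 16
      + (11325078706999007 / 648000000) * k ^ 10 * (1 - 2 * k) ^ 15
      + (884579294788591 / 17280000) * k ^ 11 * (1 - 2 * k) ^ 14
      + (677030523749317 / 5400000) * k ^ 12 * (1 - 2 * k) ^ 13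
      + (2672943689918777 / 10368000) * k ^ 13 * (1 - 2 * k) ^ 12
      + (19253442572710757 / 43200000) * k ^ 14 * (1 - 2 * k) ^ 11
      + (27947900316742357 / 43200000) * k ^ 15 * (1 - 2 * k) ^ 10
      + (254472941915665081 / 324000000) * k ^ 16 * (1 - 2 * k) ^ 9
      + (85521812482366897 / 108000000) * k ^ 17 * (1 - 2 * k) ^ 8
      + (1106770752240677 / 1687500) * k ^ 18 * (1 - 2 * k) ^ 7
      + (569190484346552089 / 1296000000) * k ^ 19 * (1 - 2 * k) ^ 6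
      + (12544683637064743 / 54000000) * k ^ 20 * (1 - 2 * k) ^ 5
      + (20249301982280537 / 216000000) * k ^ 21 * (1 - 2 * k) ^ 4
      + (1106491856168291 / 40500000) * k ^ 22 * (1 - 2 * k) ^ 3
      + (62708607104291 / 12000000) * k ^ 23 * (1 - 2 * k) ^ 2
      + (268377741151 / 500000) * k ^ 24 * (1 - 2 * k)
      + (2475114900727 / 162000000) * k ^ 25 := by ring
  rw [h]
  positivity

end Lam2T

theorem stLam2 : StLam2 := by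
  intro k hk hk1
  have h := LamT.lam_le k hk (by linarith) 2 _ _ _ _ (Lam2T.aF_pos k hk hk1) (Lam2T.aG_pos k hk hk1)
    (Lam2T.aF_eq k hk hk1).le (Lam2T.aG_le k hk hk1) (Lam2T.expE k hk hk1) (Lam2T.expF k hk hk1)
  have h2 := Lam2T.cert k hk hk1
  have h3 : k * (1 - k) * ((53 / 500) - (24 / 125) * k) = k * (1 - k) * (106 / 1000 - 192 / 1000 * k) := by
    norm_num
  rw [h3] at h2
  exact h.trans h2

end K5
end Pool.Agent.Lib.MP_973905_nt
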