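import Pool.Agent.Lib.MP_973905_nt.K5.LamTools

/-! The sum of the losses over the small blocks (`stLam3`). -/

namespace Pool.Agent.Lib.MP_973905_nt
namespace K5
namespace L3

open Real MeasureTheory ProbabilityTheory
open scoped NNReal

/-! ### Gaussian moments -/

/-- the moment generating function of the Gaussian law -/
noncomputable def gf (m s : ℝ) (t : ℝ) : ℝ := Real.exp (m * t + s * t ^ 2 / 2)

lemma gf_contDiff (m s : ℝ) (n : ℕ) : ContDiff ℝ n (gf m s) := by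
  unfold gf; fun_prop

lemma gf_diff (m s : ℝ) (n : ℕ) : Differentiable ℝ (iteratedDeriv n (gf m s)) :=
  (gf_contDiff m s (n + 1)).differentiable_iteratedDeriv n (by exact_mod_cast Nat.lt_succ_self n)

lemma gf_deriv (m s t : ℝ) :
    HasDerivAt (gf m s) (Real.exp (m * t + s * t ^ 2 / 2) * (m + s * t)) t := by
  unfold gf
  apply HasDerivAt.exp
  have := ((hasDerivAt_id' t).const_mul m).fun_add ((((hasDerivAt_pow 2 t)).const_mul s).div_const 2)
  refine this.congr_deriv ?_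
  simp
  ring

lemma gf_iter (m s : ℝ) (n : ℕ) : iteratedDeriv (n + 2) (gf m s) = fun t =>
    (m + s * t) * iteratedDeriv (n + 1) (gf m s) t + ((n : ℝ) + 1) * s * iteratedDeriv n (gf m s) t := by
  have h1 : iteratedDeriv 1 (gf m s) = fun t => (m + s * t) * gf m s t := by
    rw [iteratedDeriv_one]
    funext t
    rw [(gf_deriv m s t).deriv]
    unfold gf
    ring
  have hlin : ∀ t : ℝ, HasDerivAt (fun t : ℝ => m + s * t) s t := fun t => by
    have := ((hasDerivAt_id t).const_mul s).const_add m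
    simpa using this
  induction n with
  | zero =>
    rw [iteratedDeriv_succ, h1]
    funext t
    have h2 : HasDerivAt (gf m s) (deriv (gf m s) t) t := by
      have := gf_diff m s 0
      rw [iteratedDeriv_zero] at this
      exact (this t).hasDerivAt
    have h3 := (hlin t).mul h2
    have h4 : deriv (gf m s) t = (m + s * t) * gf m s t := by
      have := congrFun h1 t
      rwa [iteratedDeriv_one] at this
    have h5 : deriv (fun t => (m + s * t) * gf m s t) t = s * gf m s t + (m + s * t) * deriv (gf m s) t := h3.deriv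
    rw [h5, h4, iteratedDeriv_zero]
    simp
    ring
  | succ n ih =>
    funext t
    have e : iteratedDeriv (n + 1 + 2) (gf m s) t = deriv (fun t => (m + s * t) *
        iteratedDeriv (n + 1) (gf m s) t + ((n : ℝ) + 1) * s * iteratedDeriv n (gf m s) t) t := by
      rw [iteratedDeriv_succ, ← ih]
    have hg : ∀ j, HasDerivAt (iteratedDeriv j (gf m s)) (iteratedDeriv (j + 1) (gf m s) t) t := by
      intro j
      have := (gf_diff m s j t).hasDerivAt
      rwa [← iteratedDeriv_succ] at this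
    have h2 := hg (n + 1)
    have h3 := hg n
    have h4 := ((hlin t).fun_mul h2).fun_add (h3.const_mul (((n : ℝ) + 1) * s))
    rw [e, h4.deriv]
    push_cast
    ring

lemma mom_iter (m s : ℝ) (n : ℕ) : mom n m s = iteratedDeriv n (gf m s) 0 := by
  induction n using Nat.strong_induction_on with
  | _ n ih =>
    match n with
    | 0 => simp [mom, gf]
    | 1 =>
      rw [iteratedDeriv_one, (gf_deriv m s 0).deriv]
      simp [mom]
    | n + 2 =>
      rw [gf_iter, mom, ih (n + 1) (by omega), ih n (by omega)]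
      push_cast
      ring

lemma int_pow (m : ℝ) (v : ℝ≥0) (n : ℕ) : ∫ x, x ^ n ∂(gaussianReal m v) = mom n m v := by
  have h := iteratedDeriv_mgf_zero (X := id) (μ := gaussianReal m v)
    (by rw [integrableExpSet_id_gaussianReal]; simp) n
  rw [mgf_id_gaussianReal] at h
  rw [mom_iter]
  simp only [Pi.pow_apply, id] at h
  rw [← h]
  rfl

lemma integrable_pow' (m : ℝ) (v : ℝ≥0) (n : ℕ) : Integrable (fun x : ℝ => x ^ n) (gaussianReal m v) := by
  have h := (memLp_id_gaussianReal (μ := m) (v := v) (n : ℝ≥0)).integrable_norm_pow'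
  have h2 : Integrable (fun x : ℝ => ‖x ^ n‖) (gaussianReal m v) := by
    simpa using h
  rwa [integrable_norm_iff (by fun_prop)] at h2

/-! ### truncated exponential series -/

lemma Tp_deriv (n : ℕ) (x : ℝ) : HasDerivAt (fun y => Real.exp y - Tp (n + 1) y) (Real.exp x - Tp n x) x := by
  apply (Real.hasDerivAt_exp x).sub
  unfold Tp
  rw [show (fun y : ℝ => ∑ j ∈ Finset.range (n + 1 + 1), y ^ j / (j.factorial : ℝ)) =
    fun y => ∑ j ∈ Finset.range (n + 1), y ^ (j + 1) / ((j + 1).factorial : ℝ) + 1 by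
      funext y; rw [Finset.sum_range_succ']; simp]
  apply HasDerivAt.add_const
  apply HasDerivAt.fun_sum
  intro j _
  have h := (hasDerivAt_pow (j + 1) x).div_const ((j + 1).factorial : ℝ)
  refine h.congr_deriv ?_
  rw [Nat.factorial_succ]
  have : ((j : ℝ) + 1) ≠ 0 := by positivity
  have h2 : (j.factorial : ℝ) ≠ 0 := by positivity
  push_cast
  field_simp

lemma Tp_neg (n : ℕ) : ∀ y : ℝ, y ≤ 0 → (Even n → Real.exp y ≤ Tp n y) ∧ (Odd n → Tp n y ≤ Real.exp y) := by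
  induction n with
  | zero =>
    intro y hy
    refine ⟨fun _ => ?_, fun h => absurd h (by decide)⟩
    simp [Tp]
    linarith [Real.exp_le_one_iff.2 hy]
  | succ n ih =>
    intro y hy
    have hc : Continuous fun y => Real.exp y - Tp (n + 1) y := by
      unfold Tp; fun_prop
    have h0 : Real.exp 0 - Tp (n + 1) 0 = 0 := by
      unfold Tp
      rw [Finset.sum_range_succ']
      simp
    constructor
    · intro he
      have ho : Odd n := by
        rcases Nat.even_or_odd n with h | h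
        · exact absurd he (by simpa [Nat.even_add_one] using h)
        · exact h
      -- derivative nonneg, monotone
      have hm : MonotoneOn (fun y => Real.exp y - Tp (n + 1) y) (Set.Iic 0) := by
        apply monotoneOn_of_deriv_nonneg (convex_Iic 0) hc.continuousOn
        · intro x _
          exact (Tp_deriv n x).differentiableAt.differentiableWithinAt
        · intro x hx
          rw [interior_Iic] at hx
          rw [(Tp_deriv n x).deriv]
          linarith [(ih x (le_of_lt hx)).2 ho]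
      have := hm (Set.mem_Iic.2 hy) (Set.mem_Iic.2 le_rfl) hy
      simp only at this
      linarith
    · intro ho
      have he : Even n := by
        rcases Nat.even_or_odd n with h | h
        · exact h
        · exact absurd ho (by simpa [Nat.odd_add_one] using h)
      have hm : AntitoneOn (fun y => Real.exp y - Tp (n + 1) y) (Set.Iic 0) := by
        apply antitoneOn_of_deriv_nonpos (convex_Iic 0) hc.continuousOn
        · intro x _
          exact (Tp_deriv n x).differentiableAt.differentiableWithinAt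
        · intro x hx
          rw [interior_Iic] at hx
          rw [(Tp_deriv n x).deriv]
          linarith [(ih x (le_of_lt hx)).1 he]
      have := hm (Set.mem_Iic.2 hy) (Set.mem_Iic.2 le_rfl) hy
      simp only at this
      linarith

lemma Tp_odd (n : ℕ) (hn : Odd n) (y : ℝ) : Tp n y ≤ Real.exp y := by
  rcases le_total y 0 with h | h
  · exact (Tp_neg n y h).2 hn
  · exact Real.sum_le_exp_of_nonneg h (n + 1)

lemma Tp_even_pos (n : ℕ) (hn : Even n) (y : ℝ) : 0 < Tp n y := by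
  rcases le_total y 0 with h | h
  · exact (Real.exp_pos y).trans_le ((Tp_neg n y h).1 hn)
  · unfold Tp
    rw [Finset.sum_range_succ']
    have : 0 ≤ ∑ k ∈ Finset.range n, y ^ (k + 1) / ((k + 1).factorial : ℝ) :=
      Finset.sum_nonneg fun j _ => by positivity
    simp
    linarith

/-! ### truncated moment generating function -/

/-- the truncated moment generating function -/
noncomputable def tg (d : ℕ) (a m : ℝ) : ℝ :=
  ∑ j ∈ Finset.range (d + 1), a ^ j / j.factorial * mom j m (1 / 2)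

lemma tg_int (d : ℕ) (a m : ℝ) : tg d a m = ∫ x, Tp d (a * x) ∂(gaussianReal m (1 / 2)) := by
  unfold tg Tp
  rw [integral_finsetSum]
  · apply Finset.sum_congr rfl
    intro j _
    have h := int_pow m (1 / 2) j
    rw [show (fun x : ℝ => (a * x) ^ j / (j.factorial : ℝ)) = fun x => a ^ j / (j.factorial : ℝ) * x ^ j by
      funext x; rw [mul_pow]; ring, integral_const_mul, h]
    norm_num
  · intro j _
    rw [show (fun x : ℝ => (a * x) ^ j / (j.factorial : ℝ)) = fun x => a ^ j / (j.factorial : ℝ) * x ^ j by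
      funext x; rw [mul_pow]; ring]
    exact (integrable_pow' m _ j).const_mul _

lemma Tp_integrable (d : ℕ) (a m : ℝ) : Integrable (fun x => Tp d (a * x)) (gaussianReal m (1 / 2)) := by
  unfold Tp
  apply integrable_finsetSum
  intro j _
  rw [show (fun x : ℝ => (a * x) ^ j / (j.factorial : ℝ)) = fun x => a ^ j / (j.factorial : ℝ) * x ^ j by
      funext x; rw [mul_pow]; ring]
  exact (integrable_pow' m _ j).const_mul _

lemma tg_pos (d : ℕ) (hd : Even d) (a m : ℝ) : 0 < tg d a m := by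
  rw [tg_int]
  rw [integral_pos_iff_support_of_nonneg (fun x => (Tp_even_pos d hd _).le) (Tp_integrable d a m)]
  have : Function.support (fun x => Tp d (a * x)) = Set.univ := by
    ext x
    simp [(Tp_even_pos d hd (a * x)).ne']
  rw [this]
  simp

lemma tg_le (d : ℕ) (hd : Even d) (a m : ℝ) : tg d a m ≤ Real.exp (a * m + a ^ 2 / 4) -
    a ^ (d + 1) / (d + 1).factorial * mom (d + 1) m (1 / 2) := by
  have h1 : tg d a m + a ^ (d + 1) / (d + 1).factorial * mom (d + 1) m (1 / 2) = tg (d + 1) a m := by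
    unfold tg
    rw [Finset.sum_range_succ _ (d + 1)]
  have h2 : tg (d + 1) a m ≤ Real.exp (a * m + a ^ 2 / 4) := by
    rw [tg_int]
    have h3 : ∫ x, Real.exp (a * x) ∂(gaussianReal m (1 / 2)) = Real.exp (a * m + a ^ 2 / 4) := by
      have h := congrFun (mgf_id_gaussianReal (μ := m) (v := 1 / 2)) a
      unfold mgf at h
      simp only [id] at h
      rw [h]
      congr 1
      push_cast
      ring
    rw [← h3]
    apply integral_mono (Tp_integrable _ _ _) (integrable_exp_mul_gaussianReal a)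
    intro x
    exact Tp_odd (d + 1) hd.add_one _
  linarith

/-! ### comparison of moments -/

lemma mom_succ2 (n : ℕ) (m s : ℝ) : mom (n + 2) m s = m * mom (n + 1) m s + ((n : ℝ) + 1) * s * mom n m s := by
  simp [mom]

lemma mom_nonneg (n : ℕ) (m : ℝ) (hm : 0 ≤ m) : 0 ≤ mom n m (1 / 2) := by
  induction n using Nat.strong_induction_on with
  | _ n ih =>
    match n with
    | 0 => simp [mom]
    | 1 => simpa [mom] using hm
    | n + 2 =>
      rw [mom_succ2]
      have h1 := ih (n + 1) (by omega)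
      have h2 := ih n (by omega)
      positivity

lemma mom_neg (n : ℕ) (m s : ℝ) : mom n (-m) s = (-1) ^ n * mom n m s := by
  induction n using Nat.strong_induction_on with
  | _ n ih =>
    match n with
    | 0 => simp [mom]
    | 1 => simp [mom]
    | n + 2 =>
      rw [mom_succ2, mom_succ2, ih (n + 1) (by omega), ih n (by omega)]
      ring

lemma mom_scale (j : ℕ) (t m : ℝ) (ht : 0 ≤ t) (ht1 : t ≤ 1) (hm : 0 ≤ m) :
    mom (2 * j) (t * m) (1 / 2) ≤ mom (2 * j) m (1 / 2) ∧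
      mom (2 * j + 1) (t * m) (1 / 2) ≤ t * mom (2 * j + 1) m (1 / 2) := by
  induction j with
  | zero => simp [mom]
  | succ j ih =>
    have htm : 0 ≤ t * m := mul_nonneg ht hm
    have h1 : mom (2 * (j + 1)) (t * m) (1 / 2) ≤ mom (2 * (j + 1)) m (1 / 2) := by
      rw [show 2 * (j + 1) = 2 * j + 2 by ring, mom_succ2, mom_succ2]
      have h2 : t * m * mom (2 * j + 1) (t * m) (1 / 2) ≤ m * mom (2 * j + 1) m (1 / 2) := by
        have h3 := mom_nonneg (2 * j + 1) m hm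
        have h4 : mom (2 * j + 1) (t * m) (1 / 2) ≤ mom (2 * j + 1) m (1 / 2) := by
          nlinarith [ih.2]
        exact mul_le_mul (by nlinarith) h4 (mom_nonneg _ _ htm) hm
      have h5 : (((2 * j : ℕ) : ℝ) + 1) * (1 / 2) * mom (2 * j) (t * m) (1 / 2) ≤
          (((2 * j : ℕ) : ℝ) + 1) * (1 / 2) * mom (2 * j) m (1 / 2) :=
        mul_le_mul_of_nonneg_left ih.1 (by positivity)
      exact add_le_add h2 h5
    refine ⟨h1, ?_⟩
    rw [show 2 * (j + 1) + 1 = 2 * j + 1 + 2 by ring, mom_succ2 (2 * j + 1) (t * m),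
      mom_succ2 (2 * j + 1) m, show 2 * j + 1 + 1 = 2 * (j + 1) by ring]
    have h6 : t * m * mom (2 * (j + 1)) (t * m) (1 / 2) ≤ t * m * mom (2 * (j + 1)) m (1 / 2) :=
      mul_le_mul_of_nonneg_left h1 htm
    have h7 : (((2 * j + 1 : ℕ) : ℝ) + 1) * (1 / 2) * mom (2 * j + 1) (t * m) (1 / 2) ≤
        (((2 * j + 1 : ℕ) : ℝ) + 1) * (1 / 2) * (t * mom (2 * j + 1) m (1 / 2)) :=
      mul_le_mul_of_nonneg_left ih.2 (by positivity)
    nlinarith [h6, h7]

/-- normalised moments -/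
noncomputable def cq (m : ℝ) (n : ℕ) : ℝ := 2 ^ n * mom n m (1 / 2) / n.factorial

lemma cq_rec (m : ℝ) (n : ℕ) : cq m (n + 2) = 2 / ((n : ℝ) + 2) * (m * cq m (n + 1) + cq m n) := by
  unfold cq
  rw [mom_succ2, Nat.factorial_succ, Nat.factorial_succ]
  have h1 : (n.factorial : ℝ) ≠ 0 := by positivity
  have h2 : ((n : ℝ) + 1) ≠ 0 := by positivity
  have h3 : ((n : ℝ) + 2) ≠ 0 := by positivity
  push_cast
  rw [show ((n : ℝ) + 1 + 1) = n + 2 by ring]
  field_simp
  ring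

lemma cq_nonneg (m : ℝ) (hm : 0 ≤ m) (n : ℕ) : 0 ≤ cq m n := by
  unfold cq
  have := mom_nonneg n m hm
  positivity

lemma cq_tail (m : ℝ) (hm : 0 ≤ m) (hm1 : m ≤ 1) (K : ℝ) (N : ℕ) (hN : 10 ≤ N)
    (h0 : cq m N * 2 ^ N ≤ K) (h1 : cq m (N + 1) * 2 ^ (N + 1) ≤ K) (n : ℕ) :
    cq m (N + n) * 2 ^ (N + n) ≤ K := by
  induction n using Nat.strong_induction_on with
  | _ n ih =>
    match n with
    | 0 => exact h0
    | 1 => exact h1
    | n + 2 =>
      have ha := ih n (by omega)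
      have hb := ih (n + 1) (by omega)
      have e : cq m (N + (n + 2)) * 2 ^ (N + (n + 2)) = 2 / (((N + n : ℕ) : ℝ) + 2) *
          (2 * m * (cq m (N + (n + 1)) * 2 ^ (N + (n + 1))) + 4 * (cq m (N + n) * 2 ^ (N + n))) := by
        rw [show N + (n + 2) = N + n + 2 by ring, cq_rec, show N + (n + 1) = N + n + 1 by ring]
        ring
      rw [e]
      have hK : 0 ≤ K := le_trans (mul_nonneg (cq_nonneg m hm _) (by positivity)) h0
      have hc : 0 ≤ cq m (N + (n + 1)) * 2 ^ (N + (n + 1)) := mul_nonneg (cq_nonneg m hm _) (by positivity)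
      have h5 : 2 * m * (cq m (N + (n + 1)) * 2 ^ (N + (n + 1))) + 4 * (cq m (N + n) * 2 ^ (N + n)) ≤ 6 * K := by
        nlinarith
      have hD : (12 : ℝ) ≤ ((N + n : ℕ) : ℝ) + 2 := by
        have : (10 : ℝ) ≤ ((N + n : ℕ) : ℝ) := by exact_mod_cast (by omega : 10 ≤ N + n)
        linarith
      rw [div_mul_eq_mul_div, div_le_iff₀ (by linarith)]
      nlinarith

lemma cq_one_vals : cq 1 8 = 45 / 56 ∧ cq 1 9 ≤ 0.4657 ∧ cq 1 10 ≤ 0.25386 ∧ cq 1 11 ≤ 0.13083 ∧
    cq 1 12 ≤ 0.06412 ∧ cq 1 13 ≤ 0.03 ∧ cq 1 14 ≤ 0.013444 ∧ cq 1 15 ≤ 0.0058 ∧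
    cq 1 16 * 2 ^ 16 ≤ 158 ∧ cq 1 17 * 2 ^ 17 ≤ 158 := by
  have c0 : cq 1 0 = 1 := by simp [cq, mom]
  have c1 : cq 1 1 = 2 := by simp [cq, mom]
  have c2 := cq_rec 1 0
  have c3 := cq_rec 1 1
  have c4 := cq_rec 1 2
  have c5 := cq_rec 1 3
  have c6 := cq_rec 1 4
  have c7 := cq_rec 1 5
  have c8 := cq_rec 1 6
  have c9 := cq_rec 1 7
  have c10 := cq_rec 1 8
  have c11 := cq_rec 1 9
  have c12 := cq_rec 1 10
  have c13 := cq_rec 1 11
  have c14 := cq_rec 1 12
  have c15 := cq_rec 1 13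
  have c16 := cq_rec 1 14
  have c17 := cq_rec 1 15
  norm_num [c0, c1] at c2
  norm_num [c1, c2] at c3
  norm_num [c2, c3] at c4
  norm_num [c3, c4] at c5
  norm_num [c4, c5] at c6
  norm_num [c5, c6] at c7
  norm_num [c6, c7] at c8
  norm_num [c7, c8] at c9
  norm_num [c8, c9] at c10
  norm_num [c9, c10] at c11
  norm_num [c10, c11] at c12
  norm_num [c11, c12] at c13
  norm_num [c12, c13] at c14
  norm_num [c13, c14] at c15
  norm_num [c14, c15] at c16
  norm_num [c15, c16] at c17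
  rw [c8, c9, c10, c11, c12, c13, c14, c15, c16, c17]
  norm_num

lemma cq_half_vals : cq (1 / 2) 9 ≤ 0.07382 ∧ cq (1 / 2) 11 ≤ 0.01677 ∧ cq (1 / 2) 13 ≤ 0.00316 ∧
    cq (1 / 2) 15 ≤ 0.00051 ∧ cq (1 / 2) 16 * 2 ^ 16 ≤ 13 ∧ cq (1 / 2) 17 * 2 ^ 17 ≤ 13 := by
  have c0 : cq (1 / 2) 0 = 1 := by simp [cq, mom]
  have c1 : cq (1 / 2) 1 = 1 := by simp [cq, mom]
  have c2 := cq_rec (1 / 2) 0
  have c3 := cq_rec (1 / 2) 1
  have c4 := cq_rec (1 / 2) 2
  have c5 := cq_rec (1 / 2) 3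
  have c6 := cq_rec (1 / 2) 4
  have c7 := cq_rec (1 / 2) 5
  have c8 := cq_rec (1 / 2) 6
  have c9 := cq_rec (1 / 2) 7
  have c10 := cq_rec (1 / 2) 8
  have c11 := cq_rec (1 / 2) 9
  have c12 := cq_rec (1 / 2) 10
  have c13 := cq_rec (1 / 2) 11
  have c14 := cq_rec (1 / 2) 12
  have c15 := cq_rec (1 / 2) 13
  have c16 := cq_rec (1 / 2) 14
  have c17 := cq_rec (1 / 2) 15
  simp only [Nat.reduceAdd] at *
  rw [c0, c1] at c2
  norm_num at c2
  rw [c1, c2] at c3
  norm_num at c3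
  rw [c2, c3] at c4
  norm_num at c4
  rw [c3, c4] at c5
  norm_num at c5
  rw [c4, c5] at c6
  norm_num at c6
  rw [c5, c6] at c7
  norm_num at c7
  rw [c6, c7] at c8
  norm_num at c8
  rw [c7, c8] at c9
  norm_num at c9
  rw [c8, c9] at c10
  norm_num at c10
  rw [c9, c10] at c11
  norm_num at c11
  rw [c10, c11] at c12
  norm_num at c12
  rw [c11, c12] at c13
  norm_num at c13
  rw [c12, c13] at c14
  norm_num at c14
  rw [c13, c14] at c15
  norm_num at c15
  rw [c14, c15] at c16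
  norm_num at c16
  rw [c15, c16] at c17
  norm_num at c17
  rw [c9, c11, c13, c15, c16, c17]
  norm_num

/-! ### sums -/

lemma sum_bound (f : ℕ → ℝ) (hf : ∀ i, 0 ≤ f i) (K : ℝ) (hK : 0 ≤ K) (h : ∀ i, f (4 + i) ≤ K * (1 / 4) ^ i) (n : ℕ) :
    ∑ i ∈ Finset.range n, f i ≤ f 0 + f 1 + f 2 + f 3 + 4 / 3 * K := by
  have h1 : ∑ i ∈ Finset.range n, f i ≤ ∑ i ∈ Finset.range (4 + n), f i :=
    Finset.sum_le_sum_of_subset_of_nonneg (Finset.range_mono (by omega)) fun i _ _ => hf i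
  rw [Finset.sum_range_add] at h1
  have h2 : ∑ i ∈ Finset.range 4, f i = f 0 + f 1 + f 2 + f 3 := by
    simp [Finset.sum_range_succ]
  have h3 : ∑ i ∈ Finset.range n, f (4 + i) ≤ K * (4 / 3 * (1 - (1 / 4) ^ n)) := by
    have h4 : ∑ i ∈ Finset.range n, ((1 : ℝ) / 4) ^ i = 4 / 3 * (1 - (1 / 4) ^ n) := by
      rw [geom_sum_eq (by norm_num)]
      ring
    rw [← h4, Finset.mul_sum]
    exact Finset.sum_le_sum fun i _ => h i
  have h5 : K * (4 / 3 * (1 - (1 / 4) ^ n)) ≤ 4 / 3 * K := by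
    have : (0 : ℝ) ≤ (1 / 4) ^ n := by positivity
    nlinarith
  linarith

lemma cq_one_tail (n : ℕ) : cq 1 (16 + n) * 2 ^ (16 + n) ≤ 158 :=
  cq_tail 1 (by norm_num) le_rfl 158 16 (by norm_num) cq_one_vals.2.2.2.2.2.2.2.2.1
    cq_one_vals.2.2.2.2.2.2.2.2.2 n

lemma cq_half_tail (n : ℕ) : cq (1 / 2) (16 + n) * 2 ^ (16 + n) ≤ 13 :=
  cq_tail (1 / 2) (by norm_num) (by norm_num) 13 16 (by norm_num) cq_half_vals.2.2.2.2.1
    cq_half_vals.2.2.2.2.2 n

lemma sumA (n : ℕ) : ∑ i ∈ Finset.range n, 3 / 8 * cq 1 (2 * i + 8) / ((2 * i + 8 : ℕ) : ℝ) ≤ 497 / 10000 := by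
  have h := sum_bound (fun i => 3 / 8 * cq 1 (2 * i + 8) / ((2 * i + 8 : ℕ) : ℝ))
    (fun i => div_nonneg (mul_nonneg (by norm_num) (cq_nonneg 1 (by norm_num) _)) (Nat.cast_nonneg _))
    (3 / 128 * 158 / 2 ^ 16) (by norm_num) (by
      intro i
      have h1 := cq_one_tail (2 * i)
      have e : 2 * (4 + i) + 8 = 16 + 2 * i := by ring
      simp only [e]
      have h2 : (2 : ℝ) ^ (16 + 2 * i) = 2 ^ 16 * 4 ^ i := by
        rw [pow_add, pow_mul]; norm_num
      rw [h2] at h1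
      have h3 : cq 1 (16 + 2 * i) ≤ 158 / 2 ^ 16 * (1 / 4) ^ i := by
        rw [one_div, inv_pow, ← div_eq_mul_inv, div_div, le_div_iff₀ (by positivity)]
        exact h1
      have h4 : (16 : ℝ) ≤ ((16 + 2 * i : ℕ) : ℝ) := by exact_mod_cast (by omega : 16 ≤ 16 + 2 * i)
      rw [div_le_iff₀ (by linarith)]
      have h5 : 0 ≤ 158 / 2 ^ 16 * ((1 : ℝ) / 4) ^ i := by positivity
      nlinarith) n
  refine h.trans ?_
  obtain ⟨a8, a9, a10, a11, a12, a13, a14, a15, -, -⟩ := cq_one_vals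
  simp only [mul_zero, zero_add, mul_one, Nat.reduceAdd, Nat.reduceMul]
  rw [a8]
  norm_num
  norm_num at a10 a12 a14
  linarith

lemma sumC (n : ℕ) : ∑ i ∈ Finset.range n, ((1 : ℝ) / 4) ^ i * cq 1 (2 * i + 9) ≤ 51 / 100 := by
  have h := sum_bound (fun i => ((1 : ℝ) / 4) ^ i * cq 1 (2 * i + 9))
    (fun i => mul_nonneg (by positivity) (cq_nonneg 1 (by norm_num) _))
    (158 / 2 ^ 17) (by norm_num) (by
      intro i
      have h1 := cq_one_tail (2 * i + 1)
      have e : 2 * (4 + i) + 9 = 16 + (2 * i + 1) := by ring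
      simp only [e]
      have h2 : (2 : ℝ) ^ (16 + (2 * i + 1)) = 2 ^ 17 * 4 ^ i := by
        rw [show 16 + (2 * i + 1) = 17 + 2 * i by ring, pow_add, pow_mul]; norm_num
      rw [h2] at h1
      have h3 : cq 1 (16 + (2 * i + 1)) ≤ 158 / 2 ^ 17 * (1 / 4) ^ i := by
        rw [one_div, inv_pow, ← div_eq_mul_inv, div_div, le_div_iff₀ (by positivity)]
        exact h1
      have h4 : ((1 : ℝ) / 4) ^ (4 + i) ≤ 1 := pow_le_one₀ (by norm_num) (by norm_num)
      have h5 := cq_nonneg 1 (by norm_num) (16 + (2 * i + 1))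
      nlinarith) n
  refine h.trans ?_
  obtain ⟨a8, a9, a10, a11, a12, a13, a14, a15, -, -⟩ := cq_one_vals
  simp only [mul_zero, zero_add, mul_one, Nat.reduceAdd, Nat.reduceMul]
  norm_num at a9 a11 a13 a15 ⊢
  linarith

lemma sumB (n : ℕ) : ∑ i ∈ Finset.range n, cq (1 / 2) (2 * i + 9) ≤ 95 / 1000 := by
  have h := sum_bound (fun i => cq (1 / 2) (2 * i + 9))
    (fun i => cq_nonneg (1 / 2) (by norm_num) _)
    (13 / 2 ^ 17) (by norm_num) (by
      intro i
      have h1 := cq_half_tail (2 * i + 1)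
      have e : 2 * (4 + i) + 9 = 16 + (2 * i + 1) := by ring
      simp only [e]
      have h2 : (2 : ℝ) ^ (16 + (2 * i + 1)) = 2 ^ 17 * 4 ^ i := by
        rw [show 16 + (2 * i + 1) = 17 + 2 * i by ring, pow_add, pow_mul]; norm_num
      rw [h2] at h1
      rw [one_div, one_div, inv_pow, ← div_eq_mul_inv, div_div, le_div_iff₀ (by positivity)]
      rw [one_div] at h1
      exact h1) n
  refine h.trans ?_
  obtain ⟨a9, a11, a13, a15, -, -⟩ := cq_half_vals
  simp only [mul_zero, zero_add, mul_one, Nat.reduceAdd, Nat.reduceMul]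
  norm_num at a9 a11 a13 a15 ⊢
  linarith

/-! ### one block -/

lemma aF_eq (k : ℝ) (hk : 0 < k) (hk1 : k ≤ 1 / 2) (i : ℕ) :
    aF k (i + 3) = tg (2 * i + 8) (-(2 * (1 - k))) k := by
  unfold aF tg
  rw [LamT.eta_zero k hk hk1]
  have h1 : dg (i + 3) = 2 * i + 8 := by simp [dg]; ring
  have h2 : Vv (i + 3) = 1 := by simp [Vv]
  rw [h1, h2]
  simp

lemma aG_eq (k : ℝ) (i : ℕ) :
    aG k (i + 3) = tg (2 * i + 8) (2 * k) (-(1 - k)) +
      eta k (2 * i + 8) * 2 ^ (2 * i + 8) * mom (2 * i + 8) (-(1 - k)) (1 / 2) := by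
  unfold aG tg
  have h1 : dg (i + 3) = 2 * i + 8 := by simp [dg]; ring
  have h2 : Vv (i + 3) = 1 := by simp [Vv]
  rw [h1, h2]
  simp

lemma block (k : ℝ) (hk : 0 < k) (hk1 : k ≤ 1 / 2) (i : ℕ) :
    lam k (i + 3) ≤ k * (1 - k) * (Real.exp (4 * k - 1 - 3 * k ^ 2) *
        (2 * k * (1 - k) ^ 8 * cq (1 / 2) (2 * i + 9)) +
      Real.exp (2 * k - 3 * k ^ 2) * ((1 - k) * k ^ 8 * (((1 : ℝ) / 4) ^ i * cq 1 (2 * i + 9)) +
        (1 - k) ^ 7 * (3 / 8 * cq 1 (2 * i + 8) / ((2 * i + 8 : ℕ) : ℝ)))) := by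
  set p : ℝ := 1 - k with hp
  have hp0 : 0 < p := by linarith
  have hp1 : p ≤ 1 := by linarith
  set d : ℕ := 2 * i + 8 with hd
  have hde : Even d := ⟨i + 4, by omega⟩
  have hVv : Vv (i + 3) = 1 := by simp [Vv]
  -- the two sides
  have hA0 : 0 < aF k (i + 3) := by
    rw [aF_eq k hk hk1]; exact tg_pos _ hde _ _
  have hA : aF k (i + 3) ≤ Real.exp (-(4 * k - 1 - 3 * k ^ 2)) +
      (2 * p) ^ (d + 1) / (d + 1).factorial * mom (d + 1) k (1 / 2) := by
    rw [aF_eq k hk hk1]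
    have h := tg_le d hde (-(2 * p)) k
    have e1 : (-(2 * p)) ^ (d + 1) = -(2 * p) ^ (d + 1) := hde.add_one.neg_pow _
    rw [e1] at h
    have e2 : -(2 * p) * k + (-(2 * p)) ^ 2 / 4 = -(4 * k - 1 - 3 * k ^ 2) := by
      rw [hp]; ring
    rw [e2] at h
    refine h.trans (le_of_eq ?_)
    ring
  have hη := LamT.eta_bds k hk hk1 d (by omega)
  have hmd0 : 0 ≤ mom d p (1 / 2) := mom_nonneg d p hp0.le
  have hG0 : 0 < aG k (i + 3) := by
    rw [aG_eq, mom_neg, hde.neg_one_pow, one_mul]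
    have := tg_pos d hde (2 * k) (-p)
    have h2 : 0 ≤ eta k d * 2 ^ d * mom d p (1 / 2) := by
      have := hη.1
      positivity
    linarith
  have hG : aG k (i + 3) ≤ Real.exp (-(2 * k - 3 * k ^ 2)) +
      ((2 * k) ^ (d + 1) / (d + 1).factorial * mom (d + 1) p (1 / 2) +
        eta k d * 2 ^ d * mom d p (1 / 2)) := by
    rw [aG_eq, mom_neg, hde.neg_one_pow, one_mul]
    have h := tg_le d hde (2 * k) (-p)
    rw [mom_neg, hde.add_one.neg_one_pow] at h
    have e2 : 2 * k * -p + (2 * k) ^ 2 / 4 = -(2 * k - 3 * k ^ 2) := by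
      rw [hp]; ring
    rw [e2] at h
    linarith
  have hl := LamT.lam_le k hk (by linarith) (i + 3) _ _ _ _ hA0 hG0 hA hG
    (le_of_eq (by rw [hVv, mul_one])) (le_of_eq (by rw [hVv, mul_one]))
  refine hl.trans ?_
  set E1 := Real.exp (4 * k - 1 - 3 * k ^ 2) with hE1
  set E2 := Real.exp (2 * k - 3 * k ^ 2) with hE2
  have hE1p : 0 < E1 := Real.exp_pos _
  have hE2p : 0 < E2 := Real.exp_pos _
  have hI1 : Real.exp (-(4 * k - 1 - 3 * k ^ 2)) * E1 = 1 := by
    rw [hE1, ← Real.exp_add]; simp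
  have hI2 : Real.exp (-(2 * k - 3 * k ^ 2)) * E2 = 1 := by
    rw [hE2, ← Real.exp_add]; simp
  -- bounds
  have hsB := (mom_scale (i + 4) (2 * k) (1 / 2) (by linarith) (by linarith) (by norm_num)).2
  rw [show 2 * k * (1 / 2) = k by ring, show 2 * (i + 4) + 1 = d + 1 by omega] at hsB
  have hsC := mom_scale (i + 4) p 1 hp0.le hp1 (by norm_num)
  rw [mul_one, show 2 * (i + 4) + 1 = d + 1 by omega, show 2 * (i + 4) = d by omega] at hsC
  have hfac : (0 : ℝ) < (d + 1).factorial := by exact_mod_cast (d + 1).factorial_pos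
  have hfacd : (0 : ℝ) < d.factorial := by exact_mod_cast d.factorial_pos
  have hB : (2 * p) ^ (d + 1) / (d + 1).factorial * mom (d + 1) k (1 / 2) ≤
      p * (2 * k * p ^ 8 * cq (1 / 2) (d + 1)) := by
    have h1 : (2 * p) ^ (d + 1) / (d + 1).factorial * mom (d + 1) k (1 / 2) ≤
        (2 * p) ^ (d + 1) / (d + 1).factorial * (2 * k * mom (d + 1) (1 / 2) (1 / 2)) :=
      mul_le_mul_of_nonneg_left hsB (by positivity)
    have h2 : (2 * p) ^ (d + 1) / (d + 1).factorial * (2 * k * mom (d + 1) (1 / 2) (1 / 2)) =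
        p * (2 * k * p ^ d * cq (1 / 2) (d + 1)) := by
      unfold cq
      rw [mul_pow]
      ring
    have h3 : p ^ d ≤ p ^ 8 := pow_le_pow_of_le_one hp0.le hp1 (by omega)
    have h4 : 0 ≤ cq (1 / 2) (d + 1) := cq_nonneg _ (by norm_num) _
    rw [h2] at h1
    refine h1.trans ?_
    gcongr
  have hC : (2 * k) ^ (d + 1) / (d + 1).factorial * mom (d + 1) p (1 / 2) ≤
      k * (p * k ^ 8 * (((1 : ℝ) / 4) ^ i * cq 1 (d + 1))) := by
    have h1 : (2 * k) ^ (d + 1) / (d + 1).factorial * mom (d + 1) p (1 / 2) ≤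
        (2 * k) ^ (d + 1) / (d + 1).factorial * (p * mom (d + 1) 1 (1 / 2)) :=
      mul_le_mul_of_nonneg_left hsC.2 (by positivity)
    have h2 : (2 * k) ^ (d + 1) / (d + 1).factorial * (p * mom (d + 1) 1 (1 / 2)) =
        k * (p * k ^ d * cq 1 (d + 1)) := by
      unfold cq
      rw [mul_pow]
      ring
    have h3 : k ^ d ≤ k ^ 8 * (1 / 4) ^ i := by
      rw [hd, pow_add, mul_comm, pow_mul]
      have : (k ^ 2) ^ i ≤ (1 / 4) ^ i := pow_le_pow_left₀ (by positivity) (by nlinarith) i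
      gcongr
    have h4 : 0 ≤ cq 1 (d + 1) := cq_nonneg _ (by norm_num) _
    rw [h2] at h1
    refine h1.trans ?_
    have h5 : k * (p * k ^ d * cq 1 (d + 1)) ≤ k * (p * (k ^ 8 * (1 / 4) ^ i) * cq 1 (d + 1)) := by
      gcongr
    refine h5.trans (le_of_eq ?_)
    ring
  have hD : p * (eta k d * 2 ^ d * mom d p (1 / 2)) ≤
      k * p * (p ^ 7 * (3 / 8 * cq 1 d / (d : ℝ))) := by
    have h1 : eta k d ≤ 3 / 8 * (k / ((d : ℝ) * d.factorial)) * p ^ 7 := by
      refine hη.2.trans ?_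
      have hdp : (0 : ℝ) < d := by exact_mod_cast (by omega : 0 < d)
      apply mul_le_mul_of_nonneg_left _ (by positivity)
      have h3 : p ^ (d - 1) ≤ p ^ 7 := pow_le_pow_of_le_one hp0.le hp1 (by omega)
      have h4 : 0 ≤ k ^ d * (1 + k + k ^ 2 + k ^ 3) := by positivity
      linarith
    have h2 : eta k d * 2 ^ d * mom d p (1 / 2) ≤
        3 / 8 * (k / ((d : ℝ) * d.factorial)) * p ^ 7 * 2 ^ d * mom d 1 (1 / 2) := by
      have hdp : (0 : ℝ) < d := by exact_mod_cast (by omega : 0 < d)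
      have := hη.1
      have h5 := hsC.1
      gcongr
    have h3 : 3 / 8 * (k / ((d : ℝ) * d.factorial)) * p ^ 7 * 2 ^ d * mom d 1 (1 / 2) =
        k * (p ^ 7 * (3 / 8 * cq 1 d / (d : ℝ))) := by
      unfold cq
      have hdp : (d : ℝ) ≠ 0 := by
        have : (0 : ℝ) < d := by exact_mod_cast (by omega : 0 < d)
        exact this.ne'
      field_simp
    rw [h3] at h2
    have := mul_le_mul_of_nonneg_left h2 hp0.le
    refine this.trans (le_of_eq ?_)
    ring
  have hcast : ((2 * i + 8 : ℕ) : ℝ) = (d : ℝ) := by rw [hd]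
  have e9 : 2 * i + 9 = d + 1 := by omega
  rw [e9]
  have t1 : k * ((Real.exp (-(4 * k - 1 - 3 * k ^ 2)) +
      (2 * p) ^ (d + 1) / (d + 1).factorial * mom (d + 1) k (1 / 2)) * E1 - 1) ≤
      k * p * (E1 * (2 * k * p ^ 8 * cq (1 / 2) (d + 1))) := by
    rw [add_mul, hI1]
    have := mul_le_mul_of_nonneg_left (mul_le_mul_of_nonneg_right hB hE1p.le) hk.le
    linarith
  have t2 : p * ((Real.exp (-(2 * k - 3 * k ^ 2)) +
      ((2 * k) ^ (d + 1) / (d + 1).factorial * mom (d + 1) p (1 / 2) +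
        eta k d * 2 ^ d * mom d p (1 / 2))) * E2 - 1) ≤
      k * p * (E2 * (p * k ^ 8 * (((1 : ℝ) / 4) ^ i * cq 1 (d + 1)) +
        p ^ 7 * (3 / 8 * cq 1 d / (d : ℝ)))) := by
    rw [add_mul, hI2]
    have h1 := mul_le_mul_of_nonneg_left (mul_le_mul_of_nonneg_right hC hE2p.le) hp0.le
    have h2 := mul_le_mul_of_nonneg_right hD hE2p.le
    nlinarith [h1, h2]
  linarith

lemma poly_ineq (k : ℝ) (h0 : 0 ≤ k) (h1 : k ≤ 1 / 2) :
    (1 + (2 * k - 3 * k ^ 2) + (2 * k - 3 * k ^ 2) ^ 2) *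
        ((1 - k) * k ^ 8 * (51 / 100) + (1 - k) ^ 7 * (497 / 10000)) +
      36788 / 100000 * (1 + (2 * k - 3 / 2 * k ^ 2) + (2 * k - 3 / 2 * k ^ 2) ^ 2) ^ 2 *
        (2 * k * (1 - k) ^ 8 * (95 / 1000)) ≤ 50 / 1000 - 90 / 1000 * k := by
  have hu : 0 ≤ 1 - 2 * k := by linarith
  have e : 50 / 1000 - 90 / 1000 * k - ((1 + (2 * k - 3 * k ^ 2) + (2 * k - 3 * k ^ 2) ^ 2) *
        ((1 - k) * k ^ 8 * (51 / 100) + (1 - k) ^ 7 * (497 / 10000)) +
      36788 / 100000 * (1 + (2 * k - 3 / 2 * k ^ 2) + (2 * k - 3 / 2 * k ^ 2) ^ 2) ^ 2 *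
        (2 * k * (1 - k) ^ 8 * (95 / 1000))) =
      3 / 10000 * (2 * k) ^ 0 * (1 - 2 * k) ^ 17 +
      247007 / 5000000 * (2 * k) ^ 1 * (1 - 2 * k) ^ 16 +
      1800299 / 2500000 * (2 * k) ^ 2 * (1 - 2 * k) ^ 15 +
      20433961 / 4000000 * (2 * k) ^ 3 * (1 - 2 * k) ^ 14 +
      226903301 / 10000000 * (2 * k) ^ 4 * (1 - 2 * k) ^ 13 +
      22383799107 / 320000000 * (2 * k) ^ 5 * (1 - 2 * k) ^ 12 +
      25271621189 / 160000000 * (2 * k) ^ 6 * (1 - 2 * k) ^ 11 +
      344862201977 / 1280000000 * (2 * k) ^ 7 * (1 - 2 * k) ^ 10 +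
      113072916189 / 320000000 * (2 * k) ^ 8 * (1 - 2 * k) ^ 9 +
      7360404208113 / 20480000000 * (2 * k) ^ 9 * (1 - 2 * k) ^ 8 +
      1453262939681 / 5120000000 * (2 * k) ^ 10 * (1 - 2 * k) ^ 7 +
      3543512423277 / 20480000000 * (2 * k) ^ 11 * (1 - 2 * k) ^ 6 +
      1642845051003 / 20480000000 * (2 * k) ^ 12 * (1 - 2 * k) ^ 5 +
      4511083869689 / 163840000000 * (2 * k) ^ 13 * (1 - 2 * k) ^ 4 +
      547016303733 / 81920000000 * (2 * k) ^ 14 * (1 - 2 * k) ^ 3 +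
      17236652281 / 16384000000 * (2 * k) ^ 15 * (1 - 2 * k) ^ 2 +
      29705958917 / 327680000000 * (2 * k) ^ 16 * (1 - 2 * k) ^ 1 +
      13780229737 / 5242880000000 * (2 * k) ^ 17 * (1 - 2 * k) ^ 0 := by
    ring
  have h2 : 0 ≤ 3 / 10000 * (2 * k) ^ 0 * (1 - 2 * k) ^ 17 +
      247007 / 5000000 * (2 * k) ^ 1 * (1 - 2 * k) ^ 16 +
      1800299 / 2500000 * (2 * k) ^ 2 * (1 - 2 * k) ^ 15 +
      20433961 / 4000000 * (2 * k) ^ 3 * (1 - 2 * k) ^ 14 +
      226903301 / 10000000 * (2 * k) ^ 4 * (1 - 2 * k) ^ 13 +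
      22383799107 / 320000000 * (2 * k) ^ 5 * (1 - 2 * k) ^ 12 +
      25271621189 / 160000000 * (2 * k) ^ 6 * (1 - 2 * k) ^ 11 +
      344862201977 / 1280000000 * (2 * k) ^ 7 * (1 - 2 * k) ^ 10 +
      113072916189 / 320000000 * (2 * k) ^ 8 * (1 - 2 * k) ^ 9 +
      7360404208113 / 20480000000 * (2 * k) ^ 9 * (1 - 2 * k) ^ 8 +
      1453262939681 / 5120000000 * (2 * k) ^ 10 * (1 - 2 * k) ^ 7 +
      3543512423277 / 20480000000 * (2 * k) ^ 11 * (1 - 2 * k) ^ 6 +
      1642845051003 / 20480000000 * (2 * k) ^ 12 * (1 - 2 * k) ^ 5 +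
      4511083869689 / 163840000000 * (2 * k) ^ 13 * (1 - 2 * k) ^ 4 +
      547016303733 / 81920000000 * (2 * k) ^ 14 * (1 - 2 * k) ^ 3 +
      17236652281 / 16384000000 * (2 * k) ^ 15 * (1 - 2 * k) ^ 2 +
      29705958917 / 327680000000 * (2 * k) ^ 16 * (1 - 2 * k) ^ 1 +
      13780229737 / 5242880000000 * (2 * k) ^ 17 * (1 - 2 * k) ^ 0 := by
    positivity
  linarith

end L3

theorem stLam3 : StLam3 := by
  intro k hk hk1 n
  have hp0 : 0 < 1 - k := by linarith
  have h1 : ∑ i ∈ Finset.range n, lam k (i + 3) ≤ ∑ i ∈ Finset.range n, k * (1 - k) *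
      (Real.exp (4 * k - 1 - 3 * k ^ 2) * (2 * k * (1 - k) ^ 8 * L3.cq (1 / 2) (2 * i + 9)) +
      Real.exp (2 * k - 3 * k ^ 2) * ((1 - k) * k ^ 8 * (((1 : ℝ) / 4) ^ i * L3.cq 1 (2 * i + 9)) +
        (1 - k) ^ 7 * (3 / 8 * L3.cq 1 (2 * i + 8) / ((2 * i + 8 : ℕ) : ℝ)))) :=
    Finset.sum_le_sum fun i _ => L3.block k hk hk1 i
  rw [← Finset.mul_sum, Finset.sum_add_distrib, ← Finset.mul_sum, ← Finset.mul_sum, ← Finset.mul_sum,
    Finset.sum_add_distrib, ← Finset.mul_sum, ← Finset.mul_sum] at h1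
  refine h1.trans (mul_le_mul_of_nonneg_left ?_ (by positivity))
  have hA := L3.sumA n
  have hB := L3.sumB n
  have hC := L3.sumC n
  have hE1 : Real.exp (4 * k - 1 - 3 * k ^ 2) ≤
      36788 / 100000 * (1 + (2 * k - 3 / 2 * k ^ 2) + (2 * k - 3 / 2 * k ^ 2) ^ 2) ^ 2 := by
    have e : Real.exp (4 * k - 1 - 3 * k ^ 2) = Real.exp (-1) * Real.exp (2 * k - 3 / 2 * k ^ 2) ^ 2 := by
      rw [← Real.exp_nat_mul, ← Real.exp_add]
      congr 1
      push_cast
      ring
    rw [e]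
    have h2 : Real.exp (-1) ≤ 36788 / 100000 := by
      rw [Real.exp_neg, inv_le_comm₀ (Real.exp_pos _) (by norm_num)]
      have := Real.exp_one_gt_d9
      norm_num at this ⊢
      linarith
    have h3 : Real.exp (2 * k - 3 / 2 * k ^ 2) ≤
        1 + (2 * k - 3 / 2 * k ^ 2) + (2 * k - 3 / 2 * k ^ 2) ^ 2 := by
      have h4 := Real.abs_exp_sub_one_sub_id_le (x := 2 * k - 3 / 2 * k ^ 2)
        (abs_le.2 ⟨by nlinarith, by nlinarith⟩)
      have := (abs_le.1 h4).2
      linarith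
    have h5 := Real.exp_pos (2 * k - 3 / 2 * k ^ 2)
    gcongr
  have hE2 : Real.exp (2 * k - 3 * k ^ 2) ≤ 1 + (2 * k - 3 * k ^ 2) + (2 * k - 3 * k ^ 2) ^ 2 := by
    have h4 := Real.abs_exp_sub_one_sub_id_le (x := 2 * k - 3 * k ^ 2)
      (abs_le.2 ⟨by nlinarith, by nlinarith⟩)
    have := (abs_le.1 h4).2
    linarith
  have hS1 : 0 ≤ ∑ i ∈ Finset.range n, L3.cq (1 / 2) (2 * i + 9) :=
    Finset.sum_nonneg fun i _ => L3.cq_nonneg _ (by norm_num) _
  have hS2 : 0 ≤ ∑ i ∈ Finset.range n, ((1 : ℝ) / 4) ^ i * L3.cq 1 (2 * i + 9) :=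
    Finset.sum_nonneg fun i _ => mul_nonneg (by positivity) (L3.cq_nonneg _ (by norm_num) _)
  have hS3 : 0 ≤ ∑ i ∈ Finset.range n, 3 / 8 * L3.cq 1 (2 * i + 8) / ((2 * i + 8 : ℕ) : ℝ) :=
    Finset.sum_nonneg fun i _ => div_nonneg (mul_nonneg (by norm_num) (L3.cq_nonneg _ (by norm_num) _))
      (Nat.cast_nonneg _)
  have hpol := L3.poly_ineq k hk.le hk1
  have u1 : Real.exp (4 * k - 1 - 3 * k ^ 2) *
      (2 * k * (1 - k) ^ 8 * ∑ i ∈ Finset.range n, L3.cq (1 / 2) (2 * i + 9)) ≤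
      36788 / 100000 * (1 + (2 * k - 3 / 2 * k ^ 2) + (2 * k - 3 / 2 * k ^ 2) ^ 2) ^ 2 *
        (2 * k * (1 - k) ^ 8 * (95 / 1000)) := by
    gcongr
  have u2 : Real.exp (2 * k - 3 * k ^ 2) * ((1 - k) * k ^ 8 *
      (∑ i ∈ Finset.range n, ((1 : ℝ) / 4) ^ i * L3.cq 1 (2 * i + 9)) +
        (1 - k) ^ 7 * ∑ i ∈ Finset.range n, 3 / 8 * L3.cq 1 (2 * i + 8) / ((2 * i + 8 : ℕ) : ℝ)) ≤
      (1 + (2 * k - 3 * k ^ 2) + (2 * k - 3 * k ^ 2) ^ 2) *
        ((1 - k) * k ^ 8 * (51 / 100) + (1 - k) ^ 7 * (497 / 10000)) := by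
    have : 0 ≤ 2 * k - 3 * k ^ 2 := by nlinarith
    gcongr
  linarith

end K5
end Pool.Agent.Lib.MP_973905_nt
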