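import Pool.Agent.Lib.MP_973905_nt.K5.Stmts
import Pool.Agent.Lib.MP_973905_nt.F4.Stmts
import Pool.Agent.Lib.MP_973905_nt.K1.Left

/-! (A2) crude fourth moment to the right of the critical line. -/

namespace Pool.Agent.Lib.MP_973905_nt
namespace K5

open MeasureTheory ProbabilityTheory Complex Filter Topology K1 TSM

namespace M4

/-- the fourth power -/
noncomputable def z4 (s : ℂ) : ℂ := (zt s * zt s) * (zt s * zt s)

lemma nice_z4 : Nice z4 := (nice_zt.mul nice_zt).mul (nice_zt.mul nice_zt)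

lemma norm_z4 (s : ℂ) : ‖z4 s‖ = ‖zt s‖ ^ 4 := by
  rw [z4, norm_mul, norm_mul]; ring

/-- the integrand on the critical line -/
noncomputable def F (t : ℝ) : ℝ := ‖riemannZeta (1 / 2 + t * I)‖ ^ 4

lemma F_nonneg (t : ℝ) : 0 ≤ F t := by unfold F; positivity

lemma F_cont : Continuous F := by
  have h := Left.cont_line (a := 0) (by simp) 1
  have h2 : Continuous fun t : ℝ => riemannZeta (1 / 2 + t * I) := by
    refine h.congr fun t => ?_
    congr 1
    push_cast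
    ring
  exact h2.norm.pow 4

lemma F_even (t : ℝ) : F (-t) = F t := by
  unfold F
  have h1 : ‖riemannZeta (1 / 2 + ((-t : ℝ) : ℂ) * I)‖ = ‖riemannZeta (1 / 2 + t * I)‖ := by
    rw [← norm_conj (riemannZeta (1 / 2 + t * I)), ← riemannZeta_conj]
    congr 2
    rw [map_add, map_mul, conj_ofReal, conj_I, map_div₀, map_one, map_ofNat]
    push_cast
    ring
  rw [h1]

lemma symm_int (Z : ℝ) : ∫ t in (-Z)..Z, F t = 2 * ∫ t in (0 : ℝ)..Z, F t := by
  have hi : ∀ a b : ℝ, IntervalIntegrable F volume a b := fun a b => F_cont.intervalIntegrable a b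
  rw [← intervalIntegral.integral_add_adjacent_intervals (hi (-Z) 0) (hi 0 Z)]
  have h1 : ∫ t in (-Z)..0, F t = ∫ t in (0 : ℝ)..Z, F t := by
    have := intervalIntegral.integral_comp_neg (a := 0) (b := Z) F
    rw [neg_zero] at this
    rw [← this]
    simp only [F_even]
  rw [h1]; ring

lemma z4_half (t : ℝ) : ‖z4 (((1 / 2 : ℝ) : ℂ) + t * I)‖ ≤ F t := by
  rw [norm_z4, F]
  have hre : (((1 / 2 : ℝ) : ℂ) + t * I).re = 1 / 2 := line_re _ _
  have n1 : ((1 / 2 : ℝ) : ℂ) + t * I ≠ 1 := by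
    intro h; rw [h] at hre; norm_num at hre
  have n2 : ((1 / 2 : ℝ) : ℂ) + t * I ≠ -1 := by
    intro h; rw [h] at hre; norm_num at hre
  have h1 : ‖zt (((1 / 2 : ℝ) : ℂ) + t * I)‖ ≤ ‖riemannZeta (((1 / 2 : ℝ) : ℂ) + t * I)‖ := by
    rw [zeta_eq_zt n1 n2, norm_mul]
    have := norm_kp_le (s := ((1 / 2 : ℝ) : ℂ) + t * I) (by rw [hre]; norm_num)
    have h2 := norm_nonneg (riemannZeta (((1 / 2 : ℝ) : ℂ) + t * I))
    nlinarith
  have e : (((1 / 2 : ℝ) : ℂ) + t * I) = 1 / 2 + t * I := by push_cast; ring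
  rw [← e]
  gcongr

/-- upper bound for the density -/
lemma pdf_le {T : ℝ} (hT : 0 < T) (τ t : ℝ) :
    gaussianPDFReal τ (VV T) t ≤ (T ^ (19 / 20 : ℝ))⁻¹ := by
  rw [gaussianPDFReal]
  have h0 : 0 < T ^ (19 / 20 : ℝ) := Real.rpow_pos_of_pos hT _
  have h1 : T ^ (19 / 20 : ℝ) ≤ Real.sqrt (2 * Real.pi * (VV T : ℝ)) := by
    apply Real.le_sqrt_of_sq_le
    rw [VV_coe hT.le, ← Real.rpow_natCast, ← Real.rpow_mul hT.le]
    have e : (19 / 20 : ℝ) * ((2 : ℕ) : ℝ) = 19 / 10 := by norm_num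
    rw [e]
    have hpi := Real.pi_gt_three
    have : 0 < T ^ (19 / 10 : ℝ) := Real.rpow_pos_of_pos hT _
    nlinarith
  have h2 : (Real.sqrt (2 * Real.pi * (VV T : ℝ)))⁻¹ ≤ (T ^ (19 / 20 : ℝ))⁻¹ := by gcongr
  have h3 : Real.exp (-(t - τ) ^ 2 / (2 * (VV T : ℝ))) ≤ 1 := by
    rw [Real.exp_le_one_iff]
    apply div_nonpos_of_nonpos_of_nonneg
    · nlinarith [sq_nonneg (t - τ)]
    · positivity
  calc (Real.sqrt (2 * Real.pi * (VV T : ℝ)))⁻¹ * Real.exp (-(t - τ) ^ 2 / (2 * (VV T : ℝ)))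
      ≤ (T ^ (19 / 20 : ℝ))⁻¹ * 1 := by
        apply mul_le_mul h2 h3 (Real.exp_pos _).le (by positivity)
    _ = _ := mul_one _

/-- the mean on the critical line -/
lemma half (h : F4.StCr4) : ∃ C : ℝ, 1 ≤ C ∧ ∃ T₀ : ℝ, 12 ≤ T₀ ∧ ∀ T, T₀ ≤ T → ∀ τ : ℝ,
    |τ| ≤ 2 * T → MM T τ z4 (1 / 2) ≤ C * T ^ (501 / 10000 : ℝ) := by
  obtain ⟨T₁, hT₁, h1⟩ := h
  obtain ⟨K, m, hK, hgr⟩ := nice_z4.growth
  obtain ⟨T₂, h2⟩ := eg_tail m
  refine ⟨128 + K, by linarith, max (max T₁ T₂) 12, le_max_right _ _, fun T hT τ hτ => ?_⟩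
  have hTT₁ : T₁ ≤ T := ((le_max_left _ _).trans (le_max_left _ _)).trans hT
  have hTT₂ : T₂ ≤ T := ((le_max_right _ _).trans (le_max_left _ _)).trans hT
  have hT12 : 12 ≤ T := (le_max_right _ _).trans hT
  have hT0 : 0 < T := by linarith
  have hT1 : 1 ≤ T := by linarith
  have hVne : VV T ≠ 0 := by
    intro h0
    have h3 := VV_coe hT0.le
    rw [h0] at h3
    have : 0 < T ^ (19 / 10 : ℝ) := Real.rpow_pos_of_pos hT0 _
    simp at h3
    linarith
  -- the tail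
  have htail := h2 T hTT₂ τ hτ
  set S : Set ℝ := Set.Icc (-(8 * T)) (8 * T) with hS
  set S' : Set ℝ := {t : ℝ | 8 * T < |t|} with hS'
  have hS'm : MeasurableSet S' := measurableSet_lt measurable_const measurable_id.abs
  have hSm : MeasurableSet S := measurableSet_Icc
  have hpt : ∀ t : ℝ, ‖z4 (((1 / 2 : ℝ) : ℂ) + t * I)‖ ≤
      S.indicator F t + K * S'.indicator (fun t => (1 + |t|) ^ m) t := by
    intro t
    by_cases ht : 8 * T < |t|
    · have ht' : t ∈ S' := ht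
      have ht'' : t ∉ S := by
        intro hc
        have := abs_le.mpr hc
        linarith
      rw [Set.indicator_of_mem ht', Set.indicator_of_notMem ht'', zero_add]
      have := hgr (((1 / 2 : ℝ) : ℂ) + t * I) (by rw [line_re]; norm_num)
        (by rw [line_re]; norm_num)
      rw [line_im] at this
      exact this
    · have ht' : t ∉ S' := ht
      have ht'' : t ∈ S := abs_le.mp (not_lt.mp ht)
      rw [Set.indicator_of_notMem ht', Set.indicator_of_mem ht'', mul_zero, add_zero]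
      exact z4_half t
  -- integrability
  obtain ⟨B, hB⟩ := (isCompact_Icc (a := -(8 * T)) (b := 8 * T)).exists_bound_of_continuousOn
    (f := F) F_cont.continuousOn
  have hi1 : Integrable (S.indicator F) (gaussianReal τ (VV T)) := by
    refine (integrable_const (max B 0)).mono'
      (F_cont.measurable.indicator hSm).aestronglyMeasurable
      (Filter.Eventually.of_forall fun t => ?_)
    by_cases ht : t ∈ S
    · rw [Set.indicator_of_mem ht]
      exact (hB t ht).trans (le_max_left _ _)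
    · rw [Set.indicator_of_notMem ht, norm_zero]
      exact le_max_right _ _
  have hi2 : Integrable (fun t => K * S'.indicator (fun t => (1 + |t|) ^ m) t)
      (gaussianReal τ (VV T)) :=
    ((integrable_one_add_abs_pow τ (VV T) m).indicator hS'm).const_mul K
  have hsplit : MM T τ z4 (1 / 2) ≤ ∫ t, S.indicator F t ∂(gaussianReal τ (VV T)) +
      K * ∫ t, S'.indicator (fun t => (1 + |t|) ^ m) t ∂(gaussianReal τ (VV T)) := by
    rw [← integral_const_mul, ← integral_add hi1 hi2]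
    exact integral_mono_of_nonneg (Filter.Eventually.of_forall fun t => norm_nonneg _)
      (hi1.add hi2) (Filter.Eventually.of_forall hpt)
  -- the main part
  have hmain : ∫ t, S.indicator F t ∂(gaussianReal τ (VV T)) ≤
      (T ^ (19 / 20 : ℝ))⁻¹ * (2 * (8 * T) ^ (1 + 1 / 10000 : ℝ)) := by
    rw [integral_gaussianReal_eq_integral_smul hVne]
    simp only [smul_eq_mul]
    have hint : Integrable (fun t => (T ^ (19 / 20 : ℝ))⁻¹ * S.indicator F t) :=
      ((integrable_indicator_iff hSm).mpr F_cont.integrableOn_Icc).const_mul _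
    have h3 := integral_mono_of_nonneg
      (Filter.Eventually.of_forall fun t => mul_nonneg (gaussianPDFReal_nonneg τ (VV T) t)
        (Set.indicator_nonneg (fun t _ => F_nonneg t) t)) hint
      (Filter.Eventually.of_forall fun t => mul_le_mul_of_nonneg_right (pdf_le hT0 τ t)
        (Set.indicator_nonneg (fun t _ => F_nonneg t) t))
    refine h3.trans ?_
    rw [integral_const_mul, integral_indicator hSm, hS, integral_Icc_eq_integral_Ioc,
      ← intervalIntegral.integral_of_le (by linarith), symm_int]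
    have h4 := h1 (8 * T) (by linarith)
    have h5 : 0 < (T ^ (19 / 20 : ℝ))⁻¹ := inv_pos.mpr (Real.rpow_pos_of_pos hT0 _)
    have h6 : ∫ t in (0 : ℝ)..(8 * T), F t ≤ (8 * T) ^ (1 + 1 / 10000 : ℝ) := h4
    exact mul_le_mul_of_nonneg_left (by linarith) h5.le
  have hpow : (T ^ (19 / 20 : ℝ))⁻¹ * (2 * (8 * T) ^ (1 + 1 / 10000 : ℝ)) ≤
      128 * T ^ (501 / 10000 : ℝ) := by
    rw [Real.mul_rpow (by norm_num) hT0.le, ← Real.rpow_neg hT0.le]
    have h8 : (8 : ℝ) ^ (1 + 1 / 10000 : ℝ) ≤ 64 := by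
      calc (8 : ℝ) ^ (1 + 1 / 10000 : ℝ) ≤ (8 : ℝ) ^ (2 : ℝ) :=
            Real.rpow_le_rpow_of_exponent_le (by norm_num) (by norm_num)
        _ = 64 := by
            rw [show (2 : ℝ) = ((2 : ℕ) : ℝ) by norm_num, Real.rpow_natCast]; norm_num
    have e : T ^ (-(19 / 20) : ℝ) * (2 * ((8 : ℝ) ^ (1 + 1 / 10000 : ℝ) *
        T ^ (1 + 1 / 10000 : ℝ))) = 2 * (8 : ℝ) ^ (1 + 1 / 10000 : ℝ) *
        T ^ (501 / 10000 : ℝ) := by
      have e3 : T ^ (501 / 10000 : ℝ) = T ^ (-(19 / 20) : ℝ) * T ^ (1 + 1 / 10000 : ℝ) := by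
        rw [← Real.rpow_add hT0]
        congr 1
        norm_num
      rw [e3]
      ring
    rw [e]
    have h9 : 0 < T ^ (501 / 10000 : ℝ) := Real.rpow_pos_of_pos hT0 _
    nlinarith
  have hone : 1 ≤ T ^ (501 / 10000 : ℝ) := Real.one_le_rpow hT1 (by norm_num)
  have htail' : ∫ t, S'.indicator (fun t => (1 + |t|) ^ m) t ∂(gaussianReal τ (VV T)) ≤ 1 := by
    refine htail.trans ?_
    rw [Real.exp_le_one_iff]
    have : 0 < T ^ (1 / 10 : ℝ) := Real.rpow_pos_of_pos hT0 _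
    linarith
  calc MM T τ z4 (1 / 2) ≤ _ := hsplit
    _ ≤ 128 * T ^ (501 / 10000 : ℝ) + K * 1 :=
        add_le_add (hmain.trans hpow) (mul_le_mul_of_nonneg_left htail' hK)
    _ ≤ (128 + K) * T ^ (501 / 10000 : ℝ) := by nlinarith

end M4

open M4 in
theorem stM4 (h : F4.StCr4) : StM4 := by
  obtain ⟨C, hC, T₀, hT₀, hA⟩ := half h
  obtain ⟨Z, hZ, hZ6⟩ := Left.zt_six
  have hZ4 : 1 ≤ Z ^ 4 := one_le_pow₀ hZ
  have hlim : Tendsto (fun T : ℝ => T ^ (19 / 10000 : ℝ)) atTop atTop :=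
    tendsto_rpow_atTop (by norm_num)
  obtain ⟨T₃, hT₃⟩ := eventually_atTop.mp (hlim.eventually_ge_atTop (2401 * (2 * C * Z ^ 4)))
  refine ⟨max T₀ T₃, by linarith [le_max_left T₀ T₃], fun T hT τ hτ δ hδ0 hδ1 => ?_⟩
  have hTT₀ : T₀ ≤ T := (le_max_left _ _).trans hT
  have hT12 : 12 ≤ T := hT₀.trans hTT₀
  have hT1 : 1 < T := by linarith
  have hT0 : 0 < T := by linarith
  have hL : 0 < Real.log T := Real.log_pos hT1
  have hone : 1 ≤ T ^ (501 / 10000 : ℝ) := Real.one_le_rpow hT1.le (by norm_num)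
  have h6 : MM T τ z4 6 ≤ Z ^ 4 * T ^ (-(0 : ℝ)) := by
    rw [neg_zero, Real.rpow_zero, mul_one]
    apply mm_le_const nice_z4 (by norm_num) (by norm_num)
    intro t
    rw [norm_z4]
    have := hZ6 t
    gcongr
  have hint := interp nice_z4 (T := T) (τ := τ) (c := δ * Real.log T)
    (A := C * T ^ (501 / 10000 : ℝ)) (C := Z ^ 4) (ρ := 0) (κ := 0) hT12 (by positivity)
    (by nlinarith) (by rw [neg_zero, Real.rpow_zero]; nlinarith) hZ4 (hA T hTT₀ τ hτ) h6
  have e1 : (1 / 2 + δ * Real.log T / Real.log T : ℝ) = 1 / 2 + δ := by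
    field_simp
  rw [e1] at hint
  have e2 : Real.exp (-((0 - 0) * (δ * Real.log T) / (11 / 2))) = 1 := by simp
  rw [e2, mul_one] at hint
  have hpt : ∀ t : ℝ, ‖riemannZeta (((1 / 2 + δ : ℝ) : ℂ) + t * I)‖ ^ 4 ≤
      2401 * ‖z4 (((1 / 2 + δ : ℝ) : ℂ) + t * I)‖ := by
    intro t
    have h := IngM.pt_zeta_SS (s := ((1 / 2 + δ : ℝ) : ℂ) + t * I) (by rw [line_re]; linarith)
      (by rw [line_re]; linarith) 0
    rw [mul_zero, sub_zero, sub_zero] at h
    rw [norm_z4]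
    calc ‖riemannZeta (((1 / 2 + δ : ℝ) : ℂ) + t * I)‖ ^ 4 =
          (‖riemannZeta (((1 / 2 + δ : ℝ) : ℂ) + t * I)‖ ^ 2) ^ 2 := by ring
      _ ≤ (49 * ‖zt (((1 / 2 + δ : ℝ) : ℂ) + t * I)‖ ^ 2) ^ 2 := by gcongr
      _ = _ := by ring
  have hint2 : Integrable (fun t : ℝ => 2401 * ‖z4 (((1 / 2 + δ : ℝ) : ℂ) + t * I)‖)
      (gaussianReal τ (VV T)) :=
    (nice_z4.integrable τ (VV T) (by linarith) (by linarith)).const_mul 2401
  calc EG T τ (fun t => ‖riemannZeta (((1 / 2 + δ : ℝ) : ℂ) + t * I)‖ ^ 4)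
      ≤ 2401 * MM T τ z4 (1 / 2 + δ) := by
        unfold MM EG
        rw [← integral_const_mul]
        exact integral_mono_of_nonneg (Filter.Eventually.of_forall fun t => by positivity) hint2
          (Filter.Eventually.of_forall hpt)
    _ ≤ 2401 * (2 * (C * T ^ (501 / 10000 : ℝ)) * Z ^ 4) := by gcongr
    _ = (2401 * (2 * C * Z ^ 4)) * T ^ (501 / 10000 : ℝ) := by ring
    _ ≤ T ^ (19 / 10000 : ℝ) * T ^ (501 / 10000 : ℝ) := by
        gcongr
        exact hT₃ T ((le_max_right _ _).trans hT)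
    _ = T ^ (52 / 1000 : ℝ) := by
        rw [← Real.rpow_add hT0]
        norm_num

end K5
end Pool.Agent.Lib.MP_973905_nt
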