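import Pool.Agent.Lib.MP_973905_nt.K5.Stmts

/-! (A8) Mean square and size of the polynomials `GB`. -/

namespace Pool.Agent.Lib.MP_973905_nt
namespace K5

open MeasureTheory ProbabilityTheory Complex Filter Topology K1

namespace MSx

/-- separation of the logarithms of two different integers -/
lemma log_sep {a b : ℕ} (ha : 1 ≤ a) (hb : 1 ≤ b) (h : a ≠ b) :
    1 / (4 * ((a : ℝ) * b)) ≤ (Real.log a - Real.log b) ^ 2 := by
  wlog hlt : a < b generalizing a b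
  · have := this hb ha h.symm (lt_of_le_of_ne (not_lt.mp hlt) h.symm)
    rw [mul_comm (b : ℝ), ← neg_sq, neg_sub] at this
    exact this
  have ha0 : (1 : ℝ) ≤ a := by exact_mod_cast ha
  have hb0 : (0 : ℝ) < b := by exact_mod_cast hb
  have h1 : (a : ℝ) + 1 ≤ b := by exact_mod_cast hlt
  have h2 : Real.log b - Real.log a = Real.log (b / a) := by
    rw [Real.log_div hb0.ne' (by linarith)]
  have h3 := Real.one_sub_inv_le_log_of_pos (div_pos hb0 (by linarith : (0 : ℝ) < a))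
  rw [inv_div, ← h2] at h3
  have h4 : 1 - (a : ℝ) / b = (b - a) / b := by field_simp
  rw [h4] at h3
  have h5 : 0 ≤ ((b : ℝ) - a) / b := div_nonneg (by linarith) hb0.le
  have h6 : (((b : ℝ) - a) / b) ^ 2 ≤ (Real.log b - Real.log a) ^ 2 := pow_le_pow_left₀ h5 h3 2
  rw [← neg_sq, neg_sub]
  refine le_trans ?_ h6
  rw [div_pow, div_le_div_iff₀ (by positivity) (by positivity)]
  have h7 : (b : ℝ) = a + (b - a) := by ring
  set d : ℝ := b - a with hd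
  have hd1 : 1 ≤ d := by linarith
  have h8 : (b : ℝ) ≤ 4 * a * d ^ 2 := by
    rw [h7]
    nlinarith [mul_nonneg (by linarith : (0 : ℝ) ≤ a - 1) (by nlinarith : (0 : ℝ) ≤ d ^ 2 - 1), sq_nonneg d]
  calc 1 * (b : ℝ) ^ 2 = b * b := by ring
    _ ≤ (4 * a * d ^ 2) * b := by gcongr
    _ = d ^ 2 * (4 * (a * b)) := by ring

/-- the frequency of a pair -/
noncomputable def th (p : ℕ × ℕ) : ℝ := Real.log p.2 - Real.log p.1

/-- the coefficient of a pair -/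
noncomputable def co (c : ℕ → ℕ → ℂ) (p : ℕ × ℕ) : ℂ :=
  c p.1 p.2 * ((((p.1 : ℝ) * p.2) ^ (-(1 / 2) : ℝ) : ℝ) : ℂ)

/-- the index set -/
def SS (N : ℕ) : Finset (ℕ × ℕ) := Finset.Icc 1 N ×ˢ Finset.Icc 1 N

lemma fs_half (t : ℝ) {n : ℕ} (hn : n ≠ 0) :
    fs (1 / 2 + t * I) n = (((n : ℝ) ^ (-(1 / 2) : ℝ) : ℝ) : ℂ) * cexp (((-Real.log n) * t : ℝ) * I) := by
  have h0 : (n : ℂ) ≠ 0 := by exact_mod_cast hn
  rw [← fs_mul_I t hn]
  simp only [fs]
  rw [Complex.ofReal_cpow (by positivity), neg_add, cpow_add _ _ h0]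
  push_cast
  ring

lemma GB_eq (N : ℕ) (c : ℕ → ℕ → ℂ) (t : ℝ) :
    GB N c (fs (1 / 2 + t * I)) = ∑ p ∈ SS N, co c p * cexp ((th p * t : ℝ) * I) := by
  unfold GB SS
  rw [Finset.sum_product]
  refine Finset.sum_congr rfl fun m hm => Finset.sum_congr rfl fun n hn => ?_
  have hm0 : m ≠ 0 := by have := (Finset.mem_Icc.mp hm).1; omega
  have hn0 : n ≠ 0 := by have := (Finset.mem_Icc.mp hn).1; omega
  rw [fs_half t hm0, fs_half t hn0]
  simp only [co, th]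
  rw [Real.mul_rpow (by positivity) (by positivity)]
  simp only [map_mul, Complex.conj_ofReal, ← Complex.exp_conj, Complex.conj_I]
  have e : cexp (((Real.log n - Real.log m) * t : ℝ) * I) =
      cexp (((-Real.log m) * t : ℝ) * I) * cexp (((-Real.log n) * t : ℝ) * -I) := by
    rw [← Complex.exp_add]
    congr 1
    push_cast
    ring
  rw [e]
  push_cast
  ring

lemma char_cont (p : ℕ × ℕ) : Continuous fun t : ℝ => cexp ((th p * t : ℝ) * I) := by fun_prop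

lemma norm_char (x : ℝ) : ‖cexp ((x : ℝ) * I)‖ = 1 := Complex.norm_exp_ofReal_mul_I x

lemma sum_inv_le (N : ℕ) {T : ℝ} (hT : 1 ≤ T) (hN : (N : ℝ) ≤ T) :
    ∑ m ∈ Finset.Icc 1 N, (m : ℝ)⁻¹ ≤ 1 + Real.log T := by
  have h := harmonic_le_one_add_log N
  have e : ((harmonic N : ℚ) : ℝ) = ∑ m ∈ Finset.Icc 1 N, (m : ℝ)⁻¹ := by
    rw [harmonic_eq_sum_Icc]
    push_cast
    rfl
  rw [e] at h
  rcases Nat.eq_zero_or_pos N with h0 | h0
  · subst h0
    have := Real.log_nonneg hT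
    simp
    linarith
  · have : Real.log N ≤ Real.log T := Real.log_le_log (by exact_mod_cast h0) hN
    linarith

/-- weights -/
noncomputable def wt (p : ℕ × ℕ) : ℝ := ((p.1 : ℝ) * p.2)⁻¹

lemma sum_wt (N : ℕ) {T : ℝ} (hT : 1 ≤ T) (hN : (N : ℝ) ≤ T) :
    ∑ p ∈ SS N, wt p ≤ (1 + Real.log T) ^ 2 := by
  unfold SS wt
  rw [Finset.sum_product]
  have h := sum_inv_le N hT hN
  have h0 : 0 ≤ ∑ m ∈ Finset.Icc 1 N, (m : ℝ)⁻¹ := Finset.sum_nonneg fun m _ => by positivity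
  have e : ∑ m ∈ Finset.Icc 1 N, ∑ n ∈ Finset.Icc 1 N, ((m : ℝ) * n)⁻¹ =
      (∑ m ∈ Finset.Icc 1 N, (m : ℝ)⁻¹) ^ 2 := by
    rw [sq, Finset.sum_mul_sum]
    refine Finset.sum_congr rfl fun m _ => Finset.sum_congr rfl fun n _ => ?_
    rw [mul_inv]
  simp only at *
  rw [e]
  exact pow_le_pow_left₀ h0 h 2

/-- the bound for the coefficients -/
lemma co_le {Q Y : ℝ} (hQ : 0 ≤ Q) (hY0 : 0 ≤ Y) {c : ℕ → ℕ → ℂ} (h1 : ∀ m n, ‖c m n‖ ≤ Q)
    (h2 : ∀ m n : ℕ, Y < (m : ℝ) * n → c m n = 0) {N : ℕ} {p : ℕ × ℕ} (hp : p ∈ SS N) :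
    ‖co c p‖ ≤ Q * (Y ^ (1 / 2 : ℝ) * wt p) := by
  obtain ⟨hm, hn⟩ := Finset.mem_product.mp hp
  have hm1 : (1 : ℝ) ≤ p.1 := by exact_mod_cast (Finset.mem_Icc.mp hm).1
  have hn1 : (1 : ℝ) ≤ p.2 := by exact_mod_cast (Finset.mem_Icc.mp hn).1
  set x : ℝ := (p.1 : ℝ) * p.2 with hx
  have hx1 : 1 ≤ x := by nlinarith
  have hx0 : 0 < x := by linarith
  unfold co wt
  by_cases hY : Y < x
  · rw [h2 _ _ hY, zero_mul, norm_zero]
    positivity
  · push Not at hY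
    rw [norm_mul, Complex.norm_real, Real.norm_eq_abs, abs_of_nonneg (by positivity)]
    have h3 : x ^ (-(1 / 2) : ℝ) = x ^ (1 / 2 : ℝ) * x⁻¹ := by
      rw [← Real.rpow_neg_one x, ← Real.rpow_add hx0]
      norm_num
    rw [← hx, h3]
    gcongr
    exact h1 _ _

lemma co_le' {Q : ℝ} {c : ℕ → ℕ → ℂ} (h1 : ∀ m n, ‖c m n‖ ≤ Q) (p : ℕ × ℕ) :
    ‖co c p‖ ≤ Q * ((p.1 : ℝ) * p.2) ^ (-(1 / 2) : ℝ) := by
  unfold co
  rw [norm_mul, Complex.norm_real, Real.norm_eq_abs, abs_of_nonneg (by positivity)]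
  gcongr
  exact h1 _ _

lemma integrable_char (τ : ℝ) (v : NNReal) (x : ℝ) :
    Integrable (fun t : ℝ => cexp ((x * t : ℝ) * I)) (gaussianReal τ v) := by
  refine (integrable_const (1 : ℝ)).mono' (by fun_prop) (Filter.Eventually.of_forall fun t => ?_)
  rw [norm_char]

/-- the mean square of a trigonometric polynomial -/
lemma ms_le (T τ : ℝ) (S : Finset (ℕ × ℕ)) (A : ℕ × ℕ → ℂ) :
    EG T τ (fun t => ‖∑ p ∈ S, A p * cexp ((th p * t : ℝ) * I)‖ ^ 2) ≤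
      ∑ p ∈ S, ∑ q ∈ S, ‖A p‖ * ‖A q‖ * Real.exp (-((VV T : ℝ) * (th p - th q) ^ 2 / 2)) := by
  have e1 : ∀ t : ℝ, ((‖∑ p ∈ S, A p * cexp ((th p * t : ℝ) * I)‖ ^ 2 : ℝ) : ℂ) =
      ∑ p ∈ S, ∑ q ∈ S, A p * (starRingEnd ℂ) (A q) * cexp (((th p - th q) * t : ℝ) * I) := by
    intro t
    rw [← Complex.normSq_eq_norm_sq, ← Complex.mul_conj, map_sum, Finset.sum_mul_sum]
    refine Finset.sum_congr rfl fun p _ => Finset.sum_congr rfl fun q _ => ?_
    rw [map_mul, ← Complex.exp_conj, map_mul, Complex.conj_ofReal, Complex.conj_I]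
    have e : cexp (((th p - th q) * t : ℝ) * I) =
        cexp ((th p * t : ℝ) * I) * cexp ((th q * t : ℝ) * -I) := by
      rw [← Complex.exp_add]
      congr 1
      push_cast
      ring
    rw [e]
    ring
  have e2 : ((EG T τ (fun t => ‖∑ p ∈ S, A p * cexp ((th p * t : ℝ) * I)‖ ^ 2) : ℝ) : ℂ) =
      ∑ p ∈ S, ∑ q ∈ S, A p * (starRingEnd ℂ) (A q) *
        ∫ t : ℝ, cexp (((th p - th q) * t : ℝ) * I) ∂(gaussianReal τ (VV T)) := by
    unfold EG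
    rw [← integral_complex_ofReal]
    simp only [e1]
    rw [integral_finsetSum]
    · refine Finset.sum_congr rfl fun p _ => ?_
      rw [integral_finsetSum]
      · refine Finset.sum_congr rfl fun q _ => ?_
        rw [integral_const_mul]
      · intro q _
        exact (integrable_char τ (VV T) (th p - th q)).const_mul _
    · intro p _
      refine integrable_finsetSum _ fun q _ => ?_
      exact (integrable_char τ (VV T) (th p - th q)).const_mul _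
  have h0 : 0 ≤ EG T τ (fun t => ‖∑ p ∈ S, A p * cexp ((th p * t : ℝ) * I)‖ ^ 2) :=
    integral_nonneg fun t => by positivity
  have h1 : EG T τ (fun t => ‖∑ p ∈ S, A p * cexp ((th p * t : ℝ) * I)‖ ^ 2) =
      ‖((EG T τ (fun t => ‖∑ p ∈ S, A p * cexp ((th p * t : ℝ) * I)‖ ^ 2) : ℝ) : ℂ)‖ := by
    rw [Complex.norm_real, Real.norm_eq_abs, abs_of_nonneg h0]
  rw [h1, e2]
  refine (norm_sum_le _ _).trans (Finset.sum_le_sum fun p _ => ?_)
  refine (norm_sum_le _ _).trans (Finset.sum_le_sum fun q _ => ?_)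
  rw [norm_mul, norm_mul, norm_gauss_char, Complex.norm_conj]

/-- the diagonal -/
def DD (N : ℕ) : Finset ((ℕ × ℕ) × (ℕ × ℕ)) :=
  (SS N ×ˢ SS N).filter fun x => x.1.2 * x.2.1 = x.1.1 * x.2.2

/-- parameters of the diagonal -/
def pa (x : (ℕ × ℕ) × (ℕ × ℕ)) : (ℕ × ℕ) × (ℕ × ℕ) :=
  ((x.1.1.gcd x.1.2, x.1.1 / x.1.1.gcd x.1.2),
    (x.1.2 / x.1.1.gcd x.1.2, x.2.1 / (x.1.1 / x.1.1.gcd x.1.2)))

/-- inverse of `pa` -/
def ap (y : (ℕ × ℕ) × (ℕ × ℕ)) : (ℕ × ℕ) × (ℕ × ℕ) :=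
  ((y.1.1 * y.1.2, y.1.1 * y.2.1), (y.1.2 * y.2.2, y.2.1 * y.2.2))

lemma pa_spec {N : ℕ} {x : (ℕ × ℕ) × (ℕ × ℕ)} (hx : x ∈ DD N) :
    ap (pa x) = x ∧ pa x ∈ SS N ×ˢ SS N := by
  obtain ⟨⟨m, n⟩, ⟨a, b⟩⟩ := x
  simp only [DD, SS, Finset.mem_filter, Finset.mem_product, Finset.mem_Icc] at hx
  obtain ⟨⟨⟨⟨hm1, hmN⟩, ⟨hn1, hnN⟩⟩, ⟨ha1, haN⟩, ⟨hb1, hbN⟩⟩, he⟩ := hx
  set g : ℕ := m.gcd n with hg
  have hg0 : 0 < g := Nat.gcd_pos_of_pos_left n hm1
  obtain ⟨m', hm'⟩ : g ∣ m := Nat.gcd_dvd_left m n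
  obtain ⟨n', hn'⟩ : g ∣ n := Nat.gcd_dvd_right m n
  have hmg : m / g = m' := by rw [hm']; exact Nat.mul_div_cancel_left _ hg0
  have hng : n / g = n' := by rw [hn']; exact Nat.mul_div_cancel_left _ hg0
  have hm'0 : 0 < m' := Nat.pos_of_ne_zero fun h => by rw [h] at hm'; omega
  have hn'0 : 0 < n' := Nat.pos_of_ne_zero fun h => by rw [h] at hn'; omega
  have hcop : Nat.Coprime m' n' := by
    have := Nat.coprime_div_gcd_div_gcd (m := m) (n := n) hg0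
    rwa [← hg, hmg, hng] at this
  have he' : n' * a = m' * b := by
    have h1 : g * (n' * a) = g * (m' * b) := by
      calc g * (n' * a) = (g * n') * a := by ring
        _ = n * a := by rw [← hn']
        _ = m * b := he
        _ = (g * m') * b := by rw [← hm']
        _ = g * (m' * b) := by ring
    exact Nat.eq_of_mul_eq_mul_left hg0 h1
  obtain ⟨h, hh⟩ : m' ∣ a := by
    have : m' ∣ n' * a := ⟨b, he'⟩
    exact hcop.dvd_of_dvd_mul_left this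
  have hah : a / m' = h := by rw [hh]; exact Nat.mul_div_cancel_left _ hm'0
  have hb : b = n' * h := by
    have h1 : m' * b = m' * (n' * h) := by rw [← he', hh]; ring
    exact Nat.eq_of_mul_eq_mul_left hm'0 h1
  have hh0 : 0 < h := Nat.pos_of_ne_zero fun h' => by rw [h'] at hh; omega
  have e : pa ((m, n), (a, b)) = ((g, m'), (n', h)) := by
    simp only [pa, ← hg, hmg, hng, hah]
  rw [e]
  refine ⟨?_, ?_⟩
  · simp only [ap]
    rw [← hm', ← hn', ← hh, ← hb]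
  · simp only [SS, Finset.mem_product, Finset.mem_Icc]
    have l1 : g ≤ m := Nat.le_of_dvd hm1 (Nat.gcd_dvd_left m n)
    have l2 : m' ≤ m := Nat.le_of_dvd hm1 ⟨g, by rw [hm']; ring⟩
    have l3 : n' ≤ n := Nat.le_of_dvd hn1 ⟨g, by rw [hn']; ring⟩
    have l4 : h ≤ a := Nat.le_of_dvd ha1 ⟨m', by rw [hh]; ring⟩
    omega

lemma wt_nonneg (p : ℕ × ℕ) : 0 ≤ wt p := by unfold wt; positivity

lemma sum_diag (N : ℕ) {T : ℝ} (hT : 1 ≤ T) (hN : (N : ℝ) ≤ T) :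
    ∑ x ∈ DD N, ((x.1.1 : ℝ) * x.2.2)⁻¹ ≤ (1 + Real.log T) ^ 4 := by
  have hinj : Set.InjOn pa (DD N : Set ((ℕ × ℕ) × (ℕ × ℕ))) := by
    intro x hx y hy hxy
    rw [← (pa_spec hx).1, ← (pa_spec hy).1, hxy]
  have e1 : ∑ x ∈ DD N, ((x.1.1 : ℝ) * x.2.2)⁻¹ = ∑ y ∈ (DD N).image pa, wt y.1 * wt y.2 := by
    rw [Finset.sum_image hinj]
    refine Finset.sum_congr rfl fun x hx => ?_
    have h := (pa_spec hx).1
    generalize pa x = y at h
    rw [← h]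
    simp only [ap, wt]
    rw [← mul_inv]
    congr 1
    push_cast
    ring
  have hsub : (DD N).image pa ⊆ SS N ×ˢ SS N := by
    intro y hy
    obtain ⟨x, hx, rfl⟩ := Finset.mem_image.mp hy
    exact (pa_spec hx).2
  rw [e1]
  calc ∑ y ∈ (DD N).image pa, wt y.1 * wt y.2
      ≤ ∑ y ∈ SS N ×ˢ SS N, wt y.1 * wt y.2 :=
        Finset.sum_le_sum_of_subset_of_nonneg hsub fun y _ _ =>
          mul_nonneg (wt_nonneg _) (wt_nonneg _)
    _ = (∑ p ∈ SS N, wt p) ^ 2 := by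
        rw [Finset.sum_product, sq, Finset.sum_mul_sum]
    _ ≤ ((1 + Real.log T) ^ 2) ^ 2 := by
        gcongr
        · exact Finset.sum_nonneg fun p _ => wt_nonneg p
        · exact sum_wt N hT hN
    _ = _ := by ring

lemma th_sub {p q : ℕ × ℕ} (h1 : 1 ≤ p.1) (h2 : 1 ≤ p.2) (h3 : 1 ≤ q.1) (h4 : 1 ≤ q.2) :
    th p - th q = Real.log ((p.2 * q.1 : ℕ) : ℝ) - Real.log ((p.1 * q.2 : ℕ) : ℝ) := by
  unfold th
  have a1 : (p.1 : ℝ) ≠ 0 := by positivity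
  have a2 : (p.2 : ℝ) ≠ 0 := by positivity
  have a3 : (q.1 : ℝ) ≠ 0 := by positivity
  have a4 : (q.2 : ℝ) ≠ 0 := by positivity
  rw [Nat.cast_mul, Nat.cast_mul, Real.log_mul a2 a3, Real.log_mul a1 a4]
  ring

/-- the mean square of the polynomials -/
lemma ms_bound {T τ Q Y : ℝ} (hT : 1 ≤ T) (hQ : 0 ≤ Q) (hY : 0 < Y) {N : ℕ} (hN : (N : ℝ) ≤ T)
    {c : ℕ → ℕ → ℂ} (h1 : ∀ m n, ‖c m n‖ ≤ Q) (h2 : ∀ m n : ℕ, Y < (m : ℝ) * n → c m n = 0) :
    EG T τ (fun t => ‖GB N c (fs (1 / 2 + t * I))‖ ^ 2) ≤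
      Q ^ 2 * (1 + Real.log T) ^ 4 * (1 + Y * Real.exp (-((VV T : ℝ) / (8 * Y ^ 2)))) := by
  simp only [GB_eq]
  refine (ms_le T τ (SS N) (co c)).trans ?_
  set E : ℝ := Real.exp (-((VV T : ℝ) / (8 * Y ^ 2))) with hE
  have hE0 : 0 < E := Real.exp_pos _
  have key : ∀ p ∈ SS N, ∀ q ∈ SS N,
      ‖co c p‖ * ‖co c q‖ * Real.exp (-((VV T : ℝ) * (th p - th q) ^ 2 / 2)) ≤
      Q ^ 2 * (if p.2 * q.1 = p.1 * q.2 then ((p.1 : ℝ) * q.2)⁻¹ else 0) +
        Q ^ 2 * Y * E * (wt p * wt q) := by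
    intro p hp q hq
    obtain ⟨hp1, hp2⟩ := Finset.mem_product.mp hp
    obtain ⟨hq1, hq2⟩ := Finset.mem_product.mp hq
    have a1 := (Finset.mem_Icc.mp hp1).1
    have a2 := (Finset.mem_Icc.mp hp2).1
    have a3 := (Finset.mem_Icc.mp hq1).1
    have a4 := (Finset.mem_Icc.mp hq2).1
    have b1 : (0 : ℝ) < p.1 := by positivity
    have b2 : (0 : ℝ) < p.2 := by positivity
    have b3 : (0 : ℝ) < q.1 := by positivity
    have b4 : (0 : ℝ) < q.2 := by positivity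
    have hw : 0 ≤ Q ^ 2 * Y * E * (wt p * wt q) := by
      have := wt_nonneg p
      have := wt_nonneg q
      positivity
    have hexp1 : Real.exp (-((VV T : ℝ) * (th p - th q) ^ 2 / 2)) ≤ 1 := by
      apply Real.exp_le_one_iff.mpr
      have : 0 ≤ (VV T : ℝ) * (th p - th q) ^ 2 / 2 := by positivity
      linarith
    by_cases hd : p.2 * q.1 = p.1 * q.2
    · rw [if_pos hd]
      have hd' : (p.2 : ℝ) * q.1 = p.1 * q.2 := by exact_mod_cast hd
      have h3 : ‖co c p‖ * ‖co c q‖ ≤ Q ^ 2 * ((p.1 : ℝ) * q.2)⁻¹ := by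
        calc ‖co c p‖ * ‖co c q‖ ≤ (Q * ((p.1 : ℝ) * p.2) ^ (-(1 / 2) : ℝ)) *
              (Q * ((q.1 : ℝ) * q.2) ^ (-(1 / 2) : ℝ)) :=
              mul_le_mul (co_le' h1 p) (co_le' h1 q) (norm_nonneg _) (by positivity)
          _ = Q ^ 2 * ((((p.1 : ℝ) * p.2) * ((q.1 : ℝ) * q.2)) ^ (-(1 / 2) : ℝ)) := by
              rw [Real.mul_rpow (x := (p.1 : ℝ) * p.2) (by positivity) (by positivity)]
              ring
          _ = Q ^ 2 * ((((p.1 : ℝ) * q.2) ^ (2 : ℝ)) ^ (-(1 / 2) : ℝ)) := by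
              congr 2
              rw [Real.rpow_two]
              calc (p.1 : ℝ) * p.2 * (q.1 * q.2) = (p.2 * q.1) * (p.1 * q.2) := by ring
                _ = _ := by rw [hd']; ring
          _ = _ := by
              rw [← Real.rpow_mul (by positivity), show (2 : ℝ) * -(1 / 2) = -1 by norm_num,
                Real.rpow_neg_one]
      calc ‖co c p‖ * ‖co c q‖ * Real.exp (-((VV T : ℝ) * (th p - th q) ^ 2 / 2))
          ≤ ‖co c p‖ * ‖co c q‖ * 1 := by gcongr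
        _ ≤ Q ^ 2 * ((p.1 : ℝ) * q.2)⁻¹ := by rw [mul_one]; exact h3
        _ ≤ _ := by linarith
    · rw [if_neg hd, mul_zero, zero_add]
      by_cases hYp : Y < (p.1 : ℝ) * p.2
      · have : co c p = 0 := by unfold co; rw [h2 _ _ hYp, zero_mul]
        rw [this, norm_zero, zero_mul, zero_mul]
        exact hw
      by_cases hYq : Y < (q.1 : ℝ) * q.2
      · have : co c q = 0 := by unfold co; rw [h2 _ _ hYq, zero_mul]
        rw [this, norm_zero, mul_zero, zero_mul]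
        exact hw
      push Not at hYp hYq
      have h3 := log_sep (a := p.2 * q.1) (b := p.1 * q.2) (Nat.mul_pos a2 a3)
        (Nat.mul_pos a1 a4) hd
      rw [← th_sub a1 a2 a3 a4] at h3
      have h4 : 1 / (4 * Y ^ 2) ≤ (th p - th q) ^ 2 := by
        refine le_trans ?_ h3
        apply one_div_le_one_div_of_le (by positivity)
        have : ((p.2 * q.1 : ℕ) : ℝ) * ((p.1 * q.2 : ℕ) : ℝ) =
            ((p.1 : ℝ) * p.2) * ((q.1 : ℝ) * q.2) := by push_cast; ring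
        rw [this]
        have h5 : ((p.1 : ℝ) * p.2) * ((q.1 : ℝ) * q.2) ≤ Y * Y := by gcongr
        nlinarith
      have h5 : Real.exp (-((VV T : ℝ) * (th p - th q) ^ 2 / 2)) ≤ E := by
        rw [hE]
        apply Real.exp_le_exp.mpr
        rw [neg_le_neg_iff]
        calc (VV T : ℝ) / (8 * Y ^ 2) = VV T * (1 / (4 * Y ^ 2)) / 2 := by
              field_simp
              ring
          _ ≤ _ := by gcongr
      have h6 := co_le hQ hY.le h1 h2 hp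
      have h7 := co_le hQ hY.le h1 h2 hq
      have hY2 : Y ^ (1 / 2 : ℝ) * Y ^ (1 / 2 : ℝ) = Y := by
        rw [← Real.rpow_add hY]
        norm_num
      calc ‖co c p‖ * ‖co c q‖ * Real.exp (-((VV T : ℝ) * (th p - th q) ^ 2 / 2))
          ≤ (Q * (Y ^ (1 / 2 : ℝ) * wt p)) * (Q * (Y ^ (1 / 2 : ℝ) * wt q)) * E := by
            have := wt_nonneg p
            have := wt_nonneg q
            gcongr
        _ = Q ^ 2 * (Y ^ (1 / 2 : ℝ) * Y ^ (1 / 2 : ℝ)) * E * (wt p * wt q) := by ring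
        _ = _ := by rw [hY2]
  have hS := sum_wt N hT hN
  have hS0 : 0 ≤ ∑ p ∈ SS N, wt p := Finset.sum_nonneg fun p _ => wt_nonneg p
  calc ∑ p ∈ SS N, ∑ q ∈ SS N,
        ‖co c p‖ * ‖co c q‖ * Real.exp (-((VV T : ℝ) * (th p - th q) ^ 2 / 2))
      ≤ ∑ p ∈ SS N, ∑ q ∈ SS N,
        (Q ^ 2 * (if p.2 * q.1 = p.1 * q.2 then ((p.1 : ℝ) * q.2)⁻¹ else 0) +
        Q ^ 2 * Y * E * (wt p * wt q)) :=
        Finset.sum_le_sum fun p hp => Finset.sum_le_sum fun q hq => key p hp q hq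
    _ = Q ^ 2 * (∑ x ∈ DD N, ((x.1.1 : ℝ) * x.2.2)⁻¹) +
        Q ^ 2 * Y * E * (∑ p ∈ SS N, wt p) ^ 2 := by
        simp only [Finset.sum_add_distrib, ← Finset.mul_sum]
        congr 1
        · congr 1
          unfold DD
          rw [Finset.sum_filter, Finset.sum_product]
        · rw [pow_two (∑ p ∈ SS N, wt p), Finset.sum_mul]
    _ ≤ Q ^ 2 * (1 + Real.log T) ^ 4 + Q ^ 2 * Y * E * ((1 + Real.log T) ^ 2) ^ 2 := by
        gcongr
        exact sum_diag N hT hN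
    _ = _ := by ring

/-- the trivial bound -/
lemma size_bound {T Q Y : ℝ} (hT : 1 ≤ T) (hQ : 0 ≤ Q) (hY : 0 < Y) {N : ℕ} (hN : (N : ℝ) ≤ T)
    {c : ℕ → ℕ → ℂ} (h1 : ∀ m n, ‖c m n‖ ≤ Q) (h2 : ∀ m n : ℕ, Y < (m : ℝ) * n → c m n = 0)
    (t : ℝ) : ‖GB N c (fs (1 / 2 + t * I))‖ ≤ Q * Y ^ (1 / 2 : ℝ) * (1 + Real.log T) ^ 2 := by
  rw [GB_eq]
  have hS := sum_wt N hT hN
  calc ‖∑ p ∈ SS N, co c p * cexp ((th p * t : ℝ) * I)‖ ≤ ∑ p ∈ SS N, Q * (Y ^ (1 / 2 : ℝ) * wt p) := by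
        refine (norm_sum_le _ _).trans (Finset.sum_le_sum fun p hp => ?_)
        rw [norm_mul, norm_char, mul_one]
        exact co_le hQ hY.le h1 h2 hp
    _ = Q * Y ^ (1 / 2 : ℝ) * ∑ p ∈ SS N, wt p := by
        rw [← Finset.mul_sum, ← Finset.mul_sum]
        ring
    _ ≤ _ := by gcongr

lemma GB_cont (N : ℕ) (c : ℕ → ℕ → ℂ) : Continuous fun t : ℝ => GB N c (fs (1 / 2 + t * I)) := by
  simp only [GB_eq]
  fun_prop

lemma ev_log {a b : ℝ} (ha : 0 < a) : ∀ᶠ T : ℝ in atTop, b * (1 + Real.log T) ^ 4 ≤ T ^ a := by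
  have h1 : (fun T : ℝ => (1 + Real.log T) ^ 4) =o[atTop] fun T : ℝ => T ^ a := by
    have h2 : (fun T : ℝ => 1 + Real.log T) =o[atTop] fun T : ℝ => T ^ (a / 4) := by
      refine Asymptotics.IsLittleO.add ?_ (isLittleO_log_rpow_atTop (by positivity))
      rw [Asymptotics.isLittleO_const_left]
      right
      exact tendsto_norm_atTop_atTop.comp (tendsto_rpow_atTop (by positivity))
    have h3 := h2.pow (n := 4) (by norm_num)
    refine h3.congr' (Filter.EventuallyEq.refl _ _) ?_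
    filter_upwards [eventually_gt_atTop 0] with T hT
    rw [← Real.rpow_natCast, ← Real.rpow_mul hT.le]
    congr 1
    push_cast
    ring
  have h4 := h1.def (c := (|b| + 1)⁻¹) (by positivity)
  filter_upwards [h4, eventually_gt_atTop 1] with T hT hT1
  have hL : 0 ≤ Real.log T := Real.log_nonneg hT1.le
  rw [Real.norm_of_nonneg (by positivity : 0 ≤ (1 + Real.log T) ^ 4),
    Real.norm_of_nonneg (by positivity : 0 ≤ T ^ a)] at hT
  calc b * (1 + Real.log T) ^ 4 ≤ (|b| + 1) * (1 + Real.log T) ^ 4 := by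
        gcongr
        linarith [le_abs_self b]
    _ ≤ (|b| + 1) * ((|b| + 1)⁻¹ * T ^ a) := by gcongr
    _ = T ^ a := by field_simp

lemma ev_exp {a b s : ℝ} (ha : 0 < a) (hb : 0 < b) :
    ∀ᶠ T : ℝ in atTop, T ^ s * Real.exp (-(b * T ^ a)) ≤ 1 := by
  have h1 := tendsto_rpow_mul_exp_neg_mul_atTop_nhds_zero (s / a) b hb
  have h2 : Tendsto (fun T : ℝ => T ^ a) atTop atTop := tendsto_rpow_atTop ha
  have h3 := (tendsto_order.1 (h1.comp h2)).2 1 one_pos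
  filter_upwards [h3, eventually_gt_atTop 0] with T hT hT0
  simp only [Function.comp] at hT
  rw [← Real.rpow_mul hT0.le, mul_div_cancel₀ _ ha.ne'] at hT
  rw [← neg_mul]
  exact hT.le

end MSx

open MSx in
theorem stMS : StMS := by
  obtain ⟨T₀, hT₀⟩ := eventually_atTop.mp ((ev_log (a := 8 / 1000) (b := 2) (by norm_num)).and
    (ev_exp (a := 12 / 100) (b := 1 / 8) (s := 89 / 100) (by norm_num) (by norm_num)))
  refine ⟨max 3 T₀, le_max_left _ _, fun T hT τ N c hN h1 h2 => ?_⟩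
  have hT3 : 3 ≤ T := (le_max_left _ _).trans hT
  have hT1 : 1 ≤ T := by linarith
  have hT0 : 0 < T := by linarith
  obtain ⟨e1, e2⟩ := hT₀ T ((le_max_right _ _).trans hT)
  have hL : 0 ≤ Real.log T := Real.log_nonneg hT1
  have hQ : 0 ≤ T ^ (1 / 1000 : ℝ) := by positivity
  have hY : 0 < T ^ (89 / 100 : ℝ) := by positivity
  have hV : (VV T : ℝ) / (8 * (T ^ (89 / 100 : ℝ)) ^ 2) = 1 / 8 * T ^ (12 / 100 : ℝ) := by
    rw [VV_coe hT0.le, ← Real.rpow_natCast (T ^ (89 / 100 : ℝ)) 2, ← Real.rpow_mul hT0.le]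
    have : T ^ (19 / 10 : ℝ) = T ^ (12 / 100 : ℝ) * T ^ (89 / 100 * ((2 : ℕ) : ℝ)) := by
      rw [← Real.rpow_add hT0]
      norm_num
    rw [this]
    field_simp
  refine ⟨?_, fun t => ?_, GB_cont N c⟩
  · refine (ms_bound (τ := τ) hT1 hQ hY hN h1 h2).trans ?_
    rw [hV]
    have h3 : 1 + T ^ (89 / 100 : ℝ) * Real.exp (-(1 / 8 * T ^ (12 / 100 : ℝ))) ≤ 2 := by linarith
    have h4 : (T ^ (1 / 1000 : ℝ)) ^ 2 = T ^ (2 / 1000 : ℝ) := by
      rw [← Real.rpow_natCast, ← Real.rpow_mul hT0.le]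
      norm_num
    calc (T ^ (1 / 1000 : ℝ)) ^ 2 * (1 + Real.log T) ^ 4 *
          (1 + T ^ (89 / 100 : ℝ) * Real.exp (-(1 / 8 * T ^ (12 / 100 : ℝ))))
        ≤ (T ^ (1 / 1000 : ℝ)) ^ 2 * (1 + Real.log T) ^ 4 * 2 := by gcongr
      _ = T ^ (2 / 1000 : ℝ) * (2 * (1 + Real.log T) ^ 4) := by rw [h4]; ring
      _ ≤ T ^ (2 / 1000 : ℝ) * T ^ (8 / 1000 : ℝ) := by gcongr
      _ = T ^ (1 / 100 : ℝ) := by
          rw [← Real.rpow_add hT0]
          norm_num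
  · refine (size_bound hT1 hQ hY hN h1 h2 t).trans ?_
    have h3 : (1 + Real.log T) ^ 2 ≤ T ^ (8 / 1000 : ℝ) := by
      have : 1 ≤ (1 + Real.log T) ^ 2 := one_le_pow₀ (by linarith)
      nlinarith
    have h4 : (T ^ (89 / 100 : ℝ)) ^ (1 / 2 : ℝ) = T ^ (445 / 1000 : ℝ) := by
      rw [← Real.rpow_mul hT0.le]
      norm_num
    calc T ^ (1 / 1000 : ℝ) * (T ^ (89 / 100 : ℝ)) ^ (1 / 2 : ℝ) * (1 + Real.log T) ^ 2
        ≤ T ^ (1 / 1000 : ℝ) * T ^ (445 / 1000 : ℝ) * T ^ (8 / 1000 : ℝ) := by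
          rw [h4]; gcongr
      _ = T ^ (454 / 1000 : ℝ) := by
          rw [← Real.rpow_add hT0, ← Real.rpow_add hT0]
          norm_num
      _ ≤ T ^ (1 : ℝ) := Real.rpow_le_rpow_of_exponent_le hT1 (by norm_num)
      _ = T := Real.rpow_one T

end K5
end Pool.Agent.Lib.MP_973905_nt
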