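import Pool.Agent.Lib.MP_973905_nt.K5.MS

/-! (A10) Mean of the polynomials `GB`. -/

namespace Pool.Agent.Lib.MP_973905_nt
namespace K5

open MeasureTheory ProbabilityTheory Complex Filter Topology K1 MSx

theorem stMeanG : StMeanG := by
  obtain ⟨T₀, hT₀⟩ := eventually_atTop.mp ((ev_log (a := 8 / 1000) (b := 2) (by norm_num)).and
    (ev_exp (a := 101 / 100) (b := 1 / 8) (s := 11) (by norm_num) (by norm_num)))
  refine ⟨max 3 T₀, le_max_left _ _, fun T hT τ N c hN h1 h2 => ?_⟩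
  have hT3 : 3 ≤ T := (le_max_left _ _).trans hT
  have hT1 : 1 ≤ T := by linarith
  have hT0 : 0 < T := by linarith
  obtain ⟨e1, e2⟩ := hT₀ T ((le_max_right _ _).trans hT)
  have hL : 0 ≤ Real.log T := Real.log_nonneg hT1
  set Q : ℝ := T ^ (1 / 1000 : ℝ) with hQd
  set Y : ℝ := T ^ (89 / 100 : ℝ) with hYd
  have hQ : 0 ≤ Q := by positivity
  have hY : 0 < Y := by positivity
  set E : ℝ := Real.exp (-(1 / 8 * T ^ (101 / 100 : ℝ))) with hE
  have hE0 : 0 < E := Real.exp_pos _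
  have e3 : EG T τ (fun t => GB N c (fs (1 / 2 + t * I))) =
      ∑ p ∈ MSx.SS N, co c p * ∫ t : ℝ, cexp ((th p * t : ℝ) * I) ∂(gaussianReal τ (VV T)) := by
    simp only [GB_eq]
    unfold EG
    rw [integral_finsetSum]
    · refine Finset.sum_congr rfl fun p _ => ?_
      rw [integral_const_mul]
    · intro p _
      exact (integrable_char τ (VV T) (th p)).const_mul _
  have e4 : ∑ m ∈ Finset.Icc 1 N, c m m * (m : ℂ)⁻¹ =
      ∑ p ∈ MSx.SS N, co c p * (if p.1 = p.2 then 1 else 0) := by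
    unfold MSx.SS
    rw [Finset.sum_product]
    refine Finset.sum_congr rfl fun m hm => ?_
    have hm0 : (0 : ℝ) < m := by
      have := (Finset.mem_Icc.mp hm).1
      exact_mod_cast this
    rw [Finset.sum_eq_single m]
    · simp only [co, if_true, mul_one]
      congr 1
      have : ((m : ℝ) * m) ^ (-(1 / 2) : ℝ) = (m : ℝ)⁻¹ := by
        rw [← sq, ← Real.rpow_natCast, ← Real.rpow_mul hm0.le]
        norm_num
        exact Real.rpow_neg_one _
      rw [this]
      push_cast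
      rfl
    · intro n _ hn
      rw [if_neg (fun h => hn h.symm), mul_zero]
    · intro h
      exact absurd hm h
  rw [e3, e4, ← Finset.sum_sub_distrib]
  have key : ∀ p ∈ MSx.SS N, ‖co c p * (∫ t : ℝ, cexp ((th p * t : ℝ) * I) ∂(gaussianReal τ (VV T))) -
      co c p * (if p.1 = p.2 then 1 else 0)‖ ≤ Q * Y ^ (1 / 2 : ℝ) * E * wt p := by
    intro p hp
    obtain ⟨hp1, hp2⟩ := Finset.mem_product.mp hp
    have a1 := (Finset.mem_Icc.mp hp1).1
    have a2 := (Finset.mem_Icc.mp hp2).1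
    have hw : 0 ≤ Q * Y ^ (1 / 2 : ℝ) * E * wt p := by
      have := wt_nonneg p
      positivity
    by_cases hd : p.1 = p.2
    · have : th p = 0 := by unfold th; rw [hd, sub_self]
      rw [if_pos hd, this]
      simpa using hw
    · rw [if_neg hd, mul_zero, sub_zero, norm_mul, norm_gauss_char]
      by_cases hYp : Y < (p.1 : ℝ) * p.2
      · have : co c p = 0 := by unfold co; rw [h2 _ _ hYp, zero_mul]
        rw [this, norm_zero, zero_mul]
        exact hw
      push Not at hYp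
      have b1 : (0 : ℝ) < p.1 := by positivity
      have b2 : (0 : ℝ) < p.2 := by positivity
      have h3 := log_sep a2 a1 (Ne.symm hd)
      have h4 : 1 / (4 * Y) ≤ (th p) ^ 2 := by
        refine le_trans ?_ h3
        apply one_div_le_one_div_of_le (by positivity)
        nlinarith
      have h5 : Real.exp (-((VV T : ℝ) * (th p) ^ 2 / 2)) ≤ E := by
        rw [hE]
        apply Real.exp_le_exp.mpr
        rw [neg_le_neg_iff]
        have h6 : 1 / 8 * T ^ (101 / 100 : ℝ) = (VV T : ℝ) * (1 / (4 * Y)) / 2 := by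
          have : T ^ (19 / 10 : ℝ) = T ^ (101 / 100 : ℝ) * Y := by
            rw [hYd, ← Real.rpow_add hT0]
            norm_num
          rw [VV_coe hT0.le, this]
          field_simp
          ring
        rw [h6]
        gcongr
      have h6 := co_le hQ hY.le h1 h2 hp
      calc ‖co c p‖ * Real.exp (-((VV T : ℝ) * (th p) ^ 2 / 2))
          ≤ (Q * (Y ^ (1 / 2 : ℝ) * wt p)) * E := by
            have := wt_nonneg p
            gcongr
        _ = _ := by ring
  have hS := sum_wt N hT1 hN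
  have h3 : (1 + Real.log T) ^ 2 ≤ T ^ (8 / 1000 : ℝ) := by
    have : 1 ≤ (1 + Real.log T) ^ 2 := one_le_pow₀ (by linarith)
    nlinarith
  have h4 : Y ^ (1 / 2 : ℝ) = T ^ (445 / 1000 : ℝ) := by
    rw [hYd, ← Real.rpow_mul hT0.le]
    norm_num
  refine (norm_sum_le _ _).trans ((Finset.sum_le_sum key).trans ?_)
  rw [← Finset.mul_sum]
  have h5 : T ^ (-10 : ℝ) = T ^ (-11 : ℝ) * T ^ (1 : ℝ) := by
    rw [← Real.rpow_add hT0]
    norm_num
  have h6 : E ≤ T ^ (-11 : ℝ) := by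
    have h7 : T ^ (11 : ℝ) * T ^ (-11 : ℝ) = 1 := by
      rw [← Real.rpow_add hT0]
      norm_num
    have h8 : 0 < T ^ (11 : ℝ) := by positivity
    have h9 : T ^ (11 : ℝ) * E ≤ T ^ (11 : ℝ) * T ^ (-11 : ℝ) := by rw [h7]; exact e2
    exact le_of_mul_le_mul_left h9 h8
  have h7 : Q * Y ^ (1 / 2 : ℝ) * (1 + Real.log T) ^ 2 ≤ T ^ (1 : ℝ) := by
    calc Q * Y ^ (1 / 2 : ℝ) * (1 + Real.log T) ^ 2
        ≤ T ^ (1 / 1000 : ℝ) * T ^ (445 / 1000 : ℝ) * T ^ (8 / 1000 : ℝ) := by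
          rw [h4]; gcongr
      _ = T ^ (454 / 1000 : ℝ) := by
          rw [← Real.rpow_add hT0, ← Real.rpow_add hT0]
          norm_num
      _ ≤ T ^ (1 : ℝ) := Real.rpow_le_rpow_of_exponent_le hT1 (by norm_num)
  calc Q * Y ^ (1 / 2 : ℝ) * E * ∑ p ∈ MSx.SS N, wt p
      ≤ Q * Y ^ (1 / 2 : ℝ) * E * (1 + Real.log T) ^ 2 := by gcongr
    _ = E * (Q * Y ^ (1 / 2 : ℝ) * (1 + Real.log T) ^ 2) := by ring
    _ ≤ T ^ (-11 : ℝ) * T ^ (1 : ℝ) := by gcongr
    _ = T ^ (-10 : ℝ) := h5.symm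

end K5
end Pool.Agent.Lib.MP_973905_nt
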