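import Pool.Agent.Lib.MP_973905_nt.K5.Defs

/-! Statements (as propositions) of the modules of folder K5. -/

namespace Pool.Agent.Lib.MP_973905_nt
namespace K5

open MeasureTheory ProbabilityTheory Complex Filter Topology K1

/-! ### Part A: the long twisted second moment -/

/-- (A0) Cauchy's formula on a rectangle -/
def StRect : Prop := ∀ (f : ℂ → ℂ) (a b V : ℝ), 0 < a → 0 < b → 0 < V →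
    DifferentiableOn ℂ f {z : ℂ | -a ≤ z.re ∧ z.re ≤ b ∧ |z.im| ≤ V} →
    ((2 * Real.pi : ℝ) : ℂ) * f 0 =
      (∫ y : ℝ in (-V)..V, f ((b : ℂ) + y * I) / ((b : ℂ) + y * I)) -
      (∫ y : ℝ in (-V)..V, f (-(a : ℂ) + y * I) / (-(a : ℂ) + y * I)) -
      I * ((∫ x : ℝ in (-a)..b, f ((x : ℂ) - V * I) / ((x : ℂ) - V * I)) -
        ∫ x : ℝ in (-a)..b, f ((x : ℂ) + V * I) / ((x : ℂ) + V * I))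

/-- (A1) analyticity and growth of the shifted moment (compare `stStrip`) -/
def StStripH : Prop := (∀ (T τ B : ℝ) (H : ℝ → ℂ), 1 < T → Continuous H → (∀ t, ‖H t‖ ≤ B) →
      DifferentiableOn ℂ (FH T τ H) {a : ℂ | |a.re| < 1 / 4}) ∧
    ∃ C : ℝ, 0 < C ∧ ∀ T : ℝ, 3 ≤ T → ∀ τ : ℝ, |τ| ≤ 2 * T → ∀ (B : ℝ) (H : ℝ → ℂ), Continuous H →
      (∀ t, ‖H t‖ ≤ B) → ∀ a : ℂ, |a.re| ≤ 1 / 8 → ‖FH T τ H a‖ ≤ C * B * T ^ 4 * (1 + |a.im|) ^ 4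

/-- (A2) crude fourth moment to the right of the critical line -/
def StM4 : Prop := ∃ T₀ : ℝ, 3 ≤ T₀ ∧ ∀ T, T₀ ≤ T → ∀ τ : ℝ, |τ| ≤ 2 * T → ∀ δ : ℝ, 0 ≤ δ → δ ≤ 1 / 8 →
    EG T τ (fun t => ‖riemannZeta (((1 / 2 + δ : ℝ) : ℂ) + t * I)‖ ^ 4) ≤ T ^ (52 / 1000 : ℝ)

/-- (A3) the functional equation of the shifted moment -/
def StFE : Prop := ∃ T₀ : ℝ, 3 ≤ T₀ ∧ ∀ T, T₀ ≤ T → ∀ τ : ℝ, T / Real.log T ≤ |τ| → |τ| ≤ 3 / 2 * T →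
    ∀ H : ℝ → ℂ, Continuous H → (∀ t, ‖H t‖ ≤ T ^ 2) →
    EG T τ (fun t => ‖H t‖ ^ 2) ≤ T ^ (1 / 100 : ℝ) → ∀ w : ℂ, w.re = 1 / 200 → |w.im| ≤ Real.log T →
    ‖FH T τ H (-w) - ((|τ| / (2 * Real.pi) : ℝ) : ℂ) ^ (2 * w) * FH T τ H w‖ ≤ T ^ (-(7 / 1000) : ℝ)

/-- (A4) the moment on the critical line as an integral to the right of it -/
def StHalf : Prop := ∃ T₀ : ℝ, 3 ≤ T₀ ∧ ∀ T, T₀ ≤ T → ∀ τ : ℝ, T / Real.log T ≤ |τ| →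
    |τ| ≤ 3 / 2 * T → ∀ H : ℝ → ℂ, Continuous H → (∀ t, ‖H t‖ ≤ T ^ 2) →
    EG T τ (fun t => ‖H t‖ ^ 2) ≤ T ^ (1 / 100 : ℝ) →
    ‖FH T τ H 0 - ((1 / Real.pi : ℝ) : ℂ) * ∫ y : ℝ in (-Real.log T)..(Real.log T),
      KN (|τ| / (2 * Real.pi)) ((1 / 200 : ℝ) + y * I) * FH T τ H ((1 / 200 : ℝ) + y * I)‖ ≤
      T ^ (-(6 / 1000) : ℝ)

/-- (A5) moving the line of integration to the right -/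
def StMove : Prop := ∀ A : ℝ, 1 ≤ A → ∃ T₀ : ℝ, 3 ≤ T₀ ∧ ∀ T, T₀ ≤ T → ∀ τ : ℝ,
    T / Real.log T ≤ |τ| → |τ| ≤ 3 / 2 * T → ∀ H : ℝ → ℂ, Continuous H → (∀ t, ‖H t‖ ≤ T ^ 2) →
    ‖(∫ y : ℝ in (-Real.log T)..(Real.log T),
        KN (|τ| / (2 * Real.pi)) ((1 / 200 : ℝ) + y * I) * FH T τ H ((1 / 200 : ℝ) + y * I)) -
      ∫ y : ℝ in (-Real.log T)..(Real.log T),
        KN (|τ| / (2 * Real.pi)) ((A : ℝ) + y * I) * FH T τ H ((A : ℝ) + y * I)‖ ≤ T ^ (-1 : ℝ)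

/-- (A6) one pair of frequencies, far to the right -/
def StPairA : Prop := ∀ A : ℝ, 2 ≤ A → ∃ T₀ : ℝ, 3 ≤ T₀ ∧ ∀ T, T₀ ≤ T → ∀ τ : ℝ, ∀ m n : ℕ, 1 ≤ m →
    1 ≤ n → (m : ℝ) * n ≤ T ^ (89 / 100 : ℝ) → ∀ w : ℂ, w.re = A →
    ‖EG T τ (fun t => riemannZeta (1 / 2 + w + t * I) * riemannZeta (1 / 2 + w - t * I) *
        (fs (t * I) m * (starRingEnd ℂ) (fs (t * I) n))) -
      riemannZeta (1 + 2 * w) * ((m / m.gcd n * (n / m.gcd n) : ℕ) : ℂ) ^ (-(1 / 2 + w))‖ ≤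
      T ^ (-(201 / 200) * (A - 1) + 1 / 100 : ℝ)

/-- (A7) the main term -/
def StBack : Prop := ∀ A : ℝ, 1 ≤ A → ∃ T₀ : ℝ, 3 ≤ T₀ ∧ ∀ T, T₀ ≤ T → ∀ τ : ℝ,
    T / Real.log T ≤ |τ| → |τ| ≤ 3 / 2 * T → ∀ (N : ℕ) (c : ℕ → ℕ → ℂ), (N : ℝ) ≤ T →
    (∀ m n, ‖c m n‖ ≤ T ^ (1 / 1000 : ℝ)) → (∀ m n : ℕ, T ^ (89 / 100 : ℝ) < (m : ℝ) * n → c m n = 0) →
    ‖((1 / Real.pi : ℝ) : ℂ) * (∫ y : ℝ in (-Real.log T)..(Real.log T),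
        KN (|τ| / (2 * Real.pi)) ((A : ℝ) + y * I) *
          (riemannZeta (1 + 2 * ((A : ℝ) + y * I)) * RB N c ((A : ℝ) + y * I))) -
      (RB N c 0 * ((Real.log (|τ| / (2 * Real.pi)) + 2 * Real.eulerMascheroniConstant : ℝ) : ℂ) +
        deriv (RB N c) 0)‖ ≤ T ^ (-(1 / 50) : ℝ)

/-- (A8) mean square and size of our polynomials -/
def StMS : Prop := ∃ T₀ : ℝ, 3 ≤ T₀ ∧ ∀ T, T₀ ≤ T → ∀ τ : ℝ, ∀ (N : ℕ) (c : ℕ → ℕ → ℂ),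
    (N : ℝ) ≤ T → (∀ m n, ‖c m n‖ ≤ T ^ (1 / 1000 : ℝ)) →
    (∀ m n : ℕ, T ^ (89 / 100 : ℝ) < (m : ℝ) * n → c m n = 0) →
    EG T τ (fun t => ‖GB N c (fs (1 / 2 + t * I))‖ ^ 2) ≤ T ^ (1 / 100 : ℝ) ∧
    (∀ t : ℝ, ‖GB N c (fs (1 / 2 + t * I))‖ ≤ T) ∧ Continuous fun t : ℝ => GB N c (fs (1 / 2 + t * I))

/-- (A9) the long twisted second moment -/
def StLong : Prop := ∃ T₀ : ℝ, 3 ≤ T₀ ∧ ∀ T, T₀ ≤ T → ∀ τ : ℝ, T / Real.log T ≤ |τ| →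
    |τ| ≤ 3 / 2 * T → ∀ (N : ℕ) (c : ℕ → ℕ → ℂ), (N : ℝ) ≤ T →
    (∀ m n, ‖c m n‖ ≤ T ^ (1 / 1000 : ℝ)) → (∀ m n : ℕ, T ^ (89 / 100 : ℝ) < (m : ℝ) * n → c m n = 0) →
    ‖EG T τ (fun t => ((‖riemannZeta (1 / 2 + t * I)‖ ^ 2 : ℝ) : ℂ) * GB N c (fs (1 / 2 + t * I))) -
      (RB N c 0 * ((Real.log (|τ| / (2 * Real.pi)) + 2 * Real.eulerMascheroniConstant : ℝ) : ℂ) +
        deriv (RB N c) 0)‖ ≤ T ^ (-(5 / 1000) : ℝ)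

/-- (A10) the mean without zeta -/
def StMeanG : Prop := ∃ T₀ : ℝ, 3 ≤ T₀ ∧ ∀ T, T₀ ≤ T → ∀ τ : ℝ, ∀ (N : ℕ) (c : ℕ → ℕ → ℂ),
    (N : ℝ) ≤ T → (∀ m n, ‖c m n‖ ≤ T ^ (1 / 1000 : ℝ)) →
    (∀ m n : ℕ, T ^ (89 / 100 : ℝ) < (m : ℝ) * n → c m n = 0) →
    ‖EG T τ (fun t => GB N c (fs (1 / 2 + t * I))) - ∑ m ∈ Finset.Icc 1 N, c m m * (m : ℂ)⁻¹‖ ≤
      T ^ (-10 : ℝ)

/-! ### Part B: primes -/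

/-- (B1) Mertens' product -/
def StMertens : Prop := Tendsto (fun y : ℝ => (∏ p ∈ PS 0 y, (1 - 1 / (p : ℝ))⁻¹) / Real.log y) atTop
    (𝓝 (Real.exp Real.eulerMascheroniConstant))

/-- (B2) the arithmetic factor as a limit over finite products -/
def StAK : Prop := ∀ k : ℝ, 0 < k → k ≤ 1 → 0 < aK k ∧
    Tendsto (fun y : ℝ => (∏ p ∈ PS 0 y, Dl k ((p : ℝ) ^ (-(1 / 2) : ℝ))) /
      (Real.exp Real.eulerMascheroniConstant * Real.log y) ^ (k ^ 2)) atTop (𝓝 (aK k)) ∧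
    Tendsto (fun y : ℝ => (∏ p ∈ PS 0 y, (1 - 1 / (p : ℝ)) * Dl k ((p : ℝ) ^ (-(1 / 2) : ℝ))) /
      (Real.exp Real.eulerMascheroniConstant * Real.log y) ^ (k ^ 2 - 1)) atTop (𝓝 (aK k))

/-- (B3) shifted prime sums over long blocks -/
def StPrimeInt : Prop := ∀ lo hi : ℝ, 0 < lo → lo < hi → hi ≤ 1 → ∀ ε : ℝ, 0 < ε → ∃ T₀ : ℝ, 3 ≤ T₀ ∧
    ∀ T, T₀ ≤ T → ∀ u : ℂ, ‖u‖ ≤ 1 →
    ‖∑ p ∈ PS (Real.exp (lo * Real.log T)) (Real.exp (hi * Real.log T)),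
      (p : ℂ) ^ (-(1 + u / Real.log T)) - vv lo hi u‖ ≤ ε

/-- (B4) the Gaussian limit of one top block, with the Euler product and without -/
def StGaussBlock : Prop := ∀ lo hi s : ℝ, 0 < lo → lo < hi → hi ≤ 1 → ∀ n : ℕ, ∀ ε : ℝ, 0 < ε →
    ∃ T₀ : ℝ, 3 ≤ T₀ ∧ ∀ T, T₀ ≤ T → ∀ S : Finset ℕ,
    S = PS (Real.exp (lo * Real.log T)) (Real.exp (hi * Real.log T)) →
    (∀ u : ℂ, ‖u‖ ≤ 1 → ‖ES S (fun f => ZZ S (tw (1 / 2 + u / Real.log T) f) *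
        (starRingEnd ℂ) (ZZ S (tw (1 / 2 + (starRingEnd ℂ) (u / Real.log T)) f)) *
        (((((∑ p ∈ S, tw (1 / 2) f p).re - s) ^ n : ℝ)) : ℂ)) *
        ∏ p ∈ S, (1 - (p : ℂ) ^ (-(1 + u / Real.log T + u / Real.log T))) -
      mom n (vv lo hi u - s) ((Real.log (hi / lo) / 2 : ℝ) : ℂ)‖ ≤ ε) ∧
    |ES S (fun f => ((∑ p ∈ S, tw (1 / 2) f p).re - s) ^ n) - mom n (-s) (Real.log (hi / lo) / 2)| ≤ ε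

/-- (B5) the limits of the factors of the top blocks -/
def StTopLim : Prop := ∀ k : ℝ, 0 < k → k < 1 → ∀ i : ℕ, ∀ ε : ℝ, 0 < ε → ∃ T₀ : ℝ, 3 ≤ T₀ ∧
    ∀ T, T₀ ≤ T → (∀ u : ℂ, ‖u‖ ≤ 1 →
      ‖ETo T k (u / Real.log T) i - PhF k i (vv (tb (i + 1)) (tb i) u)‖ ≤ ε) ∧
    |ES (UB T i) (fun f => pg k i (Xb T i (tw (1 / 2) f))) - aG k i| ≤ ε

/-- (B6) facts on the limits -/
def StRho : Prop := ∀ k : ℝ, 0 < k → k < 1 → (∀ M, Differentiable ℂ (rhoF k M)) ∧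
    (∀ M, rhoF k M 0 = ((∏ i ∈ Finset.range (M - 2), aF k i : ℝ) : ℂ)) ∧
    (∀ M, (deriv (rhoF k M) 0).re ≤ 2 * (1 - k) * tb 0 * ∏ i ∈ Finset.range (M - 2), aF k i) ∧
    ∃ C : ℝ, 1 ≤ C ∧ (∀ i, C⁻¹ ≤ aF k i ∧ aF k i ≤ C ∧ C⁻¹ ≤ aG k i ∧ aG k i ≤ C) ∧
      (∀ i, ∀ u : ℂ, ‖u‖ ≤ 1 → ‖PhF k i (vv (tb (i + 1)) (tb i) u)‖ ≤ C) ∧
      ∀ M, ∀ u : ℂ, ‖u‖ ≤ 1 → ‖rhoF k M u‖ ≤ C * ∏ i ∈ Finset.range (M - 2), aF k i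

/-- (B7) the local factor is Lipschitz in the shifts -/
def StLFLip : Prop := ∃ C : ℝ, 0 < C ∧ ∀ (u x : ℝ) (x₁ x₂ : ℂ), 0 ≤ u → u ≤ 1 → 0 ≤ x →
    x ≤ 7072 / 10000 → ‖x₁ - x‖ ≤ x / 50 → ‖x₂ - x‖ ≤ x / 50 →
    ‖(1 - x₁ * x₂) * LF u x x₁ x₂ - (1 - (x : ℂ) * x) * LF u x x x‖ ≤
      C * x * (‖x₁ - x‖ + ‖x₂ - x‖)

/-- (B8) the bottom blocks, main term -/
def StBotMain : Prop := ∀ k : ℝ, 0 < k → k < 1 → ∀ η : ℝ, 0 < η → ∃ M₀ : ℕ, ∀ M : ℕ, M₀ ≤ M →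
    ∃ T₀ : ℝ, 3 ≤ T₀ ∧ ∀ T, T₀ ≤ T → ∀ w : ℂ, ‖w‖ ≤ 1 / Real.log T →
    ‖(∏ j ∈ Finset.range (JJ T + 1), EBo T M k (Finset.range (JJ T + 1)) ∅ w j) -
      ((aK k * lM T M ^ (k ^ 2 - 1) : ℝ) : ℂ)‖ ≤ η * (aK k * lM T M ^ (k ^ 2 - 1))

/-- (B9) the bottom blocks, crude bound with bad blocks -/
def StBotCrude : Prop := ∀ k : ℝ, 0 < k → k < 1 → ∃ C : ℝ, 0 < C ∧ ∃ M₀ : ℕ, ∀ M : ℕ, M₀ ≤ M →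
    ∃ T₀ : ℝ, 3 ≤ T₀ ∧ ∀ T, T₀ ≤ T → ∀ g h : Finset ℕ, g ∪ h = Finset.range (JJ T + 1) →
    ∀ w : ℂ, ‖w‖ ≤ 1 / Real.log T →
    ‖∏ j ∈ Finset.range (JJ T + 1), EBo T M k g h w j‖ ≤
      Real.exp (C * M) * Real.log T ^ (k ^ 2 - 1) * ∏ j ∈ h, ss M (JJ T) j

/-- (B10) the bottom blocks without zeta -/
def StBotG : Prop := ∀ k : ℝ, 0 < k → k < 1 → (∀ η : ℝ, 0 < η → ∃ M₀ : ℕ, ∀ M : ℕ, M₀ ≤ M →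
      ∃ T₀ : ℝ, 3 ≤ T₀ ∧ ∀ T, T₀ ≤ T →
      ∏ j ∈ Finset.range (JJ T + 1), ES (Sj T M (JJ T) j) (fun f =>
        ‖Fc T M (JJ T) k (Finset.range (JJ T + 1)) ∅ j (tw (1 / 2) f)‖ ^ 2) ≤
        (1 + η) * (aK k * lM T M ^ (k ^ 2))) ∧
    ∃ C : ℝ, 0 < C ∧ ∃ M₀ : ℕ, ∀ M : ℕ, M₀ ≤ M → ∃ T₀ : ℝ, 3 ≤ T₀ ∧ ∀ T, T₀ ≤ T →
      ∀ g h : Finset ℕ, g ∪ h = Finset.range (JJ T + 1) →
      ∏ j ∈ Finset.range (JJ T + 1), ES (Sj T M (JJ T) j) (fun f =>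
        ‖Fc T M (JJ T) k g h j (tw (1 / 2) f)‖ ^ 2) ≤
        Real.exp (C * M) * Real.log T ^ (k ^ 2) * ∏ j ∈ h, ss M (JJ T) j

/-- (B11) our products belong to the class -/
def StBQ : Prop := ∀ k : ℝ, 0 < k → k < 1 → ∃ M₀ : ℕ, ∀ M : ℕ, M₀ ≤ M → ∃ T₀ : ℝ, 3 ≤ T₀ ∧
    ∀ T, T₀ ≤ T → ∀ g h : Finset ℕ,
    BQ (T ^ (89 / 100 : ℝ)) (T ^ (1 / 1000 : ℝ)) (fun f =>
      ((‖AA T M (JJ T) (k - 1) g h f‖ ^ 2 * TF k T M f : ℝ) : ℂ)) ∧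
    BQ (T ^ (89 / 100 : ℝ)) (T ^ (1 / 1000 : ℝ)) (fun f =>
      ((‖AA T M (JJ T) k g h f‖ ^ 2 * TG k T M f : ℝ) : ℂ))

/-- (B12) the arithmetic factor is a product over the blocks -/
def StFact : Prop := ∀ (k : ℝ) (M : ℕ), 3 ≤ M → ∃ T₀ : ℝ, 3 ≤ T₀ ∧ ∀ T, T₀ ≤ T →
    ∀ g h : Finset ℕ, ∀ (N : ℕ) (c : ℕ → ℕ → ℂ), (N : ℝ) ≤ T →
    ((∀ f, CMul f → ((‖AA T M (JJ T) (k - 1) g h f‖ ^ 2 * TF k T M f : ℝ) : ℂ) = GB N c f) →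
      ∀ w : ℂ, ‖w‖ ≤ 1 / Real.log T → RB N c w =
        (∏ j ∈ Finset.range (JJ T + 1), EBo T M k g h w j) *
          ∏ i ∈ Finset.range (M - 2), ETo T k w i) ∧
    ((∀ f, CMul f → ((‖AA T M (JJ T) k g h f‖ ^ 2 * TG k T M f : ℝ) : ℂ) = GB N c f) →
      ∑ m ∈ Finset.Icc 1 N, c m m * (m : ℂ)⁻¹ =
        (((∏ j ∈ Finset.range (JJ T + 1), ES (Sj T M (JJ T) j) (fun f =>
          ‖Fc T M (JJ T) k g h j (tw (1 / 2) f)‖ ^ 2)) *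
          ∏ i ∈ Finset.range (M - 2), ES (UB T i) (fun f => pg k i (Xb T i (tw (1 / 2) f))) : ℝ) : ℂ))

/-! ### Part C: assembly -/

/-- (C1) the pointwise inequality for the top blocks -/
def StPoint : Prop := ∀ (k : ℝ) (i : ℕ) (x : ℝ), 0 < k → k < 1 → 0 < pf k i x ∧ 0 < pg k i x ∧
    1 ≤ pf k i x ^ k * pg k i x ^ (1 - k)

/-- (C2) the side of zeta -/
def StSecF : Prop := ∀ k : ℝ, 0 < k → k < 1 → (∀ η : ℝ, 0 < η → ∃ M₀ : ℕ, ∀ M : ℕ, M₀ ≤ M →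
      ∃ T₀ : ℝ, 3 ≤ T₀ ∧ ∀ T, T₀ ≤ T → ∀ τ : ℝ, T / Real.log T ≤ |τ| → |τ| ≤ 3 / 2 * T →
      EG T τ (fun t => ‖riemannZeta (1 / 2 + t * I)‖ ^ 2 *
        (‖NN T M (k - 1) (fs (1 / 2 + t * I))‖ ^ 2 * TF k T M (fs (1 / 2 + t * I)))) ≤
        aK k * lM T M ^ (k ^ 2 - 1) * Real.log T * (∏ i ∈ Finset.range (M - 2), aF k i) *
          (1 + 2 * (1 - k) * tb 0 + η)) ∧
    ∃ C κ : ℝ, 0 < C ∧ 0 < κ ∧ ∃ M₀ : ℕ, ∀ M : ℕ, M₀ ≤ M → ∃ T₀ : ℝ, 3 ≤ T₀ ∧ ∀ T, T₀ ≤ T →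
      ∀ τ : ℝ, T / Real.log T ≤ |τ| → |τ| ≤ 3 / 2 * T → ∀ g h : Finset ℕ,
      g ∪ h = Finset.range (JJ T + 1) →
      EG T τ (fun t => ‖riemannZeta (1 / 2 + t * I)‖ ^ 2 *
        (‖AA T M (JJ T) (k - 1) g h (fs (1 / 2 + t * I))‖ ^ 2 * TF k T M (fs (1 / 2 + t * I)))) ≤
        Real.exp (C * M) * Real.log T ^ (k ^ 2) * ∏ j ∈ h, ss M (JJ T) j + T ^ (-κ)

/-- (C3) the side without zeta -/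
def StSecG : Prop := ∀ k : ℝ, 0 < k → k < 1 → (∀ η : ℝ, 0 < η → ∃ M₀ : ℕ, ∀ M : ℕ, M₀ ≤ M →
      ∃ T₀ : ℝ, 3 ≤ T₀ ∧ ∀ T, T₀ ≤ T → ∀ τ : ℝ,
      EG T τ (fun t => ‖NN T M k (fs (1 / 2 + t * I))‖ ^ 2 * TG k T M (fs (1 / 2 + t * I))) ≤
        (1 + η) * (aK k * lM T M ^ (k ^ 2) * ∏ i ∈ Finset.range (M - 2), aG k i)) ∧
    ∃ C κ : ℝ, 0 < C ∧ 0 < κ ∧ ∃ M₀ : ℕ, ∀ M : ℕ, M₀ ≤ M → ∃ T₀ : ℝ, 3 ≤ T₀ ∧ ∀ T, T₀ ≤ T →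
      ∀ τ : ℝ, ∀ g h : Finset ℕ, g ∪ h = Finset.range (JJ T + 1) →
      EG T τ (fun t => ‖AA T M (JJ T) k g h (fs (1 / 2 + t * I))‖ ^ 2 *
        TG k T M (fs (1 / 2 + t * I))) ≤
        Real.exp (C * M) * Real.log T ^ (k ^ 2) * ∏ j ∈ h, ss M (JJ T) j + T ^ (-κ)

/-- (C4) upper bound for the Gaussian means -/
def StHold : Prop := ∀ k : ℝ, 0 < k → k < 1 → ∀ ε : ℝ, 0 < ε → ∃ M₁ : ℕ, ∀ M : ℕ, M₁ ≤ M →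
    ∃ T₀ : ℝ, 3 ≤ T₀ ∧ ∀ T, T₀ ≤ T → ∀ τ : ℝ, T / Real.log T ≤ |τ| → |τ| ≤ 3 / 2 * T →
    EG T τ (fun t => ‖riemannZeta (1 / 2 + t * I)‖ ^ (2 * k)) ≤
      (1 + ε) * (aK k * Real.log T ^ (k ^ 2) *
        (Real.exp ((M - Real.eulerMascheroniConstant) * (k * (1 - k))) *
        ((∏ i ∈ Finset.range (M - 2), aF k i) * (1 + 2 * (1 - k) * tb 0)) ^ k *
        (∏ i ∈ Finset.range (M - 2), aG k i) ^ (1 - k)))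

/-! ### Part N: numbers -/

/-- (N1) the Barnes quotient -/
def StG : Prop := ∀ k : ℝ, 0 < k → k < 1 → 1 ≤ barnesG (k + 1) ^ 2 / barnesG (2 * k + 1) ∧
    (k ≤ 7 / 10 → Real.exp (17 / 20 * (k ^ 2 * (1 - k))) ≤ barnesG (k + 1) ^ 2 / barnesG (2 * k + 1)) ∧
    (k ≤ 3 / 4 → Real.exp (1 / 2 * (k ^ 2 * (1 - k))) ≤ barnesG (k + 1) ^ 2 / barnesG (2 * k + 1))

/-- the loss of one top block -/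
noncomputable def lam (k : ℝ) (i : ℕ) : ℝ :=
  k * Real.log (aF k i) + (1 - k) * Real.log (aG k i) + k * (1 - k) * Vv i

/-- (N2) the top block -/
def StLam0 : Prop := ∀ k : ℝ, 0 < k → k ≤ 1 / 2 → lam k 0 ≤ k * (1 - k) * (145 / 1000 - 184 / 1000 * k)

/-- (N3) the second block -/
def StLam1 : Prop := ∀ k : ℝ, 0 < k → k ≤ 1 / 2 → lam k 1 ≤ k * (1 - k) * (219 / 1000 - 274 / 1000 * k)

/-- (N4) the third block -/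
def StLam2 : Prop := ∀ k : ℝ, 0 < k → k ≤ 1 / 2 → lam k 2 ≤ k * (1 - k) * (106 / 1000 - 192 / 1000 * k)

/-- (N5) the other blocks -/
def StLam3 : Prop := ∀ k : ℝ, 0 < k → k ≤ 1 / 2 → ∀ n : ℕ,
    ∑ i ∈ Finset.range n, lam k (i + 3) ≤ k * (1 - k) * (50 / 1000 - 90 / 1000 * k)

/-- (N6) symmetry -/
def StSym : Prop := ∀ k : ℝ, 0 < k → k < 1 → ∀ i : ℕ, lam (1 - k) i = lam k i

/-- (N7) all the numbers together -/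
def StNum : Prop := ∀ k : ℝ, 0 < k → k < 1 → ∀ M : ℕ, 6 ≤ M →
    Real.exp ((M - Real.eulerMascheroniConstant) * (k * (1 - k))) *
        ((∏ i ∈ Finset.range (M - 2), aF k i) * (1 + 2 * (1 - k) * tb 0)) ^ k *
        (∏ i ∈ Finset.range (M - 2), aG k i) ^ (1 - k) ≤
      CC k * (barnesG (k + 1) ^ 2 / barnesG (2 * k + 1))

/-! ### the theorem -/

/-- (F) the upper bound for every fixed order between 0 and 1 -/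
def StFinal5 : Prop := ∀ k : ℝ, 0 < k → k < 1 → ∀ ε : ℝ, 0 < ε → ∃ T₀ : ℝ, 3 ≤ T₀ ∧ ∀ T, T₀ ≤ T →
    (T⁻¹ * ∫ t in (0 : ℝ)..T, ‖riemannZeta (1 / 2 + t * I)‖ ^ (2 * k)) /
      (cK k * (Real.log T) ^ (k ^ 2)) ≤ CC k + ε

end K5
end Pool.Agent.Lib.MP_973905_nt
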