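import Pool.Agent.Lib.MP_973905_nt.PrimeSum
import Pool.Agent.Lib.MP_973905_nt.K5.Stmts

/-! Mertens' third theorem, `∏_{p ≤ y} (1 - 1/p)⁻¹ ~ e^γ log y`, by an Abelian argument. -/

namespace Pool.Agent.Lib.MP_973905_nt
namespace K5
namespace MertensAux

open MeasureTheory Filter Topology Set

/-- the sum of `1/p` over the primes up to `y` -/
noncomputable def SS (y : ℝ) : ℝ := ∑ p ∈ PS 0 y, (1 : ℝ) / p

lemma SS_split {y x : ℝ} (hyx : y ≤ x) : SS x = SS y + ∑ p ∈ PS y x, (1 : ℝ) / p := by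
  have h1 : PS 0 x = PS 0 y ∪ PS y x := by
    unfold PS
    rw [Nat.floor_zero, ← Finset.filter_union,
      Finset.Ioc_union_Ioc_eq_Ioc (Nat.zero_le _) (Nat.floor_mono hyx)]
  have h2 : Disjoint (PS 0 y) (PS y x) := by
    unfold PS
    rw [Finset.disjoint_left]
    intro p hp hq
    simp only [Finset.mem_filter, Finset.mem_Ioc] at hp hq
    omega
  unfold SS
  rw [h1, Finset.sum_union h2]

lemma SS_mono : Monotone SS := by
  intro y x hyx
  rw [SS_split hyx]
  have : 0 ≤ ∑ p ∈ PS y x, (1 : ℝ) / p := Finset.sum_nonneg fun p _ => by positivity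
  linarith

lemma exists_B : ∃ B : ℝ, Tendsto (fun y : ℝ => SS y - Real.log (Real.log y)) atTop (𝓝 B) := by
  apply cauchySeq_tendsto_of_complete
  rw [Metric.cauchySeq_iff']
  intro ε hε
  set N : ℝ := Real.exp (10 / ε + 1) with hN
  have hlN : Real.log N = 10 / ε + 1 := by rw [hN, Real.log_exp]
  have h10 : 0 < 10 / ε := by positivity
  have hN2 : 2 ≤ N := by
    have h1 : Real.exp 1 ≤ N := Real.exp_le_exp.2 (by linarith)
    have h2 := Real.exp_one_gt_d9
    linarith
  refine ⟨N, fun n hn => ?_⟩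
  have h1 := PrimeSum.range_bound N n hN2 hn
  have hlN0 : 0 < Real.log N := by rw [hlN]; linarith
  have hln : 0 < Real.log n := Real.log_pos (by linarith [hn])
  rw [Real.log_div hln.ne' hlN0.ne'] at h1
  rw [Real.dist_eq, SS_split (show N ≤ n from hn)]
  have h3 : SS N + ∑ p ∈ PS N n, (1 : ℝ) / p - Real.log (Real.log n) -
      (SS N - Real.log (Real.log N)) = ∑ p ∈ PS N n, (1 : ℝ) / p -
        (Real.log (Real.log n) - Real.log (Real.log N)) := by ring
  rw [h3]
  refine lt_of_le_of_lt h1 ?_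
  rw [hlN, div_lt_iff₀ (by linarith)]
  have : ε * (10 / ε + 1) = 10 + ε := by field_simp
  linarith

/-! ### the Gamma integral -/

lemma integral_exp_log : ∫ u in Ioi (0 : ℝ), Real.exp (-u) * Real.log u =
    -Real.eulerMascheroniConstant := by
  have h1 : HasDerivAt Complex.GammaIntegral
      (∫ t : ℝ in Ioi 0, (t : ℂ) ^ ((1 : ℂ) - 1) * (Real.log t * Real.exp (-t))) 1 :=
    Complex.hasDerivAt_GammaIntegral (by simp)
  have h2 : HasDerivAt Complex.Gamma (-(Real.eulerMascheroniConstant : ℂ)) 1 :=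
    Complex.hasDerivAt_Gamma_one
  have h3 : Complex.Gamma =ᶠ[𝓝 1] Complex.GammaIntegral := by
    have h4 : ∀ᶠ s : ℂ in 𝓝 1, 0 < s.re :=
      (Complex.continuous_re.tendsto 1).eventually (lt_mem_nhds (by simp))
    filter_upwards [h4] with s hs
    exact Complex.Gamma_eq_integral hs
  have h5 := (h2.congr_of_eventuallyEq h3.symm).unique h1
  have h6 : (∫ t : ℝ in Ioi 0, (t : ℂ) ^ ((1 : ℂ) - 1) * (Real.log t * Real.exp (-t))) =
      ((∫ u in Ioi (0 : ℝ), Real.exp (-u) * Real.log u : ℝ) : ℂ) := by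
    rw [← integral_complex_ofReal]
    refine integral_congr_ae (Eventually.of_forall fun t => ?_)
    simp only [sub_self, Complex.cpow_zero, one_mul, Complex.ofReal_mul]
    ring
  rw [h6] at h5
  have h7 : ((∫ u in Ioi (0 : ℝ), Real.exp (-u) * Real.log u : ℝ) : ℂ) =
      ((-Real.eulerMascheroniConstant : ℝ) : ℂ) := by
    rw [← h5]; push_cast; rfl
  exact Complex.ofReal_injective h7

lemma log_abs_le {u : ℝ} (hu : 0 < u) : |Real.log u| ≤ u + 2 * u ^ ((1 / 2 : ℝ) - 1) := by
  have hp : 0 < u ^ ((1 / 2 : ℝ) - 1) := Real.rpow_pos_of_pos hu _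
  rw [abs_le]
  constructor
  · have h1 := Real.log_le_sub_one_of_pos hp
    rw [Real.log_rpow hu] at h1
    linarith
  · have h1 := Real.log_le_sub_one_of_pos hu
    linarith

lemma integrable_exp_abs (C : ℝ) :
    IntegrableOn (fun u : ℝ => Real.exp (-u) * (|Real.log u| + C)) (Ioi 0) := by
  have h1 := Real.GammaIntegral_convergent (s := 1 / 2) (by norm_num)
  have h2 := Real.GammaIntegral_convergent (s := 2) (by norm_num)
  have h3 := integrableOn_exp_neg_Ioi (0 : ℝ)
  have h4 : IntegrableOn (fun u : ℝ => Real.exp (-u) * |Real.log u|) (Ioi 0) := by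
    refine Integrable.mono' ((h2.add (h1.const_mul 2))) ?_ ?_
    · exact ((Real.measurable_exp.comp measurable_neg).mul
        (continuous_abs.measurable.comp Real.measurable_log)).aestronglyMeasurable
    · refine (ae_restrict_mem measurableSet_Ioi).mono fun u hu => ?_
      have hu0 : (0 : ℝ) < u := hu
      have h5 := log_abs_le hu0
      have h6 : u ^ ((2 : ℝ) - 1) = u := by norm_num
      have h7 := Real.exp_pos (-u)
      simp only [Pi.add_apply]
      rw [Real.norm_of_nonneg (by positivity), h6]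
      nlinarith
  refine (h4.add (h3.mul_const C)).congr ?_
  refine Eventually.of_forall fun u => ?_
  simp only [Pi.add_apply]
  ring

lemma integrable_exp_log : IntegrableOn (fun u : ℝ => Real.exp (-u) * Real.log u) (Ioi 0) := by
  refine Integrable.mono' (integrable_exp_abs 0) ?_ ?_
  · exact ((Real.measurable_exp.comp measurable_neg).mul Real.measurable_log).aestronglyMeasurable
  · refine Eventually.of_forall fun u => ?_
    rw [norm_mul, Real.norm_of_nonneg (Real.exp_pos _).le, Real.norm_eq_abs, add_zero]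

/-! ### dominated convergence -/

lemma SS_lt_two {y : ℝ} (hy : y < 2) : SS y = 0 := by
  unfold SS
  have : PS 0 y = ∅ := by
    unfold PS
    rw [Finset.filter_eq_empty_iff]
    intro p hp hpp
    rw [Finset.mem_Ioc] at hp
    have h1 : ⌊y⌋₊ < 2 := (Nat.floor_lt' (by norm_num)).2 (by exact_mod_cast hy)
    have := hpp.two_le
    omega
  rw [this, Finset.sum_empty]

lemma tendsto_int {B : ℝ} (hB : Tendsto (fun y : ℝ => SS y - Real.log (Real.log y)) atTop (𝓝 B)) :
    Tendsto (fun δ : ℝ => ∫ u in Ioi (0 : ℝ), Real.exp (-u) * (SS (Real.exp (u / δ)) + Real.log δ))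
      (𝓝[>] 0) (𝓝 (∫ u in Ioi (0 : ℝ), Real.exp (-u) * (Real.log u + B))) := by
  obtain ⟨C, hC, hS⟩ := sum_inv
  refine tendsto_integral_filter_of_dominated_convergence
    (fun u => Real.exp (-u) * (|Real.log u| + C)) ?_ ?_ (integrable_exp_abs C) ?_
  · refine Eventually.of_forall fun δ => ?_
    exact ((Real.measurable_exp.comp measurable_neg).mul
      ((SS_mono.measurable.comp (Real.measurable_exp.comp (measurable_id.div_const δ))).add_const
        _)).aestronglyMeasurable
  · have h1 : ∀ᶠ δ : ℝ in 𝓝[>] 0, δ < 1 := by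
      refine mem_nhdsWithin_of_mem_nhds (Iio_mem_nhds (by norm_num))
    filter_upwards [h1, self_mem_nhdsWithin] with δ hδ1 hδ0
    have hδ0' : (0 : ℝ) < δ := hδ0
    refine (ae_restrict_mem measurableSet_Ioi).mono fun u hu => ?_
    have hu0 : (0 : ℝ) < u := hu
    rw [norm_mul, Real.norm_of_nonneg (Real.exp_pos _).le, Real.norm_eq_abs]
    refine mul_le_mul_of_nonneg_left ?_ (Real.exp_pos _).le
    rcases le_or_gt 2 (Real.exp (u / δ)) with h2 | h2
    · have h3 := hS _ h2
      rw [Real.log_exp, Real.log_div hu0.ne' hδ0'.ne'] at h3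
      have h4 : SS (Real.exp (u / δ)) + Real.log δ =
          (∑ p ∈ PS 0 (Real.exp (u / δ)), (1 : ℝ) / p - (Real.log u - Real.log δ)) + Real.log u := by
        unfold SS; ring
      rw [h4]
      calc _ ≤ |∑ p ∈ PS 0 (Real.exp (u / δ)), (1 : ℝ) / p - (Real.log u - Real.log δ)| +
            |Real.log u| := abs_add_le _ _
        _ ≤ _ := by linarith
    · rw [SS_lt_two h2, zero_add]
      have h3 : u / δ < 1 := by
        have h4 : u / δ < Real.log 2 := by
          rw [← Real.log_exp (u / δ)]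
          exact Real.log_lt_log (Real.exp_pos _) h2
        have := Real.log_two_lt_d9
        linarith
      have h4 : u < δ := by rwa [div_lt_one hδ0'] at h3
      have h5 : Real.log u < Real.log δ := Real.log_lt_log hu0 h4
      have h6 : Real.log δ < 0 := Real.log_neg hδ0' hδ1
      rw [abs_of_neg h6, abs_of_neg (h5.trans h6)]
      linarith
  · refine (ae_restrict_mem measurableSet_Ioi).mono fun u hu => ?_
    have hu0 : (0 : ℝ) < u := hu
    refine Tendsto.const_mul _ ?_
    have h1 : Tendsto (fun δ : ℝ => Real.exp (u / δ)) (𝓝[>] 0) atTop := by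
      refine Real.tendsto_exp_atTop.comp ?_
      have : Tendsto (fun δ : ℝ => u * δ⁻¹) (𝓝[>] 0) atTop :=
        Tendsto.const_mul_atTop hu0 tendsto_inv_nhdsGT_zero
      exact this.congr fun δ => (div_eq_mul_inv u δ).symm
    have h2 := ((hB.comp h1).add_const (Real.log u))
    have h3 : B + Real.log u = Real.log u + B := by ring
    rw [h3] at h2
    refine h2.congr' ?_
    filter_upwards [self_mem_nhdsWithin] with δ hδ0
    have hδ0' : (0 : ℝ) < δ := hδ0
    simp only [Function.comp_apply]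
    rw [Real.log_exp, Real.log_div hu0.ne' hδ0'.ne']
    ring

/-! ### the prime zeta function -/

/-- the terms of the prime zeta function -/
noncomputable def pt (δ : ℝ) (n : ℕ) : ℝ := if n.Prime then (n : ℝ) ^ (-(1 + δ)) else 0

lemma pt_nonneg (δ : ℝ) (n : ℕ) : 0 ≤ pt δ n := by
  unfold pt; split_ifs
  · positivity
  · rfl

lemma pt_summable {δ : ℝ} (hδ : 0 < δ) : Summable (pt δ) := by
  refine Summable.of_nonneg_of_le (pt_nonneg δ) (fun n => ?_)
    (Real.summable_nat_rpow.2 (show -(1 + δ) < -1 by linarith))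
  unfold pt; split_ifs
  · exact le_rfl
  · positivity

/-- the pieces of the integral -/
noncomputable def Gn (δ : ℝ) (n : ℕ) (u : ℝ) : ℝ :=
  if n.Prime then (Ici (δ * Real.log n)).indicator (fun u => Real.exp (-u) * (1 / (n : ℝ))) u else 0

lemma Gn_nonneg (δ : ℝ) (n : ℕ) (u : ℝ) : 0 ≤ Gn δ n u := by
  unfold Gn; split_ifs
  · exact indicator_nonneg (fun u _ => by positivity) u
  · rfl

lemma Gn_integrable {δ : ℝ} (n : ℕ) : IntegrableOn (Gn δ n) (Ioi 0) := by
  unfold Gn
  by_cases hn : n.Prime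
  · simp only [hn, if_true]
    exact ((integrableOn_exp_neg_Ioi (0 : ℝ)).mul_const _).indicator measurableSet_Ici
  · simp only [hn, if_false]
    exact integrableOn_zero

lemma Gn_integral {δ : ℝ} (hδ : 0 < δ) (n : ℕ) : ∫ u in Ioi (0 : ℝ), Gn δ n u = pt δ n := by
  unfold Gn pt
  by_cases hn : n.Prime
  · simp only [hn, if_true]
    have hn1 : (1 : ℝ) < n := by exact_mod_cast hn.one_lt
    have hl : 0 < Real.log n := Real.log_pos hn1
    have ha : 0 < δ * Real.log n := by positivity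
    rw [setIntegral_indicator measurableSet_Ici]
    have h1 : Ioi (0 : ℝ) ∩ Ici (δ * Real.log n) = Ici (δ * Real.log n) := by
      rw [inter_eq_right]
      intro x hx
      exact lt_of_lt_of_le ha hx
    have h2 : Real.exp (-(δ * Real.log n)) * (1 / (n : ℝ)) = (n : ℝ) ^ (-(1 + δ)) := by
      rw [Real.rpow_def_of_pos (by linarith : (0 : ℝ) < n)]
      have h3 : (1 / (n : ℝ)) = Real.exp (-Real.log n) := by
        rw [Real.exp_neg, Real.exp_log (by linarith)]; ring
      rw [h3, ← Real.exp_add]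
      ring_nf
    rw [h1, integral_Ici_eq_integral_Ioi, integral_mul_const, integral_exp_neg_Ioi, h2]
  · simp only [hn, if_false, integral_zero]

lemma Gn_sum {δ : ℝ} (hδ : 0 < δ) {u : ℝ} (_hu : 0 < u) :
    ∑' n, Gn δ n u = Real.exp (-u) * SS (Real.exp (u / δ)) := by
  have hfl : ∀ n : ℕ, n.Prime → (n ∈ PS 0 (Real.exp (u / δ)) ↔ δ * Real.log n ≤ u) := by
    intro n hn
    have hn0 : (0 : ℝ) < n := by exact_mod_cast hn.pos
    unfold PS
    rw [Finset.mem_filter, Finset.mem_Ioc, Nat.floor_zero,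
      Nat.le_floor_iff (Real.exp_pos _).le, ← Real.log_le_iff_le_exp hn0, le_div_iff₀ hδ,
      mul_comm δ]
    exact ⟨fun h => h.1.2, fun h => ⟨⟨hn.pos, h⟩, hn⟩⟩
  rw [tsum_eq_sum (s := PS 0 (Real.exp (u / δ)))]
  · unfold SS
    rw [Finset.mul_sum]
    refine Finset.sum_congr rfl fun n hn => ?_
    have hp : n.Prime := (Finset.mem_filter.1 hn).2
    unfold Gn
    rw [if_pos hp]
    exact indicator_of_mem (mem_Ici.2 ((hfl n hp).1 hn)) _
  · intro n hn
    unfold Gn
    split_ifs with hp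
    · rw [indicator_of_notMem]
      intro h
      exact hn ((hfl n hp).2 h)
    · rfl

lemma int_eq {δ : ℝ} (hδ : 0 < δ) :
    ∫ u in Ioi (0 : ℝ), Real.exp (-u) * SS (Real.exp (u / δ)) = ∑' n, pt δ n := by
  have h1 := hasSum_integral_of_summable_integral_norm (F := Gn δ) (μ := volume.restrict (Ioi 0))
    (fun n => Gn_integrable n) (by
      have : (fun n : ℕ => ∫ u in Ioi (0 : ℝ), ‖Gn δ n u‖) = pt δ := by
        funext n
        rw [← Gn_integral hδ n]
        refine integral_congr_ae (Eventually.of_forall fun u => ?_)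
        exact Real.norm_of_nonneg (Gn_nonneg δ n u)
      rw [this]
      exact pt_summable hδ)
  have h2 : ∫ u in Ioi (0 : ℝ), ∑' n, Gn δ n u =
      ∫ u in Ioi (0 : ℝ), Real.exp (-u) * SS (Real.exp (u / δ)) :=
    setIntegral_congr_fun measurableSet_Ioi fun u hu => Gn_sum hδ hu
  rw [← h2, ← h1.tsum_eq]
  exact tsum_congr fun n => Gn_integral hδ n

lemma integrable_SS {δ : ℝ} (hδ : 0 < δ) :
    IntegrableOn (fun u : ℝ => Real.exp (-u) * SS (Real.exp (u / δ))) (Ioi 0) := by
  obtain ⟨C, hC, hS⟩ := sum_inv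
  refine Integrable.mono' (integrable_exp_abs (C + |Real.log δ|)) ?_ ?_
  · exact ((Real.measurable_exp.comp measurable_neg).mul
      (SS_mono.measurable.comp (Real.measurable_exp.comp
        (measurable_id.div_const δ)))).aestronglyMeasurable
  · refine (ae_restrict_mem measurableSet_Ioi).mono fun u hu => ?_
    have hu0 : (0 : ℝ) < u := hu
    rw [norm_mul, Real.norm_of_nonneg (Real.exp_pos _).le, Real.norm_eq_abs]
    refine mul_le_mul_of_nonneg_left ?_ (Real.exp_pos _).le
    rcases le_or_gt 2 (Real.exp (u / δ)) with h2 | h2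
    · have h3 := hS _ h2
      rw [Real.log_exp, Real.log_div hu0.ne' hδ.ne'] at h3
      have h4 : SS (Real.exp (u / δ)) =
          (∑ p ∈ PS 0 (Real.exp (u / δ)), (1 : ℝ) / p - (Real.log u - Real.log δ)) +
            (Real.log u - Real.log δ) := by
        unfold SS; ring
      rw [h4]
      calc _ ≤ |∑ p ∈ PS 0 (Real.exp (u / δ)), (1 : ℝ) / p - (Real.log u - Real.log δ)| +
            |Real.log u - Real.log δ| := abs_add_le _ _
        _ ≤ C + (|Real.log u| + |Real.log δ|) := add_le_add h3 (abs_sub _ _)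
        _ = _ := by ring
    · rw [SS_lt_two h2, abs_zero]
      positivity

lemma pt_lim {B : ℝ} (hB : Tendsto (fun y : ℝ => SS y - Real.log (Real.log y)) atTop (𝓝 B)) :
    Tendsto (fun δ : ℝ => ∑' n, pt δ n + Real.log δ) (𝓝[>] 0)
      (𝓝 (B - Real.eulerMascheroniConstant)) := by
  have h1 := tendsto_int hB
  have h2 : ∫ u in Ioi (0 : ℝ), Real.exp (-u) * (Real.log u + B) =
      B - Real.eulerMascheroniConstant := by
    have h3 : (fun u : ℝ => Real.exp (-u) * (Real.log u + B)) =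
        fun u => Real.exp (-u) * Real.log u + Real.exp (-u) * B := by
      funext u; ring
    rw [h3, integral_add integrable_exp_log ((integrableOn_exp_neg_Ioi (0 : ℝ)).mul_const B),
      integral_exp_log, integral_mul_const, integral_exp_neg_Ioi]
    simp
    ring
  rw [h2] at h1
  refine h1.congr' ?_
  filter_upwards [self_mem_nhdsWithin] with δ hδ0
  have hδ : (0 : ℝ) < δ := hδ0
  have h3 : (fun u : ℝ => Real.exp (-u) * (SS (Real.exp (u / δ)) + Real.log δ)) =
      fun u => Real.exp (-u) * SS (Real.exp (u / δ)) + Real.exp (-u) * Real.log δ := by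
    funext u; ring
  rw [h3, integral_add (integrable_SS hδ) ((integrableOn_exp_neg_Ioi (0 : ℝ)).mul_const _),
    int_eq hδ, integral_mul_const, integral_exp_neg_Ioi]
  simp

/-! ### the remaining terms of the logarithm of zeta -/

/-- the terms of the correction -/
noncomputable def ht (δ : ℝ) (n : ℕ) : ℝ :=
  if n.Prime then -Real.log (1 - (n : ℝ) ^ (-(1 + δ))) - (n : ℝ) ^ (-(1 + δ)) else 0

lemma log_bounds {x : ℝ} (hx : x ≤ 1 / 2) :
    0 ≤ -Real.log (1 - x) - x ∧ -Real.log (1 - x) - x ≤ 2 * x ^ 2 := by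
  have h1 : (0 : ℝ) < 1 - x := by linarith
  have h2 := Real.log_le_sub_one_of_pos h1
  have h3 := Real.log_le_sub_one_of_pos (inv_pos.2 h1)
  rw [Real.log_inv] at h3
  refine ⟨by linarith, ?_⟩
  have h4 : (1 - x)⁻¹ - 1 - x = x ^ 2 / (1 - x) := by field_simp; ring
  have h5 : x ^ 2 / (1 - x) ≤ 2 * x ^ 2 := by
    rw [div_le_iff₀ h1]
    nlinarith [sq_nonneg x]
  linarith

lemma rpow_bounds {δ : ℝ} (hδ : 0 ≤ δ) {n : ℕ} (hn : 2 ≤ n) :
    0 ≤ (n : ℝ) ^ (-(1 + δ)) ∧ (n : ℝ) ^ (-(1 + δ)) ≤ 1 / n ∧ (1 : ℝ) / n ≤ 1 / 2 := by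
  have hn2 : (2 : ℝ) ≤ n := by exact_mod_cast hn
  refine ⟨by positivity, ?_, ?_⟩
  · calc (n : ℝ) ^ (-(1 + δ)) ≤ (n : ℝ) ^ (-1 : ℝ) :=
        Real.rpow_le_rpow_of_exponent_le (by linarith) (by linarith)
      _ = 1 / n := by rw [Real.rpow_neg_one, one_div]
  · exact one_div_le_one_div_of_le (by norm_num) hn2

lemma ht_bound {δ : ℝ} (hδ : 0 ≤ δ) (n : ℕ) : ‖ht δ n‖ ≤ 2 * (1 / (n : ℝ) ^ 2) := by
  unfold ht
  split_ifs with hp
  · obtain ⟨h0, h1, h2⟩ := rpow_bounds hδ hp.two_le
    obtain ⟨h3, h4⟩ := log_bounds (h1.trans h2)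
    rw [Real.norm_of_nonneg h3]
    refine h4.trans ?_
    have h5 : ((n : ℝ) ^ (-(1 + δ))) ^ 2 ≤ (1 / (n : ℝ)) ^ 2 := by gcongr
    rw [div_pow, one_pow] at h5
    linarith
  · rw [norm_zero]; positivity

lemma ht_summable {δ : ℝ} (hδ : 0 ≤ δ) : Summable (ht δ) :=
  Summable.of_norm_bounded ((Real.summable_one_div_nat_pow.2 (by norm_num)).mul_left 2)
    (ht_bound hδ)

lemma ht_lim : Tendsto (fun δ : ℝ => ∑' n, ht δ n) (𝓝[>] 0) (𝓝 (∑' n, ht 0 n)) := by
  refine tendsto_tsum_of_dominated_convergence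
    (bound := fun n : ℕ => 2 * (1 / (n : ℝ) ^ 2))
    ((Real.summable_one_div_nat_pow.2 (by norm_num)).mul_left 2) ?_ ?_
  · intro n
    by_cases hp : n.Prime
    · have hn0 : (0 : ℝ) < n := by exact_mod_cast hp.pos
      have h1 : Tendsto (fun δ : ℝ => (n : ℝ) ^ (-(1 + δ))) (𝓝[>] 0)
          (𝓝 ((n : ℝ) ^ (-(1 + (0 : ℝ))))) := by
        have : Continuous fun δ : ℝ => (n : ℝ) ^ (-(1 + δ)) :=
          Continuous.rpow continuous_const (by fun_prop) (fun _ => Or.inl hn0.ne')
        exact (this.tendsto 0).mono_left nhdsWithin_le_nhds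
      obtain ⟨h0, h2, h3⟩ := rpow_bounds le_rfl hp.two_le
      have h4 : 1 - (n : ℝ) ^ (-(1 + (0 : ℝ))) ≠ 0 := by
        have h7 := h2.trans h3
        intro h
        rw [← sub_eq_zero.1 h] at h7
        norm_num at h7
      have h5 : Tendsto (fun δ : ℝ => Real.log (1 - (n : ℝ) ^ (-(1 + δ)))) (𝓝[>] 0)
          (𝓝 (Real.log (1 - (n : ℝ) ^ (-(1 + (0 : ℝ)))))) := (h1.const_sub 1).log h4
      have h6 := h5.neg.sub h1
      unfold ht
      simp only [hp, if_true]
      exact h6
    · unfold ht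
      simp only [hp, if_false]
      exact tendsto_const_nhds
  · filter_upwards [self_mem_nhdsWithin] with δ hδ0 n
    exact ht_bound (le_of_lt hδ0) n

/-! ### the Euler product -/

/-- the terms of the logarithm of zeta -/
noncomputable def lt' (δ : ℝ) (n : ℕ) : ℝ :=
  if n.Prime then -Real.log (1 - (n : ℝ) ^ (-(1 + δ))) else 0

lemma lt_eq (δ : ℝ) (n : ℕ) : lt' δ n = pt δ n + ht δ n := by
  unfold lt' pt ht
  split_ifs <;> ring

lemma euler {δ : ℝ} (hδ : 0 < δ) :
    Real.exp (∑' n, lt' δ n) = ∑' n : ℕ, 1 / (n : ℝ) ^ (1 + δ) := by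
  have hs : (1 : ℝ) < ((1 + δ : ℝ) : ℂ).re := by rw [Complex.ofReal_re]; linarith
  have h1 := riemannZeta_eulerProduct_exp_log hs
  rw [zeta_eq_tsum_one_div_nat_cpow hs] at h1
  have h2 : ∑' n : ℕ, 1 / (n : ℂ) ^ ((1 + δ : ℝ) : ℂ) =
      ((∑' n : ℕ, 1 / (n : ℝ) ^ (1 + δ) : ℝ) : ℂ) := by
    rw [Complex.ofReal_tsum]
    refine tsum_congr fun n => ?_
    rw [Complex.ofReal_div, Complex.ofReal_one, Complex.ofReal_cpow (Nat.cast_nonneg n),
      Complex.ofReal_natCast]
  have h3 : ∑' p : Nat.Primes, -Complex.log (1 - (p : ℂ) ^ (-((1 + δ : ℝ) : ℂ))) =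
      ((∑' n, lt' δ n : ℝ) : ℂ) := by
    have h4 : ∑' n, lt' δ n = ∑' p : Nat.Primes, lt' δ p := by
      have : Function.support (lt' δ) ⊆ {n : ℕ | n.Prime} := by
        intro n hn
        by_contra hp
        have hp' : ¬ n.Prime := hp
        exact hn (by unfold lt'; rw [if_neg hp'])
      exact (tsum_subtype_eq_of_support_subset this).symm
    rw [h4, Complex.ofReal_tsum]
    refine tsum_congr fun p => ?_
    have hp := p.2
    obtain ⟨h5, h6, h7⟩ := rpow_bounds hδ.le hp.two_le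
    unfold lt'
    rw [if_pos hp, Complex.ofReal_neg, Complex.ofReal_log (by linarith), Complex.ofReal_sub,
      Complex.ofReal_one, Complex.ofReal_cpow (Nat.cast_nonneg _)]
    push_cast
    rfl
  rw [h2, h3, ← Complex.ofReal_exp] at h1
  exact Complex.ofReal_injective h1

lemma lt_lim : Tendsto (fun δ : ℝ => ∑' n, lt' δ n + Real.log δ) (𝓝[>] 0) (𝓝 0) := by
  have h1 : Tendsto (fun δ : ℝ => δ * ∑' n : ℕ, 1 / (n : ℝ) ^ (1 + δ)) (𝓝[>] 0) (𝓝 1) := by
    have h2 : Tendsto (fun δ : ℝ => 1 + δ) (𝓝[>] 0) (𝓝[>] 1) := by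
      refine tendsto_nhdsWithin_iff.2 ⟨?_, ?_⟩
      · have : Tendsto (fun δ : ℝ => 1 + δ) (𝓝 0) (𝓝 (1 + 0)) := tendsto_const_nhds.add tendsto_id
        rw [add_zero] at this
        exact this.mono_left nhdsWithin_le_nhds
      · filter_upwards [self_mem_nhdsWithin] with δ hδ
        have : (0 : ℝ) < δ := hδ
        show (1 : ℝ) < 1 + δ
        linarith
    have h3 := tendsto_sub_mul_tsum_nat_rpow.comp h2
    refine h3.congr fun δ => ?_
    simp only [Function.comp_apply, add_sub_cancel_left]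
  have h4 := h1.log one_ne_zero
  rw [Real.log_one] at h4
  refine h4.congr' ?_
  filter_upwards [self_mem_nhdsWithin] with δ hδ0
  have hδ : (0 : ℝ) < δ := hδ0
  rw [← euler hδ, Real.log_mul hδ.ne' (Real.exp_pos _).ne', Real.log_exp]
  ring

lemma const_eq {B : ℝ} (hB : Tendsto (fun y : ℝ => SS y - Real.log (Real.log y)) atTop (𝓝 B)) :
    B + ∑' n, ht 0 n = Real.eulerMascheroniConstant := by
  have h1 := pt_lim hB
  have h2 : Tendsto (fun δ : ℝ => ∑' n, pt δ n + Real.log δ) (𝓝[>] 0) (𝓝 (0 - ∑' n, ht 0 n)) := by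
    refine (lt_lim.sub ht_lim).congr' ?_
    filter_upwards [self_mem_nhdsWithin] with δ hδ0
    have hδ : (0 : ℝ) < δ := hδ0
    have h3 : ∑' n, lt' δ n = ∑' n, pt δ n + ∑' n, ht δ n := by
      rw [← (pt_summable hδ).tsum_add (ht_summable hδ.le)]
      exact tsum_congr (lt_eq δ)
    rw [h3]
    ring
  have h4 := tendsto_nhds_unique h1 h2
  linarith

lemma ht_partial : Tendsto (fun y : ℝ => ∑ p ∈ PS 0 y, ht 0 p) atTop (𝓝 (∑' n, ht 0 n)) := by
  have h1 := (ht_summable le_rfl).hasSum.tendsto_sum_nat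
  have h2 : Tendsto (fun y : ℝ => ⌊y⌋₊ + 1) atTop atTop :=
    (tendsto_add_atTop_nat 1).comp tendsto_nat_floor_atTop
  refine (h1.comp h2).congr fun y => ?_
  simp only [Function.comp_apply]
  have h3 : ∑ p ∈ PS 0 y, ht 0 p = ∑ n ∈ Finset.Ioc 0 ⌊y⌋₊, ht 0 n := by
    unfold PS
    rw [Nat.floor_zero, Finset.sum_filter]
    refine Finset.sum_congr rfl fun n _ => ?_
    unfold ht
    split_ifs <;> rfl
  rw [h3]
  have h4 : Finset.range (⌊y⌋₊ + 1) = insert 0 (Finset.Ioc 0 ⌊y⌋₊) := by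
    ext n
    simp only [Finset.mem_range, Finset.mem_insert, Finset.mem_Ioc]
    omega
  rw [h4, Finset.sum_insert (by simp)]
  have h5 : ht 0 0 = 0 := by
    unfold ht
    rw [if_neg Nat.not_prime_zero]
  rw [h5, zero_add]

lemma main : Tendsto (fun y : ℝ => (∏ p ∈ PS 0 y, (1 - 1 / (p : ℝ))⁻¹) / Real.log y) atTop
    (𝓝 (Real.exp Real.eulerMascheroniConstant)) := by
  obtain ⟨B, hB⟩ := exists_B
  have h1 := (Real.continuous_exp.tendsto _).comp (hB.add ht_partial)
  rw [const_eq hB] at h1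
  refine h1.congr' ?_
  filter_upwards [eventually_gt_atTop 1] with y hy
  have hly : 0 < Real.log y := Real.log_pos hy
  have h2 : ∏ p ∈ PS 0 y, (1 - 1 / (p : ℝ))⁻¹ = Real.exp (SS y + ∑ p ∈ PS 0 y, ht 0 p) := by
    unfold SS
    rw [← Finset.sum_add_distrib, Real.exp_sum]
    refine Finset.prod_congr rfl fun p hp => ?_
    have hpp : p.Prime := (Finset.mem_filter.1 hp).2
    obtain ⟨h5, h6, h7⟩ := rpow_bounds le_rfl hpp.two_le
    have h8 : (p : ℝ) ^ (-(1 + (0 : ℝ))) = 1 / p := by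
      rw [add_zero, Real.rpow_neg_one, one_div]
    unfold ht
    rw [if_pos hpp, h8, add_sub_cancel, Real.exp_neg, Real.exp_log (by linarith)]
  have h3 : SS y - Real.log (Real.log y) + ∑ p ∈ PS 0 y, ht 0 p =
      SS y + ∑ p ∈ PS 0 y, ht 0 p - Real.log (Real.log y) := by ring
  simp only [Function.comp_apply]
  rw [h3, Real.exp_sub, Real.exp_log hly, h2]

end MertensAux

/-- (B1) Mertens' third theorem -/
theorem stMertens : StMertens := MertensAux.main

end K5
end Pool.Agent.Lib.MP_973905_nt
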