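import Pool.Agent.Lib.MP_973905_nt.K5.Stmts
import Pool.Agent.Lib.MP_973905_nt.K1.Strip

set_option autoImplicit false

/-! K5 module (A5): moving the line of integration to the right. -/

namespace Pool.Agent.Lib.MP_973905_nt
namespace K5
namespace Move

open MeasureTheory ProbabilityTheory Complex Filter Topology K1 K1.Strip

/-- zeta away from its pole, to the right of the critical line -/
lemma zeta_far : ∃ C : ℝ, 1 ≤ C ∧ ∀ s : ℂ, 1 / 2 ≤ s.re → 1 / 4 ≤ ‖s - 1‖ →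
    ‖riemannZeta s‖ ≤ C * (1 + |s.im|) ^ 2 := by
  obtain ⟨C, hC, h⟩ := zeta_growth
  set Z : ℝ := ∑' n : ℕ, 1 / ((n : ℝ) + 1) ^ 2 with hZ
  have hsum : Summable fun n : ℕ => 1 / ((n : ℝ) + 1) ^ 2 := by
    have h1 := (summable_nat_add_iff 1).2 (Real.summable_one_div_nat_pow.2 (by norm_num : 1 < 2))
    simpa using h1
  have hZ0 : 0 ≤ Z := tsum_nonneg fun n => by positivity
  refine ⟨4 * C + Z + 1, by linarith, fun s h1 h2 => ?_⟩
  have hy : 1 ≤ (1 + |s.im|) ^ 2 := by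
    have := abs_nonneg s.im
    nlinarith
  by_cases h3 : s.re ≤ 10
  · have hs1 : s ≠ 1 := by
      rintro rfl
      simp at h2
      linarith
    rw [riemannZeta_eq_inv_sub_mul hs1, norm_mul, norm_inv]
    have h4 := h s (by linarith) h3
    have h5 : ‖s - 1‖⁻¹ ≤ 4 := by
      rw [inv_le_comm₀ (by linarith) (by norm_num)]
      linarith
    calc ‖s - 1‖⁻¹ * ‖riemannZeta₁ s‖ ≤ 4 * (C * (1 + |s.im|) ^ 2) := by gcongr
      _ ≤ (4 * C + Z + 1) * (1 + |s.im|) ^ 2 := by nlinarith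
  · push Not at h3
    rw [zeta_eq_tsum_one_div_nat_add_one_cpow (by linarith)]
    have h6 : ‖∑' n : ℕ, 1 / ((n : ℂ) + 1) ^ s‖ ≤ Z := by
      refine tsum_of_norm_bounded hsum.hasSum fun n => ?_
      have h7 : ((n : ℂ) + 1) = (((n + 1 : ℕ) : ℝ) : ℂ) := by push_cast; rfl
      rw [norm_div, norm_one, h7, norm_cpow_eq_rpow_re_of_pos (by positivity)]
      push_cast
      have h8 : ((n : ℝ) + 1) ^ (2 : ℕ) ≤ ((n : ℝ) + 1) ^ s.re := by
        rw [← Real.rpow_natCast]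
        refine Real.rpow_le_rpow_of_exponent_le (by linarith [Nat.cast_nonneg (α := ℝ) n]) ?_
        push_cast
        linarith
      exact one_div_le_one_div_of_le (by positivity) h8
    calc _ ≤ Z := h6
      _ ≤ (4 * C + Z + 1) * 1 := by linarith
      _ ≤ _ := by gcongr

lemma cont_zeta {Y : Type*} [TopologicalSpace Y] {g : Y → ℂ} (hg : Continuous g)
    (h : ∀ t, g t ≠ 1) : Continuous fun t => riemannZeta (g t) :=
  continuous_iff_continuousAt.mpr fun t =>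
    ContinuousAt.comp (f := g) (g := riemannZeta) (differentiableAt_riemannZeta (h t)).continuousAt
      hg.continuousAt

/-- the integrand -/
noncomputable def PP (X t : ℝ) (w : ℂ) : ℂ :=
  KN X w * (riemannZeta (1 / 2 + w + t * I) * riemannZeta (1 / 2 + w - t * I))

lemma norm_KN {X A : ℝ} (hX : 1 ≤ X) {w : ℂ} (h0 : 0 < w.re) (h1 : w.re ≤ A) :
    ‖KN X w‖ ≤ X ^ A * (Real.exp (A ^ 2) * Real.exp (-w.im ^ 2)) / ‖w‖ := by
  unfold KN
  rw [norm_div, norm_mul, norm_cpow_eq_rpow_re_of_pos (by linarith), norm_exp]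
  have h2 : (w ^ 2).re = w.re ^ 2 - w.im ^ 2 := by
    rw [sq, mul_re]; ring
  rw [h2, ← Real.exp_add]
  gcongr
  nlinarith

lemma norm_pair {C : ℝ} (hC : 1 ≤ C) (hz : ∀ s : ℂ, 1 / 2 ≤ s.re → 1 / 4 ≤ ‖s - 1‖ →
    ‖riemannZeta s‖ ≤ C * (1 + |s.im|) ^ 2) {w : ℂ} (h0 : 0 < w.re) {t : ℝ}
    (h1 : 1 / 4 ≤ ‖1 / 2 + w + t * I - 1‖) (h2 : 1 / 4 ≤ ‖1 / 2 + w - t * I - 1‖) :
    ‖riemannZeta (1 / 2 + w + t * I) * riemannZeta (1 / 2 + w - t * I)‖ ≤
      C ^ 2 * (1 + |w.im|) ^ 4 * (1 + |t|) ^ 4 := by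
  rw [norm_mul]
  have e1 := hz _ (by rw [re_add]; linarith) h1
  have e2 := hz _ (by rw [re_sub]; linarith) h2
  rw [im_add] at e1
  rw [im_sub] at e2
  have e3 := one_add_abs_add w.im t
  have e4 := one_add_abs_sub w.im t
  calc _ ≤ (C * (1 + |w.im + t|) ^ 2) * (C * (1 + |w.im - t|) ^ 2) := by gcongr
    _ ≤ (C * ((1 + |w.im|) * (1 + |t|)) ^ 2) * (C * ((1 + |w.im|) * (1 + |t|)) ^ 2) := by gcongr
    _ = _ := by ring

lemma far_of_re {w : ℂ} (h : 1 / 4 ≤ |w.re - 1 / 2|) (t : ℝ) :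
    1 / 4 ≤ ‖1 / 2 + w + t * I - 1‖ ∧ 1 / 4 ≤ ‖1 / 2 + w - t * I - 1‖ := by
  constructor
  · refine h.trans ?_
    have h1 := abs_re_le_norm (1 / 2 + w + t * I - 1)
    rw [sub_re, re_add, one_re] at h1
    rwa [show w.re - 1 / 2 = 1 / 2 + w.re - 1 by ring]
  · refine h.trans ?_
    have h1 := abs_re_le_norm (1 / 2 + w - t * I - 1)
    rw [sub_re, re_sub, one_re] at h1
    rwa [show w.re - 1 / 2 = 1 / 2 + w.re - 1 by ring]

lemma far_of_im {w : ℂ} {t : ℝ} (h : |w.im| + 1 ≤ |t|) :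
    1 / 4 ≤ ‖1 / 2 + w + t * I - 1‖ ∧ 1 / 4 ≤ ‖1 / 2 + w - t * I - 1‖ := by
  constructor
  · have h1 := abs_im_le_norm (1 / 2 + w + t * I - 1)
    rw [sub_im, im_add, one_im, sub_zero] at h1
    have h2 := abs_sub_abs_le_abs_sub t (-w.im)
    rw [abs_neg, sub_neg_eq_add, add_comm t] at h2
    linarith
  · have h1 := abs_im_le_norm (1 / 2 + w - t * I - 1)
    rw [sub_im, im_sub, one_im, sub_zero] at h1
    have h2 := abs_sub_abs_le_abs_sub t w.im
    rw [abs_sub_comm t] at h2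
    linarith

lemma ne_one_of_far {s : ℂ} (h : 1 / 4 ≤ ‖s - 1‖) : s ≠ 1 := by
  rintro rfl
  simp at h
  linarith

/-- the point of a vertical line -/
lemma line_re (a y : ℝ) : ((a : ℂ) + y * I).re = a := by simp
lemma line_im (a y : ℝ) : ((a : ℂ) + y * I).im = y := by simp

/-- bound of the integrand on a vertical line -/
lemma norm_PP_line {C : ℝ} (hC : 1 ≤ C) (hz : ∀ s : ℂ, 1 / 2 ≤ s.re → 1 / 4 ≤ ‖s - 1‖ →
    ‖riemannZeta s‖ ≤ C * (1 + |s.im|) ^ 2) {X A a : ℝ} (hX : 1 ≤ X) (ha : 1 / 200 ≤ a)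
    (haA : a ≤ A) (ha2 : 1 / 4 ≤ |a - 1 / 2|) (y t : ℝ) :
    ‖PP X t ((a : ℂ) + y * I)‖ ≤
      200 * (X ^ A * Real.exp (A ^ 2)) * (C ^ 2 * (1 + |y|) ^ 4 * (1 + |t|) ^ 4) := by
  unfold PP
  rw [norm_mul]
  have h1 := norm_KN hX (w := (a : ℂ) + y * I) (A := A) (by rw [line_re]; linarith)
    (by rw [line_re]; exact haA)
  have h2 := far_of_re (w := (a : ℂ) + y * I) (by rw [line_re]; exact ha2) t
  have h3 := norm_pair hC hz (w := (a : ℂ) + y * I) (by rw [line_re]; linarith) h2.1 h2.2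
  rw [line_im] at h1 h3
  have h4 : 1 / 200 ≤ ‖(a : ℂ) + y * I‖ := by
    have := abs_re_le_norm ((a : ℂ) + y * I)
    rw [line_re] at this
    exact (ha.trans (le_abs_self a)).trans this
  have h5 : Real.exp (-y ^ 2) ≤ 1 := Real.exp_le_one_iff.2 (by nlinarith [sq_nonneg y])
  have hX0 : 0 < X := by linarith
  have h6 : ‖KN X ((a : ℂ) + y * I)‖ ≤ 200 * (X ^ A * Real.exp (A ^ 2)) := by
    refine h1.trans ?_
    rw [div_le_iff₀ (by linarith)]
    calc X ^ A * (Real.exp (A ^ 2) * Real.exp (-y ^ 2)) ≤ X ^ A * (Real.exp (A ^ 2) * 1) := by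
          gcongr
      _ = 200 * (X ^ A * Real.exp (A ^ 2)) * (1 / 200) := by ring
      _ ≤ _ := by gcongr
  gcongr

lemma cont_PP {X a : ℝ} (hX : 0 < X) (ha : 1 / 200 ≤ a) (ha2 : 1 / 4 ≤ |a - 1 / 2|) :
    Continuous fun z : ℝ × ℝ => PP X z.2 ((a : ℂ) + z.1 * I) := by
  unfold PP KN
  have h0 : ∀ z : ℝ × ℝ, (a : ℂ) + z.1 * I ≠ 0 := by
    intro z h
    have := congrArg Complex.re h
    rw [line_re, zero_re] at this
    linarith
  have hX' : (X : ℂ) ≠ 0 := ofReal_ne_zero.2 hX.ne'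
  refine Continuous.mul (Continuous.div (Continuous.mul ?_ ?_) ?_ h0) (Continuous.mul ?_ ?_)
  · exact Continuous.const_cpow (by fun_prop) (Or.inl hX')
  · fun_prop
  · fun_prop
  · exact cont_zeta (by fun_prop) fun z => ne_one_of_far
      (far_of_re (w := (a : ℂ) + z.1 * I) (by rw [line_re]; exact ha2) z.2).1
  · exact cont_zeta (by fun_prop) fun z => ne_one_of_far
      (far_of_re (w := (a : ℂ) + z.1 * I) (by rw [line_re]; exact ha2) z.2).2

/-- Fubini on a vertical line -/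
lemma fubini {C : ℝ} (hC : 1 ≤ C) (hz : ∀ s : ℂ, 1 / 2 ≤ s.re → 1 / 4 ≤ ‖s - 1‖ →
    ‖riemannZeta s‖ ≤ C * (1 + |s.im|) ^ 2) {X a L B T τ : ℝ} (hX : 1 ≤ X) (ha : 1 / 200 ≤ a)
    (ha2 : 1 / 4 ≤ |a - 1 / 2|) (hL : 0 ≤ L) {H : ℝ → ℂ} (hH : Continuous H)
    (hB : ∀ t, ‖H t‖ ≤ B) :
    (∫ y : ℝ in (-L)..L, KN X ((a : ℂ) + y * I) * FH T τ H ((a : ℂ) + y * I)) =
      (∫ t, (∫ y : ℝ in (-L)..L, PP X t ((a : ℂ) + y * I)) * H t ∂(gaussianReal τ (VV T))) ∧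
    Integrable (fun t => (∫ y : ℝ in (-L)..L, PP X t ((a : ℂ) + y * I)) * H t)
      (gaussianReal τ (VV T)) := by
  have hX0 : 0 < X := by linarith
  have hB0 : 0 ≤ B := (norm_nonneg _).trans (hB 0)
  have hLL : -L ≤ L := by linarith
  have hc := (cont_PP hX0 ha ha2).mul (hH.comp continuous_snd)
  have hint : Integrable (fun z : ℝ × ℝ => PP X z.2 ((a : ℂ) + z.1 * I) * H z.2)
      ((volume.restrict (Set.Ioc (-L) L)).prod (gaussianReal τ (VV T))) := by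
    have h1 : Integrable (fun y : ℝ => (200 * (X ^ a * Real.exp (a ^ 2)) * C ^ 2 * B) *
        (1 + |y|) ^ 4) (volume.restrict (Set.Ioc (-L) L)) :=
      ((by fun_prop : Continuous fun y : ℝ => (200 * (X ^ a * Real.exp (a ^ 2)) * C ^ 2 * B) *
        (1 + |y|) ^ 4).integrableOn_Icc).mono_set Set.Ioc_subset_Icc_self
    have h2 := h1.mul_prod (integrable_one_add_abs_pow τ (VV T) 4)
    refine h2.mono' hc.aestronglyMeasurable (Filter.Eventually.of_forall fun z => ?_)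
    rw [norm_mul]
    calc ‖PP X z.2 ((a : ℂ) + z.1 * I)‖ * ‖H z.2‖
        ≤ (200 * (X ^ a * Real.exp (a ^ 2)) * (C ^ 2 * (1 + |z.1|) ^ 4 * (1 + |z.2|) ^ 4)) * B := by
          gcongr
          · exact norm_PP_line hC hz hX ha le_rfl ha2 z.1 z.2
          · exact hB _
      _ = _ := by ring
  have e : ∀ t : ℝ, (∫ y : ℝ in (-L)..L, PP X t ((a : ℂ) + y * I)) * H t =
      ∫ y in Set.Ioc (-L) L, PP X t ((a : ℂ) + y * I) * H t := by
    intro t
    rw [← intervalIntegral.integral_mul_const, intervalIntegral.integral_of_le hLL]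
  simp only [e]
  refine ⟨?_, hint.integral_prod_right⟩
  rw [← integral_integral_swap hint, intervalIntegral.integral_of_le hLL]
  congr 1
  funext y
  unfold FH EG
  rw [← integral_const_mul]
  congr 1
  funext t
  unfold PP
  ring

/-- bound of the integrand on a horizontal line -/
lemma norm_PP_hor {C : ℝ} (hC : 1 ≤ C) (hz : ∀ s : ℂ, 1 / 2 ≤ s.re → 1 / 4 ≤ ‖s - 1‖ →
    ‖riemannZeta s‖ ≤ C * (1 + |s.im|) ^ 2) {X A L : ℝ} (hX : 1 ≤ X) (hL : 1 ≤ L) {t : ℝ}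
    (ht : L + 1 ≤ |t|) {w : ℂ} (h0 : 0 < w.re) (h1 : w.re ≤ A) (h2 : |w.im| = L) :
    ‖PP X t w‖ ≤ X ^ A * Real.exp (A ^ 2) * Real.exp (-L ^ 2) *
      (C ^ 2 * (1 + L) ^ 4 * (1 + |t|) ^ 4) := by
  unfold PP
  rw [norm_mul]
  have h3 := norm_KN hX h0 h1
  have h4 := far_of_im (w := w) (t := t) (by rw [h2]; exact ht)
  have h5 := norm_pair hC hz h0 h4.1 h4.2
  have hX0 : 0 < X := by linarith
  rw [h2] at h5
  have h6 : w.im ^ 2 = L ^ 2 := by rw [← sq_abs, h2]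
  have h7 : 1 ≤ ‖w‖ := by
    have := abs_im_le_norm w
    rw [h2] at this
    linarith
  rw [h6] at h3
  have h8 : ‖KN X w‖ ≤ X ^ A * Real.exp (A ^ 2) * Real.exp (-L ^ 2) := by
    refine h3.trans ?_
    rw [← mul_assoc]
    exact div_le_self (by positivity) h7
  gcongr

lemma diff_PP {X : ℝ} (hX : 0 < X) {t : ℝ} {w : ℂ} (h0 : 0 < w.re) (h : |w.im| + 1 ≤ |t|) :
    DifferentiableAt ℂ (PP X t) w := by
  have hw : w ≠ 0 := by
    rintro rfl
    simp at h0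
  have hX' : (X : ℂ) ≠ 0 := ofReal_ne_zero.2 hX.ne'
  have h4 := far_of_im (w := w) (t := t) h
  have d1 : DifferentiableAt ℂ riemannZeta (1 / 2 + w + t * I) :=
    differentiableAt_riemannZeta (ne_one_of_far h4.1)
  have d2 : DifferentiableAt ℂ riemannZeta (1 / 2 + w - t * I) :=
    differentiableAt_riemannZeta (ne_one_of_far h4.2)
  have e1 : DifferentiableAt ℂ (fun w : ℂ => riemannZeta (1 / 2 + w + t * I)) w :=
    DifferentiableAt.comp w d1 (by fun_prop)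
  have e2 : DifferentiableAt ℂ (fun w : ℂ => riemannZeta (1 / 2 + w - t * I)) w :=
    DifferentiableAt.comp w d2 (by fun_prop)
  have e3 : DifferentiableAt ℂ (fun w : ℂ => (X : ℂ) ^ w * cexp (w ^ 2) / w) w := by
    refine DifferentiableAt.div (DifferentiableAt.mul ?_ ?_) differentiableAt_id hw
    · exact (differentiableAt_id).const_cpow (Or.inl hX')
    · fun_prop
  exact e3.mul (e1.mul e2)

/-- the difference of the two lines, `t` large -/
lemma shift_large {C : ℝ} (hC : 1 ≤ C) (hz : ∀ s : ℂ, 1 / 2 ≤ s.re → 1 / 4 ≤ ‖s - 1‖ →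
    ‖riemannZeta s‖ ≤ C * (1 + |s.im|) ^ 2) {X A L : ℝ} (hX : 1 ≤ X) (hA : 1 ≤ A) (hL : 1 ≤ L)
    {t : ℝ} (ht : L + 1 ≤ |t|) :
    ‖(∫ y : ℝ in (-L)..L, PP X t (((1 / 200 : ℝ) : ℂ) + y * I)) -
      ∫ y : ℝ in (-L)..L, PP X t ((A : ℂ) + y * I)‖ ≤
      2 * A * (X ^ A * Real.exp (A ^ 2) * Real.exp (-L ^ 2) *
      (C ^ 2 * (1 + L) ^ 4 * (1 + |t|) ^ 4)) := by
  have hX0 : 0 < X := by linarith
  set f : ℂ → ℂ := PP X t with hf
  have hd : DifferentiableOn ℂ f (Set.uIcc (1 / 200 : ℝ) A ×ℂ Set.uIcc (-L) L) := by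
    intro w hw
    rw [Complex.mem_reProdIm, Set.uIcc_of_le (by linarith), Set.uIcc_of_le (by linarith)] at hw
    obtain ⟨⟨h1, h2⟩, h3, h4⟩ := hw
    refine (diff_PP hX0 (by linarith) ?_).differentiableWithinAt
    have : |w.im| ≤ L := abs_le.2 ⟨h3, h4⟩
    linarith
  have key := integral_boundary_rect_eq_zero_of_differentiableOn f ⟨(1 / 200 : ℝ), -L⟩ ⟨A, L⟩ hd
  simp only [smul_eq_mul] at key
  set S : ℝ := X ^ A * Real.exp (A ^ 2) * Real.exp (-L ^ 2) *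
      (C ^ 2 * (1 + L) ^ 4 * (1 + |t|) ^ 4) with hS
  have hS0 : 0 ≤ S := by positivity
  have hor : ∀ v : ℝ, |v| = L → ‖∫ x : ℝ in (1 / 200 : ℝ)..A, f (x + v * I)‖ ≤ A * S := by
    intro v hv
    have h1 := intervalIntegral.norm_integral_le_of_norm_le_const (a := (1 / 200 : ℝ)) (b := A)
      (f := fun x : ℝ => f (x + v * I)) (C := S) (fun x hx => by
        rw [Set.uIoc_of_le (by linarith)] at hx
        exact norm_PP_hor hC hz hX hL ht (w := (x : ℂ) + v * I)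
          (by rw [line_re]; linarith [hx.1]) (by rw [line_re]; exact hx.2)
          (by rw [line_im]; exact hv))
    refine h1.trans ?_
    rw [abs_of_nonneg (by linarith : (0 : ℝ) ≤ A - 1 / 200), mul_comm]
    gcongr
    linarith
  have h1 := hor (-L) (by rw [abs_neg]; exact abs_of_nonneg (by linarith))
  have h2 := hor L (abs_of_nonneg (by linarith))
  have h3 : I * ((∫ y : ℝ in (-L)..L, f (((1 / 200 : ℝ) : ℂ) + y * I)) -
      ∫ y : ℝ in (-L)..L, f ((A : ℂ) + y * I)) =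
      (∫ x : ℝ in (1 / 200 : ℝ)..A, f (x + (-L : ℝ) * I)) -
        ∫ x : ℝ in (1 / 200 : ℝ)..A, f (x + L * I) := by
    linear_combination -key
  have h4 : ‖I * ((∫ y : ℝ in (-L)..L, f (((1 / 200 : ℝ) : ℂ) + y * I)) -
      ∫ y : ℝ in (-L)..L, f ((A : ℂ) + y * I))‖ ≤ A * S + A * S := by
    rw [h3]
    exact (norm_sub_le _ _).trans (add_le_add h1 h2)
  rw [norm_mul, norm_I, one_mul] at h4
  linarith

/-- the difference of the two lines, trivial bound -/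
lemma shift_triv {C : ℝ} (hC : 1 ≤ C) (hz : ∀ s : ℂ, 1 / 2 ≤ s.re → 1 / 4 ≤ ‖s - 1‖ →
    ‖riemannZeta s‖ ≤ C * (1 + |s.im|) ^ 2) {X A L : ℝ} (hX : 1 ≤ X) (hA : 1 ≤ A) (hL : 0 ≤ L)
    (t : ℝ) :
    ‖(∫ y : ℝ in (-L)..L, PP X t (((1 / 200 : ℝ) : ℂ) + y * I)) -
      ∫ y : ℝ in (-L)..L, PP X t ((A : ℂ) + y * I)‖ ≤
      800 * L * (X ^ A * Real.exp (A ^ 2)) * (C ^ 2 * (1 + L) ^ 4 * (1 + |t|) ^ 4) := by
  have hX0 : 0 < X := by linarith
  have h : ∀ a : ℝ, 1 / 200 ≤ a → a ≤ A → 1 / 4 ≤ |a - 1 / 2| →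
      ‖∫ y : ℝ in (-L)..L, PP X t ((a : ℂ) + y * I)‖ ≤
        (200 * (X ^ A * Real.exp (A ^ 2)) * (C ^ 2 * (1 + L) ^ 4 * (1 + |t|) ^ 4)) * (2 * L) := by
    intro a ha haA ha2
    have h1 := intervalIntegral.norm_integral_le_of_norm_le_const (a := -L) (b := L)
      (f := fun y : ℝ => PP X t ((a : ℂ) + y * I))
      (C := 200 * (X ^ A * Real.exp (A ^ 2)) * (C ^ 2 * (1 + L) ^ 4 * (1 + |t|) ^ 4))
      (fun y hy => by
        rw [Set.uIoc_of_le (by linarith)] at hy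
        have hy' : |y| ≤ L := abs_le.2 ⟨hy.1.le, hy.2⟩
        refine (norm_PP_line hC hz hX ha haA ha2 y t).trans ?_
        gcongr)
    have e : |L - -L| = 2 * L := by
      rw [sub_neg_eq_add, abs_of_nonneg (by linarith : (0 : ℝ) ≤ L + L)]
      ring
    rw [e] at h1
    exact h1
  have h1 := h (1 / 200) le_rfl (by linarith) (by norm_num [abs_of_neg])
  have h2 := h A (by linarith) le_rfl (by rw [abs_of_nonneg (by linarith)]; linarith)
  refine (norm_sub_le _ _).trans ((add_le_add h1 h2).trans (le_of_eq ?_))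
  ring

/-- an exponential moment on the side of the mean -/
lemma exp_side (τ : ℝ) (v : NNReal) {l : ℝ} (hl : 0 ≤ l) : ∃ x : ℝ, |x| = l ∧
    ∫ t : ℝ, Real.exp (x * t) ∂(gaussianReal τ v) = Real.exp (-(l * |τ|) + v * l ^ 2 / 2) := by
  have hm : ∀ x : ℝ, ∫ t : ℝ, Real.exp (x * t) ∂(gaussianReal τ v) =
      Real.exp (τ * x + v * x ^ 2 / 2) := by
    intro x
    have := congrFun (mgf_fun_id_gaussianReal (μ := τ) (v := v)) x
    simpa [mgf] using this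
  rcases abs_cases τ with ⟨h, _⟩ | ⟨h, _⟩
  · refine ⟨-l, by rw [abs_neg, abs_of_nonneg hl], ?_⟩
    rw [hm, h]
    congr 1
    ring
  · refine ⟨l, abs_of_nonneg hl, ?_⟩
    rw [hm, h]
    congr 1
    ring

/-- all together, for one `T` -/
lemma core {C : ℝ} (hC : 1 ≤ C) (hz : ∀ s : ℂ, 1 / 2 ≤ s.re → 1 / 4 ≤ ‖s - 1‖ →
    ‖riemannZeta s‖ ≤ C * (1 + |s.im|) ^ 2) {X A L T τ B l : ℝ} (hX : 1 ≤ X) (hA : 1 ≤ A)
    (hL : 1 ≤ L) (hl : 0 ≤ l) {H : ℝ → ℂ} (hH : Continuous H) (hB : ∀ t, ‖H t‖ ≤ B) :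
    ‖(∫ y : ℝ in (-L)..L, KN X (((1 / 200 : ℝ) : ℂ) + y * I) *
        FH T τ H (((1 / 200 : ℝ) : ℂ) + y * I)) -
      ∫ y : ℝ in (-L)..L, KN X ((A : ℂ) + y * I) * FH T τ H ((A : ℂ) + y * I)‖ ≤
      2 * A * (X ^ A * Real.exp (A ^ 2) * Real.exp (-L ^ 2) * (C ^ 2 * (1 + L) ^ 4)) * B *
        (∫ t : ℝ, (1 + |t|) ^ 4 ∂(gaussianReal τ (VV T))) +
      800 * L * (X ^ A * Real.exp (A ^ 2)) * (C ^ 2 * (1 + L) ^ 4 * (2 + L) ^ 4) * B *
        Real.exp (l * (L + 1) - l * |τ| + VV T * l ^ 2 / 2) := by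
  have hX0 : 0 < X := by linarith
  have hB0 : 0 ≤ B := (norm_nonneg _).trans (hB 0)
  obtain ⟨f1, i1⟩ := fubini (T := T) (τ := τ) hC hz hX (a := 1 / 200) (L := L) le_rfl
    (by norm_num [abs_of_neg]) (by linarith) hH hB
  obtain ⟨f2, i2⟩ := fubini (T := T) (τ := τ) hC hz hX (a := A) (L := L) (by linarith)
    (by rw [abs_of_nonneg (by linarith)]; linarith) (by linarith) hH hB
  rw [f1, f2, ← integral_sub i1 i2]
  obtain ⟨x, hx, hxi⟩ := exp_side τ (VV T) hl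
  set K1 : ℝ := 2 * A * (X ^ A * Real.exp (A ^ 2) * Real.exp (-L ^ 2) * (C ^ 2 * (1 + L) ^ 4)) * B
    with hK1
  set K2 : ℝ := 800 * L * (X ^ A * Real.exp (A ^ 2)) * (C ^ 2 * (1 + L) ^ 4 * (2 + L) ^ 4) * B
    with hK2
  have hK10 : 0 ≤ K1 := by positivity
  have hK20 : 0 ≤ K2 := by positivity
  have g1 := (integrable_one_add_abs_pow τ (VV T) 4).const_mul K1
  have g2 := (integrable_exp_mul_gaussianReal (μ := τ) (v := VV T) x).const_mul
    (K2 * Real.exp (l * (L + 1)))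
  have hpt : ∀ t : ℝ, ‖(∫ y : ℝ in (-L)..L, PP X t (((1 / 200 : ℝ) : ℂ) + y * I)) * H t -
      (∫ y : ℝ in (-L)..L, PP X t ((A : ℂ) + y * I)) * H t‖ ≤
      K1 * (1 + |t|) ^ 4 + K2 * Real.exp (l * (L + 1)) * Real.exp (x * t) := by
    intro t
    rw [← sub_mul, norm_mul]
    by_cases ht : L + 1 ≤ |t|
    · have h1 := shift_large hC hz hX hA hL ht
      have h2 : 0 ≤ K2 * Real.exp (l * (L + 1)) * Real.exp (x * t) := by positivity
      calc _ ≤ (2 * A * (X ^ A * Real.exp (A ^ 2) * Real.exp (-L ^ 2) *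
            (C ^ 2 * (1 + L) ^ 4 * (1 + |t|) ^ 4))) * B := by
            gcongr
            exact hB t
        _ = K1 * (1 + |t|) ^ 4 := by rw [hK1]; ring
        _ ≤ _ := by linarith
    · push Not at ht
      have h1 := shift_triv hC hz hX hA (by linarith : 0 ≤ L) t
      have h3 : 1 ≤ Real.exp (l * (L + 1)) * Real.exp (x * t) := by
        rw [← Real.exp_add]
        apply Real.one_le_exp
        have h4 : -(x * t) ≤ l * (L + 1) := by
          calc -(x * t) ≤ |x * t| := neg_le_abs _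
            _ = l * |t| := by rw [abs_mul, hx]
            _ ≤ _ := by gcongr
        linarith
      have h5 : 0 ≤ K1 * (1 + |t|) ^ 4 := by positivity
      calc _ ≤ (800 * L * (X ^ A * Real.exp (A ^ 2)) * (C ^ 2 * (1 + L) ^ 4 * (1 + |t|) ^ 4)) *
            B := by
            gcongr
            exact hB t
        _ ≤ (800 * L * (X ^ A * Real.exp (A ^ 2)) * (C ^ 2 * (1 + L) ^ 4 * (2 + L) ^ 4)) * B := by
            have h6 : (1 + |t|) ^ 4 ≤ (2 + L) ^ 4 :=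
              pow_le_pow_left₀ (by positivity) (by linarith) 4
            gcongr 800 * L * (X ^ A * Real.exp (A ^ 2)) * (C ^ 2 * (1 + L) ^ 4 * ?_) * B
        _ = K2 * 1 := by rw [hK2]; ring
        _ ≤ K2 * (Real.exp (l * (L + 1)) * Real.exp (x * t)) := by gcongr
        _ ≤ _ := by linarith
  refine (norm_integral_le_of_norm_le (g1.add g2) (Filter.Eventually.of_forall hpt)).trans
    (le_of_eq ?_)
  simp only [Pi.add_apply]
  rw [integral_add g1 g2, integral_const_mul, integral_const_mul, hxi, mul_assoc K2,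
    ← Real.exp_add]
  congr 3
  ring

/-- fourth moment of the Gaussian -/
lemma mom4 : ∃ T₀ : ℝ, ∀ T, T₀ ≤ T → ∀ τ : ℝ, |τ| ≤ 3 / 2 * T →
    ∫ t : ℝ, (1 + |t|) ^ 4 ∂(gaussianReal τ (VV T)) ≤ 10000 * T ^ 4 := by
  obtain ⟨T₀, h⟩ := eg_tail 4
  refine ⟨max T₀ 3, fun T hT τ hτ => ?_⟩
  have hT3 : 3 ≤ T := (le_max_right _ _).trans hT
  have h1 := h T ((le_max_left _ _).trans hT) τ (by linarith)
  have h2 : Real.exp (-T ^ (1 / 10 : ℝ)) ≤ 1 :=
    Real.exp_le_one_iff.2 (neg_nonpos.2 (Real.rpow_nonneg (by linarith) _))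
  have hmeas : MeasurableSet {t : ℝ | 8 * T < |t|} :=
    measurableSet_lt measurable_const measurable_id.abs
  have hi := integrable_one_add_abs_pow τ (VV T) 4
  have h3 : ∫ t : ℝ, (1 + |t|) ^ 4 ∂(gaussianReal τ (VV T)) ≤
      ∫ t : ℝ, ((1 + 8 * T) ^ 4 + Set.indicator {t : ℝ | 8 * T < |t|} (fun t => (1 + |t|) ^ 4) t)
        ∂(gaussianReal τ (VV T)) := by
    refine integral_mono hi ((integrable_const _).add (hi.indicator hmeas)) fun t => ?_
    simp only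
    by_cases ht : t ∈ {t : ℝ | 8 * T < |t|}
    · rw [Set.indicator_of_mem ht]
      have : 0 ≤ (1 + 8 * T) ^ 4 := by positivity
      linarith
    · rw [Set.indicator_of_notMem ht, add_zero]
      have ht' : |t| ≤ 8 * T := not_lt.1 ht
      gcongr
  rw [integral_add (integrable_const _) (hi.indicator hmeas), integral_const, probReal_univ,
    one_smul] at h3
  unfold EG at h1
  have h4 : (1 + 8 * T) ^ 4 ≤ (9 * T) ^ 4 := by
    gcongr
    linarith
  have h5 : 1 ≤ T ^ 4 := one_le_pow₀ (by linarith)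
  have h6 : (9 * T) ^ 4 = 6561 * T ^ 4 := by ring
  linarith

/-- the conditions on `T` -/
lemma eventual (A K : ℝ) (hA : 1 ≤ A) : ∃ T₀ : ℝ, 3 ≤ T₀ ∧ ∀ T, T₀ ≤ T →
    1 ≤ Real.log T ∧ Real.log T + 2 ≤ T ∧ 2 * Real.pi * Real.log T ≤ T ∧
    2 * Real.log T * (Real.log T + 1) ≤ T ∧ A + 12 ≤ Real.log T ∧ K ≤ Real.log T ∧
    (A + 12) * Real.log T + K + 1 ≤ T ^ (1 / 20 : ℝ) / (2 * Real.log T) := by
  have h1 : ∀ᶠ T : ℝ in atTop, Real.log T ≤ T ^ (1 / 60 : ℝ) := by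
    have := (isLittleO_log_rpow_atTop (by norm_num : (0 : ℝ) < 1 / 60)).bound one_pos
    filter_upwards [this, eventually_ge_atTop 1] with T hT hT1
    rw [one_mul, Real.norm_eq_abs, Real.norm_eq_abs, abs_of_nonneg (Real.log_nonneg hT1),
      abs_of_nonneg (Real.rpow_nonneg (by linarith) _)] at hT
    exact hT
  have h2 : Tendsto (fun T : ℝ => T ^ (1 / 60 : ℝ)) atTop atTop := tendsto_rpow_atTop (by norm_num)
  have h3 := h2.eventually_ge_atTop (2 * (A + 13) + 2 * |K| + 8)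
  have h4 := Real.tendsto_log_atTop.eventually_ge_atTop (A + 12 + |K|)
  obtain ⟨T₀, hT₀⟩ := eventually_atTop.1 ((h1.and h3).and h4)
  refine ⟨max T₀ 3, le_max_right _ _, fun T hT => ?_⟩
  have hT3 : 3 ≤ T := (le_max_right _ _).trans hT
  obtain ⟨⟨e1, e2⟩, e3⟩ := hT₀ T ((le_max_left _ _).trans hT)
  have hT0 : 0 ≤ T := by linarith
  set u : ℝ := T ^ (1 / 60 : ℝ) with hu
  set L : ℝ := Real.log T with hLdef
  have hK := le_abs_self K
  have hK0 := abs_nonneg K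
  have hL1 : 1 ≤ L := by linarith
  have hu8 : 8 ≤ u := by linarith
  have hT60 : T = u ^ 60 := by
    rw [hu, ← Real.rpow_natCast, ← Real.rpow_mul hT0]; norm_num
  have hT3' : T ^ (1 / 20 : ℝ) = u ^ 3 := by
    rw [hu, ← Real.rpow_natCast, ← Real.rpow_mul hT0]; norm_num
  have hu4 : u ^ 4 ≤ T := by
    rw [hT60]
    exact pow_le_pow_right₀ (by linarith) (by norm_num)
  have hu2 : 64 ≤ u ^ 2 := by nlinarith
  have hu3 : u ^ 4 = u ^ 2 * u ^ 2 := by ring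
  have hpi := Real.pi_lt_d2
  have hpi0 := Real.pi_pos
  have hLL : L ^ 2 ≤ u ^ 2 := by nlinarith
  refine ⟨hL1, ?_, ?_, ?_, by linarith, by linarith, ?_⟩
  · have : u + 2 ≤ u ^ 4 := by nlinarith
    linarith
  · have : 2 * Real.pi * L ≤ 8 * u := by nlinarith
    have : 8 * u ≤ u ^ 4 := by nlinarith
    linarith
  · have : 2 * L * (L + 1) ≤ 4 * u ^ 2 := by nlinarith
    have : 4 * u ^ 2 ≤ u ^ 4 := by nlinarith
    linarith
  · rw [hT3', le_div_iff₀ (by linarith)]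
    have g1 : ((A + 12) * L + K + 1) * (2 * L) ≤ ((A + 12) * u + |K| + 1) * (2 * u) := by
      have : 0 ≤ (A + 12) * L + |K| + 1 := by positivity
      calc ((A + 12) * L + K + 1) * (2 * L) ≤ ((A + 12) * L + |K| + 1) * (2 * L) := by gcongr
        _ ≤ _ := by gcongr
    refine g1.trans ?_
    have g2 : 2 * (|K| + 1) * u ≤ 2 * (|K| + 1) * u ^ 2 := by
      have : u ≤ u ^ 2 := by nlinarith
      gcongr
    have g3 : (2 * (A + 12) + 2 * (|K| + 1)) * u ^ 2 ≤ u * u ^ 2 := by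
      have : 2 * (A + 12) + 2 * (|K| + 1) ≤ u := by linarith
      gcongr
    calc ((A + 12) * u + |K| + 1) * (2 * u) = 2 * (A + 12) * u ^ 2 + 2 * (|K| + 1) * u := by ring
      _ ≤ 2 * (A + 12) * u ^ 2 + 2 * (|K| + 1) * u ^ 2 := by linarith
      _ = (2 * (A + 12) + 2 * (|K| + 1)) * u ^ 2 := by ring
      _ ≤ u * u ^ 2 := g3
      _ = u ^ 3 := by ring

end Move

open MeasureTheory ProbabilityTheory in
theorem stMove : StMove := by
  intro A hA
  obtain ⟨C, hC, hz⟩ := Move.zeta_far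
  obtain ⟨T₁, hT₁⟩ := Move.mom4
  set E₀ : ℝ := Real.exp (A ^ 2) with hE
  have hE0 : 0 < E₀ := Real.exp_pos _
  set K₁ : ℝ := 20000 * A * E₀ * C ^ 2 with hK₁
  set K₂ : ℝ := 800 * E₀ * C ^ 2 with hK₂
  have hK₁0 : 0 < K₁ := by positivity
  have hK₂0 : 0 < K₂ := by positivity
  obtain ⟨T₂, hT₂3, hT₂⟩ := Move.eventual A (Real.log (2 * K₁ + 2 * K₂)) hA
  refine ⟨max T₁ T₂, hT₂3.trans (le_max_right _ _), fun T hT τ hτ1 hτ2 H hH hHb => ?_⟩
  obtain ⟨e1, e2, e3, e4, e5, e6, e7⟩ := hT₂ T ((le_max_right _ _).trans hT)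
  have hT3 : 3 ≤ T := hT₂3.trans ((le_max_right _ _).trans hT)
  have hm := hT₁ T ((le_max_left _ _).trans hT) τ hτ2
  have hT0 : 0 < T := by linarith
  set L : ℝ := Real.log T with hLdef
  have hL0 : 0 < L := by linarith
  have hpi := Real.pi_gt_three
  have hX1 : 1 ≤ |τ| / (2 * Real.pi) := by
    rw [le_div_iff₀ (by positivity), one_mul]
    refine le_trans ?_ hτ1
    rwa [le_div_iff₀ hL0]
  have hXT : |τ| / (2 * Real.pi) ≤ T := by
    rw [div_le_iff₀ (by positivity)]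
    nlinarith
  have hXA : (|τ| / (2 * Real.pi)) ^ A ≤ T ^ A :=
    Real.rpow_le_rpow (by linarith) hXT (by linarith)
  set l : ℝ := T ^ (-(19 / 20) : ℝ) with hl
  have hl0 : 0 < l := Real.rpow_pos_of_pos hT0 _
  have key := Move.core (T := T) (τ := τ) hC hz hX1 hA e1 hl0.le hH hHb
  refine key.trans ?_
  have hVl : (VV T : ℝ) * l ^ 2 = 1 := by
    rw [VV_coe hT0.le, hl, ← Real.rpow_natCast, ← Real.rpow_mul hT0.le, ← Real.rpow_add hT0]
    norm_num
  have hlT : l * T = T ^ (1 / 20 : ℝ) := by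
    rw [hl]; nth_rewrite 2 [← Real.rpow_one T]
    rw [← Real.rpow_add hT0]; norm_num
  have hexp : l * (L + 1) - l * |τ| + VV T * l ^ 2 / 2 ≤
      -((A + 12) * L) - Real.log (2 * K₁ + 2 * K₂) := by
    have f1 : l * (L + 1) ≤ T ^ (1 / 20 : ℝ) / (2 * L) := by
      rw [le_div_iff₀ (by positivity), ← hlT]
      calc l * (L + 1) * (2 * L) = l * (2 * L * (L + 1)) := by ring
        _ ≤ l * T := by gcongr
    have f2 : T ^ (1 / 20 : ℝ) / (2 * L) + T ^ (1 / 20 : ℝ) / (2 * L) ≤ l * |τ| := by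
      calc _ = l * (T / L) := by rw [← hlT]; field_simp; ring
        _ ≤ l * |τ| := by gcongr
    rw [hVl]
    linarith
  have hTA : ∀ b : ℝ, T ^ b = Real.exp (b * L) := by
    intro b
    rw [Real.rpow_def_of_pos hT0, mul_comm]
  have h1L : 1 + L ≤ T := by linarith
  have h2L : 2 + L ≤ T := by linarith
  have hLT : L ≤ T := by linarith
  have hEK : Real.exp (-Real.log (2 * K₁ + 2 * K₂)) = (2 * K₁ + 2 * K₂)⁻¹ := by
    rw [Real.exp_neg, Real.exp_log (by positivity)]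
  have t1 : 2 * A * ((|τ| / (2 * Real.pi)) ^ A * E₀ * Real.exp (-L ^ 2) *
      (C ^ 2 * (1 + L) ^ 4)) * T ^ 2 * (∫ t : ℝ, (1 + |t|) ^ 4 ∂(gaussianReal τ (VV T))) ≤
      T ^ (-1 : ℝ) / 2 := by
    calc _ ≤ 2 * A * (T ^ A * E₀ * Real.exp (-L ^ 2) * (C ^ 2 * T ^ 4)) * T ^ 2 *
          (10000 * T ^ 4) := by gcongr
      _ = K₁ * (T ^ A * T ^ 10 * Real.exp (-L ^ 2)) := by rw [hK₁]; ring
      _ = K₁ * Real.exp ((A + 10) * L - L ^ 2) := by
          rw [← Real.rpow_natCast T 10, hTA, hTA, ← Real.exp_add, ← Real.exp_add]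
          congr 2
          push_cast
          ring
      _ ≤ K₁ * Real.exp (-1 * L + -Real.log (2 * K₁ + 2 * K₂)) := by
          gcongr
          nlinarith
      _ = T ^ (-1 : ℝ) * (K₁ * (2 * K₁ + 2 * K₂)⁻¹) := by
          rw [Real.exp_add, hEK, hTA]; ring
      _ ≤ T ^ (-1 : ℝ) * (1 / 2) := by
          gcongr
          rw [← div_eq_mul_inv, div_le_iff₀ (by positivity)]
          linarith
      _ = _ := by ring
  have t2 : 800 * L * ((|τ| / (2 * Real.pi)) ^ A * E₀) * (C ^ 2 * (1 + L) ^ 4 * (2 + L) ^ 4) *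
      T ^ 2 * Real.exp (l * (L + 1) - l * |τ| + VV T * l ^ 2 / 2) ≤ T ^ (-1 : ℝ) / 2 := by
    calc _ ≤ 800 * T * (T ^ A * E₀) * (C ^ 2 * T ^ 4 * T ^ 4) * T ^ 2 *
          Real.exp (-((A + 12) * L) - Real.log (2 * K₁ + 2 * K₂)) := by gcongr
      _ = K₂ * (T ^ A * T ^ 11 * Real.exp (-((A + 12) * L) - Real.log (2 * K₁ + 2 * K₂))) := by
          rw [hK₂]; ring
      _ = K₂ * Real.exp (-1 * L + -Real.log (2 * K₁ + 2 * K₂)) := by
          rw [← Real.rpow_natCast T 11, hTA, hTA, ← Real.exp_add, ← Real.exp_add]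
          congr 2
          push_cast
          ring
      _ = T ^ (-1 : ℝ) * (K₂ * (2 * K₁ + 2 * K₂)⁻¹) := by
          rw [Real.exp_add, hEK, hTA]; ring
      _ ≤ T ^ (-1 : ℝ) * (1 / 2) := by
          gcongr
          rw [← div_eq_mul_inv, div_le_iff₀ (by positivity)]
          linarith
      _ = _ := by ring
  linarith

end K5
end Pool.Agent.Lib.MP_973905_nt
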