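import Pool.Agent.Lib.MP_973905_nt.K5.Stmts

/-! All the numbers together (K5, module N7). -/

namespace Pool.Agent.Lib.MP_973905_nt
namespace K5

open MeasureTheory ProbabilityTheory Complex Filter Topology K1

namespace NumA

lemma harm : (54253 / 10000 : ℚ) ≤ harmonic 127 := by decide +kernel

lemma gamma_ge : (57 / 100 : ℝ) ≤ Real.eulerMascheroniConstant := by
  have h1 := Real.eulerMascheroniSeq_lt_eulerMascheroniConstant 127
  unfold Real.eulerMascheroniSeq at h1
  have h2 : Real.log ((127 : ℕ) + 1) = 7 * Real.log 2 := by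
    rw [show (((127 : ℕ) : ℝ) + 1) = 2 ^ 7 by norm_num, Real.log_pow]
    norm_num
  rw [h2] at h1
  have h3 : ((54253 / 10000 : ℚ) : ℝ) ≤ ((harmonic 127 : ℚ) : ℝ) := by exact_mod_cast harm
  have h4 := Real.log_two_lt_d9
  push_cast at h3
  linarith

lemma log_ge : (4054 / 10000 : ℝ) ≤ Real.log (3 / 2) := by
  have h := Real.sum_range_le_log_div (x := 1 / 5) (by norm_num) (by norm_num) 3
  norm_num [Finset.sum_range_succ] at h
  linarith

lemma tb0_le : tb 0 ≤ 1201 / 10000 := by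
  unfold tb
  rw [if_pos rfl, Real.exp_neg, inv_le_comm₀ (Real.exp_pos _) (by norm_num)]
  have h1 : Real.exp (53 / 25) = Real.exp 1 ^ 2 * Real.exp (3 / 25) := by
    rw [← Real.exp_nat_mul, ← Real.exp_add]
    congr 1
    norm_num
  have h2 : (1.127488 : ℝ) ≤ Real.exp (3 / 25) := by
    have := Real.sum_le_exp_of_nonneg (x := 3 / 25) (by norm_num) 4
    norm_num [Finset.sum_range_succ, Nat.factorial] at this ⊢
    linarith
  have h3 : (2.718 : ℝ) ≤ Real.exp 1 := by
    have := Real.exp_one_gt_d9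
    norm_num at this ⊢
    linarith
  have h4 : (2.718 : ℝ) ^ 2 ≤ Real.exp 1 ^ 2 := pow_le_pow_left₀ (by norm_num) h3 2
  rw [h1]
  calc ((1201 / 10000 : ℝ))⁻¹ ≤ 2.718 ^ 2 * 1.127488 := by norm_num
    _ ≤ _ := mul_le_mul h4 h2 (by norm_num) (by positivity)

lemma tb0_nonneg : 0 ≤ tb 0 := by
  unfold tb
  rw [if_pos rfl]
  exact (Real.exp_pos _).le

lemma sum_Vv (n : ℕ) : ∑ i ∈ Finset.range (n + 1), Vv i = 22 / 25 + n := by
  induction n with
  | zero => simp [Vv]
  | succ n ih =>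
    rw [Finset.sum_range_succ, ih]
    simp [Vv]
    ring

/-- the sum of the losses for `k ≤ 1/2` -/
lemma sum_lam (h0 : StLam0) (h1 : StLam1) (h2 : StLam2) (h3 : StLam3) (k : ℝ) (hk : 0 < k)
    (hk2 : k ≤ 1 / 2) (n : ℕ) :
    ∑ i ∈ Finset.range (n + 3), lam k i ≤ k * (1 - k) * (52 / 100 - 74 / 100 * k) := by
  have e : ∑ i ∈ Finset.range (n + 3), lam k i =
      lam k 0 + lam k 1 + lam k 2 + ∑ i ∈ Finset.range n, lam k (i + 3) := by
    rw [add_comm n 3, Finset.sum_range_add]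
    simp [Finset.sum_range_succ, add_comm]
  rw [e]
  have a0 := h0 k hk hk2
  have a1 := h1 k hk hk2
  have a2 := h2 k hk hk2
  have a3 := h3 k hk hk2 n
  have : k * (1 - k) * (52 / 100 - 74 / 100 * k) = k * (1 - k) * (145 / 1000 - 184 / 1000 * k) +
    k * (1 - k) * (219 / 1000 - 274 / 1000 * k) + k * (1 - k) * (106 / 1000 - 192 / 1000 * k) +
    k * (1 - k) * (50 / 1000 - 90 / 1000 * k) := by ring
  linarith

lemma sum_lam' (h0 : StLam0) (h1 : StLam1) (h2 : StLam2) (h3 : StLam3) (hs : StSym) (k : ℝ)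
    (hk : 0 < k) (hk1 : k < 1) (n : ℕ) :
    ∑ i ∈ Finset.range (n + 3), lam k i ≤ k * (1 - k) * (52 / 100 - 74 / 100 * min k (1 - k)) := by
  rcases le_total k (1 / 2) with h | h
  · rw [min_eq_left (by linarith)]
    exact sum_lam h0 h1 h2 h3 k hk h n
  · rw [min_eq_right (by linarith)]
    have := sum_lam h0 h1 h2 h3 (1 - k) (by linarith) (by linarith) n
    simp only [hs k hk hk1] at this
    refine this.trans (le_of_eq ?_)
    ring

/-- the polynomial inequality -/
lemma poly (k L : ℝ) (hk : 0 < k) (hk1 : k < 1) (hL0 : 0 ≤ L)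
    (hL1 : k ≤ 7 / 10 → 17 / 20 * (k ^ 2 * (1 - k)) ≤ L)
    (hL2 : k ≤ 3 / 4 → 1 / 2 * (k ^ 2 * (1 - k)) ≤ L) :
    k * (1 - k) * (23102 / 10000 - 74 / 100 * min k (1 - k)) ≤ 4054 / 10000 + L := by
  rcases le_total k (1 / 2) with h | h
  · rw [min_eq_left (by linarith)]
    have := hL1 (by linarith)
    nlinarith [mul_nonneg (sq_nonneg (k - 388 / 1000)) (by linarith : 0 ≤ 266636 / 100000 - 159 / 100 * k)]
  · rw [min_eq_right (by linarith)]
    rcases le_total k (7 / 10) with h2 | h2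
    · have := hL1 h2
      nlinarith [mul_nonneg (sub_nonneg.2 h) (sub_nonneg.2 hk1.le), mul_nonneg hk.le (sub_nonneg.2 hk1.le),
        mul_nonneg (mul_nonneg hk.le (sub_nonneg.2 hk1.le)) (sub_nonneg.2 h), sq_nonneg (k - 1 / 2)]
    · rcases le_total k (3 / 4) with h3 | h3
      · have := hL2 h3
        nlinarith [mul_nonneg (sub_nonneg.2 h2) (sub_nonneg.2 hk1.le), mul_nonneg hk.le (sub_nonneg.2 hk1.le),
          mul_nonneg (mul_nonneg hk.le (sub_nonneg.2 hk1.le)) (sub_nonneg.2 h2), sq_nonneg (k - 1 / 2)]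
      · nlinarith [mul_nonneg (sub_nonneg.2 h3) (sub_nonneg.2 hk1.le), mul_nonneg hk.le (sub_nonneg.2 hk1.le),
          mul_nonneg (mul_nonneg hk.le (sub_nonneg.2 hk1.le)) (sub_nonneg.2 h3), sq_nonneg (k - 3 / 4)]

end NumA

/-- (N7) -/
theorem stNum (hG : StG) (h0 : StLam0) (h1 : StLam1) (h2 : StLam2) (h3 : StLam3) (hs : StSym)
    (hr : StRho) : StNum := by
  intro k hk hk1 M hM
  obtain ⟨n, rfl⟩ : ∃ n, M = n + 5 := ⟨M - 5, by omega⟩
  have hM2 : n + 5 - 2 = n + 3 := by omega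
  rw [hM2]
  obtain ⟨-, -, -, C, hC, hab, -⟩ := hr k hk hk1
  have hCi : 0 < C⁻¹ := inv_pos.2 (by linarith)
  have haF : ∀ i, 0 < aF k i := fun i => lt_of_lt_of_le hCi (hab i).1
  have haG : ∀ i, 0 < aG k i := fun i => lt_of_lt_of_le hCi (hab i).2.2.1
  set PF := ∏ i ∈ Finset.range (n + 3), aF k i with hPF
  set PG := ∏ i ∈ Finset.range (n + 3), aG k i with hPG
  have hPF0 : 0 < PF := Finset.prod_pos fun i _ => haF i
  have hPG0 : 0 < PG := Finset.prod_pos fun i _ => haG i
  have ht0 := NumA.tb0_nonneg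
  have ht1 := NumA.tb0_le
  have hq : 0 < 1 + 2 * (1 - k) * tb 0 := by
    have := mul_nonneg (by linarith : 0 ≤ 2 * (1 - k)) ht0
    linarith
  have hk1' : 0 < 1 - k := by linarith
  have hkk : 0 < k * (1 - k) := mul_pos hk hk1'
  -- the logarithm of the left side
  have hlogF : Real.log PF = ∑ i ∈ Finset.range (n + 3), Real.log (aF k i) :=
    Real.log_prod fun i _ => (haF i).ne'
  have hlogG : Real.log PG = ∑ i ∈ Finset.range (n + 3), Real.log (aG k i) :=
    Real.log_prod fun i _ => (haG i).ne'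
  have hlam : k * Real.log PF + (1 - k) * Real.log PG + k * (1 - k) * (22 / 25 + (n + 2)) =
      ∑ i ∈ Finset.range (n + 3), lam k i := by
    have hV := NumA.sum_Vv (n + 2)
    unfold lam
    rw [Finset.sum_add_distrib, Finset.sum_add_distrib, ← Finset.mul_sum, ← Finset.mul_sum,
      ← Finset.mul_sum, ← hlogF, ← hlogG, hV]
    push_cast
    ring
  set g := barnesG (k + 1) ^ 2 / barnesG (2 * k + 1) with hg
  obtain ⟨hg1, hg2, hg3⟩ := hG k hk hk1
  rw [← hg] at hg1 hg2 hg3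
  have hgpos : 0 < g := by linarith
  set E := (((n + 5 : ℕ) : ℝ) - Real.eulerMascheroniConstant) * (k * (1 - k)) +
    Real.log (PF * (1 + 2 * (1 - k) * tb 0)) * k + Real.log PG * (1 - k) with hE
  have hL : Real.exp ((((n + 5 : ℕ) : ℝ) - Real.eulerMascheroniConstant) * (k * (1 - k))) *
      (PF * (1 + 2 * (1 - k) * tb 0)) ^ k * PG ^ (1 - k) = Real.exp E := by
    rw [Real.rpow_def_of_pos (mul_pos hPF0 hq), Real.rpow_def_of_pos hPG0, ← Real.exp_add,
      ← Real.exp_add]
  rw [hL]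
  have hlq : Real.log (1 + 2 * (1 - k) * tb 0) ≤ 2 * (1 - k) * tb 0 := by
    have := Real.log_le_sub_one_of_pos hq
    linarith
  have hEle : E ≤ k * (1 - k) * (23102 / 10000 - 74 / 100 * min k (1 - k)) := by
    have hsl := NumA.sum_lam' h0 h1 h2 h3 hs k hk hk1 n
    have hγ := NumA.gamma_ge
    rw [hE, Real.log_mul hPF0.ne' hq.ne']
    push_cast
    have e1 : ((n : ℝ) + 5 - Real.eulerMascheroniConstant) * (k * (1 - k)) +
        (Real.log PF + Real.log (1 + 2 * (1 - k) * tb 0)) * k + Real.log PG * (1 - k) =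
        (k * Real.log PF + (1 - k) * Real.log PG + k * (1 - k) * (22 / 25 + (n + 2))) +
        (53 / 25 - Real.eulerMascheroniConstant) * (k * (1 - k)) +
          k * Real.log (1 + 2 * (1 - k) * tb 0) := by ring
    rw [e1, hlam]
    have e2 : k * Real.log (1 + 2 * (1 - k) * tb 0) ≤ k * (2 * (1 - k) * tb 0) :=
      mul_le_mul_of_nonneg_left hlq hk.le
    have e3 : k * (2 * (1 - k) * tb 0) ≤ k * (1 - k) * (2402 / 10000) := by
      have := mul_le_mul_of_nonneg_left ht1 (by positivity : 0 ≤ 2 * (k * (1 - k)))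
      linarith
    have e4 : (53 / 25 - Real.eulerMascheroniConstant) * (k * (1 - k)) ≤ (155 / 100) * (k * (1 - k)) :=
      mul_le_mul_of_nonneg_right (by linarith) hkk.le
    have e5 : k * (1 - k) * (23102 / 10000 - 74 / 100 * min k (1 - k)) =
      k * (1 - k) * (52 / 100 - 74 / 100 * min k (1 - k)) + (155 / 100) * (k * (1 - k)) +
        k * (1 - k) * (2402 / 10000) := by ring
    rw [e5]
    linarith
  have hlogg0 : 0 ≤ Real.log g := Real.log_nonneg hg1
  have hgexp : Real.exp (Real.log g) = g := Real.exp_log hgpos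
  unfold CC
  rw [min_mul_of_nonneg _ _ hgpos.le]
  refine le_min ?_ ?_
  · have hp := NumA.poly k (Real.log g) hk hk1 hlogg0
      (fun h => (Real.le_log_iff_exp_le hgpos).2 (hg2 h))
      (fun h => (Real.le_log_iff_exp_le hgpos).2 (hg3 h))
    have hl := NumA.log_ge
    calc Real.exp E ≤ Real.exp (Real.log (3 / 2) + Real.log g) := Real.exp_le_exp.2 (by linarith)
      _ = 3 / 2 * g := by rw [Real.exp_add, Real.exp_log (by norm_num), hgexp]
  · have hm : 0 ≤ k * (1 - k) * min k (1 - k) := mul_nonneg hkk.le (le_min hk.le hk1'.le)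
    calc Real.exp E ≤ Real.exp (5 / 2 * (k * (1 - k)) + Real.log g) :=
          Real.exp_le_exp.2 (by nlinarith)
      _ = Real.exp (5 / 2 * (k * (1 - k))) * g := by rw [Real.exp_add, hgexp]

end K5
end Pool.Agent.Lib.MP_973905_nt
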