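import Pool.Agent.Lib.MP_973905_nt.K5.Stmts

/-! Module PairA.lean: one pair of frequencies, far to the right. -/

namespace Pool.Agent.Lib.MP_973905_nt
namespace K5

open MeasureTheory ProbabilityTheory Complex Filter Topology K1

namespace PairAux

/-! ### separation of frequencies -/

lemma log_sep {a b : ℕ} (ha : 1 ≤ a) (hb : 1 ≤ b) (h : a ≠ b) {P : ℝ} (hP : (a : ℝ) * b ≤ P) :
    1 / (4 * P) ≤ (Real.log a - Real.log b) ^ 2 := by
  wlog hlt : b < a generalizing a b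
  · have := this hb ha h.symm (by rwa [mul_comm]) (lt_of_le_of_ne (not_lt.mp hlt) h)
    nlinarith
  have ha0 : (0 : ℝ) < a := by exact_mod_cast ha
  have hb0 : (0 : ℝ) < b := by exact_mod_cast hb
  have hb1 : (1 : ℝ) ≤ b := by exact_mod_cast hb
  have hab : (b : ℝ) + 1 ≤ a := by exact_mod_cast hlt
  have hP0 : 0 < P := lt_of_lt_of_le (by positivity) hP
  have h2 : Real.log a - Real.log b = Real.log (a / b) := by
    rw [Real.log_div ha0.ne' hb0.ne']
  rw [h2]
  by_cases hc : (a : ℝ) ≤ 4 * b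
  · have h3 := Real.one_sub_inv_le_log_of_pos (div_pos ha0 hb0)
    have h4 : 1 / (a : ℝ) ≤ 1 - ((a : ℝ) / b)⁻¹ := by
      rw [inv_div, show (1 : ℝ) - b / a = (a - b) / a by field_simp]
      gcongr
      linarith
    have h5 : 1 / (a : ℝ) ≤ Real.log (a / b) := h4.trans h3
    calc 1 / (4 * P) ≤ 1 / (4 * (a * b)) := by gcongr
      _ ≤ 1 / ((a : ℝ) * a) := by
        apply one_div_le_one_div_of_le (by positivity)
        nlinarith
      _ = (1 / (a : ℝ)) ^ 2 := by rw [div_pow, one_pow, sq]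
      _ ≤ _ := pow_le_pow_left₀ (by positivity) h5 2
  · rw [not_le] at hc
    have h3 : (1 : ℝ) ≤ Real.log (a / b) := by
      rw [Real.le_log_iff_exp_le (by positivity), le_div_iff₀ hb0]
      have := Real.exp_one_lt_d9
      nlinarith
    have h4 : (1 : ℝ) ≤ P := by
      refine le_trans ?_ hP
      nlinarith
    calc 1 / (4 * P) ≤ 1 := by
          rw [div_le_one (by positivity)]
          linarith
      _ ≤ _ := by nlinarith

lemma pair_eq (t : ℝ) {a b : ℕ} (ha : a ≠ 0) (hb : b ≠ 0) :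
    fs (t * I) a * (starRingEnd ℂ) (fs (t * I) b) =
      cexp (((Real.log b - Real.log a) * t : ℝ) * I) := by
  rw [fs_mul_I t ha, fs_mul_I t hb, ← exp_conj, ← exp_add]
  congr 1
  simp only [map_mul, conj_I, conj_ofReal]
  push_cast
  ring

lemma norm_pair (t : ℝ) {a b : ℕ} (ha : a ≠ 0) (hb : b ≠ 0) :
    ‖fs (t * I) a * (starRingEnd ℂ) (fs (t * I) b)‖ = 1 := by
  rw [pair_eq t ha hb, norm_exp_ofReal_mul_I]

lemma pair_self (t : ℝ) {a : ℕ} (ha : a ≠ 0) :
    fs (t * I) a * (starRingEnd ℂ) (fs (t * I) a) = 1 := by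
  rw [pair_eq t ha ha]
  simp

/-- the mean of one frequency -/
lemma eg_one (T τ : ℝ) {a b : ℕ} (ha : 1 ≤ a) (hb : 1 ≤ b) :
    ‖EG T τ (fun t => fs (t * I) a * (starRingEnd ℂ) (fs (t * I) b)) -
      (if a = b then 1 else 0)‖ ≤ 1 := by
  have ha0 : a ≠ 0 := by omega
  have hb0 : b ≠ 0 := by omega
  by_cases h : a = b
  · subst h
    simp [EG, pair_self _ ha0]
  · rw [if_neg h, sub_zero]
    simp only [EG, pair_eq _ ha0 hb0]
    rw [norm_gauss_char]
    apply Real.exp_le_one_iff.mpr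
    have : 0 ≤ (VV T : ℝ) := (VV T).2
    have := mul_nonneg this (sq_nonneg (Real.log b - Real.log a))
    linarith

lemma eg_sep (T τ : ℝ) {a b : ℕ} (ha : 1 ≤ a) (hb : 1 ≤ b) {P : ℝ} (hP : (a : ℝ) * b ≤ P) :
    ‖EG T τ (fun t => fs (t * I) a * (starRingEnd ℂ) (fs (t * I) b)) -
      (if a = b then 1 else 0)‖ ≤ Real.exp (-(VV T / (8 * P))) := by
  have ha0 : a ≠ 0 := by omega
  have hb0 : b ≠ 0 := by omega
  by_cases h : a = b
  · subst h
    simp [EG, pair_self _ ha0, Real.exp_nonneg]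
  · rw [if_neg h, sub_zero]
    simp only [EG, pair_eq _ ha0 hb0]
    rw [norm_gauss_char]
    apply Real.exp_le_exp.mpr
    rw [neg_le_neg_iff]
    have h1 := log_sep hb ha (Ne.symm h) (P := P) (by rwa [mul_comm])
    have hP0 : 0 < P := lt_of_lt_of_le (by positivity) hP
    calc (VV T : ℝ) / (8 * P) = VV T * (1 / (4 * P)) / 2 := by field_simp; ring
      _ ≤ _ := by gcongr

/-! ### the Dirichlet series -/

lemma fs_zero {s : ℂ} (hs : s ≠ 0) : fs s 0 = 0 := by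
  unfold fs
  rw [Nat.cast_zero, zero_cpow (neg_ne_zero.mpr hs)]

lemma norm_fs' {s : ℂ} (hs : 0 < s.re) (n : ℕ) : ‖fs s n‖ = (n : ℝ) ^ (-s.re) := by
  rcases Nat.eq_zero_or_pos n with h | h
  · subst h
    rw [fs_zero (fun h => by simp [h] at hs), norm_zero, Nat.cast_zero,
      Real.zero_rpow (by linarith)]
  · exact norm_fs s (by omega)

lemma hasSum_zeta {s : ℂ} (hs : 1 < s.re) : HasSum (fs s) (riemannZeta s) := by
  have e : fs s = fun n : ℕ => 1 / (n : ℂ) ^ s := by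
    funext n
    unfold fs
    rw [cpow_neg, one_div]
  rw [e, zeta_eq_tsum_one_div_nat_cpow hs]
  exact (Complex.summable_one_div_nat_cpow.mpr hs).hasSum

lemma summable_rpow {x : ℝ} (hx : 1 < x) : Summable fun n : ℕ => (n : ℝ) ^ (-x) :=
  Real.summable_nat_rpow.mpr (by linarith)

lemma summable_pairs {x : ℝ} (hx : 1 < x) :
    Summable fun p : ℕ × ℕ => (p.1 : ℝ) ^ (-x) * (p.2 : ℝ) ^ (-x) :=
  (summable_rpow hx).mul_of_nonneg (summable_rpow hx) (fun n => by positivity)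
    (fun n => by positivity)

/-- the terms -/
noncomputable def FF (w : ℂ) (m n : ℕ) (p : ℕ × ℕ) (t : ℝ) : ℂ :=
  fs (1 / 2 + w) p.1 * fs (1 / 2 + w) p.2 *
    (fs (t * I) (p.1 * m) * (starRingEnd ℂ) (fs (t * I) (p.2 * n)))

lemma half_re (w : ℂ) : (1 / 2 + w).re = 1 / 2 + w.re := by
  simp

lemma half_ne {w : ℂ} (hw : 2 ≤ w.re) : (1 / 2 + w : ℂ) ≠ 0 := by
  intro h
  have := congrArg re h
  rw [half_re] at this
  simp at this
  linarith

lemma FF_zero {w : ℂ} (hw : 2 ≤ w.re) (m n : ℕ) (p : ℕ × ℕ) (h : p.1 = 0 ∨ p.2 = 0) (t : ℝ) :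
    FF w m n p t = 0 := by
  unfold FF
  rcases h with h | h <;> rw [h, fs_zero (half_ne hw)] <;> simp

lemma fs_mul_I_add {w : ℂ} (hw : 2 ≤ w.re) (t : ℝ) (l : ℕ) :
    fs (1 / 2 + w) l * fs (t * I) l = fs (1 / 2 + w + t * I) l := by
  rcases Nat.eq_zero_or_pos l with h | h
  · subst h
    have h1 : (1 / 2 + w + t * I : ℂ) ≠ 0 := by
      intro h
      have := congrArg re h
      simp at this
      linarith
    rw [fs_zero (half_ne hw), fs_zero h1, zero_mul]
  · have h0 : (l : ℂ) ≠ 0 := by exact_mod_cast h.ne'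
    unfold fs
    rw [← cpow_add _ _ h0]
    congr 1
    ring

lemma fs_mul_I_sub {w : ℂ} (hw : 2 ≤ w.re) (t : ℝ) (l : ℕ) :
    fs (1 / 2 + w) l * (starRingEnd ℂ) (fs (t * I) l) = fs (1 / 2 + w - t * I) l := by
  rcases Nat.eq_zero_or_pos l with h | h
  · subst h
    have h1 : (1 / 2 + w - t * I : ℂ) ≠ 0 := by
      intro h
      have := congrArg re h
      simp at this
      linarith
    rw [fs_zero (half_ne hw), fs_zero h1, zero_mul]
  · have h0 : (l : ℂ) ≠ 0 := by exact_mod_cast h.ne'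
    have e : (starRingEnd ℂ) (fs (t * I) l) = (l : ℂ) ^ (t * I : ℂ) := by
      rw [fs_mul_I t h.ne', ← exp_conj, cpow_def_of_ne_zero h0, ← natCast_log]
      congr 1
      simp only [map_mul, conj_I, conj_ofReal]
      push_cast
      ring
    rw [e]
    unfold fs
    rw [← cpow_add _ _ h0]
    congr 1
    ring

lemma fs_mul (s : ℂ) (a b : ℕ) : fs s (a * b) = fs s a * fs s b := by
  unfold fs
  rw [Nat.cast_mul, natCast_mul_natCast_cpow]

lemma FF_eq {w : ℂ} (hw : 2 ≤ w.re) (m n : ℕ) (p : ℕ × ℕ) (t : ℝ) :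
    FF w m n p t = fs (1 / 2 + w + t * I) p.1 * fs (1 / 2 + w - t * I) p.2 *
      (fs (t * I) m * (starRingEnd ℂ) (fs (t * I) n)) := by
  unfold FF
  rw [fs_mul, fs_mul, map_mul, ← fs_mul_I_add hw, ← fs_mul_I_sub hw]
  ring

lemma norm_FF_le {w : ℂ} (hw : 2 ≤ w.re) {m n : ℕ} (hm : 1 ≤ m) (hn : 1 ≤ n) (p : ℕ × ℕ) (t : ℝ) :
    ‖FF w m n p t‖ ≤ (p.1 : ℝ) ^ (-(1 / 2 + w.re)) * (p.2 : ℝ) ^ (-(1 / 2 + w.re)) := by
  by_cases h : p.1 = 0 ∨ p.2 = 0
  · rw [FF_zero hw m n p h, norm_zero]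
    positivity
  · rw [not_or] at h
    unfold FF
    rw [norm_mul, norm_pair t (mul_ne_zero h.1 (by omega)) (mul_ne_zero h.2 (by omega)), norm_mul,
      norm_fs' (by rw [half_re]; linarith), norm_fs' (by rw [half_re]; linarith), half_re, mul_one]

lemma continuous_FF {w : ℂ} (hw : 2 ≤ w.re) {m n : ℕ} (hm : 1 ≤ m) (hn : 1 ≤ n) (p : ℕ × ℕ) :
    Continuous (FF w m n p) := by
  by_cases h : p.1 = 0 ∨ p.2 = 0
  · have : FF w m n p = fun _ => 0 := funext fun t => FF_zero hw m n p h t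
    rw [this]
    exact continuous_const
  · rw [not_or] at h
    have : FF w m n p = fun t : ℝ => fs (1 / 2 + w) p.1 * fs (1 / 2 + w) p.2 *
        cexp (((Real.log (p.2 * n : ℕ) - Real.log (p.1 * m : ℕ)) * t : ℝ) * I) := by
      funext t
      unfold FF
      rw [pair_eq t (mul_ne_zero h.1 (by omega)) (mul_ne_zero h.2 (by omega))]
    rw [this]
    fun_prop

lemma hasSum_FF {w : ℂ} (hw : 2 ≤ w.re) (m n : ℕ) (t : ℝ) :
    HasSum (fun p : ℕ × ℕ => FF w m n p t) (riemannZeta (1 / 2 + w + t * I) *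
      riemannZeta (1 / 2 + w - t * I) * (fs (t * I) m * (starRingEnd ℂ) (fs (t * I) n))) := by
  have r1 : (1 / 2 + w + t * I : ℂ).re = 1 / 2 + w.re := by simp
  have r2 : (1 / 2 + w - t * I : ℂ).re = 1 / 2 + w.re := by simp
  simp_rw [FF_eq hw]
  refine HasSum.mul_right _ ?_
  refine HasSum.mul (hasSum_zeta (by rw [r1]; linarith)) (hasSum_zeta (by rw [r2]; linarith)) ?_
  refine Summable.of_norm ?_
  refine (summable_pairs (x := 1 / 2 + w.re) (by linarith)).congr fun p => ?_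
  rw [norm_mul, norm_fs' (by rw [r1]; linarith), norm_fs' (by rw [r2]; linarith), r1, r2]

/-- the coefficient -/
noncomputable def cf (w : ℂ) (p : ℕ × ℕ) : ℂ := fs (1 / 2 + w) p.1 * fs (1 / 2 + w) p.2

/-- the mean of one term -/
noncomputable def ee (T τ : ℝ) (m n : ℕ) (p : ℕ × ℕ) : ℂ :=
  EG T τ (fun t => fs (t * I) (p.1 * m) * (starRingEnd ℂ) (fs (t * I) (p.2 * n)))

lemma norm_cf {w : ℂ} (hw : 2 ≤ w.re) (p : ℕ × ℕ) :
    ‖cf w p‖ = (p.1 : ℝ) ^ (-(1 / 2 + w.re)) * (p.2 : ℝ) ^ (-(1 / 2 + w.re)) := by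
  unfold cf
  rw [norm_mul, norm_fs' (by rw [half_re]; linarith), norm_fs' (by rw [half_re]; linarith), half_re]

lemma hasSum_EG {w : ℂ} (hw : 2 ≤ w.re) (T τ : ℝ) {m n : ℕ} (hm : 1 ≤ m) (hn : 1 ≤ n) :
    HasSum (fun p : ℕ × ℕ => cf w p * ee T τ m n p)
      (EG T τ (fun t => riemannZeta (1 / 2 + w + t * I) * riemannZeta (1 / 2 + w - t * I) *
        (fs (t * I) m * (starRingEnd ℂ) (fs (t * I) n)))) := by
  have hint : ∀ p : ℕ × ℕ, Integrable (FF w m n p) (gaussianReal τ (VV T)) := by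
    intro p
    refine Integrable.mono' (integrable_const
      ((p.1 : ℝ) ^ (-(1 / 2 + w.re)) * (p.2 : ℝ) ^ (-(1 / 2 + w.re))))
      (continuous_FF hw hm hn p).aestronglyMeasurable
      (Filter.Eventually.of_forall fun t => norm_FF_le hw hm hn p t)
  have key := hasSum_integral_of_summable_integral_norm (F := fun p : ℕ × ℕ => FF w m n p)
    (μ := gaussianReal τ (VV T)) hint ?_
  · have h1 : ∀ p : ℕ × ℕ, ∫ t, FF w m n p t ∂(gaussianReal τ (VV T)) = cf w p * ee T τ m n p := by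
      intro p
      unfold FF cf ee EG
      rw [integral_const_mul]
    have h2 : ∀ t : ℝ, ∑' p : ℕ × ℕ, FF w m n p t = riemannZeta (1 / 2 + w + t * I) *
        riemannZeta (1 / 2 + w - t * I) * (fs (t * I) m * (starRingEnd ℂ) (fs (t * I) n)) :=
      fun t => (hasSum_FF hw m n t).tsum_eq
    simp only [h1, h2] at key
    exact key
  · refine Summable.of_nonneg_of_le (fun p => integral_nonneg fun t => norm_nonneg _) (fun p => ?_)
      (summable_pairs (x := 1 / 2 + w.re) (by linarith))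
    calc ∫ t, ‖FF w m n p t‖ ∂(gaussianReal τ (VV T))
        ≤ ∫ _t, (p.1 : ℝ) ^ (-(1 / 2 + w.re)) * (p.2 : ℝ) ^ (-(1 / 2 + w.re))
            ∂(gaussianReal τ (VV T)) :=
          integral_mono (hint p).norm (integrable_const _) fun t => norm_FF_le hw hm hn p t
      _ = _ := by simp

/-! ### the main term -/

lemma hasSum_main {w : ℂ} (hw : 2 ≤ w.re) {m n : ℕ} (hm : 1 ≤ m) (hn : 1 ≤ n) :
    HasSum (fun p : ℕ × ℕ => cf w p * (if p.1 * m = p.2 * n then 1 else 0))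
      (riemannZeta (1 + 2 * w) * ((m / m.gcd n * (n / m.gcd n) : ℕ) : ℂ) ^ (-(1 / 2 + w))) := by
  set g := m.gcd n with hg
  have hg0 : 0 < g := Nat.gcd_pos_of_pos_left _ (by omega)
  obtain ⟨m', hm'⟩ : ∃ m', m = g * m' := Nat.gcd_dvd_left m n
  obtain ⟨n', hn'⟩ : ∃ n', n = g * n' := Nat.gcd_dvd_right m n
  have em : m / g = m' := by
    conv_lhs => rw [hm']
    exact Nat.mul_div_cancel_left _ hg0
  have en : n / g = n' := by
    conv_lhs => rw [hn']
    exact Nat.mul_div_cancel_left _ hg0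
  have hm0 : 0 < m' := Nat.pos_of_ne_zero fun h => by rw [h] at hm'; omega
  have hn0 : 0 < n' := Nat.pos_of_ne_zero fun h => by rw [h] at hn'; omega
  have hcop : Nat.Coprime m' n' := by
    rw [← em, ← en]
    exact Nat.coprime_div_gcd_div_gcd hg0
  rw [em, en]
  have hinj : Function.Injective fun r : ℕ => ((n' * r, m' * r) : ℕ × ℕ) := by
    intro a b hab
    have := congrArg Prod.fst hab
    exact Nat.eq_of_mul_eq_mul_left hn0 this
  refine (Function.Injective.hasSum_iff hinj ?_).mp ?_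
  · rintro ⟨a, b⟩ hab
    by_cases h : a * m = b * n
    · exfalso
      apply hab
      have h1 : a * m' = b * n' := by
        apply Nat.eq_of_mul_eq_mul_left hg0
        rw [hm', hn'] at h
        calc g * (a * m') = a * (g * m') := by ring
          _ = b * (g * n') := h
          _ = _ := by ring
      have h2 : n' ∣ a * m' := ⟨b, by rw [h1]; ring⟩
      obtain ⟨r, hr⟩ := hcop.symm.dvd_of_dvd_mul_right h2
      refine ⟨r, ?_⟩
      have h3 : b = m' * r := by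
        apply Nat.eq_of_mul_eq_mul_left hn0
        calc n' * b = b * n' := by ring
          _ = a * m' := h1.symm
          _ = _ := by rw [hr]; ring
      simp [hr, h3]
    · simp [h]
  · have e : ((fun p : ℕ × ℕ => cf w p * (if p.1 * m = p.2 * n then 1 else 0)) ∘
        fun r : ℕ => ((n' * r, m' * r) : ℕ × ℕ)) =
        fun r : ℕ => fs (1 + 2 * w) r * ((m' * n' : ℕ) : ℂ) ^ (-(1 / 2 + w)) := by
      funext r
      have h1 : n' * r * m = m' * r * n := by
        rw [hm', hn']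
        ring
      simp only [Function.comp, h1, if_true, mul_one]
      unfold cf
      rw [fs_mul, fs_mul]
      have h2 : fs (1 / 2 + w) r * fs (1 / 2 + w) r = fs (1 + 2 * w) r := by
        rcases Nat.eq_zero_or_pos r with h | h
        · subst h
          have h3 : (1 + 2 * w : ℂ) ≠ 0 := by
            intro h
            have := congrArg re h
            simp at this
            linarith
          rw [fs_zero (half_ne hw), fs_zero h3, zero_mul]
        · have h0 : (r : ℂ) ≠ 0 := by exact_mod_cast h.ne'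
          unfold fs
          rw [← cpow_add _ _ h0]
          congr 1
          ring
      have h4 : ((m' * n' : ℕ) : ℂ) ^ (-(1 / 2 + w)) = fs (1 / 2 + w) n' * fs (1 / 2 + w) m' := by
        have := fs_mul (1 / 2 + w) n' m'
        rw [← this, mul_comm n' m']
        rfl
      rw [h4, ← h2]
      ring
    rw [e]
    refine HasSum.mul_right _ (hasSum_zeta ?_)
    simp
    linarith

/-! ### the error -/

lemma term_le {w : ℂ} {A : ℝ} (hA : 2 ≤ A) (hw : w.re = A) {T : ℝ} (hT : 1 ≤ T) (τ : ℝ) {m n : ℕ}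
    (hm : 1 ≤ m) (hn : 1 ≤ n) (hmn : (m : ℝ) * n ≤ T ^ (89 / 100 : ℝ)) (p : ℕ × ℕ) :
    ‖cf w p * (ee T τ m n p - (if p.1 * m = p.2 * n then 1 else 0))‖ ≤
      (Real.exp (-(T ^ (1 / 200 : ℝ) / 8)) + T ^ (-(201 / 200) * (A - 1) : ℝ)) *
        ((p.1 : ℝ) ^ (-(3 / 2) : ℝ) * (p.2 : ℝ) ^ (-(3 / 2) : ℝ)) := by
  have hT0 : 0 < T := by linarith
  by_cases h : p.1 = 0 ∨ p.2 = 0
  · have : cf w p = 0 := by
      unfold cf
      rcases h with h | h <;> rw [h, fs_zero (half_ne (by linarith))] <;> simp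
    rw [this, zero_mul, norm_zero]
    positivity
  rw [not_or] at h
  obtain ⟨h1, h2⟩ := h
  have l1 : (1 : ℝ) ≤ p.1 := by exact_mod_cast Nat.one_le_iff_ne_zero.mpr h1
  have l2 : (1 : ℝ) ≤ p.2 := by exact_mod_cast Nat.one_le_iff_ne_zero.mpr h2
  have a1 : 1 ≤ p.1 * m := Nat.one_le_iff_ne_zero.mpr (mul_ne_zero h1 (by omega))
  have a2 : 1 ≤ p.2 * n := Nat.one_le_iff_ne_zero.mpr (mul_ne_zero h2 (by omega))
  rw [norm_mul, norm_cf (by linarith), hw]
  have e1 : (p.1 : ℝ) ^ (-(1 / 2 + A)) * (p.2 : ℝ) ^ (-(1 / 2 + A)) =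
      ((p.1 : ℝ) ^ (-(3 / 2) : ℝ) * (p.2 : ℝ) ^ (-(3 / 2) : ℝ)) *
        ((p.1 : ℝ) * p.2) ^ (-(A - 1)) := by
    rw [Real.mul_rpow (by positivity) (by positivity)]
    have s1 : (p.1 : ℝ) ^ (-(1 / 2 + A)) = (p.1 : ℝ) ^ (-(3 / 2) : ℝ) * (p.1 : ℝ) ^ (-(A - 1)) := by
      rw [← Real.rpow_add (by linarith)]
      congr 1
      ring
    have s2 : (p.2 : ℝ) ^ (-(1 / 2 + A)) = (p.2 : ℝ) ^ (-(3 / 2) : ℝ) * (p.2 : ℝ) ^ (-(A - 1)) := by
      rw [← Real.rpow_add (by linarith)]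
      congr 1
      ring
    rw [s1, s2]
    ring
  rw [e1]
  have hb : ((p.1 : ℝ) * p.2) ^ (-(A - 1)) *
      ‖ee T τ m n p - (if p.1 * m = p.2 * n then 1 else 0)‖ ≤
      Real.exp (-(T ^ (1 / 200 : ℝ) / 8)) + T ^ (-(201 / 200) * (A - 1) : ℝ) := by
    by_cases hc : (p.1 : ℝ) * p.2 ≤ T ^ (201 / 200 : ℝ)
    · have hP : ((p.1 * m : ℕ) : ℝ) * ((p.2 * n : ℕ) : ℝ) ≤ T ^ (379 / 200 : ℝ) := by
        have : T ^ (379 / 200 : ℝ) = T ^ (201 / 200 : ℝ) * T ^ (89 / 100 : ℝ) := by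
          rw [← Real.rpow_add hT0]
          norm_num
        rw [this]
        push_cast
        calc (p.1 : ℝ) * m * (p.2 * n) = (p.1 * p.2) * (m * n) := by ring
          _ ≤ _ := mul_le_mul hc hmn (by positivity) (by positivity)
      have h3 := eg_sep T τ a1 a2 hP
      have h4 : (VV T : ℝ) / (8 * T ^ (379 / 200 : ℝ)) = T ^ (1 / 200 : ℝ) / 8 := by
        rw [VV_coe hT0.le]
        have : T ^ (19 / 10 : ℝ) = T ^ (379 / 200 : ℝ) * T ^ (1 / 200 : ℝ) := by
          rw [← Real.rpow_add hT0]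
          norm_num
        rw [this]
        have : T ^ (379 / 200 : ℝ) ≠ 0 := by positivity
        field_simp
      rw [h4] at h3
      have h5 : ((p.1 : ℝ) * p.2) ^ (-(A - 1)) ≤ 1 :=
        Real.rpow_le_one_of_one_le_of_nonpos (by nlinarith) (by linarith)
      calc _ ≤ 1 * Real.exp (-(T ^ (1 / 200 : ℝ) / 8)) :=
            mul_le_mul h5 h3 (norm_nonneg _) zero_le_one
        _ ≤ _ := by
            rw [one_mul]
            have : 0 ≤ T ^ (-(201 / 200) * (A - 1) : ℝ) := by positivity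
            linarith
    · rw [not_le] at hc
      have h3 := eg_one T τ a1 a2
      have h5 : ((p.1 : ℝ) * p.2) ^ (-(A - 1)) ≤ (T ^ (201 / 200 : ℝ)) ^ (-(A - 1)) :=
        Real.rpow_le_rpow_of_nonpos (by positivity) hc.le (by linarith)
      have h6 : (T ^ (201 / 200 : ℝ)) ^ (-(A - 1)) = T ^ (-(201 / 200) * (A - 1) : ℝ) := by
        rw [← Real.rpow_mul hT0.le]
        congr 1
        ring
      rw [h6] at h5
      calc _ ≤ T ^ (-(201 / 200) * (A - 1) : ℝ) * 1 :=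
            mul_le_mul h5 h3 (norm_nonneg _) (by positivity)
        _ ≤ _ := by
            rw [mul_one]
            have := Real.exp_pos (-(T ^ (1 / 200 : ℝ) / 8))
            linarith
  calc _ = ((p.1 : ℝ) ^ (-(3 / 2) : ℝ) * (p.2 : ℝ) ^ (-(3 / 2) : ℝ)) *
        (((p.1 : ℝ) * p.2) ^ (-(A - 1)) *
          ‖ee T τ m n p - (if p.1 * m = p.2 * n then 1 else 0)‖) := by ring
    _ ≤ _ := by
        rw [mul_comm (Real.exp _ + _)]
        exact mul_le_mul_of_nonneg_left hb (by positivity)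

lemma eventually_le (A K : ℝ) : ∃ T₀ : ℝ, 3 ≤ T₀ ∧ ∀ T, T₀ ≤ T →
    (Real.exp (-(T ^ (1 / 200 : ℝ) / 8)) + T ^ (-(201 / 200) * (A - 1) : ℝ)) * K ≤
      T ^ (-(201 / 200) * (A - 1) + 1 / 100 : ℝ) := by
  set b : ℝ := 200 * (-(201 / 200) * (A - 1) + 1 / 100) with hb
  have hK : 0 < 2 * (|K| + 1) := by positivity
  have h1 : ∀ᶠ u : ℝ in atTop, Real.exp (-(u / 8)) * (2 * (|K| + 1)) ≤ u ^ b := by
    have := (isLittleO_exp_neg_mul_rpow_atTop (a := 1 / 8) (by norm_num) b).def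
      (c := (2 * (|K| + 1))⁻¹) (by positivity)
    filter_upwards [this, eventually_ge_atTop 0] with u hu hu0
    rw [Real.norm_eq_abs, Real.norm_eq_abs, abs_of_pos (Real.exp_pos _),
      abs_of_nonneg (Real.rpow_nonneg hu0 b)] at hu
    have e : -(u / 8) = -(1 / 8) * u := by ring
    rw [e]
    calc _ ≤ (2 * (|K| + 1))⁻¹ * u ^ b * (2 * (|K| + 1)) := by gcongr
      _ = u ^ b := by field_simp
  have h2 : ∀ᶠ T : ℝ in atTop, 2 * (|K| + 1) ≤ T ^ (1 / 100 : ℝ) :=
    (tendsto_rpow_atTop (by norm_num)).eventually_ge_atTop _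
  have h3 := (tendsto_rpow_atTop (y := 1 / 200) (by norm_num)).eventually h1
  obtain ⟨T₀, hT₀⟩ := eventually_atTop.mp (h2.and h3)
  refine ⟨max T₀ 3, le_max_right _ _, fun T hT => ?_⟩
  obtain ⟨g2, g3⟩ := hT₀ T ((le_max_left _ _).trans hT)
  have hT3 : 3 ≤ T := (le_max_right _ _).trans hT
  have hT0 : 0 < T := by linarith
  have e1 : (T ^ (1 / 200 : ℝ)) ^ b = T ^ (-(201 / 200) * (A - 1) + 1 / 100 : ℝ) := by
    rw [← Real.rpow_mul hT0.le, hb]
    congr 1
    ring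
  have e2 : T ^ (-(201 / 200) * (A - 1) + 1 / 100 : ℝ) =
      T ^ (-(201 / 200) * (A - 1) : ℝ) * T ^ (1 / 100 : ℝ) := by
    rw [← Real.rpow_add hT0]
  rw [e1] at g3
  have hKa : K ≤ |K| + 1 := by linarith [le_abs_self K]
  have g4 : T ^ (-(201 / 200) * (A - 1) : ℝ) * (2 * (|K| + 1)) ≤
      T ^ (-(201 / 200) * (A - 1) + 1 / 100 : ℝ) := by
    rw [e2]
    exact mul_le_mul_of_nonneg_left g2 (by positivity)
  calc _ ≤ (Real.exp (-(T ^ (1 / 200 : ℝ) / 8)) + T ^ (-(201 / 200) * (A - 1) : ℝ)) *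
        (|K| + 1) := by gcongr
    _ ≤ _ := by nlinarith

end PairAux

open PairAux in
theorem stPairA : StPairA := by
  intro A hA
  set K : ℝ := ∑' p : ℕ × ℕ, (p.1 : ℝ) ^ (-(3 / 2) : ℝ) * (p.2 : ℝ) ^ (-(3 / 2) : ℝ) with hK
  obtain ⟨T₀, hT₀, hmain⟩ := eventually_le A K
  refine ⟨T₀, hT₀, fun T hT τ m n hm hn hmn w hw => ?_⟩
  have hT1 : 1 ≤ T := by linarith
  have h1 := hasSum_EG (w := w) (by linarith) T τ hm hn
  have h2 := hasSum_main (w := w) (by linarith) hm hn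
  have h3 := h1.sub h2
  simp_rw [← mul_sub] at h3
  rw [← h3.tsum_eq]
  have hs : Summable fun p : ℕ × ℕ => (Real.exp (-(T ^ (1 / 200 : ℝ) / 8)) +
      T ^ (-(201 / 200) * (A - 1) : ℝ)) *
        ((p.1 : ℝ) ^ (-(3 / 2) : ℝ) * (p.2 : ℝ) ^ (-(3 / 2) : ℝ)) :=
    (summable_pairs (x := 3 / 2) (by norm_num)).mul_left _
  refine (tsum_of_norm_bounded hs.hasSum fun p => term_le hA hw hT1 τ hm hn hmn p).trans ?_
  rw [tsum_mul_left]
  exact hmain T hT

end K5
end Pool.Agent.Lib.MP_973905_nt
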