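import Pool.Agent.Lib.MP_973905_nt.K5.Stmts

/-! K5, module C1: the pointwise inequality for the top blocks. -/

namespace Pool.Agent.Lib.MP_973905_nt
namespace K5

open Complex Filter Topology K1

namespace PointAux

lemma Tp_succ (d : ℕ) (y : ℝ) : Tp (d + 1) y = Tp d y + y ^ (d + 1) / (d + 1).factorial := by
  unfold Tp
  rw [Finset.sum_range_succ]

lemma Tp_zero_left (y : ℝ) : Tp 0 y = 1 := by simp [Tp]

lemma Tp_zero (d : ℕ) : Tp d 0 = 1 := by
  induction d with
  | zero => simp [Tp]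
  | succ d ih => rw [Tp_succ, ih]; simp

lemma hasDerivAt_Tp (d : ℕ) (y : ℝ) : HasDerivAt (Tp (d + 1)) (Tp d y) y := by
  induction d with
  | zero =>
    have h : Tp (0 + 1) = fun y => 1 + y := by
      ext y
      rw [Tp_succ, Tp_zero_left]
      simp
    rw [h, Tp_zero_left]
    exact (hasDerivAt_id y).const_add 1
  | succ d ih =>
    have h : Tp (d + 1 + 1) = fun y => Tp (d + 1) y + y ^ (d + 1 + 1) / (d + 1 + 1).factorial := by
      ext y
      rw [Tp_succ]
    rw [h]
    have h1 := ih.add ((hasDerivAt_pow (d + 1 + 1) y).div_const ((d + 1 + 1).factorial : ℝ))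
    refine h1.congr_deriv ?_
    rw [Tp_succ d y, Nat.factorial_succ (d + 1)]
    have h2 : ((d + 1).factorial : ℝ) ≠ 0 := by positivity
    have h3 : ((d : ℝ) + 1 + 1) ≠ 0 := by positivity
    congr 1
    push_cast
    field_simp

lemma one_le_Tp (d : ℕ) {y : ℝ} (hy : 0 ≤ y) : 1 ≤ Tp d y := by
  induction d with
  | zero => rw [Tp_zero_left]
  | succ d ih =>
    rw [Tp_succ]
    have : 0 ≤ y ^ (d + 1) / ((d + 1).factorial : ℝ) := by positivity
    linarith

lemma Tp_mono {d e : ℕ} (hde : d ≤ e) {y : ℝ} (hy : 0 ≤ y) : Tp d y ≤ Tp e y := by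
  induction e, hde using Nat.le_induction with
  | base => exact le_rfl
  | succ e _ ih =>
    rw [Tp_succ]
    have : 0 ≤ y ^ (e + 1) / ((e + 1).factorial : ℝ) := by positivity
    linarith

/-- sign of the remainder on the negative half line -/
lemma Tp_sign (n : ℕ) : ∀ y : ℝ, y ≤ 0 → 0 ≤ (-1) ^ n * (Tp n y - Real.exp y) := by
  induction n with
  | zero =>
    intro y hy
    rw [Tp_zero_left, pow_zero, one_mul, sub_nonneg]
    exact Real.exp_le_one_iff.2 hy
  | succ n ih =>
    intro y hy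
    set g : ℝ → ℝ := fun y => (-1) ^ (n + 1) * (Tp (n + 1) y - Real.exp y) with hg
    have hder : ∀ y, HasDerivAt g ((-1) ^ (n + 1) * (Tp n y - Real.exp y)) y := fun y =>
      ((hasDerivAt_Tp n y).sub (Real.hasDerivAt_exp y)).const_mul _
    have hanti : AntitoneOn g (Set.Iic 0) := by
      refine antitoneOn_of_deriv_nonpos (convex_Iic 0)
        (fun y _ => (hder y).continuousAt.continuousWithinAt)
        (fun y _ => (hder y).differentiableAt.differentiableWithinAt) ?_
      intro y hy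
      rw [interior_Iic, Set.mem_Iio] at hy
      rw [(hder y).deriv]
      have h1 := ih y hy.le
      rw [pow_succ]
      linarith
    have h0 : g 0 = 0 := by
      simp only [hg]
      rw [Tp_zero, Real.exp_zero, sub_self, mul_zero]
    have h1 := hanti (Set.mem_Iic.2 hy) (Set.mem_Iic.2 le_rfl) hy
    rw [h0] at h1
    exact h1

lemma Tp_odd_le_one {n : ℕ} (hn : Odd n) {y : ℝ} (hy : y ≤ 0) : Tp n y ≤ 1 := by
  have h := Tp_sign n y hy
  rw [hn.neg_one_pow] at h
  have h2 := Real.exp_le_one_iff.2 hy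
  linarith

lemma Tp_even_pos {n : ℕ} (hn : Even n) (y : ℝ) : 0 < Tp n y := by
  rcases le_total 0 y with hy | hy
  · linarith [one_le_Tp n hy]
  · have h := Tp_sign n y hy
    rw [hn.neg_one_pow] at h
    have h2 := Real.exp_pos y
    linarith

lemma Tp_four {y : ℝ} (hy : 0 ≤ y) : 8 / 3 * y ≤ Tp 4 y := by
  have h : Tp 4 y = 1 + y + y ^ 2 / 2 + y ^ 3 / 6 + y ^ 4 / 24 := by
    simp only [Tp, Finset.sum_range_succ, Finset.sum_range_zero]
    norm_num [Nat.factorial]
  rw [h]
  nlinarith [sq_nonneg (y - 1), sq_nonneg (y ^ 2 - 1), sq_nonneg (y ^ 2 - y), mul_nonneg hy (sq_nonneg (y - 1))]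

/-- the correction, for `k ≤ 1/2` -/
noncomputable def et (k : ℝ) (d : ℕ) : ℝ :=
  3 / 8 * (k / ((1 - k) * (d * d.factorial))) * ((1 - k) ^ d - k ^ d)

lemma et_nonneg {k : ℝ} (hk : 0 < k) (hk2 : k ≤ 1 / 2) (d : ℕ) : 0 ≤ et k d := by
  unfold et
  have h1 : 0 < 1 - k := by linarith
  have h2 : k ^ d ≤ (1 - k) ^ d := pow_le_pow_left₀ hk.le (by linarith) d
  have h3 : 0 ≤ (1 - k) ^ d - k ^ d := by linarith
  positivity

/-- the two factors are positive and the logarithmic inequality holds -/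
lemma core {k : ℝ} (hk : 0 < k) (hk2 : k ≤ 1 / 2) {n : ℕ} (hn : Odd n) (hn3 : 3 ≤ n) (u : ℝ) :
    0 < Tp (n + 1) (-((1 - k) * u)) ∧ 0 < Tp (n + 1) (k * u) + et k (n + 1) * u ^ (n + 1) ∧
    0 ≤ k * Real.log (Tp (n + 1) (-((1 - k) * u))) +
      (1 - k) * Real.log (Tp (n + 1) (k * u) + et k (n + 1) * u ^ (n + 1)) := by
  have hp : 0 < 1 - k := by linarith
  have hev : Even (n + 1) := hn.add_one
  set η := et k (n + 1) with hη
  have hη0 : 0 ≤ η := et_nonneg hk hk2 _
  have hA : ∀ u : ℝ, 0 < Tp (n + 1) (-((1 - k) * u)) := fun u => Tp_even_pos hev _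
  have hB : ∀ u : ℝ, 0 < Tp (n + 1) (k * u) + η * u ^ (n + 1) := fun u => by
    have h1 := Tp_even_pos hev (k * u)
    have h2 : 0 ≤ η * u ^ (n + 1) := mul_nonneg hη0 (hev.pow_nonneg u)
    linarith
  refine ⟨hA u, hB u, ?_⟩
  set D : ℝ := (1 - k) ^ (n + 1) - k ^ (n + 1) with hD
  have hD0 : 0 ≤ D := by
    have := pow_le_pow_left₀ hk.le (show k ≤ 1 - k by linarith) (n + 1)
    linarith
  set fc : ℝ := ((n + 1).factorial : ℝ) with hfc
  have hfc0 : 0 < fc := by positivity
  have hηeq : η * ((1 - k) * ((n + 1 : ℕ) * fc)) = 3 / 8 * k * D := by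
    rw [hη, et, ← hfc, ← hD]
    have h3 : ((n + 1 : ℕ) : ℝ) ≠ 0 := by positivity
    field_simp
  set F : ℝ → ℝ := fun u => k * Real.log (Tp (n + 1) (-((1 - k) * u))) +
      (1 - k) * Real.log (Tp (n + 1) (k * u) + η * u ^ (n + 1)) with hF
  -- the derivative
  set N : ℝ → ℝ := fun u => k * u / fc * ((1 - k) ^ (n + 1) * Tp n (k * u) -
      k ^ (n + 1) * Tp n (-((1 - k) * u))) +
      η * ((n + 1 : ℕ) * Tp (n + 1) (-((1 - k) * u)) - k * u * Tp n (-((1 - k) * u))) with hN
  have hder : ∀ u : ℝ, HasDerivAt F ((1 - k) * (u ^ n * N u) /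
      (Tp (n + 1) (-((1 - k) * u)) * (Tp (n + 1) (k * u) + η * u ^ (n + 1)))) u := by
    intro u
    have h1 : HasDerivAt (fun u : ℝ => Tp (n + 1) (-((1 - k) * u)))
        (Tp n (-((1 - k) * u)) * (-((1 - k) * 1))) u := by
      have h0 : HasDerivAt (fun u : ℝ => -((1 - k) * u)) (-((1 - k) * 1)) u :=
        ((hasDerivAt_id u).const_mul (1 - k)).neg
      exact (hasDerivAt_Tp n (-((1 - k) * u))).comp u h0
    have h2 : HasDerivAt (fun u : ℝ => Tp (n + 1) (k * u) + η * u ^ (n + 1))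
        (Tp n (k * u) * (k * 1) + η * (((n + 1 : ℕ) : ℝ) * u ^ (n + 1 - 1))) u :=
      ((hasDerivAt_Tp n (k * u)).comp u ((hasDerivAt_id u).const_mul k)).add
        ((hasDerivAt_pow (n + 1) u).const_mul η)
    have h3 := ((h1.log (hA u).ne').const_mul k).add ((h2.log (hB u).ne').const_mul (1 - k))
    refine h3.congr_deriv ?_
    have h4 := (hA u).ne'
    have h5 := (hB u).ne'
    rw [Nat.add_sub_cancel]
    have e1 : Tp (n + 1) (-((1 - k) * u)) = Tp n (-((1 - k) * u)) + ((1 - k) * u) ^ (n + 1) / fc := by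
      rw [Tp_succ, hev.neg_pow]
    have e2 : Tp (n + 1) (k * u) = Tp n (k * u) + (k * u) ^ (n + 1) / fc := Tp_succ _ _
    have key : k * (Tp n (-((1 - k) * u)) * (-((1 - k) * 1))) *
        (Tp (n + 1) (k * u) + η * u ^ (n + 1)) +
        (1 - k) * (Tp n (k * u) * (k * 1) + η * (((n + 1 : ℕ) : ℝ) * u ^ n)) *
        Tp (n + 1) (-((1 - k) * u)) = (1 - k) * (u ^ n * N u) := by
      simp only [hN]
      have e3 : η * (((n + 1 : ℕ) : ℝ) * u ^ n) * Tp (n + 1) (-((1 - k) * u)) =
        u ^ n * (η * (((n + 1 : ℕ) : ℝ) * Tp (n + 1) (-((1 - k) * u)))) := by ring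
      have e4 : (1 - k) * (Tp n (k * u) * (k * 1) + η * (((n + 1 : ℕ) : ℝ) * u ^ n)) *
        Tp (n + 1) (-((1 - k) * u)) = (1 - k) * (Tp n (k * u) * k * Tp (n + 1) (-((1 - k) * u)) +
          u ^ n * (η * (((n + 1 : ℕ) : ℝ) * Tp (n + 1) (-((1 - k) * u))))) := by
        rw [← e3]; ring
      rw [e4, mul_add (u ^ n), mul_sub (η), mul_sub (u ^ n)]
      generalize u ^ n * (η * (((n + 1 : ℕ) : ℝ) * Tp (n + 1) (-((1 - k) * u)))) = Z
      rw [e1, e2, mul_pow, mul_pow, pow_succ u n]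
      field_simp
      ring
    rw [← key]
    field_simp
  -- the sign of the derivative
  have hNn : ∀ u : ℝ, 0 ≤ N u := by
    intro u
    have hc : (1 : ℝ) ≤ ((n + 1 : ℕ) : ℝ) := by
      push_cast
      have : (0 : ℝ) ≤ n := Nat.cast_nonneg n
      linarith
    rcases le_total 0 u with hu | hu
    · have h1 : 1 ≤ Tp n (k * u) := one_le_Tp n (by positivity)
      have h2 : Tp n (-((1 - k) * u)) ≤ 1 := Tp_odd_le_one hn (by
        have : 0 ≤ (1 - k) * u := by positivity
        linarith)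
      have h3 : D ≤ (1 - k) ^ (n + 1) * Tp n (k * u) - k ^ (n + 1) * Tp n (-((1 - k) * u)) := by
        have a1 : (1 - k) ^ (n + 1) * 1 ≤ (1 - k) ^ (n + 1) * Tp n (k * u) :=
          mul_le_mul_of_nonneg_left h1 (by positivity)
        have a2 : k ^ (n + 1) * Tp n (-((1 - k) * u)) ≤ k ^ (n + 1) * 1 :=
          mul_le_mul_of_nonneg_left h2 (by positivity)
        rw [hD]
        linarith
      have h4 : k * u / fc * D ≤ k * u / fc * ((1 - k) ^ (n + 1) * Tp n (k * u) -
          k ^ (n + 1) * Tp n (-((1 - k) * u))) := mul_le_mul_of_nonneg_left h3 (by positivity)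
      have h5 : -(k * u) ≤ (n + 1 : ℕ) * Tp (n + 1) (-((1 - k) * u)) -
          k * u * Tp n (-((1 - k) * u)) := by
        have a1 : 0 ≤ ((n + 1 : ℕ) : ℝ) * Tp (n + 1) (-((1 - k) * u)) :=
          mul_nonneg (by positivity) (hA u).le
        have a2 : k * u * Tp n (-((1 - k) * u)) ≤ k * u * 1 :=
          mul_le_mul_of_nonneg_left h2 (by positivity)
        linarith
      have h6 : η * (-(k * u)) ≤ η * ((n + 1 : ℕ) * Tp (n + 1) (-((1 - k) * u)) -
          k * u * Tp n (-((1 - k) * u))) := mul_le_mul_of_nonneg_left h5 hη0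
      have h7 : η * fc ≤ D := by
        -- `η fc (1-k)(n+1) = 3/8 k D`
        have a1 : (η * fc) * ((1 - k) * (n + 1 : ℕ)) = 3 / 8 * k * D := by rw [← hηeq]; ring
        have a2 : (1 - k) ≤ (1 - k) * (n + 1 : ℕ) := by nlinarith
        have a3 : (η * fc) * (1 - k) ≤ (η * fc) * ((1 - k) * (n + 1 : ℕ)) :=
          mul_le_mul_of_nonneg_left a2 (by positivity)
        have a4 : 3 / 8 * k * D ≤ (1 - k) * D := by nlinarith
        have a5 : (η * fc) * (1 - k) ≤ D * (1 - k) := by linarith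
        exact le_of_mul_le_mul_right a5 hp
      have h8 : η * (k * u) ≤ k * u / fc * D := by
        have : k * u / fc * D = (k * u / fc) * D := rfl
        rw [this]
        calc η * (k * u) = (k * u / fc) * (η * fc) := by field_simp
          _ ≤ (k * u / fc) * D := mul_le_mul_of_nonneg_left h7 (by positivity)
      simp only [hN]
      linarith
    · obtain ⟨w, rfl⟩ : ∃ w, u = -w := ⟨-u, by ring⟩
      have hw : 0 ≤ w := by linarith
      have e1 : -((1 - k) * -w) = (1 - k) * w := by ring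
      have e2 : k * -w = -(k * w) := by ring
      have h1 : Tp n (-(k * w)) ≤ 1 := Tp_odd_le_one hn (by
        have : 0 ≤ k * w := by positivity
        linarith)
      have h2 : 1 ≤ Tp n ((1 - k) * w) := one_le_Tp n (by positivity)
      have h3 : (1 - k) ^ (n + 1) * Tp n (-(k * w)) - k ^ (n + 1) * Tp n ((1 - k) * w) ≤ D := by
        have a1 : (1 - k) ^ (n + 1) * Tp n (-(k * w)) ≤ (1 - k) ^ (n + 1) * 1 :=
          mul_le_mul_of_nonneg_left h1 (by positivity)
        have a2 : k ^ (n + 1) * 1 ≤ k ^ (n + 1) * Tp n ((1 - k) * w) :=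
          mul_le_mul_of_nonneg_left h2 (by positivity)
        rw [hD]
        linarith
      have h4 : k * w / fc * ((1 - k) ^ (n + 1) * Tp n (-(k * w)) -
          k ^ (n + 1) * Tp n ((1 - k) * w)) ≤ k * w / fc * D :=
        mul_le_mul_of_nonneg_left h3 (by positivity)
      have h5 : 8 / 3 * ((1 - k) * w) ≤ Tp (n + 1) ((1 - k) * w) :=
        (Tp_four (by positivity)).trans (Tp_mono (by omega) (by positivity))
      have h6 : k * w / fc * D ≤ η * ((n + 1 : ℕ) * Tp (n + 1) ((1 - k) * w)) := by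
        have a1 : η * ((n + 1 : ℕ) * (8 / 3 * ((1 - k) * w))) ≤
            η * ((n + 1 : ℕ) * Tp (n + 1) ((1 - k) * w)) :=
          mul_le_mul_of_nonneg_left (mul_le_mul_of_nonneg_left h5 (by positivity)) hη0
        have a2 : η * ((n + 1 : ℕ) * (8 / 3 * ((1 - k) * w))) = k * w / fc * D := by
          have : η * ((n + 1 : ℕ) * (8 / 3 * ((1 - k) * w))) =
            (8 / 3) * w / fc * (η * ((1 - k) * ((n + 1 : ℕ) * fc))) := by field_simp
          rw [this, hηeq]
          field_simp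
        linarith
      have h7 : 0 ≤ η * (k * w * Tp n ((1 - k) * w)) := by positivity
      simp only [hN, e1, e2]
      have e3 : -(k * w) / fc * ((1 - k) ^ (n + 1) * Tp n (-(k * w)) -
          k ^ (n + 1) * Tp n ((1 - k) * w)) = -(k * w / fc * ((1 - k) ^ (n + 1) * Tp n (-(k * w)) -
          k ^ (n + 1) * Tp n ((1 - k) * w))) := by ring
      have e4 : η * ((n + 1 : ℕ) * Tp (n + 1) ((1 - k) * w) - -(k * w) * Tp n ((1 - k) * w)) =
          η * ((n + 1 : ℕ) * Tp (n + 1) ((1 - k) * w)) + η * (k * w * Tp n ((1 - k) * w)) := by ring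
      rw [e3, e4]
      linarith
  have hF0 : F 0 = 0 := by
    simp only [hF]
    rw [mul_zero, mul_zero, neg_zero, Tp_zero, zero_pow (by omega), mul_zero, add_zero,
      Real.log_one, mul_zero, mul_zero, add_zero]
  have hmono : MonotoneOn F (Set.Ici 0) := by
    refine monotoneOn_of_deriv_nonneg (convex_Ici 0)
      (fun y _ => (hder y).continuousAt.continuousWithinAt)
      (fun y _ => (hder y).differentiableAt.differentiableWithinAt) ?_
    intro y hy
    rw [interior_Ici, Set.mem_Ioi] at hy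
    rw [(hder y).deriv]
    exact div_nonneg (mul_nonneg hp.le (mul_nonneg (by positivity) (hNn y)))
      (mul_pos (hA y) (hB y)).le
  have hanti : AntitoneOn F (Set.Iic 0) := by
    refine antitoneOn_of_deriv_nonpos (convex_Iic 0)
      (fun y _ => (hder y).continuousAt.continuousWithinAt)
      (fun y _ => (hder y).differentiableAt.differentiableWithinAt) ?_
    intro y hy
    rw [interior_Iic, Set.mem_Iio] at hy
    rw [(hder y).deriv]
    refine div_nonpos_of_nonpos_of_nonneg ?_ (mul_pos (hA y) (hB y)).le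
    exact mul_nonpos_of_nonneg_of_nonpos hp.le
      (mul_nonpos_of_nonpos_of_nonneg (hn.pow_nonpos hy.le) (hNn y))
  rcases le_total 0 u with hu | hu
  · have := hmono (Set.mem_Ici.2 le_rfl) (Set.mem_Ici.2 hu) hu
    rw [hF0] at this
    exact this
  · have := hanti (Set.mem_Iic.2 hu) (Set.mem_Iic.2 le_rfl) hu
    rw [hF0] at this
    exact this

lemma dg_form (i : ℕ) : ∃ n, dg i = n + 1 ∧ Odd n ∧ 3 ≤ n := by
  unfold dg
  by_cases h : i = 0
  · exact ⟨3, by simp [h], by decide, le_rfl⟩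
  · refine ⟨2 * i + 1, by simp [h], ⟨i, rfl⟩, by omega⟩

lemma eta_small {k : ℝ} (hk : 0 < k) (hk2 : k ≤ 1 / 2) (d : ℕ) : eta k d = et k d := by
  unfold eta et
  rw [max_eq_right]
  exact et_nonneg hk hk2 d

lemma eta_large {k : ℝ} (hk : 1 / 2 ≤ k) (hk1 : k < 1) (d : ℕ) : eta k d = 0 := by
  unfold eta
  rw [max_eq_left]
  have h1 : 0 < 1 - k := by linarith
  have h2 : (1 - k) ^ d ≤ k ^ d := pow_le_pow_left₀ h1.le (by linarith) d
  have h3 : (1 - k) ^ d - k ^ d ≤ 0 := by linarith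
  refine mul_nonpos_of_nonneg_of_nonpos ?_ h3
  have : 0 < k := by linarith
  positivity

/-- from the logarithmic to the multiplicative form -/
lemma mult_form {k A B : ℝ} (hA : 0 < A) (hB : 0 < B)
    (h : 0 ≤ k * Real.log A + (1 - k) * Real.log B) : 1 ≤ A ^ k * B ^ (1 - k) := by
  rw [Real.rpow_def_of_pos hA, Real.rpow_def_of_pos hB, ← Real.exp_add]
  apply Real.one_le_exp
  linarith

end PointAux

open PointAux in
/-- module C1 -/
theorem stPoint : StPoint := by
  intro k i x hk hk1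
  obtain ⟨n, hdg, hn, hn3⟩ := dg_form i
  have hev : Even (n + 1) := hn.add_one
  rcases le_total k (1 / 2) with hk2 | hk2
  · obtain ⟨h1, h2, h3⟩ := core hk hk2 hn hn3 (2 * (x - (1 - k) * Vv i))
    have e1 : pf k i x = Tp (n + 1) (-((1 - k) * (2 * (x - (1 - k) * Vv i)))) := by
      unfold pf
      rw [hdg, eta_large (by linarith) (by linarith), zero_mul, add_zero]
      congr 1
      ring
    have e2 : pg k i x = Tp (n + 1) (k * (2 * (x - (1 - k) * Vv i))) +
        et k (n + 1) * (2 * (x - (1 - k) * Vv i)) ^ (n + 1) := by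
      unfold pg
      rw [hdg, eta_small hk hk2]
      congr 2
      ring
    rw [e1, e2]
    exact ⟨h1, h2, mult_form h1 h2 h3⟩
  · have hk' : 0 < 1 - k := by linarith
    obtain ⟨h1, h2, h3⟩ := core hk' (by linarith) hn hn3 (-(2 * (x - (1 - k) * Vv i)))
    have e1 : pf k i x = Tp (n + 1) ((1 - k) * -(2 * (x - (1 - k) * Vv i))) +
        et (1 - k) (n + 1) * (-(2 * (x - (1 - k) * Vv i))) ^ (n + 1) := by
      unfold pf
      rw [hdg, eta_small hk' (by linarith), hev.neg_pow]
      congr 2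
      ring
    have e2 : pg k i x = Tp (n + 1) (-((1 - (1 - k)) * -(2 * (x - (1 - k) * Vv i)))) := by
      unfold pg
      rw [hdg, eta_large hk2 hk1, zero_mul, add_zero]
      congr 1
      ring
    rw [e1, e2]
    refine ⟨h2, h1, mult_form h2 h1 ?_⟩
    have e3 : 1 - (1 - k) = k := by ring
    rw [e3] at h3 ⊢
    linarith

end K5
end Pool.Agent.Lib.MP_973905_nt
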