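import Pool.Agent.Lib.MP_973905_nt.K5.Stmts

/-! (B3) shifted prime sums over long blocks, by Riemann sums. -/

namespace Pool.Agent.Lib.MP_973905_nt
namespace K5
namespace PrimeIntAux

open MeasureTheory Complex Filter Topology

/-- the weight of a prime -/
noncomputable def g (u : ℂ) (x : ℝ) : ℂ := cexp (-(u * x))

theorem g_cont (u : ℂ) : Continuous (g u) := by
  unfold g
  fun_prop

theorem g_norm (u : ℂ) (hu : ‖u‖ ≤ 1) (x : ℝ) (h0 : 0 ≤ x) (h1 : x ≤ 1) : ‖g u x‖ ≤ 3 := by
  unfold g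
  have h2 : ‖cexp (-(u * x))‖ ≤ Real.exp 1 := by
    rw [Complex.norm_exp]
    apply Real.exp_le_exp.2
    calc (-(u * x)).re ≤ ‖-(u * x)‖ := Complex.re_le_norm _
      _ = ‖u‖ * |x| := by rw [norm_neg, norm_mul, Complex.norm_real, Real.norm_eq_abs]
      _ ≤ 1 * 1 := by
          apply mul_le_mul hu _ (abs_nonneg x) zero_le_one
          rw [abs_of_nonneg h0]; exact h1
      _ = 1 := by norm_num
  have := Real.exp_one_lt_d9
  linarith

theorem g_lip (u : ℂ) (hu : ‖u‖ ≤ 1) (x y : ℝ) (hx : 0 ≤ x) (hx1 : x ≤ 1) (hy : 0 ≤ y)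
    (hy1 : y ≤ 1) : ‖g u x - g u y‖ ≤ 6 * |x - y| := by
  have e : g u x - g u y = g u y * (cexp (-(u * ((x - y : ℝ) : ℂ))) - 1) := by
    unfold g
    rw [mul_sub, ← Complex.exp_add, mul_one]
    congr 2
    push_cast
    ring
  rw [e, norm_mul]
  have h1 := g_norm u hu y hy hy1
  have habs : |x - y| ≤ 1 := by rw [abs_le]; constructor <;> linarith
  have h3 : ‖-(u * ((x - y : ℝ) : ℂ))‖ ≤ |x - y| := by
    rw [norm_neg, norm_mul, Complex.norm_real, Real.norm_eq_abs]
    calc ‖u‖ * |x - y| ≤ 1 * |x - y| := mul_le_mul_of_nonneg_right hu (abs_nonneg _)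
      _ = |x - y| := one_mul _
  have h2 := Complex.norm_exp_sub_one_le (x := -(u * ((x - y : ℝ) : ℂ))) (h3.trans habs)
  calc ‖g u y‖ * ‖cexp (-(u * ((x - y : ℝ) : ℂ))) - 1‖ ≤ 3 * (2 * |x - y|) := by
        apply mul_le_mul h1 (h2.trans _) (norm_nonneg _) (by norm_num)
        linarith
    _ = 6 * |x - y| := by ring

/-- the prime sum of a block -/
noncomputable def S (L : ℝ) (u : ℂ) (a b : ℝ) : ℂ :=
  ∑ p ∈ PS (Real.exp (a * L)) (Real.exp (b * L)), (p : ℂ) ^ (-(1 + u / L))

theorem term (L : ℝ) (hL : 0 < L) (u : ℂ) (p : ℕ) (hp : 0 < p) :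
    (p : ℂ) ^ (-(1 + u / L)) = ((1 / (p : ℝ) : ℝ) : ℂ) * g u (Real.log p / L) := by
  have hp0 : (p : ℂ) ≠ 0 := by exact_mod_cast hp.ne'
  have hL0 : (L : ℂ) ≠ 0 := by exact_mod_cast hL.ne'
  rw [neg_add, Complex.cpow_add _ _ hp0, Complex.cpow_neg_one, Complex.cpow_def_of_ne_zero hp0]
  unfold g
  push_cast
  rw [one_div]
  congr 2
  field_simp

theorem mem_block (L a b : ℝ) (hL : 0 < L) (p : ℕ)
    (hp : p ∈ PS (Real.exp (a * L)) (Real.exp (b * L))) :
    0 < p ∧ a ≤ Real.log p / L ∧ Real.log p / L ≤ b := by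
  unfold PS at hp
  rw [Finset.mem_filter, Finset.mem_Ioc] at hp
  obtain ⟨⟨h1, h2⟩, h3⟩ := hp
  have hp0 : 0 < p := h3.pos
  have hp1 : (0 : ℝ) < p := by exact_mod_cast hp0
  refine ⟨hp0, ?_, ?_⟩
  · rw [le_div_iff₀ hL]
    have h4 : Real.exp (a * L) < p := (Nat.floor_lt (Real.exp_pos _).le).1 h1
    exact ((Real.lt_log_iff_exp_lt hp1).2 h4).le
  · rw [div_le_iff₀ hL]
    have h4 : (p : ℝ) ≤ Real.exp (b * L) := (Nat.le_floor_iff (Real.exp_pos _).le).1 h2
    exact (Real.log_le_iff_le_exp hp1).2 h4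

theorem S_block (L : ℝ) (hL : 0 < L) (u : ℂ) (hu : ‖u‖ ≤ 1) (a b : ℝ) (ha : 0 < a) (hab : a ≤ b)
    (hb : b ≤ 1) :
    ‖S L u a b - ((∑ p ∈ PS (Real.exp (a * L)) (Real.exp (b * L)), 1 / (p : ℝ) : ℝ) : ℂ) * g u a‖ ≤
      6 * (b - a) * ∑ p ∈ PS (Real.exp (a * L)) (Real.exp (b * L)), 1 / (p : ℝ) := by
  unfold S
  rw [Complex.ofReal_sum, Finset.sum_mul, ← Finset.sum_sub_distrib, Finset.mul_sum]
  refine (norm_sum_le _ _).trans (Finset.sum_le_sum fun p hp => ?_)
  obtain ⟨hp0, h1, h2⟩ := mem_block L a b hL p hp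
  rw [term L hL u p hp0, ← mul_sub, norm_mul, Complex.norm_real, Real.norm_eq_abs,
    abs_of_nonneg (by positivity)]
  have h3 := g_lip u hu (Real.log p / L) a (by linarith) (by linarith) ha.le (by linarith)
  have h4 : |Real.log p / L - a| ≤ b - a := by
    rw [abs_of_nonneg (by linarith)]; linarith
  have h5 : (0 : ℝ) ≤ 1 / (p : ℝ) := by positivity
  calc 1 / (p : ℝ) * ‖g u (Real.log p / L) - g u a‖ ≤ 1 / (p : ℝ) * (6 * (b - a)) := by
        apply mul_le_mul_of_nonneg_left _ h5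
        linarith
    _ = 6 * (b - a) * (1 / (p : ℝ)) := by ring

theorem vv_int (u : ℂ) (a b : ℝ) (ha : 0 < a) (hb : 0 < b) :
    IntervalIntegrable (fun x : ℝ => cexp (-(u * x)) / x) volume a b := by
  apply ContinuousOn.intervalIntegrable
  apply ContinuousOn.div (g_cont u).continuousOn Complex.continuous_ofReal.continuousOn
  intro x hx
  have : 0 < x := by
    rcases Set.mem_uIcc.1 hx with h | h <;> linarith [h.1]
  exact_mod_cast this.ne'

theorem I_block (u : ℂ) (hu : ‖u‖ ≤ 1) (a b : ℝ) (ha : 0 < a) (hab : a ≤ b) (hb : b ≤ 1) :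
    ‖vv a b u - ((Real.log (b / a) : ℝ) : ℂ) * g u a‖ ≤ 6 * (b - a) * Real.log (b / a) := by
  have hb0 : 0 < b := by linarith
  have hpos : ∀ x ∈ Set.uIcc a b, 0 < x := fun x hx => by
    rcases Set.mem_uIcc.1 hx with h | h <;> linarith [h.1]
  have e1 : ((Real.log (b / a) : ℝ) : ℂ) * g u a = ∫ x in a..b, (g u a) / (x : ℂ) := by
    have h1 := integral_one_div_of_pos ha hb0
    rw [← h1, ← intervalIntegral.integral_ofReal, ← intervalIntegral.integral_mul_const]
    apply intervalIntegral.integral_congr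
    intro x hx
    simp only
    push_cast
    ring
  have i2 : IntervalIntegrable (fun x : ℝ => (g u a) / (x : ℂ)) volume a b := by
    apply ContinuousOn.intervalIntegrable
    apply ContinuousOn.div continuousOn_const Complex.continuous_ofReal.continuousOn
    intro x hx
    exact_mod_cast (hpos x hx).ne'
  have e2 : vv a b u - ((Real.log (b / a) : ℝ) : ℂ) * g u a =
      ∫ x in a..b, (g u x - g u a) / (x : ℂ) := by
    rw [e1]
    unfold vv
    rw [← intervalIntegral.integral_sub (vv_int u a b ha hb0) i2]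
    apply intervalIntegral.integral_congr
    intro x hx
    simp only [g]
    ring
  rw [e2]
  have h3 : 6 * (b - a) * Real.log (b / a) = ∫ x in a..b, 6 * (b - a) * (1 / x) := by
    rw [intervalIntegral.integral_const_mul, integral_one_div_of_pos ha hb0]
  rw [h3]
  apply intervalIntegral.norm_integral_le_of_norm_le hab
  · apply Filter.Eventually.of_forall
    intro x hx
    have hx0 : 0 < x := by linarith [hx.1]
    rw [norm_div, Complex.norm_real, Real.norm_eq_abs, abs_of_pos hx0, div_eq_mul_one_div]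
    apply mul_le_mul_of_nonneg_right _ (by positivity)
    have h4 := g_lip u hu x a hx0.le (by linarith [hx.2]) ha.le (by linarith)
    have h5 : |x - a| ≤ b - a := by
      rw [abs_of_nonneg (by linarith [hx.1])]; linarith [hx.2]
    linarith
  · apply ContinuousOn.intervalIntegrable
    apply ContinuousOn.mul continuousOn_const
    apply ContinuousOn.div continuousOn_const continuousOn_id
    intro x hx
    exact (hpos x hx).ne'

theorem block (L : ℝ) (hL : 0 < L) (u : ℂ) (hu : ‖u‖ ≤ 1) (a b : ℝ) (ha : 0 < a) (hab : a ≤ b)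
    (hb : b ≤ 1) (h2 : 1 ≤ a * L) :
    ‖S L u a b - vv a b u‖ ≤ 12 * (b - a) * Real.log (b / a) + 90 / (a * L) := by
  have h0 : (2 : ℝ) ≤ Real.exp (a * L) := by
    have := Real.add_one_le_exp (a * L)
    linarith
  have h1 := S_block L hL u hu a b ha hab hb
  have h3 := I_block u hu a b ha hab hb
  have h4 := PrimeSum.range_bound (Real.exp (a * L)) (Real.exp (b * L)) h0
    (Real.exp_le_exp.2 (mul_le_mul_of_nonneg_right hab hL.le))
  rw [Real.log_exp, Real.log_exp, mul_div_mul_right _ _ hL.ne'] at h4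
  set P : ℝ := ∑ p ∈ PS (Real.exp (a * L)) (Real.exp (b * L)), 1 / (p : ℝ) with hP
  set l : ℝ := Real.log (b / a) with hl
  have hg := g_norm u hu a ha.le (by linarith)
  have h5 : ‖((P : ℝ) : ℂ) * g u a - ((l : ℝ) : ℂ) * g u a‖ ≤ 3 * (10 / (a * L)) := by
    rw [← sub_mul, norm_mul, ← Complex.ofReal_sub, Complex.norm_real, Real.norm_eq_abs, mul_comm]
    exact mul_le_mul hg h4 (abs_nonneg _) (by norm_num)
  have h6 : ‖S L u a b - vv a b u‖ ≤ ‖S L u a b - ((P : ℝ) : ℂ) * g u a‖ +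
      ‖((P : ℝ) : ℂ) * g u a - ((l : ℝ) : ℂ) * g u a‖ + ‖vv a b u - ((l : ℝ) : ℂ) * g u a‖ := by
    have e : S L u a b - vv a b u = (S L u a b - ((P : ℝ) : ℂ) * g u a) +
      (((P : ℝ) : ℂ) * g u a - ((l : ℝ) : ℂ) * g u a) - (vv a b u - ((l : ℝ) : ℂ) * g u a) := by
      ring
    calc ‖S L u a b - vv a b u‖ = _ := congrArg _ e
      _ ≤ ‖(S L u a b - ((P : ℝ) : ℂ) * g u a) +
          (((P : ℝ) : ℂ) * g u a - ((l : ℝ) : ℂ) * g u a)‖ +
          ‖vv a b u - ((l : ℝ) : ℂ) * g u a‖ := norm_sub_le _ _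
      _ ≤ _ := by
        gcongr
        exact norm_add_le _ _
  have h7 : P ≤ l + 10 / (a * L) := by
    have := (abs_le.1 h4).2
    linarith
  have h8 : 0 ≤ 10 / (a * L) := by positivity
  have h9 : 6 * (b - a) * P ≤ 6 * (b - a) * l + 6 * (10 / (a * L)) := by
    have : 6 * (b - a) * P ≤ 6 * (b - a) * (l + 10 / (a * L)) :=
      mul_le_mul_of_nonneg_left h7 (by linarith)
    have h10 : 6 * (b - a) * (10 / (a * L)) ≤ 6 * (10 / (a * L)) :=
      mul_le_mul_of_nonneg_right (by linarith) h8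
    linarith
  have e9 : 90 / (a * L) = 9 * (10 / (a * L)) := by ring
  rw [e9]
  linarith

theorem S_add (L : ℝ) (hL : 0 < L) (u : ℂ) (a b c : ℝ) (hab : a ≤ b) (hbc : b ≤ c) :
    S L u a c = S L u a b + S L u b c := by
  unfold S PS
  rw [Finset.sum_filter, Finset.sum_filter, Finset.sum_filter]
  rw [Finset.sum_Ioc_consecutive]
  · exact Nat.floor_mono (Real.exp_le_exp.2 (mul_le_mul_of_nonneg_right hab hL.le))
  · exact Nat.floor_mono (Real.exp_le_exp.2 (mul_le_mul_of_nonneg_right hbc hL.le))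

theorem vv_add (u : ℂ) (a b c : ℝ) (ha : 0 < a) (hb : 0 < b) (hc : 0 < c) :
    vv a c u = vv a b u + vv b c u :=
  (intervalIntegral.integral_add_adjacent_intervals (vv_int u a b ha hb) (vv_int u b c hb hc)).symm

theorem steps (L : ℝ) (hL : 0 < L) (u : ℂ) (hu : ‖u‖ ≤ 1) (lo h : ℝ) (hlo : 0 < lo) (hh : 0 < h)
    (h2 : 1 ≤ lo * L) (n : ℕ) (hn : lo + n * h ≤ 1) :
    ‖S L u lo (lo + n * h) - vv lo (lo + n * h) u‖ ≤
      12 * h * Real.log ((lo + n * h) / lo) + n * (90 / (lo * L)) := by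
  induction n with
  | zero =>
    have e : S L u lo (lo + (0 : ℕ) * h) = 0 := by
      unfold S PS
      simp
    have e2 : vv lo (lo + (0 : ℕ) * h) u = 0 := by
      unfold vv
      simp
    rw [e, e2]
    simp
  | succ n ih =>
    have hnh : 0 ≤ (n : ℝ) * h := by positivity
    have ecast : ((n + 1 : ℕ) : ℝ) = (n : ℝ) + 1 := by push_cast; ring
    rw [ecast] at hn ⊢
    have hstep : (lo + ((n : ℝ) + 1) * h) = (lo + n * h) + h := by ring
    rw [hstep] at hn ⊢
    have ih' := ih (by linarith)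
    have ha : 0 < lo + n * h := by linarith
    have h3 : 1 ≤ (lo + n * h) * L := by nlinarith [mul_nonneg hnh hL.le]
    have hb := block L hL u hu (lo + n * h) (lo + n * h + h) ha (by linarith) hn h3
    rw [S_add L hL u lo (lo + n * h) (lo + n * h + h) (by linarith) (by linarith),
      vv_add u lo (lo + n * h) (lo + n * h + h) hlo ha (by linarith)]
    have e3 : S L u lo (lo + n * h) + S L u (lo + n * h) (lo + n * h + h) -
        (vv lo (lo + n * h) u + vv (lo + n * h) (lo + n * h + h) u) =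
        (S L u lo (lo + n * h) - vv lo (lo + n * h) u) +
        (S L u (lo + n * h) (lo + n * h + h) - vv (lo + n * h) (lo + n * h + h) u) := by ring
    rw [e3]
    have h4 : 90 / ((lo + n * h) * L) ≤ 90 / (lo * L) := by
      apply div_le_div_of_nonneg_left (by norm_num) (by positivity)
      exact mul_le_mul_of_nonneg_right (by linarith) hL.le
    have h5 : Real.log ((lo + n * h + h) / lo) = Real.log ((lo + n * h) / lo) +
        Real.log ((lo + n * h + h) / (lo + n * h)) := by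
      rw [← Real.log_mul (by positivity) (by positivity)]
      congr 1
      field_simp
    have h6 : lo + n * h + h - (lo + n * h) = h := by ring
    rw [h6] at hb
    rw [h5]
    calc _ ≤ ‖S L u lo (lo + n * h) - vv lo (lo + n * h) u‖ +
        ‖S L u (lo + n * h) (lo + n * h + h) - vv (lo + n * h) (lo + n * h + h) u‖ :=
          norm_add_le _ _
      _ ≤ (12 * h * Real.log ((lo + n * h) / lo) + n * (90 / (lo * L))) +
          (12 * h * Real.log ((lo + n * h + h) / (lo + n * h)) + 90 / (lo * L)) := by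
          gcongr
          linarith
      _ = _ := by ring

end PrimeIntAux

open PrimeIntAux in
/-- (B3) shifted prime sums over long blocks -/
theorem stPrimeInt : StPrimeInt := by
  intro lo hi hlo hlohi hhi ε hε
  have hl : 0 ≤ Real.log (hi / lo) := Real.log_nonneg (by rw [le_div_iff₀ hlo]; linarith)
  obtain ⟨n, hn⟩ := exists_nat_gt (24 * (hi - lo) * Real.log (hi / lo) / ε)
  have hn0 : (0 : ℝ) < n := lt_of_le_of_lt (by
    have : 0 ≤ hi - lo := by linarith
    positivity) hn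
  refine ⟨max 3 (Real.exp (1 / lo + 180 * n / (lo * ε))), le_max_left _ _, fun T hT u hu => ?_⟩
  have hT3 : 3 ≤ T := (le_max_left _ _).trans hT
  have hT2 : Real.exp (1 / lo + 180 * n / (lo * ε)) ≤ T := (le_max_right _ _).trans hT
  have hL2 : 1 / lo + 180 * n / (lo * ε) ≤ Real.log T :=
    (Real.le_log_iff_exp_le (by linarith)).2 hT2
  have hp1 : 0 < 1 / lo := by positivity
  have hp2 : 0 < 180 * n / (lo * ε) := by positivity
  have hL : 0 < Real.log T := by linarith
  set L := Real.log T with hLdef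
  have h1 : 1 ≤ lo * L := by
    have : 1 / lo ≤ L := by linarith
    rw [div_le_iff₀ hlo] at this
    linarith
  have hh : 0 < (hi - lo) / n := div_pos (by linarith) hn0
  have e : lo + n * ((hi - lo) / n) = hi := by field_simp; ring
  have h2 := steps L hL u hu lo ((hi - lo) / n) hlo hh h1 n (by rw [e]; exact hhi)
  rw [e] at h2
  refine h2.trans ?_
  have h3 : 12 * ((hi - lo) / n) * Real.log (hi / lo) ≤ ε / 2 := by
    rw [div_lt_iff₀ hε] at hn
    have : 12 * ((hi - lo) / n) * Real.log (hi / lo) =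
      (12 * (hi - lo) * Real.log (hi / lo)) / n := by ring
    rw [this, div_le_iff₀ hn0]
    linarith
  have h4 : (n : ℝ) * (90 / (lo * L)) ≤ ε / 2 := by
    have h5 : 180 * n / (lo * ε) ≤ L := by linarith
    rw [div_le_iff₀ (by positivity)] at h5
    have : (n : ℝ) * (90 / (lo * L)) = (90 * n) / (lo * L) := by ring
    rw [this, div_le_iff₀ (by positivity)]
    linarith
  linarith

end K5
end Pool.Agent.Lib.MP_973905_nt
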