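import Pool.Agent.Lib.MP_973905_nt.K5.Stmts

/-! Cauchy's formula on a rectangle. -/

set_option autoImplicit false

namespace Pool.Agent.Lib.MP_973905_nt
namespace K5
namespace RectA

open MeasureTheory Complex Filter Topology Set

/-- The integral of `1/z` over a vertical side to the right of `0`. -/
lemma int_right (b V : ℝ) (hb : 0 < b) :
    (∫ y : ℝ in (-V)..V, 1 / ((b : ℂ) + y * I)) =
      -I * (Complex.log ((b : ℂ) + V * I) - Complex.log ((b : ℂ) - V * I)) := by
  have hd : ∀ y : ℝ, HasDerivAt (fun y : ℝ => -I * Complex.log ((b : ℂ) + y * I))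
      (1 / ((b : ℂ) + y * I)) y := by
    intro y
    have hs : (b : ℂ) + y * I ∈ slitPlane := by
      rw [mem_slitPlane_iff]
      left
      simpa using hb
    have h0 : (b : ℂ) + y * I ≠ 0 := slitPlane_ne_zero hs
    have h1 : HasDerivAt (fun y : ℝ => (b : ℂ) + y * I) I y := by
      have h2 : HasDerivAt (fun y : ℝ => (y : ℂ)) 1 y := Complex.ofRealCLM.hasDerivAt
      have h3 := (h2.mul_const I).const_add (b : ℂ)
      simpa using h3
    have h4 := (h1.clog_real hs).const_mul (-I)
    have e : 1 / ((b : ℂ) + y * I) = -I * (I / ((b : ℂ) + y * I)) := by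
      rw [← mul_div_assoc, neg_mul, I_mul_I, neg_neg]
    rw [e]
    exact h4
  rw [intervalIntegral.integral_eq_sub_of_hasDerivAt (fun y _ => hd y)]
  · push_cast
    ring_nf
  · apply Continuous.intervalIntegrable
    apply Continuous.div continuous_const (by fun_prop)
    intro y h
    have := congrArg Complex.re h
    simp at this
    exact hb.ne' this

/-- The integral of `1/z` over a vertical side to the left of `0`. -/
lemma int_left (a V : ℝ) (ha : 0 < a) :
    (∫ y : ℝ in (-V)..V, 1 / (-(a : ℂ) + y * I)) =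
      -I * (Complex.log ((a : ℂ) - V * I) - Complex.log ((a : ℂ) + V * I)) := by
  have h1 : (∫ y : ℝ in (-V)..V, 1 / (-(a : ℂ) + y * I))
      = ∫ y : ℝ in (-V)..V, (fun y : ℝ => -(1 / ((a : ℂ) + y * I))) (-y) := by
    apply intervalIntegral.integral_congr
    intro y _
    simp only
    push_cast
    rw [← neg_div_neg_eq, neg_div, neg_add, neg_neg]
    congr 2
    ring
  rw [h1, intervalIntegral.integral_comp_neg (fun y : ℝ => -(1 / ((a : ℂ) + y * I))), neg_neg,
    intervalIntegral.integral_neg, int_right a V ha]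
  ring

/-- The integral of `1/z` over a horizontal side. -/
lemma int_horiz (a b V : ℝ) (hV : V ≠ 0) :
    (∫ x : ℝ in (-a)..b, 1 / ((x : ℂ) + V * I)) =
      Complex.log ((b : ℂ) + V * I) - Complex.log (-(a : ℂ) + V * I) := by
  have hs : ∀ x : ℝ, (x : ℂ) + V * I ∈ slitPlane := by
    intro x
    rw [mem_slitPlane_iff]
    right
    simpa using hV
  have hd : ∀ x : ℝ, HasDerivAt (fun x : ℝ => Complex.log ((x : ℂ) + V * I))
      (1 / ((x : ℂ) + V * I)) x := by
    intro x
    have h1 : HasDerivAt (fun x : ℝ => (x : ℂ) + V * I) 1 x := by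
      have h2 : HasDerivAt (fun y : ℝ => (y : ℂ)) 1 x := Complex.ofRealCLM.hasDerivAt
      exact h2.add_const _
    exact h1.clog_real (hs x)
  rw [intervalIntegral.integral_eq_sub_of_hasDerivAt (fun y _ => hd y)]
  · push_cast
    ring_nf
  · apply Continuous.intervalIntegrable
    apply Continuous.div continuous_const (by fun_prop)
    intro x
    exact slitPlane_ne_zero (hs x)

lemma log_neg_of_im_pos (z : ℂ) (hz : 0 < z.im) :
    Complex.log (-z) = Complex.log z - Real.pi * I := by
  unfold Complex.log
  rw [norm_neg, arg_neg_eq_arg_sub_pi_of_im_pos hz]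
  push_cast
  ring

/-- The rectangle integral of `1/z`. -/
lemma int_inv (a b V : ℝ) (ha : 0 < a) (hb : 0 < b) (hV : 0 < V) :
    ((2 * Real.pi : ℝ) : ℂ) =
      (∫ y : ℝ in (-V)..V, 1 / ((b : ℂ) + y * I)) -
      (∫ y : ℝ in (-V)..V, 1 / (-(a : ℂ) + y * I)) -
      I * ((∫ x : ℝ in (-a)..b, 1 / ((x : ℂ) - V * I)) -
        ∫ x : ℝ in (-a)..b, 1 / ((x : ℂ) + V * I)) := by
  have h1 : (∫ x : ℝ in (-a)..b, 1 / ((x : ℂ) - V * I)) =
      Complex.log ((b : ℂ) - V * I) - Complex.log (-(a : ℂ) - V * I) := by
    have h := int_horiz a b (-V) (neg_ne_zero.mpr hV.ne')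
    push_cast at h
    simp only [neg_mul, ← sub_eq_add_neg] at h
    exact h
  rw [h1, int_horiz a b V hV.ne', int_right b V hb, int_left a V ha]
  have h2 : Complex.log (-(a : ℂ) - V * I) = Complex.log ((a : ℂ) + V * I) - Real.pi * I := by
    rw [← log_neg_of_im_pos _ (by simpa using hV)]
    congr 1
    ring
  have h3 : Complex.log ((a : ℂ) - V * I) = Complex.log (-(a : ℂ) + V * I) - Real.pi * I := by
    rw [← log_neg_of_im_pos _ (by simpa using hV)]
    congr 1
    ring
  rw [h2, h3]
  push_cast
  have hI : I * I = -1 := I_mul_I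
  linear_combination (2 * (Real.pi : ℂ)) * hI

end RectA

open MeasureTheory Complex Filter Topology Set in
theorem stRect : StRect := by
  intro f a b V ha hb hV hf
  set R : Set ℂ := {z : ℂ | -a ≤ z.re ∧ z.re ≤ b ∧ |z.im| ≤ V} with hR
  have hnhds : ∀ z : ℂ, -a < z.re → z.re < b → |z.im| < V → R ∈ 𝓝 z := by
    intro z h1 h2 h3
    have ho : IsOpen {z : ℂ | -a < z.re ∧ z.re < b ∧ |z.im| < V} := by
      apply IsOpen.inter (isOpen_lt continuous_const continuous_re)
      apply IsOpen.inter (isOpen_lt continuous_re continuous_const)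
      exact isOpen_lt (continuous_abs.comp continuous_im) continuous_const
    apply mem_of_superset (ho.mem_nhds ⟨h1, h2, h3⟩)
    rintro w ⟨h4, h5, h6⟩
    exact ⟨h4.le, h5.le, h6.le⟩
  have hR0 : R ∈ 𝓝 (0 : ℂ) := hnhds 0 (by simpa using ha) (by simpa using hb) (by simpa using hV)
  set g : ℂ → ℂ := dslope f 0 with hg
  have hgc : ContinuousOn g R := by
    rw [hg, continuousOn_dslope hR0]
    exact ⟨hf.continuousOn, hf.differentiableAt hR0⟩
  have hgd : ∀ z : ℂ, -a < z.re → z.re < b → |z.im| < V → z ≠ 0 → DifferentiableAt ℂ g z := by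
    intro z h1 h2 h3 h0
    rw [hg, differentiableAt_dslope_of_ne h0]
    exact hf.differentiableAt (hnhds z h1 h2 h3)
  have hcl : (uIcc (-a - V * I : ℂ).re (b + V * I : ℂ).re ×ℂ
      uIcc (-a - V * I : ℂ).im (b + V * I : ℂ).im) = R := by
    have e1 : (-a - V * I : ℂ).re = -a := by simp
    have e2 : (b + V * I : ℂ).re = b := by simp
    have e3 : (-a - V * I : ℂ).im = -V := by simp
    have e4 : (b + V * I : ℂ).im = V := by simp
    rw [e1, e2, e3, e4, uIcc_of_le (by linarith), uIcc_of_le (by linarith)]
    ext z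
    rw [mem_reProdIm, hR]
    simp only [mem_Icc, mem_ofPred_eq, abs_le, and_assoc]
  have hrect := Complex.integral_boundary_rect_eq_zero_of_differentiable_on_off_countable g
    (-a - V * I) (b + V * I) {0} (countable_singleton 0) (by rw [hcl]; exact hgc) (by
      intro z hz
      obtain ⟨hz1, hz0⟩ := hz
      rw [mem_reProdIm] at hz1
      have e1 : (-a - V * I : ℂ).re = -a := by simp
      have e2 : (b + V * I : ℂ).re = b := by simp
      have e3 : (-a - V * I : ℂ).im = -V := by simp
      have e4 : (b + V * I : ℂ).im = V := by simp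
      rw [e1, e2, e3, e4, min_eq_left (by linarith), max_eq_right (by linarith),
        min_eq_left (by linarith), max_eq_right (by linarith)] at hz1
      exact hgd z hz1.1.1 hz1.1.2 (abs_lt.mpr ⟨hz1.2.1, hz1.2.2⟩) hz0)
  have e1 : (-a - V * I : ℂ).re = -a := by simp
  have e2 : (b + V * I : ℂ).re = b := by simp
  have e3 : (-a - V * I : ℂ).im = -V := by simp
  have e4 : (b + V * I : ℂ).im = V := by simp
  rw [e1, e2, e3, e4] at hrect
  push_cast at hrect
  simp only [smul_eq_mul] at hrect
  -- decomposition on the boundary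
  have hdec : ∀ z : ℂ, z ≠ 0 → f z / z = g z + f 0 * (1 / z) := by
    intro z hz
    rw [hg, dslope_of_ne f hz, slope_def_field, sub_zero]
    ring
  have hcv : ∀ c : ℝ, c ≠ 0 → -a ≤ c → c ≤ b →
      (∫ y : ℝ in (-V)..V, f ((c : ℂ) + y * I) / ((c : ℂ) + y * I))
        = (∫ y : ℝ in (-V)..V, g ((c : ℂ) + y * I)) +
          f 0 * ∫ y : ℝ in (-V)..V, 1 / ((c : ℂ) + y * I) := by
    intro c hc hc1 hc2
    have hne : ∀ y : ℝ, (c : ℂ) + y * I ≠ 0 := by
      intro y h
      have := congrArg Complex.re h
      simp at this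
      exact hc this
    rw [← intervalIntegral.integral_const_mul, ← intervalIntegral.integral_add]
    · apply intervalIntegral.integral_congr
      intro y _
      exact hdec _ (hne y)
    · apply ContinuousOn.intervalIntegrable
      apply hgc.comp (by fun_prop)
      intro y hy
      rw [uIcc_of_le (by linarith)] at hy
      refine ⟨?_, ?_, ?_⟩
      · simpa using hc1
      · simpa using hc2
      · simpa using abs_le.mpr ⟨hy.1, hy.2⟩
    · apply Continuous.intervalIntegrable
      apply continuous_const.mul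
      exact Continuous.div continuous_const (by fun_prop) hne
  have hch : ∀ c : ℝ, |c| = V →
      (∫ x : ℝ in (-a)..b, f ((x : ℂ) + c * I) / ((x : ℂ) + c * I))
        = (∫ x : ℝ in (-a)..b, g ((x : ℂ) + c * I)) +
          f 0 * ∫ x : ℝ in (-a)..b, 1 / ((x : ℂ) + c * I) := by
    intro c hc
    have hc0 : c ≠ 0 := by
      intro h
      rw [h, abs_zero] at hc
      exact hV.ne hc
    have hne : ∀ x : ℝ, (x : ℂ) + c * I ≠ 0 := by
      intro x h
      have := congrArg Complex.im h
      simp at this
      exact hc0 this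
    rw [← intervalIntegral.integral_const_mul, ← intervalIntegral.integral_add]
    · apply intervalIntegral.integral_congr
      intro x _
      exact hdec _ (hne x)
    · apply ContinuousOn.intervalIntegrable
      apply hgc.comp (by fun_prop)
      intro x hx
      rw [uIcc_of_le (by linarith)] at hx
      refine ⟨?_, ?_, ?_⟩
      · simpa using hx.1
      · simpa using hx.2
      · simpa using hc.le
    · apply Continuous.intervalIntegrable
      apply continuous_const.mul
      exact Continuous.div continuous_const (by fun_prop) hne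
  have hA := hcv b hb.ne' (by linarith) le_rfl
  have hB := hcv (-a) (neg_ne_zero.mpr ha.ne') le_rfl (by linarith)
  have hC := hch V (abs_of_pos hV)
  have hD := hch (-V) (by rw [abs_neg, abs_of_pos hV])
  push_cast at hB hD
  have hinv := RectA.int_inv a b V ha hb hV
  simp only [neg_mul, ← sub_eq_add_neg] at hD hrect
  rw [hA, hB, hC, hD]
  have hI : I * I = -1 := I_mul_I
  linear_combination (f 0) * hinv + I * hrect
    - ((∫ y : ℝ in (-V)..V, g ((b : ℂ) + y * I)) - ∫ y : ℝ in (-V)..V, g (-(a : ℂ) + y * I)) * hI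

end K5
end Pool.Agent.Lib.MP_973905_nt
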