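import Pool.Agent.Lib.MP_973905_nt.K5.Stmts
import Pool.Agent.Lib.MP_973905_nt.CK

/-! Module C3: the side without zeta. -/

namespace Pool.Agent.Lib.MP_973905_nt
namespace K5

open MeasureTheory ProbabilityTheory Complex Filter Topology K1

namespace SecGm

/-- The product over the bottom blocks. -/
noncomputable def BotP (k T : ℝ) (M : ℕ) (g h : Finset ℕ) : ℝ :=
  ∏ j ∈ Finset.range (JJ T + 1), ES (Sj T M (JJ T) j) (fun f =>
    ‖Fc T M (JJ T) k g h j (tw (1 / 2) f)‖ ^ 2)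

/-- The product over the top blocks. -/
noncomputable def TopP (k T : ℝ) (M : ℕ) : ℝ :=
  ∏ i ∈ Finset.range (M - 2), ES (UB T i) (fun f => pg k i (Xb T i (tw (1 / 2) f)))

lemma BotP_nonneg (k T : ℝ) (M : ℕ) (g h : Finset ℕ) : 0 ≤ BotP k T M g h := by
  refine Finset.prod_nonneg fun j _ => ?_
  exact integral_nonneg fun ω => by positivity

/-- The mean is the product, up to a negligible error. -/
lemma core (hm : StMeanG) (hq : StBQ) (hf : StFact) {k : ℝ} (hk : 0 < k) (hk1 : k < 1) :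
    ∃ M₀ : ℕ, ∀ M : ℕ, M₀ ≤ M → ∃ T₀ : ℝ, 3 ≤ T₀ ∧ ∀ T, T₀ ≤ T → ∀ τ : ℝ, ∀ g h : Finset ℕ,
      EG T τ (fun t => ‖AA T M (JJ T) k g h (fs (1 / 2 + t * I))‖ ^ 2 *
        TG k T M (fs (1 / 2 + t * I))) ≤ BotP k T M g h * TopP k T M + T ^ (-10 : ℝ) := by
  obtain ⟨M₀, hq⟩ := hq k hk hk1
  obtain ⟨T₁, hT₁, hm⟩ := hm
  refine ⟨max M₀ 3, fun M hM => ?_⟩
  obtain ⟨T₂, hT₂, hq⟩ := hq M (le_trans (le_max_left _ _) hM)
  obtain ⟨T₃, hT₃, hf⟩ := hf k M (le_trans (le_max_right _ _) hM)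
  refine ⟨max T₁ (max T₂ T₃), hT₁.trans (le_max_left _ _), fun T hT τ g h => ?_⟩
  have h1 : T₁ ≤ T := (le_max_left _ _).trans hT
  have h2 : T₂ ≤ T := ((le_max_left _ _).trans (le_max_right _ _)).trans hT
  have h3 : T₃ ≤ T := ((le_max_right _ _).trans (le_max_right _ _)).trans hT
  have hT1 : 1 ≤ T := by linarith
  obtain ⟨c, hc1, hc2, hc3⟩ := (hq T h2 g h).2
  set N := ⌊T ^ (89 / 100 : ℝ)⌋₊ with hN
  have hNT : (N : ℝ) ≤ T := by
    refine (Nat.floor_le (by positivity)).trans ?_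
    calc T ^ (89 / 100 : ℝ) ≤ T ^ (1 : ℝ) := Real.rpow_le_rpow_of_exponent_le hT1 (by norm_num)
      _ = T := Real.rpow_one T
  have e1 := hm T h1 τ N c hNT hc1 hc2
  have e2 := (hf T h3 g h N c hNT).2 hc3
  have e3 : EG T τ (fun t => GB N c (fs (1 / 2 + t * I))) =
      ((EG T τ (fun t => ‖AA T M (JJ T) k g h (fs (1 / 2 + t * I))‖ ^ 2 *
        TG k T M (fs (1 / 2 + t * I))) : ℝ) : ℂ) := by
    unfold EG
    refine Eq.trans (integral_congr_ae (Filter.Eventually.of_forall fun t => ?_)) integral_ofReal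
    exact (hc3 _ (cmul_fs _)).symm
  rw [e2, e3, ← ofReal_sub, norm_real, Real.norm_eq_abs] at e1
  have e4 := (abs_le.1 e1).2
  simp only [BotP, TopP]
  linarith

/-- The product over the top blocks for fixed `M` -/
lemma top (ht : StTopLim) {k : ℝ} (hk : 0 < k) (hk1 : k < 1) (M : ℕ) (ε : ℝ) (hε : 0 < ε) :
    ∃ T₀ : ℝ, 3 ≤ T₀ ∧ ∀ T, T₀ ≤ T → ∀ i ∈ Finset.range (M - 2),
      |ES (UB T i) (fun f => pg k i (Xb T i (tw (1 / 2) f))) - aG k i| ≤ ε := by
  have h1 : ∀ i : ℕ, ∃ T₀ : ℝ, 3 ≤ T₀ ∧ ∀ T, T₀ ≤ T →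
      |ES (UB T i) (fun f => pg k i (Xb T i (tw (1 / 2) f))) - aG k i| ≤ ε := by
    intro i
    obtain ⟨T₀, h1, h2⟩ := ht k hk hk1 i ε hε
    exact ⟨T₀, h1, fun T hT => (h2 T hT).2⟩
  choose F hF hF' using h1
  refine ⟨3 + ∑ i ∈ Finset.range (M - 2), F i, ?_, fun T hT i hi => ?_⟩
  · have : 0 ≤ ∑ i ∈ Finset.range (M - 2), F i :=
      Finset.sum_nonneg fun i _ => by linarith [hF i]
    linarith
  · apply hF' i T
    have : F i ≤ ∑ i ∈ Finset.range (M - 2), F i :=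
      Finset.single_le_sum (fun i _ => by linarith [hF i]) hi
    linarith

lemma eventually_T {P : ℝ → Prop} (h : ∀ᶠ T in atTop, P T) :
    ∃ T₀ : ℝ, 3 ≤ T₀ ∧ ∀ T, T₀ ≤ T → P T := by
  obtain ⟨T₀, h⟩ := eventually_atTop.mp h
  exact ⟨max 3 T₀, le_max_left _ _, fun T hT => h T ((le_max_right _ _).trans hT)⟩

end SecGm

open SecGm in
theorem stSecG (hm : StMeanG) (hq : StBQ) (hf : StFact) (hb : StBotG) (ht : StTopLim)
    (hr : StRho) : StSecG := by
  intro k hk hk1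
  obtain ⟨M₀, hcore⟩ := core hm hq hf hk hk1
  obtain ⟨hb1, Cb, hCb, Mb, hb2⟩ := hb k hk hk1
  obtain ⟨-, -, -, C, hC1, hC2, -, -⟩ := hr k hk hk1
  have hC0 : 0 < C := by linarith
  have haG : ∀ i, 0 < aG k i := fun i => lt_of_lt_of_le (by positivity) (hC2 i).2.2.1
  have haK : 0 < aK k := aK_pos hk hk1.le
  constructor
  · intro η hη
    -- choice of the small parameter
    set δ : ℝ := min (η / 4) (1 / 4) with hδ
    have hδ0 : 0 < δ := by rw [hδ]; positivity
    have hδ1 : δ ≤ η / 4 := min_le_left _ _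
    have hδ2 : δ ≤ 1 / 4 := min_le_right _ _
    have hδ3 : (1 + δ) * (1 + δ) + δ ≤ 1 + η := by nlinarith
    obtain ⟨M₁, hb1⟩ := hb1 δ hδ0
    refine ⟨max M₀ M₁, fun M hM => ?_⟩
    obtain ⟨T₁, hT₁, hcore⟩ := hcore M ((le_max_left _ _).trans hM)
    obtain ⟨T₂, hT₂, hb1⟩ := hb1 M ((le_max_right _ _).trans hM)
    -- the top blocks
    obtain ⟨e, he0, he1, he2⟩ : ∃ e : ℝ, 0 < e ∧ e ≤ C⁻¹ ∧ (1 + C * e) ^ (M - 2) ≤ 1 + δ := by
      have h1 : Tendsto (fun e : ℝ => (1 + C * e) ^ (M - 2)) (𝓝[>] 0) (𝓝 1) := by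
        have : Tendsto (fun e : ℝ => (1 + C * e) ^ (M - 2)) (𝓝 0) (𝓝 ((1 + C * 0) ^ (M - 2))) :=
          Continuous.tendsto (by fun_prop) 0
        simp only [mul_zero, add_zero, one_pow] at this
        exact this.mono_left nhdsWithin_le_nhds
      have h2 := h1.eventually (Iic_mem_nhds (show (1 : ℝ) < 1 + δ by linarith))
      have h3 : ∀ᶠ e : ℝ in 𝓝[>] 0, e ≤ C⁻¹ := by
        refine eventually_nhdsWithin_of_eventually_nhds ?_
        exact Iic_mem_nhds (by positivity)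
      obtain ⟨e, h4, h5, h6⟩ := (h2.and (h3.and self_mem_nhdsWithin)).exists
      exact ⟨e, h6, h5, h4⟩
    obtain ⟨T₃, hT₃, htop⟩ := top ht hk hk1 M e he0
    set PG : ℝ := ∏ i ∈ Finset.range (M - 2), aG k i with hPG
    have hPG0 : 0 < PG := Finset.prod_pos fun i _ => haG i
    have htopP : ∀ T, T₃ ≤ T → 0 ≤ TopP k T M ∧ TopP k T M ≤ (1 + δ) * PG := by
      intro T hT
      have hge : ∀ i ∈ Finset.range (M - 2),
          0 ≤ ES (UB T i) (fun f => pg k i (Xb T i (tw (1 / 2) f))) ∧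
          ES (UB T i) (fun f => pg k i (Xb T i (tw (1 / 2) f))) ≤ (1 + C * e) * aG k i := by
        intro i hi
        have h1 := abs_le.1 (htop T hT i hi)
        have h2 := (hC2 i).2.2.1
        constructor
        · linarith
        · have h3 : 1 ≤ C * aG k i := by
            calc 1 = C * C⁻¹ := (mul_inv_cancel₀ hC0.ne').symm
              _ ≤ _ := by gcongr
          nlinarith
      constructor
      · exact Finset.prod_nonneg fun i hi => (hge i hi).1
      · calc TopP k T M ≤ ∏ i ∈ Finset.range (M - 2), ((1 + C * e) * aG k i) :=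
              Finset.prod_le_prod (fun i hi => (hge i hi).1) fun i hi => (hge i hi).2
          _ = (1 + C * e) ^ (M - 2) * PG := by
              rw [Finset.prod_mul_distrib, Finset.prod_const, Finset.card_range]
          _ ≤ _ := by gcongr
    -- the error term
    obtain ⟨T₄, hT₄, herr⟩ := eventually_T (P := fun T => 1 ≤ lM T M ∧ T ^ (-10 : ℝ) ≤
        δ * (aK k * PG)) (by
      have h1 : Tendsto (fun T => lM T M) atTop atTop :=
        Tendsto.const_mul_atTop (Real.exp_pos _) Real.tendsto_log_atTop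
      have h2 : Tendsto (fun T : ℝ => T ^ (-10 : ℝ)) atTop (𝓝 0) :=
        tendsto_rpow_neg_atTop (by norm_num)
      exact (h1.eventually_ge_atTop 1).and
        (h2.eventually (Iic_mem_nhds (show (0 : ℝ) < δ * (aK k * PG) by positivity))))
    refine ⟨max (max T₁ T₂) (max T₃ T₄), hT₁.trans ((le_max_left _ _).trans (le_max_left _ _)),
      fun T hT τ => ?_⟩
    have h1 : T₁ ≤ T := ((le_max_left _ _).trans (le_max_left _ _)).trans hT
    have h2 : T₂ ≤ T := ((le_max_right _ _).trans (le_max_left _ _)).trans hT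
    have h3 : T₃ ≤ T := ((le_max_left _ _).trans (le_max_right _ _)).trans hT
    have h4 : T₄ ≤ T := ((le_max_right _ _).trans (le_max_right _ _)).trans hT
    have k1 := hcore T h1 τ (Finset.range (JJ T + 1)) ∅
    have k2 : BotP k T M (Finset.range (JJ T + 1)) ∅ ≤ (1 + δ) * (aK k * lM T M ^ (k ^ 2)) :=
      hb1 T h2
    obtain ⟨k3, k4⟩ := htopP T h3
    obtain ⟨k5, k6⟩ := herr T h4
    have k7 : 1 ≤ lM T M ^ (k ^ 2) := Real.one_le_rpow k5 (by positivity)
    have hlM : 0 < lM T M := by linarith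
    set Λ : ℝ := aK k * lM T M ^ (k ^ 2) with hΛ
    have hΛ0 : 0 < Λ := by positivity
    have k8 : aK k ≤ Λ := by
      rw [hΛ]; nlinarith
    calc EG T τ (fun t => ‖NN T M k (fs (1 / 2 + t * I))‖ ^ 2 * TG k T M (fs (1 / 2 + t * I)))
        ≤ BotP k T M (Finset.range (JJ T + 1)) ∅ * TopP k T M + T ^ (-10 : ℝ) := k1
      _ ≤ ((1 + δ) * Λ) * ((1 + δ) * PG) + δ * (Λ * PG) := by
          have : T ^ (-10 : ℝ) ≤ δ * (Λ * PG) := k6.trans (by gcongr)
          have : BotP k T M (Finset.range (JJ T + 1)) ∅ * TopP k T M ≤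
              ((1 + δ) * Λ) * ((1 + δ) * PG) := mul_le_mul k2 k4 k3 (by positivity)
          linarith
      _ = ((1 + δ) * (1 + δ) + δ) * (Λ * PG) := by ring
      _ ≤ (1 + η) * (Λ * PG) := by gcongr
  · refine ⟨Cb + Real.log (C + 1), 10, ?_, by norm_num, max M₀ Mb, fun M hM => ?_⟩
    · have : 0 < Real.log (C + 1) := Real.log_pos (by linarith)
      linarith
    obtain ⟨T₁, hT₁, hcore⟩ := hcore M ((le_max_left _ _).trans hM)
    obtain ⟨T₂, hT₂, hb2⟩ := hb2 M ((le_max_right _ _).trans hM)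
    obtain ⟨T₃, hT₃, htop⟩ := top ht hk hk1 M C⁻¹ (by positivity)
    refine ⟨max T₁ (max T₂ T₃), hT₁.trans (le_max_left _ _), fun T hT τ g h hgh => ?_⟩
    have h1 : T₁ ≤ T := (le_max_left _ _).trans hT
    have h2 : T₂ ≤ T := ((le_max_left _ _).trans (le_max_right _ _)).trans hT
    have h3 : T₃ ≤ T := ((le_max_right _ _).trans (le_max_right _ _)).trans hT
    have k1 := hcore T h1 τ g h
    have k2 : BotP k T M g h ≤ Real.exp (Cb * M) * Real.log T ^ (k ^ 2) *
        ∏ j ∈ h, ss M (JJ T) j := hb2 T h2 g h hgh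
    have hge : ∀ i ∈ Finset.range (M - 2),
        0 ≤ ES (UB T i) (fun f => pg k i (Xb T i (tw (1 / 2) f))) ∧
        ES (UB T i) (fun f => pg k i (Xb T i (tw (1 / 2) f))) ≤ C + 1 := by
      intro i hi
      have h4 := abs_le.1 (htop T h3 i hi)
      have h5 := (hC2 i).2.2
      have h6 : C⁻¹ ≤ 1 := inv_le_one_of_one_le₀ hC1
      constructor <;> linarith
    have k3 : 0 ≤ TopP k T M := Finset.prod_nonneg fun i hi => (hge i hi).1
    have k4 : TopP k T M ≤ Real.exp (Real.log (C + 1) * M) := by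
      calc TopP k T M ≤ ∏ i ∈ Finset.range (M - 2), (C + 1) :=
            Finset.prod_le_prod (fun i hi => (hge i hi).1) fun i hi => (hge i hi).2
        _ = (C + 1) ^ (M - 2) := by rw [Finset.prod_const, Finset.card_range]
        _ ≤ (C + 1) ^ M := pow_le_pow_right₀ (by linarith) (Nat.sub_le _ _)
        _ = Real.exp (Real.log (C + 1) * M) := by
            rw [mul_comm, Real.exp_nat_mul, Real.exp_log (by linarith)]
    have k5 : BotP k T M g h * TopP k T M ≤ Real.exp (Cb * M) * Real.log T ^ (k ^ 2) *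
        (∏ j ∈ h, ss M (JJ T) j) * Real.exp (Real.log (C + 1) * M) :=
      mul_le_mul k2 k4 k3 ((BotP_nonneg _ _ _ _ _).trans k2)
    have k6 : Real.exp (Cb * M) * Real.log T ^ (k ^ 2) *
        (∏ j ∈ h, ss M (JJ T) j) * Real.exp (Real.log (C + 1) * M) =
        Real.exp ((Cb + Real.log (C + 1)) * M) * Real.log T ^ (k ^ 2) * ∏ j ∈ h, ss M (JJ T) j := by
      rw [add_mul, Real.exp_add]; ring
    rw [k6] at k5
    linarith

end K5
end Pool.Agent.Lib.MP_973905_nt
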