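import Pool.Agent.Lib.MP_973905_nt.K5.Stmts
import Pool.Agent.Lib.MP_973905_nt.K1.Strip

/-! K5 module A1: analyticity and growth of the shifted second moment against a bounded weight. -/

namespace Pool.Agent.Lib.MP_973905_nt
namespace K5
namespace StripH

open MeasureTheory ProbabilityTheory Complex Filter Topology K1 K1.Strip

lemma part1 (T τ B : ℝ) (W : ℝ → ℂ) (hWc : Continuous W) (hWb : ∀ t, ‖W t‖ ≤ B) :
    DifferentiableOn ℂ (FH T τ W) {a : ℂ | |a.re| < 1 / 4} := by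
  obtain ⟨C, hC, hz⟩ := zeta_lin
  obtain ⟨D, hD, hd⟩ := deriv_zeta_lin
  intro a₀ ha₀
  have hre : ∀ a ∈ {a : ℂ | |a.re| < 1 / 4}, -(1 / 4) < a.re ∧ a.re < 1 / 4 := by
    intro a ha
    exact abs_lt.mp ha
  have hcz : ∀ a ∈ {a : ℂ | |a.re| < 1 / 4}, Continuous fun t : ℝ =>
      riemannZeta (1 / 2 + a + t * I) * riemannZeta (1 / 2 + a - t * I) * W t := by
    intro a ha
    have h1 := hre a ha
    exact ((cont_zeta_comp (by fun_prop) fun t => by rw [re_add]; linarith).mul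
      (cont_zeta_comp (by fun_prop) fun t => by rw [re_sub]; linarith)).mul hWc
  have hcd : ∀ a ∈ {a : ℂ | |a.re| < 1 / 4}, Continuous fun t : ℝ =>
      (deriv riemannZeta (1 / 2 + a + t * I) * riemannZeta (1 / 2 + a - t * I) +
        riemannZeta (1 / 2 + a + t * I) * deriv riemannZeta (1 / 2 + a - t * I)) * W t := by
    intro a ha
    have h1 := hre a ha
    exact (((cont_deriv_zeta_comp (by fun_prop) fun t => by rw [re_add]; linarith).mul
      (cont_zeta_comp (by fun_prop) fun t => by rw [re_sub]; linarith)).add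
      ((cont_zeta_comp (by fun_prop) fun t => by rw [re_add]; linarith).mul
      (cont_deriv_zeta_comp (by fun_prop) fun t => by rw [re_sub]; linarith))).mul hWc
  have hball : Metric.ball a₀ 1 ∩ {a : ℂ | |a.re| < 1 / 4} ∈ 𝓝 a₀ :=
    Filter.inter_mem (Metric.ball_mem_nhds a₀ one_pos) (isOpen_strip.mem_nhds ha₀)
  have him : ∀ a ∈ Metric.ball a₀ 1, 1 + |a.im| ≤ 2 + |a₀.im| := by
    intro a ha
    rw [Metric.mem_ball, dist_eq_norm] at ha
    have h6 := (abs_im_le_norm (a - a₀)).trans ha.le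
    rw [sub_im] at h6
    have h7 := abs_sub_abs_le_abs_sub a.im a₀.im
    linarith
  have hza : ∀ a ∈ {a : ℂ | |a.re| < 1 / 4}, ∀ t : ℝ, ‖riemannZeta (1 / 2 + a + t * I)‖ ≤
      C * ((1 + |a.im|) * (1 + |t|)) := by
    intro a ha t
    have h1 := hre a ha
    refine (hz _ (by rw [re_add]; linarith) (by rw [re_add]; linarith)).trans ?_
    rw [im_add]
    exact mul_le_mul_of_nonneg_left (one_add_abs_add _ _) hC.le
  have hzs : ∀ a ∈ {a : ℂ | |a.re| < 1 / 4}, ∀ t : ℝ, ‖riemannZeta (1 / 2 + a - t * I)‖ ≤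
      C * ((1 + |a.im|) * (1 + |t|)) := by
    intro a ha t
    have h1 := hre a ha
    refine (hz _ (by rw [re_sub]; linarith) (by rw [re_sub]; linarith)).trans ?_
    rw [im_sub]
    exact mul_le_mul_of_nonneg_left (one_add_abs_sub _ _) hC.le
  have hda : ∀ a ∈ {a : ℂ | |a.re| < 1 / 4}, ∀ t : ℝ, ‖deriv riemannZeta (1 / 2 + a + t * I)‖ ≤
      D * ((1 + |a.im|) * (1 + |t|)) := by
    intro a ha t
    have h1 := hre a ha
    refine (hd _ (by rw [re_add]; linarith) (by rw [re_add]; linarith)).trans ?_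
    rw [im_add]
    exact mul_le_mul_of_nonneg_left (one_add_abs_add _ _) hD.le
  have hds : ∀ a ∈ {a : ℂ | |a.re| < 1 / 4}, ∀ t : ℝ, ‖deriv riemannZeta (1 / 2 + a - t * I)‖ ≤
      D * ((1 + |a.im|) * (1 + |t|)) := by
    intro a ha t
    have h1 := hre a ha
    refine (hd _ (by rw [re_sub]; linarith) (by rw [re_sub]; linarith)).trans ?_
    rw [im_sub]
    exact mul_le_mul_of_nonneg_left (one_add_abs_sub _ _) hD.le
  have hB : 0 ≤ B := (norm_nonneg _).trans (hWb 0)
  have key := hasDerivAt_integral_of_dominated_loc_of_deriv_le (μ := gaussianReal τ (VV T))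
    (F := fun a t => riemannZeta (1 / 2 + a + (t : ℝ) * I) * riemannZeta (1 / 2 + a - t * I) * W t)
    (F' := fun a t => (deriv riemannZeta (1 / 2 + a + t * I) * riemannZeta (1 / 2 + a - t * I) +
        riemannZeta (1 / 2 + a + t * I) * deriv riemannZeta (1 / 2 + a - t * I)) * W t)
    (bound := fun t => (2 * C * D * (2 + |a₀.im|) ^ 2 * B) * (1 + |t|) ^ 2)
    (x₀ := a₀) hball ?_ ?_ ?_ ?_ ?_ ?_
  · have h1 : FH T τ W = fun a => ∫ t : ℝ, riemannZeta (1 / 2 + a + (t : ℝ) * I) *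
        riemannZeta (1 / 2 + a - t * I) * W t ∂(gaussianReal τ (VV T)) := rfl
    rw [h1]
    exact key.2.differentiableAt.differentiableWithinAt
  · filter_upwards [isOpen_strip.mem_nhds ha₀] with a ha
    exact (hcz a ha).aestronglyMeasurable
  · refine integrable_of_poly τ (VV T) (hcz a₀ ha₀).aestronglyMeasurable
      (C := C ^ 2 * (1 + |a₀.im|) ^ 2 * B) (m := 2) fun t => ?_
    rw [norm_mul, norm_mul]
    calc ‖riemannZeta (1 / 2 + a₀ + t * I)‖ * ‖riemannZeta (1 / 2 + a₀ - t * I)‖ * ‖W t‖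
        ≤ (C * ((1 + |a₀.im|) * (1 + |t|))) * (C * ((1 + |a₀.im|) * (1 + |t|))) * B := by
          gcongr
          · exact hza a₀ ha₀ t
          · exact hzs a₀ ha₀ t
          · exact hWb t
      _ = _ := by ring
  · exact (hcd a₀ ha₀).aestronglyMeasurable
  · refine Filter.Eventually.of_forall fun t a ha => ?_
    have h1 := him a ha.1
    have h2 := hza a ha.2 t
    have h3 := hzs a ha.2 t
    have h4 := hda a ha.2 t
    have h5 := hds a ha.2 t
    have h6 : (1 + |a.im|) * (1 + |t|) ≤ (2 + |a₀.im|) * (1 + |t|) :=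
      mul_le_mul_of_nonneg_right h1 (by positivity)
    rw [norm_mul]
    have h7 : ‖deriv riemannZeta (1 / 2 + a + t * I) * riemannZeta (1 / 2 + a - t * I) +
        riemannZeta (1 / 2 + a + t * I) * deriv riemannZeta (1 / 2 + a - t * I)‖ ≤
        D * ((2 + |a₀.im|) * (1 + |t|)) * (C * ((2 + |a₀.im|) * (1 + |t|))) +
        C * ((2 + |a₀.im|) * (1 + |t|)) * (D * ((2 + |a₀.im|) * (1 + |t|))) := by
      refine (norm_add_le _ _).trans ?_
      rw [norm_mul, norm_mul]
      have h8 := mul_le_mul_of_nonneg_left h6 hC.le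
      have h9 := mul_le_mul_of_nonneg_left h6 hD.le
      gcongr
      · exact h4.trans h9
      · exact h3.trans h8
      · exact h2.trans h8
      · exact h5.trans h9
    calc _ ≤ (D * ((2 + |a₀.im|) * (1 + |t|)) * (C * ((2 + |a₀.im|) * (1 + |t|))) +
        C * ((2 + |a₀.im|) * (1 + |t|)) * (D * ((2 + |a₀.im|) * (1 + |t|)))) * B := by
          gcongr
          exact hWb t
      _ = _ := by ring
  · exact (integrable_one_add_abs_pow τ (VV T) 2).const_mul _
  · refine Filter.Eventually.of_forall fun t a ha => ?_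
    exact hasDerivAt_pair ha.2 t (W t)

lemma part2 : ∃ C : ℝ, 0 < C ∧ ∀ T : ℝ, 3 ≤ T → ∀ τ : ℝ, |τ| ≤ 2 * T → ∀ (B : ℝ)
    (H : ℝ → ℂ), Continuous H → (∀ t, ‖H t‖ ≤ B) →
      ∀ a : ℂ, |a.re| ≤ 1 / 8 → ‖FH T τ H a‖ ≤ C * B * T ^ 4 * (1 + |a.im|) ^ 4 := by
  obtain ⟨C, hC, hz⟩ := zeta_lin
  refine ⟨12 * C ^ 2, by positivity, fun T hT τ hτ B H _ hWb a ha => ?_⟩
  have hB : 0 ≤ B := (norm_nonneg _).trans (hWb 0)
  have h0 := abs_le.mp ha
  have h1 : ‖FH T τ H a‖ ≤ ∫ t : ℝ, (C ^ 2 * (1 + |a.im|) ^ 2 * B) * (1 + |t|) ^ 2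
      ∂(gaussianReal τ (VV T)) := by
    refine norm_integral_le_of_norm_le ((integrable_one_add_abs_pow τ (VV T) 2).const_mul _)
      (Filter.Eventually.of_forall fun t => ?_)
    rw [norm_mul, norm_mul]
    have h2 : ‖riemannZeta (1 / 2 + a + t * I)‖ ≤ C * ((1 + |a.im|) * (1 + |t|)) := by
      refine (hz _ (by rw [re_add]; linarith) (by rw [re_add]; linarith)).trans ?_
      rw [im_add]
      exact mul_le_mul_of_nonneg_left (one_add_abs_add _ _) hC.le
    have h3 : ‖riemannZeta (1 / 2 + a - t * I)‖ ≤ C * ((1 + |a.im|) * (1 + |t|)) := by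
      refine (hz _ (by rw [re_sub]; linarith) (by rw [re_sub]; linarith)).trans ?_
      rw [im_sub]
      exact mul_le_mul_of_nonneg_left (one_add_abs_sub _ _) hC.le
    calc ‖riemannZeta (1 / 2 + a + t * I)‖ * ‖riemannZeta (1 / 2 + a - t * I)‖ *
          ‖H t‖
        ≤ (C * ((1 + |a.im|) * (1 + |t|))) * (C * ((1 + |a.im|) * (1 + |t|))) * B := by
          gcongr
          exact hWb t
      _ = _ := by ring
  rw [integral_const_mul] at h1
  have h4 := mom2 hT hτ
  have hy : 1 ≤ 1 + |a.im| := by linarith [abs_nonneg a.im]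
  calc ‖FH T τ H a‖ ≤ (C ^ 2 * (1 + |a.im|) ^ 2 * B) *
        ∫ t : ℝ, (1 + |t|) ^ 2 ∂(gaussianReal τ (VV T)) := h1
    _ ≤ (C ^ 2 * (1 + |a.im|) ^ 4 * B) * (12 * T ^ 4) := by
        gcongr ?_ * ?_
        · gcongr
          norm_num
        · refine h4.trans ?_
          gcongr
          · linarith
          · norm_num
    _ = _ := by ring

end StripH

theorem stStripH : StStripH :=
  ⟨fun T τ B H _ hc hb => StripH.part1 T τ B H hc hb, StripH.part2⟩

end K5
end Pool.Agent.Lib.MP_973905_nt
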