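import Pool.Agent.Lib.MP_973905_nt.K5.Stmts

/-! The symmetry `k ↔ 1 - k` of the losses (K5, module N6). -/

namespace Pool.Agent.Lib.MP_973905_nt
namespace K5

open MeasureTheory ProbabilityTheory Complex Filter Topology K1

namespace SymA

lemma mom_neg : ∀ (j : ℕ) (μ s : ℝ), mom j (-μ) s = (-1) ^ j * mom j μ s
  | 0, μ, s => by simp [mom]
  | 1, μ, s => by simp [mom]
  | n + 2, μ, s => by
    rw [mom, mom, mom_neg (n + 1) μ s, mom_neg n μ s]
    ring

lemma dg_even (i : ℕ) : Even (dg i) := by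
  unfold dg
  split_ifs
  · exact ⟨2, rfl⟩
  · exact ⟨i + 1, by ring⟩

lemma aF_symm (k : ℝ) (i : ℕ) : aF (1 - k) i = aG k i := by
  unfold aF aG
  have h1 : (1 : ℝ) - (1 - k) = k := by ring
  rw [h1]
  congr 1
  · refine Finset.sum_congr rfl fun j _ => ?_
    rw [mom_neg, neg_pow]
    ring
  · rw [mom_neg, (dg_even i).neg_one_pow]
    ring

lemma aG_symm (k : ℝ) (i : ℕ) : aG (1 - k) i = aF k i := by
  have := aF_symm (1 - k) i
  rw [← this]
  congr 1
  ring

end SymA

/-- (N6) -/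
theorem stSym : StSym := by
  intro k _ _ i
  unfold lam
  rw [SymA.aF_symm, SymA.aG_symm]
  ring

end K5
end Pool.Agent.Lib.MP_973905_nt
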