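import Pool.Agent.Lib.MP_973905_nt.F4.AllF4
import Pool.Agent.Lib.MP_973905_nt.K5.StripH
import Pool.Agent.Lib.MP_973905_nt.K5.Rect
import Pool.Agent.Lib.MP_973905_nt.K5.M4
import Pool.Agent.Lib.MP_973905_nt.K5.FE
import Pool.Agent.Lib.MP_973905_nt.K5.Half
import Pool.Agent.Lib.MP_973905_nt.K5.Move
import Pool.Agent.Lib.MP_973905_nt.K5.PairA
import Pool.Agent.Lib.MP_973905_nt.K5.Back
import Pool.Agent.Lib.MP_973905_nt.K5.MS
import Pool.Agent.Lib.MP_973905_nt.K5.MeanG
import Pool.Agent.Lib.MP_973905_nt.K5.Long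
import Pool.Agent.Lib.MP_973905_nt.K5.Mertens
import Pool.Agent.Lib.MP_973905_nt.K5.AK
import Pool.Agent.Lib.MP_973905_nt.K5.PrimeInt
import Pool.Agent.Lib.MP_973905_nt.K5.GaussBlock
import Pool.Agent.Lib.MP_973905_nt.K5.TopLim
import Pool.Agent.Lib.MP_973905_nt.K5.Rho
import Pool.Agent.Lib.MP_973905_nt.K5.LFLip
import Pool.Agent.Lib.MP_973905_nt.K5.BotMain
import Pool.Agent.Lib.MP_973905_nt.K5.BotCrude
import Pool.Agent.Lib.MP_973905_nt.K5.BotG
import Pool.Agent.Lib.MP_973905_nt.K5.BQ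
import Pool.Agent.Lib.MP_973905_nt.K5.Fact
import Pool.Agent.Lib.MP_973905_nt.K5.Point
import Pool.Agent.Lib.MP_973905_nt.K5.SecF
import Pool.Agent.Lib.MP_973905_nt.K5.SecG
import Pool.Agent.Lib.MP_973905_nt.K5.Hold
import Pool.Agent.Lib.MP_973905_nt.K5.Lam0
import Pool.Agent.Lib.MP_973905_nt.K5.Lam1
import Pool.Agent.Lib.MP_973905_nt.K5.Lam2
import Pool.Agent.Lib.MP_973905_nt.K5.Lam3
import Pool.Agent.Lib.MP_973905_nt.K5.Sym
import Pool.Agent.Lib.MP_973905_nt.K5.Num
import Pool.Agent.Lib.MP_973905_nt.K5.Final5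

/-! Assembly of the upper bound with explicit constants for all orders `0 < k < 1`. -/

namespace Pool.Agent.Lib.MP_973905_nt.K5

theorem final5 (hG : StG) : StFinal5 := by
  have a4 : StHalf := stHalf stRect stStripH (stFE K1.stFFpair (stM4 F4.stCr4_all))
  have a9 : StLong := stLong a4 stMove stPairA (stBack stRect) stMS
  have b2 : StAK := stAK stMertens
  have b5 : StTopLim := stTopLim (stGaussBlock stPrimeInt)
  have b7 : StLFLip := stLFLip K1.stLF
  have b8 : StBotMain := stBotMain K1.stLF (K1.stBlockShift K1.stLF) b7 b2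
  have b10 : StBotG := stBotG b2
  have b11 : StBQ := stBQ K1.stShort
  have b12 : StFact := stFact K1.stLF
  have c2 : StSecF := stSecF a9 b11 b12 b8 stBotCrude b5 stRho
  have c3 : StSecG := stSecG stMeanG b11 b12 b10 b5 stRho
  have c4 : StHold := stHold stPoint c2 c3 stRho b2
  have h3 := K1.stZetaPair K1.stShift
  have h6 := K1.stRight h3 K1.stRBound K1.stFin
  have h7 := K1.stLeft K1.stFFpair K1.stRBound
  have h9 := K1.stExact K1.stFin h6 h7 K1.stStrip
  have h12 := K1.stRA K1.stLF (K1.stBlockShift K1.stLF)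
  have h15 := K1.stSecond K1.stFin h9 h12 K1.stShort
  have h16 := K1.stUpper K1.stCrude h15
  exact stFinal5 c4 (stNum hG stLam0 stLam1 stLam2 stLam3 stSym stRho) h16 K1.stAvgUp b2

end Pool.Agent.Lib.MP_973905_nt.K5
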