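import Pool.Agent.Lib.MP_973905_nt.K1.Stmts

/-! Definitions for the upper bounds with explicit constants for all orders `0 < k < 1` (folder K5). -/

namespace Pool.Agent.Lib.MP_973905_nt
namespace K5

open MeasureTheory ProbabilityTheory Complex Filter Topology K1

/-! ### Part A: the long twisted second moment -/

/-- The kernel of the contour integrals: `X^w e^{w²} / w`. -/
noncomputable def KN (X : ℝ) (w : ℂ) : ℂ := (X : ℂ) ^ w * cexp (w ^ 2) / w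

/-- Shifted second moment of the zeta function against a weight. -/
noncomputable def FH (T τ : ℝ) (H : ℝ → ℂ) (w : ℂ) : ℂ :=
  EG T τ (fun t => riemannZeta (1 / 2 + w + t * I) * riemannZeta (1 / 2 + w - t * I) * H t)

/-- A polynomial in `f` and its conjugate. -/
noncomputable def GB (N : ℕ) (c : ℕ → ℕ → ℂ) (f : ℕ → ℂ) : ℂ :=
  ∑ m ∈ Finset.Icc 1 N, ∑ n ∈ Finset.Icc 1 N, c m n * (f m * (starRingEnd ℂ) (f n))

/-- The arithmetic factor of `GB`. -/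
noncomputable def RB (N : ℕ) (c : ℕ → ℕ → ℂ) (w : ℂ) : ℂ :=
  ∑ m ∈ Finset.Icc 1 N, ∑ n ∈ Finset.Icc 1 N, c m n * (m : ℂ) ^ (-(1 / 2 : ℂ)) *
    (n : ℂ) ^ (-(1 / 2 : ℂ)) * ((m / m.gcd n * (n / m.gcd n) : ℕ) : ℂ) ^ (-(1 / 2 + w))

/-- The class of `GB`: product of the lengths at most `N`, coefficients at most `Q`. -/
def BQ (N Q : ℝ) (G : (ℕ → ℂ) → ℂ) : Prop :=
  ∃ c : ℕ → ℕ → ℂ, (∀ m n, ‖c m n‖ ≤ Q) ∧ (∀ m n : ℕ, N < (m : ℝ) * n → c m n = 0) ∧
    ∀ f, CMul f → G f = GB ⌊N⌋₊ c f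

/-! ### Part B: the top blocks -/

/-- Upper ends of the top blocks, as exponents of `T`. -/
noncomputable def tb (i : ℕ) : ℝ := if i = 0 then Real.exp (-(53 / 25)) else Real.exp (-((i : ℝ) + 2))

/-- Degrees of the polynomials. -/
def dg (i : ℕ) : ℕ := if i = 0 then 4 else 2 * i + 2

/-- `log (tb i / tb (i+1))` -/
noncomputable def Vv (i : ℕ) : ℝ := if i = 0 then 22 / 25 else 1

/-- The top blocks of primes. -/
noncomputable def UB (T : ℝ) (i : ℕ) : Finset ℕ :=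
  PS (Real.exp (tb (i + 1) * Real.log T)) (Real.exp (tb i * Real.log T))

/-- Taylor polynomial of the exponential function. -/
noncomputable def Tp (d : ℕ) (y : ℝ) : ℝ := ∑ j ∈ Finset.range (d + 1), y ^ j / j.factorial

/-- The correction, positive only for `k < 1/2`. -/
noncomputable def eta (k : ℝ) (d : ℕ) : ℝ :=
  max 0 (3 / 8 * (k / ((1 - k) * (d * d.factorial))) * ((1 - k) ^ d - k ^ d))

/-- `≈ exp (-2(1-k)(x-s))`, `s = (1-k) V`. -/
noncomputable def pf (k : ℝ) (i : ℕ) (x : ℝ) : ℝ :=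
  Tp (dg i) (-(2 * (1 - k) * (x - (1 - k) * Vv i))) + eta (1 - k) (dg i) * (2 * (x - (1 - k) * Vv i)) ^ dg i

/-- `≈ exp (2k(x-s))`, `s = (1-k) V`. -/
noncomputable def pg (k : ℝ) (i : ℕ) (x : ℝ) : ℝ :=
  Tp (dg i) (2 * k * (x - (1 - k) * Vv i)) + eta k (dg i) * (2 * (x - (1 - k) * Vv i)) ^ dg i

/-- The real part of the prime sum over a top block. -/
noncomputable def Xb (T : ℝ) (i : ℕ) (f : ℕ → ℂ) : ℝ := (∑ p ∈ UB T i, f p).re

/-- The product over the top blocks, side of zeta. -/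
noncomputable def TF (k T : ℝ) (M : ℕ) (f : ℕ → ℂ) : ℝ := ∏ i ∈ Finset.range (M - 2), pf k i (Xb T i f)

/-- The product over the top blocks, side without zeta. -/
noncomputable def TG (k T : ℝ) (M : ℕ) (f : ℕ → ℂ) : ℝ := ∏ i ∈ Finset.range (M - 2), pg k i (Xb T i f)

/-- All blocks: the bottom blocks, the top blocks, the rest up to `T`. -/
noncomputable def BB (T : ℝ) (M j : ℕ) : Finset ℕ :=
  if j ≤ JJ T then Sj T M (JJ T) j else
    if j ≤ JJ T + (M - 2) then UB T (j - (JJ T + 1)) else PS (Real.exp (tb 0 * Real.log T)) T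

/-- The family of all blocks. -/
noncomputable def SBB (T : ℝ) (M : ℕ) : Fin (JJ T + 1 + (M - 2) + 1) → Finset ℕ := fun j => BB T M j

/-- The factor of a bottom block. -/
noncomputable def EBo (T : ℝ) (M : ℕ) (k : ℝ) (g h : Finset ℕ) (w : ℂ) (j : ℕ) : ℂ :=
  ES (Sj T M (JJ T) j) (fun f => ZZ (Sj T M (JJ T) j) (tw (1 / 2 + w) f) *
    (starRingEnd ℂ) (ZZ (Sj T M (JJ T) j) (tw (1 / 2 + (starRingEnd ℂ) w) f)) *
    ((‖Fc T M (JJ T) (k - 1) g h j (tw (1 / 2) f)‖ ^ 2 : ℝ) : ℂ)) *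
    ∏ p ∈ Sj T M (JJ T) j, (1 - (p : ℂ) ^ (-(1 + w + w)))

/-- The factor of a top block. -/
noncomputable def ETo (T : ℝ) (k : ℝ) (w : ℂ) (i : ℕ) : ℂ :=
  ES (UB T i) (fun f => ZZ (UB T i) (tw (1 / 2 + w) f) *
    (starRingEnd ℂ) (ZZ (UB T i) (tw (1 / 2 + (starRingEnd ℂ) w) f)) *
    ((pf k i (Xb T i (tw (1 / 2) f)) : ℝ) : ℂ)) *
    ∏ p ∈ UB T i, (1 - (p : ℂ) ^ (-(1 + w + w)))

/-- Moments of the Gaussian law of mean `μ` and variance `s`. -/
def mom {R : Type*} [CommRing R] : ℕ → R → R → R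
  | 0, _, _ => 1
  | 1, μ, _ => μ
  | n + 2, μ, s => μ * mom (n + 1) μ s + ((n + 1 : ℕ) : R) * s * mom n μ s

/-- The shift of the mean of a top block. -/
noncomputable def vv (lo hi : ℝ) (u : ℂ) : ℂ := ∫ x in lo..hi, cexp (-(u * x)) / x

/-- The limit of the factor of a top block, as a function of the mean. -/
noncomputable def PhF (k : ℝ) (i : ℕ) (v : ℂ) : ℂ :=
  ∑ j ∈ Finset.range (dg i + 1), ((-(2 * (1 - k)) : ℝ) : ℂ) ^ j / j.factorial *
    mom j (v - (((1 - k) * Vv i : ℝ) : ℂ)) ((Vv i / 2 : ℝ) : ℂ) +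
  ((eta (1 - k) (dg i) * 2 ^ dg i : ℝ) : ℂ) *
    mom (dg i) (v - (((1 - k) * Vv i : ℝ) : ℂ)) ((Vv i / 2 : ℝ) : ℂ)

/-- The limit of the product over the top blocks; the shift is `u / log T`. -/
noncomputable def rhoF (k : ℝ) (M : ℕ) (u : ℂ) : ℂ :=
  ∏ i ∈ Finset.range (M - 2), PhF k i (vv (tb (i + 1)) (tb i) u)

/-- `E pf (V + Z)`, `Z` Gaussian of variance `V/2` -/
noncomputable def aF (k : ℝ) (i : ℕ) : ℝ :=
  ∑ j ∈ Finset.range (dg i + 1), (-(2 * (1 - k))) ^ j / j.factorial * mom j (k * Vv i) (Vv i / 2) +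
    eta (1 - k) (dg i) * 2 ^ dg i * mom (dg i) (k * Vv i) (Vv i / 2)

/-- `E pg (Z)`, `Z` Gaussian of variance `V/2` -/
noncomputable def aG (k : ℝ) (i : ℕ) : ℝ :=
  ∑ j ∈ Finset.range (dg i + 1), (2 * k) ^ j / j.factorial * mom j (-((1 - k) * Vv i)) (Vv i / 2) +
    eta k (dg i) * 2 ^ dg i * mom (dg i) (-((1 - k) * Vv i)) (Vv i / 2)

/-- `e^{γ - M} log T` -/
noncomputable def lM (T : ℝ) (M : ℕ) : ℝ :=
  Real.exp (Real.eulerMascheroniConstant - M) * Real.log T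

/-- The explicit constant of the theorem. -/
noncomputable def CC (k : ℝ) : ℝ := min (3 / 2) (Real.exp (5 / 2 * (k * (1 - k))))

end K5
end Pool.Agent.Lib.MP_973905_nt
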