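import Pool.Agent.Lib.MP_973905_nt.K5.Stmts
import Pool.Agent.Lib.MP_973905_nt.K1.FinalK1

/-! Module (F) of folder K5: the upper bound for every fixed order between 0 and 1. -/

namespace Pool.Agent.Lib.MP_973905_nt
namespace K5

open MeasureTheory ProbabilityTheory Complex Filter Topology K1 K1.FinalK1
open Pool.Agent.Lib.MP_973905_nt.CK

/-- (F) the upper bound for every fixed order between 0 and 1 -/
theorem stFinal5 (h4 : StHold) (hn : StNum) (hU : K1.StUpper) (hA : StAvgUp) (hk : StAK) :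
    StFinal5 := by
  intro k hk0 hk1 ε hε
  obtain ⟨-, C₂, T₂, hC₂, hT₂, hU2⟩ := hU
  obtain ⟨C₃, T₃, hC₃, hT₃, hA⟩ := hA
  obtain ⟨C₅, hC₅, hz⟩ := zeta_bound
  have haK : 0 < aK k := (hk k hk0 hk1.le).1
  have hG1 : 0 < barnesG (k + 1) := barnesG_pos (by linarith)
  have hG2 : 0 < barnesG (2 * k + 1) := barnesG_pos (by linarith)
  set G : ℝ := barnesG (k + 1) ^ 2 / barnesG (2 * k + 1) with hG
  have hG0 : 0 < G := by positivity
  have hcK : cK k = aK k * G := by rw [cK, hG, mul_div_assoc]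
  have hc0 : 0 < cK k := by rw [hcK]; positivity
  have hCC0 : 0 < CC k := by
    rw [CC]
    exact lt_min (by norm_num) (Real.exp_pos _)
  have hCC1 : CC k ≤ 3 / 2 := min_le_left _ _
  -- the Gaussian means
  set e : ℝ := ε / 4 with he
  have he0 : 0 < e := by positivity
  obtain ⟨M₁, hM₁⟩ := h4 k hk0 hk1 e he0
  set M : ℕ := max M₁ 6 with hM
  obtain ⟨T₁, hT₁, hH⟩ := hM₁ M (le_max_left _ _)
  have hnum := hn k hk0 hk1 M (le_max_right _ _)
  rw [← hG] at hnum
  set C₆ : ℝ := max C₂ 1 with hC₆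
  have hC61 : 1 ≤ C₆ := le_max_right _ _
  have hC62 : C₂ ≤ C₆ := le_max_left _ _
  set D₀ : ℝ := (1 + e) * (cK k * CC k) with hD₀
  have hD₀0 : 0 < D₀ := by positivity
  set K : ℝ := C₃ * (D₀ + C₆) / (cK k * (ε / 2)) with hK
  set T₀ : ℝ := max (max T₁ (max T₂ T₃)) (max (Real.exp (max K 1)) (2 * C₅)) with hT₀
  refine ⟨T₀, hT₁.trans (by simp [hT₀]), fun T hT => ?_⟩
  simp only [hT₀, max_le_iff] at hT
  obtain ⟨⟨hT1, hT2, hT3⟩, hT5, hT6⟩ := hT
  have hT0 : 3 ≤ T := hT₁.trans hT1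
  have hTpos : 0 < T := by linarith
  have hL1 : max K 1 ≤ Real.log T := by
    rw [Real.le_log_iff_exp_le hTpos]; exact hT5
  have hLK : K ≤ Real.log T := (le_max_left _ _).trans hL1
  have hL : 1 ≤ Real.log T := (le_max_right _ _).trans hL1
  have hL0 : 0 < Real.log T := by linarith
  set Λ : ℝ := (Real.log T) ^ (k ^ 2) with hΛ
  have hΛ1 : 1 ≤ Λ := Real.one_le_rpow hL (by positivity)
  have hΛ0 : 0 < Λ := by linarith
  set F : ℝ → ℝ := fun t => ‖riemannZeta (1 / 2 + t * I)‖ ^ (2 * k) with hF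
  have hFc : Continuous F := by
    apply (continuous_zeta.norm).rpow_const
    intro t
    right
    linarith
  have hF0 : ∀ t, 0 ≤ F t := fun t => by positivity
  have hFb : ∀ t, F t ≤ T ^ 4 * (1 + |t|) ^ 4 := by
    intro t
    have h1 : (1 : ℝ) ≤ 1 + |t| := by linarith [abs_nonneg t]
    have h2 : 1 ≤ C₅ * (1 + |t|) ^ 2 := by
      have : (1 : ℝ) ≤ (1 + |t|) ^ 2 := one_le_pow₀ h1
      nlinarith
    have h3 := rpow_bound (norm_nonneg _) (hz t) h2 hk0 hk1.le
    refine h3.trans ?_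
    rw [mul_pow, ← pow_mul]
    have h4 : C₅ ^ 2 ≤ T ^ 4 := by
      have h5 : C₅ ≤ T := by linarith
      have h6 : C₅ ^ 2 ≤ T ^ 2 := pow_le_pow_left₀ (by linarith) h5 2
      have h7 : T ^ 2 ≤ T ^ 4 := pow_le_pow_right₀ (by linarith) (by norm_num)
      linarith
    exact mul_le_mul_of_nonneg_right h4 (by positivity)
  have hup := hA T hT3 F hFc hF0 hFb (D₀ * Λ) (C₆ * Λ) (by positivity) (by nlinarith)
    (fun τ h1 h2 => by
      refine (hH T hT1 τ h1 h2).trans ?_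
      have h5 : (1 + e) * (aK k * Λ * (Real.exp ((M - Real.eulerMascheroniConstant) *
          (k * (1 - k))) * ((∏ i ∈ Finset.range (M - 2), aF k i) *
          (1 + 2 * (1 - k) * tb 0)) ^ k * (∏ i ∈ Finset.range (M - 2), aG k i) ^ (1 - k))) ≤
          (1 + e) * (aK k * Λ * (CC k * G)) := by
        have h6 : 0 ≤ aK k * Λ := by positivity
        have h7 : 0 ≤ 1 + e := by linarith
        exact mul_le_mul_of_nonneg_left (mul_le_mul_of_nonneg_left hnum h6) h7
      refine h5.trans (le_of_eq ?_)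
      rw [hD₀, hcK]
      ring)
    (fun τ h1 => by
      have h2 := hU2 T hT2 k hk0 hk1.le τ (h1.trans (by linarith))
      exact h2.trans (mul_le_mul_of_nonneg_right hC62 hΛ0.le))
  have hcΛ : 0 < cK k * Λ := mul_pos hc0 hΛ0
  rw [div_le_iff₀ hcΛ]
  refine hup.trans ?_
  have h8 : C₃ * (D₀ * Λ + C₆ * Λ) / Real.log T ≤ cK k * (ε / 2) * Λ := by
    rw [div_le_iff₀ hL0]
    have h2 : C₃ * (D₀ + C₆) ≤ cK k * (ε / 2) * Real.log T := by
      rw [hK, div_le_iff₀ (by positivity)] at hLK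
      linarith
    calc C₃ * (D₀ * Λ + C₆ * Λ) = C₃ * (D₀ + C₆) * Λ := by ring
      _ ≤ (cK k * (ε / 2) * Real.log T) * Λ := mul_le_mul_of_nonneg_right h2 hΛ0.le
      _ = _ := by ring
  have h9 : D₀ ≤ (CC k + ε / 2) * cK k := by
    have h10 : e * CC k ≤ ε / 2 := by
      rw [he]
      nlinarith
    rw [hD₀]
    nlinarith
  calc D₀ * Λ + C₃ * (D₀ * Λ + C₆ * Λ) / Real.log T
      ≤ (CC k + ε / 2) * cK k * Λ + cK k * (ε / 2) * Λ :=
        add_le_add (mul_le_mul_of_nonneg_right h9 hΛ0.le) h8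
    _ = (CC k + ε) * (cK k * Λ) := by ring

end K5
end Pool.Agent.Lib.MP_973905_nt
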