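import Pool.Agent.Lib.MP_973905_nt.K5.Stmts

/-! Common tools for the numerical bounds of `lam k i`. -/

namespace Pool.Agent.Lib.MP_973905_nt
namespace K5
namespace LamT

open Real

/-- Linearised upper bound of the loss of one block. -/
theorem lam_le (k : ℝ) (hk : 0 < k) (hk1 : k < 1) (i : ℕ) (A B E F : ℝ)
    (hA0 : 0 < aF k i) (hB0 : 0 < aG k i) (hA : aF k i ≤ A) (hB : aG k i ≤ B)
    (hE : Real.exp ((4 * k - 1 - 3 * k ^ 2) * Vv i) ≤ E)
    (hF : Real.exp ((2 * k - 3 * k ^ 2) * Vv i) ≤ F) :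
    lam k i ≤ k * (A * E - 1) + (1 - k) * (B * F - 1) := by
  have h1 : Real.log (aF k i) + (4 * k - 1 - 3 * k ^ 2) * Vv i ≤ A * E - 1 := by
    have h := Real.log_le_sub_one_of_pos (mul_pos hA0 (Real.exp_pos ((4 * k - 1 - 3 * k ^ 2) * Vv i)))
    rw [Real.log_mul hA0.ne' (Real.exp_pos _).ne', Real.log_exp] at h
    have h2 : aF k i * Real.exp ((4 * k - 1 - 3 * k ^ 2) * Vv i) ≤ A * E :=
      mul_le_mul hA hE (Real.exp_pos _).le (hA0.le.trans hA)
    linarith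
  have h2 : Real.log (aG k i) + (2 * k - 3 * k ^ 2) * Vv i ≤ B * F - 1 := by
    have h := Real.log_le_sub_one_of_pos (mul_pos hB0 (Real.exp_pos ((2 * k - 3 * k ^ 2) * Vv i)))
    rw [Real.log_mul hB0.ne' (Real.exp_pos _).ne', Real.log_exp] at h
    have h2 : aG k i * Real.exp ((2 * k - 3 * k ^ 2) * Vv i) ≤ B * F :=
      mul_le_mul hB hF (Real.exp_pos _).le (hB0.le.trans hB)
    linarith
  have h3 : lam k i = k * (Real.log (aF k i) + (4 * k - 1 - 3 * k ^ 2) * Vv i) +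
      (1 - k) * (Real.log (aG k i) + (2 * k - 3 * k ^ 2) * Vv i) := by
    unfold lam; ring
  rw [h3]
  exact add_le_add (mul_le_mul_of_nonneg_left h1 hk.le)
    (mul_le_mul_of_nonneg_left h2 (by linarith))

/-- Taylor upper bound of the exponential function on `[-1, 1/4]`. -/
theorem exp_le6 (z : ℝ) (h1 : -1 ≤ z) (h2 : z ≤ 1 / 4) :
    Real.exp z ≤ 1 + z + z ^ 2 / 2 + z ^ 3 / 6 + z ^ 4 / 24 + z ^ 5 / 120 + z ^ 6 / 720 + 3 / 100000 := by
  have habs : |z| ≤ 1 := abs_le.2 ⟨h1, by linarith⟩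
  have h := (abs_le.1 (Real.exp_bound habs (n := 8) (by norm_num))).2
  have hs : ∑ m ∈ Finset.range 8, z ^ m / (m.factorial : ℝ) = 1 + z + z ^ 2 / 2 + z ^ 3 / 6 +
      z ^ 4 / 24 + z ^ 5 / 120 + z ^ 6 / 720 + z ^ 7 / 5040 := by
    simp only [Finset.sum_range_succ, Finset.sum_range_zero, Nat.factorial]
    push_cast
    ring
  rw [hs] at h
  have h8 : |z| ^ 8 * (((8 : ℕ).succ : ℝ) / (((8 : ℕ).factorial : ℝ) * ((8 : ℕ) : ℝ))) =
      z ^ 8 * (9 / 322560) := by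
    have : |z| ^ 8 = z ^ 8 := by
      rw [show (8 : ℕ) = 2 * 4 by norm_num, pow_mul, pow_mul, sq_abs]
    rw [this]
    norm_num [Nat.factorial]
  rw [h8] at h
  have h9 : z ^ 7 / 5040 + z ^ 8 * (9 / 322560) ≤ 3 / 100000 := by
    rcases le_total z 0 with hz | hz
    · have h7 : z ^ 7 ≤ 0 := by
        have : 0 ≤ (-z) ^ 7 := pow_nonneg (by linarith) 7
        nlinarith [this]
      have h8 : z ^ 8 ≤ 1 := by
        have : z ^ 8 = (-z) ^ 8 := by ring
        rw [this]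
        exact pow_le_one₀ (by linarith) (by linarith)
      nlinarith
    · have h7 : z ^ 7 ≤ (1 / 4) ^ 7 := pow_le_pow_left₀ hz h2 7
      have h8 : z ^ 8 ≤ (1 / 4) ^ 8 := pow_le_pow_left₀ hz h2 8
      norm_num at h7 h8
      nlinarith
  linarith

/-- Taylor upper bound of the exponential function on `[0, 1]`. -/
theorem exp_le4 (y : ℝ) (h1 : 0 ≤ y) (h2 : y ≤ 1) :
    Real.exp y ≤ 1 + y + y ^ 2 / 2 + y ^ 3 / 6 + y ^ 4 * (5 / 96) := by
  have h := Real.exp_bound' h1 h2 (n := 4) (by norm_num)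
  have hs : ∑ m ∈ Finset.range 4, y ^ m / (m.factorial : ℝ) = 1 + y + y ^ 2 / 2 + y ^ 3 / 6 := by
    simp only [Finset.sum_range_succ, Finset.sum_range_zero, Nat.factorial]
    push_cast
    ring
  rw [hs] at h
  have h8 : y ^ 4 * (((4 : ℕ) : ℝ) + 1) / (((4 : ℕ).factorial : ℝ) * ((4 : ℕ) : ℝ)) =
      y ^ 4 * (5 / 96) := by
    norm_num [Nat.factorial]
    ring
  rw [h8] at h
  exact h

/-- The correction on the side of zeta vanishes for `k ≤ 1/2`. -/
theorem eta_zero (k : ℝ) (hk : 0 < k) (hk1 : k ≤ 1 / 2) (d : ℕ) : eta (1 - k) d = 0 := by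
  unfold eta
  apply max_eq_left
  have h : (1 - (1 - k)) ^ d - (1 - k) ^ d ≤ 0 := by
    have : (1 - (1 - k)) ^ d ≤ (1 - k) ^ d := pow_le_pow_left₀ (by linarith) (by linarith) d
    linarith
  have h2 : 0 ≤ 3 / 8 * ((1 - k) / ((1 - (1 - k)) * (d * d.factorial))) := by
    have h3 : 0 ≤ (1 - (1 - k)) * ((d : ℝ) * d.factorial) := by
      have : (0 : ℝ) ≤ (d : ℝ) * d.factorial := by positivity
      nlinarith
    have h4 : 0 ≤ 1 - k := by linarith
    positivity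
  exact mul_nonpos_of_nonneg_of_nonpos h2 h

/-- Bounds of the correction on the side without zeta. -/
theorem eta_bds (k : ℝ) (hk : 0 < k) (hk1 : k ≤ 1 / 2) (d : ℕ) (hd : 1 ≤ d) :
    0 ≤ eta k d ∧ eta k d ≤ 3 / 8 * (k / ((d : ℝ) * d.factorial)) *
      ((1 - k) ^ (d - 1) - k ^ d * (1 + k + k ^ 2 + k ^ 3)) := by
  have hdp : (0 : ℝ) < (d : ℝ) * d.factorial := by
    have h1 : (0 : ℝ) < d := by exact_mod_cast hd
    have h2 : (0 : ℝ) < d.factorial := by exact_mod_cast d.factorial_pos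
    positivity
  have hp : 0 < 1 - k := by linarith
  have hkd : k ^ d ≤ (1 - k) ^ d := pow_le_pow_left₀ hk.le (by linarith) d
  refine ⟨le_max_left _ _, ?_⟩
  unfold eta
  have hinv : 1 + k + k ^ 2 + k ^ 3 ≤ 1 / (1 - k) := by
    rw [le_div_iff₀ hp]
    have : 0 ≤ k ^ 4 := by positivity
    nlinarith
  have hmain : 3 / 8 * (k / ((1 - k) * (↑d * ↑d.factorial))) * ((1 - k) ^ d - k ^ d) ≤
      3 / 8 * (k / ((d : ℝ) * d.factorial)) *
      ((1 - k) ^ (d - 1) - k ^ d * (1 + k + k ^ 2 + k ^ 3)) := by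
    have e1 : 3 / 8 * (k / ((1 - k) * ((d : ℝ) * d.factorial))) * ((1 - k) ^ d - k ^ d) =
        3 / 8 * (k / ((d : ℝ) * d.factorial)) * ((1 - k) ^ (d - 1) - k ^ d * (1 / (1 - k))) := by
      have e2 : (1 - k) ^ d = (1 - k) ^ (d - 1) * (1 - k) := by
        rw [← pow_succ]; congr 1; omega
      rw [e2]
      field_simp
    rw [e1]
    apply mul_le_mul_of_nonneg_left _ (by positivity)
    have : k ^ d * (1 + k + k ^ 2 + k ^ 3) ≤ k ^ d * (1 / (1 - k)) :=
      mul_le_mul_of_nonneg_left hinv (by positivity)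
    linarith
  apply max_le _ hmain
  apply le_trans _ hmain
  have : 0 ≤ (1 - k) ^ d - k ^ d := by linarith
  positivity

end LamT
end K5
end Pool.Agent.Lib.MP_973905_nt
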