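import Pool.Agent.Lib.MP_973905_nt.K5.Stmts
import Pool.Agent.Lib.MP_973905_nt.K1.Left

/-! (A9) the long twisted second moment. -/

namespace Pool.Agent.Lib.MP_973905_nt
namespace K5

open MeasureTheory ProbabilityTheory Complex Filter Topology K1 TSM

namespace Long

/-! ### Zeta far to the right -/

lemma zeta_bound {σ : ℝ} (hσ : 1 < σ) : ∃ C : ℝ, 0 ≤ C ∧ ∀ s : ℂ, s.re = σ → ‖riemannZeta s‖ ≤ C := by
  have hsum : Summable (fun n : ℕ => 1 / (n : ℝ) ^ σ) := Real.summable_one_div_nat_rpow.2 hσ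
  have h0 : 0 ≤ ∑' n : ℕ, 1 / (n : ℝ) ^ σ := tsum_nonneg fun n => by positivity
  refine ⟨∑' n : ℕ, 1 / (n : ℝ) ^ σ, h0, fun s hre => ?_⟩
  have hz : riemannZeta s = ∑' n : ℕ, 1 / (n : ℂ) ^ s :=
    zeta_eq_tsum_one_div_nat_cpow (by rw [hre]; exact hσ)
  have hn : ∀ n : ℕ, ‖1 / (n : ℂ) ^ s‖ = 1 / (n : ℝ) ^ σ := by
    intro n
    rw [norm_div, norm_one, norm_natCast_cpow_of_re_ne_zero n (by rw [hre]; linarith), hre]
  rw [hz]
  have h2 : Summable (fun n : ℕ => ‖1 / (n : ℂ) ^ s‖) := by simpa only [hn] using hsum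
  refine (norm_tsum_le_tsum_norm h2).trans (le_of_eq ?_)
  simp only [hn]

/-- the product of the two zeta values -/
noncomputable def zz (w : ℂ) (t : ℝ) : ℂ :=
  riemannZeta (1 / 2 + w + t * I) * riemannZeta (1 / 2 + w - t * I)

lemma zz_bound {A : ℝ} (hA : 1 ≤ A) : ∃ C : ℝ, 0 ≤ C ∧ ∀ w : ℂ, w.re = A → ∀ t : ℝ, ‖zz w t‖ ≤ C := by
  obtain ⟨C, hC, h⟩ := zeta_bound (σ := 1 / 2 + A) (by linarith)
  refine ⟨C * C, by positivity, fun w hw t => ?_⟩
  rw [zz, norm_mul]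
  have h1 := h (1 / 2 + w + t * I) (by simp [hw])
  have h2 := h (1 / 2 + w - t * I) (by simp [hw])
  exact mul_le_mul h1 h2 (norm_nonneg _) hC

lemma zeta_contAt {s : ℂ} (hs : 1 < s.re) : ContinuousAt riemannZeta s := by
  refine (differentiableAt_riemannZeta ?_).continuousAt
  rintro rfl
  simp at hs

lemma zz_cont_t {A : ℝ} (hA : 1 ≤ A) {w : ℂ} (hw : w.re = A) : Continuous (zz w) := by
  unfold zz
  refine Continuous.mul ?_ ?_
  · refine continuous_iff_continuousAt.mpr fun t => ?_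
    exact ContinuousAt.comp (f := fun t : ℝ => (1 / 2 + w + t * I : ℂ)) (g := riemannZeta)
      (zeta_contAt (by simp [hw]; linarith)) (by fun_prop)
  · refine continuous_iff_continuousAt.mpr fun t => ?_
    exact ContinuousAt.comp (f := fun t : ℝ => (1 / 2 + w - t * I : ℂ)) (g := riemannZeta)
      (zeta_contAt (by simp [hw]; linarith)) (by fun_prop)

lemma zz_cont_y {A : ℝ} (hA : 1 ≤ A) (t : ℝ) : Continuous fun y : ℝ => zz ((A : ℝ) + y * I) t := by
  unfold zz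
  refine Continuous.mul ?_ ?_
  · refine continuous_iff_continuousAt.mpr fun y => ?_
    exact ContinuousAt.comp (f := fun y : ℝ => (1 / 2 + ((A : ℝ) + y * I) + t * I : ℂ))
      (g := riemannZeta) (zeta_contAt (by simp; linarith)) (by fun_prop)
  · refine continuous_iff_continuousAt.mpr fun y => ?_
    exact ContinuousAt.comp (f := fun y : ℝ => (1 / 2 + ((A : ℝ) + y * I) - t * I : ℂ))
      (g := riemannZeta) (zeta_contAt (by simp; linarith)) (by fun_prop)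

lemma FH_zz (T τ : ℝ) (H : ℝ → ℂ) (w : ℂ) : FH T τ H w = EG T τ (fun t => zz w t * H t) := rfl

lemma integrable_zz {A : ℝ} (hA : 1 ≤ A) {w : ℂ} (hw : w.re = A) {H : ℝ → ℂ} (hH : Continuous H)
    {B : ℝ} (hB : ∀ t, ‖H t‖ ≤ B) (τ : ℝ) (v : NNReal) :
    Integrable (fun t => zz w t * H t) (gaussianReal τ v) := by
  obtain ⟨C, hC, h⟩ := zz_bound hA
  refine (integrable_const (C * B)).mono' ((zz_cont_t hA hw).mul hH).aestronglyMeasurable
    (Filter.Eventually.of_forall fun t => ?_)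
  rw [norm_mul]
  exact mul_le_mul (h w hw t) (hB t) (norm_nonneg _) hC

lemma FH_cont {A : ℝ} (hA : 1 ≤ A) (T τ : ℝ) {H : ℝ → ℂ} (hH : Continuous H) {B : ℝ}
    (hB : ∀ t, ‖H t‖ ≤ B) : Continuous fun y : ℝ => FH T τ H ((A : ℝ) + y * I) := by
  obtain ⟨C, hC, h⟩ := zz_bound hA
  simp only [FH_zz, EG]
  have hre : ∀ y : ℝ, ((A : ℝ) + y * I : ℂ).re = A := fun y => by simp
  refine continuous_of_dominated (bound := fun _ => C * B) ?_ ?_ (integrable_const _) ?_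
  · intro y
    exact ((zz_cont_t hA (hre y)).mul hH).aestronglyMeasurable
  · intro y
    refine Filter.Eventually.of_forall fun t => ?_
    rw [norm_mul]
    exact mul_le_mul (h _ (hre y) t) (hB t) (norm_nonneg _) hC
  · exact Filter.Eventually.of_forall fun t => (zz_cont_y hA t).mul continuous_const

/-! ### The Dirichlet polynomials -/

lemma fs_half (t : ℝ) {n : ℕ} (hn : n ≠ 0) :
    fs (1 / 2 + t * I) n = (n : ℂ) ^ (-(1 / 2 : ℂ)) * fs (t * I) n := by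
  simp only [fs]
  rw [neg_add, cpow_add _ _ (by exact_mod_cast hn)]

lemma conj_half (n : ℕ) :
    (starRingEnd ℂ) ((n : ℂ) ^ (-(1 / 2 : ℂ))) = (n : ℂ) ^ (-(1 / 2 : ℂ)) := by
  have h2 : (n : ℂ).arg ≠ Real.pi := by rw [natCast_arg]; exact Real.pi_pos.ne
  have h1 := cpow_conj (n : ℂ) (-(1 / 2 : ℂ)) h2
  rw [Complex.conj_natCast] at h1
  rw [← h1]
  congr 1
  rw [map_neg, map_div₀, map_one, map_ofNat]

lemma norm_half_le {n : ℕ} (hn : 1 ≤ n) : ‖(n : ℂ) ^ (-(1 / 2 : ℂ))‖ ≤ 1 := by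
  rw [norm_natCast_cpow_of_pos (by omega)]
  apply Real.rpow_le_one_of_one_le_of_nonpos
  · exact_mod_cast hn
  · simp

/-- a pair of frequencies -/
noncomputable def fp (m n : ℕ) (t : ℝ) : ℂ := fs (t * I) m * (starRingEnd ℂ) (fs (t * I) n)

lemma fp_norm {m n : ℕ} (hm : m ≠ 0) (hn : n ≠ 0) (t : ℝ) : ‖fp m n t‖ ≤ 1 := by
  rw [fp, norm_mul, norm_conj, norm_fs _ hm, norm_fs _ hn]
  simp

lemma fp_cont {m n : ℕ} (hm : m ≠ 0) (hn : n ≠ 0) : Continuous (fp m n) := by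
  unfold fp
  have h : ∀ k : ℕ, k ≠ 0 → Continuous fun t : ℝ => fs (t * I) k := by
    intro k hk
    simp only [fs_mul_I _ hk]
    fun_prop
  exact (h m hm).mul (continuous_conj.comp (h n hn))

/-- the coefficients -/
noncomputable def cc (c : ℕ → ℕ → ℂ) (m n : ℕ) : ℂ :=
  c m n * (m : ℂ) ^ (-(1 / 2 : ℂ)) * (n : ℂ) ^ (-(1 / 2 : ℂ))

lemma GB_eq (N : ℕ) (c : ℕ → ℕ → ℂ) (t : ℝ) : GB N c (fs (1 / 2 + t * I)) =
    ∑ m ∈ Finset.Icc 1 N, ∑ n ∈ Finset.Icc 1 N, cc c m n * fp m n t := by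
  unfold GB
  refine Finset.sum_congr rfl fun m hm => Finset.sum_congr rfl fun n hn => ?_
  rw [Finset.mem_Icc] at hm hn
  rw [fs_half t (by omega : m ≠ 0), fs_half t (by omega : n ≠ 0), map_mul, conj_half, cc, fp]
  ring

lemma RB_eq (N : ℕ) (c : ℕ → ℕ → ℂ) (w : ℂ) : RB N c w =
    ∑ m ∈ Finset.Icc 1 N, ∑ n ∈ Finset.Icc 1 N, cc c m n *
      ((m / m.gcd n * (n / m.gcd n) : ℕ) : ℂ) ^ (-(1 / 2 + w)) := by
  unfold RB
  refine Finset.sum_congr rfl fun m _ => Finset.sum_congr rfl fun n _ => ?_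
  rw [cc]

lemma cc_norm {Q : ℝ} {c : ℕ → ℕ → ℂ} (hc : ∀ m n, ‖c m n‖ ≤ Q) {m n : ℕ} (hm : 1 ≤ m)
    (hn : 1 ≤ n) : ‖cc c m n‖ ≤ Q := by
  rw [cc, norm_mul, norm_mul]
  have h0 : 0 ≤ Q := (norm_nonneg _).trans (hc m n)
  calc ‖c m n‖ * ‖(m : ℂ) ^ (-(1 / 2 : ℂ))‖ * ‖(n : ℂ) ^ (-(1 / 2 : ℂ))‖ ≤ Q * 1 * 1 := by
        have := hc m n
        have := norm_half_le hm
        have := norm_half_le hn
        gcongr
    _ = Q := by ring

lemma RB_cont (N : ℕ) (c : ℕ → ℕ → ℂ) (A : ℝ) :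
    Continuous fun y : ℝ => RB N c ((A : ℝ) + y * I) := by
  simp only [RB_eq]
  refine continuous_finsetSum _ fun m hm => continuous_finsetSum _ fun n hn => ?_
  rw [Finset.mem_Icc] at hm hn
  refine continuous_const.mul ?_
  have hpos : m / m.gcd n * (n / m.gcd n) ≠ 0 := by
    have hg : 0 < m.gcd n := Nat.gcd_pos_of_pos_left n (by omega)
    have h1 : 0 < m / m.gcd n :=
      Nat.div_pos (Nat.gcd_le_left n (by omega)) hg
    have h2 : 0 < n / m.gcd n :=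
      Nat.div_pos (Nat.gcd_le_right m (by omega)) hg
    positivity
  have hne : ((m / m.gcd n * (n / m.gcd n) : ℕ) : ℂ) ≠ 0 := by exact_mod_cast hpos
  exact Continuous.const_cpow (by fun_prop) (Or.inl hne)

/-- far to the right the moment is the main term -/
lemma FH_main {A T τ : ℝ} (hA : 2 ≤ A) (hT : 3 ≤ T) {N : ℕ} {c : ℕ → ℕ → ℂ} {Q P : ℝ}
    (hP : 0 ≤ P) (hN : (N : ℝ) ≤ T) (hc : ∀ m n, ‖c m n‖ ≤ Q)
    (hc0 : ∀ m n : ℕ, T ^ (89 / 100 : ℝ) < (m : ℝ) * n → c m n = 0) {w : ℂ} (hw : w.re = A)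
    (h6 : ∀ m n : ℕ, 1 ≤ m → 1 ≤ n → (m : ℝ) * n ≤ T ^ (89 / 100 : ℝ) →
      ‖EG T τ (fun t => riemannZeta (1 / 2 + w + t * I) * riemannZeta (1 / 2 + w - t * I) *
        (fs (t * I) m * (starRingEnd ℂ) (fs (t * I) n))) -
      riemannZeta (1 + 2 * w) * ((m / m.gcd n * (n / m.gcd n) : ℕ) : ℂ) ^ (-(1 / 2 + w))‖ ≤ P) :
    ‖FH T τ (fun t => GB N c (fs (1 / 2 + t * I))) w - riemannZeta (1 + 2 * w) * RB N c w‖ ≤
      T ^ 2 * (Q * P) := by
  have hQ : 0 ≤ Q := (norm_nonneg _).trans (hc 0 0)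
  have e1 : FH T τ (fun t => GB N c (fs (1 / 2 + t * I))) w =
      ∑ m ∈ Finset.Icc 1 N, ∑ n ∈ Finset.Icc 1 N, cc c m n * EG T τ (fun t => zz w t * fp m n t) := by
    rw [FH_zz]
    have e2 : (fun t : ℝ => zz w t * GB N c (fs (1 / 2 + t * I))) = fun t : ℝ =>
        ∑ m ∈ Finset.Icc 1 N, ∑ n ∈ Finset.Icc 1 N, cc c m n * (zz w t * fp m n t) := by
      funext t
      rw [GB_eq, Finset.mul_sum]
      refine Finset.sum_congr rfl fun m _ => ?_
      rw [Finset.mul_sum]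
      refine Finset.sum_congr rfl fun n _ => ?_
      ring
    have hint : ∀ m ∈ Finset.Icc 1 N, ∀ n ∈ Finset.Icc 1 N,
        Integrable (fun t => cc c m n * (zz w t * fp m n t)) (gaussianReal τ (VV T)) := by
      intro m hm n hn
      rw [Finset.mem_Icc] at hm hn
      exact (integrable_zz (by linarith : 1 ≤ A) hw (fp_cont (by omega) (by omega))
        (fp_norm (by omega) (by omega)) τ (VV T)).const_mul _
    rw [e2, EG, integral_finsetSum _ fun m hm => integrable_finsetSum _ (hint m hm)]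
    refine Finset.sum_congr rfl fun m hm => ?_
    rw [integral_finsetSum _ (hint m hm)]
    refine Finset.sum_congr rfl fun n _ => ?_
    rw [integral_const_mul]
    rfl
  have hterm : ∀ m ∈ Finset.Icc 1 N, ∀ n ∈ Finset.Icc 1 N,
      ‖cc c m n * EG T τ (fun t => zz w t * fp m n t) - riemannZeta (1 + 2 * w) * (cc c m n *
        ((m / m.gcd n * (n / m.gcd n) : ℕ) : ℂ) ^ (-(1 / 2 + w)))‖ ≤ Q * P := by
    intro m hm n hn
    rw [Finset.mem_Icc] at hm hn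
    by_cases hmn : T ^ (89 / 100 : ℝ) < (m : ℝ) * n
    · have : cc c m n = 0 := by rw [cc, hc0 m n hmn]; ring
      rw [this]
      simp only [zero_mul, mul_zero, sub_zero, norm_zero]
      positivity
    · have h7 := h6 m n hm.1 hn.1 (not_lt.mp hmn)
      have e3 : cc c m n * EG T τ (fun t => zz w t * fp m n t) - riemannZeta (1 + 2 * w) *
          (cc c m n * ((m / m.gcd n * (n / m.gcd n) : ℕ) : ℂ) ^ (-(1 / 2 + w))) =
          cc c m n * (EG T τ (fun t => zz w t * fp m n t) - riemannZeta (1 + 2 * w) *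
          ((m / m.gcd n * (n / m.gcd n) : ℕ) : ℂ) ^ (-(1 / 2 + w))) := by ring
      rw [e3, norm_mul]
      exact mul_le_mul (cc_norm hc hm.1 hn.1) h7 (norm_nonneg _) hQ
  rw [e1, RB_eq, Finset.mul_sum, ← Finset.sum_sub_distrib]
  have hcard : ((Finset.Icc 1 N).card : ℝ) ≤ T := by
    rw [Nat.card_Icc]
    simpa using hN
  have hT0 : 0 ≤ T := by linarith
  have hQP : 0 ≤ Q * P := mul_nonneg hQ hP
  have hrow : ∀ m ∈ Finset.Icc 1 N, ‖∑ n ∈ Finset.Icc 1 N, cc c m n *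
      EG T τ (fun t => zz w t * fp m n t) - riemannZeta (1 + 2 * w) * ∑ n ∈ Finset.Icc 1 N,
        cc c m n * ((m / m.gcd n * (n / m.gcd n) : ℕ) : ℂ) ^ (-(1 / 2 + w))‖ ≤ T * (Q * P) := by
    intro m hm
    rw [Finset.mul_sum, ← Finset.sum_sub_distrib]
    refine (norm_sum_le_of_le _ (hterm m hm)).trans ?_
    rw [Finset.sum_const, nsmul_eq_mul]
    exact mul_le_mul_of_nonneg_right hcard hQP
  refine (norm_sum_le_of_le _ hrow).trans ?_
  rw [Finset.sum_const, nsmul_eq_mul]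
  have := mul_le_mul_of_nonneg_right hcard (mul_nonneg hT0 hQP)
  refine this.trans (le_of_eq ?_)
  ring

/-! ### The kernel -/

lemma KN_cont {X A : ℝ} (hX : 0 < X) (hA : 1 ≤ A) :
    Continuous fun y : ℝ => KN X ((A : ℝ) + y * I) := by
  unfold KN
  have hne : ∀ y : ℝ, ((A : ℝ) + y * I : ℂ) ≠ 0 := by
    intro y h
    have := congrArg re h
    simp at this
    linarith
  refine Continuous.div ?_ (by fun_prop) hne
  refine Continuous.mul ?_ (by fun_prop)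
  exact Continuous.const_cpow (by fun_prop) (Or.inl (by exact_mod_cast hX.ne'))

lemma KN_norm {X A T : ℝ} (hX : 0 < X) (hXT : X ≤ T) (hA : 1 ≤ A) (y : ℝ) :
    ‖KN X ((A : ℝ) + y * I)‖ ≤ T ^ A * Real.exp (A ^ 2) := by
  rw [KN, norm_div, norm_mul, norm_cpow_eq_rpow_re_of_pos hX, norm_exp]
  have hre : ((A : ℝ) + y * I : ℂ).re = A := by simp
  have hsq : (((A : ℝ) + y * I : ℂ) ^ 2).re = A ^ 2 - y ^ 2 := by
    rw [sq]; simp; ring
  rw [hre, hsq]
  have h1 : 1 ≤ ‖((A : ℝ) + y * I : ℂ)‖ := by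
    have := abs_re_le_norm ((A : ℝ) + y * I : ℂ)
    rw [hre, abs_of_nonneg (by linarith)] at this
    linarith
  have h2 : X ^ A ≤ T ^ A := Real.rpow_le_rpow hX.le hXT (by linarith)
  have h3 : Real.exp (A ^ 2 - y ^ 2) ≤ Real.exp (A ^ 2) := by
    apply Real.exp_le_exp.mpr
    nlinarith [sq_nonneg y]
  have h4 : 0 ≤ X ^ A := Real.rpow_nonneg hX.le _
  have h5 : X ^ A * Real.exp (A ^ 2 - y ^ 2) ≤ T ^ A * Real.exp (A ^ 2) := by
    apply mul_le_mul h2 h3 (Real.exp_pos _).le (h4.trans h2)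
  have h6 : 0 ≤ X ^ A * Real.exp (A ^ 2 - y ^ 2) := by positivity
  exact (div_le_self h6 h1).trans h5

end Long

open Long in
theorem stLong (h4 : StHalf) (h5 : StMove) (h6 : StPairA) (h7 : StBack) (h8 : StMS) : StLong := by
  obtain ⟨T₄, hT₄, h4⟩ := h4
  obtain ⟨T₅, hT₅, h5⟩ := h5 1000 (by norm_num)
  obtain ⟨T₆, hT₆, h6⟩ := h6 1000 (by norm_num)
  obtain ⟨T₇, hT₇, h7⟩ := h7 1000 (by norm_num)
  obtain ⟨T₈, hT₈, h8⟩ := h8
  -- the final inequality
  have hfin : ∀ᶠ T : ℝ in atTop, T ^ (-(6 / 1000) : ℝ) + T ^ (-1 : ℝ) +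
      2 * Real.exp (1000 ^ 2) * Real.log T * T ^ (-1 : ℝ) + T ^ (-(1 / 50) : ℝ) ≤
      T ^ (-(5 / 1000) : ℝ) := by
    have l1 : Tendsto (fun T : ℝ => T ^ (-(1 / 1000) : ℝ)) atTop (𝓝 0) :=
      tendsto_rpow_neg_atTop (by norm_num)
    have l2 : Tendsto (fun T : ℝ => T ^ (-(995 / 1000) : ℝ)) atTop (𝓝 0) :=
      tendsto_rpow_neg_atTop (by norm_num)
    have l3 : Tendsto (fun T : ℝ => Real.log T * T ^ (-(995 / 1000) : ℝ)) atTop (𝓝 0) := by
      have := (isLittleO_log_rpow_atTop (r := 995 / 1000) (by norm_num)).tendsto_div_nhds_zero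
      refine this.congr' ?_
      filter_upwards [eventually_ge_atTop 0] with T hT
      rw [Real.rpow_neg hT, div_eq_mul_inv]
    have l4 : Tendsto (fun T : ℝ => T ^ (-(15 / 1000) : ℝ)) atTop (𝓝 0) :=
      tendsto_rpow_neg_atTop (by norm_num)
    have l5 := ((l1.add l2).add (l3.const_mul (2 * Real.exp (1000 ^ 2)))).add l4
    rw [mul_zero, add_zero, add_zero, add_zero] at l5
    filter_upwards [l5.eventually_le_const (zero_lt_one), eventually_gt_atTop 0] with T hT hT0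
    have p0 : 0 < T ^ (-(5 / 1000) : ℝ) := Real.rpow_pos_of_pos hT0 _
    have e1 : T ^ (-(6 / 1000) : ℝ) = T ^ (-(5 / 1000) : ℝ) * T ^ (-(1 / 1000) : ℝ) := by
      rw [← Real.rpow_add hT0]; norm_num
    have e2 : T ^ (-1 : ℝ) = T ^ (-(5 / 1000) : ℝ) * T ^ (-(995 / 1000) : ℝ) := by
      rw [← Real.rpow_add hT0]; norm_num
    have e3 : T ^ (-(1 / 50) : ℝ) = T ^ (-(5 / 1000) : ℝ) * T ^ (-(15 / 1000) : ℝ) := by
      rw [← Real.rpow_add hT0]; norm_num
    rw [e1, e2, e3]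
    have := mul_le_mul_of_nonneg_left hT p0.le
    rw [mul_one] at this
    refine le_trans (le_of_eq ?_) this
    ring
  obtain ⟨T₉, hT₉⟩ := eventually_atTop.mp hfin
  refine ⟨max (max (max T₄ T₅) (max T₆ T₇)) (max T₈ T₉), ?_, ?_⟩
  · exact hT₄.trans (((le_max_left _ _).trans (le_max_left _ _)).trans (le_max_left _ _))
  intro T hT τ hτ1 hτ2 N c hN hc hc0
  have g4 : T₄ ≤ T := (((le_max_left _ _).trans (le_max_left _ _)).trans (le_max_left _ _)).trans hT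
  have g5 : T₅ ≤ T := (((le_max_right _ _).trans (le_max_left _ _)).trans (le_max_left _ _)).trans hT
  have g6 : T₆ ≤ T := (((le_max_left _ _).trans (le_max_right _ _)).trans (le_max_left _ _)).trans hT
  have g7 : T₇ ≤ T := (((le_max_right _ _).trans (le_max_right _ _)).trans (le_max_left _ _)).trans hT
  have g8 : T₈ ≤ T := ((le_max_left _ _).trans (le_max_right _ _)).trans hT
  have g9 : T₉ ≤ T := ((le_max_right _ _).trans (le_max_right _ _)).trans hT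
  have hT3 : 3 ≤ T := hT₄.trans g4
  have hT0 : 0 < T := by linarith
  have hT1 : 1 ≤ T := by linarith
  have hL : 0 < Real.log T := Real.log_pos (by linarith)
  obtain ⟨m1, m2, m3⟩ := h8 T g8 τ N c hN hc hc0
  set H : ℝ → ℂ := fun t => GB N c (fs (1 / 2 + t * I)) with hH
  have hHT : ∀ t, ‖H t‖ ≤ T ^ 2 := by
    intro t
    refine (m2 t).trans ?_
    nlinarith
  have a4 := h4 T g4 τ hτ1 hτ2 H m3 hHT m1
  have a5 := h5 T g5 τ hτ1 hτ2 H m3 hHT
  have a7 := h7 T g7 τ hτ1 hτ2 N c hN hc hc0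
  set X : ℝ := |τ| / (2 * Real.pi) with hX
  have hτ0 : 0 < |τ| := lt_of_lt_of_le (div_pos hT0 hL) hτ1
  have hX0 : 0 < X := by positivity
  have hXT : X ≤ T := by
    rw [hX, div_le_iff₀ (by positivity)]
    have := Real.pi_gt_three
    nlinarith
  -- the value at zero
  have e0 : FH T τ H 0 = EG T τ (fun t => ((‖riemannZeta (1 / 2 + t * I)‖ ^ 2 : ℝ) : ℂ) *
      GB N c (fs (1 / 2 + t * I))) := by
    unfold FH
    congr 1
    funext t
    have h1 : (1 / 2 + 0 + t * I : ℂ) = 1 / 2 + t * I := by ring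
    have h2 : (1 / 2 + 0 - t * I : ℂ) = (starRingEnd ℂ) (1 / 2 + t * I) := by
      rw [map_add, map_mul, conj_ofReal, conj_I, map_div₀, map_one, map_ofNat]
      ring
    rw [h1, h2, riemannZeta_conj, Complex.mul_conj']
    push_cast
    rfl
  -- the error far to the right
  set P : ℝ := T ^ (-(201 / 200) * (1000 - 1) + 1 / 100 : ℝ) with hP
  have hP0 : 0 < P := Real.rpow_pos_of_pos hT0 _
  have hre : ∀ y : ℝ, (((1000 : ℝ) : ℂ) + y * I).re = 1000 := fun y => by simp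
  have herr : ∀ y : ℝ, ‖KN X (((1000 : ℝ) : ℂ) + y * I) * FH T τ H (((1000 : ℝ) : ℂ) + y * I) -
      KN X (((1000 : ℝ) : ℂ) + y * I) * (riemannZeta (1 + 2 * (((1000 : ℝ) : ℂ) + y * I)) *
        RB N c (((1000 : ℝ) : ℂ) + y * I))‖ ≤ Real.exp (1000 ^ 2) * T ^ (-1 : ℝ) := by
    intro y
    rw [← mul_sub, norm_mul]
    have h1 := KN_norm hX0 hXT (by norm_num : (1 : ℝ) ≤ 1000) y
    have h2 := FH_main (by norm_num : (2 : ℝ) ≤ 1000) hT3 (τ := τ) hP0.le hN hc hc0 (hre y)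
      (fun m n hm hn hmn => h6 T g6 τ m n hm hn hmn _ (hre y))
    have h3 : 0 ≤ T ^ (1000 : ℝ) * Real.exp (1000 ^ 2) := by positivity
    refine (mul_le_mul h1 h2 (norm_nonneg _) h3).trans ?_
    have e1 : T ^ (1000 : ℝ) * Real.exp (1000 ^ 2) * (T ^ 2 * (T ^ (1 / 1000 : ℝ) * P)) =
        Real.exp (1000 ^ 2) * T ^ (1000 + (2 + (1 / 1000 +
          (-(201 / 200) * (1000 - 1) + 1 / 100))) : ℝ) := by
      rw [Real.rpow_add hT0, Real.rpow_add hT0, Real.rpow_add hT0, hP]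
      rw [show T ^ (2 : ℝ) = T ^ 2 by
        rw [show (2 : ℝ) = ((2 : ℕ) : ℝ) by norm_num, Real.rpow_natCast]]
      ring
    rw [e1]
    refine mul_le_mul_of_nonneg_left ?_ (Real.exp_pos _).le
    exact Real.rpow_le_rpow_of_exponent_le hT1 (by norm_num)
  -- integrability
  have i1 : IntervalIntegrable (fun y : ℝ => KN X (((1000 : ℝ) : ℂ) + y * I) *
      FH T τ H (((1000 : ℝ) : ℂ) + y * I)) volume (-Real.log T) (Real.log T) :=
    ((KN_cont hX0 (by norm_num : (1 : ℝ) ≤ 1000)).mul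
      (FH_cont (by norm_num : (1 : ℝ) ≤ 1000) T τ m3 hHT)).intervalIntegrable _ _
  have hzc : Continuous fun y : ℝ => riemannZeta (1 + 2 * (((1000 : ℝ) : ℂ) + y * I)) := by
    refine continuous_iff_continuousAt.mpr fun y => ?_
    exact ContinuousAt.comp (f := fun y : ℝ => (1 + 2 * (((1000 : ℝ) : ℂ) + y * I) : ℂ))
      (g := riemannZeta) (zeta_contAt (by simp)) (by fun_prop)
  have i2 : IntervalIntegrable (fun y : ℝ => KN X (((1000 : ℝ) : ℂ) + y * I) *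
      (riemannZeta (1 + 2 * (((1000 : ℝ) : ℂ) + y * I)) * RB N c (((1000 : ℝ) : ℂ) + y * I)))
      volume (-Real.log T) (Real.log T) :=
    ((KN_cont hX0 (by norm_num : (1 : ℝ) ≤ 1000)).mul
      (hzc.mul (RB_cont N c 1000))).intervalIntegrable _ _
  have hdiff : ‖(∫ y : ℝ in (-Real.log T)..(Real.log T), KN X (((1000 : ℝ) : ℂ) + y * I) *
      FH T τ H (((1000 : ℝ) : ℂ) + y * I)) - ∫ y : ℝ in (-Real.log T)..(Real.log T),
        KN X (((1000 : ℝ) : ℂ) + y * I) * (riemannZeta (1 + 2 * (((1000 : ℝ) : ℂ) + y * I)) *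
        RB N c (((1000 : ℝ) : ℂ) + y * I))‖ ≤
        2 * Real.exp (1000 ^ 2) * Real.log T * T ^ (-1 : ℝ) := by
    rw [← intervalIntegral.integral_sub i1 i2]
    have h1 := intervalIntegral.norm_integral_le_of_norm_le_const
      (a := -Real.log T) (b := Real.log T) (C := Real.exp (1000 ^ 2) * T ^ (-1 : ℝ))
      (f := fun y : ℝ => KN X (((1000 : ℝ) : ℂ) + y * I) *
      FH T τ H (((1000 : ℝ) : ℂ) + y * I) - KN X (((1000 : ℝ) : ℂ) + y * I) *
      (riemannZeta (1 + 2 * (((1000 : ℝ) : ℂ) + y * I)) *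
        RB N c (((1000 : ℝ) : ℂ) + y * I))) (fun y _ => herr y)
    refine h1.trans (le_of_eq ?_)
    rw [abs_of_pos (by linarith)]
    ring
  -- assembling
  rw [← e0]
  set i₁ := ∫ y : ℝ in (-Real.log T)..(Real.log T),
      KN X ((1 / 200 : ℝ) + y * I) * FH T τ H ((1 / 200 : ℝ) + y * I) with hi₁
  set i₂ := ∫ y : ℝ in (-Real.log T)..(Real.log T), KN X (((1000 : ℝ) : ℂ) + y * I) *
      FH T τ H (((1000 : ℝ) : ℂ) + y * I) with hi₂
  set i₃ := ∫ y : ℝ in (-Real.log T)..(Real.log T),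
        KN X (((1000 : ℝ) : ℂ) + y * I) * (riemannZeta (1 + 2 * (((1000 : ℝ) : ℂ) + y * I)) *
        RB N c (((1000 : ℝ) : ℂ) + y * I)) with hi₃
  set κ : ℂ := ((1 / Real.pi : ℝ) : ℂ) with hκ
  have hκ1 : ‖κ‖ ≤ 1 := by
    rw [hκ, norm_real, Real.norm_eq_abs, abs_of_pos (by positivity), div_le_one Real.pi_pos]
    linarith [Real.pi_gt_three]
  set m₀ := RB N c 0 * ((Real.log X + 2 * Real.eulerMascheroniConstant : ℝ) : ℂ) +
        deriv (RB N c) 0 with hm₀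
  have e5 : FH T τ H 0 - m₀ = (FH T τ H 0 - κ * i₁) + κ * (i₁ - i₂) + κ * (i₂ - i₃) +
      (κ * i₃ - m₀) := by ring
  rw [e5]
  have n1 : ‖κ * (i₁ - i₂)‖ ≤ T ^ (-1 : ℝ) := by
    rw [norm_mul]
    have := norm_nonneg (i₁ - i₂)
    nlinarith
  have n2 : ‖κ * (i₂ - i₃)‖ ≤ 2 * Real.exp (1000 ^ 2) * Real.log T * T ^ (-1 : ℝ) := by
    rw [norm_mul]
    have := norm_nonneg (i₂ - i₃)
    nlinarith
  refine le_trans ?_ (hT₉ T g9)
  refine (norm_add_le _ _).trans (add_le_add ?_ a7)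
  refine (norm_add_le _ _).trans (add_le_add ?_ n2)
  refine (norm_add_le _ _).trans (add_le_add a4 n1)

end K5
end Pool.Agent.Lib.MP_973905_nt
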